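import Mathlib

/-!
# Unicorn, module C1: smooth dependence of solutions of `u' = g(u)` on time and parameters

Main result: `contDiffOn_of_solutions`.  The proof: superposition operators on `C(K, E)` are
smooth, so near time zero the inverse function theorem in `C([0,1], E) × ℝ` gives a smooth local
flow; the general case follows by continuation in time.
-/

set_option autoImplicit false

open Set Filter MeasureTheory intervalIntegral
open scoped ContDiff Topology Uniformity

namespace Pool.Agent.Unicorn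

universe u

section Nemytskii

variable {K : Type*} [TopologicalSpace K] [CompactSpace K]

/-- Superposition operator. -/
def nem {E F : Type*} [NormedAddCommGroup E] [NormedAddCommGroup F]
    (g : E → F) (hg : Continuous g) (f : C(K, E)) : C(K, F) :=
  ⟨fun x => g (f x), hg.comp f.continuous⟩

/-- Pointwise application as a bilinear map. -/
noncomputable def appl (E F : Type*) [NormedAddCommGroup E] [NormedSpace ℝ E]
    [NormedAddCommGroup F] [NormedSpace ℝ F] :
    C(K, E →L[ℝ] F) →L[ℝ] (C(K, E) →L[ℝ] C(K, F)) :=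
  LinearMap.mkContinuous₂
    (LinearMap.mk₂ ℝ (fun (A : C(K, E →L[ℝ] F)) (w : C(K, E)) =>
        (⟨fun x => A x (w x), A.continuous.clm_apply w.continuous⟩ : C(K, F)))
      (fun A B w => by ext x; simp)
      (fun c A w => by ext x; simp)
      (fun A v w => by ext x; simp)
      (fun c A w => by ext x; simp)) 1
    (fun A w => by
      rw [one_mul]
      refine (ContinuousMap.norm_le _ (by positivity)).2 fun x => ?_
      simp only [LinearMap.mk₂_apply, ContinuousMap.coe_mk]
      refine (ContinuousLinearMap.le_opNorm _ _).trans ?_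
      gcongr
      · exact ContinuousMap.norm_coe_le_norm A x
      · exact ContinuousMap.norm_coe_le_norm w x)

theorem appl_apply {E F : Type*} [NormedAddCommGroup E] [NormedSpace ℝ E]
    [NormedAddCommGroup F] [NormedSpace ℝ F] (A : C(K, E →L[ℝ] F)) (w : C(K, E)) (x : K) :
    appl E F A w x = A x (w x) := rfl

theorem hasFDerivAt_nem {E F : Type*} [NormedAddCommGroup E] [NormedSpace ℝ E]
    [NormedAddCommGroup F] [NormedSpace ℝ F] {g : E → F} {g' : E → E →L[ℝ] F}
    (hg : ∀ x, HasFDerivAt g (g' x) x) (hg' : Continuous g') (hgc : Continuous g)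
    (f : C(K, E)) :
    HasFDerivAt (nem (K := K) g hgc) (appl E F (nem g' hg' f)) f := by
  rw [hasFDerivAt_iff_isLittleO_nhds_zero, Asymptotics.isLittleO_iff]
  intro ε hε
  have hK : IsCompact (range f) := isCompact_range f.continuous
  have hU := hK.uniformContinuousAt_of_continuousAt g' (fun a _ => hg'.continuousAt)
    (Metric.dist_mem_uniformity hε)
  rw [Metric.mem_uniformity_dist] at hU
  obtain ⟨δ, hδ, hU⟩ := hU
  filter_upwards [Metric.ball_mem_nhds (0 : C(K, E)) hδ] with w hw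
  rw [mem_ball_zero_iff] at hw
  refine (ContinuousMap.norm_le _ (by positivity)).2 fun x => ?_
  have hwx : ‖w x‖ < δ := (ContinuousMap.norm_coe_le_norm w x).trans_lt hw
  have hball : ∀ y ∈ Metric.ball (f x) δ, HasFDerivWithinAt g (g' y) (Metric.ball (f x) δ) y :=
    fun y _ => (hg y).hasFDerivWithinAt
  have hb : ∀ y ∈ Metric.ball (f x) δ, ‖g' y - g' (f x)‖ ≤ ε := by
    intro y hy
    have h1 : dist (f x) y < δ := by rw [dist_comm]; exact hy
    have h2 := hU h1 (mem_range_self x)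
    change dist (g' (f x)) (g' y) < ε at h2
    rw [← dist_eq_norm, dist_comm]
    exact h2.le
  have h3 := (convex_ball (f x) δ).norm_image_sub_le_of_norm_hasFDerivWithin_le' hball hb
    (Metric.mem_ball_self hδ) (y := f x + w x) (by simpa using hwx)
  simp only [nem, ContinuousMap.sub_apply, ContinuousMap.add_apply, ContinuousMap.coe_mk,
    appl_apply]
  have h4 : f x + w x - f x = w x := by abel
  rw [h4] at h3
  refine h3.trans ?_
  gcongr
  exact ContinuousMap.norm_coe_le_norm w x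

theorem contDiff_nem {E : Type u} [NormedAddCommGroup E] [NormedSpace ℝ E] (n : ℕ) :
    ∀ {F : Type u} [NormedAddCommGroup F] [NormedSpace ℝ F] {g : E → F}
      (_ : ContDiff ℝ n g) (hgc : Continuous g), ContDiff ℝ n (nem (K := K) g hgc) := by
  induction n with
  | zero =>
    intro F _ _ g _ hgc
    rw [Nat.cast_zero, contDiff_zero]
    exact ContinuousMap.continuous_postcomp (⟨g, hgc⟩ : C(E, F))
  | succ n ih =>
    intro F _ _ g hg hgc
    rw [Nat.cast_succ] at hg ⊢
    rw [contDiff_succ_iff_hasFDerivAt] at hg ⊢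
    obtain ⟨g', hg'd, hg'⟩ := hg
    refine ⟨fun f => appl E F (nem g' hg'd.continuous f), ?_, ?_⟩
    · exact (appl (K := K) E F).contDiff.comp (ih hg'd hg'd.continuous)
    · intro f
      exact hasFDerivAt_nem hg' hg'd.continuous hgc f

end Nemytskii

section Integral

variable {E : Type*} [NormedAddCommGroup E] [NormedSpace ℝ E] [CompleteSpace E]

/-- The primitive operator `w ↦ (τ ↦ ∫_0^τ w)` on `C([0,1], E)`. -/
noncomputable def prim (E : Type*) [NormedAddCommGroup E] [NormedSpace ℝ E] [CompleteSpace E] :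
    C(Icc (0:ℝ) 1, E) →L[ℝ] C(Icc (0:ℝ) 1, E) :=
  LinearMap.mkContinuous
    { toFun := fun w => ⟨fun τ => ∫ σ in (0:ℝ)..τ, IccExtend zero_le_one w σ, by
        have h1 : Continuous (IccExtend (zero_le_one (α := ℝ)) w) := w.continuous.Icc_extend'
        have h2 : Continuous fun t : ℝ => ∫ σ in (0:ℝ)..t, IccExtend zero_le_one w σ :=
          intervalIntegral.continuous_primitive (fun a b => h1.intervalIntegrable a b) 0
        exact h2.comp continuous_subtype_val⟩
      map_add' := fun v w => by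
        ext τ
        have hv : Continuous (IccExtend (zero_le_one (α := ℝ)) v) := v.continuous.Icc_extend'
        have hw : Continuous (IccExtend (zero_le_one (α := ℝ)) w) := w.continuous.Icc_extend'
        simp only [ContinuousMap.coe_mk, ContinuousMap.add_apply]
        rw [← intervalIntegral.integral_add (hv.intervalIntegrable _ _)
          (hw.intervalIntegrable _ _)]
        rfl
      map_smul' := fun c w => by
        ext τ
        simp only [ContinuousMap.coe_mk, ContinuousMap.smul_apply, RingHom.id_apply]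
        rw [← intervalIntegral.integral_smul]
        rfl } 1
    (fun w => by
      rw [one_mul]
      refine (ContinuousMap.norm_le _ (by positivity)).2 fun τ => ?_
      simp only [LinearMap.coe_mk, AddHom.coe_mk, ContinuousMap.coe_mk]
      have h := intervalIntegral.norm_integral_le_of_norm_le_const (a := 0) (b := (τ : ℝ))
        (C := ‖w‖) (f := IccExtend zero_le_one w)
        (fun x _ => ContinuousMap.norm_coe_le_norm w _)
      refine h.trans ?_
      have h0 := τ.2.1
      have h1 := τ.2.2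
      rw [sub_zero, abs_of_nonneg h0]
      nlinarith [norm_nonneg w])

theorem prim_apply (w : C(Icc (0:ℝ) 1, E)) (τ : Icc (0:ℝ) 1) :
    prim E w τ = ∫ σ in (0:ℝ)..τ, IccExtend zero_le_one w σ := rfl

end Integral

section Local

variable {E : Type u} [NormedAddCommGroup E] [NormedSpace ℝ E]

/-- Constant functions, as a continuous linear map. -/
noncomputable def constL (E : Type u) [NormedAddCommGroup E] [NormedSpace ℝ E] :
    E →L[ℝ] C(Icc (0:ℝ) 1, E) :=
  LinearMap.mkContinuous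
    { toFun := fun x => ContinuousMap.const _ x
      map_add' := fun _ _ => rfl
      map_smul' := fun _ _ => rfl } 1
    (fun x => by
      rw [one_mul]
      exact (ContinuousMap.norm_le _ (by positivity)).2 fun τ => le_rfl)

/-- Uniqueness for the rescaled equation `V' = s • g(V)` on `[0,1]`. -/
theorem unique_rescaled [FiniteDimensional ℝ E] {g : E → E} (hg : ContDiff ℝ 1 g) {s : ℝ}
    {V y : ℝ → E} (hV : ∀ τ ∈ Icc (0:ℝ) 1, HasDerivAt V (s • g (V τ)) τ)
    (hy : ∀ τ, HasDerivAt y (g (y τ)) τ) (h0 : V 0 = y 0) : V 1 = y s := by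
  have hVc : ContinuousOn V (Icc 0 1) := fun τ hτ => (hV τ hτ).continuousAt.continuousWithinAt
  have hyd : ∀ τ : ℝ, HasDerivAt (fun τ => y (s * τ)) (s • g (y (s * τ))) τ := by
    intro τ
    have h1 : HasDerivAt (fun τ : ℝ => s * τ) s τ := by
      simpa using (hasDerivAt_id τ).const_mul s
    exact (hy (s * τ)).scomp τ h1
  have hyc : ContinuousOn (fun τ => y (s * τ)) (Icc 0 1) :=
    fun τ _ => (hyd τ).continuousAt.continuousWithinAt
  obtain ⟨R₁, hR₁⟩ := (isCompact_Icc.image_of_continuousOn hVc).isBounded.subset_closedBall 0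
  obtain ⟨R₂, hR₂⟩ := (isCompact_Icc.image_of_continuousOn hyc).isBounded.subset_closedBall 0
  set B : Set E := Metric.closedBall 0 (max R₁ R₂) with hB
  have hBc : IsCompact B := isCompact_closedBall _ _
  obtain ⟨K, hK⟩ : ∃ K, LipschitzOnWith K g B :=
    LocallyLipschitzOn.exists_lipschitzOnWith_of_compact hBc
      (hg.locallyLipschitz.locallyLipschitzOn)
  have hK' : ∀ t ∈ Ico (0:ℝ) 1, LipschitzOnWith (‖s‖₊ * K) (fun x => s • g x) B := by
    intro t _
    have h := (lipschitzWith_smul (β := E) s).comp_lipschitzOnWith hK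
    exact h
  have hu := ODE_solution_unique_of_mem_Icc_right (v := fun _ x => s • g x) (s := fun _ => B)
    (K := ‖s‖₊ * K) (a := 0) (b := 1) (f := V) (g := fun τ => y (s * τ)) hK' hVc
    (fun t ht => (hV t ⟨ht.1, ht.2.le⟩).hasDerivWithinAt)
    (fun t ht => Metric.closedBall_subset_closedBall (le_max_left _ _)
      (hR₁ (mem_image_of_mem _ ⟨ht.1, ht.2.le⟩))) hyc
    (fun t _ => (hyd t).hasDerivWithinAt)
    (fun t ht => Metric.closedBall_subset_closedBall (le_max_right _ _)
      (hR₂ (mem_image_of_mem (fun τ => y (s * τ)) ⟨ht.1, ht.2.le⟩)))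
    (by simpa using h0)
  have := hu (right_mem_Icc.2 zero_le_one)
  simpa using this

theorem exists_local_flow [FiniteDimensional ℝ E] {g : E → E} (hg : ContDiff ℝ ∞ g) (n : ℕ)
    (x₀ : E) :
    ∃ ψ : E × ℝ → E, ContDiffAt ℝ n ψ (x₀, 0) ∧
      ∀ᶠ z in 𝓝 ((x₀, 0) : E × ℝ), ∀ y : ℝ → E, y 0 = z.1 →
        (∀ s, HasDerivAt y (g (y s)) s) → y z.2 = ψ z := by
  have : CompleteSpace E := FiniteDimensional.complete ℝ E
  set m : ℕ := n + 1 with hm
  have hgm : ContDiff ℝ m g := hg.of_le (by exact_mod_cast le_top)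
  have hg1 : ContDiff ℝ 1 g := hg.of_le (by exact_mod_cast le_top)
  have hgc : Continuous g := hg.continuous
  let X := C(Icc (0:ℝ) 1, E)
  let G : X → X := fun v => prim E (nem g hgc v)
  have hG : ContDiff ℝ m G := (prim E).contDiff.comp (contDiff_nem m hgm hgc)
  let Ψ : X × ℝ → X × ℝ := fun p => (p.1 - p.2 • G p.1, p.2)
  have hΨ : ContDiff ℝ m Ψ :=
    (contDiff_fst.sub (contDiff_snd.smul (hG.comp contDiff_fst))).prodMk contDiff_snd
  let v₀ : X := ContinuousMap.const _ x₀
  let c : X := G v₀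
  let L : (X × ℝ) ≃L[ℝ] (X × ℝ) := ContinuousLinearEquiv.equivOfInverse
    ((ContinuousLinearMap.fst ℝ X ℝ - (ContinuousLinearMap.snd ℝ X ℝ).smulRight c).prod
      (ContinuousLinearMap.snd ℝ X ℝ))
    ((ContinuousLinearMap.fst ℝ X ℝ + (ContinuousLinearMap.snd ℝ X ℝ).smulRight c).prod
      (ContinuousLinearMap.snd ℝ X ℝ))
    (fun p => by simp)
    (fun p => by simp)
  have hL : HasFDerivAt Ψ (L : (X × ℝ) →L[ℝ] (X × ℝ)) (v₀, 0) := by
    have h1 : HasFDerivAt (fun p : X × ℝ => G p.1)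
        (fderiv ℝ (fun p : X × ℝ => G p.1) (v₀, 0)) (v₀, 0) :=
      ((hG.comp contDiff_fst).differentiable (by simp [hm]) _).hasFDerivAt
    have h2 : HasFDerivAt (fun p : X × ℝ => p.2 • G p.1)
        ((0:ℝ) • (fderiv ℝ (fun p : X × ℝ => G p.1) (v₀, 0)) +
          (ContinuousLinearMap.snd ℝ X ℝ).smulRight (G v₀)) (v₀, 0) :=
      (hasFDerivAt_snd (p := ((v₀, 0) : X × ℝ))).smul h1
    rw [zero_smul, zero_add] at h2
    exact ((hasFDerivAt_fst (p := ((v₀, 0) : X × ℝ))).sub h2).prodMk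
      (hasFDerivAt_snd (p := ((v₀, 0) : X × ℝ)))
  have hΨat : ContDiffAt ℝ m Ψ (v₀, 0) := hΨ.contDiffAt
  have hm0 : (m : WithTop ℕ∞) ≠ 0 := by simp [hm]
  let Φ := hΨat.toOpenPartialHomeomorph Ψ hL hm0
  have hΨv₀ : Ψ (v₀, 0) = (v₀, 0) := by simp [Ψ]
  have htgt : ((v₀, 0) : X × ℝ) ∈ Φ.target := by
    have := hΨat.image_mem_toOpenPartialHomeomorph_target hL hm0
    rw [hΨv₀] at this
    exact this
  have hinv : ContDiffAt ℝ m Φ.symm (v₀, 0) := by
    have := hΨat.to_localInverse hL hm0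
    rw [hΨv₀] at this
    exact this
  let κ : E × ℝ → X × ℝ := fun z => (ContinuousMap.const _ z.1, z.2)
  have hκ : ContDiff ℝ m κ := by
    have h1 : ContDiff ℝ m (fun x : E => (ContinuousMap.const (Icc (0:ℝ) 1) x)) :=
      (constL E).contDiff
    exact (h1.comp contDiff_fst).prodMk contDiff_snd
  let ev : X →L[ℝ] E := ContinuousMap.evalCLM ℝ (⟨1, right_mem_Icc.2 zero_le_one⟩ : Icc (0:ℝ) 1)
  refine ⟨fun z => ev (Φ.symm (κ z)).1, ?_, ?_⟩
  · have h2 : ContDiffAt ℝ m (fun z => ev (Φ.symm (κ z)).1) (x₀, 0) := by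
      refine ev.contDiff.contDiffAt.comp _ ?_
      refine contDiffAt_fst.comp _ ?_
      exact ContDiffAt.comp (x₀, 0) (g := Φ.symm) (f := κ) hinv hκ.contDiffAt
    exact h2.of_le (by exact_mod_cast Nat.le_succ n)
  · have hev : ∀ᶠ z in 𝓝 ((x₀, 0) : E × ℝ), κ z ∈ Φ.target :=
      hκ.continuous.continuousAt.eventually (Φ.open_target.mem_nhds htgt)
    filter_upwards [hev] with z hz y hy0 hy
    have hr : Ψ (Φ.symm (κ z)) = κ z := Φ.right_inv hz
    set p := Φ.symm (κ z) with hp
    have hp2 : p.2 = z.2 := congrArg Prod.snd hr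
    have hp1 : p.1 - p.2 • G p.1 = ContinuousMap.const _ z.1 := congrArg Prod.fst hr
    set w : ℝ → E := IccExtend (zero_le_one (α := ℝ)) (nem g hgc p.1) with hw
    have hwc : Continuous w := (nem g hgc p.1).continuous.Icc_extend'
    set V : ℝ → E := fun τ => z.1 + z.2 • ∫ σ in (0:ℝ)..τ, w σ with hVdef
    have hVp : ∀ τ (hτ : τ ∈ Icc (0:ℝ) 1), p.1 ⟨τ, hτ⟩ = V τ := by
      intro τ hτ
      have h1 : (p.1 - p.2 • G p.1) ⟨τ, hτ⟩ = z.1 := by rw [hp1]; rfl
      have h1 : p.1 ⟨τ, hτ⟩ - p.2 • (G p.1 ⟨τ, hτ⟩) = z.1 := h1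
      rw [hp2, sub_eq_iff_eq_add] at h1
      rw [h1]
      rfl
    have hV : ∀ τ ∈ Icc (0:ℝ) 1, HasDerivAt V (z.2 • g (V τ)) τ := by
      intro τ hτ
      have h1 : HasDerivAt (fun τ : ℝ => ∫ σ in (0:ℝ)..τ, w σ) (w τ) τ :=
        intervalIntegral.integral_hasDerivAt_right (hwc.intervalIntegrable _ _)
          (hwc.stronglyMeasurableAtFilter _ _) hwc.continuousAt
      have h2 : w τ = g (V τ) := by
        rw [← hVp τ hτ, hw, IccExtend_of_mem _ _ hτ]
        rfl
      rw [← h2]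
      exact (h1.const_smul z.2).const_add z.1
    have h1 := unique_rescaled hg1 hV hy (by simp [hVdef, hy0])
    rw [← h1, ← hVp 1 (right_mem_Icc.2 zero_le_one)]
    rfl

end Local

/-- **Smooth dependence of solutions on parameters.** -/
theorem contDiffOn_of_solutions_nat {P : Type*} [NormedAddCommGroup P] [NormedSpace ℝ P]
    {E : Type u} [NormedAddCommGroup E] [NormedSpace ℝ E] [FiniteDimensional ℝ E]
    {g : E → E} (hg : ContDiff ℝ ∞ g) {S : Set P} (hS : IsOpen S) {u : P → ℝ → E} (n : ℕ)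
    (h0 : ContDiffOn ℝ n (fun p => u p 0) S)
    (hu : ∀ p ∈ S, ∀ s, HasDerivAt (u p) (g (u p s)) s) {p₀ : P} (hp₀ : p₀ ∈ S) (s : ℝ) :
    ContDiffAt ℝ n (fun z : P × ℝ => u z.1 z.2) (p₀, s) := by
  have hSn : S ∈ 𝓝 p₀ := hS.mem_nhds hp₀
  set A : Set ℝ := {s : ℝ | ContDiffAt ℝ n (fun z : P × ℝ => u z.1 z.2) (p₀, s)} with hA
  have hopen : IsOpen A := by
    rw [isOpen_iff_mem_nhds]
    intro s hs
    have h1 : ∀ᶠ z in 𝓝 ((p₀, s) : P × ℝ), ContDiffAt ℝ n (fun z : P × ℝ => u z.1 z.2) z :=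
      ContDiffAt.eventually hs (by simp)
    have h2 : Tendsto (fun s : ℝ => ((p₀, s) : P × ℝ)) (𝓝 s) (𝓝 (p₀, s)) :=
      (Continuous.prodMk_right p₀).tendsto s
    exact h2.eventually h1
  -- the key step
  have key : ∀ s₀ : ℝ, ∃ T ∈ 𝓝 s₀, ∀ s₁ ∈ T,
      ContDiffAt ℝ n (fun p => u p s₁) p₀ → s₀ ∈ A := by
    intro s₀
    obtain ⟨ψ, hψ, hψu⟩ := exists_local_flow hg n (u p₀ s₀)
    have hψ' : ∀ᶠ z in 𝓝 ((u p₀ s₀, 0) : E × ℝ), ContDiffAt ℝ n ψ z :=
      ContDiffAt.eventually hψ (by simp)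
    have hc : ContinuousAt (fun s : ℝ => ((u p₀ s, s₀ - s) : E × ℝ)) s₀ :=
      (hu p₀ hp₀ s₀).continuousAt.prodMk (continuousAt_const.sub continuousAt_id)
    have hc' : Tendsto (fun s : ℝ => ((u p₀ s, s₀ - s) : E × ℝ)) (𝓝 s₀) (𝓝 (u p₀ s₀, 0)) := by
      have := hc.tendsto
      rwa [sub_self] at this
    have hall := hc'.eventually (hψ'.and hψu.eventually_nhds)
    refine ⟨_, hall, ?_⟩
    intro s₁ hs₁ hd
    obtain ⟨h1, h2⟩ := hs₁
    have h3 : ContDiffAt ℝ n (fun z : P × ℝ => ((u z.1 s₁, z.2 - s₁) : E × ℝ)) (p₀, s₀) :=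
      (ContDiffAt.comp (p₀, s₀) (g := fun p => u p s₁) hd contDiffAt_fst).prodMk
        (contDiffAt_snd.sub contDiffAt_const)
    have h4 : ContDiffAt ℝ n (fun z : P × ℝ => ψ (u z.1 s₁, z.2 - s₁)) (p₀, s₀) :=
      ContDiffAt.comp (p₀, s₀) (g := ψ) h1 h3
    have h5 : ∀ᶠ z in 𝓝 ((p₀, s₀) : P × ℝ), ∀ y : ℝ → E, y 0 = u z.1 s₁ →
        (∀ s, HasDerivAt y (g (y s)) s) → y (z.2 - s₁) = ψ (u z.1 s₁, z.2 - s₁) :=
      h3.continuousAt.eventually h2
    have h6 : ∀ᶠ z in 𝓝 ((p₀, s₀) : P × ℝ), z.1 ∈ S :=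
      continuousAt_fst.eventually hSn
    refine h4.congr_of_eventuallyEq ?_
    filter_upwards [h5, h6] with z hz hzS
    have h7 := hz (fun σ => u z.1 (σ + s₁)) (by simp) (fun σ => by
      have h8 := (hu z.1 hzS (σ + s₁)).scomp σ ((hasDerivAt_id σ).add_const s₁)
      rw [one_smul] at h8
      exact h8)
    simpa using h7
  have h0A : (0:ℝ) ∈ A := by
    obtain ⟨T, hT, hTA⟩ := key 0
    exact hTA 0 (mem_of_mem_nhds hT) (h0.contDiffAt hSn)
  have hclosed : IsClosed A := by
    rw [← closure_subset_iff_isClosed]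
    intro s₀ hs₀
    obtain ⟨T, hT, hTA⟩ := key s₀
    obtain ⟨s₁, hs₁T, hs₁A⟩ := mem_closure_iff_nhds.1 hs₀ T hT
    refine hTA s₁ hs₁T ?_
    have h1 : ContDiffAt ℝ n (fun p : P => ((p, s₁) : P × ℝ)) p₀ :=
      contDiffAt_id.prodMk contDiffAt_const
    have h2 : ContDiffAt ℝ n (fun z : P × ℝ => u z.1 z.2) (p₀, s₁) := hs₁A
    exact ContDiffAt.comp p₀ (g := fun z : P × ℝ => u z.1 z.2) h2 h1
  have huniv : A = univ := IsClopen.eq_univ ⟨hclosed, hopen⟩ ⟨0, h0A⟩
  have : s ∈ A := huniv ▸ mem_univ s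
  exact this

/-- **Smooth dependence of solutions on time and parameters.** -/
theorem contDiffOn_of_solutions {P : Type*} [NormedAddCommGroup P] [NormedSpace ℝ P]
    {E : Type u} [NormedAddCommGroup E] [NormedSpace ℝ E] [FiniteDimensional ℝ E]
    {g : E → E} (hg : ContDiff ℝ ∞ g) {S : Set P} (hS : IsOpen S) {u : P → ℝ → E}
    (h0 : ContDiffOn ℝ ∞ (fun p => u p 0) S)
    (hu : ∀ p ∈ S, ∀ s, HasDerivAt (u p) (g (u p s)) s) :
    ContDiffOn ℝ ∞ (fun z : P × ℝ => u z.1 z.2) (S ×ˢ univ) := by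
  rw [contDiffOn_infty]
  intro n z hz
  obtain ⟨p, s⟩ := z
  exact (contDiffOn_of_solutions_nat hg hS n (h0.of_le (by exact_mod_cast le_top)) hu hz.1
    s).contDiffWithinAt

end Pool.Agent.Unicorn
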