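import Pool.Agent.Unicorn.B0Xi

/-!
# Unicorn, module B7_L1: analyticity of `Ξ` and `𝒯`
-/

set_option autoImplicit false
set_option linter.unusedSectionVars false

open Set MeasureTheory intervalIntegral Filter Topology
open scoped ContDiff BoundedContinuousFunction

namespace Pool.Agent.Unicorn.L1

variable {l : ℝ} [h0 : Fact (0 < l)]
variable {Z : Type*} [NormedAddCommGroup Z] [NormedSpace ℝ Z] {z : Z}
  {Q G F : Z → XX l} {w : Z → AC l}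

section generic

variable {V V' V'' : Type*} [NormedAddCommGroup V] [NormedSpace ℝ V] [NormedAddCommGroup V']
  [NormedSpace ℝ V'] [NormedAddCommGroup V''] [NormedSpace ℝ V'']

lemma an_smul (c : ℝ) {f : Z → V} (hf : AnalyticAt ℝ f z) :
    AnalyticAt ℝ (fun y => c • f y) z := hf.const_smul

lemma an_add {f g : Z → V} (hf : AnalyticAt ℝ f z) (hg : AnalyticAt ℝ g z) :
    AnalyticAt ℝ (fun y => f y + g y) z := hf.add hg

lemma an_sub {f g : Z → V} (hf : AnalyticAt ℝ f z) (hg : AnalyticAt ℝ g z) :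
    AnalyticAt ℝ (fun y => f y - g y) z := hf.sub hg

lemma an_clm (L : V →L[ℝ] V') {f : Z → V} (hf : AnalyticAt ℝ f z) :
    AnalyticAt ℝ (fun y => L (f y)) z := (L.analyticAt _).comp hf

lemma an_bil (B : V →L[ℝ] V' →L[ℝ] V'') {f : Z → V} {g : Z → V'} (hf : AnalyticAt ℝ f z)
    (hg : AnalyticAt ℝ g z) : AnalyticAt ℝ (fun y => B (f y) (g y)) z :=
  AnalyticAt.comp (g := fun p : V × V' => B p.1 p.2) (f := fun y => (f y, g y))
    (B.analyticAt_bilinear _) (hf.prod hg)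

end generic

section algebra

variable {α : Type*} [TopologicalSpace α] {f g : Z → (α →ᵇ ℝ)}

lemma mulB (hf : AnalyticAt ℝ f z) (hg : AnalyticAt ℝ g z) :
    AnalyticAt ℝ (fun y => f y * g y) z := hf.mul hg

lemma cmulB (c : α →ᵇ ℝ) (hg : AnalyticAt ℝ g z) :
    AnalyticAt ℝ (fun y => c * g y) z := analyticAt_const.mul hg

lemma powB (hf : AnalyticAt ℝ f z) (n : ℕ) :
    AnalyticAt ℝ (fun y => f y ^ n) z := hf.pow n

end algebra

lemma eC_ge (w : AC l) (p : TT l (Icc 0 1)) : l ≤ eC w p := by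
  have h1 : eC w p = p.s + p.rho * w p ^ 2 := rfl
  rw [h1]
  have h2 := mul_nonneg p.rho_nonneg (sq_nonneg (w p))
  linarith [p.l_le_s]

lemma isUnit_eC (w : AC l) : IsUnit (eC w) := B1.isUnit_of_le h0.out (eC_ge w)

lemma an_uC (hw : AnalyticAt ℝ w z) (hu : IsUnit (w z)) :
    AnalyticAt ℝ (fun y => uC (w y)) z :=
  B1.analyticAt_inverse_comp hw hu

lemma an_eC (hw : AnalyticAt ℝ w z) : AnalyticAt ℝ (fun y => eC (w y)) z :=
  an_add analyticAt_const (cmulB rhoC (powB hw 2))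

lemma an_ieC (hw : AnalyticAt ℝ w z) : AnalyticAt ℝ (fun y => ieC (w y)) z :=
  B1.analyticAt_inverse_comp (an_eC hw) (isUnit_eC _)

lemma an_qT (J : Set ℝ) (hQ : AnalyticAt ℝ Q z) : AnalyticAt ℝ (fun y => qT J (Q y)) z :=
  an_clm (qT J) hQ

lemma an_res {f : Z → AC l} (hf : AnalyticAt ℝ f z) : AnalyticAt ℝ (fun y => res (f y)) z :=
  an_clm res hf

lemma an_pC (hQ : AnalyticAt ℝ Q z) (hw : AnalyticAt ℝ w z) (hu : IsUnit (w z)) :
    AnalyticAt ℝ (fun y => pC (Q y) (w y)) z :=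
  B1.analyticAt_exp_comp (an_clm Mop (mulB (an_qT _ hQ) (an_uC hw hu))).neg

lemma an_Q3 (hQ : AnalyticAt ℝ Q z) (hw : AnalyticAt ℝ w z) (hu : IsUnit (w z)) :
    AnalyticAt ℝ (fun y => Q3 (Q y) (w y)) z :=
  an_clm M3op (an_res (mulB (mulB (an_qT _ hQ) (an_pC hQ hw hu)) (powB (an_uC hw hu) 3)))

lemma an_P1 (hQ : AnalyticAt ℝ Q z) (hw : AnalyticAt ℝ w z) (hu : IsUnit (w z)) :
    AnalyticAt ℝ (fun y => P1 (Q y) (w y)) z :=
  an_smul (1 / 2) (mulB (an_res (an_pC hQ hw hu)) (an_Q3 hQ hw hu))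

lemma an_dQ3 (hQ : AnalyticAt ℝ Q z) (hw : AnalyticAt ℝ w z) (hu : IsUnit (w z)) :
    AnalyticAt ℝ (fun y => dQ3 (Q y) (w y)) z :=
  an_sub (cmulB rxO (an_clm M3op (mulB (mulB (an_qT _ hQ) (an_P1 hQ hw hu))
      (an_res (powB (an_uC hw hu) 3)))))
    (an_smul (3 / 2) (an_clm M5op (an_res (mulB (mulB (an_qT _ hQ) (powB (an_pC hQ hw hu) 2))
      (powB (an_uC hw hu) 5)))))

lemma an_P2 (hQ : AnalyticAt ℝ Q z) (hw : AnalyticAt ℝ w z) (hu : IsUnit (w z)) :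
    AnalyticAt ℝ (fun y => P2 (Q y) (w y)) z :=
  an_smul (1 / 2) (an_add (mulB (cmulB rxO (an_P1 hQ hw hu)) (an_Q3 hQ hw hu))
    (mulB (an_res (an_pC hQ hw hu)) (an_dQ3 hQ hw hu)))

lemma an_K0 (hQ : AnalyticAt ℝ Q z) (hw : AnalyticAt ℝ w z) (hu : IsUnit (w z)) :
    AnalyticAt ℝ (fun y => K0 (Q y) (w y)) z :=
  mulB (cmulB (aC ^ 2) (an_pC hQ hw hu)) (powB (an_ieC hw) 2)

lemma an_K1 (hQ : AnalyticAt ℝ Q z) (hw : AnalyticAt ℝ w z) (hu : IsUnit (w z)) :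
    AnalyticAt ℝ (fun y => K1 (Q y) (w y)) z := by
  have hp := an_pC hQ hw hu
  have hi := an_ieC hw
  exact an_add (cmulB rxO (an_res (an_sub
      (an_smul 2 (mulB (cmulB aC hp) (powB hi 2)))
      (an_smul 2 (mulB (cmulB (aC ^ 2) (powB hp 2)) (powB hi 3))))))
    (mulB (an_res (cmulB (aC ^ 2) (powB hi 2))) (an_P1 hQ hw hu))

lemma an_K2 (hQ : AnalyticAt ℝ Q z) (hw : AnalyticAt ℝ w z) (hu : IsUnit (w z)) :
    AnalyticAt ℝ (fun y => K2 (Q y) (w y)) z := by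
  have hp := an_pC hQ hw hu
  have hi := an_ieC hw
  have k1 := cmulB (rxO (l := l) ^ 3) (an_res (an_add (an_sub
      (an_smul 2 (mulB hp (powB hi 2)))
      (an_smul 8 (mulB (cmulB aC (powB hp 2)) (powB hi 3))))
      (an_smul 6 (mulB (cmulB (aC ^ 2) (powB hp 3)) (powB hi 4)))))
  have k2 := cmulB (rxO (l := l) ^ 2) (mulB (an_res (an_sub
      (an_smul 4 (cmulB aC (powB hi 2)))
      (an_smul 6 (mulB (cmulB (aC ^ 2) hp) (powB hi 3))))) (an_P1 hQ hw hu))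
  have k3 := mulB (an_res (cmulB (aC ^ 2) (powB hi 2))) (an_P2 hQ hw hu)
  exact an_add (an_add k1 k2) k3

lemma an_NN (hQ : AnalyticAt ℝ Q z) (hw : AnalyticAt ℝ w z) (hu : IsUnit (w z))
    (hF : AnalyticAt ℝ F z) : AnalyticAt ℝ (fun y => NN (Q y) (w y) (F y)) z :=
  an_smul 2 (an_clm (Iop (Icc 0 1)) (mulB (an_qT _ hF) (an_K0 hQ hw hu)))

lemma an_nn1 (hQ : AnalyticAt ℝ Q z) (hw : AnalyticAt ℝ w z) (hu : IsUnit (w z))
    (hF : AnalyticAt ℝ F z) : AnalyticAt ℝ (fun y => nn1 (Q y) (w y) (F y)) z :=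
  an_smul 2 (an_clm (Iop (Ioo 0 1)) (mulB (an_qT _ hF) (an_K1 hQ hw hu)))

lemma an_nn2 (hQ : AnalyticAt ℝ Q z) (hw : AnalyticAt ℝ w z) (hu : IsUnit (w z))
    (hF : AnalyticAt ℝ F z) : AnalyticAt ℝ (fun y => nn2 (Q y) (w y) (F y)) z :=
  an_smul 2 (an_clm (Iop (Ioo 0 1)) (mulB (an_qT _ hF) (an_K2 hQ hw hu)))

lemma an_kap (hQ : AnalyticAt ℝ Q z) (hw : AnalyticAt ℝ w z) (hu : IsUnit (w z))
    (hF : AnalyticAt ℝ F z) : AnalyticAt ℝ (fun y => kap (Q y) (w y) (F y)) z :=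
  an_clm Hop (an_add (an_smul 2 (an_nn1 hQ hw hu hF)) (an_nn2 hQ hw hu hF))

lemma an_Yop [h1 : Fact (l < 1)] (hQ : AnalyticAt ℝ Q z) (hw : AnalyticAt ℝ w z)
    (hu : IsUnit (w z)) (hG : AnalyticAt ℝ G z) (hF : AnalyticAt ℝ F z) :
    AnalyticAt ℝ (fun y => Yop (Q y) (w y) (G y) (F y)) z := by
  have h2 : AnalyticAt ℝ (fun y => diagC (NN (Q y) (w y) (F y))) z :=
    an_clm diagC (an_NN hQ hw hu hF)
  have h3 : AnalyticAt ℝ (fun y => Bop (G y) (kap (Q y) (w y) (F y))) z :=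
    an_bil Bop hG (an_kap hQ hw hu hF)
  exact (hG.mul h2).add h3

lemma an_Xi [h1 : Fact (l < 1)] {p : ℝ × XX l} (hp : |p.1| * ‖p.2‖ < rr l) :
    AnalyticAt ℝ (fun p : ℝ × XX l => Xi p.1 p.2) p := by
  have hn : ‖p.1 • p.2‖ < rr l := by rw [norm_smul, Real.norm_eq_abs]; exact hp
  have hn' : ‖-(p.1 • p.2)‖ < rr l := by rw [norm_neg]; exact hn
  have hQ : AnalyticAt ℝ (fun p : ℝ × XX l => p.1 • p.2) p := analyticAt_fst.smul analyticAt_snd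
  have hQ' : AnalyticAt ℝ (fun p : ℝ × XX l => -(p.1 • p.2)) p := hQ.neg
  have hw : AnalyticAt ℝ (fun p : ℝ × XX l => WW (p.1 • p.2)) p :=
    AnalyticAt.comp (g := WW) (f := fun p : ℝ × XX l => p.1 • p.2) (WW_analytic hn) hQ
  have hw' : AnalyticAt ℝ (fun p : ℝ × XX l => WW (-(p.1 • p.2))) p :=
    AnalyticAt.comp (g := WW) (f := fun p : ℝ × XX l => -(p.1 • p.2)) (WW_analytic hn') hQ'
  have hu := B1.isUnit_of_norm_sub_one (WW_near hn)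
  have hu' := B1.isUnit_of_norm_sub_one (WW_near hn')
  exact an_add (an_Yop hQ hw hu analyticAt_snd analyticAt_snd)
    (an_Yop hQ' hw' hu' analyticAt_snd analyticAt_snd)

lemma an_Tt [h1 : Fact (l < 1)] {p : ℝ × XX l} (hp : |p.1| * ‖p.2‖ < rr l) :
    AnalyticAt ℝ (fun p : ℝ × XX l => Tt p.1 p.2) p := by
  have h2 : AnalyticAt ℝ (fun p : ℝ × XX l => Aop (Xi p.1 p.2)) p := an_clm Aop (an_Xi hp)
  exact analyticAt_const.mul h2

lemma cd_Xi [h1 : Fact (l < 1)] :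
    ContDiffOn ℝ ω (fun p : ℝ × XX l => Xi p.1 p.2) {p | |p.1| * ‖p.2‖ < rr l} :=
  fun _ hp => (an_Xi hp).contDiffAt.contDiffWithinAt

lemma cd_Tt [h1 : Fact (l < 1)] :
    ContDiffOn ℝ ω (fun p : ℝ × XX l => Tt p.1 p.2) {p | |p.1| * ‖p.2‖ < rr l} :=
  fun _ hp => (an_Tt hp).contDiffAt.contDiffWithinAt

end Pool.Agent.Unicorn.L1
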