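import Mathlib

set_option autoImplicit false

open Set MeasureTheory intervalIntegral Filter Topology

namespace Pool.Agent.Unicorn.B2

/-- derivative of `s ↦ ∫_s^b K` -/
lemma hasDerivAt_left {K : ℝ → ℝ} (hK : Continuous K) (b s : ℝ) :
    HasDerivAt (fun s => ∫ r in s..b, K r) (-(K s)) s := by
  have h := (hK.integral_hasStrictDerivAt b s).hasDerivAt.neg
  refine h.congr_of_eventuallyEq ?_
  filter_upwards with u
  rw [intervalIntegral.integral_symm]
  rfl

/-- linear Volterra equation, global continuity version -/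
lemma volterra_aux {s₀ b D0 : ℝ} {k D : ℝ → ℝ} (hk : Continuous k) (hD : Continuous D)
    (heq : ∀ s ∈ Icc s₀ b, D s = D0 - ∫ r in s..b, k r * D r) :
    ∀ s ∈ Icc s₀ b, D s = D0 * Real.exp (-∫ r in s..b, k r) := by
  intro s hs
  have hsb : s ≤ b := hs.2
  let G : ℝ → ℝ := fun u => (D0 - ∫ r in u..b, k r * D r) * Real.exp (∫ r in u..b, k r)
  have hG : ∀ u, HasDerivAt G ((-(-(k u * D u))) * Real.exp (∫ r in u..b, k r)
      + (D0 - ∫ r in u..b, k r * D r) * (Real.exp (∫ r in u..b, k r) * (-(k u)))) u := by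
    intro u
    exact ((hasDerivAt_left (hk.mul hD) b u).const_sub D0).mul (hasDerivAt_left hk b u).exp
  have hconst : ∀ u ∈ Icc s₀ b, G u = G s₀ := by
    refine constant_of_has_deriv_right_zero
      (fun u _ => (hG u).continuousAt.continuousWithinAt) (fun u hu => ?_)
    have h1 := (hG u).hasDerivWithinAt (s := Ici u)
    have h2 : (-(-(k u * D u))) * Real.exp (∫ r in u..b, k r)
      + (D0 - ∫ r in u..b, k r * D r) * (Real.exp (∫ r in u..b, k r) * (-(k u))) = 0 := by
      rw [← heq u ⟨hu.1, hu.2.le⟩]; ring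
    rwa [h2] at h1
  have h1 := hconst s hs
  have h2 := hconst b ⟨hs.1.trans hsb, le_rfl⟩
  have h3 : G b = D0 := by simp [G]
  have h4 : G s = D s * Real.exp (∫ r in s..b, k r) := by
    simp only [G]
    rw [← heq s hs]
  have h5 : D s * Real.exp (∫ r in s..b, k r) = D0 := by rw [← h4, h1, ← h2, h3]
  rw [← h5, mul_assoc, ← Real.exp_add]
  simp

/-- linear Volterra equation -/
lemma volterra {s₀ b D0 : ℝ} {k D : ℝ → ℝ} (hk : ContinuousOn k (Icc s₀ b))
    (hD : ContinuousOn D (Icc s₀ b))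
    (heq : ∀ s ∈ Icc s₀ b, D s = D0 - ∫ r in s..b, k r * D r) :
    ∀ s ∈ Icc s₀ b, D s = D0 * Real.exp (-∫ r in s..b, k r) := by
  intro s hs
  have h : s₀ ≤ b := hs.1.trans hs.2
  let k' : ℝ → ℝ := IccExtend h ((Icc s₀ b).restrict k)
  let D' : ℝ → ℝ := IccExtend h ((Icc s₀ b).restrict D)
  have hk' : Continuous k' := (continuousOn_iff_continuous_restrict.1 hk).Icc_extend'
  have hD' : Continuous D' := (continuousOn_iff_continuous_restrict.1 hD).Icc_extend'
  have ek : ∀ u ∈ Icc s₀ b, k' u = k u := fun u hu => IccExtend_of_mem _ _ hu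
  have eD : ∀ u ∈ Icc s₀ b, D' u = D u := fun u hu => IccExtend_of_mem _ _ hu
  have key := volterra_aux (s₀ := s₀) (b := b) (D0 := D0) hk' hD' (fun u hu => by
    rw [eD u hu, heq u hu]
    congr 1
    refine integral_congr (fun r hr => ?_)
    rw [uIcc_of_le hu.2] at hr
    have hr' : r ∈ Icc s₀ b := ⟨hu.1.trans hr.1, hr.2⟩
    simp only [ek r hr', eD r hr'])
  have h1 := key s hs
  rw [eD s hs] at h1
  rw [h1]
  congr 2
  congr 1
  refine integral_congr (fun r hr => ?_)
  rw [uIcc_of_le hs.2] at hr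
  exact ek r ⟨hs.1.trans hr.1, hr.2⟩

/-- Leibniz rule with continuous data -/
lemma leibniz {φ φ' : ℝ → ℝ → ℝ} {s b : ℝ} (hsb : s ≤ b) {U : Set ℝ} (hU : IsOpen U)
    (hφ : ∀ a ∈ U, ContinuousOn (fun r => φ r a) (Icc s b))
    (hφ' : ContinuousOn (fun p : ℝ × ℝ => φ' p.1 p.2) (Icc s b ×ˢ U))
    (hd : ∀ r ∈ Icc s b, ∀ a ∈ U, HasDerivAt (fun a => φ r a) (φ' r a) a) :
    ∀ a ∈ U, HasDerivAt (fun a => ∫ r in s..b, φ r a) (∫ r in s..b, φ' r a) a := by
  intro a ha
  obtain ⟨δ, hδ, hball⟩ := Metric.isOpen_iff.1 hU a ha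
  have hK : IsCompact (Metric.closedBall a (δ/2)) := isCompact_closedBall a (δ/2)
  have hKU : Metric.closedBall a (δ/2) ⊆ U :=
    (Metric.closedBall_subset_ball (by linarith)).trans hball
  obtain ⟨C, hC⟩ := ((isCompact_Icc (a := s) (b := b)).prod hK).exists_bound_of_continuousOn
    (hφ'.mono (prod_mono le_rfl hKU))
  have hnhds : Metric.closedBall a (δ/2) ∈ 𝓝 a := Metric.closedBall_mem_nhds a (by linarith)
  refine (intervalIntegral.hasDerivAt_integral_of_dominated_loc_of_deriv_le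
    (F := fun a r => φ r a) (F' := fun a r => φ' r a) (bound := fun _ => C) (s := Metric.closedBall a (δ/2))
    hnhds ?_ ?_ ?_ ?_ ?_ ?_).2
  · filter_upwards [hnhds] with u hu
    have := (hφ u (hKU hu))
    rw [← uIcc_of_le hsb] at this
    exact this.intervalIntegrable.aestronglyMeasurable_restrict_uIoc
  · have := hφ a ha
    rw [← uIcc_of_le hsb] at this
    exact this.intervalIntegrable
  · have : ContinuousOn (fun r => φ' r a) (Icc s b) := by
      refine hφ'.comp (f := fun r => ((r, a) : ℝ × ℝ)) (by fun_prop) (fun r hr => ⟨hr, ha⟩)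
    rw [← uIcc_of_le hsb] at this
    exact this.intervalIntegrable.aestronglyMeasurable_restrict_uIoc
  · refine Eventually.of_forall (fun r hr u hu => ?_)
    rw [uIoc_of_le hsb] at hr
    exact hC (r, u) ⟨⟨hr.1.le, hr.2⟩, hu⟩
  · exact intervalIntegrable_const
  · refine Eventually.of_forall (fun r hr u hu => ?_)
    rw [uIoc_of_le hsb] at hr
    exact hd r ⟨hr.1.le, hr.2⟩ u (hKU hu)

/-- continuity of parametric integrals -/
lemma cont_param {φ : ℝ → ℝ → ℝ} {s b : ℝ} (hsb : s ≤ b) {U : Set ℝ} (hU : IsOpen U)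
    (hφ : ContinuousOn (fun p : ℝ × ℝ => φ p.1 p.2) (Icc s b ×ˢ U)) :
    ∀ a ∈ U, ContinuousAt (fun a => ∫ r in s..b, φ r a) a := by
  intro a ha
  obtain ⟨δ, hδ, hball⟩ := Metric.isOpen_iff.1 hU a ha
  have hK : IsCompact (Metric.closedBall a (δ/2)) := isCompact_closedBall a (δ/2)
  have hKU : Metric.closedBall a (δ/2) ⊆ U :=
    (Metric.closedBall_subset_ball (by linarith)).trans hball
  obtain ⟨C, hC⟩ := ((isCompact_Icc (a := s) (b := b)).prod hK).exists_bound_of_continuousOn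
    (hφ.mono (prod_mono le_rfl hKU))
  have hnhds : Metric.closedBall a (δ/2) ∈ 𝓝 a := Metric.closedBall_mem_nhds a (by linarith)
  refine intervalIntegral.continuousAt_of_dominated_interval (bound := fun _ => C) ?_ ?_ ?_ ?_
  · filter_upwards [hnhds] with u hu
    have h1 : ContinuousOn (fun r => φ r u) (Icc s b) :=
      hφ.comp (f := fun r => ((r, u) : ℝ × ℝ)) (by fun_prop) (fun r hr => ⟨hr, hKU hu⟩)
    rw [← uIcc_of_le hsb] at h1
    exact h1.intervalIntegrable.aestronglyMeasurable_restrict_uIoc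
  · filter_upwards [hnhds] with u hu
    refine Eventually.of_forall (fun r hr => ?_)
    rw [uIoc_of_le hsb] at hr
    exact hC (r, u) ⟨⟨hr.1.le, hr.2⟩, hu⟩
  · exact intervalIntegrable_const
  · refine Eventually.of_forall (fun r hr => ?_)
    rw [uIoc_of_le hsb] at hr
    have h1 : ContinuousOn (fun u => φ r u) U :=
      hφ.comp (f := fun u => ((r, u) : ℝ × ℝ)) (by fun_prop) (fun u hu => ⟨⟨hr.1.le, hr.2⟩, hu⟩)
    exact h1.continuousAt (hU.mem_nhds ha)

/-- joint continuity of parametric integrals with variable lower end -/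
lemma cont_param2 {φ : ℝ → ℝ → ℝ} {l b : ℝ} (hlb : l ≤ b) {U : Set ℝ} (hU : IsOpen U)
    (hφ : ContinuousOn (fun p : ℝ × ℝ => φ p.1 p.2) (Icc l b ×ˢ U)) :
    ContinuousOn (fun p : ℝ × ℝ => ∫ r in p.1..b, φ r p.2) (Icc l b ×ˢ U) := by
  rintro ⟨s, a⟩ ⟨hs, ha⟩
  simp only at hs ha
  obtain ⟨δ, hδ, hball⟩ := Metric.isOpen_iff.1 hU a ha
  have hK : IsCompact (Metric.closedBall a (δ/2)) := isCompact_closedBall a (δ/2)
  have hKU : Metric.closedBall a (δ/2) ⊆ U :=
    (Metric.closedBall_subset_ball (by linarith)).trans hball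
  obtain ⟨C, hC⟩ := ((isCompact_Icc (a := l) (b := b)).prod hK).exists_bound_of_continuousOn
    (hφ.mono (prod_mono le_rfl hKU))
  have hnhds : Metric.closedBall a (δ/2) ∈ 𝓝 a := Metric.closedBall_mem_nhds a (by linarith)
  have hint : ∀ u ∈ U, ∀ s₁ ∈ Icc l b, ∀ s₂ ∈ Icc l b,
      IntervalIntegrable (fun r => φ r u) volume s₁ s₂ := by
    intro u hu s₁ h1 s₂ h2
    have h3 : ContinuousOn (fun r => φ r u) (Icc l b) :=
      hφ.comp (f := fun r => ((r, u) : ℝ × ℝ)) (by fun_prop) (fun r hr => ⟨hr, hu⟩)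
    exact (h3.mono (by
      intro r hr
      have := (convex_Icc l b).ordConnected.uIcc_subset h1 h2 hr
      exact this)).intervalIntegrable
  have h1 : ContinuousAt (fun u => ∫ r in s..b, φ r u) a :=
    cont_param hs.2 hU (hφ.mono (prod_mono (Icc_subset_Icc_left hs.1) le_rfl)) a ha
  -- decompose
  have h2 : Tendsto (fun p : ℝ × ℝ => (∫ r in s..b, φ r p.2) - ∫ r in s..p.1, φ r p.2)
      (𝓝[Icc l b ×ˢ U] (s, a)) (𝓝 ((∫ r in s..b, φ r a) - 0)) := by
    refine Tendsto.sub ?_ ?_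
    · exact (h1.tendsto.comp (continuous_snd.tendsto _)).mono_left nhdsWithin_le_nhds
    · rw [tendsto_zero_iff_norm_tendsto_zero]
      have h3 : Tendsto (fun p : ℝ × ℝ => C * |p.1 - s|) (𝓝[Icc l b ×ˢ U] (s, a)) (𝓝 0) := by
        have : Tendsto (fun p : ℝ × ℝ => C * |p.1 - s|) (𝓝 (s, a)) (𝓝 (C * |s - s|)) := by
          have hc : Continuous (fun p : ℝ × ℝ => C * |p.1 - s|) := by fun_prop
          exact hc.tendsto _
        simp only [sub_self, abs_zero, mul_zero] at this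
        exact this.mono_left nhdsWithin_le_nhds
      refine squeeze_zero' (Eventually.of_forall (fun _ => norm_nonneg _)) ?_ h3
      have hn : ∀ᶠ p : ℝ × ℝ in 𝓝[Icc l b ×ˢ U] (s, a), p.2 ∈ Metric.closedBall a (δ/2) :=
        (continuous_snd.tendsto (s, a)).mono_left nhdsWithin_le_nhds |>.eventually hnhds
      filter_upwards [hn, self_mem_nhdsWithin] with p hp hp2
      refine intervalIntegral.norm_integral_le_of_norm_le_const (fun r hr => ?_)
      have hr' : r ∈ uIcc s p.1 := uIoc_subset_uIcc hr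
      have := (convex_Icc l b).ordConnected.uIcc_subset hs hp2.1 hr'
      exact hC (r, p.2) ⟨this, hp⟩
  rw [sub_zero] at h2
  refine h2.congr' ?_
  filter_upwards [self_mem_nhdsWithin] with p hp
  have h4 := hint p.2 hp.2
  have h5 := intervalIntegral.integral_add_adjacent_intervals (h4 s hs p.1 hp.1)
    (h4 p.1 hp.1 b ⟨hlb, le_rfl⟩)
  linarith

end Pool.Agent.Unicorn.B2
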