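import Mathlib
import Pool.Agent.Unicorn.B2Tools

set_option autoImplicit false

open Set MeasureTheory intervalIntegral Filter Topology

namespace Pool.Agent.Unicorn.B2

/-- The reduced energy equation: `w` continuous and positive everywhere, and on
`l ≤ s ≤ λ ≤ 1`, `0 ≤ x ≤ 1` the function `e = s + (x+λ-s) w²` solves
`e(s) = (λ+x) - 2c ∫_s^λ q √(e-r)`. -/
structure WSol (l c : ℝ) (q : ℝ → ℝ) (w : ℝ → ℝ → ℝ → ℝ) : Prop where
  hl : 0 < l
  hl1 : l < 1
  hq : Continuous q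
  hw : Continuous (fun p : ℝ × ℝ × ℝ => w p.1 p.2.1 p.2.2)
  pos : ∀ s lam x, 0 < w s lam x
  eq : ∀ s lam x, l ≤ s → s ≤ lam → lam ≤ 1 → 0 ≤ x → x ≤ 1 →
    (x + lam - s) * (w s lam x) ^ 2
      = (x + lam - s) - 2 * c * ∫ r in s..lam, √(x + lam - r) * q r * w r lam x

/-- the energy -/
noncomputable def en (w : ℝ → ℝ → ℝ → ℝ) (s lam a : ℝ) : ℝ := s + (a - s) * (w s lam (a - lam)) ^ 2

/-- `√(e-s)` -/
noncomputable def rt (w : ℝ → ℝ → ℝ → ℝ) (s lam a : ℝ) : ℝ := √(a - s) * w s lam (a - lam)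

/-- `∂_a e` -/
noncomputable def pp (c : ℝ) (q : ℝ → ℝ) (w : ℝ → ℝ → ℝ → ℝ) (s lam a : ℝ) : ℝ :=
  Real.exp (-(c * ∫ r in s..lam, q r / rt w r lam a))

/-- `∫ q p (e-r)^{-3/2}` -/
noncomputable def m3 (c : ℝ) (q : ℝ → ℝ) (w : ℝ → ℝ → ℝ → ℝ) (s lam a : ℝ) : ℝ :=
  ∫ r in s..lam, q r * pp c q w r lam a / rt w r lam a ^ 3

/-- `∂_a p` -/
noncomputable def p1 (c : ℝ) (q : ℝ → ℝ) (w : ℝ → ℝ → ℝ → ℝ) (s lam a : ℝ) : ℝ :=
  c / 2 * (pp c q w s lam a * m3 c q w s lam a)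

/-- `∂_a m3` -/
noncomputable def dm3 (c : ℝ) (q : ℝ → ℝ) (w : ℝ → ℝ → ℝ → ℝ) (s lam a : ℝ) : ℝ :=
  ∫ r in s..lam, q r * (p1 c q w r lam a / rt w r lam a ^ 3
    - 3 / 2 * pp c q w r lam a ^ 2 / rt w r lam a ^ 5)

/-- `∂_a² p` -/
noncomputable def p2 (c : ℝ) (q : ℝ → ℝ) (w : ℝ → ℝ → ℝ → ℝ) (s lam a : ℝ) : ℝ :=
  c / 2 * (p1 c q w s lam a * m3 c q w s lam a + pp c q w s lam a * dm3 c q w s lam a)

section basic

variable {l c : ℝ} {q : ℝ → ℝ} {w : ℝ → ℝ → ℝ → ℝ}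

lemma en_sub {s lam a : ℝ} : en w s lam a - s = (a - s) * (w s lam (a - lam)) ^ 2 := by
  unfold en; ring

lemma rt_sq {s lam a : ℝ} (h : s ≤ a) : rt w s lam a ^ 2 = en w s lam a - s := by
  unfold rt
  rw [en_sub, mul_pow, Real.sq_sqrt (by linarith)]

lemma WSol.rt_nonneg (H : WSol l c q w) (s lam a : ℝ) : 0 ≤ rt w s lam a := by
  unfold rt
  have := H.pos s lam (a - lam)
  positivity

lemma WSol.rt_pos (H : WSol l c q w) {s lam a : ℝ} (h : s < a) : 0 < rt w s lam a := by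
  unfold rt
  have := H.pos s lam (a - lam)
  have h2 : 0 < √(a - s) := Real.sqrt_pos.2 (by linarith)
  positivity

lemma WSol.sqrt_en (H : WSol l c q w) {s lam a : ℝ} (h : s ≤ a) :
    √(en w s lam a - s) = rt w s lam a := by
  rw [← rt_sq h, Real.sqrt_sq (H.rt_nonneg s lam a)]

lemma WSol.en_ge (H : WSol l c q w) {s lam a : ℝ} (h : s ≤ a) : s ≤ en w s lam a := by
  have h1 := rt_sq (w := w) (lam := lam) h
  have h2 := sq_nonneg (rt w s lam a)
  linarith

lemma WSol.en_gt (H : WSol l c q w) {s lam a : ℝ} (h : s < a) : s < en w s lam a := by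
  have h1 := rt_sq (w := w) (lam := lam) h.le
  have h2 := H.rt_pos (lam := lam) h
  have h3 := pow_pos h2 2
  linarith

/-- the energy equation -/
lemma WSol.energy (H : WSol l c q w) {s lam a : ℝ} (h1 : l ≤ s) (h2 : s ≤ lam) (h3 : lam ≤ 1)
    (h4 : lam ≤ a) (h5 : a ≤ lam + 1) :
    en w s lam a = a - 2 * c * ∫ r in s..lam, q r * √(en w r lam a - r) := by
  have h := H.eq s lam (a - lam) h1 h2 h3 (by linarith) (by linarith)
  have e0 : a - lam + lam = a := by ring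
  rw [e0] at h
  have e1 : ∫ r in s..lam, √(a - r) * q r * w r lam (a - lam)
      = ∫ r in s..lam, q r * √(en w r lam a - r) := by
    refine integral_congr (fun r hr => ?_)
    rw [uIcc_of_le h2] at hr
    beta_reduce
    rw [H.sqrt_en (by linarith [hr.2])]
    unfold rt
    ring
  rw [e1] at h
  have := en_sub (w := w) (s := s) (lam := lam) (a := a)
  linarith

lemma WSol.cont_en (H : WSol l c q w) : Continuous (fun p : ℝ × ℝ × ℝ => en w p.1 p.2.1 p.2.2) := by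
  have h1 : Continuous (fun p : ℝ × ℝ × ℝ => w p.1 p.2.1 (p.2.2 - p.2.1)) :=
    H.hw.comp (f := fun p : ℝ × ℝ × ℝ => ((p.1, p.2.1, p.2.2 - p.2.1) : ℝ × ℝ × ℝ)) (by fun_prop)
  have h2 : Continuous (fun p : ℝ × ℝ × ℝ => p.2.2 - p.1) := by fun_prop
  exact continuous_fst.add (h2.mul (h1.pow 2))

lemma WSol.cont_rt (H : WSol l c q w) : Continuous (fun p : ℝ × ℝ × ℝ => rt w p.1 p.2.1 p.2.2) := by
  have h1 : Continuous (fun p : ℝ × ℝ × ℝ => w p.1 p.2.1 (p.2.2 - p.2.1)) :=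
    H.hw.comp (f := fun p : ℝ × ℝ × ℝ => ((p.1, p.2.1, p.2.2 - p.2.1) : ℝ × ℝ × ℝ)) (by fun_prop)
  have h2 : Continuous (fun p : ℝ × ℝ × ℝ => √(p.2.2 - p.1)) := by fun_prop
  exact h2.mul h1

lemma WSol.cont_rt2 (H : WSol l c q w) (lam : ℝ) :
    Continuous (fun p : ℝ × ℝ => rt w p.1 lam p.2) :=
  H.cont_rt.comp (f := fun p : ℝ × ℝ => ((p.1, lam, p.2) : ℝ × ℝ × ℝ)) (by fun_prop)

/-- the explicit difference quotient in `a` -/
lemma WSol.diff_a (H : WSol l c q w) {lam a₁ a₂ : ℝ} (h3 : lam ≤ 1)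
    (ha₁ : lam < a₁) (ha₁' : a₁ ≤ lam + 1) (ha₂ : lam < a₂) (ha₂' : a₂ ≤ lam + 1) {s : ℝ}
    (h1 : l ≤ s) (h2 : s ≤ lam) :
    en w s lam a₁ - en w s lam a₂ = (a₁ - a₂)
      * Real.exp (-∫ r in s..lam, 2 * c * q r / (rt w r lam a₁ + rt w r lam a₂)) := by
  have hc1 := (H.cont_rt2 lam)
  have hq := H.hq
  have hr1 : Continuous (fun r => rt w r lam a₁) :=
    hc1.comp (f := fun r : ℝ => ((r, a₁) : ℝ × ℝ)) (by fun_prop)
  have hr2 : Continuous (fun r => rt w r lam a₂) :=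
    hc1.comp (f := fun r : ℝ => ((r, a₂) : ℝ × ℝ)) (by fun_prop)
  have hpos : ∀ r ∈ Icc l lam, 0 < rt w r lam a₁ + rt w r lam a₂ := by
    intro r hr
    have := H.rt_pos (s := r) (lam := lam) (a := a₁) (by linarith [hr.2])
    have := H.rt_pos (s := r) (lam := lam) (a := a₂) (by linarith [hr.2])
    linarith
  have hen : Continuous (fun p : ℝ × ℝ => en w p.1 lam p.2) :=
    H.cont_en.comp (f := fun p : ℝ × ℝ => ((p.1, lam, p.2) : ℝ × ℝ × ℝ)) (by fun_prop)
  have he1 : Continuous (fun r => en w r lam a₁) :=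
    hen.comp (f := fun r : ℝ => ((r, a₁) : ℝ × ℝ)) (by fun_prop)
  have he2 : Continuous (fun r => en w r lam a₂) :=
    hen.comp (f := fun r : ℝ => ((r, a₂) : ℝ × ℝ)) (by fun_prop)
  refine volterra (s₀ := l) (b := lam) (D := fun s => en w s lam a₁ - en w s lam a₂) ?_ ?_ ?_ s ⟨h1, h2⟩
  · refine ContinuousOn.div (by fun_prop) (by fun_prop) (fun r hr => (hpos r hr).ne')
  · exact (he1.sub he2).continuousOn
  · intro u hu
    have g1 := H.energy (a := a₁) hu.1 hu.2 h3 ha₁.le ha₁'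
    have g2 := H.energy (a := a₂) hu.1 hu.2 h3 ha₂.le ha₂'
    beta_reduce
    rw [g1, g2]
    have e1 : ∫ r in u..lam, q r * √(en w r lam a₁ - r) = ∫ r in u..lam, q r * rt w r lam a₁ := by
      refine integral_congr (fun r hr => ?_)
      rw [uIcc_of_le hu.2] at hr
      beta_reduce
      rw [H.sqrt_en (by linarith [hr.2])]
    have e2 : ∫ r in u..lam, q r * √(en w r lam a₂ - r) = ∫ r in u..lam, q r * rt w r lam a₂ := by
      refine integral_congr (fun r hr => ?_)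
      rw [uIcc_of_le hu.2] at hr
      beta_reduce
      rw [H.sqrt_en (by linarith [hr.2])]
    have e3 : ∫ r in u..lam, 2 * c * q r / (rt w r lam a₁ + rt w r lam a₂)
        * (en w r lam a₁ - en w r lam a₂)
        = 2 * c * (∫ r in u..lam, q r * rt w r lam a₁) - 2 * c * ∫ r in u..lam, q r * rt w r lam a₂ := by
      rw [← intervalIntegral.integral_const_mul, ← intervalIntegral.integral_const_mul,
        ← intervalIntegral.integral_sub]
      · refine integral_congr (fun r hr => ?_)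
        rw [uIcc_of_le hu.2] at hr
        have hp := hpos r ⟨hu.1.trans hr.1, hr.2⟩
        beta_reduce
        have s1 := rt_sq (w := w) (s := r) (lam := lam) (a := a₁) (by linarith [hr.2])
        have s2 := rt_sq (w := w) (s := r) (lam := lam) (a := a₂) (by linarith [hr.2])
        have s3 : en w r lam a₁ - en w r lam a₂
            = (rt w r lam a₁ + rt w r lam a₂) * (rt w r lam a₁ - rt w r lam a₂) := by
          nlinarith [s1, s2]
        rw [s3]
        field_simp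
      · exact (by fun_prop : Continuous fun r => 2 * c * (q r * rt w r lam a₁)).intervalIntegrable _ _
      · exact (by fun_prop : Continuous fun r => 2 * c * (q r * rt w r lam a₂)).intervalIntegrable _ _
    rw [e1, e2, e3]
    ring

end basic

end Pool.Agent.Unicorn.B2
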