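import Mathlib
import Pool.Agent.Unicorn.B2W

set_option autoImplicit false

open Set MeasureTheory intervalIntegral Filter Topology

namespace Pool.Agent.Unicorn.B2

variable {l c : ℝ} {q : ℝ → ℝ} {w : ℝ → ℝ → ℝ → ℝ}

/-- `∂_a e = p` -/
lemma WSol.hasDerivAt_en (H : WSol l c q w) {s lam a : ℝ} (h1 : l ≤ s) (h2 : s ≤ lam)
    (h3 : lam ≤ 1) (ha : lam < a) (ha' : a < lam + 1) :
    HasDerivAt (fun a => en w s lam a) (pp c q w s lam a) a := by
  rw [hasDerivAt_iff_tendsto_slope]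
  have hq := H.hq
  have hc1 := H.cont_rt2 lam
  have hcont : ContinuousAt (fun b => ∫ r in s..lam,
      2 * c * q r / (rt w r lam b + rt w r lam a)) a := by
    refine cont_param (φ := fun r b => 2 * c * q r / (rt w r lam b + rt w r lam a)) h2
      (U := Ioi lam) isOpen_Ioi ?_ a ha
    have hra : Continuous (fun p : ℝ × ℝ => rt w p.1 lam a) :=
      hc1.comp (f := fun p : ℝ × ℝ => ((p.1, a) : ℝ × ℝ)) (by fun_prop)
    refine ContinuousOn.div (by fun_prop) (by fun_prop) ?_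
    rintro ⟨r, b⟩ ⟨hr, hb⟩
    simp only [mem_Icc, mem_Ioi] at hr hb ⊢
    have g1 := H.rt_pos (s := r) (lam := lam) (a := b) (by linarith)
    have g2 := H.rt_pos (s := r) (lam := lam) (a := a) (by linarith)
    linarith
  have hlim : Tendsto (fun b => Real.exp (-∫ r in s..lam,
      2 * c * q r / (rt w r lam b + rt w r lam a))) (𝓝[≠] a) (𝓝 (pp c q w s lam a)) := by
    have h := ((Real.continuous_exp.continuousAt).comp hcont.neg).tendsto
    have e : Real.exp (-∫ r in s..lam, 2 * c * q r / (rt w r lam a + rt w r lam a))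
        = pp c q w s lam a := by
      unfold pp
      congr 2
      rw [← intervalIntegral.integral_const_mul]
      refine integral_congr (fun r hr => ?_)
      rw [uIcc_of_le h2] at hr
      beta_reduce
      have g2 := H.rt_pos (s := r) (lam := lam) (a := a) (by linarith [hr.2])
      field_simp
      ring
    rw [← e]
    exact h.mono_left nhdsWithin_le_nhds
  refine hlim.congr' ?_
  have hev : ∀ᶠ b in 𝓝[≠] a, b ∈ Ioo lam (lam + 1) :=
    nhdsWithin_le_nhds (Ioo_mem_nhds ha ha')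
  filter_upwards [hev, self_mem_nhdsWithin] with b hb hba
  have hba' : b - a ≠ 0 := sub_ne_zero.2 hba
  have h := H.diff_a (a₁ := b) (a₂ := a) h3 hb.1 hb.2.le ha ha'.le h1 h2
  rw [slope_def_field]
  beta_reduce
  rw [h]
  field_simp

/-- `∂_a √(e-r) = p/(2√(e-r))` -/
lemma WSol.hasDerivAt_rt (H : WSol l c q w) {s lam a : ℝ} (h1 : l ≤ s) (h2 : s ≤ lam)
    (h3 : lam ≤ 1) (ha : lam < a) (ha' : a < lam + 1) :
    HasDerivAt (fun a => rt w s lam a) (pp c q w s lam a / (2 * rt w s lam a)) a := by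
  have h := (H.hasDerivAt_en h1 h2 h3 ha ha').sub_const s
  have hpos : en w s lam a - s ≠ 0 := by
    have := H.en_gt (s := s) (lam := lam) (a := a) (by linarith)
    exact (sub_pos.2 this).ne'
  have h' := h.sqrt hpos
  rw [H.sqrt_en (by linarith)] at h'
  refine h'.congr_of_eventuallyEq ?_
  filter_upwards [Ioi_mem_nhds ha] with b hb
  exact (H.sqrt_en (by linarith [mem_Ioi.1 hb])).symm

/-- joint continuity in `(s,a)` of `p` -/
lemma WSol.contOn_pp (H : WSol l c q w) {lam : ℝ} (hl : l ≤ lam) :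
    ContinuousOn (fun p : ℝ × ℝ => pp c q w p.1 lam p.2) (Icc l lam ×ˢ Ioi lam) := by
  have hq := H.hq
  have hc1 := H.cont_rt2 lam
  have h := cont_param2 (φ := fun r a => q r / rt w r lam a) hl (U := Ioi lam) isOpen_Ioi
    (by
      refine ContinuousOn.div (by fun_prop) (by fun_prop) ?_
      rintro ⟨r, b⟩ ⟨hr, hb⟩
      simp only [mem_Icc, mem_Ioi] at hr hb ⊢
      exact (H.rt_pos (s := r) (lam := lam) (a := b) (by linarith)).ne')
  unfold pp
  exact Real.continuous_exp.comp_continuousOn (h.const_smul c).neg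

lemma WSol.contOn_m3 (H : WSol l c q w) {lam : ℝ} (hl : l ≤ lam) :
    ContinuousOn (fun p : ℝ × ℝ => m3 c q w p.1 lam p.2) (Icc l lam ×ˢ Ioi lam) := by
  have hq := H.hq
  have hc1 := H.cont_rt2 lam
  have hp := H.contOn_pp hl
  refine cont_param2 (φ := fun r a => q r * pp c q w r lam a / rt w r lam a ^ 3) hl
    (U := Ioi lam) isOpen_Ioi ?_
  refine ContinuousOn.div (ContinuousOn.mul (by fun_prop) hp) (by fun_prop) ?_
  rintro ⟨r, b⟩ ⟨hr, hb⟩
  simp only [mem_Icc, mem_Ioi] at hr hb ⊢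
  have := H.rt_pos (s := r) (lam := lam) (a := b) (by linarith)
  positivity

lemma WSol.contOn_p1 (H : WSol l c q w) {lam : ℝ} (hl : l ≤ lam) :
    ContinuousOn (fun p : ℝ × ℝ => p1 c q w p.1 lam p.2) (Icc l lam ×ˢ Ioi lam) := by
  unfold p1
  exact ((H.contOn_pp hl).mul (H.contOn_m3 hl)).const_smul (c/2)

lemma WSol.contOn_dm3 (H : WSol l c q w) {lam : ℝ} (hl : l ≤ lam) :
    ContinuousOn (fun p : ℝ × ℝ => dm3 c q w p.1 lam p.2) (Icc l lam ×ˢ Ioi lam) := by
  have hq := H.hq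
  have hc1 := H.cont_rt2 lam
  have hp := H.contOn_pp hl
  have hp1 := H.contOn_p1 hl
  have hpos : ∀ p ∈ Icc l lam ×ˢ Ioi lam, 0 < rt w p.1 lam p.2 := by
    rintro ⟨r, b⟩ ⟨hr, hb⟩
    simp only [mem_Icc, mem_Ioi] at hr hb ⊢
    exact H.rt_pos (s := r) (lam := lam) (a := b) (by linarith)
  refine cont_param2 (φ := fun r a => q r * (p1 c q w r lam a / rt w r lam a ^ 3
    - 3 / 2 * pp c q w r lam a ^ 2 / rt w r lam a ^ 5)) hl (U := Ioi lam) isOpen_Ioi ?_
  refine ContinuousOn.mul (by fun_prop) (ContinuousOn.sub (hp1.div (by fun_prop) ?_)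
    (ContinuousOn.div (ContinuousOn.mul (by fun_prop) (hp.pow 2)) (by fun_prop) ?_))
  · intro p hp'
    exact (pow_pos (hpos p hp') 3).ne'
  · intro p hp'
    exact (pow_pos (hpos p hp') 5).ne'

lemma WSol.contOn_p2 (H : WSol l c q w) {lam : ℝ} (hl : l ≤ lam) :
    ContinuousOn (fun p : ℝ × ℝ => p2 c q w p.1 lam p.2) (Icc l lam ×ˢ Ioi lam) := by
  unfold p2
  exact (((H.contOn_p1 hl).mul (H.contOn_m3 hl)).add
    ((H.contOn_pp hl).mul (H.contOn_dm3 hl))).const_smul (c/2)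

lemma slice {φ : ℝ × ℝ → ℝ} {l lam : ℝ} {U : Set ℝ} (h : ContinuousOn φ (Icc l lam ×ˢ U))
    {s a : ℝ} (hs : l ≤ s) (ha : a ∈ U) : ContinuousOn (fun r => φ (r, a)) (Icc s lam) :=
  h.comp (f := fun r : ℝ => ((r, a) : ℝ × ℝ)) (by fun_prop) (fun _ hr => ⟨⟨hs.trans hr.1, hr.2⟩, ha⟩)

/-- `∂_a p = p1` -/
lemma WSol.hasDerivAt_pp (H : WSol l c q w) {s lam a : ℝ} (h1 : l ≤ s) (h2 : s ≤ lam)
    (h3 : lam ≤ 1) (ha : lam < a) (ha' : a < lam + 1) :
    HasDerivAt (fun a => pp c q w s lam a) (p1 c q w s lam a) a := by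
  have hq := H.hq
  have hc1 := H.cont_rt2 lam
  have hl : l ≤ lam := h1.trans h2
  have hpos : ∀ r ∈ Icc s lam, ∀ b ∈ Ioo lam (lam + 1), 0 < rt w r lam b := by
    intro r hr b hb
    exact H.rt_pos (s := r) (lam := lam) (a := b) (by linarith [hr.2, hb.1])
  have key := leibniz (φ := fun r a => q r / rt w r lam a)
    (φ' := fun r a => -(q r * pp c q w r lam a / rt w r lam a ^ 3) / 2) h2
    (U := Ioo lam (lam + 1)) isOpen_Ioo ?_ ?_ ?_ a ⟨ha, ha'⟩
  · have e : ∫ r in s..lam, -(q r * pp c q w r lam a / rt w r lam a ^ 3) / 2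
        = -(m3 c q w s lam a) / 2 := by
      unfold m3
      rw [← intervalIntegral.integral_neg, ← intervalIntegral.integral_div]
    rw [e] at key
    have h := ((key.const_mul c).neg).exp
    refine h.congr_deriv ?_
    unfold p1 pp
    simp only [Pi.neg_apply]
    ring
  · intro b hb
    have hrb : Continuous (fun r => rt w r lam b) :=
      hc1.comp (f := fun r : ℝ => ((r, b) : ℝ × ℝ)) (by fun_prop)
    refine ContinuousOn.div (by fun_prop) (by fun_prop) (fun r hr => (hpos r hr b hb).ne')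
  · have h := (H.contOn_pp (lam := lam) hl).mono (s := Icc l lam ×ˢ Ioi lam)
      (t := Icc s lam ×ˢ Ioo lam (lam + 1)) (prod_mono (Icc_subset_Icc_left h1) Ioo_subset_Ioi_self)
    have h' : ContinuousOn (fun p : ℝ × ℝ => q p.1 * pp c q w p.1 lam p.2 / rt w p.1 lam p.2 ^ 3)
        (Icc s lam ×ˢ Ioo lam (lam + 1)) := by
      refine ContinuousOn.div (ContinuousOn.mul (by fun_prop) h) (by fun_prop) ?_
      rintro ⟨r, b⟩ ⟨hr, hb⟩
      exact (pow_pos (hpos r hr b hb) 3).ne'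
    exact h'.neg.div_const 2
  · intro r hr b hb
    have h := (H.hasDerivAt_rt (s := r) (lam := lam) (a := b) (h1.trans hr.1) hr.2 h3 hb.1 hb.2)
    have hp := hpos r hr b hb
    have h' := (h.inv hp.ne').const_mul (q r)
    refine (h'.congr_deriv ?_).congr_of_eventuallyEq (Eventually.of_forall (fun u => ?_))
    · field_simp
    · simp [div_eq_mul_inv]

/-- `∂_a m3 = dm3` -/
lemma WSol.hasDerivAt_m3 (H : WSol l c q w) {s lam a : ℝ} (h1 : l ≤ s) (h2 : s ≤ lam)
    (h3 : lam ≤ 1) (ha : lam < a) (ha' : a < lam + 1) :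
    HasDerivAt (fun a => m3 c q w s lam a) (dm3 c q w s lam a) a := by
  have hq := H.hq
  have hc1 := H.cont_rt2 lam
  have hl : l ≤ lam := h1.trans h2
  have hpos : ∀ r ∈ Icc s lam, ∀ b ∈ Ioo lam (lam + 1), 0 < rt w r lam b := by
    intro r hr b hb
    exact H.rt_pos (s := r) (lam := lam) (a := b) (by linarith [hr.2, hb.1])
  have hsub : Icc s lam ×ˢ Ioo lam (lam + 1) ⊆ Icc l lam ×ˢ Ioi lam :=
    prod_mono (Icc_subset_Icc_left h1) Ioo_subset_Ioi_self
  refine leibniz (φ := fun r a => q r * pp c q w r lam a / rt w r lam a ^ 3)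
    (φ' := fun r a => q r * (p1 c q w r lam a / rt w r lam a ^ 3
    - 3 / 2 * pp c q w r lam a ^ 2 / rt w r lam a ^ 5)) h2
    (U := Ioo lam (lam + 1)) isOpen_Ioo ?_ ?_ ?_ a ⟨ha, ha'⟩
  · intro b hb
    have hrb : Continuous (fun r => rt w r lam b) :=
      hc1.comp (f := fun r : ℝ => ((r, b) : ℝ × ℝ)) (by fun_prop)
    have hpb := slice (H.contOn_pp (lam := lam) hl) h1 (a := b) hb.1
    refine ContinuousOn.div (ContinuousOn.mul (by fun_prop) hpb) (by fun_prop)
      (fun r hr => (pow_pos (hpos r hr b hb) 3).ne')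
  · have hp := (H.contOn_pp (lam := lam) hl).mono hsub
    have hp1 := (H.contOn_p1 (lam := lam) hl).mono hsub
    refine ContinuousOn.mul (by fun_prop) (ContinuousOn.sub (hp1.div (by fun_prop) ?_)
      (ContinuousOn.div (ContinuousOn.mul (by fun_prop) (hp.pow 2)) (by fun_prop) ?_))
    · rintro ⟨r, b⟩ ⟨hr, hb⟩
      exact (pow_pos (hpos r hr b hb) 3).ne'
    · rintro ⟨r, b⟩ ⟨hr, hb⟩
      exact (pow_pos (hpos r hr b hb) 5).ne'
  · intro r hr b hb
    have hrt := (H.hasDerivAt_rt (s := r) (lam := lam) (a := b) (h1.trans hr.1) hr.2 h3 hb.1 hb.2)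
    have hpp := (H.hasDerivAt_pp (s := r) (lam := lam) (a := b) (h1.trans hr.1) hr.2 h3 hb.1 hb.2)
    have hp := hpos r hr b hb
    have h' := (hpp.const_mul (q r)).div (hrt.pow 3) (pow_pos hp 3).ne'
    refine h'.congr_deriv ?_
    simp only [Pi.pow_apply]
    push_cast
    field_simp

/-- `∂_a p1 = p2` -/
lemma WSol.hasDerivAt_p1 (H : WSol l c q w) {s lam a : ℝ} (h1 : l ≤ s) (h2 : s ≤ lam)
    (h3 : lam ≤ 1) (ha : lam < a) (ha' : a < lam + 1) :
    HasDerivAt (fun a => p1 c q w s lam a) (p2 c q w s lam a) a :=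
  ((H.hasDerivAt_pp h1 h2 h3 ha ha').mul (H.hasDerivAt_m3 h1 h2 h3 ha ha')).const_mul (c/2)

end Pool.Agent.Unicorn.B2
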