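import Mathlib
import Pool.Agent.Unicorn.B2D

set_option autoImplicit false

open Set MeasureTheory intervalIntegral Filter Topology

namespace Pool.Agent.Unicorn.B2

/-- exchange of the order of integration on a triangle -/
lemma triangle_swap {g : ℝ → ℝ → ℝ} (hg : Continuous (Function.uncurry g)) {l a : ℝ} (h : l ≤ a) :
    ∫ s in l..a, ∫ b in s..a, g s b = ∫ b in l..a, ∫ s in l..b, g s b := by
  let f : ℝ → ℝ → ℝ := fun s b => if s < b then g s b else 0
  have hmeas : MeasurableSet {p : ℝ × ℝ | p.1 < p.2} := measurableSet_lt measurable_fst measurable_snd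
  have hint : Integrable (Function.uncurry f)
      ((volume.restrict (Ioc l a)).prod (volume.restrict (Ioc l a))) := by
    have h1 : IntegrableOn (Function.uncurry g) (Icc l a ×ˢ Icc l a) (volume.prod volume) :=
      hg.continuousOn.integrableOn_compact (isCompact_Icc.prod isCompact_Icc)
    have h2 : IntegrableOn (Function.uncurry g) (Ioc l a ×ˢ Ioc l a) (volume.prod volume) :=
      h1.mono_set (prod_mono Ioc_subset_Icc_self Ioc_subset_Icc_self)
    have h3 : Integrable ({p : ℝ × ℝ | p.1 < p.2}.indicator (Function.uncurry g))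
        ((volume.restrict (Ioc l a)).prod (volume.restrict (Ioc l a))) := by
      rw [Measure.prod_restrict]
      exact Integrable.indicator h2 hmeas
    refine h3.congr (Eventually.of_forall (fun p => ?_))
    obtain ⟨s, b⟩ := p
    simp only [Function.uncurry, f, indicator, mem_setOf_eq]
  have hswap := integral_integral_swap hint
  rw [intervalIntegral.integral_of_le h, intervalIntegral.integral_of_le h]
  have e1 : ∫ s in Ioc l a, ∫ b in s..a, g s b = ∫ s in Ioc l a, ∫ b in Ioc l a, f s b := by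
    refine setIntegral_congr_fun measurableSet_Ioc (fun s hs => ?_)
    beta_reduce
    rw [intervalIntegral.integral_of_le hs.2]
    have : ∀ b, f s b = (Ioi s).indicator (fun b => g s b) b := by
      intro b
      simp only [f, indicator, mem_Ioi]
    simp_rw [this]
    rw [setIntegral_indicator measurableSet_Ioi]
    congr 2
    ext b
    simp only [mem_Ioc, mem_inter_iff, mem_Ioi]
    constructor
    · rintro ⟨h1, h2⟩; exact ⟨⟨hs.1.trans h1, h2⟩, h1⟩
    · rintro ⟨⟨h1, h2⟩, h3⟩; exact ⟨h3, h2⟩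
  have e2 : ∫ b in Ioc l a, ∫ s in l..b, g s b = ∫ b in Ioc l a, ∫ s in Ioc l a, f s b := by
    refine setIntegral_congr_fun measurableSet_Ioc (fun b hb => ?_)
    beta_reduce
    rw [intervalIntegral.integral_of_le hb.1.le]
    have : ∀ s, f s b = (Iio b).indicator (fun s => g s b) s := by
      intro s
      simp only [f, indicator, mem_Iio]
    simp_rw [this]
    rw [setIntegral_indicator measurableSet_Iio]
    have e3 : Ioc l a ∩ Iio b = Ioo l b := by
      ext x
      simp only [mem_Ioc, mem_inter_iff, mem_Iio, mem_Ioo]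
      constructor
      · rintro ⟨⟨h1, h2⟩, h3⟩; exact ⟨h1, h3⟩
      · rintro ⟨h1, h2⟩; exact ⟨⟨h1, (h2.le.trans hb.2)⟩, h2⟩
    rw [e3, integral_Ioc_eq_integral_Ioo]
  rw [e1, e2, hswap]

/-- diagonal derivative -/
lemma hasDerivAt_diag {h : ℝ → ℝ → ℝ} (hh : Continuous (Function.uncurry h)) (x₀ : ℝ) :
    HasDerivAt (fun u => ∫ r in x₀..u, h r u) (h x₀ x₀) x₀ := by
  rw [hasDerivAt_iff_isLittleO, Asymptotics.isLittleO_iff]
  intro ε hε
  have hc : ContinuousAt (Function.uncurry h) (x₀, x₀) := hh.continuousAt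
  obtain ⟨δ, hδ, hδ2⟩ := Metric.continuousAt_iff.1 hc ε hε
  filter_upwards [Metric.ball_mem_nhds x₀ hδ] with u hu
  rw [Metric.mem_ball, Real.dist_eq] at hu
  have hcu : Continuous (fun r => h r u) :=
    hh.comp (f := fun r : ℝ => ((r, u) : ℝ × ℝ)) (by fun_prop)
  have e : (∫ r in x₀..u, h r u) - (∫ r in x₀..x₀, h r x₀) - (u - x₀) • h x₀ x₀
      = ∫ r in x₀..u, (h r u - h x₀ x₀) := by
    rw [intervalIntegral.integral_sub (hcu.intervalIntegrable _ _) intervalIntegrable_const]
    simp
  rw [e]
  have hb := intervalIntegral.norm_integral_le_of_norm_le_const (f := fun r => h r u - h x₀ x₀)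
    (a := x₀) (b := u) (C := ε) (fun r hr => ?_)
  · simpa [Real.norm_eq_abs] using hb
  · have hr' : |r - x₀| ≤ |u - x₀| := by
      rcases mem_uIoc.1 hr with ⟨h1, h2⟩ | ⟨h1, h2⟩
      · rw [abs_of_pos (by linarith), abs_of_nonneg (by linarith)]; linarith
      · rw [abs_of_nonpos (by linarith), abs_of_neg (by linarith)]; linarith
    have := hδ2 (x := (r, u)) (by
      rw [Prod.dist_eq, Real.dist_eq, Real.dist_eq]
      exact max_lt (lt_of_le_of_lt hr' hu) hu)
    rw [dist_eq_norm] at this
    exact this.le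

/-- product rule when one factor vanishes and the other is only continuous -/
lemma hasDerivAt_mul_zero {H Ψ : ℝ → ℝ} {H' x₀ : ℝ} (hH : HasDerivAt H H' x₀) (h0 : H x₀ = 0)
    (hΨ : ContinuousAt Ψ x₀) : HasDerivAt (fun u => H u * Ψ u) (H' * Ψ x₀) x₀ := by
  rw [hasDerivAt_iff_tendsto_slope] at hH ⊢
  have h1 : Tendsto (fun u => slope H x₀ u * Ψ u) (𝓝[≠] x₀) (𝓝 (H' * Ψ x₀)) :=
    hH.mul (hΨ.tendsto.mono_left nhdsWithin_le_nhds)
  refine h1.congr (fun u => ?_)
  rw [slope_def_field, slope_def_field, h0]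
  simp only [zero_mul, sub_zero]
  ring

variable {l c : ℝ} {q : ℝ → ℝ} {w : ℝ → ℝ → ℝ → ℝ}

/-- at the top the energy is `a` -/
lemma WSol.en_top (H : WSol l c q w) {lam a : ℝ} (h1 : l ≤ lam) (h3 : lam ≤ 1) (h4 : lam ≤ a)
    (h5 : a ≤ lam + 1) : en w lam lam a = a := by
  have := H.energy h1 le_rfl h3 h4 h5
  simpa using this

lemma WSol.rt_top (H : WSol l c q w) {lam a : ℝ} (h1 : l ≤ lam) (h3 : lam ≤ 1) (h4 : lam ≤ a)
    (h5 : a ≤ lam + 1) : rt w lam lam a = √(a - lam) := by
  rw [← H.sqrt_en h4, H.en_top h1 h3 h4 h5]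

/-- the explicit difference in `lam` -/
lemma WSol.diff_lam (H : WSol l c q w) {lam₁ lam₂ a : ℝ} (hl1 : l ≤ lam₁) (h12 : lam₁ ≤ lam₂)
    (h3 : lam₂ ≤ 1) (ha : lam₂ < a) (ha' : a ≤ lam₁ + 1) {s : ℝ} (h1 : l ≤ s) (h2 : s ≤ lam₁) :
    en w s lam₂ a - en w s lam₁ a = (-(2 * c * ∫ r in lam₁..lam₂, q r * rt w r lam₂ a))
      * Real.exp (-∫ r in s..lam₁, 2 * c * q r / (rt w r lam₂ a + rt w r lam₁ a)) := by
  have hq := H.hq
  have hc := H.cont_rt
  have hr1 : Continuous (fun r => rt w r lam₁ a) :=
    hc.comp (f := fun r : ℝ => ((r, lam₁, a) : ℝ × ℝ × ℝ)) (by fun_prop)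
  have hr2 : Continuous (fun r => rt w r lam₂ a) :=
    hc.comp (f := fun r : ℝ => ((r, lam₂, a) : ℝ × ℝ × ℝ)) (by fun_prop)
  have he1 : Continuous (fun r => en w r lam₁ a) :=
    H.cont_en.comp (f := fun r : ℝ => ((r, lam₁, a) : ℝ × ℝ × ℝ)) (by fun_prop)
  have he2 : Continuous (fun r => en w r lam₂ a) :=
    H.cont_en.comp (f := fun r : ℝ => ((r, lam₂, a) : ℝ × ℝ × ℝ)) (by fun_prop)
  have hpos : ∀ r ∈ Icc l lam₁, 0 < rt w r lam₂ a + rt w r lam₁ a := by
    intro r hr
    have := H.rt_pos (s := r) (lam := lam₂) (a := a) (by linarith [hr.2])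
    have := H.rt_pos (s := r) (lam := lam₁) (a := a) (by linarith [hr.2])
    linarith
  refine volterra (s₀ := l) (b := lam₁) (D := fun s => en w s lam₂ a - en w s lam₁ a) ?_ ?_ ?_ s ⟨h1, h2⟩
  · refine ContinuousOn.div (by fun_prop) (by fun_prop) (fun r hr => (hpos r hr).ne')
  · exact (he2.sub he1).continuousOn
  · intro u hu
    have g1 := H.energy (a := a) hu.1 hu.2 (h12.trans h3) (by linarith) ha'
    have g2 := H.energy (a := a) hu.1 (hu.2.trans h12) h3 ha.le (by linarith)
    beta_reduce
    rw [g1, g2]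
    have e1 : ∫ r in u..lam₁, q r * √(en w r lam₁ a - r) = ∫ r in u..lam₁, q r * rt w r lam₁ a := by
      refine integral_congr (fun r hr => ?_)
      rw [uIcc_of_le hu.2] at hr
      beta_reduce
      rw [H.sqrt_en (by linarith [hr.2])]
    have e2 : ∫ r in u..lam₂, q r * √(en w r lam₂ a - r) = ∫ r in u..lam₂, q r * rt w r lam₂ a := by
      refine integral_congr (fun r hr => ?_)
      rw [uIcc_of_le (hu.2.trans h12)] at hr
      beta_reduce
      rw [H.sqrt_en (by linarith [hr.2])]
    have e3 : ∫ r in u..lam₁, 2 * c * q r / (rt w r lam₂ a + rt w r lam₁ a)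
        * (en w r lam₂ a - en w r lam₁ a)
        = 2 * c * (∫ r in u..lam₁, q r * rt w r lam₂ a) - 2 * c * ∫ r in u..lam₁, q r * rt w r lam₁ a := by
      rw [← intervalIntegral.integral_const_mul, ← intervalIntegral.integral_const_mul,
        ← intervalIntegral.integral_sub]
      · refine integral_congr (fun r hr => ?_)
        rw [uIcc_of_le hu.2] at hr
        have hp := hpos r ⟨hu.1.trans hr.1, hr.2⟩
        beta_reduce
        have s1 := rt_sq (w := w) (s := r) (lam := lam₁) (a := a) (by linarith [hr.2])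
        have s2 := rt_sq (w := w) (s := r) (lam := lam₂) (a := a) (by linarith [hr.2])
        have s3 : en w r lam₂ a - en w r lam₁ a
            = (rt w r lam₂ a + rt w r lam₁ a) * (rt w r lam₂ a - rt w r lam₁ a) := by
          nlinarith [s1, s2]
        rw [s3]
        field_simp
      · exact (by fun_prop : Continuous fun r => 2 * c * (q r * rt w r lam₂ a)).intervalIntegrable _ _
      · exact (by fun_prop : Continuous fun r => 2 * c * (q r * rt w r lam₁ a)).intervalIntegrable _ _
    have e4 : ∫ r in u..lam₂, q r * rt w r lam₂ a = (∫ r in u..lam₁, q r * rt w r lam₂ a)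
        + ∫ r in lam₁..lam₂, q r * rt w r lam₂ a := by
      rw [intervalIntegral.integral_add_adjacent_intervals]
      · exact (by fun_prop : Continuous fun r => q r * rt w r lam₂ a).intervalIntegrable _ _
      · exact (by fun_prop : Continuous fun r => q r * rt w r lam₂ a).intervalIntegrable _ _
    rw [e1, e2, e3, e4]
    ring

/-- `∂_lam e = -2 c q(lam) √(a-lam) p` -/
lemma WSol.hasDerivAt_lam (H : WSol l c q w) {s lam a : ℝ} (h1 : l ≤ s) (h2 : s < lam)
    (h3 : lam < 1) (ha : lam < a) (ha' : a < lam + 1) :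
    HasDerivAt (fun lam => en w s lam a) (-(2 * c * (q lam * √(a - lam))) * pp c q w s lam a) lam := by
  have hq := H.hq
  have hc := H.cont_rt
  have hll : l ≤ lam := h1.trans h2.le
  -- the first factor
  let Hf : ℝ → ℝ := fun u => -(2 * c * ∫ r in lam..u, q r * rt w r (max lam u) a)
  have hHf : HasDerivAt Hf (-(2 * c * (q lam * rt w lam (max lam lam) a))) lam := by
    have hcont : Continuous (Function.uncurry (fun r u => q r * rt w r (max lam u) a)) := by
      have h4 : Continuous (fun p : ℝ × ℝ => rt w p.1 (max lam p.2) a) :=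
        hc.comp (f := fun p : ℝ × ℝ => ((p.1, max lam p.2, a) : ℝ × ℝ × ℝ)) (by fun_prop)
      exact (hq.comp continuous_fst).mul h4
    exact ((hasDerivAt_diag hcont lam).const_mul (2 * c)).neg
  -- the second factor
  let Ψ : ℝ → ℝ := fun u => Real.exp (-∫ r in s..(min lam u),
    2 * c * q r / (rt w (min r lam) u a + rt w (min r lam) lam a))
  have hΨ : Continuous Ψ := by
    have hden : ∀ p : ℝ × ℝ, rt w (min p.2 lam) p.1 a + rt w (min p.2 lam) lam a ≠ 0 := by
      intro p
      have g1 := H.rt_pos (s := min p.2 lam) (lam := p.1) (a := a)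
        (lt_of_le_of_lt (min_le_right _ _) ha)
      have g2 := H.rt_pos (s := min p.2 lam) (lam := lam) (a := a)
        (lt_of_le_of_lt (min_le_right _ _) ha)
      exact (add_pos g1 g2).ne'
    have h4 : Continuous (fun p : ℝ × ℝ => rt w (min p.2 lam) p.1 a) :=
      hc.comp (f := fun p : ℝ × ℝ => ((min p.2 lam, p.1, a) : ℝ × ℝ × ℝ)) (by fun_prop)
    have h5 : Continuous (fun p : ℝ × ℝ => rt w (min p.2 lam) lam a) :=
      hc.comp (f := fun p : ℝ × ℝ => ((min p.2 lam, lam, a) : ℝ × ℝ × ℝ)) (by fun_prop)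
    have h6 : Continuous (Function.uncurry (fun u r => 2 * c * q r
        / (rt w (min r lam) u a + rt w (min r lam) lam a))) := by
      refine Continuous.div (by fun_prop) (h4.add h5) hden
    have h7 := intervalIntegral.continuous_parametric_intervalIntegral_of_continuous (μ := volume)
      (a₀ := s) h6 (s := fun u => min lam u) (by fun_prop)
    exact Real.continuous_exp.comp h7.neg
  have hprod := hasDerivAt_mul_zero hHf (by simp [Hf]) hΨ.continuousAt
  have e1 : -(2 * c * (q lam * rt w lam (max lam lam) a)) * Ψ lam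
      = -(2 * c * (q lam * √(a - lam))) * pp c q w s lam a := by
    rw [max_self, H.rt_top hll h3.le ha.le ha'.le]
    congr 1
    simp only [Ψ, min_self]
    unfold pp
    congr 2
    rw [← intervalIntegral.integral_const_mul]
    refine integral_congr (fun r hr => ?_)
    rw [uIcc_of_le h2.le] at hr
    beta_reduce
    rw [min_eq_left hr.2]
    have g2 := H.rt_pos (s := r) (lam := lam) (a := a) (by linarith [hr.2])
    field_simp
    ring
  rw [e1] at hprod
  have hprod2 := hprod.add_const (en w s lam a)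
  refine hprod2.congr_of_eventuallyEq ?_
  have hev : ∀ᶠ u in 𝓝 lam, u ∈ Ioo (max s (a - 1)) (min 1 a) := by
    refine Ioo_mem_nhds (max_lt h2 (by linarith)) (lt_min h3 ha)
  filter_upwards [hev] with u hu
  have hu1 : s < u := lt_of_le_of_lt (le_max_left _ _) hu.1
  have hu2 : a - 1 < u := lt_of_le_of_lt (le_max_right _ _) hu.1
  have hu3 : u < 1 := lt_of_lt_of_le hu.2 (min_le_left _ _)
  have hu4 : u < a := lt_of_lt_of_le hu.2 (min_le_right _ _)
  simp only [Hf, Ψ]
  rcases le_total lam u with hlu | hlu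
  · have h := H.diff_lam hll hlu hu3.le hu4 (by linarith) h1 h2.le
    rw [max_eq_right hlu, min_eq_left hlu]
    have e2 : ∫ r in s..lam, 2 * c * q r / (rt w (min r lam) u a + rt w (min r lam) lam a)
        = ∫ r in s..lam, 2 * c * q r / (rt w r u a + rt w r lam a) := by
      refine integral_congr (fun r hr => ?_)
      rw [uIcc_of_le h2.le] at hr
      beta_reduce
      rw [min_eq_left hr.2]
    rw [e2]
    linarith
  · have h := H.diff_lam (h1.trans hu1.le) hlu h3.le ha (by linarith) h1 hu1.le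
    rw [max_eq_left hlu, min_eq_right hlu]
    have e2 : ∫ r in s..u, 2 * c * q r / (rt w (min r lam) u a + rt w (min r lam) lam a)
        = ∫ r in s..u, 2 * c * q r / (rt w r lam a + rt w r u a) := by
      refine integral_congr (fun r hr => ?_)
      rw [uIcc_of_le hu1.le] at hr
      beta_reduce
      rw [min_eq_left (hr.2.trans hlu), add_comm (rt w r u a)]
    rw [e2]
    rw [intervalIntegral.integral_symm u lam]
    linarith

end Pool.Agent.Unicorn.B2
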