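import Mathlib
import Pool.Agent.Unicorn.B2L

set_option autoImplicit false

open Set MeasureTheory intervalIntegral Filter Topology

namespace Pool.Agent.Unicorn.B2

/-- the substitution `r = a - u²` in `∫ g(r)/(√(a-r) v(r)) dr` -/
lemma subst_sqrt {g v : ℝ → ℝ} {s b a : ℝ} (hsb : s ≤ b) (hba : b ≤ a) :
    ∫ r in s..b, g r / (√(a - r) * v r)
      = ∫ u in √(a - b)..√(a - s), 2 * g (a - u ^ 2) / v (a - u ^ 2) := by
  have hAB : √(a - b) ≤ √(a - s) := Real.sqrt_le_sqrt (by linarith)
  have hA : 0 ≤ √(a - b) := Real.sqrt_nonneg _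
  have h := intervalIntegral.integral_comp_mul_deriv_of_deriv_nonpos (a := √(a - b)) (b := √(a - s))
    (f := fun u => a - u ^ 2) (f' := fun u => -(2 * u)) (g := fun r => g r / (√(a - r) * v r))
    (by fun_prop)
    (fun u _ => by
      have := ((hasDerivAt_pow 2 u).const_sub a)
      refine this.congr_deriv ?_
      simp)
    (fun u hu => by
      rw [min_eq_left hAB] at hu
      have : 0 < u := lt_of_le_of_lt hA hu.1
      linarith)
  have e1 : a - √(a - b) ^ 2 = b := by rw [Real.sq_sqrt (by linarith)]; ring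
  have e2 : a - √(a - s) ^ 2 = s := by rw [Real.sq_sqrt (by linarith)]; ring
  rw [e1, e2] at h
  rw [intervalIntegral.integral_symm, ← h, ← intervalIntegral.integral_neg]
  refine intervalIntegral.integral_congr_ae (Eventually.of_forall (fun u hu => ?_))
  rw [uIoc_of_le hAB] at hu
  have hu0 : 0 < u := lt_of_le_of_lt hA hu.1
  simp only [Function.comp_apply]
  have e3 : a - (a - u ^ 2) = u ^ 2 := by ring
  rw [e3, Real.sqrt_sq hu0.le]
  by_cases hv : v (a - u ^ 2) = 0
  · simp [hv]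
  · field_simp

variable {l c : ℝ} {q : ℝ → ℝ} {w : ℝ → ℝ → ℝ → ℝ}

/-- total continuous version of `p` -/
noncomputable def ppT (c : ℝ) (q : ℝ → ℝ) (w : ℝ → ℝ → ℝ → ℝ) (s lam a : ℝ) : ℝ :=
  Real.exp (-(c * ∫ u in √(a - lam)..√(a - s), 2 * q (a - u ^ 2) / w (a - u ^ 2) lam (a - lam)))

lemma pp_eq_ppT {s lam a : ℝ} (h1 : s ≤ lam) (h2 : lam ≤ a) :
    pp c q w s lam a = ppT c q w s lam a := by
  unfold pp ppT rt
  rw [subst_sqrt (v := fun r => w r lam (a - lam)) h1 h2]

lemma WSol.cont_ppT (H : WSol l c q w) :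
    Continuous (fun p : ℝ × ℝ × ℝ => ppT c q w p.1 p.2.1 p.2.2) := by
  have hq := H.hq
  have hw := H.hw
  have h1 : Continuous (Function.uncurry (fun (p : ℝ × ℝ × ℝ) (u : ℝ) =>
      2 * q (p.2.2 - u ^ 2) / w (p.2.2 - u ^ 2) p.2.1 (p.2.2 - p.2.1))) := by
    have h2 : Continuous (fun x : (ℝ × ℝ × ℝ) × ℝ =>
        w (x.1.2.2 - x.2 ^ 2) x.1.2.1 (x.1.2.2 - x.1.2.1)) :=
      hw.comp (f := fun x : (ℝ × ℝ × ℝ) × ℝ =>
        ((x.1.2.2 - x.2 ^ 2, x.1.2.1, x.1.2.2 - x.1.2.1) : ℝ × ℝ × ℝ)) (by fun_prop)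
    refine Continuous.div ?_ h2 (fun x => (H.pos _ _ _).ne')
    exact continuous_const.mul (hq.comp (by fun_prop))
  have h3 := intervalIntegral.continuous_parametric_intervalIntegral_of_continuous (μ := volume)
    (a₀ := 0) h1 (s := fun p : ℝ × ℝ × ℝ => √(p.2.2 - p.1)) (by fun_prop)
  have h4 := intervalIntegral.continuous_parametric_intervalIntegral_of_continuous (μ := volume)
    (a₀ := 0) h1 (s := fun p : ℝ × ℝ × ℝ => √(p.2.2 - p.2.1)) (by fun_prop)
  have h5 : ∀ p : ℝ × ℝ × ℝ, ppT c q w p.1 p.2.1 p.2.2 = Real.exp (-(c *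
      ((∫ u in (0:ℝ)..√(p.2.2 - p.1), 2 * q (p.2.2 - u ^ 2) / w (p.2.2 - u ^ 2) p.2.1 (p.2.2 - p.2.1))
      - ∫ u in (0:ℝ)..√(p.2.2 - p.2.1),
        2 * q (p.2.2 - u ^ 2) / w (p.2.2 - u ^ 2) p.2.1 (p.2.2 - p.2.1)))) := by
    intro p
    unfold ppT
    have hcu : Continuous (fun u : ℝ =>
        2 * q (p.2.2 - u ^ 2) / w (p.2.2 - u ^ 2) p.2.1 (p.2.2 - p.2.1)) :=
      h1.comp (f := fun u : ℝ => ((p, u) : (ℝ × ℝ × ℝ) × ℝ)) (by fun_prop)
    rw [intervalIntegral.integral_interval_sub_left (hcu.intervalIntegrable _ _)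
      (hcu.intervalIntegrable _ _)]
  simp_rw [h5]
  exact Real.continuous_exp.comp ((continuous_const.mul (h3.sub h4)).neg)

/-- `∫_l^lam q √s p/e²` -/
noncomputable def I1 (c : ℝ) (q : ℝ → ℝ) (w : ℝ → ℝ → ℝ → ℝ) (l lam a : ℝ) : ℝ :=
  ∫ s in l..lam, q s * √s * (pp c q w s lam a / en w s lam a ^ 2)

/-- one-sided layer stripping, for a fixed `s` -/
lemma WSol.strip (H : WSol l c q w) {s a : ℝ} (h1 : l ≤ s) (h2 : s ≤ a) (ha : a ≤ 1) :
    (en w s a a)⁻¹ - a⁻¹
      = ∫ lam in s..a, 2 * c * (q lam * √(a - lam)) * (ppT c q w s lam a / (max l (en w s lam a)) ^ 2) := by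
  have hl := H.hl
  rcases h2.eq_or_lt with rfl | hlt
  · rw [H.en_top h1 ha le_rfl (by linarith)]; simp
  have hq := H.hq
  have hen : Continuous (fun lam => en w s lam a) :=
    H.cont_en.comp (f := fun lam : ℝ => ((s, lam, a) : ℝ × ℝ × ℝ)) (by fun_prop)
  have hpT : Continuous (fun lam => ppT c q w s lam a) :=
    H.cont_ppT.comp (f := fun lam : ℝ => ((s, lam, a) : ℝ × ℝ × ℝ)) (by fun_prop)
  have hge : ∀ lam ∈ Icc s a, l ≤ en w s lam a := fun lam hlam => h1.trans (H.en_ge hlt.le)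
  have hcont : ContinuousOn (fun lam => (en w s lam a)⁻¹) (Icc s a) :=
    ContinuousOn.inv₀ hen.continuousOn (fun lam hlam => (hl.trans_le (hge lam hlam)).ne')
  have hder : ∀ lam ∈ Ioo s a, HasDerivAt (fun lam => (en w s lam a)⁻¹)
      (2 * c * (q lam * √(a - lam)) * (ppT c q w s lam a / (max l (en w s lam a)) ^ 2)) lam := by
    intro lam hlam
    have hge' := hge lam ⟨hlam.1.le, hlam.2.le⟩
    have hpos : 0 < en w s lam a := hl.trans_le hge'
    have h := (H.hasDerivAt_lam (s := s) (lam := lam) (a := a) h1 hlam.1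
      (by linarith [hlam.2]) hlam.2 (by linarith [hlam.1, hlt])).inv hpos.ne'
    refine h.congr_deriv ?_
    rw [max_eq_right hge', ← pp_eq_ppT hlam.1.le hlam.2.le]
    field_simp
    try ring
  have hint : Continuous (fun lam => 2 * c * (q lam * √(a - lam))
      * (ppT c q w s lam a / (max l (en w s lam a)) ^ 2)) := by
    refine Continuous.mul (by fun_prop) (Continuous.div hpT (by fun_prop) (fun lam => ?_))
    have : 0 < max l (en w s lam a) := hl.trans_le (le_max_left _ _)
    positivity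
  have key := intervalIntegral.integral_eq_sub_of_hasDerivAt_of_le hlt.le hcont hder
    (hint.intervalIntegrable _ _)
  rw [key, H.en_top h1 (hlt.le.trans ha) hlt.le (by linarith)]

/-- one-sided layer stripping identity -/
theorem WSol.LS1 (H : WSol l c q w) {a : ℝ} (hla : l ≤ a) (ha : a ≤ 1) :
    ∫ s in l..a, q s * √s * ((en w s a a)⁻¹ - a⁻¹)
      = 2 * c * ∫ lam in l..a, q lam * √(a - lam) * I1 c q w l lam a := by
  have hl := H.hl
  have hq := H.hq
  let G : ℝ → ℝ → ℝ := fun s lam => (q s * √s) * (2 * c * (q lam * √(a - lam))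
      * (ppT c q w s lam a / (max l (en w s lam a)) ^ 2))
  have hG : Continuous (Function.uncurry G) := by
    have hen : Continuous (fun p : ℝ × ℝ => en w p.1 p.2 a) :=
      H.cont_en.comp (f := fun p : ℝ × ℝ => ((p.1, p.2, a) : ℝ × ℝ × ℝ)) (by fun_prop)
    have hpT : Continuous (fun p : ℝ × ℝ => ppT c q w p.1 p.2 a) :=
      H.cont_ppT.comp (f := fun p : ℝ × ℝ => ((p.1, p.2, a) : ℝ × ℝ × ℝ)) (by fun_prop)
    have h1 : Continuous (fun p : ℝ × ℝ => ppT c q w p.1 p.2 a / (max l (en w p.1 p.2 a)) ^ 2) := by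
      refine hpT.div (by fun_prop) (fun p => ?_)
      have : 0 < max l (en w p.1 p.2 a) := hl.trans_le (le_max_left _ _)
      positivity
    have h2 : Continuous (fun p : ℝ × ℝ => (q p.1 * √p.1)) := by fun_prop
    have h3 : Continuous (fun p : ℝ × ℝ => 2 * c * (q p.2 * √(a - p.2))) := by fun_prop
    exact h2.mul (h3.mul h1)
  have hswap := triangle_swap hG hla
  have e1 : ∫ s in l..a, q s * √s * ((en w s a a)⁻¹ - a⁻¹) = ∫ s in l..a, ∫ b in s..a, G s b := by
    refine integral_congr (fun s hs => ?_)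
    rw [uIcc_of_le hla] at hs
    beta_reduce
    rw [H.strip hs.1 hs.2 ha, ← intervalIntegral.integral_const_mul]
  have e2 : 2 * c * ∫ lam in l..a, q lam * √(a - lam) * I1 c q w l lam a
      = ∫ b in l..a, ∫ s in l..b, G s b := by
    rw [← intervalIntegral.integral_const_mul]
    refine integral_congr (fun b hb => ?_)
    rw [uIcc_of_le hla] at hb
    beta_reduce
    unfold I1
    rw [← intervalIntegral.integral_const_mul, ← intervalIntegral.integral_const_mul]
    refine integral_congr (fun s hs => ?_)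
    rw [uIcc_of_le hb.1] at hs
    simp only [G]
    have hge : l ≤ en w s b a := hs.1.trans (H.en_ge (hs.2.trans hb.2))
    rw [max_eq_right hge, pp_eq_ppT hs.2 hb.2]
    ring
  rw [e1, e2, hswap]

/-- the layer stripping identity (LS) -/
theorem LS {l ε : ℝ} {q : ℝ → ℝ} {wp wm : ℝ → ℝ → ℝ → ℝ} (Hp : WSol l ε q wp)
    (Hm : WSol l (-ε) q wm) {a : ℝ} (hla : l ≤ a) (ha : a ≤ 1) :
    (∫ s in l..a, q s * √s / en wp s a a) - (∫ s in l..a, q s * √s / en wm s a a)
      = ε * ∫ lam in l..a, q lam * √(a - lam)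
          * (2 * (I1 ε q wp l lam a + I1 (-ε) q wm l lam a)) := by
  have hq := Hp.hq
  have hl := Hp.hl
  have hone : ∀ {c : ℝ} {w : ℝ → ℝ → ℝ → ℝ}, WSol l c q w →
      ∫ s in l..a, q s * √s / en w s a a
        = (∫ s in l..a, q s * √s * a⁻¹) + 2 * c * ∫ lam in l..a, q lam * √(a - lam) * I1 c q w l lam a := by
    intro c w H
    rw [← H.LS1 hla ha, ← intervalIntegral.integral_add]
    · refine integral_congr (fun s _ => ?_)
      beta_reduce
      ring
    · exact (by fun_prop : Continuous (fun s => q s * √s * a⁻¹)).intervalIntegrable _ _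
    · have hen : Continuous (fun s => en w s a a) :=
        H.cont_en.comp (f := fun s : ℝ => ((s, a, a) : ℝ × ℝ × ℝ)) (by fun_prop)
      have : ContinuousOn (fun s => q s * √s * ((en w s a a)⁻¹ - a⁻¹)) (uIcc l a) := by
        rw [uIcc_of_le hla]
        refine ContinuousOn.mul (by fun_prop) (ContinuousOn.sub
          (ContinuousOn.inv₀ hen.continuousOn (fun s hs => ?_)) continuousOn_const)
        exact (hl.trans_le (hs.1.trans (H.en_ge hs.2))).ne'
      exact this.intervalIntegrable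
  have hI : ∀ {c : ℝ} {w : ℝ → ℝ → ℝ → ℝ}, WSol l c q w →
      IntervalIntegrable (fun lam => q lam * √(a - lam) * I1 c q w l lam a) volume l a := by
    intro c w H
    have hcI : ContinuousOn (fun lam => I1 c q w l lam a) (Icc l a) := by
      have hen : Continuous (fun p : ℝ × ℝ => en w p.2 p.1 a) :=
        H.cont_en.comp (f := fun p : ℝ × ℝ => ((p.2, p.1, a) : ℝ × ℝ × ℝ)) (by fun_prop)
      have hpT : Continuous (fun p : ℝ × ℝ => ppT c q w p.2 p.1 a) :=
        H.cont_ppT.comp (f := fun p : ℝ × ℝ => ((p.2, p.1, a) : ℝ × ℝ × ℝ)) (by fun_prop)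
      have h1 : Continuous (Function.uncurry (fun lam s : ℝ =>
          q s * √s * (ppT c q w s lam a / (max l (en w s lam a)) ^ 2))) := by
        have h2 : Continuous (fun p : ℝ × ℝ => q p.2 * √p.2) := by fun_prop
        have h3 : Continuous (fun p : ℝ × ℝ => ppT c q w p.2 p.1 a / (max l (en w p.2 p.1 a)) ^ 2) := by
          refine hpT.div (by fun_prop) (fun p => ?_)
          have : 0 < max l (en w p.2 p.1 a) := hl.trans_le (le_max_left _ _)
          positivity
        exact h2.mul h3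
      have h4 := intervalIntegral.continuous_parametric_intervalIntegral_of_continuous (μ := volume)
        (a₀ := l) h1 (s := fun lam => lam) continuous_id
      refine h4.continuousOn.congr (fun lam hlam => ?_)
      unfold I1
      refine integral_congr (fun s hs => ?_)
      rw [uIcc_of_le hlam.1] at hs
      beta_reduce
      rw [max_eq_right (hs.1.trans (H.en_ge (hs.2.trans hlam.2))), pp_eq_ppT hs.2 hlam.2]
    have : ContinuousOn (fun lam => q lam * √(a - lam) * I1 c q w l lam a) (uIcc l a) := by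
      rw [uIcc_of_le hla]
      exact ContinuousOn.mul (by fun_prop) hcI
    exact this.intervalIntegrable
  have h5 : ∫ lam in l..a, q lam * √(a - lam) * (2 * (I1 ε q wp l lam a + I1 (-ε) q wm l lam a))
      = 2 * (∫ lam in l..a, q lam * √(a - lam) * I1 ε q wp l lam a)
        + 2 * ∫ lam in l..a, q lam * √(a - lam) * I1 (-ε) q wm l lam a := by
    rw [← intervalIntegral.integral_const_mul, ← intervalIntegral.integral_const_mul,
      ← intervalIntegral.integral_add ((hI Hp).const_mul 2) ((hI Hm).const_mul 2)]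
    refine integral_congr (fun s _ => ?_)
    beta_reduce
    ring
  rw [hone Hp, hone Hm, h5]
  ring

end Pool.Agent.Unicorn.B2
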