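import Mathlib
import Pool.Agent.Unicorn.B2M

set_option autoImplicit false

open Set MeasureTheory intervalIntegral Filter Topology

namespace Pool.Agent.Unicorn.B2

/-- the set `x > 0` -/
def XP : Set (ℝ × ℝ × ℝ) := {p | 0 < p.2.2}

lemma isOpen_XP : IsOpen XP := isOpen_lt continuous_const (by fun_prop)

/-- extension of a function continuous on `x > 0` -/
lemma cont_ext {φ : ℝ → ℝ → ℝ → ℝ}
    (h : ContinuousOn (fun p : ℝ × ℝ × ℝ => φ p.1 p.2.1 p.2.2) XP) {δ : ℝ} (hδ : 0 < δ) :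
    Continuous (fun p : ℝ × ℝ × ℝ => φ p.1 p.2.1 (max p.2.2 δ)) := by
  rw [← continuousOn_univ]
  exact h.comp (f := fun p : ℝ × ℝ × ℝ => ((p.1, p.2.1, max p.2.2 δ) : ℝ × ℝ × ℝ))
    (by fun_prop) (fun p _ => lt_of_lt_of_le hδ (le_max_right _ _))

/-- continuity of integrals with both ends variable, on `x > 0` -/
lemma cont_int3 {φ : ℝ → ℝ → ℝ → ℝ}
    (h : ContinuousOn (fun p : ℝ × ℝ × ℝ => φ p.1 p.2.1 p.2.2) XP) :
    ContinuousOn (fun p : ℝ × ℝ × ℝ => ∫ r in p.1..p.2.1, φ r p.2.1 p.2.2) XP := by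
  rintro ⟨s, lam, x⟩ hx
  have hx' : 0 < x := hx
  have hδ : 0 < x / 2 := by linarith
  have hc := cont_ext h hδ
  have h1 : Continuous (Function.uncurry (fun (p : ℝ × ℝ × ℝ) (r : ℝ) =>
      φ r p.2.1 (max p.2.2 (x/2)))) :=
    hc.comp (f := fun y : (ℝ × ℝ × ℝ) × ℝ => ((y.2, y.1.2.1, y.1.2.2) : ℝ × ℝ × ℝ)) (by fun_prop)
  have h3 := intervalIntegral.continuous_parametric_intervalIntegral_of_continuous (μ := volume)
    (a₀ := 0) h1 (s := fun p : ℝ × ℝ × ℝ => p.1) (by fun_prop)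
  have h4 := intervalIntegral.continuous_parametric_intervalIntegral_of_continuous (μ := volume)
    (a₀ := 0) h1 (s := fun p : ℝ × ℝ × ℝ => p.2.1) (by fun_prop)
  have h5 : ContinuousAt (fun p : ℝ × ℝ × ℝ => ∫ r in p.1..p.2.1, φ r p.2.1 p.2.2) (s, lam, x) := by
    refine (h4.sub h3).continuousAt.congr ?_
    have hev : ∀ᶠ p : ℝ × ℝ × ℝ in 𝓝 (s, lam, x), x / 2 < p.2.2 := by
      have : Continuous (fun p : ℝ × ℝ × ℝ => p.2.2) := by fun_prop
      exact (this.tendsto (s, lam, x)).eventually (lt_mem_nhds (show x / 2 < x by linarith))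
    filter_upwards [hev] with p hp
    have hcu : Continuous (fun r : ℝ => φ r p.2.1 (max p.2.2 (x/2))) :=
      h1.comp (f := fun r : ℝ => ((p, r) : (ℝ × ℝ × ℝ) × ℝ)) (by fun_prop)
    simp only [Pi.sub_apply]
    rw [intervalIntegral.integral_interval_sub_left (hcu.intervalIntegrable _ _)
      (hcu.intervalIntegrable _ _), max_eq_left hp.le]
  exact h5.continuousWithinAt

/-- same with a fixed lower end -/
lemma cont_int3' {φ : ℝ → ℝ → ℝ → ℝ} (l : ℝ)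
    (h : ContinuousOn (fun p : ℝ × ℝ × ℝ => φ p.1 p.2.1 p.2.2) XP) :
    ContinuousOn (fun p : ℝ × ℝ => ∫ r in l..p.1, φ r p.1 p.2) {p | 0 < p.2} :=
  (cont_int3 h).comp (f := fun p : ℝ × ℝ => ((l, p.1, p.2) : ℝ × ℝ × ℝ)) (by fun_prop)
    (fun p hp => hp)

variable {l c : ℝ} {q : ℝ → ℝ} {w : ℝ → ℝ → ℝ → ℝ}

noncomputable def RT (w : ℝ → ℝ → ℝ → ℝ) (r lam x : ℝ) : ℝ := √(x + max (lam - r) 0) * w r lam x

noncomputable def pT (c : ℝ) (q : ℝ → ℝ) (w : ℝ → ℝ → ℝ → ℝ) (s lam x : ℝ) : ℝ :=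
  ppT c q w s lam (lam + x)

noncomputable def m3T (c : ℝ) (q : ℝ → ℝ) (w : ℝ → ℝ → ℝ → ℝ) (s lam x : ℝ) : ℝ :=
  ∫ r in s..lam, q r * pT c q w r lam x / RT w r lam x ^ 3

noncomputable def p1T (c : ℝ) (q : ℝ → ℝ) (w : ℝ → ℝ → ℝ → ℝ) (s lam x : ℝ) : ℝ :=
  c / 2 * (pT c q w s lam x * m3T c q w s lam x)

noncomputable def dm3T (c : ℝ) (q : ℝ → ℝ) (w : ℝ → ℝ → ℝ → ℝ) (s lam x : ℝ) : ℝ :=
  ∫ r in s..lam, q r * (p1T c q w r lam x / RT w r lam x ^ 3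
    - 3 / 2 * pT c q w r lam x ^ 2 / RT w r lam x ^ 5)

noncomputable def p2T (c : ℝ) (q : ℝ → ℝ) (w : ℝ → ℝ → ℝ → ℝ) (s lam x : ℝ) : ℝ :=
  c / 2 * (p1T c q w s lam x * m3T c q w s lam x + pT c q w s lam x * dm3T c q w s lam x)

noncomputable def eT (l : ℝ) (w : ℝ → ℝ → ℝ → ℝ) (s lam x : ℝ) : ℝ := max l (en w s lam (lam + x))

/-- `p/e²` -/
noncomputable def k0T (l c : ℝ) (q : ℝ → ℝ) (w : ℝ → ℝ → ℝ → ℝ) (s lam x : ℝ) : ℝ :=
  pT c q w s lam x / eT l w s lam x ^ 2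

/-- `∂_x (p/e²)` -/
noncomputable def k1T (l c : ℝ) (q : ℝ → ℝ) (w : ℝ → ℝ → ℝ → ℝ) (s lam x : ℝ) : ℝ :=
  p1T c q w s lam x / eT l w s lam x ^ 2 - 2 * pT c q w s lam x ^ 2 / eT l w s lam x ^ 3

/-- `∂_x² (p/e²)` -/
noncomputable def k2T (l c : ℝ) (q : ℝ → ℝ) (w : ℝ → ℝ → ℝ → ℝ) (s lam x : ℝ) : ℝ :=
  p2T c q w s lam x / eT l w s lam x ^ 2
    - 6 * pT c q w s lam x * p1T c q w s lam x / eT l w s lam x ^ 3
    + 6 * pT c q w s lam x ^ 3 / eT l w s lam x ^ 4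

/-- `∫_l^lam f √s p/e²` -/
noncomputable def I1T (l c : ℝ) (q f : ℝ → ℝ) (w : ℝ → ℝ → ℝ → ℝ) (lam x : ℝ) : ℝ :=
  ∫ s in l..lam, f s * √s * k0T l c q w s lam x

noncomputable def J1T (l c : ℝ) (q f : ℝ → ℝ) (w : ℝ → ℝ → ℝ → ℝ) (lam x : ℝ) : ℝ :=
  ∫ s in l..lam, f s * √s * k1T l c q w s lam x

noncomputable def J2T (l c : ℝ) (q f : ℝ → ℝ) (w : ℝ → ℝ → ℝ → ℝ) (lam x : ℝ) : ℝ :=
  ∫ s in l..lam, f s * √s * k2T l c q w s lam x

/-! ### continuity -/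

lemma WSol.cont_RT (H : WSol l c q w) : Continuous (fun p : ℝ × ℝ × ℝ => RT w p.1 p.2.1 p.2.2) := by
  have h1 : Continuous (fun p : ℝ × ℝ × ℝ => √(p.2.2 + max (p.2.1 - p.1) 0)) := by fun_prop
  exact h1.mul H.hw

lemma WSol.RT_pos (H : WSol l c q w) {r lam x : ℝ} (hx : 0 < x) : 0 < RT w r lam x := by
  unfold RT
  have h1 : 0 < √(x + max (lam - r) 0) :=
    Real.sqrt_pos.2 (by linarith [le_max_right (lam - r) 0])
  exact mul_pos h1 (H.pos _ _ _)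

lemma WSol.cont_pT (H : WSol l c q w) : Continuous (fun p : ℝ × ℝ × ℝ => pT c q w p.1 p.2.1 p.2.2) :=
  H.cont_ppT.comp (f := fun p : ℝ × ℝ × ℝ => ((p.1, p.2.1, p.2.1 + p.2.2) : ℝ × ℝ × ℝ))
    (by fun_prop)

lemma pT_pos {s lam x : ℝ} : 0 < pT c q w s lam x := Real.exp_pos _

lemma WSol.contOn_m3T (H : WSol l c q w) :
    ContinuousOn (fun p : ℝ × ℝ × ℝ => m3T c q w p.1 p.2.1 p.2.2) XP := by
  refine cont_int3 (φ := fun r lam x => q r * pT c q w r lam x / RT w r lam x ^ 3) ?_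
  refine ContinuousOn.div ?_ (H.cont_RT.pow 3).continuousOn (fun p hp => (pow_pos (H.RT_pos hp) 3).ne')
  exact ((H.hq.comp continuous_fst).mul H.cont_pT).continuousOn

lemma WSol.contOn_p1T (H : WSol l c q w) :
    ContinuousOn (fun p : ℝ × ℝ × ℝ => p1T c q w p.1 p.2.1 p.2.2) XP :=
  continuousOn_const.mul (H.cont_pT.continuousOn.mul H.contOn_m3T)

lemma WSol.contOn_dm3T (H : WSol l c q w) :
    ContinuousOn (fun p : ℝ × ℝ × ℝ => dm3T c q w p.1 p.2.1 p.2.2) XP := by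
  refine cont_int3 (φ := fun r lam x => q r * (p1T c q w r lam x / RT w r lam x ^ 3
    - 3 / 2 * pT c q w r lam x ^ 2 / RT w r lam x ^ 5)) ?_
  refine ContinuousOn.mul (H.hq.comp continuous_fst).continuousOn (ContinuousOn.sub
    (H.contOn_p1T.div (H.cont_RT.pow 3).continuousOn (fun p hp => (pow_pos (H.RT_pos hp) 3).ne'))
    (ContinuousOn.div (continuousOn_const.mul (H.cont_pT.pow 2).continuousOn)
      (H.cont_RT.pow 5).continuousOn (fun p hp => (pow_pos (H.RT_pos hp) 5).ne')))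

lemma WSol.contOn_p2T (H : WSol l c q w) :
    ContinuousOn (fun p : ℝ × ℝ × ℝ => p2T c q w p.1 p.2.1 p.2.2) XP :=
  continuousOn_const.mul ((H.contOn_p1T.mul H.contOn_m3T).add
    (H.cont_pT.continuousOn.mul H.contOn_dm3T))

lemma WSol.cont_eT (H : WSol l c q w) : Continuous (fun p : ℝ × ℝ × ℝ => eT l w p.1 p.2.1 p.2.2) := by
  have h : Continuous (fun p : ℝ × ℝ × ℝ => en w p.1 p.2.1 (p.2.1 + p.2.2)) :=
    H.cont_en.comp (f := fun p : ℝ × ℝ × ℝ => ((p.1, p.2.1, p.2.1 + p.2.2) : ℝ × ℝ × ℝ))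
      (by fun_prop)
  exact continuous_const.max h

lemma WSol.eT_pos (H : WSol l c q w) {s lam x : ℝ} : 0 < eT l w s lam x :=
  H.hl.trans_le (le_max_left _ _)

lemma WSol.cont_k0T (H : WSol l c q w) :
    Continuous (fun p : ℝ × ℝ × ℝ => k0T l c q w p.1 p.2.1 p.2.2) :=
  H.cont_pT.div (H.cont_eT.pow 2) (fun _ => (pow_pos H.eT_pos 2).ne')

lemma WSol.contOn_k1T (H : WSol l c q w) :
    ContinuousOn (fun p : ℝ × ℝ × ℝ => k1T l c q w p.1 p.2.1 p.2.2) XP :=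
  ContinuousOn.sub
    (H.contOn_p1T.div (H.cont_eT.pow 2).continuousOn (fun p _ => (pow_pos H.eT_pos 2).ne'))
    (ContinuousOn.div (continuousOn_const.mul (H.cont_pT.pow 2).continuousOn)
      (H.cont_eT.pow 3).continuousOn (fun p _ => (pow_pos H.eT_pos 3).ne'))

lemma WSol.contOn_k2T (H : WSol l c q w) :
    ContinuousOn (fun p : ℝ × ℝ × ℝ => k2T l c q w p.1 p.2.1 p.2.2) XP :=
  ContinuousOn.add (ContinuousOn.sub
    (H.contOn_p2T.div (H.cont_eT.pow 2).continuousOn (fun p _ => (pow_pos H.eT_pos 2).ne'))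
    (ContinuousOn.div ((continuousOn_const.mul H.cont_pT.continuousOn).mul H.contOn_p1T)
      (H.cont_eT.pow 3).continuousOn (fun p _ => (pow_pos H.eT_pos 3).ne')))
    (ContinuousOn.div (continuousOn_const.mul (H.cont_pT.pow 3).continuousOn)
      (H.cont_eT.pow 4).continuousOn (fun p _ => (pow_pos H.eT_pos 4).ne'))

lemma WSol.cont_I1T (H : WSol l c q w) {f : ℝ → ℝ} (hf : Continuous f) :
    Continuous (fun p : ℝ × ℝ => I1T l c q f w p.1 p.2) := by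
  have h0 : Continuous (fun y : (ℝ × ℝ) × ℝ => k0T l c q w y.2 y.1.1 y.1.2) :=
    H.cont_k0T.comp (f := fun y : (ℝ × ℝ) × ℝ => ((y.2, y.1.1, y.1.2) : ℝ × ℝ × ℝ)) (by fun_prop)
  have h1 : Continuous (Function.uncurry (fun (p : ℝ × ℝ) (s : ℝ) =>
      f s * √s * k0T l c q w s p.1 p.2)) := by
    have h2 : Continuous (fun y : (ℝ × ℝ) × ℝ => f y.2 * √y.2) := by fun_prop
    exact h2.mul h0
  exact intervalIntegral.continuous_parametric_intervalIntegral_of_continuous (μ := volume)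
    (a₀ := l) h1 (s := fun p : ℝ × ℝ => p.1) continuous_fst

lemma cont_qs {f : ℝ → ℝ} (hf : Continuous f) :
    ContinuousOn (fun p : ℝ × ℝ × ℝ => f p.1 * √p.1) XP := by
  have : Continuous (fun p : ℝ × ℝ × ℝ => f p.1 * √p.1) := by fun_prop
  exact this.continuousOn

lemma WSol.contOn_J1T (H : WSol l c q w) {f : ℝ → ℝ} (hf : Continuous f) :
    ContinuousOn (fun p : ℝ × ℝ => J1T l c q f w p.1 p.2) {p | 0 < p.2} :=
  cont_int3' (φ := fun s lam x => f s * √s * k1T l c q w s lam x) l ((cont_qs hf).mul H.contOn_k1T)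

lemma WSol.contOn_J2T (H : WSol l c q w) {f : ℝ → ℝ} (hf : Continuous f) :
    ContinuousOn (fun p : ℝ × ℝ => J2T l c q f w p.1 p.2) {p | 0 < p.2} :=
  cont_int3' (φ := fun s lam x => f s * √s * k2T l c q w s lam x) l ((cont_qs hf).mul H.contOn_k2T)

/-! ### agreement with the definitions in terms of `a` -/

lemma RT_eq {r lam x : ℝ} (h : r ≤ lam) : RT w r lam x = rt w r lam (lam + x) := by
  unfold RT rt
  rw [max_eq_left (by linarith)]
  have e1 : x + (lam - r) = lam + x - r := by ring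
  have e2 : lam + x - lam = x := by ring
  rw [e1, e2]

lemma pT_eq {s lam x : ℝ} (h : s ≤ lam) (hx : 0 ≤ x) : pT c q w s lam x = pp c q w s lam (lam + x) := by
  unfold pT
  rw [pp_eq_ppT h (by linarith)]

lemma m3T_eq {s lam x : ℝ} (h : s ≤ lam) (hx : 0 ≤ x) :
    m3T c q w s lam x = m3 c q w s lam (lam + x) := by
  unfold m3T m3
  refine integral_congr (fun r hr => ?_)
  rw [uIcc_of_le h] at hr
  beta_reduce
  rw [RT_eq hr.2, pT_eq hr.2 hx]

lemma p1T_eq {s lam x : ℝ} (h : s ≤ lam) (hx : 0 ≤ x) :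
    p1T c q w s lam x = p1 c q w s lam (lam + x) := by
  unfold p1T p1
  rw [pT_eq h hx, m3T_eq h hx]

lemma dm3T_eq {s lam x : ℝ} (h : s ≤ lam) (hx : 0 ≤ x) :
    dm3T c q w s lam x = dm3 c q w s lam (lam + x) := by
  unfold dm3T dm3
  refine integral_congr (fun r hr => ?_)
  rw [uIcc_of_le h] at hr
  beta_reduce
  rw [RT_eq hr.2, pT_eq hr.2 hx, p1T_eq hr.2 hx]

lemma p2T_eq {s lam x : ℝ} (h : s ≤ lam) (hx : 0 ≤ x) :
    p2T c q w s lam x = p2 c q w s lam (lam + x) := by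
  unfold p2T p2
  rw [pT_eq h hx, m3T_eq h hx, p1T_eq h hx, dm3T_eq h hx]

lemma WSol.eT_eq (H : WSol l c q w) {s lam x : ℝ} (hs : l ≤ s) (h : s ≤ lam) (hx : 0 ≤ x) :
    eT l w s lam x = en w s lam (lam + x) := by
  unfold eT
  exact max_eq_right (hs.trans (H.en_ge (by linarith)))

lemma WSol.I1T_eq (H : WSol l c q w) {lam x : ℝ} (h : l ≤ lam) (hx : 0 ≤ x) :
    I1T l c q q w lam x = I1 c q w l lam (lam + x) := by
  unfold I1T I1 k0T
  refine integral_congr (fun s hs => ?_)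
  rw [uIcc_of_le h] at hs
  beta_reduce
  rw [H.eT_eq hs.1 hs.2 hx, pT_eq hs.2 hx]

/-! ### derivatives in `x` -/

lemma hasDerivAt_shift {f : ℝ → ℝ} {f' lam x : ℝ} (h : HasDerivAt f f' (lam + x)) :
    HasDerivAt (fun x => f (lam + x)) f' x := by
  have := h.comp_const_add lam x
  exact this

lemma WSol.hasDerivAt_eT (H : WSol l c q w) {s lam x : ℝ} (hs : l ≤ s) (h : s ≤ lam)
    (h1 : lam ≤ 1) (hx : 0 < x) (hx1 : x < 1) :
    HasDerivAt (fun x => eT l w s lam x) (pT c q w s lam x) x := by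
  have hd := hasDerivAt_shift (H.hasDerivAt_en hs h h1 (a := lam + x) (by linarith) (by linarith))
  rw [← pT_eq h hx.le] at hd
  refine hd.congr_of_eventuallyEq ?_
  filter_upwards [Ioi_mem_nhds hx] with y hy
  exact H.eT_eq hs h (le_of_lt hy)

lemma WSol.hasDerivAt_pT (H : WSol l c q w) {s lam x : ℝ} (hs : l ≤ s) (h : s ≤ lam)
    (h1 : lam ≤ 1) (hx : 0 < x) (hx1 : x < 1) :
    HasDerivAt (fun x => pT c q w s lam x) (p1T c q w s lam x) x := by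
  have hd := hasDerivAt_shift (H.hasDerivAt_pp hs h h1 (a := lam + x) (by linarith) (by linarith))
  rw [← p1T_eq h hx.le] at hd
  refine hd.congr_of_eventuallyEq ?_
  filter_upwards [Ioi_mem_nhds hx] with y hy
  exact pT_eq h (le_of_lt hy)

lemma WSol.hasDerivAt_p1T (H : WSol l c q w) {s lam x : ℝ} (hs : l ≤ s) (h : s ≤ lam)
    (h1 : lam ≤ 1) (hx : 0 < x) (hx1 : x < 1) :
    HasDerivAt (fun x => p1T c q w s lam x) (p2T c q w s lam x) x := by
  have hd := hasDerivAt_shift (H.hasDerivAt_p1 hs h h1 (a := lam + x) (by linarith) (by linarith))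
  rw [← p2T_eq h hx.le] at hd
  refine hd.congr_of_eventuallyEq ?_
  filter_upwards [Ioi_mem_nhds hx] with y hy
  exact p1T_eq h (le_of_lt hy)

lemma slice3 {φ : ℝ → ℝ → ℝ → ℝ}
    (h : ContinuousOn (fun p : ℝ × ℝ × ℝ => φ p.1 p.2.1 p.2.2) XP) {S U : Set ℝ} (lam : ℝ)
    (hU : ∀ x ∈ U, 0 < x) : ContinuousOn (fun p : ℝ × ℝ => φ p.1 lam p.2) (S ×ˢ U) :=
  h.comp (f := fun p : ℝ × ℝ => ((p.1, lam, p.2) : ℝ × ℝ × ℝ)) (by fun_prop)
    (fun p hp => hU p.2 hp.2)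

lemma slice3' {φ : ℝ → ℝ → ℝ → ℝ}
    (h : ContinuousOn (fun p : ℝ × ℝ × ℝ => φ p.1 p.2.1 p.2.2) XP) {S : Set ℝ} (lam : ℝ)
    {x : ℝ} (hx : 0 < x) : ContinuousOn (fun s : ℝ => φ s lam x) S :=
  h.comp (f := fun s : ℝ => ((s, lam, x) : ℝ × ℝ × ℝ)) (by fun_prop) (fun _ _ => hx)

/-- `∂_x k0 = k1` -/
lemma WSol.hasDerivAt_k0T (H : WSol l c q w) {s lam x : ℝ} (hs : l ≤ s) (h : s ≤ lam)
    (h1 : lam ≤ 1) (hx : 0 < x) (hx1 : x < 1) :
    HasDerivAt (fun x => k0T l c q w s lam x) (k1T l c q w s lam x) x := by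
  have he := H.eT_pos (s := s) (lam := lam) (x := x)
  have d1 := H.hasDerivAt_pT hs h h1 hx hx1
  have d2 := H.hasDerivAt_eT hs h h1 hx hx1
  have d3 := d1.div (d2.pow 2) (pow_pos he 2).ne'
  refine d3.congr_deriv ?_
  unfold k1T
  simp only [Pi.pow_apply]
  push_cast
  field_simp

/-- `∂_x k1 = k2` -/
lemma WSol.hasDerivAt_k1T (H : WSol l c q w) {s lam x : ℝ} (hs : l ≤ s) (h : s ≤ lam)
    (h1 : lam ≤ 1) (hx : 0 < x) (hx1 : x < 1) :
    HasDerivAt (fun x => k1T l c q w s lam x) (k2T l c q w s lam x) x := by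
  have he := H.eT_pos (s := s) (lam := lam) (x := x)
  have d1 := H.hasDerivAt_pT hs h h1 hx hx1
  have d0 := H.hasDerivAt_p1T hs h h1 hx hx1
  have d2 := H.hasDerivAt_eT hs h h1 hx hx1
  have d3 := (d0.div (d2.pow 2) (pow_pos he 2).ne').sub
    (((d1.pow 2).const_mul 2).div (d2.pow 3) (pow_pos he 3).ne')
  refine d3.congr_deriv ?_
  unfold k2T
  simp only [Pi.pow_apply]
  push_cast
  field_simp
  ring

/-- `∂_x I1T = J1T` -/
lemma WSol.hasDerivAt_I1T (H : WSol l c q w) {f : ℝ → ℝ} (hf : Continuous f) {lam x : ℝ}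
    (h : l ≤ lam) (h1 : lam ≤ 1) (hx : 0 < x) (hx1 : x < 1) :
    HasDerivAt (fun x => I1T l c q f w lam x) (J1T l c q f w lam x) x :=
  leibniz (φ := fun s x => f s * √s * k0T l c q w s lam x)
    (φ' := fun s x => f s * √s * k1T l c q w s lam x) h (U := Ioo 0 1) isOpen_Ioo
    (fun y hy => slice3' (φ := fun s lam x => f s * √s * k0T l c q w s lam x)
      ((cont_qs hf).mul H.cont_k0T.continuousOn) lam hy.1)
    (slice3 (φ := fun s lam x => f s * √s * k1T l c q w s lam x)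
      ((cont_qs hf).mul H.contOn_k1T) lam (fun x hx => hx.1))
    (fun s hs y hy => (H.hasDerivAt_k0T hs.1 hs.2 h1 hy.1 hy.2).const_mul (f s * √s)) x ⟨hx, hx1⟩

/-- `∂_x J1T = J2T` -/
lemma WSol.hasDerivAt_J1T (H : WSol l c q w) {f : ℝ → ℝ} (hf : Continuous f) {lam x : ℝ}
    (h : l ≤ lam) (h1 : lam ≤ 1) (hx : 0 < x) (hx1 : x < 1) :
    HasDerivAt (fun x => J1T l c q f w lam x) (J2T l c q f w lam x) x :=
  leibniz (φ := fun s x => f s * √s * k1T l c q w s lam x)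
    (φ' := fun s x => f s * √s * k2T l c q w s lam x) h (U := Ioo 0 1) isOpen_Ioo
    (fun y hy => slice3' (φ := fun s lam x => f s * √s * k1T l c q w s lam x)
      ((cont_qs hf).mul H.contOn_k1T) lam hy.1)
    (slice3 (φ := fun s lam x => f s * √s * k2T l c q w s lam x)
      ((cont_qs hf).mul H.contOn_k2T) lam (fun x hx => hx.1))
    (fun s hs y hy => (H.hasDerivAt_k1T hs.1 hs.2 h1 hy.1 hy.2).const_mul (f s * √s)) x ⟨hx, hx1⟩

end Pool.Agent.Unicorn.B2
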