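import Mathlib
import Pool.Agent.Unicorn.B2N

set_option autoImplicit false

open Set MeasureTheory intervalIntegral Filter Topology

namespace Pool.Agent.Unicorn.B2

lemma abs_int_le {f g : ℝ → ℝ} {s b : ℝ} (h : s ≤ b) (hfg : ∀ r ∈ Icc s b, |f r| ≤ g r)
    (hg : ContinuousOn g (Icc s b)) : |∫ r in s..b, f r| ≤ ∫ r in s..b, g r := by
  rw [← Real.norm_eq_abs]
  refine intervalIntegral.norm_integral_le_of_norm_le h ?_ ?_
  · refine Eventually.of_forall (fun r hr => ?_)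
    rw [Real.norm_eq_abs]
    exact hfg r ⟨hr.1.le, hr.2⟩
  · rw [← uIcc_of_le h] at hg
    exact hg.intervalIntegrable

lemma int3_le {s lam x : ℝ} (h : s ≤ lam) (hx : 0 < x) :
    ∫ r in s..lam, (√(x + lam - r) ^ 3)⁻¹ ≤ 2 / √x := by
  have hpos : ∀ r ∈ uIcc s lam, 0 < x + lam - r := by
    intro r hr
    rw [uIcc_of_le h] at hr
    linarith [hr.2]
  have hd : ∀ r ∈ uIcc s lam, HasDerivAt (fun r => 2 * (√(x + lam - r))⁻¹)
      ((√(x + lam - r) ^ 3)⁻¹) r := by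
    intro r hr
    have hp := hpos r hr
    have hs : 0 < √(x + lam - r) := Real.sqrt_pos.2 hp
    have h1 := ((hasDerivAt_id r).const_sub (x + lam)).sqrt hp.ne'
    have h2 := (h1.inv hs.ne').const_mul 2
    refine h2.congr_deriv ?_
    simp only [id]
    field_simp
  have hcont : ContinuousOn (fun r => (√(x + lam - r) ^ 3)⁻¹) (uIcc s lam) := by
    refine ContinuousOn.inv₀ (by fun_prop) (fun r hr => ?_)
    exact (pow_pos (Real.sqrt_pos.2 (hpos r hr)) 3).ne'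
  rw [intervalIntegral.integral_eq_sub_of_hasDerivAt hd hcont.intervalIntegrable]
  have e : x + lam - lam = x := by ring
  rw [e]
  have : 0 ≤ 2 * (√(x + lam - s))⁻¹ := by positivity
  rw [div_eq_mul_inv]
  linarith

lemma int5_le {s lam x : ℝ} (h : s ≤ lam) (hx : 0 < x) :
    ∫ r in s..lam, (√(x + lam - r) ^ 5)⁻¹ ≤ 2 / 3 / √x ^ 3 := by
  have hpos : ∀ r ∈ uIcc s lam, 0 < x + lam - r := by
    intro r hr
    rw [uIcc_of_le h] at hr
    linarith [hr.2]
  have hd : ∀ r ∈ uIcc s lam, HasDerivAt (fun r => 2 / 3 * (√(x + lam - r) ^ 3)⁻¹)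
      ((√(x + lam - r) ^ 5)⁻¹) r := by
    intro r hr
    have hp := hpos r hr
    have hs : 0 < √(x + lam - r) := Real.sqrt_pos.2 hp
    have h1 := ((hasDerivAt_id r).const_sub (x + lam)).sqrt hp.ne'
    have h2 := ((h1.pow 3).inv (pow_pos hs 3).ne').const_mul (2 / 3)
    refine h2.congr_deriv ?_
    simp only [id, Pi.pow_apply]
    push_cast
    field_simp
  have hcont : ContinuousOn (fun r => (√(x + lam - r) ^ 5)⁻¹) (uIcc s lam) := by
    refine ContinuousOn.inv₀ (by fun_prop) (fun r hr => ?_)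
    exact (pow_pos (Real.sqrt_pos.2 (hpos r hr)) 5).ne'
  rw [intervalIntegral.integral_eq_sub_of_hasDerivAt hd hcont.intervalIntegrable]
  have e : x + lam - lam = x := by ring
  rw [e]
  have : 0 ≤ 2 / 3 * (√(x + lam - s) ^ 3)⁻¹ := by positivity
  rw [div_eq_mul_inv (2/3)]
  linarith

variable {l c : ℝ} {q : ℝ → ℝ} {w : ℝ → ℝ → ℝ → ℝ}

/-- uniform bounds -/
theorem WSol.bounds (H : WSol l c q w) : ∃ C : ℝ, 0 ≤ C ∧ ∀ lam ∈ Icc l 1, ∀ x ∈ Ioo (0:ℝ) 1,
    ∀ s ∈ Icc l lam, |k0T l c q w s lam x| ≤ C ∧ |k1T l c q w s lam x| ≤ C / √x ∧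
      |k2T l c q w s lam x| ≤ C / √x ^ 3 := by
  have hl := H.hl
  have hl1 := H.hl1
  -- constants
  let K : Set (ℝ × ℝ × ℝ) := Icc l 1 ×ˢ (Icc l 1 ×ˢ Icc 0 1)
  have hK : IsCompact K := isCompact_Icc.prod (isCompact_Icc.prod isCompact_Icc)
  have hKne : K.Nonempty := ⟨(l, l, 0), ⟨⟨le_rfl, hl1.le⟩, ⟨⟨le_rfl, hl1.le⟩, ⟨le_rfl, zero_le_one⟩⟩⟩⟩
  obtain ⟨p₀, hp₀, hmin⟩ := hK.exists_isMinOn hKne H.hw.continuousOn
  set w0 := w p₀.1 p₀.2.1 p₀.2.2 with hw0
  have hw0pos : 0 < w0 := H.pos _ _ _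
  have hwlow : ∀ r ∈ Icc l 1, ∀ lam ∈ Icc l 1, ∀ x ∈ Icc (0:ℝ) 1, w0 ≤ w r lam x := by
    intro r hr lam hlam x hx
    exact hmin (show ((r, lam, x) : ℝ × ℝ × ℝ) ∈ K from ⟨hr, hlam, hx⟩)
  obtain ⟨P, hP⟩ := hK.exists_bound_of_continuousOn H.cont_pT.continuousOn
  have hPb : ∀ r ∈ Icc l 1, ∀ lam ∈ Icc l 1, ∀ x ∈ Icc (0:ℝ) 1, |pT c q w r lam x| ≤ P := by
    intro r hr lam hlam x hx
    exact hP (r, lam, x) ⟨hr, hlam, hx⟩
  have hP0 : 0 ≤ P := (abs_nonneg _).trans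
    (hPb l ⟨le_rfl, hl1.le⟩ l ⟨le_rfl, hl1.le⟩ 0 ⟨le_rfl, zero_le_one⟩)
  obtain ⟨Q, hQ'⟩ := (isCompact_Icc (a := l) (b := 1)).exists_bound_of_continuousOn
    H.hq.continuousOn
  have hQ : ∀ r ∈ Icc l 1, |q r| ≤ Q := hQ'
  have hQ0 : 0 ≤ Q := (abs_nonneg _).trans (hQ l ⟨le_rfl, hl1.le⟩)
  set A3 : ℝ := Q * P / w0 ^ 3 * 2 with hA3
  set A1 : ℝ := |c| / 2 * (P * A3) with hA1
  set A5 : ℝ := Q * (A1 / w0 ^ 3) * 2 + Q * (3 / 2 * P ^ 2 / w0 ^ 5) * (2 / 3) with hA5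
  set A2 : ℝ := |c| / 2 * (A1 * A3 + P * A5) with hA2
  have hA3p : 0 ≤ A3 := by positivity
  have hA1p : 0 ≤ A1 := by positivity
  have hA5p : 0 ≤ A5 := by positivity
  have hA2p : 0 ≤ A2 := by positivity
  -- m3
  have hm3 : ∀ lam ∈ Icc l 1, ∀ x ∈ Ioo (0:ℝ) 1, ∀ s ∈ Icc l lam, |m3T c q w s lam x| ≤ A3 / √x := by
    intro lam hlam x hx s hs
    have hx0 : 0 < √x := Real.sqrt_pos.2 hx.1
    have hpos : ∀ r ∈ Icc s lam, 0 < √(x + lam - r) := fun r hr =>
      Real.sqrt_pos.2 (by linarith [hr.2, hx.1])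
    have h1 : |m3T c q w s lam x| ≤ ∫ r in s..lam, Q * P / w0 ^ 3 * (√(x + lam - r) ^ 3)⁻¹ := by
      refine abs_int_le hs.2 (fun r hr => ?_) ?_
      · have hr1 : r ∈ Icc l 1 := ⟨hs.1.trans hr.1, hr.2.trans hlam.2⟩
        have hρ := hpos r hr
        have hR : RT w r lam x = √(x + lam - r) * w r lam x := by
          unfold RT
          rw [max_eq_left (by linarith [hr.2])]
          congr 2
          ring
        have hwl := hwlow r hr1 lam hlam x ⟨hx.1.le, hx.2.le⟩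
        rw [abs_div, abs_mul, hR, abs_of_pos (pow_pos (mul_pos hρ (H.pos _ _ _)) 3)]
        calc |q r| * |pT c q w r lam x| / (√(x + lam - r) * w r lam x) ^ 3
            ≤ Q * P / (√(x + lam - r) * w0) ^ 3 := by
              refine div_le_div₀ (by positivity)
                (mul_le_mul (hQ r hr1) (hPb r hr1 lam hlam x ⟨hx.1.le, hx.2.le⟩) (abs_nonneg _) hQ0)
                (by positivity) ?_
              exact pow_le_pow_left₀ (by positivity) (mul_le_mul_of_nonneg_left hwl hρ.le) 3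
          _ = _ := by field_simp
      · refine ContinuousOn.mul continuousOn_const (ContinuousOn.inv₀ (by fun_prop) (fun r hr => ?_))
        exact (pow_pos (hpos r hr) 3).ne'
    refine h1.trans ?_
    rw [intervalIntegral.integral_const_mul]
    calc Q * P / w0 ^ 3 * ∫ r in s..lam, (√(x + lam - r) ^ 3)⁻¹
        ≤ Q * P / w0 ^ 3 * (2 / √x) := mul_le_mul_of_nonneg_left (int3_le hs.2 hx.1) (by positivity)
      _ = A3 / √x := by rw [hA3]; ring
  -- p1
  have hp1 : ∀ lam ∈ Icc l 1, ∀ x ∈ Ioo (0:ℝ) 1, ∀ s ∈ Icc l lam, |p1T c q w s lam x| ≤ A1 / √x := by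
    intro lam hlam x hx s hs
    have hx0 : 0 < √x := Real.sqrt_pos.2 hx.1
    have g1 := hPb s ⟨hs.1, hs.2.trans hlam.2⟩ lam hlam x ⟨hx.1.le, hx.2.le⟩
    have g2 := hm3 lam hlam x hx s hs
    unfold p1T
    rw [abs_mul, abs_mul, abs_div, abs_two]
    calc |c| / 2 * (|pT c q w s lam x| * |m3T c q w s lam x|) ≤ |c| / 2 * (P * (A3 / √x)) := by
          gcongr
      _ = A1 / √x := by rw [hA1]; ring
  -- dm3
  have hdm3 : ∀ lam ∈ Icc l 1, ∀ x ∈ Ioo (0:ℝ) 1, ∀ s ∈ Icc l lam,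
      |dm3T c q w s lam x| ≤ A5 / √x ^ 3 := by
    intro lam hlam x hx s hs
    have hx0 : 0 < √x := Real.sqrt_pos.2 hx.1
    have hx1 : √x ≤ 1 := Real.sqrt_le_one.2 hx.2.le
    have hpos : ∀ r ∈ Icc s lam, 0 < √(x + lam - r) := fun r hr =>
      Real.sqrt_pos.2 (by linarith [hr.2, hx.1])
    have hc3 : ContinuousOn (fun r => (√(x + lam - r) ^ 3)⁻¹) (Icc s lam) :=
      ContinuousOn.inv₀ (by fun_prop) (fun r hr => (pow_pos (hpos r hr) 3).ne')
    have hc5 : ContinuousOn (fun r => (√(x + lam - r) ^ 5)⁻¹) (Icc s lam) :=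
      ContinuousOn.inv₀ (by fun_prop) (fun r hr => (pow_pos (hpos r hr) 5).ne')
    have h1 : |dm3T c q w s lam x| ≤ ∫ r in s..lam,
        (Q * (A1 / √x / w0 ^ 3) * (√(x + lam - r) ^ 3)⁻¹
          + Q * (3 / 2 * P ^ 2 / w0 ^ 5) * (√(x + lam - r) ^ 5)⁻¹) := by
      refine abs_int_le hs.2 (fun r hr => ?_)
        ((continuousOn_const.mul hc3).add (continuousOn_const.mul hc5))
      have hr1 : r ∈ Icc l 1 := ⟨hs.1.trans hr.1, hr.2.trans hlam.2⟩
      have hρ := hpos r hr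
      have hR : RT w r lam x = √(x + lam - r) * w r lam x := by
        unfold RT
        rw [max_eq_left (by linarith [hr.2])]
        congr 2
        ring
      have hwl := hwlow r hr1 lam hlam x ⟨hx.1.le, hx.2.le⟩
      have hRlow : √(x + lam - r) * w0 ≤ RT w r lam x := by
        rw [hR]; exact mul_le_mul_of_nonneg_left hwl hρ.le
      have hRpos : 0 < RT w r lam x := H.RT_pos hx.1
      have g0 := hPb r hr1 lam hlam x ⟨hx.1.le, hx.2.le⟩
      have g1 : |p1T c q w r lam x / RT w r lam x ^ 3| ≤ A1 / √x / (√(x + lam - r) * w0) ^ 3 := by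
        rw [abs_div, abs_of_pos (pow_pos hRpos 3)]
        refine div_le_div₀ (by positivity) (hp1 lam hlam x hx r ⟨hr1.1, hr.2⟩) (by positivity) ?_
        exact pow_le_pow_left₀ (by positivity) hRlow 3
      have g2 : |3 / 2 * pT c q w r lam x ^ 2 / RT w r lam x ^ 5|
          ≤ 3 / 2 * P ^ 2 / (√(x + lam - r) * w0) ^ 5 := by
        rw [abs_div, abs_of_pos (pow_pos hRpos 5), abs_mul, abs_pow]
        refine div_le_div₀ (by positivity) ?_ (by positivity)
          (pow_le_pow_left₀ (by positivity) hRlow 5)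
        rw [abs_of_pos (show (0:ℝ) < 3/2 by norm_num)]
        gcongr
      rw [abs_mul]
      calc |q r| * |p1T c q w r lam x / RT w r lam x ^ 3
              - 3 / 2 * pT c q w r lam x ^ 2 / RT w r lam x ^ 5|
          ≤ Q * (A1 / √x / (√(x + lam - r) * w0) ^ 3 + 3 / 2 * P ^ 2 / (√(x + lam - r) * w0) ^ 5) := by
            refine mul_le_mul (hQ r hr1) ?_ (abs_nonneg _) hQ0
            exact (abs_sub _ _).trans (add_le_add g1 g2)
        _ = _ := by field_simp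
    refine h1.trans ?_
    rw [← uIcc_of_le hs.2] at hc3 hc5
    rw [intervalIntegral.integral_add (hc3.intervalIntegrable.const_mul _)
      (hc5.intervalIntegrable.const_mul _), intervalIntegral.integral_const_mul,
      intervalIntegral.integral_const_mul]
    calc Q * (A1 / √x / w0 ^ 3) * (∫ r in s..lam, (√(x + lam - r) ^ 3)⁻¹)
          + Q * (3 / 2 * P ^ 2 / w0 ^ 5) * ∫ r in s..lam, (√(x + lam - r) ^ 5)⁻¹
        ≤ Q * (A1 / √x / w0 ^ 3) * (2 / √x) + Q * (3 / 2 * P ^ 2 / w0 ^ 5) * (2 / 3 / √x ^ 3) := by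
          refine add_le_add (mul_le_mul_of_nonneg_left (int3_le hs.2 hx.1) (by positivity))
            (mul_le_mul_of_nonneg_left (int5_le hs.2 hx.1) (by positivity))
      _ = (Q * (A1 / w0 ^ 3) * 2 * √x + Q * (3 / 2 * P ^ 2 / w0 ^ 5) * (2 / 3)) / √x ^ 3 := by
          field_simp
      _ ≤ A5 / √x ^ 3 := by
          refine div_le_div_of_nonneg_right ?_ (by positivity)
          rw [hA5]
          have : Q * (A1 / w0 ^ 3) * 2 * √x ≤ Q * (A1 / w0 ^ 3) * 2 * 1 :=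
            mul_le_mul_of_nonneg_left hx1 (by positivity)
          linarith
  -- p2
  have hp2 : ∀ lam ∈ Icc l 1, ∀ x ∈ Ioo (0:ℝ) 1, ∀ s ∈ Icc l lam,
      |p2T c q w s lam x| ≤ A2 / √x ^ 3 := by
    intro lam hlam x hx s hs
    have hx0 : 0 < √x := Real.sqrt_pos.2 hx.1
    have hx1 : √x ≤ 1 := Real.sqrt_le_one.2 hx.2.le
    have g0 := hPb s ⟨hs.1, hs.2.trans hlam.2⟩ lam hlam x ⟨hx.1.le, hx.2.le⟩
    have g1 := hp1 lam hlam x hx s hs
    have g2 := hm3 lam hlam x hx s hs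
    have g3 := hdm3 lam hlam x hx s hs
    unfold p2T
    rw [abs_mul, abs_div, abs_two]
    calc |c| / 2 * |p1T c q w s lam x * m3T c q w s lam x + pT c q w s lam x * dm3T c q w s lam x|
        ≤ |c| / 2 * (A1 / √x * (A3 / √x) + P * (A5 / √x ^ 3)) := by
          refine mul_le_mul_of_nonneg_left ((abs_add_le _ _).trans ?_) (by positivity)
          rw [abs_mul, abs_mul]
          gcongr
      _ = |c| / 2 * (A1 * A3 * √x + P * A5) / √x ^ 3 := by field_simp
      _ ≤ A2 / √x ^ 3 := by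
          refine div_le_div_of_nonneg_right ?_ (by positivity)
          rw [hA2]
          refine mul_le_mul_of_nonneg_left ?_ (by positivity)
          have : A1 * A3 * √x ≤ A1 * A3 * 1 := mul_le_mul_of_nonneg_left hx1 (by positivity)
          linarith
  -- assembling
  have heT : ∀ s lam x, l ≤ eT l w s lam x := fun s lam x => le_max_left _ _
  set D0 : ℝ := P / l ^ 2 with hD0
  set D1 : ℝ := A1 / l ^ 2 + 2 * P ^ 2 / l ^ 3 with hD1
  set D2 : ℝ := A2 / l ^ 2 + 6 * P * A1 / l ^ 3 + 6 * P ^ 3 / l ^ 4 with hD2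
  have hD0p : 0 ≤ D0 := by positivity
  have hD1p : 0 ≤ D1 := by positivity
  have hD2p : 0 ≤ D2 := by positivity
  refine ⟨D0 + D1 + D2, by positivity, fun lam hlam x hx s hs => ?_⟩
  have hx0 : 0 < √x := Real.sqrt_pos.2 hx.1
  have hx1 : √x ≤ 1 := Real.sqrt_le_one.2 hx.2.le
  have hxI : x ∈ Icc (0:ℝ) 1 := ⟨hx.1.le, hx.2.le⟩
  have ePow : ∀ s (n : ℕ), 0 < eT l w s lam x ^ n := fun s n => pow_pos H.eT_pos n
  have ePow2 : ∀ s (n : ℕ), l ^ n ≤ eT l w s lam x ^ n := fun s n =>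
    pow_le_pow_left₀ hl.le (heT s lam x) n
  have hs1 : s ∈ Icc l 1 := ⟨hs.1, hs.2.trans hlam.2⟩
  have g0 := hPb s hs1 lam hlam x hxI
  refine ⟨?_, ?_, ?_⟩
  · unfold k0T
    rw [abs_div, abs_of_pos (ePow s 2)]
    have : |pT c q w s lam x| / eT l w s lam x ^ 2 ≤ D0 := by
      rw [hD0]
      exact div_le_div₀ hP0 g0 (by positivity) (ePow2 s 2)
    linarith
  · have g1 : |p1T c q w s lam x / eT l w s lam x ^ 2| ≤ A1 / √x / l ^ 2 := by
      rw [abs_div, abs_of_pos (ePow s 2)]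
      exact div_le_div₀ (by positivity) (hp1 lam hlam x hx s hs) (by positivity) (ePow2 s 2)
    have g2 : |2 * pT c q w s lam x ^ 2 / eT l w s lam x ^ 3| ≤ 2 * P ^ 2 / l ^ 3 := by
      rw [abs_div, abs_of_pos (ePow s 3), abs_mul, abs_two, abs_pow]
      refine div_le_div₀ (by positivity) ?_ (by positivity) (ePow2 s 3)
      gcongr
    have h : |k1T l c q w s lam x| ≤ D1 / √x := by
      unfold k1T
      refine (abs_sub _ _).trans ((add_le_add g1 g2).trans ?_)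
      rw [hD1, add_div]
      refine add_le_add (le_of_eq (by ring)) ?_
      rw [le_div_iff₀ hx0]
      exact mul_le_of_le_one_right (by positivity) hx1
    exact h.trans (div_le_div_of_nonneg_right (by linarith) hx0.le)
  · have g1 : |p2T c q w s lam x / eT l w s lam x ^ 2| ≤ A2 / √x ^ 3 / l ^ 2 := by
      rw [abs_div, abs_of_pos (ePow s 2)]
      exact div_le_div₀ (by positivity) (hp2 lam hlam x hx s hs) (by positivity) (ePow2 s 2)
    have g2 : |6 * pT c q w s lam x * p1T c q w s lam x / eT l w s lam x ^ 3|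
        ≤ 6 * P * (A1 / √x) / l ^ 3 := by
      rw [abs_div, abs_of_pos (ePow s 3), abs_mul, abs_mul, abs_of_pos (show (0:ℝ) < 6 by norm_num)]
      refine div_le_div₀ (by positivity) ?_ (by positivity) (ePow2 s 3)
      have := hp1 lam hlam x hx s hs
      gcongr
    have g3 : |6 * pT c q w s lam x ^ 3 / eT l w s lam x ^ 4| ≤ 6 * P ^ 3 / l ^ 4 := by
      rw [abs_div, abs_of_pos (ePow s 4), abs_mul, abs_pow, abs_of_pos (show (0:ℝ) < 6 by norm_num)]
      refine div_le_div₀ (by positivity) ?_ (by positivity) (ePow2 s 4)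
      gcongr
    have hx3 : 0 < √x ^ 3 := by positivity
    have hx3' : √x ^ 3 ≤ 1 := pow_le_one₀ hx0.le hx1
    have h : |k2T l c q w s lam x| ≤ D2 / √x ^ 3 := by
      unfold k2T
      refine (abs_add_le _ _).trans ((add_le_add ((abs_sub _ _).trans (add_le_add g1 g2)) g3).trans ?_)
      rw [hD2, add_div, add_div]
      refine add_le_add (add_le_add (le_of_eq (by ring)) ?_) ?_
      · rw [le_div_iff₀ hx3]
        have : 6 * P * (A1 / √x) / l ^ 3 * √x ^ 3 = 6 * P * A1 / l ^ 3 * √x ^ 2 := by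
          field_simp
        rw [this]
        exact mul_le_of_le_one_right (by positivity) (pow_le_one₀ hx0.le hx1)
      · rw [le_div_iff₀ hx3]
        exact mul_le_of_le_one_right (by positivity) hx3'
    exact h.trans (div_le_div_of_nonneg_right (by linarith) hx3.le)

/-- bounds for the integrals with weight `f` -/
theorem WSol.boundsI (H : WSol l c q w) {f : ℝ → ℝ} (hf : Continuous f) :
    ∃ C : ℝ, 0 ≤ C ∧ ∀ lam ∈ Icc l 1, ∀ x ∈ Ioo (0:ℝ) 1,
    |I1T l c q f w lam x| ≤ C ∧ |J1T l c q f w lam x| ≤ C / √x ∧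
      |J2T l c q f w lam x| ≤ C / √x ^ 3 := by
  obtain ⟨C, hC0, hC⟩ := H.bounds
  have hl := H.hl
  have hl1 := H.hl1
  obtain ⟨Q, hQ'⟩ := (isCompact_Icc (a := l) (b := 1)).exists_bound_of_continuousOn
    hf.continuousOn
  have hQ : ∀ r ∈ Icc l 1, |f r| ≤ Q := hQ'
  have hQ0 : 0 ≤ Q := (abs_nonneg _).trans (hQ l ⟨le_rfl, hl1.le⟩)
  have hqs : ∀ lam ∈ Icc l 1, ∀ s ∈ Icc l lam, |f s * √s| ≤ Q := by
    intro lam hlam s hs
    have hs1 : s ∈ Icc l 1 := ⟨hs.1, hs.2.trans hlam.2⟩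
    rw [abs_mul, abs_of_nonneg (Real.sqrt_nonneg _)]
    have : √s ≤ 1 := Real.sqrt_le_one.2 hs1.2
    calc |f s| * √s ≤ Q * 1 := mul_le_mul (hQ s hs1) this (Real.sqrt_nonneg _) hQ0
      _ = Q := mul_one Q
  have hconst : ∀ lam ∈ Icc l 1, ∀ B : ℝ, 0 ≤ B → ∀ F : ℝ → ℝ, (∀ s ∈ Icc l lam, |F s| ≤ B) →
      |∫ s in l..lam, f s * √s * F s| ≤ Q * B := by
    intro lam hlam B hB F hF
    have h1 : |∫ s in l..lam, f s * √s * F s| ≤ ∫ _s in l..lam, Q * B := by
      refine abs_int_le hlam.1 (fun s hs => ?_) continuousOn_const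
      rw [abs_mul]
      exact mul_le_mul (hqs lam hlam s hs) (hF s hs) (abs_nonneg _) hQ0
    refine h1.trans ?_
    rw [intervalIntegral.integral_const, smul_eq_mul]
    have : (lam - l) * (Q * B) ≤ 1 * (Q * B) :=
      mul_le_mul_of_nonneg_right (by linarith [hlam.2]) (by positivity)
    linarith
  refine ⟨Q * C, by positivity, fun lam hlam x hx => ⟨?_, ?_, ?_⟩⟩
  · exact hconst lam hlam C hC0 _ (fun s hs => (hC lam hlam x hx s hs).1)
  · have hx0 : 0 < √x := Real.sqrt_pos.2 hx.1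
    rw [mul_div_assoc]
    exact hconst lam hlam (C / √x) (by positivity) _ (fun s hs => (hC lam hlam x hx s hs).2.1)
  · have hx0 : 0 < √x := Real.sqrt_pos.2 hx.1
    rw [mul_div_assoc]
    exact hconst lam hlam (C / √x ^ 3) (by positivity) _ (fun s hs => (hC lam hlam x hx s hs).2.2)

end Pool.Agent.Unicorn.B2
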