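import Pool.Agent.Unicorn.B3c

/-!
# Unicorn B3: the identity (6) of the blueprint, `a² 𝒯 = 𝒜 Ξ`, in abstract form
-/

set_option autoImplicit false

open Set MeasureTheory intervalIntegral Real Filter Topology

namespace Pool.Agent.Unicorn

lemma intervalIntegrable_t_div_sqrt :
    IntervalIntegrable (fun t : ℝ => t / √(1 - t)) volume 0 1 := by
  have h2 : IntervalIntegrable (fun t : ℝ => 1 / √(1 - t)) volume 0 1 := by
    have h0 := integrableOn_inv_sqrt 1
    rw [← intervalIntegrable_iff_integrableOn_Ioo_of_le zero_le_one] at h0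
    have h2 := (h0.comp_sub_left 1).symm
    simpa using h2
  have := h2.continuousOn_mul (g := fun t : ℝ => t) (by fun_prop)
  refine this.congr ?_
  intro t _
  simp only
  ring

lemma integral_t_div_sqrt : ∫ t in (0 : ℝ)..1, t / √(1 - t) = 4 / 3 := by
  have h : ∀ t ∈ Ioo (0 : ℝ) 1, HasDerivAt (fun t => -(2 / 3) * ((2 + t) * √(1 - t)))
      (t / √(1 - t)) t := by
    intro t ht
    have h1 : 0 < 1 - t := by linarith [ht.2]
    have d1 : HasDerivAt (fun t : ℝ => √(1 - t)) (-1 / (2 * √(1 - t))) t := by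
      have := ((hasDerivAt_id t).const_sub 1).sqrt h1.ne'
      simpa using this
    have d2 := (((hasDerivAt_id t).const_add 2).mul d1).const_mul (-(2 / 3) : ℝ)
    refine d2.congr_deriv ?_
    have s : 0 < √(1 - t) := Real.sqrt_pos.2 h1
    have ss : √(1 - t) ^ 2 = 1 - t := Real.sq_sqrt h1.le
    simp only [id]
    field_simp
    rw [ss]
    ring
  rw [intervalIntegral.integral_eq_sub_of_hasDerivAt_of_le zero_le_one
    (f := fun t => -(2 / 3) * ((2 + t) * √(1 - t))) (by fun_prop) h intervalIntegrable_t_div_sqrt]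
  norm_num

/-- bound for `hdK` -/
lemma abs_hdK_le {g : ℝ → ℝ} {C β : ℝ} (hβ : 0 < β) (hC : ∀ y ∈ Ioo 0 β, |g y| ≤ C) :
    |hdK g β| ≤ 8 / (3 * π) * C := by
  have hpi := Real.pi_pos
  unfold hdK
  rw [abs_mul, abs_of_pos (by positivity : 0 < 2 / π)]
  have h1 : |∫ t in (0 : ℝ)..1, t / √(1 - t) * g (β * t)| ≤ ∫ t in (0:ℝ)..1, t / √(1 - t) * C := by
    rw [intervalIntegral.integral_of_le zero_le_one, intervalIntegral.integral_of_le zero_le_one,
      integral_Ioc_eq_integral_Ioo, integral_Ioc_eq_integral_Ioo, ← Real.norm_eq_abs]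
    apply MeasureTheory.norm_integral_le_of_norm_le
    · have := intervalIntegrable_t_div_sqrt.mul_const C
      rwa [intervalIntegrable_iff_integrableOn_Ioo_of_le zero_le_one] at this
    · refine (ae_restrict_iff' measurableSet_Ioo).2 (Eventually.of_forall fun t ht => ?_)
      have h2 : 0 ≤ t / √(1 - t) := div_nonneg ht.1.le (Real.sqrt_nonneg _)
      rw [Real.norm_eq_abs, abs_mul, abs_of_nonneg h2]
      apply mul_le_mul_of_nonneg_left _ h2
      exact hC _ ⟨mul_pos hβ ht.1, by nlinarith [ht.2]⟩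
  rw [intervalIntegral.integral_mul_const, integral_t_div_sqrt] at h1
  calc 2 / π * _ ≤ 2 / π * (4 / 3 * C) := by gcongr
    _ = _ := by field_simp; ring

/-- joint continuity of `(λ,β) ↦ hdK (g λ) β` -/
lemma continuousOn_hdK {S : Set ℝ} {X C : ℝ} {g : ℝ → ℝ → ℝ}
    (hg : ContinuousOn (fun p : ℝ × ℝ => g p.1 p.2) (S ×ˢ Ioo 0 X))
    (hC : ∀ s ∈ S, ∀ y ∈ Ioo 0 X, |g s y| ≤ C) :
    ContinuousOn (fun p : ℝ × ℝ => hdK (g p.1) p.2) (S ×ˢ Ioo 0 X) := by
  unfold hdK
  refine continuousOn_const.mul ?_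
  simp_rw [intervalIntegral.integral_of_le (zero_le_one' ℝ), integral_Ioc_eq_integral_Ioo]
  have hmem : ∀ p ∈ S ×ˢ Ioo 0 X, ∀ t ∈ Ioo (0 : ℝ) 1, p.2 * t ∈ Ioo 0 X := by
    intro p hp t ht
    exact ⟨mul_pos hp.2.1 ht.1, by nlinarith [hp.2.1, hp.2.2, ht.2]⟩
  apply MeasureTheory.continuousOn_of_dominated (bound := fun t => t / √(1 - t) * C)
  · intro p hp
    apply ContinuousOn.aestronglyMeasurable _ measurableSet_Ioo
    refine ContinuousOn.mul ?_ ?_
    · refine ContinuousOn.div (by fun_prop) (by fun_prop) ?_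
      intro t ht
      exact (Real.sqrt_pos.2 (by linarith [ht.2])).ne'
    · exact hg.comp (by fun_prop : ContinuousOn (fun t : ℝ => (p.1, p.2 * t)) (Ioo 0 1))
        (fun t ht => ⟨hp.1, hmem p hp t ht⟩)
  · intro p hp
    refine (ae_restrict_iff' measurableSet_Ioo).2 (Eventually.of_forall fun t ht => ?_)
    have h2 : 0 ≤ t / √(1 - t) := div_nonneg ht.1.le (Real.sqrt_nonneg _)
    rw [Real.norm_eq_abs, abs_mul, abs_of_nonneg h2]
    exact mul_le_mul_of_nonneg_left (hC _ hp.1 _ (hmem p hp t ht)) h2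
  · have := intervalIntegrable_t_div_sqrt.mul_const C
    rwa [intervalIntegrable_iff_integrableOn_Ioo_of_le zero_le_one] at this
  · refine (ae_restrict_iff' measurableSet_Ioo).2 (Eventually.of_forall fun t ht => ?_)
    refine continuousOn_const.mul ?_
    exact hg.comp (by fun_prop : ContinuousOn (fun p : ℝ × ℝ => (p.1, p.2 * t)) _)
      (fun p hp => ⟨hp.1, hmem p hp t ht⟩)

/-- **(6), abstract form.**  If `N(λ,x)` is continuous for `l ≤ λ ≤ A`, `0 ≤ x ≤ X` and has
normalised derivatives `n1 = √x ∂ₓN`, `n2 = x√x ∂ₓ²N`, bounded and continuous for `0 < x < X`, then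
`∫_l^a q(λ) √(a-λ) N(λ,a-λ) dλ = ∫_l^a √(a-b) Ξ(b) db`,
`Ξ(b) = q(b) N(b,0) + ∫_l^b q(λ) κ(λ,b-λ)/√(b-λ) dλ`, `κ(λ,·) = hdK (2 n1(λ,·) + n2(λ,·))`. -/
theorem xi_identity {l A X C : ℝ} {N n1 n2 : ℝ → ℝ → ℝ} {q : ℝ → ℝ}
    (hX : A - l ≤ X)
    (hq : ContinuousOn q (Icc l A))
    (hN : ContinuousOn (fun p : ℝ × ℝ => N p.1 p.2) (Icc l A ×ˢ Icc 0 X))
    (hd1 : ∀ s ∈ Icc l A, ∀ y ∈ Ioo 0 X, HasDerivAt (N s) (n1 s y / √y) y)
    (hd2 : ∀ s ∈ Icc l A, ∀ y ∈ Ioo 0 X,
      HasDerivAt (fun y => n1 s y / √y) (n2 s y / (y * √y)) y)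
    (hc1 : ContinuousOn (fun p : ℝ × ℝ => n1 p.1 p.2) (Icc l A ×ˢ Ioo 0 X))
    (hc2 : ContinuousOn (fun p : ℝ × ℝ => n2 p.1 p.2) (Icc l A ×ˢ Ioo 0 X))
    (hb1 : ∀ s ∈ Icc l A, ∀ y ∈ Ioo 0 X, |n1 s y| ≤ C)
    (hb2 : ∀ s ∈ Icc l A, ∀ y ∈ Ioo 0 X, |n2 s y| ≤ C)
    {a : ℝ} (ha : a ∈ Icc l A) :
    ∫ s in l..a, q s * √(a - s) * N s (a - s)
      = ∫ b in l..a, √(a - b) * (q b * N b 0
          + ∫ s in l..b, q s * hdK (fun y => 2 * n1 s y + n2 s y) (b - s) / √(b - s)) := by
  obtain ⟨hla, haA⟩ := ha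
  have hpi := Real.pi_pos
  rcases hla.eq_or_lt with rfl | hla'
  · simp
  have hC0 : 0 ≤ C := (abs_nonneg _).trans
    (hb1 l ⟨le_rfl, by linarith⟩ ((a - l) / 2) ⟨by linarith, by linarith⟩)
  set κ : ℝ → ℝ → ℝ := fun s β => hdK (fun y => 2 * n1 s y + n2 s y) β with hκ
  have hgc : ContinuousOn (fun p : ℝ × ℝ => 2 * n1 p.1 p.2 + n2 p.1 p.2)
      (Icc l A ×ˢ Ioo 0 X) := (continuousOn_const.mul hc1).add hc2
  have hgb : ∀ s ∈ Icc l A, ∀ y ∈ Ioo 0 X, |2 * n1 s y + n2 s y| ≤ 3 * C := by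
    intro s hs y hy
    calc |2 * n1 s y + n2 s y| ≤ |2 * n1 s y| + |n2 s y| := abs_add_le _ _
      _ = 2 * |n1 s y| + |n2 s y| := by rw [abs_mul]; norm_num
      _ ≤ 3 * C := by linarith [hb1 s hs y hy, hb2 s hs y hy]
  have hκc : ContinuousOn (fun p : ℝ × ℝ => κ p.1 p.2) (Icc l A ×ˢ Ioo 0 X) :=
    continuousOn_hdK (g := fun s y => 2 * n1 s y + n2 s y) hgc hgb
  have hκb : ∀ s ∈ Icc l A, ∀ β ∈ Ioo 0 X, |κ s β| ≤ 8 / (3 * π) * (3 * C) := by
    intro s hs β hβ
    exact abs_hdK_le hβ.1 (fun y hy => hgb s hs y ⟨hy.1, hy.2.trans hβ.2⟩)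
  have hmemT : ∀ p ∈ Tri l a, ((p.2, p.1 - p.2) : ℝ × ℝ) ∈ Icc l A ×ˢ Ioo 0 X := by
    rintro ⟨b, s⟩ ⟨h1, h2, h3⟩
    simp only at h1 h2 h3
    refine ⟨⟨h1.le, (h2.trans h3).le.trans haA⟩, ?_, ?_⟩
    · simp only; linarith
    · simp only; linarith
  -- pointwise HD
  have hHD : ∀ s ∈ Ioo l a, √(a - s) * (N s (a - s) - N s 0)
      = ∫ b in s..a, √(a - b) * (κ s (b - s) / √(b - s)) := by
    intro s hs
    have hs' : s ∈ Icc l A := ⟨hs.1.le, hs.2.le.trans haA⟩
    have hcN : ContinuousOn (N s) (Icc 0 X) :=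
      hN.comp (by fun_prop : ContinuousOn (fun y : ℝ => (s, y)) (Icc 0 X))
        (fun y hy => ⟨hs', hy⟩)
    have hcn2 : ContinuousOn (n2 s) (Ioo 0 X) :=
      hc2.comp (by fun_prop : ContinuousOn (fun y : ℝ => (s, y)) (Ioo 0 X))
        (fun y hy => ⟨hs', hy⟩)
    have h := hd_lemma' hcN (hd1 s hs') (hd2 s hs') hcn2 (hb1 s hs') (hb2 s hs')
      (x := a - s) ⟨by linarith [hs.2], by linarith [hs.1]⟩
    rw [← h]
    have h2 := intervalIntegral.integral_comp_sub_right (a := s) (b := a)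
      (fun β => √(a - s - β) * (κ s β / √β)) s
    rw [sub_self] at h2
    rw [← h2]
    apply intervalIntegral.integral_congr
    intro b _
    simp only
    rw [show a - s - (b - s) = a - b by ring]
  -- swap
  have hqi : IntegrableOn q (Ioo l a) :=
    ((hq.mono (Icc_subset_Icc_right haA)).integrableOn_Icc).mono_set Ioo_subset_Icc_self
  have hsw := abel_swap_bdd (C := √(a - l) * (8 / (3 * π) * (3 * C))) hla
    (G := fun b s => √(a - b) * κ s (b - s)) (g := q) hqi
    (by
      apply ContinuousOn.aestronglyMeasurable _ (measurableSet_Tri l a)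
      refine ContinuousOn.mul (by fun_prop) ?_
      exact hκc.comp (by fun_prop : ContinuousOn (fun p : ℝ × ℝ => (p.2, p.1 - p.2)) _)
        hmemT)
    (by
      intro p hp
      rw [abs_mul, abs_of_nonneg (Real.sqrt_nonneg _)]
      apply mul_le_mul (Real.sqrt_le_sqrt (by linarith [hp.1, hp.2.1])) _ (abs_nonneg _)
        (Real.sqrt_nonneg _)
      exact hκb p.2 ⟨hp.1.le, (hp.2.1.trans hp.2.2).le.trans haA⟩ (p.1 - p.2)
        ⟨by linarith [hp.2.1], by linarith [hp.1, hp.2.2]⟩)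
  -- continuity of the two pieces
  have hc0 : ContinuousOn (fun s => q s * √(a - s) * N s 0) (Icc l a) := by
    refine ContinuousOn.mul (ContinuousOn.mul (hq.mono (Icc_subset_Icc_right haA))
      (by fun_prop)) ?_
    exact hN.comp (by fun_prop : ContinuousOn (fun y : ℝ => (y, (0:ℝ))) (Icc l a))
        (fun y hy => ⟨⟨hy.1, hy.2.trans haA⟩, le_rfl, by simp only; linarith⟩)
  have hca : ContinuousOn (fun s => q s * √(a - s) * N s (a - s)) (Icc l a) := by
    refine ContinuousOn.mul (ContinuousOn.mul (hq.mono (Icc_subset_Icc_right haA))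
      (by fun_prop)) ?_
    exact hN.comp (by fun_prop : ContinuousOn (fun y : ℝ => (y, a - y)) (Icc l a))
        (fun y hy => ⟨⟨hy.1, hy.2.trans haA⟩, by simp only; linarith [hy.2],
          by simp only; linarith [hy.1]⟩)
  have hi0 : IntervalIntegrable (fun s => q s * √(a - s) * N s 0) volume l a :=
    ContinuousOn.intervalIntegrable (by rwa [uIcc_of_le hla])
  have hia : IntervalIntegrable (fun s => q s * √(a - s) * N s (a - s)) volume l a :=
    ContinuousOn.intervalIntegrable (by rwa [uIcc_of_le hla])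
  -- left side minus first piece
  have e1 : ∫ s in l..a, q s * √(a - s) * N s (a - s)
      = (∫ s in l..a, q s * √(a - s) * N s 0)
        + ∫ s in l..a, ∫ b in s..a, √(a - b) * κ s (b - s) * q s / √(b - s) := by
    have : ∫ s in l..a, ∫ b in s..a, √(a - b) * κ s (b - s) * q s / √(b - s)
        = ∫ s in l..a, (q s * √(a - s) * N s (a - s) - q s * √(a - s) * N s 0) := by
      rw [intervalIntegral.integral_of_le hla, intervalIntegral.integral_of_le hla,
        integral_Ioc_eq_integral_Ioo, integral_Ioc_eq_integral_Ioo]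
      apply setIntegral_congr_fun measurableSet_Ioo
      intro s hs
      simp only
      have e : ∀ b, √(a - b) * κ s (b - s) * q s / √(b - s)
          = q s * (√(a - b) * (κ s (b - s) / √(b - s))) := by intro b; ring
      simp only [e]
      rw [intervalIntegral.integral_const_mul, ← hHD s hs]
      ring
    rw [this, intervalIntegral.integral_sub hia hi0]
    ring
  -- the iterated integral is integrable in b
  have hib : IntervalIntegrable (fun b => ∫ s in l..b, √(a - b) * κ s (b - s) * q s / √(b - s))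
      volume l a := by
    have hT : IntegrableOn (fun p : ℝ × ℝ => √(a - p.1) * κ p.2 (p.1 - p.2) * q p.2 / √(p.1 - p.2))
        (Tri l a) := by
      obtain ⟨K, hK⟩ := (isCompact_Icc (a := l) (b := A)).exists_bound_of_continuousOn hq
      refine integrableOn_Tri (κ := fun z => 1 / √z)
        (g := fun _ => √(a - l) * (8 / (3 * π) * (3 * C)) * K)
        (integrableOn_inv_sqrt _)
        ((continuousOn_const.integrableOn_Icc).mono_set Ioo_subset_Icc_self) ?_ ?_
      · apply ContinuousOn.aestronglyMeasurable _ (measurableSet_Tri l a)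
        refine ContinuousOn.div (ContinuousOn.mul (ContinuousOn.mul (by fun_prop) ?_) ?_)
          (by fun_prop) ?_
        · exact hκc.comp (by fun_prop : ContinuousOn (fun p : ℝ × ℝ => (p.2, p.1 - p.2)) _)
            hmemT
        · exact hq.comp continuousOn_snd
            (fun p hp => ⟨hp.1.le, (hp.2.1.trans hp.2.2).le.trans haA⟩)
        · intro p hp
          exact (Real.sqrt_pos.2 (by linarith [hp.2.1])).ne'
      · intro p hp
        have hp2 : p.2 ∈ Icc l A := ⟨hp.1.le, (hp.2.1.trans hp.2.2).le.trans haA⟩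
        have h1 := hκb p.2 hp2 (p.1 - p.2) ⟨by linarith [hp.2.1], by linarith [hp.1, hp.2.2]⟩
        have h2 := hK p.2 hp2
        rw [Real.norm_eq_abs] at h2
        rw [abs_div, abs_mul, abs_mul, abs_of_nonneg (Real.sqrt_nonneg (a - p.1)),
          abs_of_nonneg (Real.sqrt_nonneg (p.1 - p.2))]
        have h3 : √(a - p.1) ≤ √(a - l) := Real.sqrt_le_sqrt (by linarith [hp.1, hp.2.1])
        calc √(a - p.1) * |κ p.2 (p.1 - p.2)| * |q p.2| / √(p.1 - p.2)
            ≤ √(a - l) * (8 / (3 * π) * (3 * C)) * K / √(p.1 - p.2) := by gcongr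
          _ = _ := by ring
    have hI : Integrable ((Tri l a).indicator
        (fun p : ℝ × ℝ => √(a - p.1) * κ p.2 (p.1 - p.2) * q p.2 / √(p.1 - p.2)))
        (volume.prod volume) := by
      have := (integrable_indicator_iff (measurableSet_Tri l a)).2 hT
      exact this
    have h1 := hI.integral_prod_left
    rw [intervalIntegrable_iff_integrableOn_Ioo_of_le hla]
    refine (h1.integrableOn (s := Ioo l a)).congr_fun (fun b hb => ?_) measurableSet_Ioo
    simp only
    rw [intervalIntegral.integral_of_le hb.1.le, integral_Ioc_eq_integral_Ioo,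
      ← MeasureTheory.integral_indicator measurableSet_Ioo]
    congr 1
    ext s
    by_cases hs : s ∈ Ioo l b
    · rw [indicator_of_mem hs, indicator_of_mem (show (b, s) ∈ Tri l a from ⟨hs.1, hs.2, hb.2⟩)]
    · rw [indicator_of_notMem hs, indicator_of_notMem]
      intro h
      exact hs ⟨h.1, h.2.1⟩
  rw [e1, ← hsw, ← intervalIntegral.integral_add hi0 hib]
  apply intervalIntegral.integral_congr
  intro b _
  simp only
  rw [mul_add, ← intervalIntegral.integral_const_mul]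
  congr 1
  · ring
  · congr 1
    ext s
    simp only [hκ]
    ring

end Pool.Agent.Unicorn
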