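import Mathlib
import Pool.Agent.Unicorn.B2O
import Pool.Agent.Unicorn.B3

set_option autoImplicit false

open Set MeasureTheory intervalIntegral Filter Topology

namespace Pool.Agent.Unicorn.B2

variable {l c : ℝ} {q f : ℝ → ℝ} {w : ℝ → ℝ → ℝ → ℝ}

/-! ### the kernel `K0 = a² p/e²` and its normalised derivatives -/

noncomputable def K0 (l c : ℝ) (q : ℝ → ℝ) (w : ℝ → ℝ → ℝ → ℝ) (s lam x : ℝ) : ℝ :=
  (lam + x) ^ 2 * k0T l c q w s lam x

/-- `√x ∂_x K0` -/
noncomputable def K1 (l c : ℝ) (q : ℝ → ℝ) (w : ℝ → ℝ → ℝ → ℝ) (s lam x : ℝ) : ℝ :=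
  √x * (2 * (lam + x) * k0T l c q w s lam x + (lam + x) ^ 2 * k1T l c q w s lam x)

/-- `x√x ∂_x² K0` -/
noncomputable def K2 (l c : ℝ) (q : ℝ → ℝ) (w : ℝ → ℝ → ℝ → ℝ) (s lam x : ℝ) : ℝ :=
  x * √x * (2 * k0T l c q w s lam x + 4 * (lam + x) * k1T l c q w s lam x
    + (lam + x) ^ 2 * k2T l c q w s lam x)

lemma hasDerivAt_sq_shift (lam x : ℝ) : HasDerivAt (fun x => (lam + x) ^ 2) (2 * (lam + x)) x := by
  have := ((hasDerivAt_id x).const_add lam).pow 2
  refine this.congr_deriv ?_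
  simp

lemma hasDerivAt_two_shift (lam x : ℝ) : HasDerivAt (fun x => 2 * (lam + x)) 2 x := by
  have := ((hasDerivAt_id x).const_add lam).const_mul 2
  refine this.congr_deriv ?_
  simp

lemma WSol.hasDerivAt_K0 (H : WSol l c q w) {s lam x : ℝ} (hs : l ≤ s) (h : s ≤ lam)
    (h1 : lam ≤ 1) (hx : 0 < x) (hx1 : x < 1) :
    HasDerivAt (K0 l c q w s lam) (K1 l c q w s lam x / √x) x := by
  have hsx : 0 < √x := Real.sqrt_pos.2 hx
  refine ((hasDerivAt_sq_shift lam x).mul (H.hasDerivAt_k0T hs h h1 hx hx1)).congr_deriv ?_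
  unfold K1
  field_simp

lemma WSol.hasDerivAt_K1 (H : WSol l c q w) {s lam x : ℝ} (hs : l ≤ s) (h : s ≤ lam)
    (h1 : lam ≤ 1) (hx : 0 < x) (hx1 : x < 1) :
    HasDerivAt (fun x => K1 l c q w s lam x / √x) (K2 l c q w s lam x / (x * √x)) x := by
  have hsx : 0 < √x := Real.sqrt_pos.2 hx
  have key := ((hasDerivAt_two_shift lam x).mul (H.hasDerivAt_k0T hs h h1 hx hx1)).add
    ((hasDerivAt_sq_shift lam x).mul (H.hasDerivAt_k1T hs h h1 hx hx1))
  refine (key.congr_deriv ?_).congr_of_eventuallyEq ?_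
  · unfold K2
    field_simp
    ring
  · filter_upwards [Ioi_mem_nhds hx] with y hy
    have hsy : 0 < √y := Real.sqrt_pos.2 hy
    unfold K1
    simp only [Pi.add_apply, Pi.mul_apply]
    field_simp

/-! ### `N = 2 ∫ f √s K0` -/

/-- `N(lam, x) = 2 (lam+x)² ∫_l^lam f √s p/e²` -/
noncomputable def NN (l c : ℝ) (q f : ℝ → ℝ) (w : ℝ → ℝ → ℝ → ℝ) (lam x : ℝ) : ℝ :=
  (lam + x) ^ 2 * (2 * I1T l c q f w lam x)

/-- `√x ∂_x N` -/
noncomputable def NN1 (l c : ℝ) (q f : ℝ → ℝ) (w : ℝ → ℝ → ℝ → ℝ) (lam x : ℝ) : ℝ :=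
  √x * (2 * (lam + x) * (2 * I1T l c q f w lam x) + (lam + x) ^ 2 * (2 * J1T l c q f w lam x))

/-- `x√x ∂_x² N` -/
noncomputable def NN2 (l c : ℝ) (q f : ℝ → ℝ) (w : ℝ → ℝ → ℝ → ℝ) (lam x : ℝ) : ℝ :=
  x * √x * (2 * (2 * I1T l c q f w lam x)
    + 4 * (lam + x) * (2 * J1T l c q f w lam x)
    + (lam + x) ^ 2 * (2 * J2T l c q f w lam x))

lemma NN_eq (lam x : ℝ) : NN l c q f w lam x = 2 * ∫ s in l..lam, √s * (f s * K0 l c q w s lam x) := by
  unfold NN I1T K0
  rw [← mul_assoc, mul_comm ((lam + x) ^ 2) 2, mul_assoc, ← intervalIntegral.integral_const_mul]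
  congr 1
  refine integral_congr (fun s _ => ?_)
  beta_reduce
  ring

lemma WSol.NN1_eq (H : WSol l c q w) (hf : Continuous f) {lam x : ℝ} (hx : 0 < x) :
    NN1 l c q f w lam x = 2 * ∫ s in l..lam, √s * (f s * K1 l c q w s lam x) := by
  have i0 : IntervalIntegrable (fun s => f s * √s * k0T l c q w s lam x) volume l lam :=
    (slice3' (φ := fun s lam x => f s * √s * k0T l c q w s lam x)
      ((cont_qs hf).mul H.cont_k0T.continuousOn) lam hx).intervalIntegrable
  have i1 : IntervalIntegrable (fun s => f s * √s * k1T l c q w s lam x) volume l lam :=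
    (slice3' (φ := fun s lam x => f s * √s * k1T l c q w s lam x)
      ((cont_qs hf).mul H.contOn_k1T) lam hx).intervalIntegrable
  unfold NN1 I1T J1T K1
  have e : ∀ s, √s * (f s * (√x * (2 * (lam + x) * k0T l c q w s lam x
      + (lam + x) ^ 2 * k1T l c q w s lam x)))
      = (√x * (2 * (lam + x))) * (f s * √s * k0T l c q w s lam x)
        + (√x * (lam + x) ^ 2) * (f s * √s * k1T l c q w s lam x) := by
    intro s; ring
  simp_rw [e]
  rw [intervalIntegral.integral_add (i0.const_mul _) (i1.const_mul _),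
    intervalIntegral.integral_const_mul, intervalIntegral.integral_const_mul]
  ring

lemma WSol.NN2_eq (H : WSol l c q w) (hf : Continuous f) {lam x : ℝ} (hx : 0 < x) :
    NN2 l c q f w lam x = 2 * ∫ s in l..lam, √s * (f s * K2 l c q w s lam x) := by
  have i0 : IntervalIntegrable (fun s => f s * √s * k0T l c q w s lam x) volume l lam :=
    (slice3' (φ := fun s lam x => f s * √s * k0T l c q w s lam x)
      ((cont_qs hf).mul H.cont_k0T.continuousOn) lam hx).intervalIntegrable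
  have i1 : IntervalIntegrable (fun s => f s * √s * k1T l c q w s lam x) volume l lam :=
    (slice3' (φ := fun s lam x => f s * √s * k1T l c q w s lam x)
      ((cont_qs hf).mul H.contOn_k1T) lam hx).intervalIntegrable
  have i2 : IntervalIntegrable (fun s => f s * √s * k2T l c q w s lam x) volume l lam :=
    (slice3' (φ := fun s lam x => f s * √s * k2T l c q w s lam x)
      ((cont_qs hf).mul H.contOn_k2T) lam hx).intervalIntegrable
  unfold NN2 I1T J1T J2T K2
  have e : ∀ s, √s * (f s * (x * √x * (2 * k0T l c q w s lam x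
      + 4 * (lam + x) * k1T l c q w s lam x + (lam + x) ^ 2 * k2T l c q w s lam x)))
      = (x * √x * 2) * (f s * √s * k0T l c q w s lam x)
        + (x * √x * (4 * (lam + x))) * (f s * √s * k1T l c q w s lam x)
        + (x * √x * (lam + x) ^ 2) * (f s * √s * k2T l c q w s lam x) := by
    intro s; ring
  simp_rw [e]
  rw [intervalIntegral.integral_add ((i0.const_mul _).add (i1.const_mul _)) (i2.const_mul _),
    intervalIntegral.integral_add (i0.const_mul _) (i1.const_mul _),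
    intervalIntegral.integral_const_mul, intervalIntegral.integral_const_mul,
    intervalIntegral.integral_const_mul]
  ring

lemma WSol.cont_NN (H : WSol l c q w) (hf : Continuous f) :
    Continuous (fun p : ℝ × ℝ => NN l c q f w p.1 p.2) := by
  have h1 := H.cont_I1T hf
  have h3 : Continuous (fun p : ℝ × ℝ => (p.1 + p.2) ^ 2) := by fun_prop
  exact h3.mul (continuous_const.mul h1)

lemma WSol.contOn_NN1 (H : WSol l c q w) (hf : Continuous f) :
    ContinuousOn (fun p : ℝ × ℝ => NN1 l c q f w p.1 p.2) {p | 0 < p.2} := by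
  have h1 := (H.cont_I1T hf).continuousOn (s := {p : ℝ × ℝ | 0 < p.2})
  have h3 := H.contOn_J1T hf
  have g1 : ContinuousOn (fun p : ℝ × ℝ => √p.2) {p | 0 < p.2} := by fun_prop
  have g2 : ContinuousOn (fun p : ℝ × ℝ => 2 * (p.1 + p.2)) {p | 0 < p.2} := by fun_prop
  have g3 : ContinuousOn (fun p : ℝ × ℝ => (p.1 + p.2) ^ 2) {p | 0 < p.2} := by fun_prop
  exact g1.mul ((g2.mul (continuousOn_const.mul h1)).add (g3.mul (continuousOn_const.mul h3)))

lemma WSol.contOn_NN2 (H : WSol l c q w) (hf : Continuous f) :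
    ContinuousOn (fun p : ℝ × ℝ => NN2 l c q f w p.1 p.2) {p | 0 < p.2} := by
  have h1 := (H.cont_I1T hf).continuousOn (s := {p : ℝ × ℝ | 0 < p.2})
  have h3 := H.contOn_J1T hf
  have h5 := H.contOn_J2T hf
  have g1 : ContinuousOn (fun p : ℝ × ℝ => p.2 * √p.2) {p | 0 < p.2} := by fun_prop
  have g2 : ContinuousOn (fun p : ℝ × ℝ => 4 * (p.1 + p.2)) {p | 0 < p.2} := by fun_prop
  have g3 : ContinuousOn (fun p : ℝ × ℝ => (p.1 + p.2) ^ 2) {p | 0 < p.2} := by fun_prop
  exact g1.mul (((continuousOn_const.mul (continuousOn_const.mul h1)).add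
    (g2.mul (continuousOn_const.mul h3))).add (g3.mul (continuousOn_const.mul h5)))

lemma WSol.hasDerivAt_NN (H : WSol l c q w) (hf : Continuous f) {lam x : ℝ}
    (h : l ≤ lam) (h1 : lam ≤ 1) (hx : 0 < x) (hx1 : x < 1) :
    HasDerivAt (NN l c q f w lam) (NN1 l c q f w lam x / √x) x := by
  have hs : 0 < √x := Real.sqrt_pos.2 hx
  have d1 := H.hasDerivAt_I1T hf h h1 hx hx1
  refine ((hasDerivAt_sq_shift lam x).mul (d1.const_mul 2)).congr_deriv ?_
  unfold NN1
  field_simp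

lemma WSol.hasDerivAt_NN1 (H : WSol l c q w) (hf : Continuous f) {lam x : ℝ}
    (h : l ≤ lam) (h1 : lam ≤ 1) (hx : 0 < x) (hx1 : x < 1) :
    HasDerivAt (fun x => NN1 l c q f w lam x / √x) (NN2 l c q f w lam x / (x * √x)) x := by
  have hs : 0 < √x := Real.sqrt_pos.2 hx
  have d1 := H.hasDerivAt_I1T hf h h1 hx hx1
  have e1 := H.hasDerivAt_J1T hf h h1 hx hx1
  have key := ((hasDerivAt_two_shift lam x).mul (d1.const_mul 2)).add
    ((hasDerivAt_sq_shift lam x).mul (e1.const_mul 2))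
  refine (key.congr_deriv ?_).congr_of_eventuallyEq ?_
  · unfold NN2
    field_simp
    ring
  · filter_upwards [Ioi_mem_nhds hx] with y hy
    have hsy : 0 < √y := Real.sqrt_pos.2 hy
    unfold NN1
    simp only [Pi.add_apply, Pi.mul_apply]
    field_simp

lemma WSol.bounds_NN (H : WSol l c q w) (hf : Continuous f) : ∃ C : ℝ, ∀ lam ∈ Icc l 1,
    ∀ x ∈ Ioo (0:ℝ) 1, |NN1 l c q f w lam x| ≤ C ∧ |NN2 l c q f w lam x| ≤ C := by
  obtain ⟨C, hC0, hC⟩ := H.boundsI hf
  have hl := H.hl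
  refine ⟨40 * C, fun lam hlam x hx => ?_⟩
  obtain ⟨a0, a1, a2⟩ := hC lam hlam x hx
  have hs : 0 < √x := Real.sqrt_pos.2 hx.1
  have hs1 : √x ≤ 1 := Real.sqrt_le_one.2 hx.2.le
  have hxx : √x * √x = x := Real.mul_self_sqrt hx.1.le
  set I := I1T l c q f w lam x with hI
  set J := J1T l c q f w lam x with hJ
  set K := J2T l c q f w lam x with hK
  have hJb : √x * |J| ≤ C := by
    rw [le_div_iff₀ hs] at a1
    linarith
  have hKb : x * √x * |K| ≤ C := by
    rw [le_div_iff₀ (by positivity)] at a2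
    have : x * √x = √x ^ 3 := by
      calc x * √x = (√x * √x) * √x := by rw [hxx]
        _ = √x ^ 3 := by ring
    rw [this]; linarith
  have hsum : 0 ≤ lam + x ∧ lam + x ≤ 2 := ⟨by linarith [hlam.1, hx.1], by linarith [hlam.2, hx.2]⟩
  have hsq : (lam + x) ^ 2 ≤ 4 := by nlinarith [hsum.1, hsum.2]
  have hx1 : x * √x ≤ 1 := by nlinarith [hx.1, hx.2]
  constructor
  · have e : NN1 l c q f w lam x = √x * (4 * (lam + x)) * I + (lam + x) ^ 2 * 2 * (√x * J) := by
      unfold NN1; ring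
    rw [e]
    refine (abs_add_le _ _).trans ?_
    rw [abs_mul, abs_mul ((lam + x) ^ 2 * 2), abs_mul √x J, abs_of_pos hs,
      abs_of_nonneg (show 0 ≤ √x * (4 * (lam + x)) by have := hsum.1; positivity),
      abs_of_nonneg (show 0 ≤ (lam + x) ^ 2 * 2 by positivity)]
    have g1 : √x * (4 * (lam + x)) * |I| ≤ 8 * C := by
      have : √x * (4 * (lam + x)) ≤ 8 := by nlinarith [hsum.1, hsum.2]
      exact mul_le_mul this a0 (abs_nonneg _) (by norm_num)
    have g2 : (lam + x) ^ 2 * 2 * (√x * |J|) ≤ 8 * C :=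
      mul_le_mul (by linarith) hJb (by positivity) (by norm_num)
    linarith
  · have e : NN2 l c q f w lam x = (x * √x) * 4 * I + (x * (8 * (lam + x))) * (√x * J)
        + (lam + x) ^ 2 * 2 * (x * √x * K) := by
      unfold NN2; ring
    rw [e]
    have hx0 := hx.1
    have hsum1 := hsum.1
    refine (abs_add_le _ _).trans ((add_le_add_left (abs_add_le _ _) _).trans ?_)
    rw [abs_mul, abs_mul (x * (8 * (lam + x))), abs_mul √x J, abs_of_pos hs,
      abs_mul ((lam + x) ^ 2 * 2), abs_mul (x * √x) K,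
      abs_of_nonneg (show 0 ≤ x * √x * 4 by positivity),
      abs_of_nonneg (show 0 ≤ x * (8 * (lam + x)) by positivity),
      abs_of_nonneg (show 0 ≤ (lam + x) ^ 2 * 2 by positivity),
      abs_of_nonneg (show 0 ≤ x * √x by positivity)]
    have g1 : x * √x * 4 * |I| ≤ 4 * C :=
      mul_le_mul (by linarith) a0 (abs_nonneg _) (by norm_num)
    have g2 : x * (8 * (lam + x)) * (√x * |J|) ≤ 16 * C := by
      refine mul_le_mul ?_ hJb (by positivity) (by norm_num)
      nlinarith [hx.2, hsum.2]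
    have g3 : (lam + x) ^ 2 * 2 * (x * √x * |K|) ≤ 8 * C :=
      mul_le_mul (by linarith) hKb (by positivity) (by norm_num)
    linarith

/-- `Y(q; f₁, f₂)(b) = f₁(b) N(b,0) + ∫_l^b f₁(s) κ(s,b-s)/√(b-s) ds` -/
noncomputable def YY (l c : ℝ) (q f₁ f₂ : ℝ → ℝ) (w : ℝ → ℝ → ℝ → ℝ) (b : ℝ) : ℝ :=
  f₁ b * NN l c q f₂ w b 0
    + ∫ s in l..b, f₁ s * hdK (fun y => 2 * NN1 l c q f₂ w s y + NN2 l c q f₂ w s y) (b - s)
        / √(b - s)

/-- (HD) applied to `N` -/
theorem WSol.hd_identity (H : WSol l c q w) {f₁ f₂ : ℝ → ℝ} (hf₁ : Continuous f₁)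
    (hf₂ : Continuous f₂) {a : ℝ} (hla : l ≤ a) (ha : a ≤ 1) :
    ∫ s in l..a, f₁ s * √(a - s) * NN l c q f₂ w s (a - s)
      = ∫ b in l..a, √(a - b) * YY l c q f₁ f₂ w b := by
  have hl := H.hl
  obtain ⟨C, hC⟩ := H.bounds_NN hf₂
  exact xi_identity (l := l) (A := 1) (X := 1) (C := C) (N := NN l c q f₂ w)
    (n1 := NN1 l c q f₂ w) (n2 := NN2 l c q f₂ w) (q := f₁) (by linarith)
    hf₁.continuousOn (H.cont_NN hf₂).continuousOn
    (fun s hs y hy => H.hasDerivAt_NN hf₂ hs.1 hs.2 hy.1 hy.2)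
    (fun s hs y hy => H.hasDerivAt_NN1 hf₂ hs.1 hs.2 hy.1 hy.2)
    ((H.contOn_NN1 hf₂).mono (fun p hp => hp.2.1))
    ((H.contOn_NN2 hf₂).mono (fun p hp => hp.2.1))
    (fun s hs y hy => (hC s hs y hy).1) (fun s hs y hy => (hC s hs y hy).2)
    (a := a) ⟨hla, ha⟩

/-- (LS'): `a² (Φ(a) - (1/a)∫ q√s) = c ∫_l^a q(lam) √(a-lam) N(lam,a-lam) dlam` -/
theorem WSol.LS' (H : WSol l c q w) {a : ℝ} (hla : l ≤ a) (ha : a ≤ 1) :
    a ^ 2 * ((∫ s in l..a, q s * √s / en w s a a) - (∫ s in l..a, q s * √s) / a)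
      = c * ∫ s in l..a, q s * √(a - s) * NN l c q q w s (a - s) := by
  have hq := H.hq
  have hl := H.hl
  have h1 := H.LS1 hla ha
  have h2 : ∫ s in l..a, q s * √s * ((en w s a a)⁻¹ - a⁻¹)
      = (∫ s in l..a, q s * √s / en w s a a) - (∫ s in l..a, q s * √s) / a := by
    rw [← intervalIntegral.integral_div, ← intervalIntegral.integral_sub]
    · refine integral_congr (fun s _ => ?_)
      beta_reduce
      ring
    · have hen : Continuous (fun s => en w s a a) :=
        H.cont_en.comp (f := fun s : ℝ => ((s, a, a) : ℝ × ℝ × ℝ)) (by fun_prop)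
      have : ContinuousOn (fun s => q s * √s / en w s a a) (uIcc l a) := by
        rw [uIcc_of_le hla]
        refine ContinuousOn.div (by fun_prop) hen.continuousOn (fun s hs => ?_)
        exact (hl.trans_le (hs.1.trans (H.en_ge hs.2))).ne'
      exact this.intervalIntegrable
    · exact (by fun_prop : Continuous (fun s => q s * √s / a)).intervalIntegrable _ _
  rw [← h2, h1, mul_comm 2 c, mul_assoc, ← mul_assoc (a ^ 2) c, mul_comm (a ^ 2) c, mul_assoc]
  congr 1
  rw [← mul_assoc, ← intervalIntegral.integral_const_mul]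
  refine integral_congr (fun s hs => ?_)
  rw [uIcc_of_le hla] at hs
  beta_reduce
  unfold NN
  have e : s + (a - s) = a := by ring
  rw [H.I1T_eq hs.1 (by linarith [hs.2]), e]
  ring

/-- combination of (LS') and (HD) -/
theorem WSol.main_identity (H : WSol l c q w) {a : ℝ} (hla : l ≤ a) (ha : a ≤ 1) :
    a ^ 2 * ((∫ s in l..a, q s * √s / en w s a a) - (∫ s in l..a, q s * √s) / a)
      = c * ∫ b in l..a, √(a - b) * YY l c q q q w b := by
  rw [H.LS' hla ha, H.hd_identity H.hq H.hq hla ha]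

end Pool.Agent.Unicorn.B2
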