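import Mathlib
import Pool.Agent.Unicorn.B2W

set_option autoImplicit false

open Set MeasureTheory intervalIntegral Filter Topology

namespace Pool.Agent.Unicorn.B2

/-- restart of the energy equation at a lower point and linearisation of the difference -/
lemma diff_energy {c s₀ lam a : ℝ} {q e1 e2 : ℝ → ℝ} (hq : ContinuousOn q (Icc s₀ lam))
    (he1 : ContinuousOn e1 (Icc s₀ lam)) (he2 : ContinuousOn e2 (Icc s₀ lam))
    (h1 : ∀ s ∈ Icc s₀ lam, e1 s = a - 2 * c * ∫ r in s..lam, q r * √(e1 r - r))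
    (h2 : ∀ s ∈ Icc s₀ lam, e2 s = a - 2 * c * ∫ r in s..lam, q r * √(e2 r - r))
    {b : ℝ} (hb : b ∈ Icc s₀ lam)
    (hp1 : ∀ s ∈ Icc s₀ b, s < e1 s) (hp2 : ∀ s ∈ Icc s₀ b, s < e2 s) :
    ∀ s ∈ Icc s₀ b, e1 s - e2 s = (e1 b - e2 b)
      * Real.exp (-∫ r in s..b, 2 * c * q r / (√(e1 r - r) + √(e2 r - r))) := by
  have hsub : Icc s₀ b ⊆ Icc s₀ lam := Icc_subset_Icc_right hb.2
  have hq' := hq.mono hsub
  have he1' := he1.mono hsub
  have he2' := he2.mono hsub
  have hs1 : ContinuousOn (fun r => √(e1 r - r)) (Icc s₀ lam) :=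
    (he1.sub continuousOn_id).sqrt
  have hs2 : ContinuousOn (fun r => √(e2 r - r)) (Icc s₀ lam) :=
    (he2.sub continuousOn_id).sqrt
  have hpos : ∀ r ∈ Icc s₀ b, 0 < √(e1 r - r) + √(e2 r - r) := by
    intro r hr
    have g1 : 0 < √(e1 r - r) := Real.sqrt_pos.2 (by linarith [hp1 r hr])
    have g2 : 0 < √(e2 r - r) := Real.sqrt_pos.2 (by linarith [hp2 r hr])
    linarith
  have hint1 : ∀ u ∈ Icc s₀ lam, ∀ v ∈ Icc s₀ lam,
      IntervalIntegrable (fun r => q r * √(e1 r - r)) volume u v := by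
    intro u hu v hv
    refine ((hq.mul hs1).mono ?_).intervalIntegrable
    exact (convex_Icc s₀ lam).ordConnected.uIcc_subset hu hv
  have hint2 : ∀ u ∈ Icc s₀ lam, ∀ v ∈ Icc s₀ lam,
      IntervalIntegrable (fun r => q r * √(e2 r - r)) volume u v := by
    intro u hu v hv
    refine ((hq.mul hs2).mono ?_).intervalIntegrable
    exact (convex_Icc s₀ lam).ordConnected.uIcc_subset hu hv
  refine volterra (s₀ := s₀) (b := b) (D := fun s => e1 s - e2 s) ?_ (he1'.sub he2') ?_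
  · refine ContinuousOn.div (hq'.const_smul (2 * c)) ((hs1.mono hsub).add (hs2.mono hsub))
      (fun r hr => (hpos r hr).ne')
  · intro u hu
    have hu' := hsub hu
    have hlam : lam ∈ Icc s₀ lam := ⟨hb.1.trans hb.2, le_rfl⟩
    have e3 : ∫ r in u..b, 2 * c * q r / (√(e1 r - r) + √(e2 r - r)) * (e1 r - e2 r)
        = 2 * c * (∫ r in u..b, q r * √(e1 r - r)) - 2 * c * ∫ r in u..b, q r * √(e2 r - r) := by
      rw [← intervalIntegral.integral_const_mul, ← intervalIntegral.integral_const_mul,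
        ← intervalIntegral.integral_sub ((hint1 u hu' b hb).const_mul _)
          ((hint2 u hu' b hb).const_mul _)]
      refine integral_congr (fun r hr => ?_)
      rw [uIcc_of_le hu.2] at hr
      have hr' : r ∈ Icc s₀ b := ⟨hu.1.trans hr.1, hr.2⟩
      have hp := hpos r hr'
      beta_reduce
      have s1 := Real.sq_sqrt (show 0 ≤ e1 r - r by linarith [hp1 r hr'])
      have s2 := Real.sq_sqrt (show 0 ≤ e2 r - r by linarith [hp2 r hr'])
      have s3 : e1 r - e2 r = (√(e1 r - r) + √(e2 r - r)) * (√(e1 r - r) - √(e2 r - r)) := by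
        nlinarith [s1, s2]
      rw [div_mul_eq_mul_div, div_eq_iff hp.ne', s3]
      ring
    have a1 := intervalIntegral.integral_add_adjacent_intervals (hint1 u hu' b hb) (hint1 b hb lam hlam)
    have a2 := intervalIntegral.integral_add_adjacent_intervals (hint2 u hu' b hb) (hint2 b hb lam hlam)
    beta_reduce
    rw [e3, h1 u hu', h2 u hu', h1 b hb, h2 b hb, ← a1, ← a2]
    ring

/-- near the top of an orbit `e(r) - r ≥ κ (lam - r)` -/
lemma lower_energy {c s₀ lam a : ℝ} {q e1 : ℝ → ℝ} (h0 : s₀ ≤ lam)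
    (hq : ContinuousOn q (Icc s₀ lam))
    (he1 : ContinuousOn e1 (Icc s₀ lam)) (hla : lam ≤ a)
    (hp1 : ∀ s ∈ Ico s₀ lam, s < e1 s)
    (h1 : ∀ s ∈ Icc s₀ lam, e1 s = a - 2 * c * ∫ r in s..lam, q r * √(e1 r - r)) :
    ∃ κ > 0, ∀ r ∈ Icc s₀ lam, κ * (lam - r) ≤ e1 r - r := by
  have hlam : lam ∈ Icc s₀ lam := ⟨h0, le_rfl⟩
  have etop : e1 lam = a := by
    have := h1 lam hlam
    simpa using this
  rcases hla.lt_or_eq with hlt | heq
  · -- a > lam
    obtain ⟨r₀, hr₀, hmin⟩ := isCompact_Icc.exists_isMinOn (nonempty_Icc.2 h0)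
      (he1.sub continuousOn_id)
    have hpos : 0 < e1 r₀ - r₀ := by
      rcases hr₀.2.lt_or_eq with h | h
      · linarith [hp1 r₀ ⟨hr₀.1, h⟩]
      · rw [h, etop]; linarith
    have hm : ∀ r ∈ Icc s₀ lam, e1 r₀ - r₀ ≤ e1 r - r := fun r hr => hmin hr
    refine ⟨(e1 r₀ - r₀) / (lam - s₀ + 1), div_pos hpos (by linarith), fun r hr => ?_⟩
    have h2 : (e1 r₀ - r₀) / (lam - s₀ + 1) * (lam - r) ≤ e1 r₀ - r₀ := by
      rw [div_mul_eq_mul_div, div_le_iff₀ (by linarith)]
      nlinarith [hr.1, hr.2]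
    linarith [hm r hr]
  · -- a = lam
    subst heq
    obtain ⟨M, hM⟩ := isCompact_Icc.exists_bound_of_continuousOn hq
    have hM0 : 0 ≤ M := (norm_nonneg _).trans (hM lam hlam)
    have hs1 : ContinuousOn (fun r => √(e1 r - r)) (Icc s₀ lam) :=
      (he1.sub continuousOn_id).sqrt
    -- near lam
    have hcont : ContinuousWithinAt (fun r => 2 * |c| * M * √(e1 r - r)) (Icc s₀ lam) lam :=
      ((hs1.const_smul (2 * |c| * M)) lam hlam)
    have hv : 2 * |c| * M * √(e1 lam - lam) < 1/2 := by rw [etop]; simp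
    have hev := hcont.eventually (gt_mem_nhds hv)
    rw [eventually_nhdsWithin_iff, Metric.eventually_nhds_iff] at hev
    obtain ⟨δ, hδ, hball⟩ := hev
    have near : ∀ r ∈ Icc s₀ lam, lam - r < δ → 1/2 * (lam - r) ≤ e1 r - r := by
      intro r hr hrδ
      rw [h1 r hr]
      have hb : ‖∫ ρ in r..lam, 2 * c * (q ρ * √(e1 ρ - ρ))‖ ≤ 1/2 * |lam - r| := by
        refine intervalIntegral.norm_integral_le_of_norm_le_const (fun ρ hρ => ?_)
        rw [uIoc_of_le hr.2] at hρ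
        have hρ' : ρ ∈ Icc s₀ lam := ⟨hr.1.trans hρ.1.le, hρ.2⟩
        have g := @hball ρ (by
          rw [Real.dist_eq, abs_of_nonpos (by linarith [hρ.2])]; linarith [hρ.1]) hρ'
        rw [norm_mul, norm_mul, norm_mul, Real.norm_eq_abs, Real.norm_eq_abs, abs_two]
        have g2 := hM ρ hρ'
        have g3 : ‖√(e1 ρ - ρ)‖ = √(e1 ρ - ρ) := by
          rw [Real.norm_eq_abs, abs_of_nonneg (Real.sqrt_nonneg _)]
        rw [g3]
        have g4 : ‖q ρ‖ * √(e1 ρ - ρ) ≤ M * √(e1 ρ - ρ) :=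
          mul_le_mul_of_nonneg_right g2 (Real.sqrt_nonneg _)
        have g5 := mul_le_mul_of_nonneg_left g4 (show 0 ≤ 2 * |c| by positivity)
        linarith
      rw [intervalIntegral.integral_const_mul, Real.norm_eq_abs, abs_of_nonneg
        (show 0 ≤ lam - r by linarith [hr.2])] at hb
      have := abs_le.1 hb
      linarith [this.2]
    by_cases hcase : lam - s₀ < δ
    · exact ⟨1/2, by norm_num, fun r hr => near r hr (by linarith [hr.1])⟩
    · push Not at hcase
      have h0' : s₀ ≤ lam - δ := by linarith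
      obtain ⟨r₀, hr₀, hmin⟩ := (isCompact_Icc (a := s₀) (b := lam - δ)).exists_isMinOn
        (nonempty_Icc.2 h0') ((he1.sub continuousOn_id).mono (Icc_subset_Icc_right (by linarith)))
      have hpos : 0 < e1 r₀ - r₀ := by
        linarith [hp1 r₀ ⟨hr₀.1, by linarith [hr₀.2]⟩]
      have hm : ∀ r ∈ Icc s₀ (lam - δ), e1 r₀ - r₀ ≤ e1 r - r := fun r hr => hmin hr
      refine ⟨min (1/2) ((e1 r₀ - r₀) / (lam - s₀ + 1)),
        lt_min (by norm_num) (div_pos hpos (by linarith)), fun r hr => ?_⟩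
      by_cases hr2 : lam - r < δ
      · have := near r hr hr2
        have h3 : min (1/2) ((e1 r₀ - r₀) / (lam - s₀ + 1)) * (lam - r) ≤ 1/2 * (lam - r) :=
          mul_le_mul_of_nonneg_right (min_le_left _ _) (by linarith [hr.2])
        linarith
      · have h3 : min (1/2) ((e1 r₀ - r₀) / (lam - s₀ + 1)) * (lam - r)
            ≤ (e1 r₀ - r₀) / (lam - s₀ + 1) * (lam - r) :=
          mul_le_mul_of_nonneg_right (min_le_right _ _) (by linarith [hr.2])
        have h2 : (e1 r₀ - r₀) / (lam - s₀ + 1) * (lam - r) ≤ e1 r₀ - r₀ := by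
          rw [div_mul_eq_mul_div, div_le_iff₀ (by linarith)]
          nlinarith [hr.1, hr.2]
        linarith [hm r ⟨hr.1, by linarith⟩]

/-- integral of `(lam-r)^{-1/2}` in square-root form -/
lemma integral_inv_sqrt_sub {s b lam : ℝ} (hsb : s ≤ b) (hb : b < lam) :
    ∫ r in s..b, (√(lam - r))⁻¹ = 2 * √(lam - s) - 2 * √(lam - b) := by
  have hd : ∀ r ∈ uIcc s b, HasDerivAt (fun r => -(2 * √(lam - r))) ((√(lam - r))⁻¹) r := by
    intro r hr
    rw [uIcc_of_le hsb] at hr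
    have hpos : lam - r ≠ 0 := by linarith [hr.2]
    have h := (((hasDerivAt_id r).const_sub lam).sqrt hpos).const_mul 2 |>.neg
    refine h.congr_deriv ?_
    have : √(lam - r) ≠ 0 := (Real.sqrt_pos.2 (by linarith [hr.2])).ne'
    simp only [id]
    field_simp
  have hcont : ContinuousOn (fun r => (√(lam - r))⁻¹) (uIcc s b) := by
    rw [uIcc_of_le hsb]
    refine ContinuousOn.inv₀ (by fun_prop) (fun r hr => ?_)
    exact (Real.sqrt_pos.2 (by linarith [hr.2])).ne'
  rw [intervalIntegral.integral_eq_sub_of_hasDerivAt hd hcont.intervalIntegrable]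
  ring

/-- uniqueness for the energy equation -/
theorem unique_energy {c s₀ lam a : ℝ} {q e1 e2 : ℝ → ℝ} (hq : ContinuousOn q (Icc s₀ lam))
    (he1 : ContinuousOn e1 (Icc s₀ lam)) (he2 : ContinuousOn e2 (Icc s₀ lam)) (hla : lam ≤ a)
    (hp1 : ∀ s ∈ Ico s₀ lam, s < e1 s) (hp2 : ∀ s ∈ Ico s₀ lam, s < e2 s)
    (h1 : ∀ s ∈ Icc s₀ lam, e1 s = a - 2 * c * ∫ r in s..lam, q r * √(e1 r - r))
    (h2 : ∀ s ∈ Icc s₀ lam, e2 s = a - 2 * c * ∫ r in s..lam, q r * √(e2 r - r)) :
    ∀ s ∈ Icc s₀ lam, e1 s = e2 s := by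
  intro s hs
  have h0 : s₀ ≤ lam := hs.1.trans hs.2
  have hlam : lam ∈ Icc s₀ lam := ⟨h0, le_rfl⟩
  have t1 : e1 lam = a := by simpa using h1 lam hlam
  have t2 : e2 lam = a := by simpa using h2 lam hlam
  rcases hs.2.eq_or_lt with rfl | hslt
  · rw [t1, t2]
  obtain ⟨κ, hκ, hlow⟩ := lower_energy h0 hq he1 hla hp1 h1
  obtain ⟨M, hM⟩ := isCompact_Icc.exists_bound_of_continuousOn hq
  have hM0 : 0 ≤ M := (norm_nonneg _).trans (hM lam hlam)
  set B : ℝ := 2 * |c| * M / √κ * (2 * √(lam - s₀)) with hB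
  have hκs : 0 < √κ := Real.sqrt_pos.2 hκ
  -- for b < lam
  have key : ∀ b ∈ Ico s lam, |e1 s - e2 s| ≤ |e1 b - e2 b| * Real.exp B := by
    intro b hb
    have hb' : b ∈ Icc s₀ lam := ⟨hs.1.trans hb.1, hb.2.le⟩
    have h := diff_energy hq he1 he2 h1 h2 hb' (fun r hr => hp1 r ⟨hr.1, lt_of_le_of_lt hr.2 hb.2⟩)
      (fun r hr => hp2 r ⟨hr.1, lt_of_le_of_lt hr.2 hb.2⟩) s ⟨hs.1, hb.1⟩
    rw [h, abs_mul, abs_of_pos (Real.exp_pos _)]
    refine mul_le_mul_of_nonneg_left (Real.exp_le_exp.2 ?_) (abs_nonneg _)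
    have hbound : ‖∫ r in s..b, 2 * c * q r / (√(e1 r - r) + √(e2 r - r))‖
        ≤ |∫ r in s..b, 2 * |c| * M / √κ * (√(lam - r))⁻¹| := by
      refine intervalIntegral.norm_integral_le_abs_of_norm_le ?_ ?_
      · refine (ae_restrict_iff' measurableSet_uIoc).2 (Eventually.of_forall (fun r hr => ?_))
        rw [uIoc_of_le hb.1] at hr
        have hr' : r ∈ Icc s₀ lam := ⟨hs.1.trans hr.1.le, hr.2.trans hb.2.le⟩
        have g1 : √κ * √(lam - r) ≤ √(e1 r - r) := by
          rw [← Real.sqrt_mul hκ.le]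
          exact Real.sqrt_le_sqrt (hlow r hr')
        have g2 := Real.sqrt_nonneg (e2 r - r)
        have g3 : 0 < √(lam - r) := Real.sqrt_pos.2 (by linarith [hr.2, hb.2])
        have g4 : 0 < √κ * √(lam - r) := mul_pos hκs g3
        rw [norm_div, norm_mul, norm_mul, Real.norm_eq_abs 2, abs_two, Real.norm_eq_abs c,
          Real.norm_eq_abs (_ + _), abs_of_pos (show 0 < √(e1 r - r) + √(e2 r - r) by linarith)]
        have g5 : 2 * |c| * ‖q r‖ ≤ 2 * |c| * M :=
          mul_le_mul_of_nonneg_left (hM r hr') (by positivity)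
        calc 2 * |c| * ‖q r‖ / (√(e1 r - r) + √(e2 r - r))
            ≤ 2 * |c| * M / (√κ * √(lam - r)) := by
              refine div_le_div₀ (by positivity) g5 g4 (by linarith)
          _ = 2 * |c| * M / √κ * (√(lam - r))⁻¹ := by
              field_simp
      · have hcont : ContinuousOn (fun r => 2 * |c| * M / √κ * (√(lam - r))⁻¹) (uIcc s b) := by
          rw [uIcc_of_le hb.1]
          refine ContinuousOn.mul (by fun_prop) (ContinuousOn.inv₀ (by fun_prop) (fun r hr => ?_))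
          exact (Real.sqrt_pos.2 (by linarith [hr.2, hb.2])).ne'
        exact hcont.intervalIntegrable
    rw [intervalIntegral.integral_const_mul, integral_inv_sqrt_sub hb.1 hb.2] at hbound
    have g6 : |2 * |c| * M / √κ * (2 * √(lam - s) - 2 * √(lam - b))| ≤ B := by
      have g7 : √(lam - b) ≤ √(lam - s) := Real.sqrt_le_sqrt (by linarith [hb.1])
      have g8 : √(lam - s) ≤ √(lam - s₀) := Real.sqrt_le_sqrt (by linarith [hs.1])
      have g9 := Real.sqrt_nonneg (lam - b)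
      rw [abs_of_nonneg (mul_nonneg (by positivity) (by linarith)), hB]
      refine mul_le_mul_of_nonneg_left (by linarith) (by positivity)
    have g10 := hbound.trans g6
    rw [Real.norm_eq_abs] at g10
    linarith [(abs_le.1 g10).1]
  -- let b → lam
  have hlim : Tendsto (fun b => |e1 b - e2 b| * Real.exp B) (𝓝[Ico s lam] lam) (𝓝 0) := by
    have hc : ContinuousWithinAt (fun b => |e1 b - e2 b| * Real.exp B) (Icc s₀ lam) lam :=
      (((he1.sub he2).abs).mul_const _) lam hlam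
    have := hc.tendsto.mono_left (nhdsWithin_mono lam (show Ico s lam ⊆ Icc s₀ lam from
      fun b hb => ⟨hs.1.trans hb.1, hb.2.le⟩))
    simpa [t1, t2] using this
  haveI : (𝓝[Ico s lam] lam).NeBot := by
    rw [← mem_closure_iff_nhdsWithin_neBot, closure_Ico hslt.ne]
    exact ⟨hslt.le, le_rfl⟩
  have hle : |e1 s - e2 s| ≤ 0 := by
    refine ge_of_tendsto hlim ?_
    filter_upwards [self_mem_nhdsWithin] with b hb
    exact key b hb
  have := abs_nonpos_iff.1 hle
  linarith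

/-- causality and uniqueness for `w` -/
theorem WSol.unique {l c : ℝ} {q₁ q₂ : ℝ → ℝ} {w₁ w₂ : ℝ → ℝ → ℝ → ℝ} (H₁ : WSol l c q₁ w₁)
    (H₂ : WSol l c q₂ w₂) {s lam x : ℝ} (h1 : l ≤ s) (h2 : s ≤ lam) (h3 : lam ≤ 1)
    (hx : 0 ≤ x) (hx1 : x ≤ 1) (hx2 : s < lam + x) (hq : ∀ r ∈ Icc s lam, q₁ r = q₂ r) :
    w₁ s lam x = w₂ s lam x := by
  set a := lam + x with ha
  have hax : a - lam = x := by rw [ha]; ring
  have hE : ∀ {q : ℝ → ℝ} {w : ℝ → ℝ → ℝ → ℝ}, WSol l c q w →
      ContinuousOn (fun r => en w r lam a) (Icc s lam) := by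
    intro q w H
    exact (H.cont_en.comp (f := fun r : ℝ => ((r, lam, a) : ℝ × ℝ × ℝ)) (by fun_prop)).continuousOn
  have key := unique_energy (c := c) (s₀ := s) (lam := lam) (a := a) (q := q₁)
    (e1 := fun r => en w₁ r lam a) (e2 := fun r => en w₂ r lam a)
    H₁.hq.continuousOn (hE H₁) (hE H₂) (by linarith)
    (fun r hr => H₁.en_gt (by linarith [hr.2])) (fun r hr => H₂.en_gt (by linarith [hr.2]))
    (fun r hr => H₁.energy (h1.trans hr.1) hr.2 h3 (by linarith) (by linarith))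
    (fun r hr => by
      rw [H₂.energy (h1.trans hr.1) hr.2 h3 (by linarith) (by linarith)]
      congr 2
      refine integral_congr (fun ρ hρ => ?_)
      rw [uIcc_of_le hr.2] at hρ
      beta_reduce
      rw [hq ρ ⟨hr.1.trans hρ.1, hρ.2⟩]) s ⟨le_rfl, h2⟩
  beta_reduce at key
  have k1 := rt_sq (w := w₁) (s := s) (lam := lam) (a := a) hx2.le
  have k2 := rt_sq (w := w₂) (s := s) (lam := lam) (a := a) hx2.le
  have k3 : rt w₁ s lam a = rt w₂ s lam a := by
    refine (sq_eq_sq₀ (H₁.rt_nonneg _ _ _) (H₂.rt_nonneg _ _ _)).1 ?_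
    rw [k1, k2, key]
  unfold rt at k3
  rw [hax] at k3
  have hs : √(a - s) ≠ 0 := (Real.sqrt_pos.2 (by linarith)).ne'
  exact mul_left_cancel₀ hs k3

end Pool.Agent.Unicorn.B2
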