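import Pool.Agent.Unicorn.B0Xi
import Pool.Agent.Unicorn.B2P
import Pool.Agent.Unicorn.B2U

/-!
# Unicorn, Part B, lemma L2: bridge between the Banach space objects (`B0Xi`) and the plain
functions of module B2
-/

set_option autoImplicit false

open Set MeasureTheory intervalIntegral Filter Topology
open scoped BoundedContinuousFunction

namespace Pool.Agent.Unicorn

variable {l : ℝ} [h0 : Fact (0 < l)] [h1 : Fact (l < 1)]

omit h0 in
lemma wt_apply (w : AC l) (p : TT l (Icc 0 1)) : wt w p.s p.lam p.x = w p := by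
  unfold wt
  rw [TT.clamp_self]

omit h0 in
lemma wt_at' (w : AC l) (p : TT l (Icc 0 1)) {r : ℝ} (a1 : l ≤ r) (a2 : r ≤ p.lam) :
    wt w r p.lam p.x = w (p.at' r) := (wt_at (J := ∅) w p a1 a2).symm

/-- a positive solution `w ∈ AC l` of the reduced equation gives a `WSol` -/
theorem wsol_wt {q : XX l} {w : AC l} (hW : w ^ 2 = 1 - (2 : ℝ) • Lop (qT _ q * w))
    (hpos : ∀ p, 0 < w p) : B2.WSol l 1 (qe q) (wt w) where
  hl := h0.out
  hl1 := h1.out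
  hq := continuous_qe q
  hw := continuous_wt w
  pos := fun s lam x => hpos _
  eq := by
    intro s lam x h1 h2 h3 h4 h5
    set p : TT l (Icc 0 1) := TT.mk s lam x h1 h2 h3 ⟨h4, h5⟩ with hp
    have hs : p.s = s := rfl
    have hlam : p.lam = lam := rfl
    have hx : p.x = x := rfl
    have hWp : wt w s lam x = w p := wt_apply w p
    have e1 : w p ^ 2 = 1 - 2 * Lop (qT (Icc 0 1) q * w) p := by
      have := congrArg (fun g : AC l => g p) hW
      exact this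
    have e2 : Lop (qT (Icc 0 1) q * w) p
        = (x + lam - s)⁻¹ * ∫ r in s..lam, √(x + lam - r) * qe q r * wt w r lam x := by
      rw [Lop_apply]
      show (p.x + p.lam - p.s)⁻¹ * _ = _
      rw [hs, hlam, hx]
      congr 1
      refine integral_congr (fun r hr => ?_)
      rw [uIcc_of_le h2] at hr
      have hr1 : l ≤ r := h1.trans hr.1
      have e3 : (qT (Icc 0 1) q * w) (p.at' r) = qe q r * wt w r lam x := by
        have := wt_at' w p hr1 hr.2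
        rw [hlam, hx] at this
        rw [this]
        show qT (Icc 0 1) q (p.at' r) * w (p.at' r) = _
        rw [qT_apply', p.at'_s hr1 hr.2]
      beta_reduce
      rw [e3]
      ring
    rw [hWp, e1, e2]
    by_cases hz : x + lam - s = 0
    · have hlx : lam = s := by linarith
      have hx0 : x = 0 := by linarith
      subst hlx
      rw [hx0]
      simp
    · field_simp

section general

variable {q : XX l} {w : AC l}

omit h0 h1 in
lemma pos_of_near (hn : ‖w - 1‖ ≤ 1 / 2) (p : TT l (Icc 0 1)) : 0 < w p :=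
  lt_of_lt_of_le (by norm_num) (B1.half_le_of_norm_sub_one hn p)

omit h0 h1 in
lemma uC_apply (hn : ‖w - 1‖ ≤ 1 / 2) (p : TT l (Icc 0 1)) : (uC w) p = (w p)⁻¹ :=
  B1.inverse_apply (B1.isUnit_of_norm_sub_one hn) p

lemma eC_apply (w : AC l) (p : TT l (Icc 0 1)) : (eC w) p = p.s + p.rho * w p ^ 2 := rfl

lemma eC_ge (w : AC l) (p : TT l (Icc 0 1)) : l ≤ (eC w) p := by
  rw [eC_apply]
  have := p.l_le_s
  have := p.rho_nonneg
  have := mul_nonneg p.rho_nonneg (sq_nonneg (w p))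
  linarith

lemma isUnit_eC (w : AC l) : IsUnit (eC w) := B1.isUnit_of_le h0.out (eC_ge w)

lemma eC_eq_en (w : AC l) (p : TT l (Icc 0 1)) :
    (eC w) p = B2.en (wt w) p.s p.lam (p.lam + p.x) := by
  rw [eC_apply]
  unfold B2.en TT.rho
  rw [add_sub_cancel_left, wt_apply]
  ring

lemma eC_eq_eT (w : AC l) (p : TT l (Icc 0 1)) :
    (eC w) p = B2.eT l (wt w) p.s p.lam p.x := by
  unfold B2.eT
  rw [← eC_eq_en, max_eq_right (eC_ge w p)]

lemma ieC_apply (w : AC l) (p : TT l (Icc 0 1)) :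
    (ieC w) p = (B2.eT l (wt w) p.s p.lam p.x)⁻¹ := by
  rw [← eC_eq_eT]
  exact B1.inverse_apply (isUnit_eC w) p

/-- `p = exp(-Mop(q/w))` -/
lemma pC_apply (hn : ‖w - 1‖ ≤ 1 / 2) (p : TT l (Icc 0 1)) :
    (pC q w) p = B2.pT 1 (qe q) (wt w) p.s p.lam p.x := by
  rw [B2.pT_eq p.s_le_lam p.x_mem.1]
  unfold pC
  rw [B1.exp_apply]
  change Real.exp (-(Mop (qT (Icc 0 1) q * uC w) p)) = _
  rw [Mop_apply]
  unfold B2.pp
  rw [one_mul]
  congr 2
  refine integral_congr (fun r hr => ?_)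
  rw [uIcc_of_le p.s_le_lam] at hr
  have hr1 : l ≤ r := p.l_le_s.trans hr.1
  beta_reduce
  have e3 : (qT (Icc 0 1) q * uC w) (p.at' r) = qe q r * (w (p.at' r))⁻¹ := by
    show qT (Icc 0 1) q (p.at' r) * (uC w) (p.at' r) = _
    rw [qT_apply', p.at'_s hr1 hr.2, uC_apply hn]
  rw [e3]
  unfold B2.rt
  have e4 : p.lam + p.x - p.lam = p.x := by ring
  rw [e4, wt_at' w p hr1 hr.2, add_comm p.x p.lam, div_eq_mul_inv, mul_inv]
  ring

lemma RT_at (p : TT l (Ioo 0 1)) {r : ℝ} (a1 : l ≤ r) (a2 : r ≤ p.lam) :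
    B2.RT (wt w) r p.lam p.x = √(p.x + p.lam - r) * w (p.at' r).incl := by
  rw [B2.RT_eq a2]
  unfold B2.rt
  have e4 : p.lam + p.x - p.lam = p.x := by ring
  have e5 : wt w r p.lam p.x = w (p.at' r).incl := wt_at' w p.incl a1 a2
  rw [e4, e5, add_comm p.lam p.x]

/-- `√x ∫ q p (e-r)^{-3/2}` -/
lemma Q3_apply (hn : ‖w - 1‖ ≤ 1 / 2) (p : TT l (Ioo 0 1)) :
    (Q3 q w) p = √p.x * B2.m3T 1 (qe q) (wt w) p.s p.lam p.x := by
  unfold Q3 B2.m3T
  rw [M3op_apply']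
  congr 1
  refine integral_congr (fun r hr => ?_)
  rw [uIcc_of_le p.s_le_lam] at hr
  have hr1 : l ≤ r := p.l_le_s.trans hr.1
  beta_reduce
  have e3 : (res (qT (Icc 0 1) q * pC q w * uC w ^ 3)) (p.at' r)
      = qe q r * B2.pT 1 (qe q) (wt w) r p.lam p.x * ((w (p.at' r).incl)⁻¹) ^ 3 := by
    show qT (Icc 0 1) q (p.at' r).incl * (pC q w) (p.at' r).incl * ((uC w) (p.at' r).incl) ^ 3 = _
    rw [qT_apply', pC_apply hn, uC_apply hn]
    have a1 : (p.at' r).incl.s = r := p.at'_s hr1 hr.2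
    have a2 : (p.at' r).incl.lam = p.lam := rfl
    have a3 : (p.at' r).incl.x = p.x := rfl
    rw [a1, a2, a3]
  rw [e3, RT_at p hr1 hr.2, div_eq_mul_inv, mul_pow, mul_inv, inv_pow]
  ring

/-- `√x ∂_a p` -/
lemma P1_apply (hn : ‖w - 1‖ ≤ 1 / 2) (p : TT l (Ioo 0 1)) :
    (P1 q w) p = √p.x * B2.p1T 1 (qe q) (wt w) p.s p.lam p.x := by
  show (1 / 2 : ℝ) * ((pC q w) p.incl * (Q3 q w) p) = _
  rw [Q3_apply hn, pC_apply hn]
  unfold B2.p1T
  have a1 : p.incl.s = p.s := rfl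
  have a2 : p.incl.lam = p.lam := rfl
  have a3 : p.incl.x = p.x := rfl
  rw [a1, a2, a3]
  ring

/-- `x√x ∂_a ∫ q p (e-r)^{-3/2}` -/
lemma dQ3_apply (hn : ‖w - 1‖ ≤ 1 / 2) (p : TT l (Ioo 0 1)) :
    (dQ3 q w) p = p.x * √p.x * B2.dm3T 1 (qe q) (wt w) p.s p.lam p.x := by
  have hsx : 0 < √p.x := Real.sqrt_pos.2 p.x_mem.1
  have hxx : √p.x * √p.x = p.x := Real.mul_self_sqrt p.x_mem.1.le
  have H : ∀ r ∈ Icc p.s p.lam, 0 < √(p.x + p.lam - r) := fun r hr =>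
    Real.sqrt_pos.2 (by linarith [hr.2, p.x_mem.1])
  show √p.x * (M3op (qT (Ioo 0 1) q * P1 q w * res (uC w ^ 3) : AO l)) p
    - (3 / 2 : ℝ) * (M5op (res (qT (Icc 0 1) q * pC q w ^ 2 * uC w ^ 5))) p = _
  rw [M3op_apply', M5op_apply']
  have i1 : IntervalIntegrable (fun r => (√(p.x + p.lam - r) ^ 3)⁻¹
      * (qT (Ioo 0 1) q * P1 q w * res (uC w ^ 3) : AO l) (p.at' r)) volume p.s p.lam := by
    refine ContinuousOn.intervalIntegrable ?_
    rw [uIcc_of_le p.s_le_lam]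
    refine ContinuousOn.mul (ContinuousOn.inv₀ (by fun_prop) (fun r hr => (pow_pos (H r hr) 3).ne')) ?_
    exact ((qT (Ioo 0 1) q * P1 q w * res (uC w ^ 3) : AO l).continuous.comp p.cont_at).continuousOn
  have i2 : IntervalIntegrable (fun r => (√(p.x + p.lam - r) ^ 5)⁻¹
      * (res (qT (Icc 0 1) q * pC q w ^ 2 * uC w ^ 5)) (p.at' r)) volume p.s p.lam := by
    refine ContinuousOn.intervalIntegrable ?_
    rw [uIcc_of_le p.s_le_lam]
    refine ContinuousOn.mul (ContinuousOn.inv₀ (by fun_prop) (fun r hr => (pow_pos (H r hr) 5).ne')) ?_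
    exact ((res (qT (Icc 0 1) q * pC q w ^ 2 * uC w ^ 5)).continuous.comp p.cont_at).continuousOn
  unfold B2.dm3T
  rw [← mul_assoc, ← mul_assoc, hxx, ← intervalIntegral.integral_const_mul,
    ← intervalIntegral.integral_const_mul, ← intervalIntegral.integral_const_mul,
    ← intervalIntegral.integral_sub (i1.const_mul _) (i2.const_mul _)]
  refine integral_congr (fun r hr => ?_)
  rw [uIcc_of_le p.s_le_lam] at hr
  have hr1 : l ≤ r := p.l_le_s.trans hr.1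
  beta_reduce
  have a1 : (p.at' r).incl.s = r := p.at'_s hr1 hr.2
  have a1' : (p.at' r).s = r := p.at'_s hr1 hr.2
  have a2 : (p.at' r).incl.lam = p.lam := rfl
  have a3 : (p.at' r).incl.x = p.x := rfl
  have e3 : (qT (Ioo 0 1) q * P1 q w * res (uC w ^ 3) : AO l) (p.at' r)
      = qe q r * (√p.x * B2.p1T 1 (qe q) (wt w) r p.lam p.x) * ((w (p.at' r).incl)⁻¹) ^ 3 := by
    show qT (Ioo 0 1) q (p.at' r) * (P1 q w) (p.at' r) * ((uC w) (p.at' r).incl) ^ 3 = _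
    rw [qT_apply', P1_apply hn, uC_apply hn, a1']
    rfl
  have e4 : (res (qT (Icc 0 1) q * pC q w ^ 2 * uC w ^ 5)) (p.at' r)
      = qe q r * B2.pT 1 (qe q) (wt w) r p.lam p.x ^ 2 * ((w (p.at' r).incl)⁻¹) ^ 5 := by
    show qT (Icc 0 1) q (p.at' r).incl * (pC q w) (p.at' r).incl ^ 2
      * ((uC w) (p.at' r).incl) ^ 5 = _
    rw [qT_apply', pC_apply hn, uC_apply hn, a1, a2, a3]
  have hR := H r hr
  have hw : 0 < w (p.at' r).incl := pos_of_near hn _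
  rw [e3, e4, RT_at p hr1 hr.2]
  have h3 : √p.x ^ 3 = p.x * √p.x := by rw [pow_succ, sq, hxx]
  rw [h3]
  field_simp

/-- `x√x ∂_a² p` -/
lemma P2_apply (hn : ‖w - 1‖ ≤ 1 / 2) (p : TT l (Ioo 0 1)) :
    (P2 q w) p = p.x * √p.x * B2.p2T 1 (qe q) (wt w) p.s p.lam p.x := by
  have hxx : √p.x * √p.x = p.x := Real.mul_self_sqrt p.x_mem.1.le
  show (1 / 2 : ℝ) * (√p.x * (P1 q w) p * (Q3 q w) p + (pC q w) p.incl * (dQ3 q w) p) = _
  rw [Q3_apply hn, pC_apply hn, P1_apply hn, dQ3_apply hn]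
  unfold B2.p2T
  have a1 : p.incl.s = p.s := rfl
  have a2 : p.incl.lam = p.lam := rfl
  have a3 : p.incl.x = p.x := rfl
  rw [a1, a2, a3]
  linear_combination (√p.x * B2.p1T 1 (qe q) (wt w) p.s p.lam p.x
    * B2.m3T 1 (qe q) (wt w) p.s p.lam p.x / 2) * hxx

/-- `a² p/e²` -/
lemma K0_apply (hn : ‖w - 1‖ ≤ 1 / 2) (p : TT l (Icc 0 1)) :
    (K0 q w) p = B2.K0 l 1 (qe q) (wt w) p.s p.lam p.x := by
  show (p.x + p.lam) ^ 2 * (pC q w) p * ((ieC w) p) ^ 2 = _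
  rw [pC_apply hn, ieC_apply]
  unfold B2.K0 B2.k0T
  rw [inv_pow, div_eq_mul_inv, add_comm p.x p.lam]
  ring

/-- `√x ∂_x K0` -/
lemma K1_apply (hn : ‖w - 1‖ ≤ 1 / 2) (p : TT l (Ioo 0 1)) :
    (K1 q w) p = B2.K1 l 1 (qe q) (wt w) p.s p.lam p.x := by
  show √p.x * ((2 : ℝ) * ((p.x + p.lam) * (pC q w) p.incl * ((ieC w) p.incl) ^ 2)
      - (2 : ℝ) * ((p.x + p.lam) ^ 2 * (pC q w) p.incl ^ 2 * ((ieC w) p.incl) ^ 3))
    + ((p.x + p.lam) ^ 2 * ((ieC w) p.incl) ^ 2) * (P1 q w) p = _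
  rw [pC_apply hn, ieC_apply, P1_apply hn]
  have a1 : p.incl.s = p.s := rfl
  have a2 : p.incl.lam = p.lam := rfl
  have a3 : p.incl.x = p.x := rfl
  rw [a1, a2, a3]
  unfold B2.K1 B2.k0T B2.k1T
  simp only [inv_pow, div_eq_mul_inv]
  rw [add_comm p.x p.lam]
  ring

/-- `x√x ∂_x² K0` -/
lemma K2_apply (hn : ‖w - 1‖ ≤ 1 / 2) (p : TT l (Ioo 0 1)) :
    (K2 q w) p = B2.K2 l 1 (qe q) (wt w) p.s p.lam p.x := by
  have hxx : √p.x * √p.x = p.x := Real.mul_self_sqrt p.x_mem.1.le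
  have h3 : √p.x ^ 3 = p.x * √p.x := by rw [pow_succ, sq, hxx]
  have h2 : √p.x ^ 2 = p.x := by rw [sq, hxx]
  show √p.x ^ 3 * ((2 : ℝ) * ((pC q w) p.incl * ((ieC w) p.incl) ^ 2)
      - (8 : ℝ) * ((p.x + p.lam) * (pC q w) p.incl ^ 2 * ((ieC w) p.incl) ^ 3)
      + (6 : ℝ) * ((p.x + p.lam) ^ 2 * (pC q w) p.incl ^ 3 * ((ieC w) p.incl) ^ 4))
    + √p.x ^ 2 * (((4 : ℝ) * ((p.x + p.lam) * ((ieC w) p.incl) ^ 2)
      - (6 : ℝ) * ((p.x + p.lam) ^ 2 * (pC q w) p.incl * ((ieC w) p.incl) ^ 3)) * (P1 q w) p)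
    + ((p.x + p.lam) ^ 2 * ((ieC w) p.incl) ^ 2) * (P2 q w) p = _
  rw [pC_apply hn, ieC_apply, P1_apply hn, P2_apply hn, h3, h2]
  have a1 : p.incl.s = p.s := rfl
  have a2 : p.incl.lam = p.lam := rfl
  have a3 : p.incl.x = p.x := rfl
  rw [a1, a2, a3]
  unfold B2.K2 B2.k0T B2.k1T B2.k2T
  simp only [inv_pow, div_eq_mul_inv]
  rw [add_comm p.x p.lam]
  ring

/-- `N` -/
lemma NN_apply (hn : ‖w - 1‖ ≤ 1 / 2) (f : XX l) (d : DD l (Icc 0 1)) :
    (NN q w f) d = B2.NN l 1 (qe q) (qe f) (wt w) d.lam d.x := by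
  show (2 : ℝ) * (Iop _ (qT _ f * K0 q w)) d = _
  rw [Iop_apply, B2.NN_eq]
  congr 1
  refine integral_congr (fun r hr => ?_)
  rw [uIcc_of_le d.l_le] at hr
  beta_reduce
  congr 1
  show qT (Icc 0 1) f (d.at' r) * (K0 q w) (d.at' r) = _
  rw [qT_apply', K0_apply hn, d.at'_s hr.1 hr.2]
  rfl

/-- `√x ∂_x N` -/
lemma nn1_apply (hW : w ^ 2 = 1 - (2 : ℝ) • Lop (qT _ q * w)) (hn : ‖w - 1‖ ≤ 1 / 2) (f : XX l)
    (d : DD l (Ioo 0 1)) :
    (nn1 q w f) d = B2.NN1 l 1 (qe q) (qe f) (wt w) d.lam d.x := by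
  show (2 : ℝ) * (Iop _ (qT _ f * K1 q w)) d = _
  rw [Iop_apply, (wsol_wt hW (pos_of_near hn)).NN1_eq (continuous_qe f) d.x_mem.1]
  congr 1
  refine integral_congr (fun r hr => ?_)
  rw [uIcc_of_le d.l_le] at hr
  beta_reduce
  congr 1
  show qT (Ioo 0 1) f (d.at' r) * (K1 q w) (d.at' r) = _
  rw [qT_apply', K1_apply hn, d.at'_s hr.1 hr.2]
  rfl

/-- `x√x ∂_x² N` -/
lemma nn2_apply (hW : w ^ 2 = 1 - (2 : ℝ) • Lop (qT _ q * w)) (hn : ‖w - 1‖ ≤ 1 / 2) (f : XX l)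
    (d : DD l (Ioo 0 1)) :
    (nn2 q w f) d = B2.NN2 l 1 (qe q) (qe f) (wt w) d.lam d.x := by
  show (2 : ℝ) * (Iop _ (qT _ f * K2 q w)) d = _
  rw [Iop_apply, (wsol_wt hW (pos_of_near hn)).NN2_eq (continuous_qe f) d.x_mem.1]
  congr 1
  refine integral_congr (fun r hr => ?_)
  rw [uIcc_of_le d.l_le] at hr
  beta_reduce
  congr 1
  show qT (Ioo 0 1) f (d.at' r) * (K2 q w) (d.at' r) = _
  rw [qT_apply', K2_apply hn, d.at'_s hr.1 hr.2]
  rfl

end general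

section WW

/-- (L2) `W(q)` is a solution in the sense of module B2 -/
theorem WW_sol {q : XX l} (hq : ‖q‖ < rr l) : B2.WSol l 1 (qe q) (wt (WW q)) :=
  wsol_wt (WW_eq hq) (pos_of_near (WW_near hq))

/-- the energy `E` is the energy of module B2 -/
lemma Ee_eq_en {q : XX l} {s a : ℝ} : Ee q s a = B2.en (wt (WW q)) s a a := by
  unfold Ee B2.en
  rw [sub_self]

end WW

end Pool.Agent.Unicorn
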