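import Pool.Agent.Unicorn.B0Xi
import Pool.Agent.Unicorn.B2P

/-!
# Unicorn, Part B: the bridge `Yop = YY` and the fields `abel`, `T_eq` of `ESys`
-/

set_option autoImplicit false

open Set MeasureTheory intervalIntegral Filter Topology
open scoped ContDiff BoundedContinuousFunction

namespace Pool.Agent.Unicorn

variable {l : ℝ}

/-- `hdK` only depends on the values on `(0,β)` -/
lemma hdK_congr {g h : ℝ → ℝ} {β : ℝ} (hβ : 0 < β) (hgh : ∀ y ∈ Ioo 0 β, g y = h y) :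
    hdK g β = hdK h β := by
  unfold hdK
  congr 1
  rw [intervalIntegral.integral_of_le zero_le_one, intervalIntegral.integral_of_le zero_le_one,
    integral_Ioc_eq_integral_Ioo, integral_Ioc_eq_integral_Ioo]
  apply setIntegral_congr_fun measurableSet_Ioo
  intro t ht
  simp only
  rw [hgh (β * t) ⟨mul_pos hβ ht.1, by nlinarith [ht.2]⟩]

section

variable [h0 : Fact (0 < l)] [h1 : Fact (l < 1)]

/-- pointwise evaluation of the kernels (module L2) -/
structure KEval (l : ℝ) [h0 : Fact (0 < l)] [h1 : Fact (l < 1)] (q : XX l) : Prop where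
  W : B2.WSol l 1 (qe q) (wt (WW q))
  k0 : ∀ p : TT l (Icc 0 1), K0 q (WW q) p = B2.K0 l 1 (qe q) (wt (WW q)) p.s p.lam p.x
  k1 : ∀ p : TT l (Ioo 0 1), K1 q (WW q) p = B2.K1 l 1 (qe q) (wt (WW q)) p.s p.lam p.x
  k2 : ∀ p : TT l (Ioo 0 1), K2 q (WW q) p = B2.K2 l 1 (qe q) (wt (WW q)) p.s p.lam p.x

variable {q : XX l}

lemma NN_bridge (H : KEval l q) (f : XX l) (d : DD l (Icc 0 1)) :
    NN q (WW q) f d = B2.NN l 1 (qe q) (qe f) (wt (WW q)) d.lam d.x := by
  rw [B2.NN_eq]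
  change 2 * (Iop _ (qT _ f * K0 q (WW q))) d = _
  rw [Iop_apply]
  congr 1
  apply intervalIntegral.integral_congr
  intro r hr
  rw [uIcc_of_le d.l_le] at hr
  simp only
  congr 1
  change qT _ f (d.at' r) * K0 q (WW q) (d.at' r) = _
  rw [H.k0, qT_apply', d.at'_s hr.1 hr.2, DD.at'_lam, DD.at'_x]

lemma nn1_bridge (H : KEval l q) (f : XX l) (d : DD l (Ioo 0 1)) :
    nn1 q (WW q) f d = B2.NN1 l 1 (qe q) (qe f) (wt (WW q)) d.lam d.x := by
  rw [H.W.NN1_eq (continuous_qe f) d.x_mem.1]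
  change 2 * (Iop _ (qT _ f * K1 q (WW q))) d = _
  rw [Iop_apply]
  congr 1
  apply intervalIntegral.integral_congr
  intro r hr
  rw [uIcc_of_le d.l_le] at hr
  simp only
  congr 1
  change qT _ f (d.at' r) * K1 q (WW q) (d.at' r) = _
  rw [H.k1, qT_apply', d.at'_s hr.1 hr.2, DD.at'_lam, DD.at'_x]

lemma nn2_bridge (H : KEval l q) (f : XX l) (d : DD l (Ioo 0 1)) :
    nn2 q (WW q) f d = B2.NN2 l 1 (qe q) (qe f) (wt (WW q)) d.lam d.x := by
  rw [H.W.NN2_eq (continuous_qe f) d.x_mem.1]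
  change 2 * (Iop _ (qT _ f * K2 q (WW q))) d = _
  rw [Iop_apply]
  congr 1
  apply intervalIntegral.integral_congr
  intro r hr
  rw [uIcc_of_le d.l_le] at hr
  simp only
  congr 1
  change qT _ f (d.at' r) * K2 q (WW q) (d.at' r) = _
  rw [H.k2, qT_apply', d.at'_s hr.1 hr.2, DD.at'_lam, DD.at'_x]

/-- the bridge -/
theorem Yop_bridge (H : KEval l q) (g f : XX l) (b : Icc l 1) :
    Yop q (WW q) g f b = B2.YY l 1 (qe q) (qe g) (qe f) (wt (WW q)) b := by
  have hl := h0.out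
  unfold Yop B2.YY
  rw [ContinuousMap.add_apply, ContinuousMap.mul_apply, diagC_apply, NN_bridge H, Bop_apply,
    qe_apply g b]
  congr 1
  rw [intervalIntegral.integral_of_le b.2.1, intervalIntegral.integral_of_le b.2.1,
    integral_Ioc_eq_integral_Ioo, integral_Ioc_eq_integral_Ioo]
  apply setIntegral_congr_fun measurableSet_Ioo
  intro s hs
  have hs1 : s ∈ Icc l 1 := ⟨hs.1.le, hs.2.le.trans b.2.2⟩
  have hb : b.1 - s ∈ Ioo (0:ℝ) 1 := ⟨by linarith [hs.2], by linarith [hs.1, b.2.2]⟩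
  simp only
  congr 2
  unfold kap
  rw [Hop_e _ hs1 hb]
  apply hdK_congr hb.1
  intro y hy
  have hy1 : y ∈ Ioo (0:ℝ) 1 := ⟨hy.1, hy.2.trans hb.2⟩
  rw [BoundedContinuousFunction.coe_add, DD.e_add, DD.e_of_mem (⇑((2:ℝ) • nn1 q (WW q) f)) hs1.1 hs1.2 hy1,
    DD.e_of_mem (⇑(nn2 q (WW q) f)) hs1.1 hs1.2 hy1, nn2_bridge H]
  congr 1
  change 2 * nn1 q (WW q) f _ = _
  rw [nn1_bridge H]
  rfl

omit h1 in
lemma NN_smul (q : XX l) (w : AC l) (c : ℝ) (f : XX l) : NN q w (c • f) = c • NN q w f := by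
  unfold NN
  rw [map_smul, smul_mul_assoc, map_smul, smul_comm]

omit h1 in
lemma nn1_smul (q : XX l) (w : AC l) (c : ℝ) (f : XX l) : nn1 q w (c • f) = c • nn1 q w f := by
  unfold nn1
  rw [map_smul, smul_mul_assoc, map_smul, smul_comm]

omit h1 in
lemma nn2_smul (q : XX l) (w : AC l) (c : ℝ) (f : XX l) : nn2 q w (c • f) = c • nn2 q w f := by
  unfold nn2
  rw [map_smul, smul_mul_assoc, map_smul, smul_comm]

omit h1 in
lemma kap_smul (q : XX l) (w : AC l) (c : ℝ) (f : XX l) : kap q w (c • f) = c • kap q w f := by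
  unfold kap
  rw [nn1_smul, nn2_smul, smul_comm, ← smul_add, map_smul]

/-- homogeneity of `Yop` in `(g,f)` -/
lemma Yop_smul (q : XX l) (w : AC l) (c : ℝ) (g f : XX l) :
    Yop q w (c • g) (c • f) = c ^ 2 • Yop q w g f := by
  unfold Yop
  rw [NN_smul, kap_smul, map_smul, map_smul, map_smul, smul_mul_smul_comm, ContinuousLinearMap.smul_apply,
    smul_smul, ← sq, smul_add]

/-- the main identity for one sign -/
theorem phi_identity (H : KEval l q) (a : Icc l 1) :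
    (a : ℝ) ^ 2 * ((∫ s in l..a, qe q s * √s / Ee q s a) - (∫ s in l..a, qe q s * √s) / a)
      = Aop (Yop q (WW q) q q) a := by
  have h := H.W.main_identity a.2.1 a.2.2
  rw [one_mul] at h
  have e1 : ∀ s, B2.en (wt (WW q)) s a a = Ee q s a := by
    intro s
    unfold B2.en Ee
    rw [sub_self]
  simp only [e1] at h
  rw [h, Aop_apply]
  apply intervalIntegral.integral_congr
  intro b hb
  rw [uIcc_of_le a.2.1] at hb
  have hb1 : b ∈ Icc l 1 := ⟨hb.1, hb.2.trans a.2.2⟩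
  simp only
  rw [qe_of_mem _ hb1, Yop_bridge H]

/-- the field `abel` of `ESys` -/
theorem abel_field (ε : ℝ) (q : XX l) (a : Icc l 1) :
    (a : ℝ) ^ 2 * Tt ε q a = ∫ b in l..a, √(a - b) * Xi ε q (projIcc l 1 h1.out.le b) := by
  unfold Tt
  rw [ContinuousMap.mul_apply, invsq_apply, Aop_apply]
  have ha : (0 : ℝ) < a := lt_of_lt_of_le h0.out a.2.1
  rw [← mul_assoc, mul_inv_cancel₀ (by positivity), one_mul]
  rfl

/-- the field `T_eq` of `ESys` -/
theorem T_field {ε : ℝ} {q : XX l} (Hp : KEval l (ε • q)) (Hm : KEval l (-(ε • q)))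
    (a : Icc l 1) :
    ε ^ 2 * Tt ε q a
      = (∫ s in l..a, (ε • q) (projIcc l 1 h1.out.le s) * √s / Ee (ε • q) s a)
        + ∫ s in l..a, (-(ε • q)) (projIcc l 1 h1.out.le s) * √s / Ee (-(ε • q)) s a := by
  have ha : (0 : ℝ) < a := lt_of_lt_of_le h0.out a.2.1
  have h2 := phi_identity Hp a
  have h3 := phi_identity Hm a
  rw [Yop_smul] at h2
  have e1 : -(ε • q) = (-ε) • q := by rw [neg_smul]
  have h4 : Yop (-(ε • q)) (WW (-(ε • q))) (-(ε • q)) (-(ε • q))
      = ε ^ 2 • Yop (-(ε • q)) (WW (-(ε • q))) q q := by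
    conv_lhs => rw [show Yop (-(ε • q)) (WW (-(ε • q))) (-(ε • q)) (-(ε • q))
      = Yop (-(ε • q)) (WW (-(ε • q))) ((-ε) • q) ((-ε) • q) by rw [← e1]]
    rw [Yop_smul, neg_sq]
  rw [h4] at h3
  have h5 : ∫ s in l..a, qe (-(ε • q)) s * √s = -∫ s in l..a, qe (ε • q) s * √s := by
    rw [← intervalIntegral.integral_neg]
    apply intervalIntegral.integral_congr
    intro s _
    have : qe (-(ε • q)) s = -qe (ε • q) s := rfl
    simp only [this]
    ring
  rw [h5] at h3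
  have h6 : (a : ℝ) ^ 2 * ((∫ s in l..a, qe (ε • q) s * √s / Ee (ε • q) s a)
      + ∫ s in l..a, qe (-(ε • q)) s * √s / Ee (-(ε • q)) s a) = ε ^ 2 * Aop (Xi ε q) a := by
    have h7 : Aop (Xi ε q) a = Aop (Yop (ε • q) (WW (ε • q)) q q) a
        + Aop (Yop (-(ε • q)) (WW (-(ε • q))) q q) a := by
      unfold Xi
      rw [map_add]
      rfl
    rw [map_smul, ContinuousMap.smul_apply, smul_eq_mul] at h2 h3
    rw [h7, mul_add, mul_add, ← h2, ← h3]
    ring
  unfold Tt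
  rw [ContinuousMap.mul_apply, invsq_apply, mul_left_comm, ← h6, ← mul_assoc,
    inv_mul_cancel₀ (by positivity), one_mul]
  rfl

end

end Pool.Agent.Unicorn
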