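import Pool.Agent.Unicorn.B0Xi
import Pool.Agent.Unicorn.B2U

/-!
# Unicorn, module B7, L6: causality of `Ξ`, `Ξ` at the left end point, `Ξ(0,·)`
-/

set_option autoImplicit false

open Set MeasureTheory intervalIntegral Filter Topology
open scoped ContDiff BoundedContinuousFunction

namespace Pool.Agent.Unicorn

namespace L6

variable {l : ℝ} {J : Set ℝ}

/-- two functions on the triangle domain agree for `λ ≤ b` -/
def Ag (b : ℝ) (g h : TT l J →ᵇ ℝ) : Prop := ∀ p, p.lam ≤ b → g p = h p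
/-- two functions of `(λ,x)` agree for `λ ≤ b` -/
def AgD (b : ℝ) (g h : DD l J →ᵇ ℝ) : Prop := ∀ p, p.lam ≤ b → g p = h p

variable {b : ℝ}

section basic

variable {g h g' h' : TT l J →ᵇ ℝ}

lemma Ag.refl (g : TT l J →ᵇ ℝ) : Ag b g g := fun _ _ => rfl

lemma Ag.add (H : Ag b g h) (H' : Ag b g' h') : Ag b (g + g') (h + h') := fun p hp => by
  simp only [BoundedContinuousFunction.coe_add, Pi.add_apply, H p hp, H' p hp]

lemma Ag.sub (H : Ag b g h) (H' : Ag b g' h') : Ag b (g - g') (h - h') := fun p hp => by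
  simp only [BoundedContinuousFunction.coe_sub, Pi.sub_apply, H p hp, H' p hp]

lemma Ag.mul (H : Ag b g h) (H' : Ag b g' h') : Ag b (g * g') (h * h') := fun p hp => by
  simp only [BoundedContinuousFunction.coe_mul, Pi.mul_apply, H p hp, H' p hp]

lemma Ag.neg (H : Ag b g h) : Ag b (-g) (-h) := fun p hp => by
  simp only [BoundedContinuousFunction.coe_neg, Pi.neg_apply, H p hp]

lemma Ag.smul (c : ℝ) (H : Ag b g h) : Ag b (c • g) (c • h) := fun p hp => by
  simp only [BoundedContinuousFunction.coe_smul, H p hp]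

lemma Ag.pow (n : ℕ) (H : Ag b g h) : Ag b (g ^ n) (h ^ n) := by
  induction n with
  | zero => rw [pow_zero, pow_zero]; exact Ag.refl _
  | succ n ih => rw [pow_succ, pow_succ]; exact ih.mul H

lemma inverse_apply {w : TT l J →ᵇ ℝ} (hw : IsUnit w) (p : TT l J) :
    (Ring.inverse w) p = (w p)⁻¹ := by
  have h1 : Ring.inverse w * w = 1 := Ring.inverse_mul_cancel _ hw
  have h2 : (Ring.inverse w) p * w p = 1 := by
    have := congrArg (fun g : TT l J →ᵇ ℝ => g p) h1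
    simpa using this
  exact eq_inv_of_mul_eq_one_left h2

lemma Ag.inverse (hg : IsUnit g) (hh : IsUnit h) (H : Ag b g h) :
    Ag b (Ring.inverse g) (Ring.inverse h) := fun p hp => by
  rw [inverse_apply hg, inverse_apply hh, H p hp]

/-- evaluation as a ring homomorphism -/
noncomputable def evR (p : TT l J) : (TT l J →ᵇ ℝ) →+* ℝ where
  toFun g := g p
  map_one' := rfl
  map_mul' _ _ := rfl
  map_zero' := rfl
  map_add' _ _ := rfl

lemma exp_apply (g : TT l J →ᵇ ℝ) (p : TT l J) : (NormedSpace.exp g) p = Real.exp (g p) := by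
  have h := NormedSpace.map_exp (evR p) (by
    change Continuous (fun g : TT l J →ᵇ ℝ => g p)
    exact (BoundedContinuousFunction.evalCLM ℝ p).continuous) g
  rw [Real.exp_eq_exp_ℝ]
  exact h

lemma Ag.exp (H : Ag b g h) : Ag b (NormedSpace.exp g) (NormedSpace.exp h) := fun p hp => by
  rw [exp_apply, exp_apply, H p hp]

lemma Ag.Iop [Fact (0 < l)] [LocallyCompactSpace (DD l J)] (H : Ag b g h) :
    AgD b (Iop J g) (Iop J h) := fun d hd => by
  rw [Iop_apply, Iop_apply]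
  refine integral_congr (fun r _ => ?_)
  rw [H (d.at' r) hd]

end basic

section basicD

variable {g h g' h' : DD l J →ᵇ ℝ}

lemma AgD.add (H : AgD b g h) (H' : AgD b g' h') : AgD b (g + g') (h + h') := fun p hp => by
  simp only [BoundedContinuousFunction.coe_add, Pi.add_apply, H p hp, H' p hp]

lemma AgD.smul (c : ℝ) (H : AgD b g h) : AgD b (c • g) (c • h) := fun p hp => by
  simp only [BoundedContinuousFunction.coe_smul, H p hp]

lemma AgD.e (H : AgD b g h) {lam x : ℝ} (hl : lam ≤ b) : DD.e g lam x = DD.e h lam x := by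
  unfold DD.e
  split
  · rename_i h1
    exact H _ hl
  · rfl

end basicD

lemma AgD.Hop {g h : DO l} (H : AgD b g h) : AgD b (Hop g) (Hop h) := fun d hd => by
  have e : (fun y => DD.e g d.lam y) = fun y => DD.e h d.lam y := by
    funext y
    exact H.e hd
  change hdK (fun y => DD.e g d.lam y) d.x = hdK (fun y => DD.e h d.lam y) d.x
  rw [e]

lemma Ag.Mop [Fact (0 < l)] {g h : AC l} (H : Ag b g h) : Ag b (Mop g) (Mop h) := fun p hp => by
  rw [Mop_apply_u, Mop_apply_u]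
  congr 1
  refine integral_congr (fun r _ => ?_)
  exact H (p.atu r) hp

lemma Ag.M3op {g h : AO l} (H : Ag b g h) : Ag b (M3op g) (M3op h) := fun p hp => by
  rw [M3op_apply, M3op_apply]
  congr 1
  refine integral_congr (fun r _ => ?_)
  rw [H (p.at' r) hp]

lemma Ag.M5op {g h : AO l} (H : Ag b g h) : Ag b (M5op g) (M5op h) := fun p hp => by
  rw [M5op_apply, M5op_apply]
  congr 1
  refine integral_congr (fun r _ => ?_)
  rw [H (p.at' r) hp]

lemma Ag.res {g h : AC l} (H : Ag b g h) : Ag b (res g) (res h) := fun p hp => H p.incl hp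

lemma ag_qT {b : Icc l 1} {q q' : XX l} (hb : ∀ x ≤ b, q x = q' x) :
    Ag (b : ℝ) (qT J q) (qT J q') := fun p hp => by
  rw [qT_apply, qT_apply]
  exact hb _ (p.s_le_lam.trans hp)

/-! ### units -/

lemma isUnit_of_near {w : AC l} (hw : ‖w - 1‖ ≤ 1 / 2) : IsUnit w := by
  have h1 : ‖1 - w‖ < 1 := by
    rw [norm_sub_rev]; linarith
  have := (Units.oneSub (1 - w) h1).isUnit
  rwa [Units.val_oneSub, sub_sub_self] at this

lemma half_le_of_near {w : AC l} (hw : ‖w - 1‖ ≤ 1 / 2) (p : TT l (Icc 0 1)) : 1 / 2 ≤ w p := by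
  have h1 := ((w - 1).norm_coe_le_norm p).trans hw
  rw [BoundedContinuousFunction.coe_sub, Pi.sub_apply, Real.norm_eq_abs] at h1
  have h2 := (abs_le.1 h1).1
  have h3 : (1 : AC l) p = 1 := rfl
  rw [h3] at h2
  linarith

lemma eC_apply [h0 : Fact (0 < l)] (w : AC l) (p : TT l (Icc 0 1)) :
    eC w p = p.s + p.rho * w p ^ 2 := rfl

lemma eC_pos [h0 : Fact (0 < l)] (w : AC l) (p : TT l (Icc 0 1)) : 0 < eC w p := by
  rw [eC_apply]
  have h1 := h0.out
  have h2 := p.l_le_s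
  have h3 := mul_nonneg p.rho_nonneg (sq_nonneg (w p))
  linarith

lemma isUnit_of_pos {w : AC l} (hw : ∀ p, 0 < w p) : IsUnit w := by
  refine IsUnit.of_mul_eq_one (BoundedContinuousFunction.mkOfCompact
    ⟨fun p => (w p)⁻¹, w.continuous.inv₀ (fun p => (hw p).ne')⟩) ?_
  ext p
  exact mul_inv_cancel₀ (hw p).ne'

lemma isUnit_eC [h0 : Fact (0 < l)] (w : AC l) : IsUnit (eC w) := isUnit_of_pos (eC_pos w)

/-! ### causality of `W` -/

variable [h0 : Fact (0 < l)]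

lemma WW_at [h1 : Fact (l < 1)] {q : XX l} (hq : ‖q‖ < rr l) (p : TT l (Icc 0 1)) :
    p.rho * WW q p ^ 2
      = p.rho - 2 * ∫ r in p.s..p.lam, √(p.x + p.lam - r) * (qe q r * WW q (p.at' r)) := by
  have e := congrArg (fun g : AC l => g p) (WW_eq hq)
  have e' : WW q p ^ 2 = 1 - 2 * (Lop (qT _ q * WW q)) p := by
    simpa using e
  rw [Lop_apply] at e'
  have e2 : ∫ r in p.s..p.lam, √(p.x + p.lam - r) * (qT (Icc 0 1) q * WW q) (p.at' r)
      = ∫ r in p.s..p.lam, √(p.x + p.lam - r) * (qe q r * WW q (p.at' r)) := by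
    refine integral_congr (fun r hr => ?_)
    rw [uIcc_of_le p.s_le_lam] at hr
    simp only [BoundedContinuousFunction.coe_mul, Pi.mul_apply]
    rw [qT_apply', p.at'_s (p.l_le_s.trans hr.1) hr.2]
  rw [e2] at e'
  rcases p.rho_nonneg.eq_or_lt with h | h
  · have hlam : p.s = p.lam := by
      have h2 := p.x_mem.1
      have h3 := p.s_le_lam
      unfold TT.rho at h
      linarith
    rw [← h, ← hlam]
    simp
  · rw [e']
    field_simp

omit h0 in
lemma at'_at' (p : TT l J) (r r' : ℝ) : (p.at' r').at' r = p.at' r := rfl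

lemma WW_causal [h1 : Fact (l < 1)] {q q' : XX l} (hq : ‖q‖ < rr l) (hq' : ‖q'‖ < rr l)
    {b : Icc l 1} (hb : ∀ x ≤ b, q x = q' x) : Ag (b : ℝ) (WW q) (WW q') := by
  intro p hp
  have hw := half_le_of_near (WW_near hq)
  have hw' := half_le_of_near (WW_near hq')
  rcases p.rho_nonneg.eq_or_lt with h | h
  · -- degenerate point
    have key : ∀ {q : XX l}, ‖q‖ < rr l → WW q p = 1 := by
      intro q hq
      have e := congrArg (fun g : AC l => g p) (WW_eq hq)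
      have e' : WW q p ^ 2 = 1 - 2 * (Lop (qT _ q * WW q)) p := by
        simpa using e
      rw [Lop_apply, ← h, inv_zero, zero_mul, mul_zero, sub_zero] at e'
      have h2 := half_le_of_near (WW_near hq) p
      nlinarith
    rw [key hq, key hq']
  · set a := p.x + p.lam with ha
    have hx := p.x_mem.1
    have hcont : ∀ q : XX l, ContinuousOn (fun r => r + (a - r) * WW q (p.at' r) ^ 2)
        (Icc p.s p.lam) := fun q =>
      (continuous_id.add ((continuous_const.sub continuous_id).mul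
        (((WW q).continuous.comp p.cont_at).pow 2))).continuousOn
    have hpos : ∀ {q : XX l}, ‖q‖ < rr l → ∀ s ∈ Ico p.s p.lam,
        s < s + (a - s) * WW q (p.at' s) ^ 2 := by
      intro q hq s hs
      have h2 := half_le_of_near (WW_near hq) (p.at' s)
      have h3 : 0 < a - s := by linarith [hs.2]
      have h4 : 0 < (a - s) * WW q (p.at' s) ^ 2 := by positivity
      linarith
    have hint : ∀ {q : XX l}, ‖q‖ < rr l → ∀ s ∈ Icc p.s p.lam,
        s + (a - s) * WW q (p.at' s) ^ 2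
          = a - 2 * 1 * ∫ r in s..p.lam, qe q r * √(r + (a - r) * WW q (p.at' r) ^ 2 - r) := by
      intro q hq s hs
      have e := WW_at hq (p.at' s)
      rw [p.at'_rho (p.l_le_s.trans hs.1) hs.2, p.at'_s (p.l_le_s.trans hs.1) hs.2,
        TT.at'_lam, TT.at'_x, ← ha] at e
      rw [e]
      have e3 : ∫ r in s..p.lam, √(a - r) * (qe q r * WW q ((p.at' s).at' r))
          = ∫ r in s..p.lam, qe q r * √(r + (a - r) * WW q (p.at' r) ^ 2 - r) := by
        refine integral_congr (fun r hr => ?_)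
        rw [uIcc_of_le hs.2] at hr
        have h2 := half_le_of_near (WW_near hq) (p.at' r)
        have h3 : 0 ≤ a - r := by linarith [hr.2]
        simp only [at'_at']
        rw [add_sub_cancel_left, Real.sqrt_mul h3, Real.sqrt_sq (by linarith)]
        ring
      rw [e3]
      ring
    have hqq : ∀ s ∈ Icc p.s p.lam, s + (a - s) * WW q' (p.at' s) ^ 2
          = a - 2 * 1 * ∫ r in s..p.lam, qe q r * √(r + (a - r) * WW q' (p.at' r) ^ 2 - r) := by
      intro s hs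
      rw [hint hq' s hs]
      congr 2
      refine integral_congr (fun r hr => ?_)
      rw [uIcc_of_le hs.2] at hr
      have hr1 : r ∈ Icc l 1 := ⟨p.l_le_s.trans (hs.1.trans hr.1), hr.2.trans p.lam_le⟩
      rw [qe_of_mem q hr1, qe_of_mem q' hr1, hb ⟨r, hr1⟩ (hr.2.trans hp)]
    have key := B2.unique_energy (c := 1) (s₀ := p.s) (lam := p.lam) (a := a) (q := qe q)
      (e1 := fun r => r + (a - r) * WW q (p.at' r) ^ 2)
      (e2 := fun r => r + (a - r) * WW q' (p.at' r) ^ 2) (continuous_qe q).continuousOn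
      (hcont q) (hcont q') (by linarith) (hpos hq) (hpos hq') (hint hq) hqq p.s
      ⟨le_rfl, p.s_le_lam⟩
    have e5 : p.at' p.s = p := by
      apply TT.ext
      · exact p.at'_s p.l_le_s p.s_le_lam
      · rfl
      · rfl
    rw [e5] at key
    have h6 : 0 < a - p.s := h
    have h7 : WW q p ^ 2 = WW q' p ^ 2 := by
      have : (a - p.s) * (WW q p ^ 2 - WW q' p ^ 2) = 0 := by linarith
      rcases mul_eq_zero.1 this with h8 | h8
      · exact absurd h8 h6.ne'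
      · linarith
    have h8 := hw p
    have h9 := hw' p
    exact (pow_left_inj₀ (by linarith) (by linarith) two_ne_zero).1 h7

/-! ### causality of the coefficient functions -/

section

variable {q q' w w' : TT l (Icc 0 1) →ᵇ ℝ}

lemma Ag.eC (H : Ag b w w') : Ag b (eC w) (eC w') :=
  (Ag.refl _).add ((Ag.refl _).mul (H.pow 2))

lemma Ag.ieC (H : Ag b w w') : Ag b (ieC w) (ieC w') :=
  Ag.inverse (isUnit_eC w) (isUnit_eC w') H.eC

end

variable {bb : Icc l 1} {q q' : XX l} {w w' : AC l}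

lemma ag_pC (hb : ∀ x ≤ bb, q x = q' x) (hw : IsUnit w) (hw' : IsUnit w')
    (H : Ag (bb : ℝ) w w') : Ag (bb : ℝ) (pC q w) (pC q' w') :=
  Ag.exp (Ag.neg (Ag.Mop ((ag_qT hb).mul (H.inverse hw hw'))))

lemma ag_Q3 (hb : ∀ x ≤ bb, q x = q' x) (hw : IsUnit w) (hw' : IsUnit w')
    (H : Ag (bb : ℝ) w w') : Ag (bb : ℝ) (Q3 q w) (Q3 q' w') :=
  Ag.M3op (Ag.res (((ag_qT hb).mul (ag_pC hb hw hw' H)).mul ((H.inverse hw hw').pow 3)))

lemma ag_P1 (hb : ∀ x ≤ bb, q x = q' x) (hw : IsUnit w) (hw' : IsUnit w')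
    (H : Ag (bb : ℝ) w w') : Ag (bb : ℝ) (P1 q w) (P1 q' w') :=
  Ag.smul _ ((ag_pC hb hw hw' H).res.mul (ag_Q3 hb hw hw' H))

lemma ag_dQ3 (hb : ∀ x ≤ bb, q x = q' x) (hw : IsUnit w) (hw' : IsUnit w')
    (H : Ag (bb : ℝ) w w') : Ag (bb : ℝ) (dQ3 q w) (dQ3 q' w') := by
  have hu := H.inverse hw hw'
  exact ((Ag.refl _).mul (Ag.M3op (((ag_qT hb).mul (ag_P1 hb hw hw' H)).mul (hu.pow 3).res))).sub
    (Ag.smul _ (Ag.M5op (Ag.res (((ag_qT hb).mul ((ag_pC hb hw hw' H).pow 2)).mul (hu.pow 5)))))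

lemma ag_P2 (hb : ∀ x ≤ bb, q x = q' x) (hw : IsUnit w) (hw' : IsUnit w')
    (H : Ag (bb : ℝ) w w') : Ag (bb : ℝ) (P2 q w) (P2 q' w') :=
  Ag.smul _ ((((Ag.refl _).mul (ag_P1 hb hw hw' H)).mul (ag_Q3 hb hw hw' H)).add
    ((ag_pC hb hw hw' H).res.mul (ag_dQ3 hb hw hw' H)))

lemma ag_K0 (hb : ∀ x ≤ bb, q x = q' x) (hw : IsUnit w) (hw' : IsUnit w')
    (H : Ag (bb : ℝ) w w') : Ag (bb : ℝ) (K0 q w) (K0 q' w') :=
  ((Ag.refl _).mul (ag_pC hb hw hw' H)).mul (H.ieC.pow 2)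

lemma ag_K1 (hb : ∀ x ≤ bb, q x = q' x) (hw : IsUnit w) (hw' : IsUnit w')
    (H : Ag (bb : ℝ) w w') : Ag (bb : ℝ) (K1 q w) (K1 q' w') := by
  have hp := ag_pC hb hw hw' H
  refine Ag.add ((Ag.refl _).mul (Ag.res (Ag.sub (Ag.smul _ ?_) (Ag.smul _ ?_))))
    ((Ag.res ((Ag.refl _).mul (H.ieC.pow 2))).mul (ag_P1 hb hw hw' H))
  · exact ((Ag.refl _).mul hp).mul (H.ieC.pow 2)
  · exact ((Ag.refl _).mul (hp.pow 2)).mul (H.ieC.pow 3)

lemma ag_K2 (hb : ∀ x ≤ bb, q x = q' x) (hw : IsUnit w) (hw' : IsUnit w')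
    (H : Ag (bb : ℝ) w w') : Ag (bb : ℝ) (K2 q w) (K2 q' w') := by
  have hp := ag_pC hb hw hw' H
  refine Ag.add (Ag.add ((Ag.refl _).mul (Ag.res (Ag.add (Ag.sub (Ag.smul _ ?_) (Ag.smul _ ?_))
    (Ag.smul _ ?_)))) ((Ag.refl _).mul (Ag.mul (Ag.res (Ag.sub (Ag.smul _ ?_) (Ag.smul _ ?_)))
      (ag_P1 hb hw hw' H))))
    ((Ag.res ((Ag.refl _).mul (H.ieC.pow 2))).mul (ag_P2 hb hw hw' H))
  · exact hp.mul (H.ieC.pow 2)
  · exact ((Ag.refl _).mul (hp.pow 2)).mul (H.ieC.pow 3)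
  · exact ((Ag.refl _).mul (hp.pow 3)).mul (H.ieC.pow 4)
  · exact (Ag.refl _).mul (H.ieC.pow 2)
  · exact ((Ag.refl _).mul hp).mul (H.ieC.pow 3)

end L6

open L6

variable {l : ℝ} [h0 : Fact (0 < l)] [h1 : Fact (l < 1)]

/-- causality of `Yop` -/
theorem Yop_causal {bb : Icc l 1} {q q' : XX l} {w w' : AC l} {g g' f f' : XX l}
    (hb : ∀ x ≤ bb, q x = q' x) (hw : IsUnit w) (hw' : IsUnit w')
    (H : Ag (bb : ℝ) w w') (hg : ∀ x ≤ bb, g x = g' x) (hf : ∀ x ≤ bb, f x = f' x) :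
    Yop q w g f bb = Yop q' w' g' f' bb := by
  have hN : AgD (bb : ℝ) (NN q w f) (NN q' w' f') :=
    AgD.smul _ (Ag.Iop ((ag_qT hf).mul (ag_K0 hb hw hw' H)))
  have hn1 : AgD (bb : ℝ) (nn1 q w f) (nn1 q' w' f') :=
    AgD.smul _ (Ag.Iop ((ag_qT hf).mul (ag_K1 hb hw hw' H)))
  have hn2 : AgD (bb : ℝ) (nn2 q w f) (nn2 q' w' f') :=
    AgD.smul _ (Ag.Iop ((ag_qT hf).mul (ag_K2 hb hw hw' H)))
  have hk : AgD (bb : ℝ) (kap q w f) (kap q' w' f') := AgD.Hop ((hn1.smul 2).add hn2)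
  have e1 : g bb * diagC (NN q w f) bb = g' bb * diagC (NN q' w' f') bb := by
    rw [hg bb le_rfl, diagC_apply, diagC_apply]
    congr 1
    exact hN _ le_rfl
  have e2 : Bop g (kap q w f) bb = Bop g' (kap q' w' f') bb := by
    rw [Bop_apply, Bop_apply]
    refine integral_congr (fun r hr => ?_)
    rw [uIcc_of_le bb.2.1] at hr
    have hr1 : r ∈ Icc l 1 := ⟨hr.1, hr.2.trans bb.2.2⟩
    rw [qe_of_mem g hr1, qe_of_mem g' hr1, hg ⟨r, hr1⟩ hr.2, hk.e hr.2]
  change g bb * diagC (NN q w f) bb + Bop g (kap q w f) bb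
    = g' bb * diagC (NN q' w' f') bb + Bop g' (kap q' w' f') bb
  rw [e1, e2]

/-- `Ξ(ε,q)(b)` depends only on `q` on `[l,b]` -/
theorem Xi_causal (ε : ℝ) (q q' : XX l) (h : |ε| * ‖q‖ < rr l) (h' : |ε| * ‖q'‖ < rr l)
    (b : Icc l 1) (hb : ∀ x ≤ b, q x = q' x) : Xi ε q b = Xi ε q' b := by
  have n1 : ‖ε • q‖ < rr l := by rw [norm_smul, Real.norm_eq_abs]; exact h
  have n2 : ‖ε • q'‖ < rr l := by rw [norm_smul, Real.norm_eq_abs]; exact h'
  have n3 : ‖-(ε • q)‖ < rr l := by rwa [norm_neg]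
  have n4 : ‖-(ε • q')‖ < rr l := by rwa [norm_neg]
  have c1 : ∀ x ≤ b, (ε • q) x = (ε • q') x := fun x hx => by
    simp only [ContinuousMap.smul_apply, hb x hx]
  have c2 : ∀ x ≤ b, (-(ε • q)) x = (-(ε • q')) x := fun x hx => by
    simp only [ContinuousMap.neg_apply, ContinuousMap.smul_apply, hb x hx]
  have e1 := Yop_causal c1 (isUnit_of_near (WW_near n1)) (isUnit_of_near (WW_near n2))
    (WW_causal n1 n2 c1) hb hb
  have e2 := Yop_causal c2 (isUnit_of_near (WW_near n3)) (isUnit_of_near (WW_near n4))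
    (WW_causal n3 n4 c2) hb hb
  change Yop (ε • q) (WW (ε • q)) q q b + Yop (-(ε • q)) (WW (-(ε • q))) q q b
    = Yop (ε • q') (WW (ε • q')) q' q' b + Yop (-(ε • q')) (WW (-(ε • q'))) q' q' b
  rw [e1, e2]

lemma Yop_left (q : XX l) (w : AC l) (g f : XX l) :
    Yop q w g f ⟨l, le_rfl, h1.out.le⟩ = 0 := by
  change g _ * diagC (NN q w f) _ + Bop g (kap q w f) _ = 0
  have e1 : diagC (NN q w f) ⟨l, le_rfl, h1.out.le⟩ = 0 := by
    rw [diagC_apply]
    change 2 * (Iop _ (qT _ f * K0 q w)) _ = 0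
    rw [Iop_apply]
    change 2 * (∫ r in l..l, _) = 0
    rw [intervalIntegral.integral_same, mul_zero]
  have e2 : Bop g (kap q w f) ⟨l, le_rfl, h1.out.le⟩ = 0 := by
    rw [Bop_apply]
    exact intervalIntegral.integral_same
  rw [e1, e2, mul_zero, add_zero]

/-- `Ξ(ε,q)(l) = 0` -/
theorem Xi_left (ε : ℝ) (q : XX l) : Xi ε q ⟨l, le_rfl, h1.out.le⟩ = 0 := by
  change Yop (ε • q) (WW (ε • q)) q q _ + Yop (-(ε • q)) (WW (-(ε • q))) q q _ = 0
  rw [Yop_left, Yop_left, add_zero]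

namespace L6

omit h1 in
lemma pC_zero (w : AC l) : pC (0 : XX l) w = 1 := by
  unfold pC
  rw [map_zero, zero_mul, map_zero, neg_zero, NormedSpace.exp_zero]

omit h1 in
lemma Q3_zero (w : AC l) : Q3 (0 : XX l) w = 0 := by
  unfold Q3
  rw [map_zero, zero_mul, zero_mul, map_zero, map_zero]

omit h1 in
lemma P1_zero (w : AC l) : P1 (0 : XX l) w = 0 := by
  unfold P1
  rw [Q3_zero, mul_zero, smul_zero]

omit h1 in
lemma dQ3_zero (w : AC l) : dQ3 (0 : XX l) w = 0 := by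
  unfold dQ3
  rw [map_zero, map_zero, zero_mul, zero_mul, map_zero, zero_mul, zero_mul, map_zero, map_zero,
    mul_zero, smul_zero, sub_zero]

omit h1 in
lemma P2_zero (w : AC l) : P2 (0 : XX l) w = 0 := by
  unfold P2
  rw [Q3_zero, dQ3_zero, mul_zero, mul_zero, add_zero, smul_zero]

omit h1 in
lemma eC_one : eC (1 : AC l) = aC := by
  ext p
  rw [eC_apply, aC_apply]
  have : (1 : AC l) p = 1 := rfl
  rw [this]
  unfold TT.rho
  ring

omit h1 in
lemma ieC_one_apply (p : TT l (Icc 0 1)) : ieC (1 : AC l) p = (p.x + p.lam)⁻¹ := by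
  unfold ieC
  rw [inverse_apply (isUnit_eC 1), eC_one, aC_apply]

omit h1 in
lemma aC_ieC : (aC : AC l) * ieC (1 : AC l) = 1 := by
  ext p
  have h2 : 0 < p.x + p.lam := by
    have := h0.out
    have := p.x_mem.1
    have := p.l_le_lam
    linarith
  change (p.x + p.lam) * ieC (1 : AC l) p = 1
  rw [ieC_one_apply, mul_inv_cancel₀ h2.ne']

omit h1 in
lemma K0_zero : K0 (0 : XX l) (1 : AC l) = 1 := by
  unfold K0
  rw [pC_zero]
  have h := aC_ieC (l := l)
  calc (aC : AC l) ^ 2 * 1 * ieC 1 ^ 2 = (aC * ieC 1) ^ 2 := by ring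
    _ = 1 := by rw [h, one_pow]

omit h1 in
lemma K1_zero : K1 (0 : XX l) (1 : AC l) = 0 := by
  unfold K1
  rw [pC_zero, P1_zero, mul_zero, add_zero]
  have h := aC_ieC (l := l)
  have e1 : (aC : AC l) * 1 * ieC 1 ^ 2 = ieC 1 := by
    calc (aC : AC l) * 1 * ieC 1 ^ 2 = (aC * ieC 1) * ieC 1 := by ring
      _ = ieC 1 := by rw [h, one_mul]
  have e2 : (aC : AC l) ^ 2 * 1 ^ 2 * ieC 1 ^ 3 = ieC 1 := by
    calc (aC : AC l) ^ 2 * 1 ^ 2 * ieC 1 ^ 3 = (aC * ieC 1) ^ 2 * ieC 1 := by ring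
      _ = ieC 1 := by rw [h, one_pow, one_mul]
  rw [e1, e2, sub_self, map_zero, mul_zero]

omit h1 in
lemma K2_zero : K2 (0 : XX l) (1 : AC l) = 0 := by
  unfold K2
  rw [pC_zero, P1_zero, P2_zero, mul_zero, mul_zero, mul_zero, add_zero, add_zero]
  have h := aC_ieC (l := l)
  have e1 : (1 : AC l) * ieC 1 ^ 2 = ieC 1 ^ 2 := one_mul _
  have e2 : (aC : AC l) * 1 ^ 2 * ieC 1 ^ 3 = ieC 1 ^ 2 := by
    calc (aC : AC l) * 1 ^ 2 * ieC 1 ^ 3 = (aC * ieC 1) * ieC 1 ^ 2 := by ring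
      _ = ieC 1 ^ 2 := by rw [h, one_mul]
  have e3 : (aC : AC l) ^ 2 * 1 ^ 3 * ieC 1 ^ 4 = ieC 1 ^ 2 := by
    calc (aC : AC l) ^ 2 * 1 ^ 3 * ieC 1 ^ 4 = (aC * ieC 1) ^ 2 * ieC 1 ^ 2 := by ring
      _ = ieC 1 ^ 2 := by rw [h, one_pow, one_mul]
  rw [e1, e2, e3]
  have e4 : (2 : ℝ) • ieC (1 : AC l) ^ 2 - (8 : ℝ) • ieC (1 : AC l) ^ 2
      + (6 : ℝ) • ieC (1 : AC l) ^ 2 = 0 := by module
  rw [e4, map_zero, mul_zero]

lemma Yop_zero (g f : XX l) (b : Icc l 1) :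
    Yop (0 : XX l) (1 : AC l) g f b = 2 * g b * ∫ s in l..b, qe f s * √s := by
  change g b * diagC (NN 0 1 f) b + Bop g (kap 0 1 f) b = _
  have e1 : kap (0 : XX l) (1 : AC l) f = 0 := by
    unfold kap nn1 nn2
    rw [K1_zero, K2_zero, mul_zero, map_zero, smul_zero, smul_zero, add_zero, map_zero]
  have e2 : Bop g (0 : DO l) b = 0 := by
    rw [map_zero]; rfl
  rw [e1, e2, add_zero, diagC_apply]
  change g b * (2 * (Iop _ (qT _ f * K0 0 1)) _) = _
  rw [K0_zero, mul_one, Iop_apply]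
  have e3 : ∫ r in l..(DD.mk b.1 0 b.2.1 b.2.2 ⟨le_rfl, zero_le_one⟩ : DD l (Icc 0 1)).lam,
      √r * (qT (Icc 0 1) f) ((DD.mk b.1 0 b.2.1 b.2.2 ⟨le_rfl, zero_le_one⟩ :
        DD l (Icc 0 1)).at' r) = ∫ s in l..b, qe f s * √s := by
    refine integral_congr (fun r hr => ?_)
    have hr' : r ∈ uIcc l b.1 := hr
    rw [uIcc_of_le b.2.1] at hr'
    rw [qT_apply', DD.at'_s (DD.mk b.1 0 b.2.1 b.2.2 ⟨le_rfl, zero_le_one⟩ : DD l (Icc 0 1))
      hr'.1 hr'.2]
    ring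
  rw [e3]
  ring

end L6

/-- `Ξ(0,q)(b) = 4 q(b) ∫_l^b q(s) √s ds` -/
theorem Xi_zero (q : XX l) (b : Icc l 1) :
    Xi 0 q b = 4 * q b * ∫ s in l..b, q (projIcc l 1 h1.out.le s) * √s := by
  change Yop ((0:ℝ) • q) (WW ((0:ℝ) • q)) q q b + Yop (-((0:ℝ) • q)) (WW (-((0:ℝ) • q))) q q b = _
  rw [zero_smul, neg_zero, WW_zero, L6.Yop_zero]
  have : ∫ s in l..b, q (projIcc l 1 h1.out.le s) * √s = ∫ s in l..b, qe q s * √s := rfl
  rw [this]
  ring

end Pool.Agent.Unicorn
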