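import Pool.Agent.Unicorn.B0Xi

/-!
# Unicorn, Part B: the energy `Ee` (fields `E_cont`, `E_gt`, `E_eq` of `ESys`)
-/

set_option autoImplicit false

open Set MeasureTheory intervalIntegral Filter Topology
open scoped ContDiff BoundedContinuousFunction

namespace Pool.Agent.Unicorn.L7

variable {l : ℝ} [h0 : Fact (0 < l)] [h1 : Fact (l < 1)]

lemma half_le_wt {q : XX l} (hq : ‖q‖ < rr l) (s lam x : ℝ) : 1 / 2 ≤ wt (WW q) s lam x :=
  B1.half_le_of_norm_sub_one (WW_near hq) _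

lemma E_cont (q : XX l) (a : ℝ) : ContinuousOn (fun s => Ee q s a) (Icc l a) := by
  have h : Continuous (fun s : ℝ => wt (WW q) s a 0) :=
    (continuous_wt (WW q)).comp (f := fun s : ℝ => ((s, a, 0) : ℝ × ℝ × ℝ)) (by fun_prop)
  unfold Ee
  fun_prop

lemma E_sub (q : XX l) (s a : ℝ) : Ee q s a - s = (a - s) * wt (WW q) s a 0 ^ 2 := by
  unfold Ee; ring

lemma sqrt_E {q : XX l} (hq : ‖q‖ < rr l) {s a : ℝ} (hs : s ≤ a) :
    √(Ee q s a - s) = √(a - s) * wt (WW q) s a 0 := by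
  have h := half_le_wt hq s a 0
  rw [E_sub, Real.sqrt_mul (by linarith), Real.sqrt_sq (by linarith)]

lemma E_gt {q : XX l} (hq : ‖q‖ < rr l) {a s : ℝ} (hs : s < a) : s < Ee q s a := by
  have h := half_le_wt hq s a 0
  have h2 := E_sub q s a
  have h3 : 0 < (a - s) * wt (WW q) s a 0 ^ 2 := mul_pos (by linarith) (by positivity)
  linarith

lemma E_eq {q : XX l} (hq : ‖q‖ < rr l) {a : ℝ} (ha : a ∈ Icc l 1) {s : ℝ} (hs : s ∈ Icc l a) :
    Ee q s a = a - 2 * ∫ r in s..a, q (projIcc l 1 h1.out.le r) * √(Ee q r a - r) := by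
  have hp : (TT.mk s a 0 hs.1 hs.2 ha.2 ⟨le_rfl, zero_le_one⟩ : TT l (Icc 0 1)).s = s := rfl
  set p : TT l (Icc 0 1) := TT.mk s a 0 hs.1 hs.2 ha.2 ⟨le_rfl, zero_le_one⟩ with hpdef
  have hlam : p.lam = a := rfl
  have hx : p.x = 0 := rfl
  have hrho : p.rho = a - s := by
    unfold TT.rho; rw [hp, hlam, hx]; ring
  have heq := congrArg (fun g : AC l => g p) (WW_eq hq)
  simp only [BoundedContinuousFunction.coe_sub, BoundedContinuousFunction.coe_smul,
    Pi.sub_apply, BoundedContinuousFunction.coe_one, Pi.one_apply, smul_eq_mul,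
    BoundedContinuousFunction.coe_pow, Pi.pow_apply] at heq
  rw [Lop_apply] at heq
  have hint : ∫ r in p.s..p.lam, √(p.x + p.lam - r) * (qT (Icc 0 1) q * WW q) (p.at' r)
      = ∫ r in s..a, q (projIcc l 1 h1.out.le r) * √(Ee q r a - r) := by
    rw [hp, hlam]
    refine integral_congr (fun r hr => ?_)
    rw [uIcc_of_le hs.2] at hr
    have hr1 : l ≤ r := hs.1.trans hr.1
    rw [sqrt_E hq hr.2, hx, zero_add, BoundedContinuousFunction.coe_mul, Pi.mul_apply,
      qT_apply', p.at'_s hr1 hr.2, wt_at (J := Icc 0 1) (WW q) p hr1 hr.2, hlam, hx]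
    have e : qe q r = q (projIcc l 1 h1.out.le r) := rfl
    rw [e]
    ring
  rw [hint, hrho] at heq
  have hw : WW q p = wt (WW q) s a 0 := by
    unfold wt
    rw [TT.clamp_eq hs.1 hs.2 ha.2 ⟨le_rfl, zero_le_one⟩]
  rw [hw] at heq
  rcases hs.2.eq_or_lt with h | h
  · have : Ee q s a = a := by unfold Ee; rw [h]; ring
    rw [this, h]; simp
  · have h3 : a - s ≠ 0 := by
      have : 0 < a - s := by linarith
      exact this.ne'
    have h4 := E_sub q s a
    rw [heq] at h4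
    have h5 : (a - s) * (1 - 2 * ((a - s)⁻¹ * ∫ r in s..a, q (projIcc l 1 h1.out.le r)
        * √(Ee q r a - r))) = (a - s) - 2 * ∫ r in s..a, q (projIcc l 1 h1.out.le r)
        * √(Ee q r a - r) := by
      field_simp
    rw [h5] at h4
    linarith

end Pool.Agent.Unicorn.L7
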