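import Mathlib

/-!
# Unicorn: interface of the base solution (B4)
-/

set_option autoImplicit false

open Set MeasureTheory
open scoped ContDiff

namespace Pool.Agent.Unicorn

/-- The base solution `q0` of blueprint step (8): `a² 𝒯(0,q0)(a) = κ0 a²` for `a ∈ [b1,1]`. -/
structure BaseSol where
  l : ℝ
  lam1 : ℝ
  b1 : ℝ
  m : ℝ
  κ0 : ℝ
  Q : ℝ → ℝ
  hl : 0 < l
  hlam : l < lam1
  hb : lam1 ≤ b1
  hb1 : b1 < 1
  hm : 0 < m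
  hQ : ContDiff ℝ ∞ Q
  hQ0 : ∀ s ≤ l, Q s = 0
  hm0 : ∀ b, lam1 ≤ b → b ≤ 1 → m ≤ ∫ s in l..b, Q s * √s
  iso : ∀ a, b1 ≤ a → a ≤ 1 →
    ∫ b in l..a, √(a - b) * (4 * Q b * ∫ s in l..b, Q s * √s) = κ0 * a ^ 2

end Pool.Agent.Unicorn
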