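import Pool.Agent.Unicorn.B4
import Pool.Agent.Unicorn.BaseDefs

/-!
# Unicorn, module B8a: the base solution as a `BaseSol`
-/

set_option autoImplicit false

open Set MeasureTheory
open scoped ContDiff

namespace Pool.Agent.Unicorn

theorem exists_baseSol : ∃ B : BaseSol, B.l = 1 / 16 := by
  obtain ⟨κ0, Q, -, hQ, hQ0, -, hpos, hiso⟩ := B4.exists_base
  have hc : ContinuousOn (fun b : ℝ => ∫ s in (1 / 16 : ℝ)..b, Q s * √s) (Icc (1 / 8) 1) := by
    have : Continuous (fun b : ℝ => ∫ s in (1 / 16 : ℝ)..b, Q s * √s) :=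
      intervalIntegral.continuous_primitive (fun a b =>
        (by fun_prop : Continuous fun s => Q s * √s).intervalIntegrable a b) _
    exact this.continuousOn
  obtain ⟨x, hx, hmin⟩ := isCompact_Icc.exists_isMinOn ⟨1 / 8, by norm_num, by norm_num⟩ hc
  refine ⟨{ l := 1 / 16, lam1 := 1 / 8, b1 := 3 / 4, m := ∫ s in (1 / 16 : ℝ)..x, Q s * √s,
            κ0 := κ0, Q := Q, hl := by norm_num, hlam := by norm_num, hb := by norm_num,
            hb1 := by norm_num, hm := hpos x hx.1, hQ := hQ, hQ0 := hQ0,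
            hm0 := fun b h1 h2 => hmin ⟨h1, h2⟩, iso := fun a h1 h2 => hiso a ⟨h1, h2⟩ }, rfl⟩

end Pool.Agent.Unicorn
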