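import Pool.Agent.Unicorn.C2b

/-!
# Unicorn, module C3: `IsoQ → IsoFamily`, assuming joint smoothness of the flow (module C1)
-/

set_option autoImplicit false

open Set MeasureTheory intervalIntegral Real
open scoped ContDiff Topology

namespace Pool.Agent.Unicorn

/-- The smoothness statement needed from module C1. -/
def FlowSmooth : Prop :=
  ∀ (g : ℝ × ℝ → ℝ × ℝ) (_ : ContDiff ℝ ∞ g) (S : Set ℝ) (_ : IsOpen S) (u : ℝ → ℝ → ℝ × ℝ)
    (_ : ContDiffOn ℝ ∞ (fun p => u p 0) S)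
    (_ : ∀ p ∈ S, ∀ s, HasDerivAt (u p) (g (u p s)) s),
    ContDiffOn ℝ ∞ (fun z : ℝ × ℝ => u z.1 z.2) (S ×ˢ univ)

/-- Symmetry of mixed partial derivatives in the form we need. -/
theorem hasDerivAt_fderiv_swap {G H : ℝ × ℝ → ℝ} {Ω : Set (ℝ × ℝ)} (hΩ : IsOpen Ω)
    (hG : ContDiffOn ℝ ∞ G Ω)
    (hGH : ∀ p ∈ Ω, HasDerivAt (fun θ => G (p.1, θ)) (H p) p.2)
    {t θ : ℝ} (hp : (t, θ) ∈ Ω) :
    HasDerivAt (fun θ' => fderiv ℝ G (t, θ') (1, 0)) (fderiv ℝ H (t, θ) (1, 0)) θ := by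
  have hGa : ContDiffAt ℝ ∞ G (t, θ) := hG.contDiffAt (hΩ.mem_nhds hp)
  have hHeq : ∀ p ∈ Ω, H p = fderiv ℝ G p (0, 1) := by
    intro p hpΩ
    have hGd : HasFDerivAt G (fderiv ℝ G p) p :=
      ((hG.contDiffAt (hΩ.mem_nhds hpΩ)).differentiableAt (by simp)).hasFDerivAt
    have hline : HasDerivAt (fun θ : ℝ => ((p.1, θ) : ℝ × ℝ)) (0, 1) p.2 :=
      (hasDerivAt_const p.2 p.1).prodMk (hasDerivAt_id p.2)
    have h1 : HasDerivAt (fun θ => G (p.1, θ)) (fderiv ℝ G p (0, 1)) p.2 := by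
      have hGd' : HasFDerivAt G (fderiv ℝ G p) (p.1, p.2) := hGd
      exact hGd'.comp_hasDerivAt p.2 hline
    exact (hGH p hpΩ).unique h1
  have hdd : HasFDerivAt (fderiv ℝ G) (fderiv ℝ (fderiv ℝ G) (t, θ)) (t, θ) := by
    have h2 : ContDiffAt ℝ 2 G (t, θ) := hGa.of_le ENat.LEInfty.out
    have : ContDiffAt ℝ 1 (fderiv ℝ G) (t, θ) := h2.fderiv_right (by norm_num)
    exact (this.differentiableAt (by norm_num)).hasFDerivAt
  have hsymm : IsSymmSndFDerivAt ℝ G (t, θ) :=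
    (hGa.of_le (n := ∞) (m := 2) ENat.LEInfty.out).isSymmSndFDerivAt (by simp)
  have hline : HasDerivAt (fun θ : ℝ => ((t, θ) : ℝ × ℝ)) (0, 1) θ :=
    (hasDerivAt_const θ t).prodMk (hasDerivAt_id θ)
  have h1 : HasDerivAt (fun θ' => fderiv ℝ G (t, θ')) (fderiv ℝ (fderiv ℝ G) (t, θ) (0, 1)) θ :=
    hdd.comp_hasDerivAt θ hline
  have h2 : HasDerivAt (fun θ' => fderiv ℝ G (t, θ') (1, 0))
      (fderiv ℝ (fderiv ℝ G) (t, θ) (0, 1) (1, 0)) θ := by
    have := h1.clm_apply (hasDerivAt_const θ ((1, 0) : ℝ × ℝ))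
    simpa using this
  have h3 : fderiv ℝ H (t, θ) (1, 0) = fderiv ℝ (fderiv ℝ G) (t, θ) (1, 0) (0, 1) := by
    have h4 : H =ᶠ[𝓝 (t, θ)] fun p => fderiv ℝ G p (0, 1) := by
      filter_upwards [hΩ.mem_nhds hp] with p hp' using hHeq p hp'
    rw [h4.fderiv_eq]
    have h5 : HasFDerivAt (fun p => fderiv ℝ G p (0, 1))
        ((ContinuousLinearMap.apply ℝ ℝ ((0, 1) : ℝ × ℝ)).comp
          (fderiv ℝ (fderiv ℝ G) (t, θ))) (t, θ) :=
      ((ContinuousLinearMap.apply ℝ ℝ ((0, 1) : ℝ × ℝ)).hasFDerivAt).comp (t, θ) hdd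
    rw [h5.fderiv]
    simp
  rw [h3, ← hsymm.eq (0, 1) (1, 0)]
  exact h2

/-- `t`-derivative of a slice. -/
theorem hasDerivAt_slice {G : ℝ × ℝ → ℝ} {Ω : Set (ℝ × ℝ)} (hΩ : IsOpen Ω)
    (hG : ContDiffOn ℝ ∞ G Ω) {t θ : ℝ} (hp : (t, θ) ∈ Ω) :
    HasDerivAt (fun s => G (s, θ)) (fderiv ℝ G (t, θ) (1, 0)) t := by
  have hGd : HasFDerivAt G (fderiv ℝ G (t, θ)) (t, θ) :=
    ((hG.contDiffAt (hΩ.mem_nhds hp)).differentiableAt (by simp)).hasFDerivAt
  have hline : HasDerivAt (fun s : ℝ => ((s, θ) : ℝ × ℝ)) (1, 0) t :=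
    (hasDerivAt_id t).prodMk (hasDerivAt_const t θ)
  exact hGd.comp_hasDerivAt t hline

/-- `IsoQ → IsoFamily`, given smooth dependence. -/
theorem isoFamily_of_isoQ_of_flowSmooth (hflow : FlowSmooth) (I : IsoQ) : Nonempty IsoFamily := by
  have hqc : Continuous I.q := I.hq.continuous
  set h : ℝ → ℝ := fun x => 2 * x * I.q (x ^ 2) with hh
  have hhs : ContDiff ℝ ∞ h := by
    refine ContDiff.mul (contDiff_const.mul contDiff_id) ?_
    exact I.hq.comp (contDiff_id.pow 2)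
  have hhc : Continuous h := hhs.continuous
  have hhodd : ∀ x, h (-x) = -h x := by
    intro x; simp only [hh]; rw [neg_sq]; ring
  set f : ℝ → ℝ := fun x => ∫ y in (0:ℝ)..x, h y with hf
  have hfd : ∀ x, HasDerivAt f (h x) x := fun x =>
    intervalIntegral.integral_hasDerivAt_right (hhc.intervalIntegrable _ _)
      (hhc.stronglyMeasurableAtFilter _ _) hhc.continuousAt
  have hfderiv : deriv f = h := funext fun x => (hfd x).deriv
  have hfs : ContDiff ℝ ∞ f := by
    rw [contDiff_infty_iff_deriv]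
    exact ⟨fun x => (hfd x).differentiableAt, by rw [hfderiv]; exact hhs⟩
  have hfeven : ∀ x, f (-x) = f x := by
    intro x
    simp only [hf]
    have := intervalIntegral.integral_comp_neg (a := (0:ℝ)) (b := x) h
    rw [neg_zero, intervalIntegral.integral_symm 0 (-x)] at this
    have h2 : ∫ y in (0:ℝ)..x, h (-y) = -∫ y in (0:ℝ)..x, h y := by
      rw [← intervalIntegral.integral_neg]
      exact intervalIntegral.integral_congr fun y _ => hhodd y
    rw [h2] at this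
    linarith
  have ha1 : 0 < √I.a1 := Real.sqrt_pos.2 I.h1
  have ha12 : √I.a1 < √I.a2 := Real.sqrt_lt_sqrt I.h1.le I.h12
  -- the orbits
  have horb : ∀ t ∈ Ioo (√I.a1) (√I.a2), ∃ c v : ℝ → ℝ, c 0 = t ∧ v 0 = 0 ∧
      (∀ x, HasDerivAt c (v x) x) ∧
      (∀ x, HasDerivAt v (2 * c x * I.q (c x ^ 2) * v x - c x) x) ∧
      (∀ x, c (x + 2 * (π + I.κ)) = c x) ∧ 0 < π + I.κ ∧
      (∃ θ₀, ∀ θ ∈ Ico θ₀ (θ₀ + 2 * (π + I.κ)), c θ = 0 →
        θ = θ₀ ∨ θ = θ₀ + 2 * (π + I.κ) / 2) ∧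
      (∀ ξ ∈ Ioo 0 t, ∃ θ, c θ = ξ ∧ v θ ≠ 0) := by
    intro t ht
    have ht0 : 0 < t := ha1.trans ht.1
    have hta : t ^ 2 ∈ Ioo I.a1 I.a2 := by
      constructor
      · have := Real.sq_sqrt I.h1.le
        nlinarith [ht.1]
      · have := Real.sq_sqrt (I.h1.trans I.h12).le
        nlinarith [ht.2]
    have hapos : 0 < t ^ 2 := by positivity
    obtain ⟨Ep, Em, cp, cm, pp, pm, ep, em, hκ⟩ := I.energies (t ^ 2) hta
    obtain ⟨Bp, hBp⟩ := exists_branch (σ := 1) hqc hapos cp pp (by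
      intro s hs; rw [ep s hs]; ring)
    obtain ⟨Bm, hBm⟩ := exists_branch (σ := -1) hqc hapos cm pm (by
      intro s hs; rw [em s hs]; ring)
    have hκ' : (∫ s in (0:ℝ)..(t ^ 2), I.q s * √s / Bp.E s)
        - (∫ s in (0:ℝ)..(t ^ 2), I.q s * √s / Bm.E s) = I.κ := by
      rw [← hκ]
      congr 1
      · refine intervalIntegral.integral_congr fun s hs => ?_
        rw [uIcc_of_le hapos.le] at hs
        simp only [hBp s hs]
      · refine intervalIntegral.integral_congr fun s hs => ?_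
        rw [uIcc_of_le hapos.le] at hs
        simp only [hBm s hs]
    have := orbit_exists hqc hapos Bp Bm hκ'
    rw [Real.sqrt_sq ht0.le] at this
    exact this
  choose! c v hc0 hv0 hcd hvd hper hκpos hzer hvis using horb
  set S : Set ℝ := Ioo (√I.a1) (√I.a2) with hS
  have hSo : IsOpen S := isOpen_Ioo
  obtain ⟨tm, htm⟩ : S.Nonempty := nonempty_Ioo.2 ha12
  have hLpos : 0 < π + I.κ := hκpos tm htm
  have hvper : ∀ t ∈ S, ∀ x, v t (x + 2 * (π + I.κ)) = v t x := by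
    intro t ht x
    have h1 : HasDerivAt (fun x => c t (x + 2 * (π + I.κ))) (v t (x + 2 * (π + I.κ))) x := by
      have := (hcd t ht (x + 2 * (π + I.κ))).comp_add_const x (2 * (π + I.κ))
      exact this
    have h2 : (fun x => c t (x + 2 * (π + I.κ))) = c t := funext fun x => hper t ht x
    rw [h2] at h1
    exact h1.unique (hcd t ht x)
  -- joint smoothness
  have hΩ : IsOpen (S ×ˢ (univ : Set ℝ)) := hSo.prod isOpen_univ
  have hsm : ContDiffOn ℝ ∞ (fun z : ℝ × ℝ => (c z.1 z.2, v z.1 z.2)) (S ×ˢ univ) := by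
    refine hflow (fun z => (z.2, 2 * z.1 * I.q (z.1 ^ 2) * z.2 - z.1)) ?_ S hSo
      (fun t x => (c t x, v t x)) ?_ ?_
    · refine ContDiff.prodMk contDiff_snd ?_
      refine ContDiff.sub (ContDiff.mul ?_ contDiff_snd) contDiff_fst
      exact (contDiff_const.mul contDiff_fst).mul (I.hq.comp (contDiff_fst.pow 2))
    · have : ContDiffOn ℝ ∞ (fun t : ℝ => ((t, 0) : ℝ × ℝ)) S :=
        (contDiff_id.prodMk contDiff_const).contDiffOn
      refine this.congr ?_
      intro t ht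
      simp only [hc0 t ht, hv0 t ht]
    · intro t ht x
      exact (hcd t ht x).prodMk (hvd t ht x)
  have hcs : ContDiffOn ℝ ∞ (fun z : ℝ × ℝ => c z.1 z.2) (S ×ˢ univ) :=
    contDiff_fst.comp_contDiffOn hsm
  have hvs : ContDiffOn ℝ ∞ (fun z : ℝ × ℝ => v z.1 z.2) (S ×ˢ univ) :=
    contDiff_snd.comp_contDiffOn hsm
  set y : ℝ → ℝ → ℝ := fun t θ => v t θ - f (c t θ) with hy
  have hyd : ∀ t ∈ S, ∀ θ, HasDerivAt (y t) (-c t θ) θ := by
    intro t ht θ
    have h1 := (hvd t ht θ).sub ((hfd (c t θ)).comp θ (hcd t ht θ))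
    refine h1.congr_deriv ?_
    simp only [hh]
    ring
  have hyderiv : ∀ t ∈ S, deriv (y t) = fun θ => -c t θ := fun t ht =>
    funext fun θ => (hyd t ht θ).deriv
  have hydd : ∀ t ∈ S, ∀ θ, deriv (deriv (y t)) θ = -v t θ := by
    intro t ht θ
    rw [hyderiv t ht]
    exact (hcd t ht θ).neg.deriv
  -- the Jacobian
  have hjac : ∀ t ∈ S, ∀ θ,
      0 < deriv (y t) θ * deriv (fun s => deriv (y s) θ) t
        - deriv (fun s => y s θ) t * deriv (deriv (y t)) θ := by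
    intro t ht θ
    set cT : ℝ → ℝ := fun θ => fderiv ℝ (fun z : ℝ × ℝ => c z.1 z.2) (t, θ) (1, 0) with hcT
    set vT : ℝ → ℝ := fun θ => fderiv ℝ (fun z : ℝ × ℝ => v z.1 z.2) (t, θ) (1, 0) with hvT
    have hmem : ∀ θ, (t, θ) ∈ S ×ˢ (univ : Set ℝ) := fun θ => ⟨ht, mem_univ _⟩
    have hc1 : ∀ θ, HasDerivAt (fun s => c s θ) (cT θ) t := fun θ =>
      hasDerivAt_slice hΩ hcs (hmem θ)
    have hv1 : ∀ θ, HasDerivAt (fun s => v s θ) (vT θ) t := fun θ =>
      hasDerivAt_slice hΩ hvs (hmem θ)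
    have hcT' : ∀ θ, HasDerivAt cT (vT θ) θ := by
      intro θ
      exact hasDerivAt_fderiv_swap hΩ hcs (fun p hp => hcd p.1 hp.1 p.2) (hmem θ)
    set R : ℝ × ℝ → ℝ := fun z => h (c z.1 z.2) * v z.1 z.2 - c z.1 z.2 with hR
    have hRs : ContDiffOn ℝ ∞ R (S ×ˢ univ) :=
      ((hhs.comp_contDiffOn hcs).mul hvs).sub hcs
    have hvT' : ∀ θ, HasDerivAt vT (fderiv ℝ R (t, θ) (1, 0)) θ := by
      intro θ
      refine hasDerivAt_fderiv_swap hΩ hvs (fun p hp => ?_) (hmem θ)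
      exact hvd p.1 hp.1 p.2
    have hRt : ∀ θ, fderiv ℝ R (t, θ) (1, 0)
        = deriv h (c t θ) * cT θ * v t θ + h (c t θ) * vT θ - cT θ := by
      intro θ
      have h1 := hasDerivAt_slice hΩ hRs (hmem θ)
      have hh' : HasDerivAt h (deriv h (c t θ)) (c t θ) :=
        (hhs.differentiable (by simp) _).hasDerivAt
      have h2 := ((hh'.comp t (hc1 θ)).mul (hv1 θ)).sub (hc1 θ)
      exact h1.unique h2
    set J : ℝ → ℝ := fun θ => v t θ * vT θ - (h (c t θ) * v t θ - c t θ) * cT θ with hJ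
    have hJ' : ∀ θ, HasDerivAt J (h (c t θ) * J θ) θ := by
      intro θ
      have hh' : HasDerivAt h (deriv h (c t θ)) (c t θ) :=
        (hhs.differentiable (by simp) _).hasDerivAt
      have hhc' : HasDerivAt (fun θ => h (c t θ)) (deriv h (c t θ) * v t θ) θ :=
        hh'.comp θ (hcd t ht θ)
      have hvd' : HasDerivAt (v t) (h (c t θ) * v t θ - c t θ) θ := hvd t ht θ
      have e1 := hvd'.mul (hvT' θ)
      have e2 := ((hhc'.mul hvd').sub (hcd t ht θ)).mul (hcT' θ)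
      have e3 := e1.sub e2
      refine e3.congr_deriv ?_
      rw [hRt θ]
      simp only [hJ]
      simp only [Pi.mul_apply, Pi.sub_apply]
      ring
    have hhcc : Continuous (fun x => h (c t x)) :=
      hhc.comp (continuous_iff_continuousAt.2 fun x => (hcd t ht x).continuousAt)
    set A : ℝ → ℝ := fun θ => ∫ x in (0:ℝ)..θ, h (c t x) with hA
    have hA' : ∀ θ, HasDerivAt A (h (c t θ)) θ := fun θ =>
      intervalIntegral.integral_hasDerivAt_right (hhcc.intervalIntegrable _ _)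
        (hhcc.stronglyMeasurableAtFilter _ _) hhcc.continuousAt
    have hK : ∀ θ, HasDerivAt (fun θ => J θ * Real.exp (-A θ)) 0 θ := by
      intro θ
      have e1 := (hJ' θ).mul ((hA' θ).neg.exp)
      refine e1.congr_deriv ?_
      ring
    have hconst : ∀ θ, J θ * Real.exp (-A θ) = J 0 * Real.exp (-A 0) := by
      intro θ
      exact is_const_of_deriv_eq_zero (fun x => (hK x).differentiableAt)
        (fun x => (hK x).deriv) θ 0
    have hJ0 : J 0 = t := by
      have ec : cT 0 = 1 := by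
        have h1 : HasDerivAt (fun s => c s 0) 1 t := by
          refine (hasDerivAt_id t).congr_of_eventuallyEq ?_
          filter_upwards [hSo.mem_nhds ht] with s hs
          simp [hc0 s hs]
        exact (hc1 0).unique h1
      have ev : vT 0 = 0 := by
        have h1 : HasDerivAt (fun s => v s 0) 0 t := by
          refine (hasDerivAt_const t (0:ℝ)).congr_of_eventuallyEq ?_
          filter_upwards [hSo.mem_nhds ht] with s hs
          simp [hv0 s hs]
        exact (hv1 0).unique h1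
      simp only [hJ]
      rw [ec, ev, hv0 t ht, hc0 t ht]
      ring
    have hA0 : A 0 = 0 := by simp [hA]
    have hJpos : 0 < J θ := by
      have h1 := hconst θ
      rw [hJ0, hA0] at h1
      have ht0 : 0 < t := ha1.trans ht.1
      have h2 : 0 < J θ * Real.exp (-A θ) := by rw [h1]; positivity
      exact (mul_pos_iff_of_pos_right (Real.exp_pos _)).1 h2
    -- identify the expression with `J θ`
    have d1 : deriv (fun s => deriv (y s) θ) t = -cT θ := by
      have h1 : (fun s => deriv (y s) θ) =ᶠ[𝓝 t] fun s => -c s θ := by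
        filter_upwards [hSo.mem_nhds ht] with s hs
        rw [hyderiv s hs]
      rw [h1.deriv_eq]
      exact (hc1 θ).neg.deriv
    have d2 : deriv (fun s => y s θ) t = vT θ - h (c t θ) * cT θ := by
      have h1 := (hv1 θ).sub ((hfd (c t θ)).comp t (hc1 θ))
      exact h1.deriv
    have d3 : deriv (y t) θ = -c t θ := (hyd t ht θ).deriv
    rw [d1, d2, d3, hydd t ht θ]
    have : -c t θ * -cT θ - (vT θ - h (c t θ) * cT θ) * -v t θ = J θ := by
      simp only [hJ]; ring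
    rw [this]
    exact hJpos
  refine ⟨{ f := f, L := 2 * (π + I.κ), t1 := √I.a1, t2 := √I.a2, y := y, hL := by linarith,
            ht := ha12, hf := hfs, hy := ?_, per := ?_, ode := ?_, jac := hjac, zeros := ?_,
            nondeg := ?_ }⟩
  · exact hvs.sub (hfs.comp_contDiffOn hcs)
  · intro t ht θ
    simp only [hy]
    rw [hvper t ht, hper t ht]
  · intro t ht θ
    rw [hydd t ht θ, (hyd t ht θ).deriv, hfeven]
    simp only [hy]
    ring
  · intro t ht
    obtain ⟨θ₀, hθ₀⟩ := hzer t ht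
    refine ⟨θ₀, fun θ hθ h0 => ?_⟩
    rw [(hyd t ht θ).deriv, neg_eq_zero] at h0
    exact hθ₀ θ hθ h0
  · -- a visited slope with `f'' ≠ 0`
    obtain ⟨s, hs, hqs⟩ := I.hne
    have hρ : 0 < √s := Real.sqrt_pos.2 hs.1
    have hρa : √s < √I.a2 := Real.sqrt_lt_sqrt hs.1.le hs.2
    obtain ⟨ξ, hξ, hξe⟩ := exists_deriv_eq_slope h hρ hhc.continuousOn
      (hhs.differentiable (by simp)).differentiableOn
    have hslope : deriv h ξ ≠ 0 := by
      rw [hξe]
      have e1 : h 0 = 0 := by simp [hh]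
      have e2 : h (√s) = 2 * √s * I.q s := by
        simp only [hh]; rw [Real.sq_sqrt hs.1.le]
      rw [e1, e2, sub_zero, sub_zero]
      have := hρ.ne'
      positivity
    obtain ⟨t, ht1, ht2⟩ := exists_between (max_lt ha12 hρa)
    have ht : t ∈ S := ⟨lt_of_le_of_lt (le_max_left _ _) ht1, ht2⟩
    have hξt : ξ ∈ Ioo 0 t := ⟨hξ.1, hξ.2.trans (lt_of_le_of_lt (le_max_right _ _) ht1)⟩
    obtain ⟨θ, hcθ, hvθ⟩ := hvis t ht ξ hξt
    refine ⟨t, ht, θ, ?_, ?_⟩
    · rw [hfderiv, (hyd t ht θ).deriv, hcθ]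
      have : deriv h (-ξ) = deriv h ξ := by
        have e1 : (fun x => h (-x)) = fun x => -h x := funext hhodd
        have e2 : deriv (fun x => h (-x)) ξ = -deriv h (-ξ) := deriv_comp_neg h ξ
        rw [e1] at e2
        have e3 : deriv (fun x => -h x) ξ = -deriv h ξ := by
          simp [deriv.fun_neg]
        rw [e3] at e2
        linarith
      rw [this]
      exact hslope
    · rw [hydd t ht θ]
      exact neg_ne_zero.2 hvθ

end Pool.Agent.Unicorn
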