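import Pool.Agent.Unicorn.C1
import Pool.Agent.Unicorn.C3a

/-!
# Unicorn, module C3: `IsoQ → IsoFamily`
-/

set_option autoImplicit false

open Set
open scoped ContDiff

namespace Pool.Agent.Unicorn

/-- The smooth dependence statement used in `C3a`, from module C1. -/
theorem flowSmooth : FlowSmooth :=
  fun _ hg _ hS _ h0 hu => contDiffOn_of_solutions hg hS h0 hu

/-- `IsoQ → IsoFamily`. -/
theorem isoFamily_of_isoQ (I : IsoQ) : Nonempty IsoFamily :=
  isoFamily_of_isoQ_of_flowSmooth flowSmooth I

end Pool.Agent.Unicorn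

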