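import Pool.Agent.Unicorn.B11
import Pool.Agent.Unicorn.B8a
import Pool.Agent.Unicorn.B7_L1
import Pool.Agent.Unicorn.B7_L2
import Pool.Agent.Unicorn.B7_L5
import Pool.Agent.Unicorn.B7_L6
import Pool.Agent.Unicorn.B7_L7
import Pool.Agent.Unicorn.C3

/-!
# Unicorn, Part B: assembly
-/

set_option autoImplicit false

open Set MeasureTheory intervalIntegral Filter Topology
open scoped ContDiff BoundedContinuousFunction

namespace Pool.Agent.Unicorn

lemma kEval_of {l : ℝ} [h0 : Fact (0 < l)] [h1 : Fact (l < 1)] {q : XX l} (hq : ‖q‖ < rr l) :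
    KEval l q where
  W := WW_sol hq
  k0 := fun p => K0_apply (WW_near hq) p
  k1 := fun p => K1_apply (WW_near hq) p
  k2 := fun p => K2_apply (WW_near hq) p

theorem exists_ESys (l : ℝ) (hl0 : 0 < l) (hl1 : l < 1) : Nonempty (ESys l) := by
  haveI h0 : Fact (0 < l) := ⟨hl0⟩
  haveI h1 : Fact (l < 1) := ⟨hl1⟩
  have hn : ∀ (ε : ℝ) (q : XX l), |ε| * ‖q‖ < rr l → ‖ε • q‖ < rr l := fun ε q h => by
    rwa [norm_smul, Real.norm_eq_abs]
  exact ⟨{
    hl0 := hl0
    hl1 := hl1
    T := Tt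
    Xi := Xi
    E := Ee
    r0 := rr l
    hr0 := rr_pos l
    hT := L1.cd_Tt
    hXi := L1.cd_Xi
    abel := fun ε q _ a => abel_field ε q a
    Xi_left := fun ε q _ => Xi_left ε q
    Xi_zero := fun q b => Xi_zero q b
    causal := fun ε q q' h h' b hb => Xi_causal ε q q' h h' b hb
    E_cont := fun q _ a _ => L7.E_cont q a
    E_gt := fun q hq a _ s hs => L7.E_gt hq hs.2
    E_eq := fun q hq a ha s hs => L7.E_eq hq ha hs
    T_eq := fun ε q _ hq a => T_field (kEval_of (hn ε q hq))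
      (kEval_of (by rw [norm_neg]; exact hn ε q hq)) a }⟩

theorem exists_isoQ : Nonempty IsoQ := by
  obtain ⟨B, hB⟩ := exists_baseSol
  obtain ⟨A⟩ := exists_ESys B.l (by rw [hB]; norm_num) (by rw [hB]; norm_num)
  exact isoQ_of B A

theorem exists_isoFamily : Nonempty IsoFamily := by
  obtain ⟨I⟩ := exists_isoQ
  exact isoFamily_of_isoQ I

end Pool.Agent.Unicorn
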