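import Pool.Agent.Unicorn.A3b

/-!
# Unicorn project, Part A, module A4: the metric of an isochronous family contradicts the
statement that Landsberg implies Berwald.
-/

set_option autoImplicit false

open Set Filter Topology
open scoped ContDiff

namespace Pool.Agent.Unicorn

theorem not_main_of_isoFamily (D : IsoFamily) :
    ¬ (∀ (n : ℕ) (U : Set (Fin n → ℝ)) (F : (Fin n → ℝ) → (Fin n → ℝ) → ℝ)
      (G : (Fin n → ℝ) → (Fin n → ℝ) → (Fin n → ℝ)),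
      IsOpen U →
      ContDiffOn ℝ ((⊤ : ℕ∞) : WithTop ℕ∞)
        (fun p : (Fin n → ℝ) × (Fin n → ℝ) => F p.1 p.2) (U ×ˢ {y | y ≠ 0}) →
      (∀ x ∈ U, ∀ y : Fin n → ℝ, y ≠ 0 → 0 < F x y) →
      (∀ x ∈ U, ∀ y : Fin n → ℝ, ∀ t : ℝ, 0 < t → F x (t • y) = t * F x y) →
      (∀ x ∈ U, ∀ y : Fin n → ℝ, y ≠ 0 → ∀ v : Fin n → ℝ, v ≠ 0 →
        0 < ∑ i : Fin n, ∑ j : Fin n,
          (1 / 2 : ℝ) * fderiv ℝ (fun w => fderiv ℝ (fun u => F x u ^ 2) w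
              (Pi.single j (1 : ℝ) : Fin n → ℝ)) y (Pi.single i (1 : ℝ) : Fin n → ℝ)
            * v i * v j) →
      (∀ x ∈ U, ∀ y : Fin n → ℝ, y ≠ 0 → ∀ l : Fin n,
        ∑ i : Fin n,
          (1 / 2 : ℝ) * fderiv ℝ (fun w => fderiv ℝ (fun u => F x u ^ 2) w
              (Pi.single i (1 : ℝ) : Fin n → ℝ)) y (Pi.single l (1 : ℝ) : Fin n → ℝ)
            * G x y i
        = (1 / 4 : ℝ) * ((∑ k : Fin n,
              fderiv ℝ (fun z => fderiv ℝ (fun u => F z u ^ 2) y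
                (Pi.single l (1 : ℝ) : Fin n → ℝ)) x (Pi.single k (1 : ℝ) : Fin n → ℝ) * y k)
            - fderiv ℝ (fun z => F z y ^ 2) x (Pi.single l (1 : ℝ) : Fin n → ℝ))) →
      (∀ x ∈ U, ∀ y : Fin n → ℝ, y ≠ 0 → ∀ j k l : Fin n,
        ∑ i : Fin n,
          ((1 / 2 : ℝ) * fderiv ℝ (fun u => F x u ^ 2) y (Pi.single i (1 : ℝ) : Fin n → ℝ))
          * fderiv ℝ (fun w₂ => fderiv ℝ (fun w₁ => fderiv ℝ (fun u => G x u i) w₁
                (Pi.single l (1 : ℝ) : Fin n → ℝ)) w₂ (Pi.single k (1 : ℝ) : Fin n → ℝ)) y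
              (Pi.single j (1 : ℝ) : Fin n → ℝ) = 0) →
      ∀ x ∈ U, ∀ y : Fin n → ℝ, y ≠ 0 → ∀ i j k l : Fin n,
        fderiv ℝ (fun w₂ => fderiv ℝ (fun w₁ => fderiv ℝ (fun u => G x u i) w₁
              (Pi.single l (1 : ℝ) : Fin n → ℝ)) w₂ (Pi.single k (1 : ℝ) : Fin n → ℝ)) y
            (Pi.single j (1 : ℝ) : Fin n → ℝ) = 0) := by
  intro H
  have hU : IsOpen {x : Fin 2 → ℝ | x 0 ∈ Ioo D.t1 D.t2} :=
    isOpen_Ioo.preimage (continuous_apply 0)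
  have key := H 2 {x : Fin 2 → ℝ | x 0 ∈ Ioo D.t1 D.t2} D.F (fun x Y i => D.G x Y i) hU
    IsoFamily.F_contDiffOn
    (fun x hx y hy => IsoFamily.F_pos hx hy)
    (fun x _ y t ht => IsoFamily.F_smul x y ht)
    (fun x hx y hy v hv => IsoFamily.F_convex hx hy hv)
    (fun x hx y hy l => IsoFamily.spray hx hy l)
    (fun x hx y hy j k l => IsoFamily.landsberg hx hy j k l)
  obtain ⟨x, Y, hx, hY, i, j, k, l, hne⟩ := IsoFamily.not_berwald (D := D)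
  exact hne (key x hx Y hY i j k l)

end Pool.Agent.Unicorn
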