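import Pool.Agent.Unicorn.ADefs

/-!
# Unicorn project, Part A, module A1

For fixed `t` and `Y ≠ 0` the function `g(θ) = <a(t,θ),Y>` has, modulo the period, exactly one
critical point with positive value, and this point is the global maximum.
-/

set_option autoImplicit false

open Set Filter Topology
open scoped ContDiff

namespace Pool.Agent.Unicorn

/-- Strict local maximum from a negative second derivative. -/
theorem strict_local_max {g g' : ℝ → ℝ} {c x : ℝ} (hg : ∀ θ, HasDerivAt g (g' θ) θ)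
    (hg' : HasDerivAt g' c x) (h0 : g' x = 0) (hc : c < 0) :
    ∃ ε > 0, ∀ y, y ≠ x → |y - x| < ε → g y < g x := by
  have h1 : Tendsto (slope g' x) (𝓝[≠] x) (𝓝 c) := hasDerivAt_iff_tendsto_slope.1 hg'
  have h2 : ∀ᶠ y in 𝓝[≠] x, slope g' x y < 0 := h1.eventually (gt_mem_nhds hc)
  rw [eventually_nhdsWithin_iff, Metric.eventually_nhds_iff] at h2
  obtain ⟨ε, hε, h3⟩ := h2
  refine ⟨ε, hε, ?_⟩
  have key : ∀ ξ, ξ ≠ x → |ξ - x| < ε → (ξ - x)⁻¹ * g' ξ < 0 := by
    intro ξ h4 h5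
    have := h3 (y := ξ) (by rwa [Real.dist_eq]) h4
    rwa [slope_def_field, h0, sub_zero, div_eq_inv_mul] at this
  intro y hy hyε
  rcases lt_or_gt_of_ne hy with hlt | hgt
  · obtain ⟨ξ, ⟨h5, h6⟩, h7⟩ := exists_hasDerivAt_eq_slope g g' hlt
      (fun z _ => (hg z).continuousAt.continuousWithinAt) (fun z _ => hg z)
    have h8 := key ξ h6.ne (by rw [abs_of_neg (by linarith)]; rw [abs_of_neg (by linarith)] at hyε; linarith)
    have h9 : (ξ - x)⁻¹ < 0 := inv_lt_zero.2 (by linarith)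
    have h10 : 0 < g' ξ := by nlinarith [mul_pos_of_neg_of_neg h9 h9]
    have h11 : g x - g y = g' ξ * (x - y) := by
      rw [h7]; field_simp [sub_ne_zero.2 hy.symm]
    nlinarith [mul_pos h10 (sub_pos.2 hlt)]
  · obtain ⟨ξ, ⟨h5, h6⟩, h7⟩ := exists_hasDerivAt_eq_slope g g' hgt
      (fun z _ => (hg z).continuousAt.continuousWithinAt) (fun z _ => hg z)
    have h8 := key ξ h5.ne' (by rw [abs_of_pos (by linarith)]; rw [abs_of_pos (by linarith)] at hyε; linarith)
    have h9 : 0 < (ξ - x)⁻¹ := inv_pos.2 (by linarith)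
    have h10 : g' ξ < 0 := by nlinarith
    have h11 : g y - g x = g' ξ * (y - x) := by
      rw [h7]; field_simp [sub_ne_zero.2 hy]
    nlinarith [mul_pos (neg_pos.2 h10) (sub_pos.2 hgt)]

namespace IsoFamily

variable (D : IsoFamily)

/-- `g = <a,Y>` -/
noncomputable def g (t : ℝ) (Y : Fin 2 → ℝ) (θ : ℝ) : ℝ := D.a t θ 0 * Y 0 + D.a t θ 1 * Y 1

/-- `g' = <b,Y>` -/
noncomputable def g' (t : ℝ) (Y : Fin 2 → ℝ) (θ : ℝ) : ℝ := D.b t θ 0 * Y 0 + D.b t θ 1 * Y 1

variable {D} {t : ℝ} (ht : t ∈ Ioo D.t1 D.t2)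

include ht

theorem g_hasDerivAt (Y : Fin 2 → ℝ) (θ : ℝ) : HasDerivAt (D.g t Y) (D.g' t Y θ) θ :=
  ((a_hasDerivAt ht θ 0).mul_const _).add ((a_hasDerivAt ht θ 1).mul_const _)

theorem g'_hasDerivAt (Y : Fin 2 → ℝ) (θ : ℝ) :
    HasDerivAt (D.g' t Y) (D.I t θ * D.g' t Y θ - D.g t Y θ) θ := by
  refine HasDerivAt.congr_deriv
    (((b_hasDerivAt ht θ 0).mul_const _).add ((b_hasDerivAt ht θ 1).mul_const _)) ?_
  rw [g, g']; ring

theorem g_per (Y : Fin 2 → ℝ) (θ : ℝ) : D.g t Y (θ + D.L) = D.g t Y θ := by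
  simp only [g, (D.adm_a 0).per t ht, (D.adm_a 1).per t ht]

theorem g'_per (Y : Fin 2 → ℝ) (θ : ℝ) : D.g' t Y (θ + D.L) = D.g' t Y θ := by
  simp only [g', (D.adm_b 0).per t ht, (D.adm_b 1).per t ht]

theorem g_continuous (Y : Fin 2 → ℝ) : Continuous (D.g t Y) :=
  continuous_iff_continuousAt.2 fun θ => (g_hasDerivAt ht Y θ).continuousAt

theorem g_nondeg {Y : Fin 2 → ℝ} (hY : Y ≠ 0) {θ : ℝ} (h1 : D.g t Y θ = 0)
    (h2 : D.g' t Y θ = 0) : False := by
  have hd := dl_ne ht θ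
  rw [g] at h1
  rw [g'] at h2
  apply hY
  have e0 : D.dl t θ * Y 0 = 0 := by
    rw [dl]; linear_combination D.b t θ 1 * h1 - D.a t θ 1 * h2
  have e1 : D.dl t θ * Y 1 = 0 := by
    rw [dl]; linear_combination (- D.b t θ 0) * h1 + D.a t θ 0 * h2
  funext i
  fin_cases i
  · exact (mul_eq_zero.1 e0).resolve_left hd
  · exact (mul_eq_zero.1 e1).resolve_left hd

/-- the zeros of `a₁ = -y_θ` lie on a lattice `θ₀ + (L/2) ℤ` -/
theorem zeros_lattice : ∃ θ₀, ∀ z, D.a t z 1 = 0 → ∃ m : ℤ, z = θ₀ + m * (D.L / 2) := by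
  obtain ⟨θ₀, h⟩ := D.zeros t ht
  refine ⟨θ₀, fun z hz => ?_⟩
  have hL := D.hL
  obtain ⟨n, hn, -⟩ := existsUnique_sub_zsmul_mem_Ico hL z θ₀
  have hper : Function.Periodic (fun θ => D.a t θ 1) D.L := fun θ => (D.adm_a 1).per t ht θ
  have h1 : D.a t (z - n • D.L) 1 = 0 := (hper.sub_zsmul_eq (x := z) n).trans hz
  have h2 := h (z - n • D.L) hn (by
    have : - deriv (D.y t) (z - n • D.L) = 0 := h1
    linarith)
  rcases h2 with h2 | h2
  · refine ⟨2 * n, ?_⟩
    rw [zsmul_eq_mul] at h2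
    push_cast
    linarith
  · refine ⟨2 * n + 1, ?_⟩
    rw [zsmul_eq_mul] at h2
    push_cast
    linarith

/-- three zeros of `a₁` do not fit into an open interval of length `L`. -/
theorem no_three_zeros {c z1 z2 z3 : ℝ} (h1 : c < z1) (h12 : z1 < z2) (h23 : z2 < z3)
    (h3 : z3 < c + D.L) (e1 : D.a t z1 1 = 0) (e2 : D.a t z2 1 = 0) (e3 : D.a t z3 1 = 0) :
    False := by
  obtain ⟨θ₀, h⟩ := zeros_lattice ht
  obtain ⟨m1, hm1⟩ := h z1 e1
  obtain ⟨m2, hm2⟩ := h z2 e2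
  obtain ⟨m3, hm3⟩ := h z3 e3
  have hL := D.hL
  have h4 : m1 < m2 := by
    have : (m1 : ℝ) < m2 := by
      by_contra hcon
      push Not at hcon
      nlinarith
    exact_mod_cast this
  have h5 : m2 < m3 := by
    have : (m2 : ℝ) < m3 := by
      by_contra hcon
      push Not at hcon
      nlinarith
    exact_mod_cast this
  have h6 : m1 + 2 ≤ m3 := by omega
  have h7 : (m1 : ℝ) + 2 ≤ m3 := by exact_mod_cast h6
  nlinarith

/-- Sturm separation: between two zeros of `g` there is a zero of `a₁`, if `Y 0 ≠ 0`. -/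
theorem sturm {Y : Fin 2 → ℝ} (hY0 : Y 0 ≠ 0) {z1 z2 : ℝ} (h12 : z1 < z2)
    (h1 : D.g t Y z1 = 0) (h2 : D.g t Y z2 = 0) : ∃ z ∈ Ioo z1 z2, D.a t z 1 = 0 := by
  by_contra hcon
  push Not at hcon
  have hY : Y ≠ 0 := fun h => hY0 (by rw [h]; rfl)
  have hend : ∀ z, D.g t Y z = 0 → D.a t z 1 ≠ 0 := by
    intro z hz ha
    have hd := dl_ne ht z
    rw [g, ha, zero_mul, add_zero] at hz
    have ha0 : D.a t z 0 = 0 := (mul_eq_zero.1 hz).resolve_right hY0
    apply hd
    rw [dl, ha, ha0]; ring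
  have hne : ∀ z ∈ Icc z1 z2, D.a t z 1 ≠ 0 := by
    intro z hz
    rcases eq_or_lt_of_le hz.1 with h | h
    · rw [← h]; exact hend z1 h1
    · rcases eq_or_lt_of_le hz.2 with h' | h'
      · rw [h']; exact hend z2 h2
      · exact hcon z ⟨h, h'⟩
  -- quotient
  have hder : ∀ z ∈ Ioo z1 z2, HasDerivAt (fun θ => D.g t Y θ / D.a t θ 1)
      ((D.g' t Y z * D.a t z 1 - D.g t Y z * D.b t z 1) / D.a t z 1 ^ 2) z := by
    intro z hz
    exact (g_hasDerivAt ht Y z).div (a_hasDerivAt ht z 1) (hne z (Ioo_subset_Icc_self hz))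
  have hcont : ContinuousOn (fun θ => D.g t Y θ / D.a t θ 1) (Icc z1 z2) := by
    refine ContinuousOn.div (g_continuous ht Y).continuousOn ?_ hne
    exact fun z _ => (a_hasDerivAt ht z 1).continuousAt.continuousWithinAt
  obtain ⟨z, hz, hz0⟩ := exists_hasDerivAt_eq_zero h12 hcont (by simp only [h1, h2, zero_div]) hder
  have hza := hne z (Ioo_subset_Icc_self hz)
  have h3 : D.g' t Y z * D.a t z 1 - D.g t Y z * D.b t z 1 = 0 := by
    rcases div_eq_zero_iff.1 hz0 with h | h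
    · exact h
    · exact absurd h (pow_ne_zero 2 hza)
  have h4 : D.dl t z * Y 0 = 0 := by
    rw [g, g'] at h3
    rw [dl]
    linarith
  exact (mul_ne_zero (dl_ne ht z) hY0) h4

/-- between two critical points with positive values there are two zeros of `g`. -/
theorem two_zeros {Y : Fin 2 → ℝ} (hY : Y ≠ 0) {x1 x2 : ℝ} (h12 : x1 < x2)
    (c1 : D.g' t Y x1 = 0) (p1 : 0 < D.g t Y x1) (c2 : D.g' t Y x2 = 0) (p2 : 0 < D.g t Y x2) :
    ∃ z1 z2, x1 < z1 ∧ z1 < z2 ∧ z2 < x2 ∧ D.g t Y z1 = 0 ∧ D.g t Y z2 = 0 := by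
  have hcont := g_continuous ht Y
  obtain ⟨m, hm, hmin⟩ := isCompact_Icc.exists_isMinOn (nonempty_Icc.2 h12.le) hcont.continuousOn
  have hmin' : ∀ z ∈ Icc x1 x2, D.g t Y m ≤ D.g t Y z := fun z hz => hmin hz
  have hm1 : x1 < m := by
    rcases eq_or_lt_of_le hm.1 with h | h
    · exfalso
      have hd := g'_hasDerivAt ht Y x1
      rw [c1, mul_zero, zero_sub] at hd
      obtain ⟨ε, hε, hs⟩ := strict_local_max (g_hasDerivAt ht Y) hd c1 (by linarith)
      have hy : x1 + min (ε / 2) (x2 - x1) ≠ x1 := by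
        have : 0 < min (ε / 2) (x2 - x1) := lt_min (by linarith) (by linarith)
        intro h'; linarith
      have hpos : 0 < min (ε / 2) (x2 - x1) := lt_min (by linarith) (by linarith)
      have h5 := hs _ hy (by
        rw [add_sub_cancel_left, abs_of_pos hpos]
        exact (min_le_left _ _).trans_lt (by linarith))
      have h6 := hmin' (x1 + min (ε / 2) (x2 - x1)) ⟨by linarith, by
        have := min_le_right (ε / 2) (x2 - x1); linarith⟩
      rw [← h] at h6
      linarith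
    · exact h
  have hm2 : m < x2 := by
    rcases eq_or_lt_of_le hm.2 with h | h
    · exfalso
      have hd := g'_hasDerivAt ht Y x2
      rw [c2, mul_zero, zero_sub] at hd
      obtain ⟨ε, hε, hs⟩ := strict_local_max (g_hasDerivAt ht Y) hd c2 (by linarith)
      have hpos : 0 < min (ε / 2) (x2 - x1) := lt_min (by linarith) (by linarith)
      have hy : x2 - min (ε / 2) (x2 - x1) ≠ x2 := by
        intro h'; linarith
      have h5 := hs _ hy (by
        rw [sub_sub_cancel_left, abs_neg, abs_of_pos hpos]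
        exact (min_le_left _ _).trans_lt (by linarith))
      have h6 := hmin' (x2 - min (ε / 2) (x2 - x1)) ⟨by
        have := min_le_right (ε / 2) (x2 - x1); linarith, by linarith⟩
      rw [h] at h6
      linarith
    · exact h
  have hloc : IsLocalMin (D.g t Y) m := by
    filter_upwards [Icc_mem_nhds hm1 hm2] with z hz using hmin' z hz
  have cm : D.g' t Y m = 0 := hloc.hasDerivAt_eq_zero (g_hasDerivAt ht Y m)
  have hneg : D.g t Y m < 0 := by
    rcases lt_trichotomy (D.g t Y m) 0 with h | h | h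
    · exact h
    · exact (g_nondeg ht hY h cm).elim
    · exfalso
      have hd := g'_hasDerivAt ht Y m
      rw [cm, mul_zero, zero_sub] at hd
      obtain ⟨ε, hε, hs⟩ := strict_local_max (g_hasDerivAt ht Y) hd cm (by linarith)
      have hpos : 0 < min (ε / 2) (x2 - m) := lt_min (by linarith) (by linarith)
      have h5 := hs (m + min (ε / 2) (x2 - m)) (by intro h'; linarith) (by
        rw [add_sub_cancel_left, abs_of_pos hpos]
        exact (min_le_left _ _).trans_lt (by linarith))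
      have h6 := hmin' (m + min (ε / 2) (x2 - m)) ⟨by linarith, by
        have := min_le_right (ε / 2) (x2 - m); linarith⟩
      linarith
  obtain ⟨z1, hz1, e1⟩ := intermediate_value_Icc' hm1.le hcont.continuousOn
    (show (0 : ℝ) ∈ Icc (D.g t Y m) (D.g t Y x1) from ⟨hneg.le, p1.le⟩)
  obtain ⟨z2, hz2, e2⟩ := intermediate_value_Icc hm2.le hcont.continuousOn
    (show (0 : ℝ) ∈ Icc (D.g t Y m) (D.g t Y x2) from ⟨hneg.le, p2.le⟩)
  refine ⟨z1, z2, ?_, ?_, ?_, e1, e2⟩
  · refine lt_of_le_of_ne hz1.1 fun h => ?_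
    rw [← h] at e1; linarith
  · have h1 : z1 < m := lt_of_le_of_ne hz1.2 fun h => by rw [h] at e1; linarith
    exact h1.trans_le hz2.1
  · refine lt_of_le_of_ne hz2.2 fun h => ?_
    rw [h] at e2; linarith

/-- two positive critical points cannot be at distance `< L`. -/
theorem crit_unique_aux {Y : Fin 2 → ℝ} (hY : Y ≠ 0) {x1 x2 : ℝ} (h12 : x1 < x2)
    (h21 : x2 < x1 + D.L)
    (c1 : D.g' t Y x1 = 0) (p1 : 0 < D.g t Y x1) (c2 : D.g' t Y x2 = 0) (p2 : 0 < D.g t Y x2) :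
    False := by
  obtain ⟨z1, z2, h1, h2, h3, e1, e2⟩ := two_zeros ht hY h12 c1 p1 c2 p2
  obtain ⟨z3, z4, h4, h5, h6, e3, e4⟩ := two_zeros ht hY h21 c2 p2
    (by rw [g'_per ht]; exact c1) (by rw [g_per ht]; exact p1)
  by_cases hY0 : Y 0 = 0
  · have hY1 : Y 1 ≠ 0 := by
      intro h
      apply hY
      funext i
      fin_cases i
      · exact hY0
      · exact h
    have key : ∀ z, D.g t Y z = 0 → D.a t z 1 = 0 := by
      intro z hz
      rw [g, hY0, mul_zero, zero_add] at hz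
      exact (mul_eq_zero.1 hz).resolve_right hY1
    exact no_three_zeros ht h1 h2 (h3.trans h4) (h5.trans h6) (key _ e1) (key _ e2) (key _ e3)
  · obtain ⟨s1, hs1, f1⟩ := sturm ht hY0 h2 e1 e2
    obtain ⟨s2, hs2, f2⟩ := sturm ht hY0 (h3.trans h4) e2 e3
    obtain ⟨s3, hs3, f3⟩ := sturm ht hY0 h5 e3 e4
    exact no_three_zeros ht (h1.trans hs1.1) (hs1.2.trans hs2.1) (hs2.2.trans hs3.1)
      (hs3.2.trans h6) f1 f2 f3

/-- **A1, uniqueness**: positive critical points of `g` are unique modulo `L`. -/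
theorem crit_unique {Y : Fin 2 → ℝ} (hY : Y ≠ 0) {x1 x2 : ℝ}
    (c1 : D.g' t Y x1 = 0) (p1 : 0 < D.g t Y x1) (c2 : D.g' t Y x2 = 0) (p2 : 0 < D.g t Y x2) :
    ∃ n : ℤ, x2 = x1 + n * D.L := by
  obtain ⟨n, hn, -⟩ := existsUnique_sub_zsmul_mem_Ico D.hL x2 x1
  have hper : Function.Periodic (D.g t Y) D.L := fun θ => g_per ht Y θ
  have hper' : Function.Periodic (D.g' t Y) D.L := fun θ => g'_per ht Y θ
  have c3 : D.g' t Y (x2 - n • D.L) = 0 := by rw [hper'.sub_zsmul_eq]; exact c2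
  have p3 : 0 < D.g t Y (x2 - n • D.L) := by rw [hper.sub_zsmul_eq]; exact p2
  rcases eq_or_lt_of_le hn.1 with h | h
  · refine ⟨n, ?_⟩
    rw [zsmul_eq_mul] at h
    linarith
  · exact (crit_unique_aux ht hY h hn.2 c1 p1 c3 p3).elim

/-- **A1, existence**: `g` attains its maximum, at a critical point with positive value. -/
theorem exists_max {Y : Fin 2 → ℝ} (hY : Y ≠ 0) :
    ∃ θm, (∀ θ, D.g t Y θ ≤ D.g t Y θm) ∧ 0 < D.g t Y θm ∧ D.g' t Y θm = 0 := by
  have hL := D.hL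
  have hcont := g_continuous ht Y
  obtain ⟨m, -, hmax⟩ := isCompact_Icc.exists_isMaxOn
    (nonempty_Icc.2 (show (0 : ℝ) ≤ D.L from hL.le)) hcont.continuousOn
  have hper : Function.Periodic (D.g t Y) D.L := fun θ => g_per ht Y θ
  have hmax' : ∀ θ, D.g t Y θ ≤ D.g t Y m := by
    intro θ
    obtain ⟨n, hn, -⟩ := existsUnique_sub_zsmul_mem_Ico hL θ 0
    have h1 : D.g t Y (θ - n • D.L) ≤ D.g t Y m :=
      hmax (show θ - n • D.L ∈ Icc 0 D.L from ⟨hn.1, by linarith [hn.2]⟩)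
    rwa [hper.sub_zsmul_eq] at h1
  have hloc : IsLocalMax (D.g t Y) m := Eventually.of_forall hmax'
  have cm : D.g' t Y m = 0 := hloc.hasDerivAt_eq_zero (g_hasDerivAt ht Y m)
  refine ⟨m, hmax', ?_, cm⟩
  rcases lt_trichotomy (D.g t Y m) 0 with h | h | h
  · exfalso
    -- negative value: strict local minimum
    have hd := (g'_hasDerivAt ht Y m).neg
    rw [cm, mul_zero, zero_sub, neg_neg] at hd
    obtain ⟨ε, hε, hs⟩ := strict_local_max (g := fun θ => - D.g t Y θ)
      (g' := fun θ => - D.g' t Y θ) (fun θ => (g_hasDerivAt ht Y θ).neg) hd (by simp [cm]) h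
    have h5 : - D.g t Y (m + ε / 2) < - D.g t Y m := hs (m + ε / 2) (by intro h'; linarith) (by
      rw [add_sub_cancel_left, abs_of_pos (by linarith)]; linarith)
    have h6 := hmax' (m + ε / 2)
    linarith
  · exact (g_nondeg ht hY h cm).elim
  · exact h

/-- A positive critical point is a global maximum. -/
theorem crit_is_max {Y : Fin 2 → ℝ} (hY : Y ≠ 0) {x : ℝ}
    (c : D.g' t Y x = 0) (p : 0 < D.g t Y x) (θ : ℝ) : D.g t Y θ ≤ D.g t Y x := by
  obtain ⟨m, h1, h2, h3⟩ := exists_max ht hY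
  obtain ⟨n, hn⟩ := crit_unique ht hY c p h3 h2
  have hper : Function.Periodic (D.g t Y) D.L := fun θ => g_per ht Y θ
  have : D.g t Y m = D.g t Y x := by
    rw [hn]; exact hper.int_mul n x
  rw [← this]; exact h1 θ

end IsoFamily
end Pool.Agent.Unicorn
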