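import Pool.Agent.Unicorn.A1

/-!
# Unicorn project, Part A, module A2

The Finsler function `F(x;Y) = max_θ <a(x₀,θ),Y>`, the local smooth point of maximum, and the
calculus of the functions `lift h m = F^m h(x₀, Θ)`.
-/

set_option autoImplicit false

open Set Filter Topology
open scoped ContDiff

namespace Pool.Agent.Unicorn

theorem contDiffAt_zpow' {E : Type*} [NormedAddCommGroup E] [NormedSpace ℝ E] {f : E → ℝ} {x : E}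
    {n : WithTop ℕ∞} (hf : ContDiffAt ℝ n f x) (h0 : f x ≠ 0) (m : ℤ) :
    ContDiffAt ℝ n (fun z => f z ^ m) x := by
  rcases Int.eq_nat_or_neg m with ⟨k, rfl | rfl⟩
  · exact (hf.pow k).congr_of_eventuallyEq (Eventually.of_forall fun z => by simp)
  · exact ((hf.pow k).inv (pow_ne_zero k h0)).congr_of_eventuallyEq
      (Eventually.of_forall fun z => by simp)

theorem isInvertible_of_ne_zero {L : ℝ →L[ℝ] ℝ} (h : L 1 ≠ 0) : L.IsInvertible := by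
  refine ⟨ContinuousLinearEquiv.unitsEquivAut ℝ (Units.mk0 (L 1) h), ?_⟩
  ext
  simp

namespace IsoFamily

variable {D : IsoFamily}

section basic

variable {t : ℝ} (ht : t ∈ Ioo D.t1 D.t2)
include ht

theorem Th_spec {Y : Fin 2 → ℝ} (hY : Y ≠ 0) : ∀ θ, D.g t Y θ ≤ D.g t Y (D.Th t Y) := by
  obtain ⟨m, h1, -, -⟩ := exists_max ht hY
  exact Classical.epsilon_spec (p := fun θ => ∀ θ', D.a t θ' 0 * Y 0 + D.a t θ' 1 * Y 1 ≤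
    D.a t θ 0 * Y 0 + D.a t θ 1 * Y 1) ⟨m, h1⟩

theorem Th_pos {Y : Fin 2 → ℝ} (hY : Y ≠ 0) : 0 < D.g t Y (D.Th t Y) := by
  obtain ⟨m, -, h2, -⟩ := exists_max ht hY
  exact h2.trans_le (Th_spec ht hY m)

theorem Th_crit {Y : Fin 2 → ℝ} (hY : Y ≠ 0) : D.g' t Y (D.Th t Y) = 0 := by
  have hloc : IsLocalMax (D.g t Y) (D.Th t Y) := Eventually.of_forall (Th_spec ht hY)
  exact hloc.hasDerivAt_eq_zero (g_hasDerivAt ht Y _)

theorem Th_eq_mod {Y : Fin 2 → ℝ} (hY : Y ≠ 0) {θ : ℝ} (c : D.g' t Y θ = 0)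
    (p : 0 < D.g t Y θ) : ∃ n : ℤ, D.Th t Y = θ + n * D.L :=
  crit_unique ht hY c p (Th_crit ht hY) (Th_pos ht hY)

theorem _root_.Pool.Agent.Unicorn.IsoFamily.Adm.per_Th {h : ℝ → ℝ → ℝ} (hh : D.Adm h)
    {Y : Fin 2 → ℝ} (hY : Y ≠ 0) {θ : ℝ}
    (c : D.g' t Y θ = 0) (p : 0 < D.g t Y θ) : h t (D.Th t Y) = h t θ := by
  obtain ⟨n, hn⟩ := Th_eq_mod ht hY c p
  have hper : Function.Periodic (h t) D.L := fun θ => hh.per t ht θ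
  rw [hn]; exact hper.int_mul n θ

end basic

theorem F_eq_of_max {x Y : Fin 2 → ℝ} {θ : ℝ} (h : ∀ θ', D.g (x 0) Y θ' ≤ D.g (x 0) Y θ) :
    D.F x Y = D.g (x 0) Y θ := by
  have : IsGreatest (range fun θ => D.a (x 0) θ 0 * Y 0 + D.a (x 0) θ 1 * Y 1)
      (D.g (x 0) Y θ) := by
    refine ⟨⟨θ, rfl⟩, ?_⟩
    rintro _ ⟨θ', rfl⟩
    exact h θ'
  exact this.csSup_eq

variable {x Y : Fin 2 → ℝ}

theorem F_eq_Th (hx : x 0 ∈ Ioo D.t1 D.t2) (hY : Y ≠ 0) :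
    D.F x Y = D.g (x 0) Y (D.Th (x 0) Y) := F_eq_of_max (Th_spec hx hY)

theorem F_pos (hx : x 0 ∈ Ioo D.t1 D.t2) (hY : Y ≠ 0) : 0 < D.F x Y := by
  rw [F_eq_Th hx hY]; exact Th_pos hx hY

theorem F_eq_crit (hx : x 0 ∈ Ioo D.t1 D.t2) (hY : Y ≠ 0) {θ : ℝ} (c : D.g' (x 0) Y θ = 0)
    (p : 0 < D.g (x 0) Y θ) : D.F x Y = D.g (x 0) Y θ :=
  F_eq_of_max (crit_is_max hx hY c p)

theorem lift_eq_crit {h : ℝ → ℝ → ℝ} (hh : D.Adm h) (m : ℤ) (hx : x 0 ∈ Ioo D.t1 D.t2)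
    (hY : Y ≠ 0) {θ : ℝ} (c : D.g' (x 0) Y θ = 0) (p : 0 < D.g (x 0) Y θ) :
    D.lift h m x Y = D.g (x 0) Y θ ^ m * h (x 0) θ := by
  rw [lift, F_eq_crit hx hY c p, hh.per_Th hx hY c p]

/-- homogeneity of `F` -/
theorem F_smul (x Y : Fin 2 → ℝ) {s : ℝ} (hs : 0 < s) : D.F x (s • Y) = s * D.F x Y := by
  rw [F, F, ← smul_eq_mul, ← Real.sSup_smul_of_nonneg hs.le]
  congr 1
  ext z
  simp only [mem_range, mem_smul_set, Pi.smul_apply, smul_eq_mul]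
  constructor
  · rintro ⟨θ, rfl⟩
    exact ⟨_, ⟨θ, rfl⟩, by ring⟩
  · rintro ⟨_, ⟨θ, rfl⟩, rfl⟩
    exact ⟨θ, by ring⟩

/-! ### the local smooth point of maximum -/

/-- evaluation of coefficient functions, smooth in all variables -/
theorem Adm.contDiffAt_comp {E : Type*} [NormedAddCommGroup E] [NormedSpace ℝ E]
    {h : ℝ → ℝ → ℝ} (hh : D.Adm h) {α β : E → ℝ} {z : E} (hα : ContDiffAt ℝ ∞ α z)
    (hβ : ContDiffAt ℝ ∞ β z) (hz : α z ∈ Ioo D.t1 D.t2) :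
    ContDiffAt ℝ ∞ (fun p => h (α p) (β p)) z := by
  have h1 : ContDiffAt ℝ ∞ (fun p : ℝ × ℝ => h p.1 p.2) (α z, β z) := hh.contDiffAt hz _
  exact ContDiffAt.comp (f := fun p => (α p, β p)) z h1 (hα.prodMk hβ)

theorem contDiffAt_g {E : Type*} [NormedAddCommGroup E] [NormedSpace ℝ E]
    {α β : E → ℝ} {η : E → Fin 2 → ℝ} {z : E} (hα : ContDiffAt ℝ ∞ α z)
    (hβ : ContDiffAt ℝ ∞ β z) (hη : ContDiffAt ℝ ∞ η z) (hz : α z ∈ Ioo D.t1 D.t2) :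
    ContDiffAt ℝ ∞ (fun p => D.g (α p) (η p) (β p)) z := by
  have h0 : ContDiffAt ℝ ∞ (fun p => η p 0) z := contDiffAt_pi.1 hη 0
  have h1 : ContDiffAt ℝ ∞ (fun p => η p 1) z := contDiffAt_pi.1 hη 1
  exact (((D.adm_a 0).contDiffAt_comp hα hβ hz).mul h0).add
    (((D.adm_a 1).contDiffAt_comp hα hβ hz).mul h1)

theorem contDiffAt_g' {E : Type*} [NormedAddCommGroup E] [NormedSpace ℝ E]
    {α β : E → ℝ} {η : E → Fin 2 → ℝ} {z : E} (hα : ContDiffAt ℝ ∞ α z)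
    (hβ : ContDiffAt ℝ ∞ β z) (hη : ContDiffAt ℝ ∞ η z) (hz : α z ∈ Ioo D.t1 D.t2) :
    ContDiffAt ℝ ∞ (fun p => D.g' (α p) (η p) (β p)) z := by
  have h0 : ContDiffAt ℝ ∞ (fun p => η p 0) z := contDiffAt_pi.1 hη 0
  have h1 : ContDiffAt ℝ ∞ (fun p => η p 1) z := contDiffAt_pi.1 hη 1
  exact (((D.adm_b 0).contDiffAt_comp hα hβ hz).mul h0).add
    (((D.adm_b 1).contDiffAt_comp hα hβ hz).mul h1)

/-- **Local smooth point of maximum.** -/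
theorem exists_local {t₀ : ℝ} {Y₀ : Fin 2 → ℝ} (ht : t₀ ∈ Ioo D.t1 D.t2) (hY : Y₀ ≠ 0) :
    ∃ Θ : ℝ × (Fin 2 → ℝ) → ℝ, ContDiffAt ℝ ∞ Θ (t₀, Y₀) ∧ Θ (t₀, Y₀) = D.Th t₀ Y₀ ∧
      ∀ᶠ p in 𝓝 (t₀, Y₀), p.1 ∈ Ioo D.t1 D.t2 ∧ p.2 ≠ 0 ∧ D.g' p.1 p.2 (Θ p) = 0 ∧
        0 < D.g p.1 p.2 (Θ p) := by
  set θ₀ := D.Th t₀ Y₀ with hθ₀
  have hp := Th_pos ht hY
  have hc := Th_crit ht hY
  rw [← hθ₀] at hp hc
  set Ψ : (ℝ × (Fin 2 → ℝ)) × ℝ → ℝ := fun q => D.g' q.1.1 q.1.2 q.2 with hΨ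
  have hΨs : ContDiffAt ℝ ∞ Ψ ((t₀, Y₀), θ₀) := by
    refine contDiffAt_g' (z := ((t₀, Y₀), θ₀)) ?_ ?_ ?_ ht
    · exact (contDiff_fst.comp contDiff_fst).contDiffAt
    · exact contDiff_snd.contDiffAt
    · exact (contDiff_snd.comp contDiff_fst).contDiffAt
  have hinv : (fderiv ℝ Ψ ((t₀, Y₀), θ₀) ∘L .inr ℝ (ℝ × (Fin 2 → ℝ)) ℝ).IsInvertible := by
    apply isInvertible_of_ne_zero
    have h1 : HasFDerivAt Ψ (fderiv ℝ Ψ ((t₀, Y₀), θ₀)) ((t₀, Y₀), θ₀) :=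
      (hΨs.differentiableAt (by simp)).hasFDerivAt
    have h2 : HasDerivAt (fun θ : ℝ => ((t₀, Y₀), θ)) ((0 : ℝ × (Fin 2 → ℝ)), (1 : ℝ)) θ₀ :=
      (hasDerivAt_const θ₀ (t₀, Y₀)).prodMk (hasDerivAt_id θ₀)
    have h3 := h1.comp_hasDerivAt θ₀ h2
    have h4 := g'_hasDerivAt ht Y₀ θ₀
    have h5 := h3.unique h4
    rw [hc, mul_zero, zero_sub] at h5
    simp only [ContinuousLinearMap.comp_apply, ContinuousLinearMap.inr_apply]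
    rw [h5]
    exact (neg_neg_of_pos hp).ne
  have hcd := hΨs.contDiffAt_implicitFunction (by simp) hinv
  have hself := hΨs.implicitFunction_apply_self (by simp) hinv
  have hev := hΨs.eventually_apply_implicitFunction (by simp) hinv
  set Θ := hΨs.implicitFunction (by simp) hinv with hΘ
  refine ⟨Θ, hcd, hself, ?_⟩
  have e1 : ∀ᶠ p : ℝ × (Fin 2 → ℝ) in 𝓝 (t₀, Y₀), p.1 ∈ Ioo D.t1 D.t2 :=
    continuousAt_fst.eventually (isOpen_Ioo.mem_nhds ht)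
  have e2 : ∀ᶠ p : ℝ × (Fin 2 → ℝ) in 𝓝 (t₀, Y₀), p.2 ≠ 0 :=
    (continuousAt_snd (p := (t₀, Y₀))).eventually_ne hY
  have hgc : ContDiffAt ℝ ∞ (fun p : ℝ × (Fin 2 → ℝ) => D.g p.1 p.2 (Θ p)) (t₀, Y₀) :=
    contDiffAt_g contDiffAt_fst hcd contDiffAt_snd ht
  have e3 : ∀ᶠ p : ℝ × (Fin 2 → ℝ) in 𝓝 (t₀, Y₀), 0 < D.g p.1 p.2 (Θ p) := by
    refine hgc.continuousAt.eventually (lt_mem_nhds ?_)
    show 0 < D.g t₀ Y₀ (Θ (t₀, Y₀))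
    rw [show Θ (t₀, Y₀) = θ₀ from hself]; exact hp
  filter_upwards [e1, e2, e3, hev] with p h1 h2 h3 h4
  refine ⟨h1, h2, ?_, h3⟩
  have h5 : D.g' p.1 p.2 (Θ p) = D.g' t₀ Y₀ θ₀ := h4
  rw [h5, hc]

/-- smoothness of the functions `lift h m` -/
theorem lift_contDiffAt {h : ℝ → ℝ → ℝ} (hh : D.Adm h) (m : ℤ) (hx : x 0 ∈ Ioo D.t1 D.t2)
    (hY : Y ≠ 0) :
    ContDiffAt ℝ ∞ (fun p : (Fin 2 → ℝ) × (Fin 2 → ℝ) => D.lift h m p.1 p.2) (x, Y) := by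
  obtain ⟨Θ, h1, h2, h3⟩ := exists_local hx hY
  have hpr : ContDiffAt ℝ ∞ (fun p : (Fin 2 → ℝ) × (Fin 2 → ℝ) => p.1 0) (x, Y) :=
    contDiffAt_pi.1 contDiffAt_fst 0
  have hmap : ContDiffAt ℝ ∞ (fun p : (Fin 2 → ℝ) × (Fin 2 → ℝ) => (p.1 0, p.2)) (x, Y) :=
    hpr.prodMk contDiffAt_snd
  have hΘ : ContDiffAt ℝ ∞ (fun p : (Fin 2 → ℝ) × (Fin 2 → ℝ) => Θ (p.1 0, p.2)) (x, Y) :=
    ContDiffAt.comp (x, Y) (g := Θ) (f := fun p : (Fin 2 → ℝ) × (Fin 2 → ℝ) => (p.1 0, p.2))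
      h1 hmap
  have hΓ : ContDiffAt ℝ ∞ (fun p : (Fin 2 → ℝ) × (Fin 2 → ℝ) =>
      D.g (p.1 0) p.2 (Θ (p.1 0, p.2))) (x, Y) :=
    contDiffAt_g hpr hΘ contDiffAt_snd hx
  have hne : D.g (x 0) Y (Θ (x 0, Y)) ≠ 0 := by rw [h2]; exact (Th_pos hx hY).ne'
  have hmain : ContDiffAt ℝ ∞ (fun p : (Fin 2 → ℝ) × (Fin 2 → ℝ) =>
      D.g (p.1 0) p.2 (Θ (p.1 0, p.2)) ^ m * h (p.1 0) (Θ (p.1 0, p.2))) (x, Y) :=
    (contDiffAt_zpow' hΓ hne m).mul (hh.contDiffAt_comp hpr hΘ hx)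
  refine hmain.congr_of_eventuallyEq ?_
  have h4 := hmap.continuousAt.eventually h3
  filter_upwards [h4] with p hp
  obtain ⟨q1, q2, q3, q4⟩ := hp
  exact lift_eq_crit hh m q1 q2 q3 q4

/-- `Y_k = F w_k` -/
theorem Y_eq (ht : x 0 ∈ Ioo D.t1 D.t2) (hY : Y ≠ 0) (k : Fin 2) :
    Y k = D.lift (fun t θ => D.w t θ k) 1 x Y := by
  have hc := Th_crit ht hY
  rw [lift, zpow_one, F_eq_Th ht hY]
  set θ := D.Th (x 0) Y
  have f0 := frame ht θ k 0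
  have f1 := frame ht θ k 1
  have e : Y k = D.w (x 0) θ k * D.g (x 0) Y θ + D.v (x 0) θ k * D.g' (x 0) Y θ := by
    have : D.w (x 0) θ k * D.g (x 0) Y θ + D.v (x 0) θ k * D.g' (x 0) Y θ
      = (D.w (x 0) θ k * D.a (x 0) θ 0 + D.v (x 0) θ k * D.b (x 0) θ 0) * Y 0
        + (D.w (x 0) θ k * D.a (x 0) θ 1 + D.v (x 0) θ k * D.b (x 0) θ 1) * Y 1 := by
      rw [g, g']; ring
    rw [this, f0, f1]
    fin_cases k <;> simp
  rw [e, hc]; ring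

/-- coefficient of `∂/∂Y^k (lift h m)` -/
noncomputable def DY (D : IsoFamily) (k : Fin 2) (h : ℝ → ℝ → ℝ) (m : ℤ) : ℝ → ℝ → ℝ :=
  fun t θ => m * h t θ * D.a t θ k + dθ h t θ * D.b t θ k

/-- `<∂_t a, w>` -/
noncomputable def aw (D : IsoFamily) : ℝ → ℝ → ℝ := fun t θ =>
  dt (fun t θ => D.a t θ 0) t θ * D.w t θ 0 + dt (fun t θ => D.a t θ 1) t θ * D.w t θ 1

/-- `<∂_t b, w>` -/
noncomputable def bw (D : IsoFamily) : ℝ → ℝ → ℝ := fun t θ =>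
  dt (fun t θ => D.b t θ 0) t θ * D.w t θ 0 + dt (fun t θ => D.b t θ 1) t θ * D.w t θ 1

/-- coefficient of `∂/∂x^0 (lift h m)` -/
noncomputable def DX (D : IsoFamily) (h : ℝ → ℝ → ℝ) (m : ℤ) : ℝ → ℝ → ℝ :=
  fun t θ => m * h t θ * D.aw t θ + dt h t θ + dθ h t θ * D.bw t θ

theorem adm_aw : D.Adm D.aw :=
  ((D.adm_a 0).dt.mul (adm_w 0)).add ((D.adm_a 1).dt.mul (adm_w 1))

theorem adm_bw : D.Adm D.bw :=
  ((D.adm_b 0).dt.mul (adm_w 0)).add ((D.adm_b 1).dt.mul (adm_w 1))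

theorem Adm.DY {h : ℝ → ℝ → ℝ} (hh : D.Adm h) (k : Fin 2) (m : ℤ) : D.Adm (D.DY k h m) :=
  (((D.adm_const m).mul hh).mul (D.adm_a k)).add (hh.dθ.mul (D.adm_b k))

theorem Adm.DX {h : ℝ → ℝ → ℝ} (hh : D.Adm h) (m : ℤ) : D.Adm (D.DX h m) :=
  ((((D.adm_const m).mul hh).mul adm_aw).add hh.dt).add (hh.dθ.mul adm_bw)

theorem hasFDerivAt_pair {E : Type*} [NormedAddCommGroup E] [NormedSpace ℝ E]
    {h : ℝ → ℝ → ℝ} (hh : D.Adm h) {α β : E → ℝ} {α' β' : E →L[ℝ] ℝ} {z : E}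
    (hα : HasFDerivAt α α' z) (hβ : HasFDerivAt β β' z) (hz : α z ∈ Ioo D.t1 D.t2) :
    HasFDerivAt (fun p => h (α p) (β p))
      (dt h (α z) (β z) • α' + dθ h (α z) (β z) • β') z := by
  have h1 := hh.hasFDerivAt hz (β z)
  have h2 := HasFDerivAt.comp (f := fun p => (α p, β p)) z h1 (hα.prodMk hβ)
  refine h2.congr_fderiv ?_
  ext v
  simp

/-- **R1**: derivative of `lift h m` in `Y`. -/
theorem lift_hasFDerivAt_Y {h : ℝ → ℝ → ℝ} (hh : D.Adm h) (m : ℤ) (hx : x 0 ∈ Ioo D.t1 D.t2)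
    (hY : Y ≠ 0) :
    HasFDerivAt (fun Y => D.lift h m x Y)
      (D.lift (D.DY 0 h m) (m - 1) x Y • ContinuousLinearMap.proj (R := ℝ) (φ := fun _ : Fin 2 => ℝ) 0
        + D.lift (D.DY 1 h m) (m - 1) x Y •
          ContinuousLinearMap.proj (R := ℝ) (φ := fun _ : Fin 2 => ℝ) 1) Y := by
  obtain ⟨Θ, h1, h2, h3⟩ := exists_local hx hY
  have hin : HasFDerivAt (fun Y' : Fin 2 → ℝ => (x 0, Y'))
      (ContinuousLinearMap.inr ℝ ℝ (Fin 2 → ℝ)) Y := hasFDerivAt_prodMk_right (x 0) Y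
  set T : (Fin 2 → ℝ) →L[ℝ] ℝ := (fderiv ℝ Θ (x 0, Y)).comp
    (ContinuousLinearMap.inr ℝ ℝ (Fin 2 → ℝ)) with hT
  have hΘ : HasFDerivAt (fun Y' => Θ (x 0, Y')) T Y :=
    HasFDerivAt.comp Y (h1.differentiableAt (by simp)).hasFDerivAt hin
  have hev : ∀ᶠ Y' in 𝓝 Y, x 0 ∈ Ioo D.t1 D.t2 ∧ Y' ≠ 0 ∧ D.g' (x 0) Y' (Θ (x 0, Y')) = 0 ∧
        0 < D.g (x 0) Y' (Θ (x 0, Y')) := hin.continuousAt.eventually h3
  set θ := D.Th (x 0) Y with hθ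
  have hc := Th_crit hx hY
  have hp := Th_pos hx hY
  rw [← hθ] at hc hp
  set P0 := ContinuousLinearMap.proj (R := ℝ) (φ := fun _ : Fin 2 => ℝ) 0 with hP0
  set P1 := ContinuousLinearMap.proj (R := ℝ) (φ := fun _ : Fin 2 => ℝ) 1 with hP1
  have hproj0 : HasFDerivAt (fun Y' : Fin 2 → ℝ => Y' 0) P0 Y := P0.hasFDerivAt
  have hproj1 : HasFDerivAt (fun Y' : Fin 2 → ℝ => Y' 1) P1 Y := P1.hasFDerivAt
  have hconst : HasFDerivAt (fun _ : Fin 2 → ℝ => x 0) (0 : (Fin 2 → ℝ) →L[ℝ] ℝ) Y :=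
    hasFDerivAt_const _ _
  have hΘ0 : Θ (x 0, Y) = θ := h2
  -- derivative of a coefficient function along `Θ`
  have hco : ∀ {k : ℝ → ℝ → ℝ}, D.Adm k →
      HasFDerivAt (fun Y' => k (x 0) (Θ (x 0, Y'))) (dθ k (x 0) θ • T) Y := by
    intro k hk
    have := hasFDerivAt_pair hk hconst hΘ hx
    refine this.congr_fderiv ?_
    rw [smul_zero, zero_add, hΘ0]
  -- derivative of `g' = 0`
  have hg' : HasFDerivAt (fun Y' => D.g' (x 0) Y' (Θ (x 0, Y')))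
      ((D.b (x 0) θ 0 • P0 + Y 0 • (dθ (fun t θ => D.b t θ 0) (x 0) θ • T)) +
        (D.b (x 0) θ 1 • P1 + Y 1 • (dθ (fun t θ => D.b t θ 1) (x 0) θ • T))) Y := by
    have e0 := (hco (D.adm_b 0)).mul hproj0
    have e1 := (hco (D.adm_b 1)).mul hproj1
    rw [hΘ0] at e0 e1
    exact e0.add e1
  have hg'0 : HasFDerivAt (fun Y' => D.g' (x 0) Y' (Θ (x 0, Y')))
      (0 : (Fin 2 → ℝ) →L[ℝ] ℝ) Y := by
    refine (hasFDerivAt_const (0 : ℝ) Y).congr_of_eventuallyEq ?_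
    filter_upwards [hev] with Y' hY' using hY'.2.2.1
  have hTeq : D.g (x 0) Y θ • T = D.b (x 0) θ 0 • P0 + D.b (x 0) θ 1 • P1 := by
    have e := hg'.unique hg'0
    rw [dθ_b hx, dθ_b hx] at e
    ext1 v
    have ev := congrArg (fun A : (Fin 2 → ℝ) →L[ℝ] ℝ => A v) e
    simp only [_root_.add_apply, _root_.smul_apply, smul_eq_mul,
      _root_.zero_apply] at ev ⊢
    have hc' : D.b (x 0) θ 0 * Y 0 + D.b (x 0) θ 1 * Y 1 = 0 := hc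
    have hgdef : D.g (x 0) Y θ = D.a (x 0) θ 0 * Y 0 + D.a (x 0) θ 1 * Y 1 := rfl
    rw [hgdef]
    linear_combination -ev + D.I (x 0) θ * T v * hc'
  -- derivative of `g`
  have hg : HasFDerivAt (fun Y' => D.g (x 0) Y' (Θ (x 0, Y')))
      (D.a (x 0) θ 0 • P0 + D.a (x 0) θ 1 • P1) Y := by
    have e0 := (hco (D.adm_a 0)).mul hproj0
    have e1 := (hco (D.adm_a 1)).mul hproj1
    rw [hΘ0] at e0 e1
    refine (e0.add e1).congr_fderiv ?_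
    rw [dθ_a hx, dθ_a hx]
    ext1 v
    simp only [_root_.add_apply, _root_.smul_apply, smul_eq_mul]
    have hc' : D.b (x 0) θ 0 * Y 0 + D.b (x 0) θ 1 * Y 1 = 0 := hc
    linear_combination T v * hc'
  have hgne : D.g (x 0) Y (Θ (x 0, Y)) ≠ 0 := by rw [hΘ0]; exact hp.ne'
  have hpow : HasFDerivAt (fun Y' => D.g (x 0) Y' (Θ (x 0, Y')) ^ m)
      ((m * D.g (x 0) Y θ ^ (m - 1)) • (D.a (x 0) θ 0 • P0 + D.a (x 0) θ 1 • P1)) Y := by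
    have e := (hasDerivAt_zpow m (D.g (x 0) Y (Θ (x 0, Y))) (Or.inl hgne)).comp_hasFDerivAt Y hg
    rw [hΘ0] at e
    exact e
  have hmain := hpow.mul (hco hh)
  have hmain2 : HasFDerivAt (fun Y' => D.lift h m x Y')
      (D.g (x 0) Y (Θ (x 0, Y)) ^ m • (dθ h (x 0) θ • T) + h (x 0) (Θ (x 0, Y)) •
        ((m * D.g (x 0) Y θ ^ (m - 1)) • (D.a (x 0) θ 0 • P0 + D.a (x 0) θ 1 • P1))) Y := by
    refine hmain.congr_of_eventuallyEq ?_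
    filter_upwards [hev] with Y' hY'
    exact lift_eq_crit hh m hx hY'.2.1 hY'.2.2.1 hY'.2.2.2
  refine hmain2.congr_fderiv ?_
  rw [hΘ0, lift_eq_crit (hh.DY 0 m) (m - 1) hx hY hc hp,
    lift_eq_crit (hh.DY 1 m) (m - 1) hx hY hc hp]
  have hpm : D.g (x 0) Y θ ^ m = D.g (x 0) Y θ ^ (m - 1) * D.g (x 0) Y θ := by
    rw [← zpow_add_one₀ hp.ne' (m - 1)]; congr 1; ring
  ext1 v
  have hTv := congrArg (fun A : (Fin 2 → ℝ) →L[ℝ] ℝ => A v) hTeq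
  simp only [_root_.add_apply, _root_.smul_apply, smul_eq_mul] at hTv ⊢
  rw [hpm, DY, DY]
  linear_combination D.g (x 0) Y θ ^ (m - 1) * dθ h (x 0) θ * hTv

/-- **R2**: derivative of `lift h m` in `x`. -/
theorem lift_hasFDerivAt_x {h : ℝ → ℝ → ℝ} (hh : D.Adm h) (m : ℤ) (hx : x 0 ∈ Ioo D.t1 D.t2)
    (hY : Y ≠ 0) :
    HasFDerivAt (fun x => D.lift h m x Y)
      (D.lift (D.DX h m) m x Y • ContinuousLinearMap.proj (R := ℝ) (φ := fun _ : Fin 2 => ℝ) 0) x := by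
  obtain ⟨Θ, h1, h2, h3⟩ := exists_local hx hY
  -- one-dimensional statement
  have hin : HasDerivAt (fun s : ℝ => (s, Y)) ((1 : ℝ), (0 : Fin 2 → ℝ)) (x 0) :=
    (hasDerivAt_id (x 0)).prodMk (hasDerivAt_const (x 0) Y)
  set T : ℝ := fderiv ℝ Θ (x 0, Y) ((1 : ℝ), (0 : Fin 2 → ℝ)) with hT
  have hΘ : HasDerivAt (fun s => Θ (s, Y)) T (x 0) :=
    (h1.differentiableAt (by simp)).hasFDerivAt.comp_hasDerivAt (x 0) hin
  have hev : ∀ᶠ s in 𝓝 (x 0), s ∈ Ioo D.t1 D.t2 ∧ Y ≠ 0 ∧ D.g' s Y (Θ (s, Y)) = 0 ∧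
        0 < D.g s Y (Θ (s, Y)) := hin.continuousAt.eventually h3
  set θ := D.Th (x 0) Y with hθ
  have hc := Th_crit hx hY
  have hp := Th_pos hx hY
  rw [← hθ] at hc hp
  have hΘ0 : Θ (x 0, Y) = θ := h2
  have hco : ∀ {k : ℝ → ℝ → ℝ}, D.Adm k →
      HasDerivAt (fun s => k s (Θ (s, Y))) (dt k (x 0) θ + dθ k (x 0) θ * T) (x 0) := by
    intro k hk
    have e := hasFDerivAt_pair hk (hasDerivAt_id (x 0)).hasFDerivAt hΘ.hasFDerivAt hx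
    have e2 := e.hasDerivAt
    refine e2.congr_deriv ?_
    simp [hΘ0]
  have hg' : HasDerivAt (fun s => D.g' s Y (Θ (s, Y)))
      ((dt (fun t θ => D.b t θ 0) (x 0) θ + dθ (fun t θ => D.b t θ 0) (x 0) θ * T) * Y 0 +
        (dt (fun t θ => D.b t θ 1) (x 0) θ + dθ (fun t θ => D.b t θ 1) (x 0) θ * T) * Y 1)
      (x 0) := ((hco (D.adm_b 0)).mul_const _).add ((hco (D.adm_b 1)).mul_const _)
  have hg'0 : HasDerivAt (fun s => D.g' s Y (Θ (s, Y))) 0 (x 0) := by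
    refine (hasDerivAt_const (x 0) (0 : ℝ)).congr_of_eventuallyEq ?_
    filter_upwards [hev] with s hs using hs.2.2.1
  have hgdef : D.g (x 0) Y θ = D.a (x 0) θ 0 * Y 0 + D.a (x 0) θ 1 * Y 1 := rfl
  have hc' : D.b (x 0) θ 0 * Y 0 + D.b (x 0) θ 1 * Y 1 = 0 := hc
  have hY0 : Y 0 = D.g (x 0) Y θ * D.w (x 0) θ 0 := by
    have := Y_eq hx hY 0
    rwa [lift, zpow_one, F_eq_Th hx hY] at this
  have hY1 : Y 1 = D.g (x 0) Y θ * D.w (x 0) θ 1 := by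
    have := Y_eq hx hY 1
    rwa [lift, zpow_one, F_eq_Th hx hY] at this
  have hTeq : T = D.bw (x 0) θ := by
    have e := hg'.unique hg'0
    rw [dθ_b hx, dθ_b hx] at e
    have e2 : D.g (x 0) Y θ * T = dt (fun t θ => D.b t θ 0) (x 0) θ * Y 0 +
        dt (fun t θ => D.b t θ 1) (x 0) θ * Y 1 := by
      rw [hgdef]
      linear_combination -e + D.I (x 0) θ * T * hc'
    have e3 : D.g (x 0) Y θ * T = D.g (x 0) Y θ * D.bw (x 0) θ := by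
      rw [e2, bw]
      nth_rewrite 1 [hY0]
      nth_rewrite 1 [hY1]
      ring
    exact mul_left_cancel₀ hp.ne' e3
  have hg : HasDerivAt (fun s => D.g s Y (Θ (s, Y))) (D.g (x 0) Y θ * D.aw (x 0) θ) (x 0) := by
    have e := ((hco (D.adm_a 0)).mul_const (Y 0)).add ((hco (D.adm_a 1)).mul_const (Y 1))
    refine HasDerivAt.congr_deriv e ?_
    rw [dθ_a hx, dθ_a hx]
    have e4 : (dt (fun t θ => D.a t θ 0) (x 0) θ + D.b (x 0) θ 0 * T) * Y 0 +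
        (dt (fun t θ => D.a t θ 1) (x 0) θ + D.b (x 0) θ 1 * T) * Y 1 =
        dt (fun t θ => D.a t θ 0) (x 0) θ * Y 0 + dt (fun t θ => D.a t θ 1) (x 0) θ * Y 1 := by
      linear_combination T * hc'
    rw [e4, aw]
    nth_rewrite 1 [hY0]
    nth_rewrite 1 [hY1]
    ring
  have hgne : D.g (x 0) Y (Θ (x 0, Y)) ≠ 0 := by rw [hΘ0]; exact hp.ne'
  have hpow : HasDerivAt (fun s => D.g s Y (Θ (s, Y)) ^ m)
      (m * D.g (x 0) Y θ ^ (m - 1) * (D.g (x 0) Y θ * D.aw (x 0) θ)) (x 0) := by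
    have e := (hasDerivAt_zpow m (D.g (x 0) Y (Θ (x 0, Y))) (Or.inl hgne)).comp (x 0) hg
    rw [hΘ0] at e
    exact e
  have hmain := hpow.mul (hco hh)
  rw [hΘ0] at hmain
  have hpm : D.g (x 0) Y θ ^ m = D.g (x 0) Y θ ^ (m - 1) * D.g (x 0) Y θ := by
    rw [← zpow_add_one₀ hp.ne' (m - 1)]; congr 1; ring
  have hfin : HasDerivAt (fun s => D.g s Y (Θ (s, Y)) ^ m * h s (Θ (s, Y)))
      (D.lift (D.DX h m) m x Y) (x 0) := by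
    refine hmain.congr_deriv ?_
    rw [lift_eq_crit (hh.DX m) m hx hY hc hp, DX, hpm, hTeq]
    ring
  have hpr : HasFDerivAt (fun x' : Fin 2 → ℝ => x' 0)
      (ContinuousLinearMap.proj (R := ℝ) (φ := fun _ : Fin 2 => ℝ) 0) x :=
    (ContinuousLinearMap.proj (R := ℝ) (φ := fun _ : Fin 2 => ℝ) 0).hasFDerivAt
  have hfin2 := hfin.comp_hasFDerivAt x hpr
  refine hfin2.congr_of_eventuallyEq ?_
  have hev2 := hpr.continuousAt.eventually hev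
  filter_upwards [hev2] with x' hx'
  obtain ⟨q1, q2, q3, q4⟩ := hx'
  exact lift_eq_crit hh m q1 q2 q3 q4

/-! ### consequences in coordinate form -/

theorem fderiv_Y {h : ℝ → ℝ → ℝ} (hh : D.Adm h) (m : ℤ) (hx : x 0 ∈ Ioo D.t1 D.t2)
    {f : (Fin 2 → ℝ) → ℝ} (hf : ∀ u, u ≠ 0 → f u = D.lift h m x u)
    (hY : Y ≠ 0) (k : Fin 2) :
    fderiv ℝ f Y (Pi.single k (1 : ℝ)) = D.lift (D.DY k h m) (m - 1) x Y := by
  have h1 := lift_hasFDerivAt_Y hh m hx hY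
  have h2 : f =ᶠ[𝓝 Y] fun Y => D.lift h m x Y := by
    filter_upwards [isOpen_ne.mem_nhds hY] with u hu using hf u hu
  rw [(h1.congr_of_eventuallyEq h2).fderiv]
  revert k
  rw [Fin.forall_fin_two]
  constructor <;> simp

theorem fderiv_x {h : ℝ → ℝ → ℝ} (hh : D.Adm h) (m : ℤ) (hx : x 0 ∈ Ioo D.t1 D.t2)
    {f : (Fin 2 → ℝ) → ℝ} (hf : ∀ z : Fin 2 → ℝ, z 0 ∈ Ioo D.t1 D.t2 → f z = D.lift h m z Y)
    (hY : Y ≠ 0) :
    fderiv ℝ f x (Pi.single 0 (1 : ℝ)) = D.lift (D.DX h m) m x Y ∧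
      fderiv ℝ f x (Pi.single 1 (1 : ℝ)) = 0 := by
  have h1 := lift_hasFDerivAt_x hh m hx hY
  have h2 : f =ᶠ[𝓝 x] fun x => D.lift h m x Y := by
    have : ∀ᶠ z : Fin 2 → ℝ in 𝓝 x, z 0 ∈ Ioo D.t1 D.t2 :=
      (continuous_apply (0 : Fin 2)).continuousAt.eventually (isOpen_Ioo.mem_nhds hx)
    filter_upwards [this] with z hz using hf z hz
  rw [(h1.congr_of_eventuallyEq h2).fderiv]
  constructor <;> simp

theorem lift_congr {h k : ℝ → ℝ → ℝ} (m : ℤ) (_hx : x 0 ∈ Ioo D.t1 D.t2)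
    (hk : ∀ θ, h (x 0) θ = k (x 0) θ) : D.lift h m x Y = D.lift k m x Y := by
  rw [lift, lift, hk]

theorem lift_one (x Y : Fin 2 → ℝ) (m : ℤ) : D.lift (fun _ _ => 1) m x Y = D.F x Y ^ m := by
  rw [lift, mul_one]

/-- first derivatives of `F²`: `∂F²/∂Y^k = 2 F a_k`. -/
theorem fderiv_Fsq (hx : x 0 ∈ Ioo D.t1 D.t2) (hY : Y ≠ 0) (k : Fin 2) :
    fderiv ℝ (fun u => D.F x u ^ 2) Y (Pi.single k (1 : ℝ)) =
      D.lift (fun t θ => 2 * D.a t θ k) 1 x Y := by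
  have h1 := fderiv_Y (D.adm_const 1) 2 hx (f := fun u => D.F x u ^ 2)
    (fun u _ => by rw [lift_one]; rfl) hY k
  rw [h1]
  show D.lift _ (2 - 1) x Y = _
  norm_num
  refine lift_congr 1 hx fun θ => ?_
  simp [DY, dθ]

/-- second derivatives of `F²`: `½ ∂²F²/∂Y^i∂Y^j = a_i a_j + b_i b_j`. -/
theorem fderiv2_Fsq (hx : x 0 ∈ Ioo D.t1 D.t2) (hY : Y ≠ 0) (i j : Fin 2) :
    fderiv ℝ (fun w => fderiv ℝ (fun u => D.F x u ^ 2) w (Pi.single j (1 : ℝ))) Y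
      (Pi.single i (1 : ℝ)) =
      D.lift (fun t θ => 2 * (D.a t θ i * D.a t θ j + D.b t θ i * D.b t θ j)) 0 x Y := by
  have h1 := fderiv_Y ((D.adm_const 2).mul (D.adm_a j)) 1 hx
    (f := fun w => fderiv ℝ (fun u => D.F x u ^ 2) w (Pi.single j (1 : ℝ)))
    (fun u hu => fderiv_Fsq hx hu j) hY i
  rw [h1]
  show D.lift _ (1 - 1) x Y = _
  rw [sub_self]
  refine lift_congr 0 hx fun θ => ?_
  have h2 : dθ (fun t θ => 2 * D.a t θ j) (x 0) θ = 2 * D.b (x 0) θ j :=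
    ((a_hasDerivAt hx θ j).const_mul 2).deriv
  rw [DY, h2]
  push_cast
  ring

/-! ### the conclusions in the form of the frozen statement -/

theorem F_contDiffOn : ContDiffOn ℝ ((⊤ : ℕ∞) : WithTop ℕ∞)
    (fun p : (Fin 2 → ℝ) × (Fin 2 → ℝ) => D.F p.1 p.2)
    ({x : Fin 2 → ℝ | x 0 ∈ Ioo D.t1 D.t2} ×ˢ {y | y ≠ 0}) := by
  rintro ⟨x, Y⟩ ⟨hx, hY⟩
  have h := lift_contDiffAt (D.adm_const 1) 1 hx hY
  refine (h.congr_of_eventuallyEq ?_).contDiffWithinAt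
  exact Eventually.of_forall fun p => by
    show D.F p.1 p.2 = D.lift _ 1 p.1 p.2
    rw [lift_one, zpow_one]

theorem F_convex (hx : x 0 ∈ Ioo D.t1 D.t2) (hY : Y ≠ 0) {v : Fin 2 → ℝ} (hv : v ≠ 0) :
    0 < ∑ i : Fin 2, ∑ j : Fin 2,
      (1 / 2 : ℝ) * fderiv ℝ (fun w => fderiv ℝ (fun u => D.F x u ^ 2) w
        (Pi.single j (1 : ℝ) : Fin 2 → ℝ)) Y (Pi.single i (1 : ℝ) : Fin 2 → ℝ) * v i * v j := by
  simp only [fderiv2_Fsq hx hY, lift, zpow_zero, one_mul, Fin.sum_univ_two]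
  set θ := D.Th (x 0) Y
  have h1 : D.g (x 0) v θ ^ 2 + D.g' (x 0) v θ ^ 2 > 0 := by
    by_contra hcon
    have h2 : D.g (x 0) v θ = 0 := by nlinarith [sq_nonneg (D.g (x 0) v θ), sq_nonneg (D.g' (x 0) v θ)]
    have h3 : D.g' (x 0) v θ = 0 := by nlinarith [sq_nonneg (D.g (x 0) v θ), sq_nonneg (D.g' (x 0) v θ)]
    exact g_nondeg hx hv h2 h3
  have h2 : D.g (x 0) v θ ^ 2 + D.g' (x 0) v θ ^ 2 = (D.a (x 0) θ 0 * v 0 + D.a (x 0) θ 1 * v 1) ^ 2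
    + (D.b (x 0) θ 0 * v 0 + D.b (x 0) θ 1 * v 1) ^ 2 := rfl
  rw [h2] at h1
  linarith

end IsoFamily
end Pool.Agent.Unicorn
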