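import Pool.Agent.Unicorn.A2

/-!
# Unicorn project, Part A: the spray, its third derivatives, Landsberg and non-Berwald

`n_0 = -∂_t w`, `n_1 = v`, `gc_i = ½ Σ_j n_{j,i} w_j`, `G^i = F² gc_i(t,Θ)`.
-/

set_option autoImplicit false

open Set Filter Topology
open scoped ContDiff

namespace Pool.Agent.Unicorn
namespace IsoFamily

variable (D : IsoFamily)

/-- `n j i` = `i`-th component of `n_j` : `n_0 = -∂_t w`, `n_1 = v`. -/
noncomputable def n (j i : Fin 2) : ℝ → ℝ → ℝ :=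
  if j = 0 then fun t θ => - dt (fun t θ => D.w t θ i) t θ else fun t θ => D.v t θ i

/-- spray coefficient functions -/
noncomputable def gc (i : Fin 2) : ℝ → ℝ → ℝ := fun t θ =>
  1 / 2 * (D.n 0 i t θ * D.w t θ 0 + D.n 1 i t θ * D.w t θ 1)

/-- the spray -/
noncomputable def G (x Y : Fin 2 → ℝ) (i : Fin 2) : ℝ := D.lift (D.gc i) 2 x Y

/-- the coefficient `c_j`: `c_0 = ∂_t I`, `c_1 = - I'`. -/
noncomputable def cc (j : Fin 2) : ℝ → ℝ → ℝ :=
  if j = 0 then fun t θ => dt D.I t θ else fun t θ => - dθ D.I t θ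

variable {D}

theorem n_zero (i : Fin 2) : D.n 0 i = fun t θ => - dt (fun t θ => D.w t θ i) t θ := if_pos rfl
theorem n_one (i : Fin 2) : D.n 1 i = fun t θ => D.v t θ i := if_neg (by decide)
theorem cc_zero : D.cc 0 = fun t θ => dt D.I t θ := if_pos rfl
theorem cc_one : D.cc 1 = fun t θ => - dθ D.I t θ := if_neg (by decide)

theorem adm_n (j i : Fin 2) : D.Adm (D.n j i) := by
  revert j
  rw [Fin.forall_fin_two]
  constructor
  · rw [n_zero]; exact (adm_w i).dt.neg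
  · rw [n_one]; exact adm_v i

theorem adm_gc (i : Fin 2) : D.Adm (D.gc i) :=
  (D.adm_const (1 / 2)).mul (((adm_n 0 i).mul (adm_w 0)).add ((adm_n 1 i).mul (adm_w 1)))

section pointwise

variable {t : ℝ} (ht : t ∈ Ioo D.t1 D.t2) (θ : ℝ)
include ht

/-- `∂_t v' = - ∂_t w - (∂_t I) v - I ∂_t v` etc. are obtained from the mixed partials. -/
theorem dtw_hasDerivAt (i : Fin 2) :
    HasDerivAt (fun θ => dt (fun t θ => D.w t θ i) t θ) (dt (fun t θ => D.v t θ i) t θ) θ := by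
  have h := (adm_w (D := D) i).dt.hasDerivAt_θ ht θ
  have e := (adm_w (D := D) i).comm ht θ
  rw [e] at h
  have e2 : dt (dθ fun t θ => D.w t θ i) t θ = dt (fun t θ => D.v t θ i) t θ := by
    have : (fun s => dθ (fun t θ => D.w t θ i) s θ) =ᶠ[𝓝 t] fun s => D.v s θ i := by
      filter_upwards [isOpen_Ioo.mem_nhds ht] with s hs using dθ_w hs θ i
    exact this.deriv_eq
  rw [e2] at h
  exact h

theorem dtv_hasDerivAt (i : Fin 2) :
    HasDerivAt (fun θ => dt (fun t θ => D.v t θ i) t θ)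
      (- dt (fun t θ => D.w t θ i) t θ - (dt D.I t θ * D.v t θ i +
        D.I t θ * dt (fun t θ => D.v t θ i) t θ)) θ := by
  have h := (adm_v (D := D) i).dt.hasDerivAt_θ ht θ
  have e := (adm_v (D := D) i).comm ht θ
  rw [e] at h
  have e2 : dt (dθ fun t θ => D.v t θ i) t θ = - dt (fun t θ => D.w t θ i) t θ -
      (dt D.I t θ * D.v t θ i + D.I t θ * dt (fun t θ => D.v t θ i) t θ) := by
    have h1 : (fun s => dθ (fun t θ => D.v t θ i) s θ) =ᶠ[𝓝 t]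
        fun s => - D.w s θ i - D.I s θ * D.v s θ i := by
      filter_upwards [isOpen_Ioo.mem_nhds ht] with s hs using dθ_v hs θ i
    have h2 : HasDerivAt (fun s => - D.w s θ i - D.I s θ * D.v s θ i)
        (- dt (fun t θ => D.w t θ i) t θ -
      (dt D.I t θ * D.v t θ i + D.I t θ * dt (fun t θ => D.v t θ i) t θ)) t :=
      ((adm_w (D := D) i).hasDerivAt_t ht θ).neg.sub
        ((D.adm_I.hasDerivAt_t ht θ).mul ((adm_v (D := D) i).hasDerivAt_t ht θ))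
    exact (h2.congr_of_eventuallyEq h1).deriv
  rw [e2] at h
  exact h

/-- the first `θ`-derivative of `n_j` -/
theorem exists_n' (j i : Fin 2) : ∃ n' : ℝ → ℝ,
    (∀ θ, HasDerivAt (D.n j i t) (n' θ) θ) ∧
    (∀ θ, HasDerivAt n' (D.cc j t θ * D.v t θ i - D.I t θ * n' θ - D.n j i t θ) θ) := by
  revert j
  rw [Fin.forall_fin_two]
  constructor
  · refine ⟨fun θ => - dt (fun t θ => D.v t θ i) t θ, fun θ => ?_, fun θ => ?_⟩
    · rw [n_zero]; exact (dtw_hasDerivAt ht θ i).neg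
    · refine (dtv_hasDerivAt ht θ i).neg.congr_deriv ?_
      rw [n_zero, cc_zero]; ring
  · refine ⟨fun θ => - D.w t θ i - D.I t θ * D.v t θ i, fun θ => ?_, fun θ => ?_⟩
    · rw [n_one]; exact v_hasDerivAt ht θ i
    · refine ((w_hasDerivAt ht θ i).neg.sub
        ((D.adm_I.hasDerivAt_θ ht θ).mul (v_hasDerivAt ht θ i))).congr_deriv ?_
      rw [n_one, cc_one]; ring

theorem dθ_n_structure (j i : Fin 2) :
    dθ (dθ (D.n j i)) t θ + D.I t θ * dθ (D.n j i) t θ + D.n j i t θ =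
      D.cc j t θ * D.v t θ i := by
  obtain ⟨n', h1, h2⟩ := exists_n' ht j i
  have e1 : dθ (D.n j i) t = n' := funext fun θ => (h1 θ).deriv
  have e2 : dθ (dθ (D.n j i)) t θ = D.cc j t θ * D.v t θ i - D.I t θ * n' θ - D.n j i t θ := by
    show deriv (dθ (D.n j i) t) θ = _
    rw [e1]; exact (h2 θ).deriv
  rw [e2, e1]; ring

theorem a_dot_dtw : D.a t θ 0 * dt (fun t θ => D.w t θ 0) t θ +
    D.a t θ 1 * dt (fun t θ => D.w t θ 1) t θ = - D.aw t θ := by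
  have h1 : HasDerivAt (fun s => D.a s θ 0 * D.w s θ 0 + D.a s θ 1 * D.w s θ 1)
      ((dt (fun t θ => D.a t θ 0) t θ * D.w t θ 0 + D.a t θ 0 * dt (fun t θ => D.w t θ 0) t θ) +
       (dt (fun t θ => D.a t θ 1) t θ * D.w t θ 1 + D.a t θ 1 * dt (fun t θ => D.w t θ 1) t θ)) t :=
    (((D.adm_a 0).hasDerivAt_t ht θ).mul ((adm_w (D := D) 0).hasDerivAt_t ht θ)).add
      (((D.adm_a 1).hasDerivAt_t ht θ).mul ((adm_w (D := D) 1).hasDerivAt_t ht θ))
  have h2 : HasDerivAt (fun s => D.a s θ 0 * D.w s θ 0 + D.a s θ 1 * D.w s θ 1) 0 t := by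
    refine (hasDerivAt_const t (1 : ℝ)).congr_of_eventuallyEq ?_
    filter_upwards [isOpen_Ioo.mem_nhds ht] with s hs using a_dot_w hs θ
  have h3 := h1.unique h2
  rw [aw]; linarith

theorem b_dot_dtw : D.b t θ 0 * dt (fun t θ => D.w t θ 0) t θ +
    D.b t θ 1 * dt (fun t θ => D.w t θ 1) t θ = - D.bw t θ := by
  have h1 : HasDerivAt (fun s => D.b s θ 0 * D.w s θ 0 + D.b s θ 1 * D.w s θ 1)
      ((dt (fun t θ => D.b t θ 0) t θ * D.w t θ 0 + D.b t θ 0 * dt (fun t θ => D.w t θ 0) t θ) +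
       (dt (fun t θ => D.b t θ 1) t θ * D.w t θ 1 + D.b t θ 1 * dt (fun t θ => D.w t θ 1) t θ)) t :=
    (((D.adm_b 0).hasDerivAt_t ht θ).mul ((adm_w (D := D) 0).hasDerivAt_t ht θ)).add
      (((D.adm_b 1).hasDerivAt_t ht θ).mul ((adm_w (D := D) 1).hasDerivAt_t ht θ))
  have h2 : HasDerivAt (fun s => D.b s θ 0 * D.w s θ 0 + D.b s θ 1 * D.w s θ 1) 0 t := by
    refine (hasDerivAt_const t (0 : ℝ)).congr_of_eventuallyEq ?_
    filter_upwards [isOpen_Ioo.mem_nhds ht] with s hs using b_dot_w hs θ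
  have h3 := h1.unique h2
  rw [bw]; linarith

theorem a_dot_dtv : D.a t θ 0 * dt (fun t θ => D.v t θ 0) t θ +
    D.a t θ 1 * dt (fun t θ => D.v t θ 1) t θ =
    - (dt (fun t θ => D.a t θ 0) t θ * D.v t θ 0 + dt (fun t θ => D.a t θ 1) t θ * D.v t θ 1) := by
  have h1 : HasDerivAt (fun s => D.a s θ 0 * D.v s θ 0 + D.a s θ 1 * D.v s θ 1)
      ((dt (fun t θ => D.a t θ 0) t θ * D.v t θ 0 + D.a t θ 0 * dt (fun t θ => D.v t θ 0) t θ) +
       (dt (fun t θ => D.a t θ 1) t θ * D.v t θ 1 + D.a t θ 1 * dt (fun t θ => D.v t θ 1) t θ)) t :=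
    (((D.adm_a 0).hasDerivAt_t ht θ).mul ((adm_v (D := D) 0).hasDerivAt_t ht θ)).add
      (((D.adm_a 1).hasDerivAt_t ht θ).mul ((adm_v (D := D) 1).hasDerivAt_t ht θ))
  have h2 : HasDerivAt (fun s => D.a s θ 0 * D.v s θ 0 + D.a s θ 1 * D.v s θ 1) 0 t := by
    refine (hasDerivAt_const t (0 : ℝ)).congr_of_eventuallyEq ?_
    filter_upwards [isOpen_Ioo.mem_nhds ht] with s hs using a_dot_v hs θ
  have h3 := h1.unique h2
  linarith

theorem b_dot_dtv : D.b t θ 0 * dt (fun t θ => D.v t θ 0) t θ +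
    D.b t θ 1 * dt (fun t θ => D.v t θ 1) t θ =
    - (dt (fun t θ => D.b t θ 0) t θ * D.v t θ 0 + dt (fun t θ => D.b t θ 1) t θ * D.v t θ 1) := by
  have h1 : HasDerivAt (fun s => D.b s θ 0 * D.v s θ 0 + D.b s θ 1 * D.v s θ 1)
      ((dt (fun t θ => D.b t θ 0) t θ * D.v t θ 0 + D.b t θ 0 * dt (fun t θ => D.v t θ 0) t θ) +
       (dt (fun t θ => D.b t θ 1) t θ * D.v t θ 1 + D.b t θ 1 * dt (fun t θ => D.v t θ 1) t θ)) t :=
    (((D.adm_b 0).hasDerivAt_t ht θ).mul ((adm_v (D := D) 0).hasDerivAt_t ht θ)).add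
      (((D.adm_b 1).hasDerivAt_t ht θ).mul ((adm_v (D := D) 1).hasDerivAt_t ht θ))
  have h2 : HasDerivAt (fun s => D.b s θ 0 * D.v s θ 0 + D.b s θ 1 * D.v s θ 1) 0 t := by
    refine (hasDerivAt_const t (1 : ℝ)).congr_of_eventuallyEq ?_
    filter_upwards [isOpen_Ioo.mem_nhds ht] with s hs using b_dot_v hs θ
  have h3 := h1.unique h2
  linarith

/-- `∂_t b₁ = a₀ - I b₀` -/
theorem dt_b_one : dt (fun t θ => D.b t θ 1) t θ = D.a t θ 0 - D.I t θ * D.b t θ 0 := by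
  have h1 := (D.adm_a 1).comm ht θ
  -- `b₁ = (a₁)'`, so `∂_t b₁ = (∂_t a₁)' = (-b₀)'`
  have e1 : dt (fun t θ => D.b t θ 1) t θ = dt (dθ (fun t θ => D.a t θ 1)) t θ := by
    have : (fun s => D.b s θ 1) =ᶠ[𝓝 t] fun s => dθ (fun t θ => D.a t θ 1) s θ := by
      filter_upwards [isOpen_Ioo.mem_nhds ht] with s hs using (dθ_a hs θ 1).symm
    exact this.deriv_eq
  rw [e1, ← h1]
  have e2 : dt (fun t θ => D.a t θ 1) t = fun θ => - D.b t θ 0 := funext fun θ => dt_a_one ht θ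
  show deriv (dt (fun t θ => D.a t θ 1) t) θ = _
  rw [e2, (b_hasDerivAt ht θ 0).fun_neg.deriv]
  ring

/-- a vector is determined by its products with `a` and `b` -/
theorem vec_ext {p q : Fin 2 → ℝ} (h1 : D.a t θ 0 * p 0 + D.a t θ 1 * p 1 =
    D.a t θ 0 * q 0 + D.a t θ 1 * q 1) (h2 : D.b t θ 0 * p 0 + D.b t θ 1 * p 1 =
    D.b t θ 0 * q 0 + D.b t θ 1 * q 1) (i : Fin 2) : p i = q i := by
  have hd := dl_ne ht θ
  revert i
  rw [Fin.forall_fin_two]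
  constructor
  · apply mul_left_cancel₀ hd
    rw [dl]; linear_combination D.b t θ 1 * h1 - D.a t θ 1 * h2
  · apply mul_left_cancel₀ hd
    rw [dl]; linear_combination (- D.b t θ 0) * h1 + D.a t θ 0 * h2

/-- the key identity **(T)** -/
theorem keyT (i : Fin 2) :
    D.v t θ 0 * dt (fun t θ => D.w t θ i) t θ - D.w t θ 0 * dt (fun t θ => D.v t θ i) t θ =
      D.v t θ 1 * D.v t θ i + D.w t θ 1 * D.w t θ i + D.I t θ * D.w t θ 1 * D.v t θ i := by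
  have h0 := a_dot_dtw ht θ
  have h1 := b_dot_dtw ht θ
  have h2 := a_dot_dtv ht θ
  have h3 := b_dot_dtv ht θ
  have aw' := a_dot_w ht θ
  have bw' := b_dot_w ht θ
  have av' := a_dot_v ht θ
  have bv' := b_dot_v ht θ
  have ea := dt_a_one ht θ
  have eb := dt_b_one ht θ
  have hd := dl_ne ht θ
  rw [aw] at h0
  rw [bw] at h1
  have hdet : D.w t θ 0 * D.v t θ 1 - D.v t θ 0 * D.w t θ 1 = 1 / D.dl t θ := by
    rw [w_0, w_1, v_0, v_1]
    field_simp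
    rw [dl]; ring
  refine vec_ext ht θ (p := fun i => D.v t θ 0 * dt (fun t θ => D.w t θ i) t θ -
    D.w t θ 0 * dt (fun t θ => D.v t θ i) t θ) (q := fun i => D.v t θ 1 * D.v t θ i +
    D.w t θ 1 * D.w t θ i + D.I t θ * D.w t θ 1 * D.v t θ i) ?_ ?_ i
  · have e : dt (fun t θ => D.a t θ 1) t θ * (D.w t θ 0 * D.v t θ 1 - D.v t θ 0 * D.w t θ 1)
        = D.w t θ 1 := by
      rw [ea, hdet, w_1]; ring
    linear_combination D.v t θ 0 * h0 - D.w t θ 0 * h2 + e - (D.v t θ 1 + D.I t θ * D.w t θ 1) * av'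
      - D.w t θ 1 * aw'
  · have e : dt (fun t θ => D.b t θ 1) t θ * (D.w t θ 0 * D.v t θ 1 - D.v t θ 0 * D.w t θ 1)
        = D.v t θ 1 + D.I t θ * D.w t θ 1 := by
      rw [eb, hdet, w_1, v_1]; ring
    linear_combination D.v t θ 0 * h1 - D.w t θ 0 * h3 + e - (D.v t θ 1 + D.I t θ * D.w t θ 1) * bv'
      - D.w t θ 1 * bw'

/-- `gc_i' = Σ_j n_{j,i} v_j` -/
theorem gc_hasDerivAt (i : Fin 2) : HasDerivAt (D.gc i t)
    (D.n 0 i t θ * D.v t θ 0 + D.n 1 i t θ * D.v t θ 1) θ := by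
  have hn0 : HasDerivAt (D.n 0 i t) (- dt (fun t θ => D.v t θ i) t θ) θ := by
    rw [n_zero]; exact (dtw_hasDerivAt ht θ i).neg
  have hn1 : HasDerivAt (D.n 1 i t) (- D.w t θ i - D.I t θ * D.v t θ i) θ := by
    rw [n_one]; exact v_hasDerivAt ht θ i
  have h := ((hn0.mul (w_hasDerivAt ht θ 0)).add (hn1.mul (w_hasDerivAt ht θ 1))).const_mul (1 / 2 : ℝ)
  refine HasDerivAt.congr_deriv h ?_
  have hT := keyT ht θ i
  rw [n_zero, n_one]
  linear_combination (1 / 2 : ℝ) * hT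

theorem dθ_gc (i : Fin 2) : dθ (D.gc i) t θ = D.n 0 i t θ * D.v t θ 0 + D.n 1 i t θ * D.v t θ 1 :=
  (gc_hasDerivAt ht θ i).deriv

theorem DY_gc (k i : Fin 2) : D.DY k (D.gc i) 2 t θ = D.n k i t θ := by
  rw [DY, dθ_gc ht θ i, gc]
  have f0 := frame ht θ 0 k
  have f1 := frame ht θ 1 k
  have : D.n 0 i t θ * (D.w t θ 0 * D.a t θ k + D.v t θ 0 * D.b t θ k) +
      D.n 1 i t θ * (D.w t θ 1 * D.a t θ k + D.v t θ 1 * D.b t θ k) = D.n k i t θ := by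
    rw [f0, f1]
    revert k
    rw [Fin.forall_fin_two]
    constructor <;> simp
  push_cast
  linarith

omit ht in
theorem DY2_gc (l k i : Fin 2) : D.DY k (D.n l i) 1 t θ =
    D.n l i t θ * D.a t θ k + dθ (D.n l i) t θ * D.b t θ k := by
  rw [DY]; push_cast; ring

theorem DY3_gc (l k j i : Fin 2) :
    D.DY j (fun t θ => D.n l i t θ * D.a t θ k + dθ (D.n l i) t θ * D.b t θ k) 0 t θ =
      D.cc l t θ * D.v t θ i * D.b t θ k * D.b t θ j := by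
  have h1 := (adm_n (D := D) l i).hasDerivAt_θ ht θ
  have h2 := (adm_n (D := D) l i).dθ.hasDerivAt_θ ht θ
  have h := (h1.mul (a_hasDerivAt ht θ k)).add (h2.mul (b_hasDerivAt ht θ k))
  have h3 : dθ (fun t θ => D.n l i t θ * D.a t θ k + dθ (D.n l i) t θ * D.b t θ k) t θ = _ :=
    HasDerivAt.deriv h
  rw [DY, h3]
  have h4 := dθ_n_structure ht θ l i
  push_cast
  linear_combination D.b t θ k * D.b t θ j * h4

end pointwise

variable {x Y : Fin 2 → ℝ}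

theorem G_d1 (hx : x 0 ∈ Ioo D.t1 D.t2) (hY : Y ≠ 0) (i l : Fin 2) :
    fderiv ℝ (fun u => D.G x u i) Y (Pi.single l (1 : ℝ)) = D.lift (D.n l i) 1 x Y := by
  rw [fderiv_Y (adm_gc i) 2 hx (f := fun u => D.G x u i) (fun u _ => rfl) hY l]
  show D.lift _ (2 - 1) x Y = _
  norm_num
  exact lift_congr 1 hx fun θ => DY_gc hx θ l i

theorem G_d2 (hx : x 0 ∈ Ioo D.t1 D.t2) (hY : Y ≠ 0) (i l k : Fin 2) :
    fderiv ℝ (fun w₁ => fderiv ℝ (fun u => D.G x u i) w₁ (Pi.single l (1 : ℝ))) Y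
      (Pi.single k (1 : ℝ)) =
      D.lift (fun t θ => D.n l i t θ * D.a t θ k + dθ (D.n l i) t θ * D.b t θ k) 0 x Y := by
  rw [fderiv_Y (adm_n l i) 1 hx (fun u hu => G_d1 hx hu i l) hY k]
  show D.lift _ (1 - 1) x Y = _
  rw [sub_self]
  exact lift_congr 0 hx fun θ => DY2_gc θ l k i

theorem G_d3 (hx : x 0 ∈ Ioo D.t1 D.t2) (hY : Y ≠ 0) (i l k j : Fin 2) :
    fderiv ℝ (fun w₂ => fderiv ℝ (fun w₁ => fderiv ℝ (fun u => D.G x u i) w₁
      (Pi.single l (1 : ℝ))) w₂ (Pi.single k (1 : ℝ))) Y (Pi.single j (1 : ℝ)) =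
      D.lift (fun t θ => D.cc l t θ * D.v t θ i * D.b t θ k * D.b t θ j) (-1) x Y := by
  have hadm : D.Adm (fun t θ => D.n l i t θ * D.a t θ k + dθ (D.n l i) t θ * D.b t θ k) :=
    ((adm_n l i).mul (D.adm_a k)).add ((adm_n l i).dθ.mul (D.adm_b k))
  rw [fderiv_Y hadm 0 hx (fun u hu => G_d2 hx hu i l k) hY j]
  show D.lift _ (0 - 1) x Y = _
  norm_num
  exact lift_congr (-1) hx fun θ => DY3_gc hx θ l k j i

/-- **Landsberg** -/
theorem landsberg (hx : x 0 ∈ Ioo D.t1 D.t2) (hY : Y ≠ 0) (j k l : Fin 2) :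
    ∑ i : Fin 2,
      ((1 / 2 : ℝ) * fderiv ℝ (fun u => D.F x u ^ 2) Y (Pi.single i (1 : ℝ) : Fin 2 → ℝ))
      * fderiv ℝ (fun w₂ => fderiv ℝ (fun w₁ => fderiv ℝ (fun u => D.G x u i) w₁
            (Pi.single l (1 : ℝ) : Fin 2 → ℝ)) w₂ (Pi.single k (1 : ℝ) : Fin 2 → ℝ)) Y
          (Pi.single j (1 : ℝ) : Fin 2 → ℝ) = 0 := by
  simp only [G_d3 hx hY, fderiv_Fsq hx hY, Fin.sum_univ_two, lift]
  have h := a_dot_v hx (D.Th (x 0) Y)
  set θ := D.Th (x 0) Y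
  linear_combination (D.F x Y ^ (1 : ℤ) * D.F x Y ^ (-1 : ℤ) * D.cc l (x 0) θ * D.b (x 0) θ k *
    D.b (x 0) θ j) * h

/-- **spray equation** -/
theorem spray (hx : x 0 ∈ Ioo D.t1 D.t2) (hY : Y ≠ 0) (l : Fin 2) :
    ∑ i : Fin 2,
      (1 / 2 : ℝ) * fderiv ℝ (fun w => fderiv ℝ (fun u => D.F x u ^ 2) w
          (Pi.single i (1 : ℝ) : Fin 2 → ℝ)) Y (Pi.single l (1 : ℝ) : Fin 2 → ℝ)
        * D.G x Y i
    = (1 / 4 : ℝ) * ((∑ k : Fin 2,
          fderiv ℝ (fun z => fderiv ℝ (fun u => D.F z u ^ 2) Y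
            (Pi.single l (1 : ℝ) : Fin 2 → ℝ)) x (Pi.single k (1 : ℝ) : Fin 2 → ℝ) * Y k)
        - fderiv ℝ (fun z => D.F z Y ^ 2) x (Pi.single l (1 : ℝ) : Fin 2 → ℝ)) := by
  obtain ⟨e1, e2⟩ := fderiv_x ((D.adm_const 2).mul (D.adm_a l)) 1 hx
    (f := fun z => fderiv ℝ (fun u => D.F z u ^ 2) Y (Pi.single l (1 : ℝ)))
    (fun z hz => fderiv_Fsq hz hY l) hY
  obtain ⟨e3, e4⟩ := fderiv_x (D.adm_const 1) 2 hx (f := fun z => D.F z Y ^ 2)
    (fun z _ => by rw [lift_one]; rfl) hY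
  have eY0 := Y_eq hx hY 0
  simp only [fderiv2_Fsq hx hY, Fin.sum_univ_two]
  rw [e1, e2, zero_mul, add_zero]
  have hDX : D.DX (fun t θ => 2 * D.a t θ l) 1 (x 0) (D.Th (x 0) Y) =
      2 * D.a (x 0) (D.Th (x 0) Y) l * D.aw (x 0) (D.Th (x 0) Y) +
      2 * dt (fun t θ => D.a t θ l) (x 0) (D.Th (x 0) Y) +
      2 * D.b (x 0) (D.Th (x 0) Y) l * D.bw (x 0) (D.Th (x 0) Y) := by
    have h1 : dt (fun t θ => 2 * D.a t θ l) (x 0) (D.Th (x 0) Y) =
        2 * dt (fun t θ => D.a t θ l) (x 0) (D.Th (x 0) Y) :=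
      (((D.adm_a l).hasDerivAt_t hx (D.Th (x 0) Y)).const_mul 2).deriv
    have h2 : dθ (fun t θ => 2 * D.a t θ l) (x 0) (D.Th (x 0) Y) =
        2 * D.b (x 0) (D.Th (x 0) Y) l :=
      ((a_hasDerivAt hx (D.Th (x 0) Y) l).const_mul 2).deriv
    rw [DX, h1, h2]
    push_cast
    ring
  have hDX2 : D.DX (fun _ _ => 1) 2 (x 0) (D.Th (x 0) Y) = 2 * D.aw (x 0) (D.Th (x 0) Y) := by
    rw [DX]
    simp [dt, dθ]
  have hfe : fderiv ℝ (fun z => D.F z Y ^ 2) x (Pi.single l (1 : ℝ) : Fin 2 → ℝ) =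
      (if l = 0 then 1 else 0) * (D.F x Y ^ 2 * (2 * D.aw (x 0) (D.Th (x 0) Y))) := by
    revert l
    rw [Fin.forall_fin_two]
    constructor
    · intros
      rw [e3, if_pos rfl, one_mul, lift, hDX2]; rfl
    · intros
      rw [e4, if_neg (by decide), zero_mul]
  rw [hfe]
  simp only [lift] at eY0 ⊢
  rw [hDX, eY0]
  simp only [G, lift]
  set θ := D.Th (x 0) Y
  have h0 := a_dot_dtw hx θ
  have h1 := b_dot_dtw hx θ
  have av' := a_dot_v hx θ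
  have bv' := b_dot_v hx θ
  have hz2 : D.F x Y ^ (2 : ℤ) = D.F x Y ^ 2 := by norm_cast
  rw [gc, gc, n_zero, n_zero, n_one, n_one, zpow_one, zpow_zero, hz2]
  have hkey : D.b (x 0) θ l * D.w (x 0) θ 1 = D.w (x 0) θ 0 * dt (fun t θ => D.a t θ l) (x 0) θ -
      (if l = 0 then 1 else 0) * D.aw (x 0) θ := by
    have ea := dt_a_one hx θ
    have bw' := b_dot_w hx θ
    revert l
    rw [Fin.forall_fin_two]
    constructor
    · intros
      rw [if_pos rfl, aw, ea]; ring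
    · intros
      rw [if_neg (by decide), ea]; linear_combination bw'
  linear_combination (1 / 2 : ℝ) * D.F x Y ^ 2 * hkey
    + (1 / 2 : ℝ) * D.F x Y ^ 2 * D.a (x 0) θ l * (D.w (x 0) θ 1 * av' - D.w (x 0) θ 0 * h0)
    + (1 / 2 : ℝ) * D.F x Y ^ 2 * D.b (x 0) θ l * (D.w (x 0) θ 1 * bv' - D.w (x 0) θ 0 * h1)

/-- **non-Berwald** -/
theorem not_berwald : ∃ x Y : Fin 2 → ℝ, x 0 ∈ Ioo D.t1 D.t2 ∧ Y ≠ 0 ∧ ∃ i j k l : Fin 2,
    fderiv ℝ (fun w₂ => fderiv ℝ (fun w₁ => fderiv ℝ (fun u => D.G x u i) w₁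
      (Pi.single l (1 : ℝ))) w₂ (Pi.single k (1 : ℝ))) Y (Pi.single j (1 : ℝ)) ≠ 0 := by
  obtain ⟨t, ht, θ, h1, h2⟩ := D.nondeg
  set x : Fin 2 → ℝ := fun _ => t with hxdef
  have hx : x 0 ∈ Ioo D.t1 D.t2 := ht
  set Y : Fin 2 → ℝ := D.w t θ with hYdef
  have hg : D.g (x 0) Y θ = 1 := a_dot_w ht θ
  have hg' : D.g' (x 0) Y θ = 0 := b_dot_w ht θ
  have hY : Y ≠ 0 := by
    intro h
    rw [g, h] at hg
    simp at hg
  have hI : dθ D.I t θ ≠ 0 := by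
    have hff : ContDiff ℝ ∞ (deriv D.f) := ContDiff.deriv' (n := ∞) (by simpa using D.hf)
    have e : HasDerivAt (fun θ => - deriv D.f (dθ D.y t θ))
        (-(deriv (deriv D.f) (dθ D.y t θ) * dθ (dθ D.y) t θ)) θ := by
      have h3 : HasDerivAt (deriv D.f) (deriv (deriv D.f) (dθ D.y t θ)) (dθ D.y t θ) :=
        (hff.differentiable (by simp) _).hasDerivAt
      exact (h3.comp θ (D.adm_y.dθ.hasDerivAt_θ ht θ)).neg
    have e2 : dθ D.I t θ = -(deriv (deriv D.f) (dθ D.y t θ) * dθ (dθ D.y) t θ) := e.deriv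
    rw [e2]
    exact neg_ne_zero.2 (mul_ne_zero h1 h2)
  have hd := dl_ne ht θ
  obtain ⟨k, hk⟩ : ∃ k, D.b t θ k ≠ 0 := by
    by_contra hcon
    push Not at hcon
    apply hd
    rw [dl, hcon 0, hcon 1]; ring
  obtain ⟨i, hi⟩ : ∃ i, D.v t θ i ≠ 0 := by
    by_contra hcon
    push Not at hcon
    have := b_dot_v ht θ
    rw [hcon 0, hcon 1] at this
    simp at this
  refine ⟨x, Y, hx, hY, i, k, k, 1, ?_⟩
  have hadm : D.Adm (fun t θ => D.cc 1 t θ * D.v t θ i * D.b t θ k * D.b t θ k) := by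
    rw [cc_one]
    exact ((D.adm_I.dθ.neg.mul (adm_v i)).mul (D.adm_b k)).mul (D.adm_b k)
  rw [G_d3 hx hY, lift_eq_crit hadm (-1) hx hY hg' (by rw [hg]; exact one_pos), hg, one_zpow,
    one_mul, cc_one]
  exact mul_ne_zero (mul_ne_zero (mul_ne_zero (neg_ne_zero.2 hI) hi) hk) hk

end IsoFamily
end Pool.Agent.Unicorn
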