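import Pool.Agent.Unicorn.Defs

/-!
# Unicorn project, Part A: shared definitions and structure equations

For an `IsoFamily` we set `a = (y_t, -y_θ)`, `b = a_θ`, `I = -f'(y_θ)`, `dl = a₀ b₁ - a₁ b₀`,
`w = (b₁, -b₀)/dl`, `v = (-a₁, a₀)/dl` (index set `Fin 2`).
-/

set_option autoImplicit false

open Set Filter Topology
open scoped ContDiff

namespace Pool.Agent.Unicorn

/-- Partial derivative in the second variable. -/
noncomputable def dθ (h : ℝ → ℝ → ℝ) : ℝ → ℝ → ℝ := fun t θ => deriv (h t) θ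

/-- Partial derivative in the first variable. -/
noncomputable def dt (h : ℝ → ℝ → ℝ) : ℝ → ℝ → ℝ := fun t θ => deriv (fun s => h s θ) t

namespace IsoFamily

variable (D : IsoFamily)

/-- Admissible coefficient functions: smooth on the strip and `L`-periodic in `θ`. -/
structure Adm (h : ℝ → ℝ → ℝ) : Prop where
  smooth : ContDiffOn ℝ ∞ (fun p : ℝ × ℝ => h p.1 p.2) (Ioo D.t1 D.t2 ×ˢ univ)
  per : ∀ t ∈ Ioo D.t1 D.t2, ∀ θ, h t (θ + D.L) = h t θ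

theorem isOpen_strip : IsOpen (Ioo D.t1 D.t2 ×ˢ (univ : Set ℝ)) := isOpen_Ioo.prod isOpen_univ

variable {D}

namespace Adm

variable {h k : ℝ → ℝ → ℝ}

theorem contDiffAt (hh : D.Adm h) {t : ℝ} (ht : t ∈ Ioo D.t1 D.t2) (θ : ℝ) :
    ContDiffAt ℝ ∞ (fun p : ℝ × ℝ => h p.1 p.2) (t, θ) :=
  hh.smooth.contDiffAt (D.isOpen_strip.mem_nhds ⟨ht, mem_univ _⟩)

theorem differentiableAt (hh : D.Adm h) {t : ℝ} (ht : t ∈ Ioo D.t1 D.t2) (θ : ℝ) :
    DifferentiableAt ℝ (fun p : ℝ × ℝ => h p.1 p.2) (t, θ) :=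
  (hh.contDiffAt ht θ).differentiableAt (by simp)

theorem hasDerivAt_θ' (hh : D.Adm h) {t : ℝ} (ht : t ∈ Ioo D.t1 D.t2) (θ : ℝ) :
    HasDerivAt (h t) (fderiv ℝ (fun p : ℝ × ℝ => h p.1 p.2) (t, θ) (0, 1)) θ := by
  have h1 := (hh.differentiableAt ht θ).hasFDerivAt
  have h2 : HasDerivAt (fun θ' : ℝ => (t, θ')) ((0 : ℝ), (1 : ℝ)) θ :=
    (hasDerivAt_const θ t).prodMk (hasDerivAt_id θ)
  exact h1.comp_hasDerivAt θ h2

theorem hasDerivAt_t' (hh : D.Adm h) {t : ℝ} (ht : t ∈ Ioo D.t1 D.t2) (θ : ℝ) :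
    HasDerivAt (fun s => h s θ) (fderiv ℝ (fun p : ℝ × ℝ => h p.1 p.2) (t, θ) (1, 0)) t := by
  have h1 := (hh.differentiableAt ht θ).hasFDerivAt
  have h2 : HasDerivAt (fun s : ℝ => (s, θ)) ((1 : ℝ), (0 : ℝ)) t :=
    (hasDerivAt_id t).prodMk (hasDerivAt_const t θ)
  exact h1.comp_hasDerivAt t h2

theorem hasDerivAt_θ (hh : D.Adm h) {t : ℝ} (ht : t ∈ Ioo D.t1 D.t2) (θ : ℝ) :
    HasDerivAt (h t) (dθ h t θ) θ := by
  have := hh.hasDerivAt_θ' ht θ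
  rwa [show dθ h t θ = _ from this.deriv]

theorem hasDerivAt_t (hh : D.Adm h) {t : ℝ} (ht : t ∈ Ioo D.t1 D.t2) (θ : ℝ) :
    HasDerivAt (fun s => h s θ) (dt h t θ) t := by
  have := hh.hasDerivAt_t' ht θ
  rwa [show dt h t θ = _ from this.deriv]

/-- Total derivative in terms of the partial derivatives. -/
theorem hasFDerivAt (hh : D.Adm h) {t : ℝ} (ht : t ∈ Ioo D.t1 D.t2) (θ : ℝ) :
    HasFDerivAt (fun p : ℝ × ℝ => h p.1 p.2)
      (dt h t θ • ContinuousLinearMap.fst ℝ ℝ ℝ + dθ h t θ • ContinuousLinearMap.snd ℝ ℝ ℝ)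
      (t, θ) := by
  have h1 := (hh.differentiableAt ht θ).hasFDerivAt
  convert h1 using 1
  have e1 : dt h t θ = _ := (hh.hasDerivAt_t' ht θ).deriv
  have e2 : dθ h t θ = _ := (hh.hasDerivAt_θ' ht θ).deriv
  ext <;> simp [e1, e2]

theorem dθ_eq (hh : D.Adm h) {t : ℝ} (ht : t ∈ Ioo D.t1 D.t2) (θ : ℝ) :
    dθ h t θ = fderiv ℝ (fun p : ℝ × ℝ => h p.1 p.2) (t, θ) (0, 1) :=
  (hh.hasDerivAt_θ' ht θ).deriv

theorem dt_eq (hh : D.Adm h) {t : ℝ} (ht : t ∈ Ioo D.t1 D.t2) (θ : ℝ) :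
    dt h t θ = fderiv ℝ (fun p : ℝ × ℝ => h p.1 p.2) (t, θ) (1, 0) :=
  (hh.hasDerivAt_t' ht θ).deriv

theorem fderiv_smooth (hh : D.Adm h) (z : ℝ × ℝ) :
    ContDiffOn ℝ ∞ (fun p : ℝ × ℝ => fderiv ℝ (fun p : ℝ × ℝ => h p.1 p.2) p z)
      (Ioo D.t1 D.t2 ×ˢ univ) := by
  have := hh.smooth.fderiv_of_isOpen (m := ∞) D.isOpen_strip (by simp)
  exact this.clm_apply contDiffOn_const

theorem dθ (hh : D.Adm h) : D.Adm (dθ h) where
  smooth := by
    refine (hh.fderiv_smooth (0, 1)).congr ?_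
    rintro ⟨t, θ⟩ ⟨ht, -⟩
    exact hh.dθ_eq ht θ
  per := by
    intro t ht θ
    have h1 := hh.hasDerivAt_θ ht (θ + D.L)
    have h2 : HasDerivAt (fun θ' => h t (θ' + D.L)) (Unicorn.dθ h t (θ + D.L)) θ := by
      exact h1.comp_add_const θ D.L
    have h3 : (fun θ' => h t (θ' + D.L)) = h t := funext fun θ' => hh.per t ht θ'
    rw [h3] at h2
    exact h2.unique (hh.hasDerivAt_θ ht θ)

theorem dt (hh : D.Adm h) : D.Adm (dt h) where
  smooth := by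
    refine (hh.fderiv_smooth (1, 0)).congr ?_
    rintro ⟨t, θ⟩ ⟨ht, -⟩
    exact hh.dt_eq ht θ
  per := by
    intro t ht θ
    have h1 := hh.hasDerivAt_t ht (θ + D.L)
    have h2 := hh.hasDerivAt_t ht θ
    have h3 : (fun s => h s (θ + D.L)) =ᶠ[𝓝 t] fun s => h s θ := by
      filter_upwards [isOpen_Ioo.mem_nhds ht] with s hs using hh.per s hs θ
    exact (h1.congr_of_eventuallyEq h3.symm).unique h2

/-- Mixed partial derivatives commute. -/
theorem comm (hh : D.Adm h) {t : ℝ} (ht : t ∈ Ioo D.t1 D.t2) (θ : ℝ) :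
    Unicorn.dθ (Unicorn.dt h) t θ = Unicorn.dt (Unicorn.dθ h) t θ := by
  set H : ℝ × ℝ → ℝ := fun p => h p.1 p.2 with hH
  have hc := hh.contDiffAt ht θ
  have hsym : IsSymmSndFDerivAt ℝ H (t, θ) := hc.isSymmSndFDerivAt (by simpa using (WithTop.coe_le_coe.2 (le_top : (2:ℕ∞) ≤ ⊤)))
  have hd : DifferentiableAt ℝ (fderiv ℝ H) (t, θ) :=
    (hc.fderiv_right (m := ∞) (by simp)).differentiableAt (by simp)
  have e1 : Unicorn.dθ (Unicorn.dt h) t θ = fderiv ℝ (fderiv ℝ H) (t, θ) (0, 1) (1, 0) := by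
    have h1 : HasDerivAt (fun θ' : ℝ => fderiv ℝ H (t, θ') (1, 0))
        (fderiv ℝ (fderiv ℝ H) (t, θ) (0, 1) (1, 0)) θ := by
      have h2 : HasDerivAt (fun θ' : ℝ => (t, θ')) ((0 : ℝ), (1 : ℝ)) θ :=
        (hasDerivAt_const θ t).prodMk (hasDerivAt_id θ)
      have h3 := hd.hasFDerivAt.comp_hasDerivAt θ h2
      exact ((ContinuousLinearMap.apply ℝ ℝ ((1 : ℝ), (0 : ℝ))).hasFDerivAt.comp_hasDerivAt θ h3)
    have h4 : Unicorn.dt h t = fun θ' => fderiv ℝ H (t, θ') (1, 0) :=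
      funext fun θ' => hh.dt_eq ht θ'
    rw [Unicorn.dθ, h4]
    exact h1.deriv
  have e2 : Unicorn.dt (Unicorn.dθ h) t θ = fderiv ℝ (fderiv ℝ H) (t, θ) (1, 0) (0, 1) := by
    have h1 : HasDerivAt (fun s : ℝ => fderiv ℝ H (s, θ) (0, 1))
        (fderiv ℝ (fderiv ℝ H) (t, θ) (1, 0) (0, 1)) t := by
      have h2 : HasDerivAt (fun s : ℝ => (s, θ)) ((1 : ℝ), (0 : ℝ)) t :=
        (hasDerivAt_id t).prodMk (hasDerivAt_const t θ)
      have h3 := hd.hasFDerivAt.comp_hasDerivAt t h2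
      exact ((ContinuousLinearMap.apply ℝ ℝ ((0 : ℝ), (1 : ℝ))).hasFDerivAt.comp_hasDerivAt t h3)
    have h4 : (fun s => Unicorn.dθ h s θ) =ᶠ[𝓝 t] fun s => fderiv ℝ H (s, θ) (0, 1) := by
      filter_upwards [isOpen_Ioo.mem_nhds ht] with s hs using hh.dθ_eq hs θ
    rw [Unicorn.dt]
    exact (h1.congr_of_eventuallyEq h4).deriv
  rw [e1, e2]
  exact hsym.eq _ _

theorem congr (hh : D.Adm h) (hk : ∀ t ∈ Ioo D.t1 D.t2, ∀ θ, k t θ = h t θ) : D.Adm k where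
  smooth := hh.smooth.congr (by rintro ⟨t, θ⟩ ⟨ht, -⟩; exact hk t ht θ)
  per := by intro t ht θ; rw [hk t ht, hk t ht, hh.per t ht]

theorem add (hh : D.Adm h) (hk : D.Adm k) : D.Adm (fun t θ => h t θ + k t θ) where
  smooth := hh.smooth.add hk.smooth
  per := by intro t ht θ; simp only [hh.per t ht, hk.per t ht]

theorem sub (hh : D.Adm h) (hk : D.Adm k) : D.Adm (fun t θ => h t θ - k t θ) where
  smooth := hh.smooth.sub hk.smooth
  per := by intro t ht θ; simp only [hh.per t ht, hk.per t ht]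

theorem mul (hh : D.Adm h) (hk : D.Adm k) : D.Adm (fun t θ => h t θ * k t θ) where
  smooth := hh.smooth.mul hk.smooth
  per := by intro t ht θ; simp only [hh.per t ht, hk.per t ht]

theorem neg (hh : D.Adm h) : D.Adm (fun t θ => - h t θ) where
  smooth := hh.smooth.neg
  per := by intro t ht θ; simp only [hh.per t ht]

theorem div (hh : D.Adm h) (hk : D.Adm k) (h0 : ∀ t ∈ Ioo D.t1 D.t2, ∀ θ, k t θ ≠ 0) :
    D.Adm (fun t θ => h t θ / k t θ) where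
  smooth := hh.smooth.div hk.smooth (by rintro ⟨t, θ⟩ ⟨ht, -⟩; exact h0 t ht θ)
  per := by intro t ht θ; simp only [hh.per t ht, hk.per t ht]

theorem comp (hh : D.Adm h) {φ : ℝ → ℝ} (hφ : ContDiff ℝ ∞ φ) : D.Adm (fun t θ => φ (h t θ)) where
  smooth := hφ.comp_contDiffOn hh.smooth
  per := by intro t ht θ; simp only [hh.per t ht]

end Adm

variable (D) in
theorem adm_const (c : ℝ) : D.Adm (fun _ _ => c) where
  smooth := contDiffOn_const
  per := by intro t _ θ; rfl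

variable (D) in
theorem adm_y : D.Adm D.y := ⟨D.hy, D.per⟩

variable (D)

/-- `a = (y_t, -y_θ)` -/
noncomputable def a (t θ : ℝ) : Fin 2 → ℝ := ![dt D.y t θ, - dθ D.y t θ]

/-- `b = a_θ = (y_tθ, -y_θθ)` -/
noncomputable def b (t θ : ℝ) : Fin 2 → ℝ := ![dt (dθ D.y) t θ, - dθ (dθ D.y) t θ]

/-- `I = - f'(y_θ)` -/
noncomputable def I (t θ : ℝ) : ℝ := - deriv D.f (dθ D.y t θ)

/-- `dl = det (a,b)` -/
noncomputable def dl (t θ : ℝ) : ℝ := D.a t θ 0 * D.b t θ 1 - D.a t θ 1 * D.b t θ 0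

/-- dual frame: `<a,w> = 1`, `<b,w> = 0` -/
noncomputable def w (t θ : ℝ) : Fin 2 → ℝ := ![D.b t θ 1 / D.dl t θ, - D.b t θ 0 / D.dl t θ]

/-- dual frame: `<a,v> = 0`, `<b,v> = 1` -/
noncomputable def v (t θ : ℝ) : Fin 2 → ℝ := ![- D.a t θ 1 / D.dl t θ, D.a t θ 0 / D.dl t θ]

/-- The Finsler function `F(x;Y) = max_θ <a(x₀,θ),Y>` (it depends on `x` through `x 0` only). -/
noncomputable def F (x Y : Fin 2 → ℝ) : ℝ :=
  sSup (range fun θ => D.a (x 0) θ 0 * Y 0 + D.a (x 0) θ 1 * Y 1)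

/-- A chosen point of maximum of `θ ↦ <a(t,θ),Y>` (unique modulo `L`). -/
noncomputable def Th (t : ℝ) (Y : Fin 2 → ℝ) : ℝ :=
  Classical.epsilon fun θ => ∀ θ', D.a t θ' 0 * Y 0 + D.a t θ' 1 * Y 1 ≤
    D.a t θ 0 * Y 0 + D.a t θ 1 * Y 1

/-- The function `F^m h(t, Θ(t,Y))` of `(x,Y)` attached to a coefficient function `h(t,θ)`. -/
noncomputable def lift (h : ℝ → ℝ → ℝ) (m : ℤ) (x Y : Fin 2 → ℝ) : ℝ :=
  D.F x Y ^ m * h (x 0) (D.Th (x 0) Y)

@[simp] theorem a_0 (t θ : ℝ) : D.a t θ 0 = dt D.y t θ := rfl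
@[simp] theorem a_1 (t θ : ℝ) : D.a t θ 1 = - dθ D.y t θ := rfl
@[simp] theorem b_0 (t θ : ℝ) : D.b t θ 0 = dt (dθ D.y) t θ := rfl
@[simp] theorem b_1 (t θ : ℝ) : D.b t θ 1 = - dθ (dθ D.y) t θ := rfl
theorem w_0 (t θ : ℝ) : D.w t θ 0 = D.b t θ 1 / D.dl t θ := rfl
theorem w_1 (t θ : ℝ) : D.w t θ 1 = - D.b t θ 0 / D.dl t θ := rfl
theorem v_0 (t θ : ℝ) : D.v t θ 0 = - D.a t θ 1 / D.dl t θ := rfl
theorem v_1 (t θ : ℝ) : D.v t θ 1 = D.a t θ 0 / D.dl t θ := rfl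

theorem adm_a (k : Fin 2) : D.Adm (fun t θ => D.a t θ k) := by
  fin_cases k
  · exact D.adm_y.dt
  · exact D.adm_y.dθ.neg

theorem adm_b (k : Fin 2) : D.Adm (fun t θ => D.b t θ k) := by
  fin_cases k
  · exact D.adm_y.dθ.dt
  · exact D.adm_y.dθ.dθ.neg

theorem adm_I : D.Adm D.I := by
  have h1 : ContDiff ℝ ∞ (deriv D.f) := by
    exact ContDiff.deriv' (n := ∞) (by simpa using D.hf)
  exact (D.adm_y.dθ.comp h1).neg

theorem adm_dl : D.Adm D.dl :=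
  ((D.adm_a 0).mul (D.adm_b 1)).sub ((D.adm_a 1).mul (D.adm_b 0))

variable {D} {t : ℝ} (ht : t ∈ Ioo D.t1 D.t2) (θ : ℝ)

include ht

theorem dl_pos : 0 < D.dl t θ := by
  have := D.jac t ht θ
  have e : D.dl t θ = deriv (D.y t) θ * deriv (fun s => deriv (D.y s) θ) t
        - deriv (fun s => D.y s θ) t * deriv (deriv (D.y t)) θ := by
    show deriv (fun s => D.y s θ) t * - deriv (deriv (D.y t)) θ
      - - deriv (D.y t) θ * deriv (fun s => deriv (D.y s) θ) t = _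
    ring
  rw [e]; exact this

theorem dl_ne : D.dl t θ ≠ 0 := (dl_pos ht θ).ne'

omit ht in
theorem adm_w (k : Fin 2) : D.Adm (fun t θ => D.w t θ k) := by
  fin_cases k
  · exact (D.adm_b 1).div D.adm_dl fun t ht θ => dl_ne ht θ
  · exact (D.adm_b 0).neg.div D.adm_dl fun t ht θ => dl_ne ht θ

omit ht in
theorem adm_v (k : Fin 2) : D.Adm (fun t θ => D.v t θ k) := by
  fin_cases k
  · exact (D.adm_a 1).neg.div D.adm_dl fun t ht θ => dl_ne ht θ
  · exact (D.adm_a 0).div D.adm_dl fun t ht θ => dl_ne ht θ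

/-- `a' = b` -/
theorem a_hasDerivAt (k : Fin 2) : HasDerivAt (fun θ => D.a t θ k) (D.b t θ k) θ := by
  have h := (D.adm_a k).hasDerivAt_θ ht θ
  convert h using 1
  fin_cases k
  · exact (D.adm_y.comm ht θ).symm
  · have := (D.adm_y.dθ.hasDerivAt_θ ht θ).neg
    exact this.deriv.symm

/-- the equation: `y_θθ = - y - f(y_θ)` -/
theorem ode' : dθ (dθ D.y) t θ = - D.y t θ - D.f (dθ D.y t θ) := by
  have := D.ode t ht θ
  show deriv (deriv (D.y t)) θ = - D.y t θ - D.f (deriv (D.y t) θ)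
  linarith

/-- `b' = -a + I b` -/
theorem b_hasDerivAt (k : Fin 2) :
    HasDerivAt (fun θ => D.b t θ k) (- D.a t θ k + D.I t θ * D.b t θ k) θ := by
  have hf : ∀ x, HasDerivAt D.f (deriv D.f x) x := fun x =>
    (D.hf.differentiable (by simp) x).hasDerivAt
  revert k
  rw [Fin.forall_fin_two]
  constructor
  · -- b₀ = dt (dθ y) = dθ (dt y)
    have h := (D.adm_b 0).hasDerivAt_θ ht θ
    have e1 : Unicorn.dθ (fun t θ => D.b t θ 0) t θ = Unicorn.dt (Unicorn.dθ (Unicorn.dθ D.y)) t θ :=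
      D.adm_y.dθ.comm ht θ
    have h2 : HasDerivAt (fun s => Unicorn.dθ (Unicorn.dθ D.y) s θ)
        (- Unicorn.dt D.y t θ - deriv D.f (Unicorn.dθ D.y t θ) * Unicorn.dt (Unicorn.dθ D.y) t θ) t := by
      have h3 : HasDerivAt (fun s => - D.y s θ - D.f (Unicorn.dθ D.y s θ))
        (- Unicorn.dt D.y t θ - deriv D.f (Unicorn.dθ D.y t θ) * Unicorn.dt (Unicorn.dθ D.y) t θ) t := by
        have h4 := (D.adm_y.hasDerivAt_t ht θ)
        have h5 := (D.adm_y.dθ.hasDerivAt_t ht θ)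
        exact h4.neg.sub ((hf _).comp t h5)
      refine h3.congr_of_eventuallyEq ?_
      filter_upwards [isOpen_Ioo.mem_nhds ht] with s hs using ode' hs θ
    convert h using 1
    rw [e1]
    rw [Unicorn.dt, h2.deriv]
    simp only [a_0, b_0, I]
    ring
  · have h3 : HasDerivAt (fun θ' => - (- D.y t θ' - D.f (Unicorn.dθ D.y t θ')))
        (-(- Unicorn.dθ D.y t θ - deriv D.f (Unicorn.dθ D.y t θ) *
          Unicorn.dθ (Unicorn.dθ D.y) t θ)) θ := by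
      have h4 := (D.adm_y.hasDerivAt_θ ht θ)
      have h5 := (D.adm_y.dθ.hasDerivAt_θ ht θ)
      exact (h4.neg.sub ((hf _).comp θ h5)).neg
    have h6 : (fun θ => D.b t θ 1) = (fun θ' => - (- D.y t θ' - D.f (Unicorn.dθ D.y t θ'))) := by
      funext θ'
      rw [b_1, ode' ht θ']
    rw [h6]
    convert h3 using 1
    simp only [a_1, b_1, I]
    ring

/-- `dl' = I dl` -/
theorem dl_hasDerivAt : HasDerivAt (fun θ => D.dl t θ) (D.I t θ * D.dl t θ) θ := by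
  have h := ((a_hasDerivAt ht θ 0).mul (b_hasDerivAt ht θ 1)).sub
    ((a_hasDerivAt ht θ 1).mul (b_hasDerivAt ht θ 0))
  refine HasDerivAt.congr_deriv h ?_
  rw [dl]; ring

/-- `w' = v` -/
theorem w_hasDerivAt (k : Fin 2) : HasDerivAt (fun θ => D.w t θ k) (D.v t θ k) θ := by
  have hd := dl_ne ht θ
  revert k
  rw [Fin.forall_fin_two]
  constructor
  · have h := (b_hasDerivAt ht θ 1).div (dl_hasDerivAt ht θ) hd
    refine HasDerivAt.congr_deriv h ?_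
    rw [v_0]
    field_simp
    ring
  · have h := (b_hasDerivAt ht θ 0).fun_neg.div (dl_hasDerivAt ht θ) hd
    refine HasDerivAt.congr_deriv h ?_
    rw [v_1]
    field_simp
    ring

/-- `v' = - w - I v` -/
theorem v_hasDerivAt (k : Fin 2) :
    HasDerivAt (fun θ => D.v t θ k) (- D.w t θ k - D.I t θ * D.v t θ k) θ := by
  have hd := dl_ne ht θ
  revert k
  rw [Fin.forall_fin_two]
  constructor
  · have h := (a_hasDerivAt ht θ 1).fun_neg.div (dl_hasDerivAt ht θ) hd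
    refine HasDerivAt.congr_deriv h ?_
    rw [v_0, w_0]
    field_simp
  · have h := (a_hasDerivAt ht θ 0).div (dl_hasDerivAt ht θ) hd
    refine HasDerivAt.congr_deriv h ?_
    rw [v_1, w_1]
    field_simp

/-- `∂_t a₁ = - b₀` -/
theorem dt_a_one : dt (fun t θ => D.a t θ 1) t θ = - D.b t θ 0 := by
  have := (D.adm_y.dθ.hasDerivAt_t ht θ).neg
  exact this.deriv

theorem dθ_a (k : Fin 2) : dθ (fun t θ => D.a t θ k) t θ = D.b t θ k :=
  (a_hasDerivAt ht θ k).deriv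

theorem dθ_b (k : Fin 2) :
    dθ (fun t θ => D.b t θ k) t θ = - D.a t θ k + D.I t θ * D.b t θ k :=
  (b_hasDerivAt ht θ k).deriv

theorem dθ_dl : dθ (fun t θ => D.dl t θ) t θ = D.I t θ * D.dl t θ :=
  (dl_hasDerivAt ht θ).deriv

theorem dθ_w (k : Fin 2) : dθ (fun t θ => D.w t θ k) t θ = D.v t θ k :=
  (w_hasDerivAt ht θ k).deriv

theorem dθ_v (k : Fin 2) :
    dθ (fun t θ => D.v t θ k) t θ = - D.w t θ k - D.I t θ * D.v t θ k :=
  (v_hasDerivAt ht θ k).deriv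

theorem a_dot_w : D.a t θ 0 * D.w t θ 0 + D.a t θ 1 * D.w t θ 1 = 1 := by
  have hd := dl_ne ht θ
  rw [w_0, w_1]
  field_simp
  rw [dl]; ring

theorem b_dot_w : D.b t θ 0 * D.w t θ 0 + D.b t θ 1 * D.w t θ 1 = 0 := by
  have hd := dl_ne ht θ
  rw [w_0, w_1]
  field_simp
  ring

theorem a_dot_v : D.a t θ 0 * D.v t θ 0 + D.a t θ 1 * D.v t θ 1 = 0 := by
  have hd := dl_ne ht θ
  rw [v_0, v_1]
  field_simp
  ring

theorem b_dot_v : D.b t θ 0 * D.v t θ 0 + D.b t θ 1 * D.v t θ 1 = 1 := by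
  have hd := dl_ne ht θ
  rw [v_0, v_1]
  field_simp
  rw [dl]; ring

/-- completeness of the frame: `w_i a_j + v_i b_j = δ_ij` -/
theorem frame (i j : Fin 2) :
    D.w t θ i * D.a t θ j + D.v t θ i * D.b t θ j = if i = j then 1 else 0 := by
  have hd := dl_ne ht θ
  revert i j
  rw [Fin.forall_fin_two, Fin.forall_fin_two, Fin.forall_fin_two]
  refine ⟨⟨?_, ?_⟩, ⟨?_, ?_⟩⟩
  · rw [w_0, v_0, if_pos rfl]; field_simp; rw [dl]; ring
  · rw [w_0, v_0, if_neg (by decide)]; field_simp; ring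
  · rw [w_1, v_1, if_neg (by decide)]; field_simp; ring
  · rw [w_1, v_1, if_pos rfl]; field_simp; rw [dl]; ring

end IsoFamily
end Pool.Agent.Unicorn
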