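import Pool.Agent.Unicorn.BDefs

/-!
# Unicorn, Part B: the bounded operators (module B0)
-/

set_option autoImplicit false

open Set MeasureTheory intervalIntegral Filter Topology
open scoped ContDiff BoundedContinuousFunction

namespace Pool.Agent.Unicorn

variable {l : ℝ} {J : Set ℝ}

/-- constructor for bounded operators between spaces of bounded continuous functions -/
noncomputable def mkOp {P Q : Type*} [TopologicalSpace P] [TopologicalSpace Q]
    (T : (P →ᵇ ℝ) → Q → ℝ) (hc : ∀ g, Continuous (T g)) (C : ℝ)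
    (hC : ∀ g q, |T g q| ≤ C * ‖g‖) (hadd : ∀ g h q, T (g + h) q = T g q + T h q)
    (hsmul : ∀ (c : ℝ) g q, T (c • g) q = c * T g q) : (P →ᵇ ℝ) →L[ℝ] (Q →ᵇ ℝ) :=
  LinearMap.mkContinuous
    { toFun := fun g => BoundedContinuousFunction.ofNormedAddCommGroup (T g) (hc g) (C * ‖g‖)
        (fun q => hC g q)
      map_add' := fun g h => by ext q; exact hadd g h q
      map_smul' := fun c g => by ext q; exact hsmul c g q } |C| (fun g => by
        rw [BoundedContinuousFunction.norm_le (by positivity)]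
        intro q
        exact (hC g q).trans (mul_le_mul_of_nonneg_right (le_abs_self C) (norm_nonneg _)))

@[simp] lemma mkOp_apply {P Q : Type*} [TopologicalSpace P] [TopologicalSpace Q]
    {T : (P →ᵇ ℝ) → Q → ℝ} {hc : ∀ g, Continuous (T g)} {C : ℝ}
    {hC : ∀ g q, |T g q| ≤ C * ‖g‖} {hadd : ∀ g h q, T (g + h) q = T g q + T h q}
    {hsmul : ∀ (c : ℝ) g q, T (c • g) q = c * T g q} (g : P →ᵇ ℝ) (q : Q) :
    mkOp T hc C hC hadd hsmul g q = T g q := rfl

/-- continuity of `p ↦ ∫_{s}^{λ} φ(p,r) dr` -/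
lemma TT.continuous_int [LocallyCompactSpace (TT l J)] {φ : TT l J → ℝ → ℝ}
    (hφ : Continuous (Function.uncurry φ)) :
    Continuous (fun p : TT l J => ∫ r in p.s..p.lam, φ p r) := by
  have h1 : Continuous (fun p : TT l J => ∫ r in (0:ℝ)..p.lam, φ p r) :=
    intervalIntegral.continuous_parametric_intervalIntegral_of_continuous hφ TT.continuous_lam
  have h2 : Continuous (fun p : TT l J => ∫ r in (0:ℝ)..p.s, φ p r) :=
    intervalIntegral.continuous_parametric_intervalIntegral_of_continuous hφ TT.continuous_s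
  have e : (fun p : TT l J => ∫ r in p.s..p.lam, φ p r)
      = fun p => (∫ r in (0:ℝ)..p.lam, φ p r) - ∫ r in (0:ℝ)..p.s, φ p r := by
    funext p
    have hc : Continuous (φ p) := hφ.comp (f := fun r : ℝ => (p, r)) (by fun_prop)
    exact (intervalIntegral.integral_interval_sub_left (hc.intervalIntegrable _ _)
      (hc.intervalIntegrable _ _)).symm
  rw [e]
  exact h1.sub h2

lemma TT.at'_rho (p : TT l J) {r : ℝ} (h1 : l ≤ r) (h2 : r ≤ p.lam) :
    (p.at' r).rho = p.x + p.lam - r := by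
  unfold TT.rho
  rw [p.at'_s h1 h2, TT.at'_lam, TT.at'_x]

lemma DD.at'_rho (p : DD l J) {r : ℝ} (h1 : l ≤ r) (h2 : r ≤ p.lam) :
    (p.at' r).rho = p.x + p.lam - r := by
  unfold TT.rho
  rw [p.at'_s h1 h2, DD.at'_lam, DD.at'_x]

/-- composition with `at'` is continuous in `r` -/
lemma TT.cont_at (p : TT l J) : Continuous p.at' :=
  TT.continuous_at'.comp (f := fun r : ℝ => (p, r)) (by fun_prop)

lemma DD.cont_at (p : DD l J) : Continuous p.at' :=
  DD.continuous_at'.comp (f := fun r : ℝ => (p, r)) (by fun_prop)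

/-! ### `∫_s^λ √s g ds` -/

/-- `Iop g (λ,x) = ∫_l^λ √s g(s,λ,x) ds` -/
noncomputable def Iop [h0 : Fact (0 < l)] (J : Set ℝ) [LocallyCompactSpace (DD l J)] :
    (TT l J →ᵇ ℝ) →L[ℝ] (DD l J →ᵇ ℝ) :=
  mkOp (fun g d => ∫ r in l..d.lam, √r * g (d.at' r))
    (fun g => by
      refine intervalIntegral.continuous_parametric_intervalIntegral_of_continuous
        (f := fun (d : DD l J) r => √r * g (d.at' r)) ?_ DD.continuous_lam
      exact (by fun_prop : Continuous fun z : DD l J × ℝ => √z.2).mul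
        (g.continuous.comp DD.continuous_at'))
    1
    (fun g d => by
      rw [one_mul]
      have h := intervalIntegral.norm_integral_le_of_norm_le_const (a := l) (b := d.lam)
        (f := fun r => √r * g (d.at' r)) (C := ‖g‖) (fun r hr => ?_)
      · rw [Real.norm_eq_abs] at h
        refine h.trans ?_
        rw [abs_of_nonneg (by linarith [d.l_le])]
        have := norm_nonneg g
        have h2 := d.lam_le
        have h3 := h0.out
        nlinarith
      · rw [uIoc_of_le d.l_le] at hr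
        rw [norm_mul, Real.norm_eq_abs, abs_of_nonneg (Real.sqrt_nonneg _)]
        have h1 : √r ≤ 1 := Real.sqrt_le_iff.2 ⟨zero_le_one, by
          have := hr.2.trans d.lam_le
          linarith⟩
        calc √r * ‖g (d.at' r)‖ ≤ 1 * ‖g‖ :=
              mul_le_mul h1 (g.norm_coe_le_norm _) (norm_nonneg _) zero_le_one
          _ = ‖g‖ := one_mul _)
    (fun g h d => by
      rw [← intervalIntegral.integral_add]
      · refine integral_congr (fun r _ => ?_)
        simp only [BoundedContinuousFunction.coe_add, Pi.add_apply]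
        ring
      · exact ((by fun_prop : Continuous fun r : ℝ => √r).mul
          (g.continuous.comp d.cont_at)).intervalIntegrable _ _
      · exact ((by fun_prop : Continuous fun r : ℝ => √r).mul
          (h.continuous.comp d.cont_at)).intervalIntegrable _ _)
    (fun c g d => by
      rw [← intervalIntegral.integral_const_mul]
      refine integral_congr (fun r _ => ?_)
      simp only [BoundedContinuousFunction.coe_smul, smul_eq_mul]
      ring)

lemma Iop_apply [h0 : Fact (0 < l)] [LocallyCompactSpace (DD l J)] (g : TT l J →ᵇ ℝ)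
    (d : DD l J) : Iop J g d = ∫ r in l..d.lam, √r * g (d.at' r) := rfl

/-! ### general operator with a prefactor and a kernel -/

/-- the operator `g ↦ pre(p) ∫_s^λ k(r,λ,x) g(r,λ,x) dr` with continuous data -/
noncomputable def kerOp [LocallyCompactSpace (TT l J)] (pre k : TT l J → ℝ)
    (hpre : Continuous pre) (hk : Continuous k) (hk0 : ∀ p, 0 ≤ k p) (C : ℝ)
    (hC : ∀ p : TT l J, |pre p| * ∫ r in p.s..p.lam, k (p.at' r) ≤ C) :
    (TT l J →ᵇ ℝ) →L[ℝ] (TT l J →ᵇ ℝ) :=
  mkOp (fun g p => pre p * ∫ r in p.s..p.lam, k (p.at' r) * g (p.at' r))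
    (fun g => by
      refine hpre.mul (TT.continuous_int (φ := fun (p : TT l J) r => k (p.at' r) * g (p.at' r)) ?_)
      exact (hk.comp TT.continuous_at').mul (g.continuous.comp TT.continuous_at'))
    C
    (fun g p => by
      have hb : ∀ r, ‖k (p.at' r) * g (p.at' r)‖ ≤ k (p.at' r) * ‖g‖ := fun r => by
        rw [norm_mul, Real.norm_eq_abs, abs_of_nonneg (hk0 _)]
        exact mul_le_mul_of_nonneg_left (g.norm_coe_le_norm _) (hk0 _)
      have hi : IntervalIntegrable (fun r => k (p.at' r) * ‖g‖) volume p.s p.lam :=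
        ((hk.comp p.cont_at).mul continuous_const).intervalIntegrable _ _
      have h := intervalIntegral.norm_integral_le_of_norm_le p.s_le_lam
        (Eventually.of_forall (fun r _ => hb r)) hi
      rw [intervalIntegral.integral_mul_const] at h
      rw [abs_mul]
      calc |pre p| * |∫ r in p.s..p.lam, k (p.at' r) * g (p.at' r)|
          ≤ |pre p| * ((∫ r in p.s..p.lam, k (p.at' r)) * ‖g‖) :=
            mul_le_mul_of_nonneg_left h (abs_nonneg _)
        _ = (|pre p| * ∫ r in p.s..p.lam, k (p.at' r)) * ‖g‖ := by ring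
        _ ≤ C * ‖g‖ := mul_le_mul_of_nonneg_right (hC p) (norm_nonneg _))
    (fun g h p => by
      rw [← mul_add, ← intervalIntegral.integral_add]
      · congr 1
        refine integral_congr (fun r _ => ?_)
        simp only [BoundedContinuousFunction.coe_add, Pi.add_apply]
        ring
      · exact ((hk.comp p.cont_at).mul (g.continuous.comp p.cont_at)).intervalIntegrable _ _
      · exact ((hk.comp p.cont_at).mul (h.continuous.comp p.cont_at)).intervalIntegrable _ _)
    (fun c g p => by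
      have e : ∫ r in p.s..p.lam, k (p.at' r) * (c • g) (p.at' r)
          = c * ∫ r in p.s..p.lam, k (p.at' r) * g (p.at' r) := by
        rw [← intervalIntegral.integral_const_mul]
        refine integral_congr (fun r _ => ?_)
        simp only [BoundedContinuousFunction.coe_smul, smul_eq_mul]
        ring
      rw [e]
      ring)

lemma TT.rho_pos (p : TT l (Ioo 0 1)) : 0 < p.rho := by
  have := p.x_mem.1
  have := p.s_le_lam
  unfold TT.rho
  linarith

lemma TT.rho_nonneg (p : TT l (Icc 0 1)) : 0 ≤ p.rho := by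
  have := p.x_mem.1
  have := p.s_le_lam
  unfold TT.rho
  linarith

lemma TT.x_le_rho (p : TT l J) : p.x ≤ p.rho := by
  have := p.s_le_lam
  unfold TT.rho
  linarith

lemma TT.rho_le [h0 : Fact (0 < l)] (p : TT l (Icc 0 1)) : p.rho ≤ 2 := by
  have := p.x_mem.2
  have := p.lam_le
  have := p.l_le_s
  have := h0.out
  unfold TT.rho
  linarith

/-- `∫_s^λ (x+λ-r)^{-3/2} dr` -/
lemma int_three (p : TT l (Ioo 0 1)) :
    ∫ r in p.s..p.lam, (√(p.at' r).rho ^ 3)⁻¹ = 2 * ((√p.x)⁻¹ - (√p.rho)⁻¹) := by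
  have hx := p.x_mem.1
  have hd : ∀ r ∈ uIcc p.s p.lam, HasDerivAt (fun r => 2 * (√(p.x + p.lam - r))⁻¹)
      ((√(p.at' r).rho ^ 3)⁻¹) r := by
    intro r hr
    rw [uIcc_of_le p.s_le_lam] at hr
    rw [p.at'_rho (p.l_le_s.trans hr.1) hr.2]
    have h1 : 0 < p.x + p.lam - r := by linarith [hr.2]
    have h2 : 0 < √(p.x + p.lam - r) := Real.sqrt_pos.2 h1
    have d1 : HasDerivAt (fun r : ℝ => p.x + p.lam - r) (-1) r := by
      simpa using (hasDerivAt_id r).const_sub (p.x + p.lam)
    have d2 := ((d1.sqrt h1.ne').inv h2.ne').const_mul 2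
    refine d2.congr_deriv ?_
    have h3 : √(p.x + p.lam - r) ^ 2 = p.x + p.lam - r := Real.sq_sqrt h1.le
    field_simp
  rw [intervalIntegral.integral_eq_sub_of_hasDerivAt hd]
  · unfold TT.rho
    rw [show p.x + p.lam - p.lam = p.x by ring]
    ring
  · refine Continuous.intervalIntegrable ?_ _ _
    refine Continuous.inv₀ (((TT.continuous_rho.comp p.cont_at).sqrt).pow 3) (fun r => ?_)
    exact (pow_pos (Real.sqrt_pos.2 (p.at' r).rho_pos) 3).ne'

/-- `∫_s^λ (x+λ-r)^{-5/2} dr` -/
lemma int_five (p : TT l (Ioo 0 1)) :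
    ∫ r in p.s..p.lam, (√(p.at' r).rho ^ 5)⁻¹ = 2 / 3 * ((√p.x ^ 3)⁻¹ - (√p.rho ^ 3)⁻¹) := by
  have hx := p.x_mem.1
  have hd : ∀ r ∈ uIcc p.s p.lam, HasDerivAt (fun r => 2 / 3 * (√(p.x + p.lam - r) ^ 3)⁻¹)
      ((√(p.at' r).rho ^ 5)⁻¹) r := by
    intro r hr
    rw [uIcc_of_le p.s_le_lam] at hr
    rw [p.at'_rho (p.l_le_s.trans hr.1) hr.2]
    have h1 : 0 < p.x + p.lam - r := by linarith [hr.2]
    have h2 : 0 < √(p.x + p.lam - r) := Real.sqrt_pos.2 h1
    have d1 : HasDerivAt (fun r : ℝ => p.x + p.lam - r) (-1) r := by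
      simpa using (hasDerivAt_id r).const_sub (p.x + p.lam)
    have d2 := (((d1.sqrt h1.ne').pow 3).inv (pow_pos h2 3).ne').const_mul (2 / 3)
    refine d2.congr_deriv ?_
    simp only [Pi.pow_apply]
    have h3 : √(p.x + p.lam - r) ^ 2 = p.x + p.lam - r := Real.sq_sqrt h1.le
    field_simp
    norm_num
  rw [intervalIntegral.integral_eq_sub_of_hasDerivAt hd]
  · unfold TT.rho
    rw [show p.x + p.lam - p.lam = p.x by ring]
    ring
  · refine Continuous.intervalIntegrable ?_ _ _
    refine Continuous.inv₀ (((TT.continuous_rho.comp p.cont_at).sqrt).pow 5) (fun r => ?_)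
    exact (pow_pos (Real.sqrt_pos.2 (p.at' r).rho_pos) 5).ne'

/-- `M3op g (s,λ,x) = √x ∫_s^λ (x+λ-r)^{-3/2} g(r,λ,x) dr` -/
noncomputable def M3op : AO l →L[ℝ] AO l :=
  kerOp (fun p => √p.x) (fun p => (√p.rho ^ 3)⁻¹) (by fun_prop)
    (Continuous.inv₀ (by fun_prop) (fun p => (pow_pos (Real.sqrt_pos.2 p.rho_pos) 3).ne'))
    (fun p => by positivity) 2 (fun p => by
      rw [int_three, abs_of_nonneg (Real.sqrt_nonneg _)]
      have h1 : 0 < √p.x := Real.sqrt_pos.2 p.x_mem.1
      have h2 : 0 < √p.rho := Real.sqrt_pos.2 p.rho_pos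
      have h3 : √p.x * (2 * ((√p.x)⁻¹ - (√p.rho)⁻¹)) = 2 - 2 * √p.x * (√p.rho)⁻¹ := by
        field_simp
      rw [h3]
      have : 0 ≤ 2 * √p.x * (√p.rho)⁻¹ := by positivity
      linarith)

lemma M3op_apply (g : AO l) (p : TT l (Ioo 0 1)) :
    M3op g p = √p.x * ∫ r in p.s..p.lam, (√(p.at' r).rho ^ 3)⁻¹ * g (p.at' r) := rfl

/-- `M5op g (s,λ,x) = x√x ∫_s^λ (x+λ-r)^{-5/2} g(r,λ,x) dr` -/
noncomputable def M5op : AO l →L[ℝ] AO l :=
  kerOp (fun p => √p.x ^ 3) (fun p => (√p.rho ^ 5)⁻¹) (by fun_prop)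
    (Continuous.inv₀ (by fun_prop) (fun p => (pow_pos (Real.sqrt_pos.2 p.rho_pos) 5).ne'))
    (fun p => by positivity) 1 (fun p => by
      have h1 : 0 < √p.x := Real.sqrt_pos.2 p.x_mem.1
      rw [int_five, abs_of_nonneg (by positivity)]
      have h2 : 0 < √p.rho := Real.sqrt_pos.2 p.rho_pos
      have h3 : √p.x ^ 3 * (2 / 3 * ((√p.x ^ 3)⁻¹ - (√p.rho ^ 3)⁻¹))
          = 2 / 3 - 2 / 3 * √p.x ^ 3 * (√p.rho ^ 3)⁻¹ := by
        field_simp
      rw [h3]
      have : 0 ≤ 2 / 3 * √p.x ^ 3 * (√p.rho ^ 3)⁻¹ := by positivity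
      linarith)

lemma M5op_apply (g : AO l) (p : TT l (Ioo 0 1)) :
    M5op g p = √p.x ^ 3 * ∫ r in p.s..p.lam, (√(p.at' r).rho ^ 5)⁻¹ * g (p.at' r) := rfl

/-! ### the operator `Mop g (s,λ,x) = ∫_s^λ (x+λ-r)^{-1/2} g(r,λ,x) dr` -/

/-- `r = x + λ - u²` -/
noncomputable def TT.atu (p : TT l J) (u : ℝ) : TT l J := p.at' (p.x + p.lam - u ^ 2)

lemma TT.continuous_atu : Continuous (fun z : TT l J × ℝ => z.1.atu z.2) :=
  TT.continuous_at'.comp (f := fun z : TT l J × ℝ => (z.1, z.1.x + z.1.lam - z.2 ^ 2))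
    (by fun_prop)

lemma TT.cont_atu (p : TT l J) : Continuous p.atu :=
  TT.continuous_atu.comp (f := fun r : ℝ => (p, r)) (by fun_prop)

lemma TT.continuous_intu [LocallyCompactSpace (TT l J)] {φ : TT l J → ℝ → ℝ}
    (hφ : Continuous (Function.uncurry φ)) :
    Continuous (fun p : TT l J => ∫ u in √p.x..√p.rho, φ p u) := by
  have h1 : Continuous (fun p : TT l J => ∫ r in (0:ℝ)..√p.rho, φ p r) :=
    intervalIntegral.continuous_parametric_intervalIntegral_of_continuous hφ (by fun_prop)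
  have h2 : Continuous (fun p : TT l J => ∫ r in (0:ℝ)..√p.x, φ p r) :=
    intervalIntegral.continuous_parametric_intervalIntegral_of_continuous hφ (by fun_prop)
  have e : (fun p : TT l J => ∫ r in √p.x..√p.rho, φ p r)
      = fun p => (∫ r in (0:ℝ)..√p.rho, φ p r) - ∫ r in (0:ℝ)..√p.x, φ p r := by
    funext p
    have hc : Continuous (φ p) := hφ.comp (f := fun r : ℝ => (p, r)) (by fun_prop)
    exact (intervalIntegral.integral_interval_sub_left (hc.intervalIntegrable _ _)
      (hc.intervalIntegrable _ _)).symm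
  rw [e]
  exact h1.sub h2

lemma TT.sqrt_x_le_sqrt_rho (p : TT l J) : √p.x ≤ √p.rho := Real.sqrt_le_sqrt p.x_le_rho

lemma TT.sqrt_rho_le [h0 : Fact (0 < l)] (p : TT l (Icc 0 1)) : √p.rho ≤ 2 :=
  Real.sqrt_le_iff.2 ⟨by norm_num, by have := p.rho_le; linarith⟩

/-- the operator `𝓜` in the variable `u = √(x+λ-r)` -/
noncomputable def Mop [h0 : Fact (0 < l)] : AC l →L[ℝ] AC l :=
  mkOp (fun g p => 2 * ∫ u in √p.x..√p.rho, g (p.atu u))
    (fun g => continuous_const.mul (TT.continuous_intu (φ := fun p u => g (p.atu u))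
      (g.continuous.comp TT.continuous_atu)))
    4
    (fun g p => by
      have h := intervalIntegral.norm_integral_le_of_norm_le_const (a := √p.x) (b := √p.rho)
        (f := fun u => g (p.atu u)) (C := ‖g‖) (fun u _ => g.norm_coe_le_norm _)
      rw [Real.norm_eq_abs, abs_of_nonneg (sub_nonneg.2 p.sqrt_x_le_sqrt_rho)] at h
      rw [abs_mul, abs_two]
      have h1 := p.sqrt_rho_le
      have h2 := Real.sqrt_nonneg p.x
      have h3 := norm_nonneg g
      nlinarith)
    (fun g h p => by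
      rw [← mul_add, ← intervalIntegral.integral_add]
      · rfl
      · exact (g.continuous.comp p.cont_atu).intervalIntegrable _ _
      · exact (h.continuous.comp p.cont_atu).intervalIntegrable _ _)
    (fun c g p => by
      have e : ∫ u in √p.x..√p.rho, (c • g) (p.atu u) = c * ∫ u in √p.x..√p.rho, g (p.atu u) := by
        rw [← intervalIntegral.integral_const_mul]
        rfl
      rw [e]
      ring)

lemma Mop_apply_u [h0 : Fact (0 < l)] (g : AC l) (p : TT l (Icc 0 1)) :
    Mop g p = 2 * ∫ u in √p.x..√p.rho, g (p.atu u) := rfl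

/-- change of variables `r = x + λ - u²` -/
lemma int_cov (p : TT l (Icc 0 1)) {k K : ℝ → ℝ} (G : ℝ → ℝ) (hG : Continuous G)
    (hk : ContinuousOn k (Ioi 0)) (hi : IntervalIntegrable (fun r => k (p.x + p.lam - r))
      volume p.s p.lam) (hK : Continuous K) (hkK : ∀ u > 0, k (u ^ 2) * u = K u) :
    ∫ r in p.s..p.lam, k (p.x + p.lam - r) * G r
      = 2 * ∫ u in √p.x..√p.rho, K u * G (p.x + p.lam - u ^ 2) := by
  have hx := p.x_mem.1
  have e1 : p.x + p.lam - √p.x ^ 2 = p.lam := by rw [Real.sq_sqrt hx]; ring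
  have e2 : p.x + p.lam - √p.rho ^ 2 = p.s := by
    rw [Real.sq_sqrt p.rho_nonneg]; unfold TT.rho; ring
  have hle := p.sqrt_x_le_sqrt_rho
  have h0 := Real.sqrt_nonneg p.x
  have himg : (fun u : ℝ => p.x + p.lam - u ^ 2) '' uIcc (√p.x) (√p.rho) ⊆ Icc p.s p.lam := by
    rintro _ ⟨u, hu1, rfl⟩
    rw [uIcc_of_le hle] at hu1
    have h1 : √p.x ^ 2 ≤ u ^ 2 := pow_le_pow_left₀ h0 hu1.1 2
    have h2 : u ^ 2 ≤ √p.rho ^ 2 := pow_le_pow_left₀ (h0.trans hu1.1) hu1.2 2
    simp only
    constructor <;> linarith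
  have ecomp : ∀ u > 0, (((fun r => k (p.x + p.lam - r) * G r) ∘
        fun u : ℝ => p.x + p.lam - u ^ 2) u) * (-(2 * u))
        = -(2 * (K u * G (p.x + p.lam - u ^ 2))) := by
    intro u hu
    simp only [Function.comp]
    rw [show p.x + p.lam - (p.x + p.lam - u ^ 2) = u ^ 2 by ring, ← hkK u hu]
    ring
  have hae : ∀ᵐ u ∂volume, u ∈ uIoc (√p.x) (√p.rho) →
      (((fun r => k (p.x + p.lam - r) * G r) ∘ fun u : ℝ => p.x + p.lam - u ^ 2) u) * (-(2 * u))
        = -(2 * (K u * G (p.x + p.lam - u ^ 2))) := by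
    refine Eventually.of_forall (fun u hu => ecomp u ?_)
    rw [uIoc_of_le hle] at hu
    exact lt_of_le_of_lt h0 hu.1
  have key := intervalIntegral.integral_comp_mul_deriv''' (a := √p.x) (b := √p.rho)
    (f := fun u => p.x + p.lam - u ^ 2) (f' := fun u => -(2 * u))
    (g := fun r => k (p.x + p.lam - r) * G r) (by fun_prop) ?_ ?_ ?_ ?_
  · rw [e1, e2] at key
    rw [intervalIntegral.integral_symm, ← key, intervalIntegral.integral_congr_ae hae,
      intervalIntegral.integral_neg, neg_neg, intervalIntegral.integral_const_mul]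
  · intro u _
    have := ((hasDerivAt_pow 2 u).const_sub (p.x + p.lam)).hasDerivWithinAt (s := Ioi u)
    simpa using this
  · refine ContinuousOn.mul ?_ hG.continuousOn
    refine hk.comp (by fun_prop) ?_
    rintro _ ⟨u, hu1, rfl⟩
    rw [min_eq_left hle, max_eq_right hle] at hu1
    have : 0 < u := lt_of_le_of_lt h0 hu1.1
    simp only [mem_Ioi]
    have : 0 < u ^ 2 := by positivity
    linarith
  · refine IntegrableOn.mono_set ?_ himg
    rw [intervalIntegrable_iff_integrableOn_Icc_of_le p.s_le_lam] at hi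
    exact hi.mul_continuousOn hG.continuousOn isCompact_Icc
  · have hc : Continuous (fun u => -(2 * (K u * G (p.x + p.lam - u ^ 2)))) := by fun_prop
    have h2 : IntervalIntegrable (fun u => -(2 * (K u * G (p.x + p.lam - u ^ 2)))) volume
      (√p.x) (√p.rho) := hc.intervalIntegrable _ _
    have h3 : IntervalIntegrable (fun u => (((fun r => k (p.x + p.lam - r) * G r) ∘
        fun u : ℝ => p.x + p.lam - u ^ 2) u) * (-(2 * u))) volume (√p.x) (√p.rho) := by
      refine h2.congr_ae ?_
      rw [EventuallyEq, ae_restrict_iff' measurableSet_uIoc]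
      filter_upwards [hae] with u hu hu2
      exact (hu hu2).symm
    rw [uIcc_of_le hle]
    exact (intervalIntegrable_iff_integrableOn_Icc_of_le hle).1 h3

lemma intervalIntegrable_inv_sqrt_sub (p : TT l (Icc 0 1)) :
    IntervalIntegrable (fun r => (√(p.x + p.lam - r))⁻¹) volume p.s p.lam := by
  have h : IntervalIntegrable (fun y : ℝ => y ^ (-(1/2) : ℝ)) volume (p.x + p.lam - p.s)
      (p.x + p.lam - p.lam) := intervalIntegral.intervalIntegrable_rpow' (by norm_num)
  have h2 := h.comp_sub_left (p.x + p.lam)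
  simp only [sub_sub_cancel] at h2
  refine h2.congr ?_
  intro r hr
  rw [uIoc_of_le p.s_le_lam] at hr
  have h3 : 0 ≤ p.x + p.lam - r := by linarith [p.x_mem.1, hr.2]
  simp only
  rw [Real.rpow_neg h3, Real.sqrt_eq_rpow]

/-- `Mop` in the original variable -/
lemma Mop_apply [h0 : Fact (0 < l)] (g : AC l) (p : TT l (Icc 0 1)) :
    Mop g p = ∫ r in p.s..p.lam, (√(p.x + p.lam - r))⁻¹ * g (p.at' r) := by
  have h := int_cov p (k := fun y => (√y)⁻¹) (K := fun _ => 1) (G := fun r => g (p.at' r))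
    (g.continuous.comp p.cont_at) (ContinuousOn.inv₀ (by fun_prop)
      (fun y hy => (Real.sqrt_pos.2 hy).ne')) (intervalIntegrable_inv_sqrt_sub p)
      continuous_const (fun u hu => by
        rw [Real.sqrt_sq hu.le]
        field_simp)
  rw [h, Mop_apply_u]
  simp only [one_mul]
  rfl

/-! ### the operator `Lop g (s,λ,x) = (x+λ-s)⁻¹ ∫_s^λ √(x+λ-r) g(r,λ,x) dr` -/

/-- the function underlying `Lop` -/
noncomputable def Lfun (g : AC l) (p : TT l (Icc 0 1)) : ℝ :=
  p.rho⁻¹ * ∫ r in p.s..p.lam, √(p.at' r).rho * g (p.at' r)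

lemma abs_Lfun_le (g : AC l) (p : TT l (Icc 0 1)) : |Lfun g p| ≤ √p.rho * ‖g‖ := by
  have hρ := p.rho_nonneg
  have h := intervalIntegral.norm_integral_le_of_norm_le_const (a := p.s) (b := p.lam)
    (f := fun r => √(p.at' r).rho * g (p.at' r)) (C := √p.rho * ‖g‖) (fun r hr => by
      rw [uIoc_of_le p.s_le_lam] at hr
      rw [norm_mul, Real.norm_eq_abs, abs_of_nonneg (Real.sqrt_nonneg _)]
      refine mul_le_mul (Real.sqrt_le_sqrt ?_) (g.norm_coe_le_norm _) (norm_nonneg _)
        (Real.sqrt_nonneg _)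
      rw [p.at'_rho (p.l_le_s.trans hr.1.le) hr.2]
      unfold TT.rho
      linarith [hr.1])
  rw [Real.norm_eq_abs, abs_of_nonneg (sub_nonneg.2 p.s_le_lam)] at h
  unfold Lfun
  rw [abs_mul, abs_of_nonneg (inv_nonneg.2 hρ)]
  rcases hρ.eq_or_lt with h0 | h0
  · rw [← h0]; simp
  · have h1 : p.lam - p.s ≤ p.rho := by
      unfold TT.rho
      linarith [p.x_mem.1]
    have h2 : 0 ≤ √p.rho * ‖g‖ := by positivity
    calc p.rho⁻¹ * |∫ r in p.s..p.lam, √(p.at' r).rho * g (p.at' r)|
        ≤ p.rho⁻¹ * (√p.rho * ‖g‖ * (p.lam - p.s)) :=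
          mul_le_mul_of_nonneg_left h (inv_nonneg.2 hρ)
      _ ≤ p.rho⁻¹ * (√p.rho * ‖g‖ * p.rho) :=
          mul_le_mul_of_nonneg_left (mul_le_mul_of_nonneg_left h1 h2) (inv_nonneg.2 hρ)
      _ = √p.rho * ‖g‖ := by field_simp

lemma continuous_Lfun (g : AC l) : Continuous (Lfun g) := by
  rw [continuous_iff_continuousAt]
  intro p
  rcases p.rho_nonneg.eq_or_lt with h0 | h0
  · have h1 : Lfun g p = 0 := by
      unfold Lfun
      rw [← h0]; simp
    unfold ContinuousAt
    rw [h1]
    refine squeeze_zero_norm (a := fun p => √p.rho * ‖g‖) (fun p => abs_Lfun_le g p) ?_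
    have h2 : Continuous (fun p : TT l (Icc 0 1) => √p.rho * ‖g‖) := by fun_prop
    have h3 := h2.tendsto p
    rw [← h0] at h3
    simpa using h3
  · refine ContinuousAt.mul (TT.continuous_rho.continuousAt.inv₀ h0.ne')
      (Continuous.continuousAt ?_)
    refine TT.continuous_int (φ := fun (p : TT l (Icc 0 1)) r => √(p.at' r).rho * g (p.at' r)) ?_
    exact ((TT.continuous_rho.comp TT.continuous_at').sqrt).mul
      (g.continuous.comp TT.continuous_at')

/-- the operator `𝓛` -/
noncomputable def Lop [h0 : Fact (0 < l)] : AC l →L[ℝ] AC l :=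
  mkOp Lfun continuous_Lfun 2
    (fun g p => (abs_Lfun_le g p).trans
      (mul_le_mul_of_nonneg_right p.sqrt_rho_le (norm_nonneg _)))
    (fun g h p => by
      unfold Lfun
      rw [← mul_add, ← intervalIntegral.integral_add]
      · congr 1
        refine integral_congr (fun r _ => ?_)
        simp only [BoundedContinuousFunction.coe_add, Pi.add_apply]
        ring
      · exact (((TT.continuous_rho.comp p.cont_at).sqrt).mul
          (g.continuous.comp p.cont_at)).intervalIntegrable _ _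
      · exact (((TT.continuous_rho.comp p.cont_at).sqrt).mul
          (h.continuous.comp p.cont_at)).intervalIntegrable _ _)
    (fun c g p => by
      unfold Lfun
      have e : ∫ r in p.s..p.lam, √(p.at' r).rho * (c • g) (p.at' r)
          = c * ∫ r in p.s..p.lam, √(p.at' r).rho * g (p.at' r) := by
        rw [← intervalIntegral.integral_const_mul]
        refine integral_congr (fun r _ => ?_)
        simp only [BoundedContinuousFunction.coe_smul, smul_eq_mul]
        ring
      rw [e]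
      ring)

/-- the defining formula of `Lop` -/
lemma Lop_apply [h0 : Fact (0 < l)] (g : AC l) (p : TT l (Icc 0 1)) :
    Lop g p = p.rho⁻¹ * ∫ r in p.s..p.lam, √(p.x + p.lam - r) * g (p.at' r) := by
  change Lfun g p = _
  unfold Lfun
  congr 1
  refine integral_congr (fun r hr => ?_)
  rw [uIcc_of_le p.s_le_lam] at hr
  rw [p.at'_rho (p.l_le_s.trans hr.1) hr.2]

lemma norm_Lop_apply_le [h0 : Fact (0 < l)] (g : AC l) : ‖Lop g‖ ≤ 2 * ‖g‖ := by
  rw [BoundedContinuousFunction.norm_le (by positivity)]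
  intro p
  exact (abs_Lfun_le g p).trans (mul_le_mul_of_nonneg_right p.sqrt_rho_le (norm_nonneg _))

lemma M3op_apply' (g : AO l) (p : TT l (Ioo 0 1)) :
    M3op g p = √p.x * ∫ r in p.s..p.lam, (√(p.x + p.lam - r) ^ 3)⁻¹ * g (p.at' r) := by
  rw [M3op_apply]
  congr 1
  refine integral_congr (fun r hr => ?_)
  rw [uIcc_of_le p.s_le_lam] at hr
  rw [p.at'_rho (p.l_le_s.trans hr.1) hr.2]

lemma M5op_apply' (g : AO l) (p : TT l (Ioo 0 1)) :
    M5op g p = √p.x ^ 3 * ∫ r in p.s..p.lam, (√(p.x + p.lam - r) ^ 5)⁻¹ * g (p.at' r) := by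
  rw [M5op_apply]
  congr 1
  refine integral_congr (fun r hr => ?_)
  rw [uIcc_of_le p.s_le_lam] at hr
  rw [p.at'_rho (p.l_le_s.trans hr.1) hr.2]

/-! ### coordinate functions -/

/-- a continuous function of the coordinates bounded on `TT l J` -/
noncomputable def mkT (f : TT l J → ℝ) (hf : Continuous f) (C : ℝ) (hC : ∀ p, |f p| ≤ C) :
    TT l J →ᵇ ℝ := BoundedContinuousFunction.ofNormedAddCommGroup f hf C hC

@[simp] lemma mkT_apply (f : TT l J → ℝ) (hf : Continuous f) (C : ℝ) (hC : ∀ p, |f p| ≤ C)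
    (p : TT l J) : mkT f hf C hC p = f p := rfl

/-- `s` -/
noncomputable def sC [h0 : Fact (0 < l)] : AC l := mkT TT.s TT.continuous_s 1 (fun p => by
  have := p.l_le_s; have := h0.out; have := p.s_le_lam; have := p.lam_le
  rw [abs_of_nonneg (by linarith)]; linarith)
/-- `x + λ - s` -/
noncomputable def rhoC [h0 : Fact (0 < l)] : AC l := mkT TT.rho TT.continuous_rho 2 (fun p => by
  rw [abs_of_nonneg p.rho_nonneg]; exact p.rho_le)
/-- `a = x + λ` -/
noncomputable def aC [h0 : Fact (0 < l)] : AC l :=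
  mkT (fun p => p.x + p.lam) (by fun_prop) 2 (fun p => by
    have := p.l_le_s; have := h0.out; have := p.s_le_lam; have := p.lam_le
    have := p.x_mem.1; have := p.x_mem.2
    rw [abs_of_nonneg (by linarith)]; linarith)
/-- `√x` on the open domain -/
noncomputable def rxO : AO l :=
  mkT (fun p => √p.x) (by fun_prop) 1 (fun p => by
    rw [abs_of_nonneg (Real.sqrt_nonneg _)]
    exact Real.sqrt_le_iff.2 ⟨zero_le_one, by linarith [p.x_mem.2]⟩)

@[simp] lemma sC_apply [h0 : Fact (0 < l)] (p : TT l (Icc 0 1)) : (sC : AC l) p = p.s := rfl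
@[simp] lemma rhoC_apply [h0 : Fact (0 < l)] (p : TT l (Icc 0 1)) : (rhoC : AC l) p = p.rho := rfl
@[simp] lemma aC_apply [h0 : Fact (0 < l)] (p : TT l (Icc 0 1)) :
    (aC : AC l) p = p.x + p.lam := rfl
@[simp] lemma rxO_apply (p : TT l (Ioo 0 1)) : (rxO : AO l) p = √p.x := rfl

end Pool.Agent.Unicorn
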