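import Mathlib

/-!
# Unicorn, module B1a: the implicit function theorem for the energy equation in a Banach algebra

`exists_W`: for a commutative Banach algebra `R`, bounded operators `L : R → R`, `j : X → R`, the
equation `w² = 1 - 2 L(j(q) w)` has near `q = 0` a solution `w = W(q)`, analytic in `q`, near `1`.
-/

set_option autoImplicit false

open Set Topology Filter
open scoped ContDiff

namespace Pool.Agent.Unicorn.B1

theorem exists_W {X R : Type*} [NormedAddCommGroup X] [NormedSpace ℝ X] [CompleteSpace X]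
    [NormedCommRing R] [NormedAlgebra ℝ R] [CompleteSpace R] (L : R →L[ℝ] R) (j : X →L[ℝ] R) :
    ∃ r0 > 0, ∃ W : X → R, W 0 = 1 ∧ ∀ q, ‖q‖ < r0 →
      W q ^ 2 = 1 - (2 : ℝ) • L (j q * W q) ∧ ‖W q - 1‖ ≤ 1 / 2 ∧ AnalyticAt ℝ W q := by
  let F : X × R → R := fun p => p.2 ^ 2 - 1 + (2 : ℝ) • L (j p.1 * p.2)
  have hF : ContDiff ℝ ω F := by
    have h1 : ContDiff ℝ ω (fun p : X × R => j p.1 * p.2) :=
      (j.contDiff.comp contDiff_fst).mul contDiff_snd
    have h2 : ContDiff ℝ ω (fun p : X × R => (2 : ℝ) • L (j p.1 * p.2)) :=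
      contDiff_const.fun_smul (L.contDiff.fun_comp h1)
    exact ((contDiff_snd.pow 2).sub contDiff_const).add h2
  set u : X × R := (0, 1) with hu
  have cdf : ContDiffAt ℝ ω F u := hF.contDiffAt
  have pn : (ω : WithTop ℕ∞) ≠ 0 := by simp
  have hFu : F u = 0 := by simp [F, hu]
  have hder : fderiv ℝ F u ∘L ContinuousLinearMap.inr ℝ X R
      = (2 : ℝ) • ContinuousLinearMap.id ℝ R := by
    have hd : HasFDerivAt F (fderiv ℝ F u) u := (cdf.differentiableAt (by simp)).hasFDerivAt
    have hinr : HasFDerivAt (fun w : R => ((0 : X), w)) (ContinuousLinearMap.inr ℝ X R) 1 :=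
      hasFDerivAt_prodMk_right (𝕜 := ℝ) (0 : X) (1 : R)
    have hcomp := HasFDerivAt.comp (1 : R) (g := F) hd hinr
    have hdir : HasFDerivAt (fun w : R => F (0, w)) ((2 : ℝ) • ContinuousLinearMap.id ℝ R) 1 := by
      have e : (fun w : R => F (0, w)) = fun w => w ^ 2 - 1 := by
        funext w; simp [F]
      rw [e]
      have h1 := ((hasFDerivAt_id (𝕜 := ℝ) (1 : R)).mul (hasFDerivAt_id (1 : R))).sub_const (1 : R)
      have e2 : (fun w : R => w ^ 2 - 1) = fun w => (id * id : R → R) w - 1 := by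
        funext w; simp [sq]
      rw [e2]
      refine h1.congr_fderiv ?_
      ext x
      simp [two_smul]
    exact hcomp.unique hdir
  have if₂ : (fderiv ℝ F u ∘L ContinuousLinearMap.inr ℝ X R).IsInvertible := by
    rw [hder]
    let e : R ≃L[ℝ] R := ContinuousLinearEquiv.smulLeft (Units.mk0 (2 : ℝ) two_ne_zero)
    refine ⟨e, ?_⟩
    ext x
    simp [e]
  set S := cdf.implicitFunction pn if₂ with hS
  have a1 : S 0 = 1 := cdf.implicitFunction_apply_self pn if₂
  have a2 : ∀ᶠ x in 𝓝 (0 : X), F (x, S x) = 0 := by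
    have := cdf.eventually_apply_implicitFunction pn if₂
    rw [hFu] at this
    exact this
  have a4 : ContDiffAt ℝ ω S 0 := cdf.contDiffAt_implicitFunction pn if₂
  have a5 : ∀ᶠ x in 𝓝 (0 : X), ContDiffAt ℝ ω S x := a4.eventually (by simp)
  have a6 : ∀ᶠ x in 𝓝 (0 : X), ‖S x - 1‖ < 1 / 2 := by
    have hc : ContinuousAt (fun x => ‖S x - 1‖) 0 := (a4.continuousAt.sub continuousAt_const).norm
    refine hc.eventually_lt continuousAt_const ?_
    rw [a1]; simp
  obtain ⟨r0, hr0, hall⟩ := Metric.eventually_nhds_iff.1 (a2.and (a5.and a6))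
  refine ⟨r0, hr0, S, a1, ?_⟩
  intro q hq
  obtain ⟨b1, b2, b3⟩ := hall (y := q) (by simpa using hq)
  refine ⟨?_, b3.le, ?_⟩
  · have : S q ^ 2 - 1 + (2 : ℝ) • L (j q * S q) = 0 := b1
    linear_combination this
  · exact b2.analyticAt

end Pool.Agent.Unicorn.B1
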