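import Mathlib

/-!
# Unicorn, module B1b: the Banach algebra of bounded continuous functions

Units, inverses and exponentials are computed pointwise; `Ring.inverse` is analytic at units.
-/

set_option autoImplicit false

open Set Topology Filter BoundedContinuousFunction
open scoped ContDiff

namespace Pool.Agent.Unicorn.B1

variable {α : Type*} [TopologicalSpace α]

/-- evaluation at a point, as a continuous ring homomorphism -/
def evalHom (p : α) : (α →ᵇ ℝ) →+* ℝ where
  toFun f := f p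
  map_one' := rfl
  map_mul' _ _ := rfl
  map_zero' := rfl
  map_add' _ _ := rfl

lemma evalHom_apply (p : α) (f : α →ᵇ ℝ) : evalHom p f = f p := rfl

lemma continuous_evalHom (p : α) : Continuous (evalHom p) :=
  (BoundedContinuousFunction.evalCLM ℝ p).continuous

lemma inverse_apply {f : α →ᵇ ℝ} (hf : IsUnit f) (p : α) : (Ring.inverse f) p = (f p)⁻¹ := by
  have h1 : Ring.inverse f * f = 1 := Ring.inverse_mul_cancel f hf
  have h2 := congrArg (evalHom p) h1
  rw [map_mul, map_one] at h2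
  exact eq_inv_of_mul_eq_one_left h2

lemma exp_apply (f : α →ᵇ ℝ) (p : α) : (NormedSpace.exp f) p = Real.exp (f p) := by
  have h := NormedSpace.map_exp (evalHom p) (continuous_evalHom p) f
  rw [evalHom_apply, evalHom_apply] at h
  rw [h, Real.exp_eq_exp_ℝ]

lemma isUnit_of_le {f : α →ᵇ ℝ} {c : ℝ} (hc : 0 < c) (h : ∀ p, c ≤ f p) : IsUnit f := by
  let g : α →ᵇ ℝ := BoundedContinuousFunction.ofNormedAddCommGroup (fun p => (f p)⁻¹)
    (f.continuous.inv₀ (fun p => (hc.trans_le (h p)).ne')) c⁻¹ (by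
      intro p
      have h1 := hc.trans_le (h p)
      rw [norm_inv, Real.norm_eq_abs, abs_of_pos h1]
      exact inv_anti₀ hc (h p))
  have h1 : f * g = 1 := by
    ext p
    show f p * (f p)⁻¹ = 1
    exact mul_inv_cancel₀ (hc.trans_le (h p)).ne'
  exact IsUnit.of_mul_eq_one g h1

lemma isUnit_of_norm_sub_one {f : α →ᵇ ℝ} (h : ‖f - 1‖ ≤ 1 / 2) : IsUnit f := by
  refine isUnit_of_le (c := 1 / 2) (by norm_num) fun p => ?_
  have h1 := ((f - 1).norm_coe_le_norm p).trans h
  rw [show (f - 1) p = f p - 1 from rfl, Real.norm_eq_abs, abs_le] at h1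
  linarith [h1.1]

lemma half_le_of_norm_sub_one {f : α →ᵇ ℝ} (h : ‖f - 1‖ ≤ 1 / 2) (p : α) : 1 / 2 ≤ f p := by
  have h1 := ((f - 1).norm_coe_le_norm p).trans h
  rw [show (f - 1) p = f p - 1 from rfl, Real.norm_eq_abs, abs_le] at h1
  linarith [h1.1]

lemma le_of_norm_sub_one {f : α →ᵇ ℝ} (h : ‖f - 1‖ ≤ 1 / 2) (p : α) : f p ≤ 3 / 2 := by
  have h1 := ((f - 1).norm_coe_le_norm p).trans h
  rw [show (f - 1) p = f p - 1 from rfl, Real.norm_eq_abs, abs_le] at h1
  linarith [h1.2]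

lemma analyticAt_inverse_comp {X : Type*} [NormedAddCommGroup X] [NormedSpace ℝ X]
    {f : X → (α →ᵇ ℝ)} {x : X} (hf : AnalyticAt ℝ f x) (hu : IsUnit (f x)) :
    AnalyticAt ℝ (fun y => Ring.inverse (f y)) x := by
  obtain ⟨u, hu⟩ := hu
  have h1 : AnalyticAt ℝ Ring.inverse (f x) := by
    rw [← hu]; exact analyticAt_inverse u
  exact h1.comp hf

lemma analyticAt_exp_comp {X : Type*} [NormedAddCommGroup X] [NormedSpace ℝ X]
    {f : X → (α →ᵇ ℝ)} {x : X} (hf : AnalyticAt ℝ f x) :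
    AnalyticAt ℝ (fun y => NormedSpace.exp (f y)) x := by
  have h1 : AnalyticAt ℝ (NormedSpace.exp : (α →ᵇ ℝ) → (α →ᵇ ℝ)) (f x) :=
    NormedSpace.exp_analytic (𝕂 := ℝ) (f x)
  exact h1.comp hf

end Pool.Agent.Unicorn.B1
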