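import Pool.Agent.Unicorn.B0h
import Pool.Agent.Unicorn.B1a
import Pool.Agent.Unicorn.B1b

/-!
# Unicorn, Part B: definition of `W`, `Ξ`, `𝒯`
-/

set_option autoImplicit false

open Set MeasureTheory intervalIntegral Filter Topology
open scoped ContDiff BoundedContinuousFunction

namespace Pool.Agent.Unicorn

variable {l : ℝ}

section formulas

variable [h0 : Fact (0 < l)]

/-- `e = s + (x+λ-s) w²` -/
noncomputable def eC (w : AC l) : AC l := sC + rhoC * w ^ 2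
/-- `1/e` -/
noncomputable def ieC (w : AC l) : AC l := Ring.inverse (eC w)
/-- `1/w` -/
noncomputable def uC (w : AC l) : AC l := Ring.inverse w
/-- `p = ∂_a e = exp(-∫_s^λ q (e-r)^{-1/2} dr)` -/
noncomputable def pC (q : XX l) (w : AC l) : AC l := NormedSpace.exp (-(Mop (qT _ q * uC w)))
/-- `√x ∫_s^λ q p (e-r)^{-3/2} dr` -/
noncomputable def Q3 (q : XX l) (w : AC l) : AO l := M3op (res (qT _ q * pC q w * uC w ^ 3))
/-- `√x ∂_a p` -/
noncomputable def P1 (q : XX l) (w : AC l) : AO l := (1 / 2 : ℝ) • (res (pC q w) * Q3 q w)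
/-- `x√x ∂_a ∫_s^λ q p (e-r)^{-3/2} dr` -/
noncomputable def dQ3 (q : XX l) (w : AC l) : AO l :=
  rxO * M3op (qT _ q * P1 q w * res (uC w ^ 3))
    - (3 / 2 : ℝ) • M5op (res (qT _ q * pC q w ^ 2 * uC w ^ 5))
/-- `x√x ∂_a² p` -/
noncomputable def P2 (q : XX l) (w : AC l) : AO l :=
  (1 / 2 : ℝ) • (rxO * P1 q w * Q3 q w + res (pC q w) * dQ3 q w)
/-- `a² p / e²` -/
noncomputable def K0 (q : XX l) (w : AC l) : AC l := aC ^ 2 * pC q w * ieC w ^ 2
/-- `√x ∂_x K0` -/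
noncomputable def K1 (q : XX l) (w : AC l) : AO l :=
  rxO * res ((2 : ℝ) • (aC * pC q w * ieC w ^ 2) - (2 : ℝ) • (aC ^ 2 * pC q w ^ 2 * ieC w ^ 3))
    + res (aC ^ 2 * ieC w ^ 2) * P1 q w
/-- `x√x ∂_x² K0` -/
noncomputable def K2 (q : XX l) (w : AC l) : AO l :=
  rxO ^ 3 * res ((2 : ℝ) • (pC q w * ieC w ^ 2) - (8 : ℝ) • (aC * pC q w ^ 2 * ieC w ^ 3)
      + (6 : ℝ) • (aC ^ 2 * pC q w ^ 3 * ieC w ^ 4))
    + rxO ^ 2 * (res ((4 : ℝ) • (aC * ieC w ^ 2) - (6 : ℝ) • (aC ^ 2 * pC q w * ieC w ^ 3)) * P1 q w)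
    + res (aC ^ 2 * ieC w ^ 2) * P2 q w
/-- `N(λ,x) = 2 ∫_l^λ f(s) √s K0(s,λ,x) ds` -/
noncomputable def NN (q : XX l) (w : AC l) (f : XX l) : DC l := (2 : ℝ) • Iop _ (qT _ f * K0 q w)
/-- `√x ∂_x N` -/
noncomputable def nn1 (q : XX l) (w : AC l) (f : XX l) : DO l := (2 : ℝ) • Iop _ (qT _ f * K1 q w)
/-- `x√x ∂_x² N` -/
noncomputable def nn2 (q : XX l) (w : AC l) (f : XX l) : DO l := (2 : ℝ) • Iop _ (qT _ f * K2 q w)
/-- `κ = hdK (2 n₁ + n₂)` -/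
noncomputable def kap (q : XX l) (w : AC l) (f : XX l) : DO l :=
  Hop ((2 : ℝ) • nn1 q w f + nn2 q w f)
/-- `Y(q,w,g,f) = g·N(·,0) + ∫_l^b g(λ) κ(λ,b-λ)/√(b-λ) dλ` -/
noncomputable def Yop [Fact (l < 1)] (q : XX l) (w : AC l) (g f : XX l) : XX l :=
  g * diagC (NN q w f) + Bop g (kap q w f)

end formulas

section WW

lemma exists_WW (l : ℝ) [h0 : Fact (0 < l)] : ∃ r0 > 0, ∃ W : XX l → AC l, W 0 = 1 ∧
    ∀ q, ‖q‖ < r0 → W q ^ 2 = 1 - (2 : ℝ) • Lop (qT _ q * W q) ∧ ‖W q - 1‖ ≤ 1 / 2 ∧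
      AnalyticAt ℝ W q :=
  B1.exists_W (Lop : AC l →L[ℝ] AC l) (qT (Icc 0 1))

/-- radius of the domain of `W` -/
noncomputable def rr (l : ℝ) [h0 : Fact (0 < l)] : ℝ := (exists_WW l).choose

/-- the solution `w = W(q)` of `w² = 1 - 2 𝓛(q w)` -/
noncomputable def WW [h0 : Fact (0 < l)] : XX l → AC l := (exists_WW l).choose_spec.2.choose

lemma rr_pos (l : ℝ) [h0 : Fact (0 < l)] : 0 < rr l := (exists_WW l).choose_spec.1

variable [h0 : Fact (0 < l)]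

lemma WW_zero : WW (0 : XX l) = 1 := (exists_WW l).choose_spec.2.choose_spec.1

lemma WW_eq {q : XX l} (hq : ‖q‖ < rr l) : WW q ^ 2 = 1 - (2 : ℝ) • Lop (qT _ q * WW q) :=
  ((exists_WW l).choose_spec.2.choose_spec.2 q hq).1

lemma WW_near {q : XX l} (hq : ‖q‖ < rr l) : ‖WW q - 1‖ ≤ 1 / 2 :=
  ((exists_WW l).choose_spec.2.choose_spec.2 q hq).2.1

lemma WW_analytic {q : XX l} (hq : ‖q‖ < rr l) : AnalyticAt ℝ WW q :=
  ((exists_WW l).choose_spec.2.choose_spec.2 q hq).2.2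

end WW

section defs

variable [h0 : Fact (0 < l)] [h1 : Fact (l < 1)]

/-- clamping `ℝ³` to the closed triangle domain -/
noncomputable def TT.clamp (s lam x : ℝ) : TT l (Icc 0 1) :=
  TT.mk (max l (min s (max l (min lam 1)))) (max l (min lam 1)) (max 0 (min x 1))
    (le_max_left _ _) (max_le (le_max_left _ _) (min_le_right _ _))
    (max_le h1.out.le (min_le_right _ _)) ⟨le_max_left _ _, max_le zero_le_one (min_le_right _ _)⟩

omit h0 in
lemma TT.continuous_clamp :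
    Continuous (fun p : ℝ × ℝ × ℝ => (TT.clamp p.1 p.2.1 p.2.2 : TT l (Icc 0 1))) := by
  refine Continuous.subtype_mk (f := fun p : ℝ × ℝ × ℝ =>
    ((max l (min p.1 (max l (min p.2.1 1))), max l (min p.2.1 1), max 0 (min p.2.2 1)) :
      ℝ × ℝ × ℝ)) ?_ _
  fun_prop

omit h0 in
lemma TT.clamp_eq {s lam x : ℝ} (a1 : l ≤ s) (a2 : s ≤ lam) (a3 : lam ≤ 1) (a4 : x ∈ Icc (0:ℝ) 1) :
    (TT.clamp s lam x : TT l (Icc 0 1)) = TT.mk s lam x a1 a2 a3 a4 := by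
  have e1 : max l (min lam 1) = lam := by rw [min_eq_left a3, max_eq_right (a1.trans a2)]
  have e2 : max l (min s lam) = s := by rw [min_eq_left a2, max_eq_right a1]
  have e3 : max 0 (min x 1) = x := by rw [min_eq_left a4.2, max_eq_right a4.1]
  apply TT.ext
  · change max l (min s (max l (min lam 1))) = s
    rw [e1, e2]
  · exact e1
  · exact e3

omit h0 in
lemma TT.clamp_self (p : TT l (Icc 0 1)) : TT.clamp p.s p.lam p.x = p := by
  rw [TT.clamp_eq p.l_le_s p.s_le_lam p.lam_le p.x_mem]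
  rfl

/-- total extension of a function on the closed triangle domain (for module B2) -/
noncomputable def wt (w : AC l) (s lam x : ℝ) : ℝ := w (TT.clamp s lam x)

omit h0 in
lemma continuous_wt (w : AC l) : Continuous (fun p : ℝ × ℝ × ℝ => wt w p.1 p.2.1 p.2.2) :=
  w.continuous.comp TT.continuous_clamp

omit h0 in
lemma wt_at {J : Set ℝ} (w : AC l) (p : TT l (Icc 0 1)) {r : ℝ} (a1 : l ≤ r) (a2 : r ≤ p.lam) :
    w (p.at' r) = wt w r p.lam p.x := by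
  unfold wt
  rw [TT.clamp_eq a1 a2 p.lam_le p.x_mem]
  congr 1
  apply TT.ext
  · exact p.at'_s a1 a2
  · rfl
  · rfl

/-- `Ξ(ε,q)` -/
noncomputable def Xi (ε : ℝ) (q : XX l) : XX l :=
  Yop (ε • q) (WW (ε • q)) q q + Yop (-(ε • q)) (WW (-(ε • q))) q q

/-- `a ↦ a⁻²` on `[l,1]` -/
noncomputable def invsq : XX l :=
  ⟨fun a => ((a : ℝ) ^ 2)⁻¹, Continuous.inv₀ (by fun_prop) (fun a => by
    have := lt_of_lt_of_le h0.out a.2.1
    positivity)⟩

omit h1 in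
@[simp] lemma invsq_apply (a : Icc l 1) : (invsq : XX l) a = ((a : ℝ) ^ 2)⁻¹ := rfl

/-- `𝒯(ε,q)` -/
noncomputable def Tt (ε : ℝ) (q : XX l) : XX l := invsq * Aop (Xi ε q)

/-- the energy `e(s;a,a)` -/
noncomputable def Ee (q : XX l) (s a : ℝ) : ℝ := s + (a - s) * wt (WW q) s a 0 ^ 2

end defs

end Pool.Agent.Unicorn
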