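import Pool.Agent.Unicorn.B0
import Pool.Agent.Unicorn.B3

/-!
# Unicorn, Part B: the operators `Hop`, `Bop`, `diagC`, `Aop`, `mm` and the identity (6)
-/

set_option autoImplicit false

open Set MeasureTheory intervalIntegral Filter Topology
open scoped ContDiff BoundedContinuousFunction

namespace Pool.Agent.Unicorn

variable {l : ℝ} {J : Set ℝ}

/-! ### total extensions -/

open Classical in
/-- total extension of a function on `TT l J` (by zero) -/
noncomputable def TT.e (g : TT l J → ℝ) (s lam x : ℝ) : ℝ :=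
  if h : l ≤ s ∧ s ≤ lam ∧ lam ≤ 1 ∧ x ∈ J then g ⟨(s, lam, x), h⟩ else 0

open Classical in
/-- total extension of a function on `DD l J` (by zero) -/
noncomputable def DD.e (g : DD l J → ℝ) (lam x : ℝ) : ℝ :=
  if h : l ≤ lam ∧ lam ≤ 1 ∧ x ∈ J then g ⟨(lam, x), h⟩ else 0

lemma TT.e_of_mem (g : TT l J → ℝ) {s lam x : ℝ} (h1 : l ≤ s) (h2 : s ≤ lam) (h3 : lam ≤ 1)
    (h4 : x ∈ J) : TT.e g s lam x = g (TT.mk s lam x h1 h2 h3 h4) := by
  unfold TT.e
  rw [dif_pos ⟨h1, h2, h3, h4⟩]
  rfl

lemma DD.e_of_mem (g : DD l J → ℝ) {lam x : ℝ} (h1 : l ≤ lam) (h3 : lam ≤ 1)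
    (h4 : x ∈ J) : DD.e g lam x = g (DD.mk lam x h1 h3 h4) := by
  unfold DD.e
  rw [dif_pos ⟨h1, h3, h4⟩]
  rfl

@[simp] lemma TT.e_self (g : TT l J → ℝ) (p : TT l J) : TT.e g p.s p.lam p.x = g p := by
  rw [TT.e_of_mem g p.l_le_s p.s_le_lam p.lam_le p.x_mem]
  rfl

@[simp] lemma DD.e_self (g : DD l J → ℝ) (d : DD l J) : DD.e g d.lam d.x = g d := by
  rw [DD.e_of_mem g d.l_le d.lam_le d.x_mem]
  rfl

lemma DD.e_add (g h : DD l J → ℝ) (lam x : ℝ) : DD.e (g + h) lam x = DD.e g lam x + DD.e h lam x := by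
  unfold DD.e
  by_cases h' : l ≤ lam ∧ lam ≤ 1 ∧ x ∈ J
  · rw [dif_pos h', dif_pos h', dif_pos h']; rfl
  · rw [dif_neg h', dif_neg h', dif_neg h', add_zero]

lemma DD.e_smul (c : ℝ) (g : DD l J → ℝ) (lam x : ℝ) : DD.e (c • g) lam x = c * DD.e g lam x := by
  unfold DD.e
  by_cases h' : l ≤ lam ∧ lam ≤ 1 ∧ x ∈ J
  · rw [dif_pos h', dif_pos h']; rfl
  · rw [dif_neg h', dif_neg h', mul_zero]

lemma DD.continuousOn_e {g : DD l J → ℝ} (hg : Continuous g) :
    ContinuousOn (fun p : ℝ × ℝ => DD.e g p.1 p.2) (Icc l 1 ×ˢ J) := by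
  rw [continuousOn_iff_continuous_domRestrict]
  have : (Icc l 1 ×ˢ J).domRestrict (fun p : ℝ × ℝ => DD.e g p.1 p.2)
      = fun z : ↥(Icc l 1 ×ˢ J) => g ⟨z.1, z.2.1.1, z.2.1.2, z.2.2⟩ := by
    ext z
    obtain ⟨⟨lam, x⟩, ⟨h1, h2⟩, h3⟩ := z
    simp only [domRestrict_apply]
    exact DD.e_of_mem g h1 h2 h3
  rw [this]
  exact hg.comp (Continuous.subtype_mk continuous_subtype_val _)

lemma DD.abs_e_le (g : DD l J →ᵇ ℝ) (lam x : ℝ) : |DD.e g lam x| ≤ ‖g‖ := by
  unfold DD.e
  split
  · exact g.norm_coe_le_norm _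
  · rw [abs_zero]; exact norm_nonneg _

/-- total extension of a function on the open domain -/
noncomputable abbrev tot (g : DO l) (lam x : ℝ) : ℝ := DD.e g lam x

/-! ### `Hop` -/

lemma intervalIntegrable_hdK {g : ℝ → ℝ} {β C : ℝ} (hβ : 0 < β) (hg : ContinuousOn g (Ioo 0 β))
    (hC : ∀ y ∈ Ioo 0 β, |g y| ≤ C) :
    IntervalIntegrable (fun t => t / √(1 - t) * g (β * t)) volume 0 1 := by
  have h0 := intervalIntegrable_t_div_sqrt.mul_const C
  rw [intervalIntegrable_iff_integrableOn_Ioo_of_le zero_le_one] at h0 ⊢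
  have hmem : ∀ t ∈ Ioo (0:ℝ) 1, β * t ∈ Ioo 0 β := fun t ht =>
    ⟨mul_pos hβ ht.1, by nlinarith [ht.2]⟩
  refine Integrable.mono' h0 ?_ ?_
  · apply ContinuousOn.aestronglyMeasurable _ measurableSet_Ioo
    refine ContinuousOn.mul ?_ ?_
    · refine ContinuousOn.div (by fun_prop) (by fun_prop) ?_
      intro t ht
      exact (Real.sqrt_pos.2 (by linarith [ht.2])).ne'
    · exact hg.comp (by fun_prop) hmem
  · refine (ae_restrict_iff' measurableSet_Ioo).2 (Eventually.of_forall fun t ht => ?_)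
    have h2 : 0 ≤ t / √(1 - t) := div_nonneg ht.1.le (Real.sqrt_nonneg _)
    rw [Real.norm_eq_abs, abs_mul, abs_of_nonneg h2]
    exact mul_le_mul_of_nonneg_left (hC _ (hmem t ht)) h2

lemma DD.slice_cont {g : DD l (Ioo 0 1) → ℝ} (hg : Continuous g) {lam : ℝ} (h : lam ∈ Icc l 1) :
    ContinuousOn (fun y => DD.e g lam y) (Ioo 0 1) :=
  (DD.continuousOn_e hg).comp (by fun_prop : ContinuousOn (fun y : ℝ => (lam, y)) (Ioo 0 1))
    (fun _ hy => ⟨h, hy⟩)

/-- `Hop g (λ,x) = (2/π) ∫_0^1 t (1-t)^{-1/2} g(λ, x t) dt` -/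
noncomputable def Hop : DO l →L[ℝ] DO l :=
  mkOp (fun g d => hdK (fun y => DD.e g d.lam y) d.x)
    (fun g => by
      have h1 := continuousOn_hdK (S := Icc l 1) (X := 1) (C := ‖g‖)
        (g := fun s y => DD.e g s y) (DD.continuousOn_e g.continuous)
        (fun s _ y _ => DD.abs_e_le g s y)
      have h2 : Continuous (fun d : DD l (Ioo 0 1) => (d.lam, d.x)) := by fun_prop
      exact h1.comp_continuous h2 (fun d => ⟨⟨d.l_le, d.lam_le⟩, d.x_mem⟩))
    (8 / (3 * Real.pi))
    (fun g d => abs_hdK_le d.x_mem.1 (fun y _ => DD.abs_e_le g _ _))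
    (fun g h d => by
      have hx := d.x_mem
      have hsub : Ioo 0 d.x ⊆ Ioo (0:ℝ) 1 := Ioo_subset_Ioo_right hx.2.le
      have hg := intervalIntegrable_hdK hx.1
        ((DD.slice_cont g.continuous ⟨d.l_le, d.lam_le⟩).mono hsub) (fun y _ => DD.abs_e_le g _ _)
      have hh := intervalIntegrable_hdK hx.1
        ((DD.slice_cont h.continuous ⟨d.l_le, d.lam_le⟩).mono hsub) (fun y _ => DD.abs_e_le h _ _)
      unfold hdK
      rw [← mul_add, ← intervalIntegral.integral_add hg hh]
      congr 1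
      apply intervalIntegral.integral_congr
      intro t _
      simp only [BoundedContinuousFunction.coe_add, DD.e_add]
      ring)
    (fun c g d => by
      unfold hdK
      rw [mul_left_comm, ← intervalIntegral.integral_const_mul (r := c)]
      congr 1
      apply intervalIntegral.integral_congr
      intro t _
      have : DD.e (⇑(c • g)) d.lam (d.x * t) = c * DD.e g d.lam (d.x * t) :=
        DD.e_smul c g _ _
      simp only [this]
      ring)

lemma Hop_apply (g : DO l) (d : DD l (Ioo 0 1)) :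
    Hop g d = hdK (fun y => DD.e g d.lam y) d.x := rfl

lemma Hop_e (g : DO l) {lam x : ℝ} (h : lam ∈ Icc l 1) (hx : x ∈ Ioo (0:ℝ) 1) :
    DD.e (Hop g) lam x = hdK (fun y => DD.e g lam y) x := by
  rw [DD.e_of_mem _ h.1 h.2 hx]
  rfl

/-! ### `diagC`, `Aop`, `mm` -/

/-- `diagC N b = N(b,0)` -/
noncomputable def diagC : DC l →L[ℝ] XX l :=
  LinearMap.mkContinuous
    { toFun := fun N => ⟨fun b : Icc l 1 => N (DD.mk b.1 0 b.2.1 b.2.2 ⟨le_rfl, zero_le_one⟩),
        N.continuous.comp (Continuous.subtype_mk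
          (f := fun b : Icc l 1 => ((b.1, 0) : ℝ × ℝ)) (by fun_prop) _)⟩
      map_add' := fun _ _ => rfl
      map_smul' := fun _ _ => rfl } 1 (fun N => by
        rw [one_mul, ContinuousMap.norm_le _ (norm_nonneg _)]
        intro b
        exact N.norm_coe_le_norm _)

lemma diagC_apply (N : DC l) (b : Icc l 1) :
    diagC N b = N (DD.mk b.1 0 b.2.1 b.2.2 ⟨le_rfl, zero_le_one⟩) := rfl

lemma diagC_e (N : DC l) (b : Icc l 1) : diagC N b = DD.e N b 0 := by
  rw [DD.e_of_mem N b.2.1 b.2.2 ⟨le_rfl, zero_le_one⟩]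
  rfl

section

variable [h1 : Fact (l < 1)]

lemma qe_abs_le (q : XX l) (r : ℝ) : |qe q r| ≤ ‖q‖ := by
  unfold qe IccExtend
  exact q.norm_coe_le_norm _

lemma qe_add (q p : XX l) (r : ℝ) : qe (q + p) r = qe q r + qe p r := rfl
lemma qe_mul (q p : XX l) (r : ℝ) : qe (q * p) r = qe q r * qe p r := rfl
lemma qe_smul (c : ℝ) (q : XX l) (r : ℝ) : qe (c • q) r = c * qe q r := rfl

/-- generic operator `q ↦ ∫_l^a k(a,b) q(b) db` with continuous kernel `0 ≤ k ≤ K` -/
noncomputable def kerX (k : ℝ → ℝ → ℝ) (hk : Continuous (Function.uncurry k)) (K : ℝ)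
    (hK0 : 0 ≤ K) (hK : ∀ a ∈ Icc l 1, ∀ b ∈ Icc l a, |k a b| ≤ K) : XX l →L[ℝ] XX l :=
  LinearMap.mkContinuous
    { toFun := fun q => ⟨fun a : Icc l 1 => ∫ b in l..a.1, k a.1 b * qe q b, by
        refine intervalIntegral.continuous_parametric_intervalIntegral_of_continuous
          (f := fun (a : Icc l 1) b => k a.1 b * qe q b) ?_ continuous_subtype_val
        have h2 : Continuous (fun z : Icc l 1 × ℝ => k z.1.1 z.2) :=
          hk.comp (f := fun z : Icc l 1 × ℝ => (z.1.1, z.2)) (by fun_prop)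
        exact h2.mul ((continuous_qe q).comp continuous_snd)⟩
      map_add' := fun q p => by
        ext a
        have hk' : Continuous (fun b => k a.1 b) :=
          hk.comp (f := fun b : ℝ => (a.1, b)) (by fun_prop)
        simp only [ContinuousMap.coe_mk, ContinuousMap.add_apply]
        have hq : IntervalIntegrable (fun b => k a.1 b * qe q b) volume l a.1 :=
          (hk'.mul (continuous_qe q)).intervalIntegrable _ _
        have hp : IntervalIntegrable (fun b => k a.1 b * qe p b) volume l a.1 :=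
          (hk'.mul (continuous_qe p)).intervalIntegrable _ _
        rw [← intervalIntegral.integral_add hq hp]
        apply intervalIntegral.integral_congr
        intro b _
        simp only [qe_add]
        ring
      map_smul' := fun c q => by
        ext a
        simp only [ContinuousMap.coe_mk, ContinuousMap.smul_apply, RingHom.id_apply, smul_eq_mul]
        rw [← intervalIntegral.integral_const_mul]
        apply intervalIntegral.integral_congr
        intro b _
        simp only [qe_smul]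
        ring } (K * (1 - l)) (fun q => by
        have hl := h1.out
        rw [ContinuousMap.norm_le _ (mul_nonneg (mul_nonneg hK0 (by linarith)) (norm_nonneg _))]
        intro a
        have h := intervalIntegral.norm_integral_le_of_norm_le_const (a := l) (b := a.1)
          (f := fun b => k a.1 b * qe q b) (C := K * ‖q‖) (fun b hb => ?_)
        · refine h.trans ?_
          rw [abs_of_nonneg (by linarith [a.2.1])]
          have := mul_nonneg hK0 (norm_nonneg q)
          nlinarith [a.2.2]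
        · rw [uIoc_of_le a.2.1] at hb
          rw [norm_mul]
          exact mul_le_mul (hK a.1 a.2 b ⟨hb.1.le, hb.2⟩) (qe_abs_le q b) (norm_nonneg _) hK0)

/-- `Aop g a = ∫_l^a √(a-b) g(b) db` -/
noncomputable def Aop [h0 : Fact (0 < l)] : XX l →L[ℝ] XX l :=
  kerX (fun a b => √(a - b)) (by unfold Function.uncurry; fun_prop) 1 zero_le_one
    (fun a ha b hb => by
      rw [abs_of_nonneg (Real.sqrt_nonneg _)]
      have := h0.out
      exact Real.sqrt_le_iff.2 ⟨zero_le_one, by linarith [ha.2, hb.1]⟩)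

lemma Aop_apply [h0 : Fact (0 < l)] (g : XX l) (a : Icc l 1) :
    Aop g a = ∫ b in l..a.1, √(a.1 - b) * qe g b := rfl

/-- `mm q b = ∫_l^b √s q(s) ds` -/
noncomputable def mm [h0 : Fact (0 < l)] : XX l →L[ℝ] XX l :=
  kerX (fun _ b => √b) (by unfold Function.uncurry; fun_prop) 1 zero_le_one
    (fun a ha b hb => by
      rw [abs_of_nonneg (Real.sqrt_nonneg _)]
      exact Real.sqrt_le_iff.2 ⟨zero_le_one, by linarith [ha.2, hb.2]⟩)

lemma mm_apply [h0 : Fact (0 < l)] (g : XX l) (a : Icc l 1) :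
    mm g a = ∫ b in l..a.1, √b * qe g b := rfl

/-! ### `Bop` -/

variable [h0 : Fact (0 < l)]

/-- the function `b ↦ ∫_l^b q(λ) k(λ,b-λ) (b-λ)^{-1/2} dλ` -/
noncomputable def bFun (q : XX l) (k : DO l) (b : ℝ) : ℝ :=
  ∫ s in l..b, qe q s * DD.e k s (b - s) / √(b - s)

lemma bFun_integrable (q : XX l) (k : DO l) {b : ℝ} (hb : b ∈ Icc l 1) :
    IntervalIntegrable (fun s => qe q s * DD.e k s (b - s) / √(b - s)) volume l b := by
  have hl := h0.out
  rw [intervalIntegrable_iff_integrableOn_Ioo_of_le hb.1]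
  have h2 : IntegrableOn (fun s => ‖q‖ * ‖k‖ * (1 / √(b - s))) (Ioo l b) := by
    have h3 := integrableOn_inv_sqrt (b - l)
    rw [← intervalIntegrable_iff_integrableOn_Ioo_of_le (by linarith [hb.1])] at h3
    rw [← intervalIntegrable_iff_integrableOn_Ioo_of_le hb.1]
    have h4 := (h3.comp_sub_left b).symm
    have h5 : IntervalIntegrable (fun x => 1 / √(b - x)) volume l b := by simpa using h4
    exact h5.const_mul _
  refine Integrable.mono' h2 ?_ ?_
  · apply ContinuousOn.aestronglyMeasurable _ measurableSet_Ioo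
    refine ContinuousOn.div ((continuous_qe q).continuousOn.mul ?_) (by fun_prop) ?_
    · exact (DD.continuousOn_e k.continuous).comp
        (by fun_prop : ContinuousOn (fun s : ℝ => (s, b - s)) (Ioo l b))
        (fun s hs => ⟨⟨hs.1.le, hs.2.le.trans hb.2⟩, by simp only; linarith [hs.2],
          by simp only; linarith [hs.1, hb.2]⟩)
    · intro s hs
      exact (Real.sqrt_pos.2 (by linarith [hs.2])).ne'
  · refine Eventually.of_forall fun s => ?_
    rw [Real.norm_eq_abs, abs_div, abs_mul, abs_of_nonneg (Real.sqrt_nonneg _), div_eq_mul_one_div]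
    gcongr
    · exact qe_abs_le q s
    · exact DD.abs_e_le k _ _

omit h1 h0 in
lemma integral_one_div_sqrt_sub {b : ℝ} (hb : l ≤ b) :
    ∫ s in l..b, 1 / √(b - s) = 2 * √(b - l) := by
  have := intervalIntegral.integral_comp_sub_left (a := l) (b := b) (fun z => 1 / √z) b
  rw [sub_self] at this
  rw [this]
  exact integral_one_div_sqrt (by linarith)

lemma bFun_bound (q : XX l) (k : DO l) {b : ℝ} (hb : b ∈ Icc l 1) :
    |bFun q k b| ≤ 2 * √(b - l) * (‖q‖ * ‖k‖) := by
  unfold bFun
  have h := intervalIntegral.norm_integral_le_of_norm_le hb.1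
    (f := fun s => qe q s * DD.e k s (b - s) / √(b - s)) (g := fun s => (1 / √(b - s)) * (‖q‖ * ‖k‖))
    (μ := volume) (Eventually.of_forall fun s _ => ?_) ?_
  · rw [intervalIntegral.integral_mul_const, integral_one_div_sqrt_sub hb.1] at h
    exact h
  · rw [Real.norm_eq_abs, abs_div, abs_mul, abs_of_nonneg (Real.sqrt_nonneg _),
      div_eq_mul_one_div, mul_comm]
    gcongr
    · exact qe_abs_le q s
    · exact DD.abs_e_le k _ _
  · have h3 := integrableOn_inv_sqrt (b - l)
    rw [← intervalIntegrable_iff_integrableOn_Ioo_of_le (by linarith [hb.1])] at h3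
    have h4 := (h3.comp_sub_left b).symm
    have h5 : IntervalIntegrable (fun x => 1 / √(b - x)) volume l b := by simpa using h4
    exact h5.mul_const _

omit h0 in
lemma bFun_eq (q : XX l) (k : DO l) {b : ℝ} (hb : l < b) :
    bFun q k b = √(b - l) * ∫ t in (0:ℝ)..1,
      qe q (b - (b - l) * t) * DD.e k (b - (b - l) * t) ((b - l) * t) / √t := by
  have hc : b - l ≠ 0 := by linarith
  have h := intervalIntegral.integral_comp_sub_mul (a := 0) (b := 1)
    (fun s => qe q s * DD.e k s (b - s) / √(b - s)) hc b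
  simp only [mul_one, mul_zero, sub_zero, sub_sub_cancel, smul_eq_mul] at h
  unfold bFun
  have h2 : ∫ s in l..b, qe q s * DD.e k s (b - s) / √(b - s)
      = (b - l) * ∫ t in (0:ℝ)..1, qe q (b - (b - l) * t) *
        DD.e k (b - (b - l) * t) ((b - l) * t) / √((b - l) * t) := by
    rw [h]
    field_simp
  rw [h2]
  have hs : 0 < √(b - l) := Real.sqrt_pos.2 (by linarith)
  have hss : √(b - l) * √(b - l) = b - l := Real.mul_self_sqrt (by linarith)
  rw [← intervalIntegral.integral_const_mul, ← intervalIntegral.integral_const_mul]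
  apply intervalIntegral.integral_congr
  intro t _
  simp only
  rw [Real.sqrt_mul (by linarith)]
  nth_rewrite 1 [← hss]
  by_cases ht : √t = 0
  · rw [ht]; simp
  · field_simp

lemma bFun_continuousOn (q : XX l) (k : DO l) : ContinuousOn (bFun q k) (Icc l 1) := by
  have hl := h0.out
  have hl1 := h1.out
  -- away from `l`
  have hA : ContinuousOn (bFun q k) (Ioc l 1) := by
    have hB : ContinuousOn (fun b => √(b - l) * ∫ t in (0:ℝ)..1,
        qe q (b - (b - l) * t) * DD.e k (b - (b - l) * t) ((b - l) * t) / √t) (Ioc l 1) := by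
      refine ContinuousOn.mul (by fun_prop) ?_
      simp_rw [intervalIntegral.integral_of_le (zero_le_one' ℝ), integral_Ioc_eq_integral_Ioo]
      have hm1 : ∀ b ∈ Ioc l 1, ∀ t ∈ Ioo (0:ℝ) 1, b - (b - l) * t ∈ Icc l 1 := by
        intro b hb t ht
        constructor
        · nlinarith [hb.1, ht.2]
        · nlinarith [hb.1, hb.2, ht.1, mul_pos (sub_pos.2 hb.1) ht.1]
      have hm2 : ∀ b ∈ Ioc l 1, ∀ t ∈ Ioo (0:ℝ) 1, (b - l) * t ∈ Ioo (0:ℝ) 1 := by
        intro b hb t ht
        constructor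
        · exact mul_pos (sub_pos.2 hb.1) ht.1
        · nlinarith [hb.1, hb.2, ht.1, ht.2, mul_pos (sub_pos.2 hb.1) (sub_pos.2 ht.2)]
      apply MeasureTheory.continuousOn_of_dominated (bound := fun t => ‖q‖ * ‖k‖ * (1 / √t))
      · intro b hb
        apply ContinuousOn.aestronglyMeasurable _ measurableSet_Ioo
        refine ContinuousOn.div (ContinuousOn.mul ?_ ?_) (by fun_prop) ?_
        · exact ((continuous_qe q).comp (by fun_prop)).continuousOn
        · exact (DD.continuousOn_e k.continuous).comp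
            (by fun_prop : ContinuousOn (fun t : ℝ => (b - (b - l) * t, (b - l) * t)) (Ioo 0 1))
            (fun t ht => ⟨hm1 b hb t ht, hm2 b hb t ht⟩)
        · intro t ht
          exact (Real.sqrt_pos.2 ht.1).ne'
      · intro b hb
        refine Eventually.of_forall fun t => ?_
        rw [Real.norm_eq_abs, abs_div, abs_mul, abs_of_nonneg (Real.sqrt_nonneg _),
          div_eq_mul_one_div]
        gcongr
        · exact qe_abs_le q _
        · exact DD.abs_e_le k _ _
      · exact (integrableOn_inv_sqrt 1).const_mul _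
      · refine (ae_restrict_iff' measurableSet_Ioo).2 (Eventually.of_forall fun t ht => ?_)
        refine ContinuousOn.div_const (ContinuousOn.mul ?_ ?_) _
        · exact ((continuous_qe q).comp (by fun_prop)).continuousOn
        · exact (DD.continuousOn_e k.continuous).comp
            (by fun_prop : ContinuousOn (fun b : ℝ => (b - (b - l) * t, (b - l) * t)) (Ioc l 1))
            (fun b hb => ⟨hm1 b hb t ht, hm2 b hb t ht⟩)
    exact hB.congr (fun b hb => bFun_eq q k hb.1)
  intro b hb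
  rcases hb.1.eq_or_lt with rfl | hlb
  · -- at the left end point
    have h2 : bFun q k l = 0 := by unfold bFun; simp
    unfold ContinuousWithinAt
    rw [h2]
    apply squeeze_zero_norm' (a := fun b => 2 * √(b - l) * (‖q‖ * ‖k‖))
    · exact eventually_nhdsWithin_of_forall fun b hb => bFun_bound q k hb
    · have hc : Continuous (fun b => 2 * √(b - l) * (‖q‖ * ‖k‖)) := by fun_prop
      have h3 := (hc.tendsto l).mono_left (nhdsWithin_le_nhds (s := Icc l 1))
      simpa using h3
  · have h2 := hA b ⟨hlb, hb.2⟩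
    refine h2.mono_of_mem_nhdsWithin ?_
    have h3 : Ioi l ∈ 𝓝 b := Ioi_mem_nhds hlb
    have h4 : Icc l 1 ∩ Ioi l ∈ 𝓝[Icc l 1] b :=
      Filter.inter_mem self_mem_nhdsWithin (mem_nhdsWithin_of_mem_nhds h3)
    refine Filter.mem_of_superset h4 ?_
    rintro z ⟨hz1, hz2⟩
    exact ⟨hz2, hz1.2⟩

lemma bFun_add_left (q p : XX l) (k : DO l) {b : ℝ} (hb : b ∈ Icc l 1) :
    bFun (q + p) k b = bFun q k b + bFun p k b := by
  unfold bFun
  rw [← intervalIntegral.integral_add (bFun_integrable q k hb) (bFun_integrable p k hb)]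
  apply intervalIntegral.integral_congr
  intro s _
  simp only [qe_add]
  ring

lemma bFun_add_right (q : XX l) (k m : DO l) {b : ℝ} (hb : b ∈ Icc l 1) :
    bFun q (k + m) b = bFun q k b + bFun q m b := by
  unfold bFun
  rw [← intervalIntegral.integral_add (bFun_integrable q k hb) (bFun_integrable q m hb)]
  apply intervalIntegral.integral_congr
  intro s _
  simp only [BoundedContinuousFunction.coe_add, DD.e_add]
  ring

omit h0 in
lemma bFun_smul_left (c : ℝ) (q : XX l) (k : DO l) (b : ℝ) :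
    bFun (c • q) k b = c * bFun q k b := by
  unfold bFun
  rw [← intervalIntegral.integral_const_mul]
  apply intervalIntegral.integral_congr
  intro s _
  simp only [qe_smul]
  ring

omit h0 in
lemma bFun_smul_right (c : ℝ) (q : XX l) (k : DO l) (b : ℝ) :
    bFun q (c • k) b = c * bFun q k b := by
  unfold bFun
  rw [← intervalIntegral.integral_const_mul]
  apply intervalIntegral.integral_congr
  intro s _
  have : DD.e (⇑(c • k)) s (b - s) = c * DD.e k s (b - s) := DD.e_smul c k _ _
  simp only [this]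
  ring

/-- `Bop q k b = ∫_l^b q(λ) k(λ,b-λ) (b-λ)^{-1/2} dλ` -/
noncomputable def Bop : XX l →L[ℝ] DO l →L[ℝ] XX l :=
  LinearMap.mkContinuous₂
    (LinearMap.mk₂ ℝ (fun (q : XX l) (k : DO l) =>
        (⟨fun b : Icc l 1 => bFun q k b, (bFun_continuousOn q k).domRestrict⟩ : XX l))
      (fun q p k => by ext b; exact bFun_add_left q p k b.2)
      (fun c q k => by ext b; exact bFun_smul_left c q k b)
      (fun q k m => by ext b; exact bFun_add_right q k m b.2)
      (fun c q k => by ext b; exact bFun_smul_right c q k b))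
    2 (fun q k => by
      rw [ContinuousMap.norm_le _ (by positivity)]
      intro b
      refine (bFun_bound q k b.2).trans ?_
      have hl := h0.out
      have h2 : √(b.1 - l) ≤ 1 :=
        Real.sqrt_le_iff.2 ⟨zero_le_one, by linarith [b.2.2]⟩
      have h3 := mul_nonneg (norm_nonneg q) (norm_nonneg k)
      calc 2 * √(b.1 - l) * (‖q‖ * ‖k‖) ≤ 2 * 1 * (‖q‖ * ‖k‖) := by gcongr
        _ = 2 * ‖q‖ * ‖k‖ := by ring)

lemma Bop_apply (q : XX l) (k : DO l) (b : Icc l 1) :
    Bop q k b = ∫ s in l..b.1, qe q s * DD.e k s (b.1 - s) / √(b.1 - s) := rfl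

/-! ### the identity (6) -/

/-- **(6)**: `∫_l^a √(a-b) [q(b) N(b,0) + Bop q (Hop (2 n1 + n2)) b] db
  = ∫_l^a q(λ) √(a-λ) N(λ,a-λ) dλ`. -/
theorem Aop_yop {N : DC l} {n1 n2 : DO l}
    (hd1 : ∀ lam ∈ Icc l 1, ∀ x ∈ Ioo (0:ℝ) 1,
      HasDerivAt (fun y => DD.e N lam y) (DD.e n1 lam x / √x) x)
    (hd2 : ∀ lam ∈ Icc l 1, ∀ x ∈ Ioo (0:ℝ) 1,
      HasDerivAt (fun y => DD.e n1 lam y / √y) (DD.e n2 lam x / (x * √x)) x)
    (q : XX l) (a : Icc l 1) :
    Aop (q * diagC N + Bop q (Hop ((2:ℝ) • n1 + n2))) a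
      = ∫ s in l..a.1, qe q s * √(a.1 - s) * DD.e N s (a.1 - s) := by
  have hl := h0.out
  have h := xi_identity (l := l) (A := 1) (X := 1) (C := max ‖n1‖ ‖n2‖) (N := DD.e N)
    (n1 := DD.e n1) (n2 := DD.e n2) (q := qe q) (by linarith) (continuous_qe q).continuousOn
    (DD.continuousOn_e N.continuous) hd1 hd2 (DD.continuousOn_e n1.continuous)
    (DD.continuousOn_e n2.continuous)
    (fun s _ y _ => (DD.abs_e_le n1 s y).trans (le_max_left _ _))
    (fun s _ y _ => (DD.abs_e_le n2 s y).trans (le_max_right _ _)) a.2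
  rw [h, Aop_apply]
  apply intervalIntegral.integral_congr
  intro b hb
  rw [uIcc_of_le a.2.1] at hb
  have hb1 : b ∈ Icc l 1 := ⟨hb.1, hb.2.trans a.2.2⟩
  simp only
  congr 1
  rw [qe_add, qe_mul, qe_of_mem (diagC N) hb1, diagC_e, qe_of_mem (Bop q _) hb1, Bop_apply]
  congr 1
  simp only
  rw [intervalIntegral.integral_of_le hb.1, intervalIntegral.integral_of_le hb.1,
    integral_Ioc_eq_integral_Ioo, integral_Ioc_eq_integral_Ioo]
  apply setIntegral_congr_fun measurableSet_Ioo
  intro s hs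
  simp only
  rw [Hop_e _ ⟨hs.1.le, hs.2.le.trans hb1.2⟩ ⟨by linarith [hs.2], by linarith [hs.1, hb1.2]⟩]
  have e : (fun y => DD.e (⇑((2:ℝ) • n1 + n2)) s y) = fun y => 2 * DD.e n1 s y + DD.e n2 s y := by
    ext y
    rw [BoundedContinuousFunction.coe_add, DD.e_add]
    congr 1
    exact DD.e_smul 2 n1 s y
  rw [e]

end

end Pool.Agent.Unicorn
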