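import Pool.Agent.Unicorn.B3

/-!
# Unicorn B3d: convenience forms of the Abel identities
-/

set_option autoImplicit false

open Set MeasureTheory intervalIntegral Real Filter Topology

namespace Pool.Agent.Unicorn

theorem abel_inv {l a : ℝ} (hla : l ≤ a) {g : ℝ → ℝ} (hg : Continuous g) :
    (∫ b in l..a, √(a - b) * ((2 / π) * ∫ s in l..b, (√(b - s))⁻¹ * g s))
      = ∫ s in l..a, (a - s) * g s := by
  have h := abel_sqrt_abel hla (g := g) ((hg.integrableOn_Icc).mono_set Ioo_subset_Icc_self)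
  have e : ∀ b, √(a - b) * ((2 / π) * ∫ s in l..b, (√(b - s))⁻¹ * g s)
      = 2 / π * (√(a - b) * ∫ u in l..b, g u / √(b - u)) := by
    intro b
    have : ∫ s in l..b, (√(b - s))⁻¹ * g s = ∫ u in l..b, g u / √(b - u) := by
      congr 1; ext u; rw [div_eq_mul_inv, mul_comm]
    rw [this]; ring
  simp_rw [e]
  rw [intervalIntegral.integral_const_mul, h]
  have := Real.pi_pos
  field_simp

/-- version with continuity only on `[l,a]` -/
theorem abel_inv' {l a : ℝ} (hla : l ≤ a) {g : ℝ → ℝ} (hg : ContinuousOn g (Icc l a)) :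
    (∫ b in l..a, √(a - b) * ((2 / π) * ∫ s in l..b, (√(b - s))⁻¹ * g s))
      = ∫ s in l..a, (a - s) * g s := by
  have h := abel_sqrt_abel hla (g := g) ((hg.integrableOn_Icc).mono_set Ioo_subset_Icc_self)
  have e : ∀ b, √(a - b) * ((2 / π) * ∫ s in l..b, (√(b - s))⁻¹ * g s)
      = 2 / π * (√(a - b) * ∫ u in l..b, g u / √(b - u)) := by
    intro b
    have : ∫ s in l..b, (√(b - s))⁻¹ * g s = ∫ u in l..b, g u / √(b - u) := by
      congr 1; ext u; rw [div_eq_mul_inv, mul_comm]
    rw [this]; ring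
  simp_rw [e]
  rw [intervalIntegral.integral_const_mul, h]
  have := Real.pi_pos
  field_simp

/-- injectivity of `F ↦ ∫_l^a F(b) √(a-b) db` on `C([l,A])` -/
theorem sqrt_kernel_ext {l A : ℝ} (hlA : l < A) {F G : ℝ → ℝ} (hF : ContinuousOn F (Icc l A))
    (hG : ContinuousOn G (Icc l A))
    (h : ∀ a ∈ Icc l A, ∫ b in l..a, F b * √(a - b) = ∫ b in l..a, G b * √(a - b)) :
    ∀ a ∈ Icc l A, F a = G a := by
  have h1 := sqrt_kernel_injective hlA (ψ := fun b => F b - G b) (hF.sub hG) ?_
  · intro a ha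
    exact sub_eq_zero.1 (h1 a ha)
  · intro a ha
    have e : ∀ b, √(a - b) * (F b - G b) = F b * √(a - b) - G b * √(a - b) := by intro b; ring
    simp_rw [e]
    have hs : Icc l a ⊆ Icc l A := Icc_subset_Icc_right ha.2.le
    have hw : ContinuousOn (fun b => √(a - b)) (Icc l a) := by fun_prop
    rw [intervalIntegral.integral_sub, h a ⟨ha.1.le, ha.2.le⟩, sub_self]
    · exact ContinuousOn.intervalIntegrable (by rw [uIcc_of_le ha.1.le]; exact (hF.mono hs).mul hw)
    · exact ContinuousOn.intervalIntegrable (by rw [uIcc_of_le ha.1.le]; exact (hG.mono hs).mul hw)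

end Pool.Agent.Unicorn
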