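import Mathlib

/-!
# Unicorn, module B6a: Nemytskii operators on `C(K, ℝ)`, dilation curves, regularity by dilation

* `nem_contDiff` : for `g : ℝ → ℝ` of class `C^∞` the superposition operator `u ↦ g ∘ u` on
  `C(K, ℝ)` is `C^∞`.
* `dilCurve_contDiffOn` : `μ ↦ √μ q(μ ·)` is a `C^∞` curve in `C([l,1])` on `μ > 0`.
* `smooth_of_dilation` : if `δ` solves an equation which is covariant under dilations and uniquely
  and smoothly solvable near the given data, then `δ` is `C^∞` on `(-∞, 1)`.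
-/

set_option autoImplicit false

open Set Topology Filter
open scoped ContDiff

namespace Pool.Agent.Unicorn.B6

section nemytskii

variable {K : Type*} [TopologicalSpace K] [CompactSpace K]

/-- uniform differentiability of a `C^1` function on bounded sets -/
lemma unif_diff {g g' : ℝ → ℝ} (hg : ∀ t, HasDerivAt g (g' t) t) (hg' : Continuous g')
    (R : ℝ) {c : ℝ} (hc : 0 < c) :
    ∃ δ > 0, ∀ a h : ℝ, |a| ≤ R → |h| < δ → |g (a + h) - g a - g' a * h| ≤ c * |h| := by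
  have hcomp : IsCompact (Icc (-(R + 1)) (R + 1)) := isCompact_Icc
  have huc := hcomp.uniformContinuousOn_of_continuous hg'.continuousOn
  rw [Metric.uniformContinuousOn_iff] at huc
  obtain ⟨δ, hδ, hd⟩ := huc c hc
  refine ⟨min δ 1, lt_min hδ one_pos, ?_⟩
  intro a h ha hh
  have hh1 : |h| < δ := lt_of_lt_of_le hh (min_le_left _ _)
  have hh2 : |h| < 1 := lt_of_lt_of_le hh (min_le_right _ _)
  have key := Convex.norm_image_sub_le_of_norm_hasDerivWithin_le
    (f := fun t => g t - g' a * t) (f' := fun t => g' t - g' a) (C := c)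
    (s := uIcc a (a + h)) (x := a) (y := a + h) ?_ ?_ (convex_uIcc a (a + h))
    left_mem_uIcc right_mem_uIcc
  · simp only [Real.norm_eq_abs] at key
    have e1 : g (a + h) - g' a * (a + h) - (g a - g' a * a) = g (a + h) - g a - g' a * h := by ring
    have e2 : a + h - a = h := by ring
    rw [e1, e2] at key
    exact key
  · intro t ht
    have h1 := (hg t).sub ((hasDerivAt_id t).const_mul (g' a))
    simp only [mul_one] at h1
    exact h1.hasDerivWithinAt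
  · intro t ht
    have ht1 : |t - a| ≤ |h| := by
      have := Set.abs_sub_left_of_mem_uIcc ht
      simpa using this
    have ha' := abs_le.1 ha
    have hta := abs_le.1 ht1
    have hh3 := abs_lt.1 hh2
    have habs : |h| < 1 := hh2
    have m1 : t ∈ Icc (-(R + 1)) (R + 1) := ⟨by linarith, by linarith⟩
    have m2 : a ∈ Icc (-(R + 1)) (R + 1) := ⟨by linarith, by linarith⟩
    have := hd t m1 a m2 (by rw [Real.dist_eq]; linarith)
    rw [Real.dist_eq] at this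
    exact this.le

/-- the superposition operator -/
def nem (g : C(ℝ, ℝ)) (u : C(K, ℝ)) : C(K, ℝ) := g.comp u

omit [CompactSpace K] in
@[simp] lemma nem_apply (g : C(ℝ, ℝ)) (u : C(K, ℝ)) (x : K) : nem g u x = g (u x) := rfl

lemma nem_hasFDerivAt {g g' : C(ℝ, ℝ)} (hg : ∀ t, HasDerivAt g (g' t) t) (u : C(K, ℝ)) :
    HasFDerivAt (nem g) (ContinuousLinearMap.mul ℝ C(K, ℝ) (nem g' u)) u := by
  rw [hasFDerivAt_iff_isLittleO_nhds_zero, Asymptotics.isLittleO_iff]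
  intro c hc
  obtain ⟨δ, hδ, hd⟩ := unif_diff hg g'.continuous ‖u‖ hc
  filter_upwards [Metric.ball_mem_nhds (0 : C(K, ℝ)) hδ] with h hh
  rw [mem_ball_zero_iff] at hh
  rw [ContinuousMap.norm_le _ (by positivity)]
  intro x
  have h1 : |u x| ≤ ‖u‖ := by
    have := u.norm_coe_le_norm x
    simpa using this
  have h2 : |h x| ≤ ‖h‖ := by
    have := h.norm_coe_le_norm x
    simpa using this
  have := hd (u x) (h x) h1 (lt_of_le_of_lt h2 hh)
  simp only [ContinuousMap.sub_apply, nem_apply, ContinuousMap.add_apply,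
    ContinuousLinearMap.mul_apply', ContinuousMap.mul_apply, Real.norm_eq_abs]
  exact this.trans (mul_le_mul_of_nonneg_left h2 hc.le)

/-- the superposition operator of a `C^∞` function is `C^∞` on `C(K, ℝ)` -/
theorem nem_contDiff {g : C(ℝ, ℝ)} (hg : ContDiff ℝ ∞ g) :
    ContDiff ℝ ∞ (nem g : C(K, ℝ) → C(K, ℝ)) := by
  rw [contDiff_infty]
  intro n
  induction n generalizing g with
  | zero =>
    have hd := hg.differentiable (by simp)
    have hg1 : ContDiff ℝ ∞ (deriv g) := (contDiff_infty_iff_deriv.1 hg).2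
    let g' : C(ℝ, ℝ) := ⟨deriv g, hg1.continuous⟩
    have hder : ∀ t, HasDerivAt g (g' t) t := fun t => (hd t).hasDerivAt
    rw [Nat.cast_zero, contDiff_zero]
    rw [continuous_iff_continuousAt]
    exact fun u => (nem_hasFDerivAt hder u).continuousAt
  | succ n ih =>
    have hd := hg.differentiable (by simp)
    have hg1 : ContDiff ℝ ∞ (deriv g) := (contDiff_infty_iff_deriv.1 hg).2
    let g' : C(ℝ, ℝ) := ⟨deriv g, hg1.continuous⟩
    have hder : ∀ t, HasDerivAt g (g' t) t := fun t => (hd t).hasDerivAt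
    have hg'2 : ContDiff ℝ ∞ g' := hg1
    rw [Nat.cast_succ]
    rw [contDiff_succ_iff_hasFDerivAt]
    refine ⟨fun u => ContinuousLinearMap.mul ℝ C(K, ℝ) (nem g' u), ?_, nem_hasFDerivAt hder⟩
    exact (ContinuousLinearMap.contDiff (E := C(K, ℝ)) (F := C(K, ℝ) →L[ℝ] C(K, ℝ))
      (ContinuousLinearMap.mul ℝ C(K, ℝ))).comp (ih hg'2)

end nemytskii

section dilation

variable {l : ℝ}

/-- the coordinate function on `[l,1]` -/
def coordX (l : ℝ) : C(Icc l 1, ℝ) := ⟨Subtype.val, continuous_subtype_val⟩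

/-- the dilation curve `μ ↦ √μ Q(μ ·)` in `C([l,1])` -/
noncomputable def dilCurve (l : ℝ) (Q : C(ℝ, ℝ)) (μ : ℝ) : C(Icc l 1, ℝ) :=
  √μ • nem Q (μ • coordX l)

@[simp] lemma dilCurve_apply (Q : C(ℝ, ℝ)) (μ : ℝ) (x : Icc l 1) :
    dilCurve l Q μ x = √μ * Q (μ * x) := rfl

/-- the dilation curve is smooth -/
theorem dilCurve_contDiffOn {Q : C(ℝ, ℝ)} (hQ : ContDiff ℝ ∞ Q) :
    ContDiffOn ℝ ∞ (dilCurve l Q) (Ioi 0) := by
  have h0 : ContDiffOn ℝ ∞ (fun μ : ℝ => √μ) (Ioi 0) := fun x hx =>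
    (contDiffAt_id.sqrt (ne_of_gt hx)).contDiffWithinAt
  have h1 : ContDiff ℝ ∞ (fun μ : ℝ => μ • coordX l) := contDiff_id.smul contDiff_const
  exact h0.smul ((nem_contDiff hQ).comp h1).contDiffOn

/-- the dilation operator on `C([l,1])`, `q` extended by constants outside `[l,1]`
(we only use it for `q l = 0` and `μ ≤ 1`) -/
noncomputable def dilOp (hl1 : l ≤ 1) (μ : ℝ) (q : C(Icc l 1, ℝ)) : C(Icc l 1, ℝ) :=
  ⟨fun x => √μ * q (projIcc l 1 hl1 (μ * x)), by fun_prop⟩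

@[simp] lemma dilOp_apply (hl1 : l ≤ 1) (μ : ℝ) (q : C(Icc l 1, ℝ)) (x : Icc l 1) :
    dilOp hl1 μ q x = √μ * q (projIcc l 1 hl1 (μ * x)) := rfl

lemma dilOp_add (hl1 : l ≤ 1) (μ : ℝ) (q r : C(Icc l 1, ℝ)) :
    dilOp hl1 μ (q + r) = dilOp hl1 μ q + dilOp hl1 μ r := by
  ext x; simp [mul_add]

lemma dilOp_sub (hl1 : l ≤ 1) (μ : ℝ) (q r : C(Icc l 1, ℝ)) :
    dilOp hl1 μ (q - r) = dilOp hl1 μ q - dilOp hl1 μ r := by
  ext x; simp [mul_sub]

lemma dilOp_smul (hl1 : l ≤ 1) (μ c : ℝ) (q : C(Icc l 1, ℝ)) :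
    dilOp hl1 μ (c • q) = c • dilOp hl1 μ q := by
  ext x; simp; ring

lemma norm_dilOp_le (hl1 : l ≤ 1) {μ : ℝ} (h1 : μ ≤ 1) (q : C(Icc l 1, ℝ)) :
    ‖dilOp hl1 μ q‖ ≤ ‖q‖ := by
  rw [ContinuousMap.norm_le _ (norm_nonneg _)]
  intro x
  rw [dilOp_apply, norm_mul]
  have h2 : ‖√μ‖ ≤ 1 := by
    rw [Real.norm_eq_abs, abs_of_nonneg (Real.sqrt_nonneg _)]
    exact Real.sqrt_le_one.2 h1
  calc ‖√μ‖ * ‖q (projIcc l 1 hl1 (μ * x))‖ ≤ 1 * ‖q‖ :=
        mul_le_mul h2 (q.norm_coe_le_norm _) (norm_nonneg _) zero_le_one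
    _ = ‖q‖ := one_mul _

/-- restriction of a function on the line to `[l,1]` -/
def resX (l : ℝ) (Q : C(ℝ, ℝ)) : C(Icc l 1, ℝ) := Q.restrict (Icc l 1)

@[simp] lemma resX_apply (Q : C(ℝ, ℝ)) (x : Icc l 1) : resX l Q x = Q x := rfl

/-- a function vanishing on `(-∞, l]` is dilated in the naive way -/
lemma dilOp_resX (hl0 : 0 ≤ l) (hl1 : l ≤ 1) {Q : C(ℝ, ℝ)} (hQ : ∀ s ≤ l, Q s = 0) {μ : ℝ}
    (h1 : μ ≤ 1) : dilOp hl1 μ (resX l Q) = dilCurve l Q μ := by
  ext x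
  rw [dilOp_apply, dilCurve_apply, resX_apply]
  congr 1
  have hx0 : 0 ≤ (x : ℝ) := hl0.trans x.2.1
  have hx1 : μ * x ≤ 1 := by
    have := mul_le_mul h1 x.2.2 hx0 zero_le_one
    linarith
  rcases le_total l (μ * x) with h | h
  · rw [projIcc_of_mem hl1 ⟨h, hx1⟩]
  · rw [projIcc_of_le_left hl1 h]
    rw [hQ _ le_rfl, hQ _ h]

/-- **Regularity by dilation.**  `Φ q δ = ρ` is an equation (for fixed `ε`) which is covariant under
dilations, uniquely solvable near the data `(q, ρ)` with a smooth solution operator `S`.  Then the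
solution `δ` for smooth data is smooth on `(-∞,1)` (extended by `0` below `l`). -/
theorem smooth_of_dilation (hl0 : 0 < l) (hl1 : l ≤ 1) {lam1 : ℝ} (hlam : l < lam1)
    {Φ : C(Icc l 1, ℝ) → C(Icc l 1, ℝ) → C(Icc l 1, ℝ)}
    {S : C(Icc l 1, ℝ) × C(Icc l 1, ℝ) → C(Icc l 1, ℝ)}
    {W : Set (C(Icc l 1, ℝ) × C(Icc l 1, ℝ))} (hS : ContDiffOn ℝ ∞ S W) (hW : IsOpen W) {r : ℝ}
    (huniq : ∀ q ρ δ, (q, ρ) ∈ W → (∀ x : Icc l 1, (x : ℝ) ≤ lam1 → δ x = 0) → ‖δ‖ < r →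
      Φ q δ = ρ → δ = S (q, ρ))
    {Q P : C(ℝ, ℝ)} (hQ : ContDiff ℝ ∞ Q) (hP : ContDiff ℝ ∞ P) (hQ0 : ∀ s ≤ l, Q s = 0)
    (hP0 : ∀ s ≤ l, P s = 0)
    {δ : C(Icc l 1, ℝ)} (hδ0 : ∀ x : Icc l 1, (x : ℝ) ≤ lam1 → δ x = 0) (hδr : ‖δ‖ < r)
    (hδ : Φ (resX l Q) δ = resX l P)
    (hcov : ∀ μ, 0 < μ → μ ≤ 1 → Φ (dilOp hl1 μ (resX l Q)) (dilOp hl1 μ δ) =
      μ⁻¹ • dilOp hl1 μ (Φ (resX l Q) δ))
    {η : ℝ} (hη0 : 0 < η) (hη1 : η < 1)
    (hdom : ∀ μ ∈ Ioo (1 - η) 1, (dilCurve l Q μ, μ⁻¹ • dilCurve l P μ) ∈ W) :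
    ContDiffOn ℝ ∞ (fun s => δ (projIcc l 1 hl1 s)) (Iio 1) := by
  -- the solution for dilated data
  have key : ∀ μ ∈ Ioo (1 - η) 1, dilOp hl1 μ δ = S (dilCurve l Q μ, μ⁻¹ • dilCurve l P μ) := by
    intro μ hμ
    have hμ0 : 0 < μ := by linarith [hμ.1]
    have hμ1 : μ ≤ 1 := hμ.2.le
    apply huniq _ _ _ (hdom μ hμ)
    · intro x hx
      rw [dilOp_apply, hδ0, mul_zero]
      have hx0 : 0 ≤ (x : ℝ) := hl0.le.trans x.2.1
      rcases le_total l (μ * x) with h | h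
      · rw [coe_projIcc]
        rw [max_eq_right, min_le_iff]
        · right
          calc μ * x ≤ 1 * x := mul_le_mul_of_nonneg_right hμ1 hx0
            _ ≤ lam1 := by rw [one_mul]; exact hx
        · apply le_min hl1 h
      · rw [projIcc_of_le_left hl1 h]
        exact hlam.le
    · exact (norm_dilOp_le hl1 hμ1 δ).trans_lt hδr
    · rw [← dilOp_resX hl0.le hl1 hQ0 hμ1, hcov μ hμ0 hμ1, hδ,
        dilOp_resX hl0.le hl1 hP0 hμ1]
  intro y hy
  apply ContDiffAt.contDiffWithinAt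
  by_cases hyl : y < lam1
  · -- locally zero
    have : (fun s => δ (projIcc l 1 hl1 s)) =ᶠ[𝓝 y] fun _ => 0 := by
      filter_upwards [Iio_mem_nhds hyl] with s hs
      apply hδ0
      rw [coe_projIcc]
      exact max_le hlam.le ((min_le_right _ _).trans (le_of_lt hs))
    exact contDiffAt_const.congr_of_eventuallyEq this
  · push Not at hyl
    have hy0 : 0 < y := by linarith
    have hy1 : y < 1 := hy
    -- the evaluation point
    obtain ⟨x1, hx1l, hx11, hμ⟩ : ∃ x1, l ≤ x1 ∧ x1 ≤ 1 ∧ y / x1 ∈ Ioo (1 - η) 1 := by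
      have h2 : 0 < 1 - η / 2 := by linarith
      by_cases h : y ≤ 1 - η / 2
      · refine ⟨y / (1 - η / 2), ?_, ?_, ?_⟩
        · rw [le_div_iff₀ h2]
          nlinarith
        · rw [div_le_one h2]; exact h
        · rw [div_div_cancel₀ hy0.ne']
          constructor <;> linarith
      · push Not at h
        refine ⟨1, hl1, le_rfl, ?_⟩
        rw [div_one]
        exact ⟨by linarith, hy1⟩
    have hx10 : 0 < x1 := hl0.trans_le hx1l
    set X1 : Icc l 1 := ⟨x1, hx1l, hx11⟩ with hX1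
    have hopen : IsOpen (Ioo (1 - η) (1 : ℝ)) := isOpen_Ioo
    have hev : (fun s => δ (projIcc l 1 hl1 s)) =ᶠ[𝓝 y]
        fun s => (√(s / x1))⁻¹ *
          S (dilCurve l Q (s / x1), (s / x1)⁻¹ • dilCurve l P (s / x1)) X1 := by
      have hc : ContinuousAt (fun s : ℝ => s / x1) y := by fun_prop
      filter_upwards [hc.preimage_mem_nhds (hopen.mem_nhds hμ)] with s hs
      have hs' : s / x1 ∈ Ioo (1 - η) 1 := hs
      have hs0 : 0 < s / x1 := by linarith [hs'.1]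
      rw [← key _ hs', dilOp_apply, ← mul_assoc, inv_mul_cancel₀ (Real.sqrt_pos.2 hs0).ne', one_mul]
      congr 2
      rw [hX1]
      field_simp
    refine ContDiffAt.congr_of_eventuallyEq ?_ hev
    have hμpos : 0 < y / x1 := by linarith [hμ.1]
    have hdiv : ContDiffAt ℝ ∞ (fun s : ℝ => s / x1) y := by fun_prop
    have h1 : ContDiffAt ℝ ∞ (fun s : ℝ => (√(s / x1))⁻¹) y := by
      apply ContDiffAt.inv
      · exact hdiv.sqrt hμpos.ne'
      · exact (Real.sqrt_pos.2 hμpos).ne'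
    have hq : ContDiffAt ℝ ∞ (fun s : ℝ => dilCurve l Q (s / x1)) y :=
      ContDiffAt.fun_comp y ((dilCurve_contDiffOn hQ).contDiffAt (Ioi_mem_nhds hμpos)) hdiv
    have hp : ContDiffAt ℝ ∞ (fun s : ℝ => (s / x1)⁻¹ • dilCurve l P (s / x1)) y := by
      apply ContDiffAt.fun_smul
      · exact hdiv.inv hμpos.ne'
      · exact ContDiffAt.fun_comp y ((dilCurve_contDiffOn hP).contDiffAt (Ioi_mem_nhds hμpos)) hdiv
    have hSW : ContDiffAt ℝ ∞ S (dilCurve l Q (y / x1), (y / x1)⁻¹ • dilCurve l P (y / x1)) :=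
      hS.contDiffAt (hW.mem_nhds (hdom _ hμ))
    have h2 : ContDiffAt ℝ ∞ (fun s : ℝ => S (dilCurve l Q (s / x1),
        (s / x1)⁻¹ • dilCurve l P (s / x1))) y :=
      ContDiffAt.fun_comp y hSW (hq.prodMk hp)
    have h3 : ContDiffAt ℝ ∞ (fun s : ℝ => S (dilCurve l Q (s / x1),
        (s / x1)⁻¹ • dilCurve l P (s / x1)) X1) y :=
      ContDiffAt.fun_comp y (g := ContinuousMap.evalCLM ℝ X1)
        (ContinuousLinearMap.contDiff _).contDiffAt h2
    exact h1.mul h3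

end dilation

end Pool.Agent.Unicorn.B6
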