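import Mathlib
import Pool.Agent.Unicorn.B6a

/-!
# Unicorn, module B6b: smoothness of `(ε,a) ↦ 𝒯(ε,q0)(a)` and the right hand side `ρ_ε`

-/

set_option autoImplicit false

open Set Topology Filter MeasureTheory
open scoped ContDiff

namespace Pool.Agent.Unicorn.B6

section partialderiv

/-- derivative in the second variable -/
noncomputable def dsnd (F : ℝ → ℝ → ℝ) : ℝ → ℝ → ℝ := fun e a => deriv (F e) a

variable {F : ℝ → ℝ → ℝ} {I : Set ℝ}

lemma dsnd_eq (hI : IsOpen I) (hF : ContDiffOn ℝ ∞ (fun p : ℝ × ℝ => F p.1 p.2) (I ×ˢ univ))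
    {e : ℝ} (he : e ∈ I) (a : ℝ) :
    HasDerivAt (F e) (fderiv ℝ (fun p : ℝ × ℝ => F p.1 p.2) (e, a) (0, 1)) a := by
  have h0 : (I ×ˢ univ : Set (ℝ × ℝ)) ∈ 𝓝 (e, a) := (hI.prod isOpen_univ).mem_nhds ⟨he, mem_univ _⟩
  have h1 := ((hF.contDiffAt h0).differentiableAt (by simp)).hasFDerivAt
  have h2 : HasDerivAt (fun θ' : ℝ => (e, θ')) ((0 : ℝ), (1 : ℝ)) a :=
    (hasDerivAt_const a e).prodMk (hasDerivAt_id a)
  exact h1.comp_hasDerivAt a h2

lemma dsnd_smooth (hI : IsOpen I) (hF : ContDiffOn ℝ ∞ (fun p : ℝ × ℝ => F p.1 p.2) (I ×ˢ univ)) :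
    ContDiffOn ℝ ∞ (fun p : ℝ × ℝ => dsnd F p.1 p.2) (I ×ˢ univ) := by
  have h1 := hF.fderiv_of_isOpen (m := ∞) (hI.prod isOpen_univ) (by simp)
  have h2 : ContDiffOn ℝ ∞ (fun p : ℝ × ℝ => fderiv ℝ (fun p : ℝ × ℝ => F p.1 p.2) p
    ((0 : ℝ), (1 : ℝ))) (I ×ˢ univ) := h1.clm_apply contDiffOn_const
  refine h2.congr ?_
  rintro ⟨e, a⟩ ⟨he, -⟩
  exact (dsnd_eq hI hF he a).deriv

/-- a jointly smooth family `F` with `F 0 = 0`, supported in a compact interval, tends to zero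
uniformly with `ε` -/
lemma unif_small {F : ℝ → ℝ → ℝ} {I : Set ℝ} (hI : IsOpen I) (h0 : (0 : ℝ) ∈ I)
    (hF : ContinuousOn (fun p : ℝ × ℝ => F p.1 p.2) (I ×ˢ univ)) {b1 b2 : ℝ}
    (hsupp : ∀ e a, a ∉ Icc b1 b2 → F e a = 0) (hF0 : ∀ a, F 0 a = 0) {c : ℝ} (hc : 0 < c) :
    ∀ᶠ e in 𝓝 (0 : ℝ), ∀ a, |F e a| < c := by
  have h1 : ∀ a ∈ Icc b1 b2, ∀ᶠ p : ℝ × ℝ in 𝓝 ((0 : ℝ), a), |F p.1 p.2| < c := by
    intro a _
    have hca : ContinuousAt (fun p : ℝ × ℝ => F p.1 p.2) (0, a) :=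
      hF.continuousAt ((hI.prod isOpen_univ).mem_nhds ⟨h0, mem_univ _⟩)
    exact hca.abs.eventually_lt continuousAt_const (by simpa [hF0] using hc)
  have h2 : ∀ᶠ e in 𝓝 (0 : ℝ), ∀ a ∈ Icc b1 b2, |F e a| < c :=
    (isCompact_Icc (a := b1) (b := b2)).eventually_forall_of_forall_eventually
      (P := fun e a => |F e a| < c) h1
  filter_upwards [h2] with e he a
  by_cases ha : a ∈ Icc b1 b2
  · exact he a ha
  · rw [hsupp e a ha]; simpa using hc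

end partialderiv

section halfint

/-- the half integral `J g (b) = (2/π) ∫_0^2 u^{-1/2} g(b-u) du` -/
noncomputable def halfInt (g : ℝ → ℝ) (b : ℝ) : ℝ :=
  (2 / Real.pi) * ∫ u in (0 : ℝ)..2, (√u)⁻¹ * g (b - u)

lemma inv_sqrt_eq {u : ℝ} (hu : 0 ≤ u) : (√u)⁻¹ = u ^ (-(1 / 2) : ℝ) := by
  rw [Real.sqrt_eq_rpow, Real.rpow_neg hu]

lemma intervalIntegrable_inv_sqrt :
    IntervalIntegrable (fun u : ℝ => (√u)⁻¹) volume 0 2 := by
  have h := intervalIntegral.intervalIntegrable_rpow' (a := 0) (b := 2) (r := -(1 / 2))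
    (by norm_num)
  refine h.congr ?_
  intro u hu
  rw [uIoc_of_le (by norm_num)] at hu
  exact (inv_sqrt_eq hu.1.le).symm

lemma integral_inv_sqrt : ∫ u in (0 : ℝ)..2, (√u)⁻¹ = 2 * √2 := by
  have e : ∫ u in (0 : ℝ)..2, (√u)⁻¹ = ∫ u in (0 : ℝ)..2, u ^ (-(1 / 2) : ℝ) := by
    apply intervalIntegral.integral_congr
    intro u hu
    rw [uIcc_of_le (by norm_num)] at hu
    exact inv_sqrt_eq hu.1
  rw [e, integral_rpow (Or.inl (by norm_num))]
  rw [Real.sqrt_eq_rpow]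
  norm_num
  ring

/-- the half integral as a convolution -/
lemma halfInt_eq_conv (g : ℝ → ℝ) :
    halfInt g = fun b => (2 / Real.pi) *
      (convolution (indicator (Ioc (0 : ℝ) 2) (fun u => (√u)⁻¹)) g
        (ContinuousLinearMap.mul ℝ ℝ) volume) b := by
  funext b
  unfold halfInt convolution
  congr 1
  rw [intervalIntegral.integral_of_le (by norm_num), ← integral_indicator measurableSet_Ioc]
  congr 1
  funext u
  by_cases hu : u ∈ Ioc (0 : ℝ) 2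
  · simp [indicator_of_mem hu]
  · simp [indicator_of_notMem hu]

lemma halfInt_contDiff {g : ℝ → ℝ} (hg : ContDiff ℝ ∞ g) (hc : HasCompactSupport g) :
    ContDiff ℝ ∞ (halfInt g) := by
  rw [halfInt_eq_conv]
  apply ContDiff.mul contDiff_const
  apply HasCompactSupport.contDiff_convolution_right _ hc _ hg
  have h := (intervalIntegrable_iff_integrableOn_Ioc_of_le (by norm_num : (0:ℝ) ≤ 2)).1
    intervalIntegrable_inv_sqrt
  exact (h.integrable_indicator measurableSet_Ioc).locallyIntegrable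

lemma halfInt_zero {g : ℝ → ℝ} {b1 : ℝ} (hg : ∀ s ≤ b1, g s = 0) {b : ℝ} (hb : b ≤ b1) :
    halfInt g b = 0 := by
  unfold halfInt
  rw [intervalIntegral.integral_congr (g := fun _ => 0)]
  · simp
  · intro u hu
    rw [uIcc_of_le (by norm_num)] at hu
    beta_reduce
    rw [hg _ (by linarith [hu.1]), mul_zero]

lemma abs_halfInt_le {g : ℝ → ℝ} {c : ℝ} (hg : ∀ s, |g s| ≤ c) (b : ℝ) :
    |halfInt g b| ≤ 2 * c := by
  have hc : 0 ≤ c := (abs_nonneg _).trans (hg 0)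
  have h1 : |∫ u in (0 : ℝ)..2, (√u)⁻¹ * g (b - u)| ≤ ∫ u in (0 : ℝ)..2, (√u)⁻¹ * c := by
    rw [← Real.norm_eq_abs]
    apply intervalIntegral.norm_integral_le_of_norm_le (by norm_num)
    · refine Eventually.of_forall fun u _ => ?_
      rw [norm_mul, norm_inv, Real.norm_eq_abs, abs_of_nonneg (Real.sqrt_nonneg u)]
      exact mul_le_mul_of_nonneg_left (hg _) (inv_nonneg.2 (Real.sqrt_nonneg u))
    · exact intervalIntegrable_inv_sqrt.mul_const c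
  rw [intervalIntegral.integral_mul_const, integral_inv_sqrt] at h1
  unfold halfInt
  rw [abs_mul, abs_of_pos (by positivity)]
  have hpi : 3 < Real.pi := Real.pi_gt_three
  have hs : √2 ≤ 3 / 2 := by
    rw [Real.sqrt_le_left (by norm_num)]; norm_num
  calc 2 / Real.pi * |∫ u in (0 : ℝ)..2, (√u)⁻¹ * g (b - u)|
      ≤ 2 / Real.pi * (2 * √2 * c) := mul_le_mul_of_nonneg_left h1 (by positivity)
    _ = (4 * √2) / Real.pi * c := by ring
    _ ≤ 2 * c := by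
        apply mul_le_mul_of_nonneg_right _ hc
        rw [div_le_iff₀ (by positivity)]
        nlinarith

/-- the half integral in Abel form -/
lemma halfInt_eq_abel {g : ℝ → ℝ} {l : ℝ} (hl0 : 0 < l) (hg : ∀ s ≤ l, g s = 0)
    (hgc : Continuous g) {b : ℝ} (hb : l ≤ b) (hb1 : b ≤ 1) :
    halfInt g b = (2 / Real.pi) * ∫ s in l..b, (√(b - s))⁻¹ * g s := by
  unfold halfInt
  congr 1
  have h1 := intervalIntegral.integral_comp_sub_left (a := 0) (b := 2)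
    (fun s => (√(b - s))⁻¹ * g s) b
  simp only [sub_sub_cancel, sub_zero] at h1
  rw [h1]
  have hint : IntervalIntegrable (fun s => (√(b - s))⁻¹ * g s) volume (b - 2) b := by
    have h2 : IntervalIntegrable (fun s => (√(b - s))⁻¹) volume (b - 2) b := by
      have := (intervalIntegrable_inv_sqrt.comp_sub_left b)
      simp only [sub_zero] at this
      exact this.symm
    exact h2.mul_continuousOn hgc.continuousOn
  have hz : ∫ s in (b - 2)..l, (√(b - s))⁻¹ * g s = 0 := by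
    rw [intervalIntegral.integral_congr (g := fun _ => 0)]
    · simp
    · intro s hs
      rw [uIcc_of_le (by linarith)] at hs
      beta_reduce
      rw [hg _ hs.2, mul_zero]
  have hl : l ∈ uIcc (b - 2) b := by
    rw [uIcc_of_le (by linarith)]
    exact ⟨by linarith, hb⟩
  rw [← intervalIntegral.integral_add_adjacent_intervals (b := l)
    (hint.mono_set (uIcc_subset_uIcc_left hl)) (hint.mono_set (uIcc_subset_uIcc_right hl)), hz,
    zero_add]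

/-- Taylor formula for a function vanishing to second order at `l` -/
lemma taylor_two {φ : ℝ → ℝ} (hφ : ContDiff ℝ ∞ φ) {l b1 : ℝ} (hlb : l < b1)
    (h0 : ∀ s ≤ b1, φ s = 0) (a : ℝ) :
    ∫ s in l..a, (a - s) * deriv (deriv φ) s = φ a := by
  have hφ1 : ContDiff ℝ ∞ (deriv φ) := (contDiff_infty_iff_deriv.1 hφ).2
  have hφ2 : ContDiff ℝ ∞ (deriv (deriv φ)) := (contDiff_infty_iff_deriv.1 hφ1).2
  have hd0 : ∀ s, HasDerivAt φ (deriv φ s) s := fun s =>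
    (hφ.differentiable (by simp) s).hasDerivAt
  have hd1 : ∀ s, HasDerivAt (deriv φ) (deriv (deriv φ) s) s := fun s =>
    (hφ1.differentiable (by simp) s).hasDerivAt
  have hl' : deriv φ l = 0 := by
    have : φ =ᶠ[𝓝 l] fun _ => 0 := by
      filter_upwards [Iio_mem_nhds hlb] with s hs
      exact h0 s (le_of_lt hs)
    rw [this.deriv_eq]
    simp
  have key := intervalIntegral.integral_eq_sub_of_hasDerivAt (a := l) (b := a)
    (f := fun s => (a - s) * deriv φ s + φ s) (f' := fun s => (a - s) * deriv (deriv φ) s) ?_ ?_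
  · rw [key, hl', h0 l hlb.le]
    ring
  · intro s _
    have h1 : HasDerivAt (fun s : ℝ => a - s) (-1) s := by
      simpa using (hasDerivAt_id s).const_sub a
    have h2 := (h1.mul (hd1 s)).add (hd0 s)
    refine h2.congr_deriv ?_
    ring
  · apply Continuous.intervalIntegrable
    exact (continuous_const.sub continuous_id).mul hφ2.continuous

end halfint

section Tt

variable {l : ℝ}

/-- `φ(ε,a) = χ(a) a² (κ0 - 𝒯(ε,q0)(a))`, written with the dilation covariance -/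
noncomputable def phiT (hl1 : l ≤ 1) (T : ℝ → C(Icc l 1, ℝ) → C(Icc l 1, ℝ)) (Q : C(ℝ, ℝ))
    (χ : ℝ → ℝ) (κ0 ε a : ℝ) : ℝ :=
  χ a * a ^ 2 * (κ0 - T ε (dilCurve l Q a) ⟨1, hl1, le_rfl⟩)

lemma norm_dilCurve_le (hl0 : 0 < l) (hl1 : l ≤ 1) {Q : C(ℝ, ℝ)} (hQ0 : ∀ s ≤ l, Q s = 0) {μ : ℝ}
    (h1 : μ ≤ 1) : ‖dilCurve l Q μ‖ ≤ ‖resX l Q‖ := by
  rw [← dilOp_resX hl0.le hl1 hQ0 h1]
  exact norm_dilOp_le hl1 h1 _

theorem phiT_smooth (hl0 : 0 < l) (hl1 : l ≤ 1) {T : ℝ → C(Icc l 1, ℝ) → C(Icc l 1, ℝ)} {r0 : ℝ}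
    (hT : ContDiffOn ℝ ∞ (fun p : ℝ × C(Icc l 1, ℝ) => T p.1 p.2) {p | |p.1| * ‖p.2‖ < r0})
    {Q : C(ℝ, ℝ)} (hQ : ContDiff ℝ ∞ Q) (hQ0 : ∀ s ≤ l, Q s = 0)
    {χ : ℝ → ℝ} (hχ : ContDiff ℝ ∞ χ) {b1 b2 : ℝ} (hb1 : l < b1) (hb2 : b2 < 1)
    (hχ0 : ∀ a, a ∉ Icc b1 b2 → χ a = 0) (κ0 : ℝ) {ε0 : ℝ}
    (hε0 : ∀ ε ∈ Ioo (-ε0) ε0, |ε| * ‖resX l Q‖ < r0) :
    ContDiffOn ℝ ∞ (fun p : ℝ × ℝ => phiT hl1 T Q χ κ0 p.1 p.2) (Ioo (-ε0) ε0 ×ˢ univ) := by
  rintro ⟨ε, a⟩ ⟨hε, -⟩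
  apply ContDiffAt.contDiffWithinAt
  simp only at hε
  by_cases ha : a ∈ Icc b1 b2
  · have ha0 : 0 < a := by linarith [ha.1]
    have ha1 : a < 1 := by linarith [ha.2]
    have hopen : IsOpen {p : ℝ × C(Icc l 1, ℝ) | |p.1| * ‖p.2‖ < r0} :=
      isOpen_lt (by fun_prop) continuous_const
    have hdom : (ε, dilCurve l Q a) ∈ {p : ℝ × C(Icc l 1, ℝ) | |p.1| * ‖p.2‖ < r0} := by
      have h1 := norm_dilCurve_le hl0 hl1 hQ0 ha1.le
      have h2 := mul_le_mul_of_nonneg_left h1 (abs_nonneg ε)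
      exact lt_of_le_of_lt h2 (hε0 ε hε)
    have hd : ContDiffAt ℝ ∞ (fun p : ℝ × ℝ => dilCurve l Q p.2) (ε, a) :=
      ContDiffAt.fun_comp (ε, a) (g := dilCurve l Q) (f := fun p : ℝ × ℝ => p.2)
        ((dilCurve_contDiffOn hQ).contDiffAt (Ioi_mem_nhds ha0)) contDiffAt_snd
    have hT1 : ContDiffAt ℝ ∞ (fun p : ℝ × ℝ => T p.1 (dilCurve l Q p.2)) (ε, a) :=
      ContDiffAt.fun_comp (ε, a) (g := fun p : ℝ × C(Icc l 1, ℝ) => T p.1 p.2)
        (f := fun p : ℝ × ℝ => (p.1, dilCurve l Q p.2))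
        (hT.contDiffAt (hopen.mem_nhds hdom)) (contDiffAt_fst.prodMk hd)
    have hT2 : ContDiffAt ℝ ∞ (fun p : ℝ × ℝ => T p.1 (dilCurve l Q p.2) ⟨1, hl1, le_rfl⟩) (ε, a) :=
      ContDiffAt.fun_comp (ε, a) (g := ContinuousMap.evalCLM ℝ (⟨1, hl1, le_rfl⟩ : Icc l 1))
        (ContinuousLinearMap.contDiff _).contDiffAt hT1
    have hχ1 : ContDiffAt ℝ ∞ (fun p : ℝ × ℝ => χ p.2) (ε, a) :=
      ContDiffAt.fun_comp (ε, a) (g := χ) hχ.contDiffAt contDiffAt_snd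
    exact (hχ1.mul (contDiffAt_snd.pow 2)).mul (contDiffAt_const.sub hT2)
  · have hopen : IsOpen ((Icc b1 b2)ᶜ : Set ℝ) := isClosed_Icc.isOpen_compl
    have hev : (fun p : ℝ × ℝ => phiT hl1 T Q χ κ0 p.1 p.2) =ᶠ[𝓝 (ε, a)] fun _ => 0 := by
      filter_upwards [continuous_snd.continuousAt.preimage_mem_nhds
        (hopen.mem_nhds ha : (Icc b1 b2)ᶜ ∈ 𝓝 (ε, a).2)] with p hp
      simp only [phiT]
      rw [hχ0 _ hp]
      ring
    exact contDiffAt_const.congr_of_eventuallyEq hev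

lemma deriv_zero_outside {φ : ℝ → ℝ} {b1 b2 : ℝ} (h : ∀ a, a ∉ Icc b1 b2 → φ a = 0) :
    ∀ a, a ∉ Icc b1 b2 → deriv φ a = 0 := by
  intro a ha
  have hopen : IsOpen ((Icc b1 b2)ᶜ : Set ℝ) := isClosed_Icc.isOpen_compl
  have hev : φ =ᶠ[𝓝 a] fun _ => 0 := by
    filter_upwards [hopen.mem_nhds ha] with p hp
    exact h p hp
  rw [hev.deriv_eq]
  simp

lemma slice_contDiff {F : ℝ → ℝ → ℝ} {I : Set ℝ}
    (hF : ContDiffOn ℝ ∞ (fun p : ℝ × ℝ => F p.1 p.2) (I ×ˢ univ)) {e : ℝ} (he : e ∈ I) :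
    ContDiff ℝ ∞ (F e) := by
  rw [← contDiffOn_univ]
  exact hF.comp (s := univ) (f := fun a : ℝ => ((e, a) : ℝ × ℝ))
    (contDiff_const.prodMk contDiff_id).contDiffOn (fun a _ => ⟨he, mem_univ _⟩)

/-- **The right hand side `ρ_ε`**: smooth, causal, small, with Abel transform
`χ(a) a² (κ0 - 𝒯(ε,q0)(a))`.  The hypothesis `habel` is the Abel/Fubini identity. -/
theorem exists_rho (hl0 : 0 < l) (hl1 : l ≤ 1) {T : ℝ → C(Icc l 1, ℝ) → C(Icc l 1, ℝ)} {r0 : ℝ}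
    (hT : ContDiffOn ℝ ∞ (fun p : ℝ × C(Icc l 1, ℝ) => T p.1 p.2) {p | |p.1| * ‖p.2‖ < r0})
    {Q : C(ℝ, ℝ)} (hQ : ContDiff ℝ ∞ Q) (hQ0 : ∀ s ≤ l, Q s = 0)
    (hcov : ∀ ε, |ε| * ‖resX l Q‖ < r0 → ∀ a : Icc l 1,
      T ε (dilCurve l Q a) ⟨1, hl1, le_rfl⟩ = T ε (resX l Q) a)
    {χ : ℝ → ℝ} (hχ : ContDiff ℝ ∞ χ) {b1 b2 : ℝ} (hb1 : l < b1) (hb2 : b2 < 1)
    (hχ0 : ∀ a, a ∉ Icc b1 b2 → χ a = 0) {κ0 : ℝ}
    (hbase : ∀ a : Icc l 1, b1 ≤ a → T 0 (resX l Q) a = κ0) {ε0 : ℝ} (hε00 : 0 < ε0)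
    (hε0 : ∀ ε ∈ Ioo (-ε0) ε0, |ε| * ‖resX l Q‖ < r0)
    (habel : ∀ (a : ℝ) (g : ℝ → ℝ), l ≤ a → Continuous g →
      (∫ b in l..a, √(a - b) * ((2 / Real.pi) * ∫ s in l..b, (√(b - s))⁻¹ * g s))
        = ∫ s in l..a, (a - s) * g s) :
    ∃ ρ : ℝ → C(ℝ, ℝ), (∀ ε, ContDiff ℝ ∞ (ρ ε)) ∧ (∀ ε, ∀ s ≤ b1, ρ ε s = 0) ∧
      Tendsto (fun ε => resX l (ρ ε)) (𝓝 0) (𝓝 0) ∧
      ∀ ε ∈ Ioo (-ε0) ε0, ∀ a : Icc l 1,
        ∫ b in l..a, √(a - b) * ρ ε b = χ a * (a : ℝ) ^ 2 * (κ0 - T ε (resX l Q) a) := by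
  set F := phiT hl1 T Q χ κ0 with hFdef
  set I := Ioo (-ε0) ε0 with hI
  have hIo : IsOpen I := isOpen_Ioo
  have h0I : (0 : ℝ) ∈ I := ⟨by linarith, hε00⟩
  have hF : ContDiffOn ℝ ∞ (fun p : ℝ × ℝ => F p.1 p.2) (I ×ˢ univ) :=
    phiT_smooth hl0 hl1 hT hQ hQ0 hχ hb1 hb2 hχ0 κ0 hε0
  have hG : ContDiffOn ℝ ∞ (fun p : ℝ × ℝ => dsnd (dsnd F) p.1 p.2) (I ×ˢ univ) :=
    dsnd_smooth hIo (dsnd_smooth hIo hF)
  have hsF : ∀ e a, a ∉ Icc b1 b2 → F e a = 0 := by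
    intro e a ha
    simp only [hFdef, phiT]
    rw [hχ0 a ha]; ring
  have hsG : ∀ e a, a ∉ Icc b1 b2 → dsnd (dsnd F) e a = 0 := fun e =>
    deriv_zero_outside (deriv_zero_outside (hsF e))
  have hF0 : F 0 = fun _ => 0 := by
    funext a
    by_cases ha : a ∈ Icc b1 b2
    · have h1 : l ≤ a := by linarith [ha.1]
      have h2 : a ≤ 1 := by linarith [ha.2]
      simp only [hFdef, phiT]
      rw [hcov 0 (hε0 0 h0I) ⟨a, h1, h2⟩, hbase ⟨a, h1, h2⟩ ha.1]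
      ring
    · exact hsF 0 a ha
  have hG0 : ∀ a, dsnd (dsnd F) 0 a = 0 := by
    intro a
    have : dsnd F 0 = fun _ => 0 := by
      funext a
      simp only [dsnd]
      rw [hF0]; simp
    simp only [dsnd] at this ⊢
    have h2 : dsnd F 0 = fun _ => 0 := this
    show deriv (dsnd F 0) a = 0
    rw [h2]; simp
  have hgsm : ∀ ε ∈ I, ContDiff ℝ ∞ (dsnd (dsnd F) ε) := fun ε hε => slice_contDiff hG hε
  have hgcs : ∀ ε, HasCompactSupport (dsnd (dsnd F) ε) := fun ε =>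
    HasCompactSupport.intro isCompact_Icc (hsG ε)
  have hJ : ∀ ε ∈ I, ContDiff ℝ ∞ (halfInt (dsnd (dsnd F) ε)) := fun ε hε =>
    halfInt_contDiff (hgsm ε hε) (hgcs ε)
  classical
  let ρ : ℝ → C(ℝ, ℝ) := fun ε =>
    if h : ε ∈ I then ⟨halfInt (dsnd (dsnd F) ε), (hJ ε h).continuous⟩ else 0
  have hρ : ∀ ε ∈ I, ∀ b, ρ ε b = halfInt (dsnd (dsnd F) ε) b := by
    intro ε hε b
    simp only [ρ, dif_pos hε]
    rfl
  refine ⟨ρ, ?_, ?_, ?_, ?_⟩
  · intro ε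
    by_cases h : ε ∈ I
    · have : (ρ ε : ℝ → ℝ) = halfInt (dsnd (dsnd F) ε) := funext (hρ ε h)
      rw [this]
      exact hJ ε h
    · have : (ρ ε : ℝ → ℝ) = fun _ => 0 := by
        funext b
        simp only [ρ, dif_neg h]
        rfl
      rw [this]
      exact contDiff_const
  · intro ε s hs
    by_cases h : ε ∈ I
    · rw [hρ ε h]
      refine halfInt_zero (b1 := b1) (fun t ht => ?_) hs
      rcases eq_or_lt_of_le ht with h' | h'
      · -- continuity at the end point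
        have hc := (hgsm ε h).continuous
        have hcl : IsClosed {t : ℝ | dsnd (dsnd F) ε t = 0} := isClosed_eq hc continuous_const
        have hsub : Iio b1 ⊆ {t : ℝ | dsnd (dsnd F) ε t = 0} := by
          intro t' ht'
          exact hsG ε t' (fun h => absurd h.1 (not_le.2 ht'))
        have := closure_minimal hsub hcl
        rw [closure_Iio] at this
        exact this (mem_Iic.2 ht)
      · exact hsG ε t (fun h => absurd h.1 (not_le.2 h'))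
    · simp only [ρ, dif_neg h]
      rfl
  · rw [Metric.tendsto_nhds]
    intro c hc
    have hun := unif_small hIo h0I hG.continuousOn hsG hG0 (c := c / 4) (by positivity)
    filter_upwards [hun, hIo.mem_nhds h0I] with ε h1 h2
    rw [dist_zero_right]
    have h3 : ‖resX l (ρ ε)‖ ≤ 2 * (c / 4) := by
      rw [ContinuousMap.norm_le _ (by positivity)]
      intro x
      rw [resX_apply, hρ ε h2, Real.norm_eq_abs]
      exact abs_halfInt_le (fun s => (h1 s).le) x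
    linarith
  · intro ε hε a
    have hgz : ∀ s ≤ l, dsnd (dsnd F) ε s = 0 := fun s hs =>
      hsG ε s (fun h => absurd h.1 (not_le.2 (by linarith)))
    have e1 : ∫ b in l..a, √(a - b) * ρ ε b
        = ∫ b in l..a, √(a - b) * ((2 / Real.pi) *
          ∫ s in l..b, (√(b - s))⁻¹ * dsnd (dsnd F) ε s) := by
      apply intervalIntegral.integral_congr
      intro b hb
      rw [uIcc_of_le a.2.1] at hb
      beta_reduce
      rw [hρ ε hε, halfInt_eq_abel hl0 hgz (hgsm ε hε).continuous hb.1 (hb.2.trans a.2.2)]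
    rw [e1, habel a _ a.2.1 (hgsm ε hε).continuous]
    have hFs : ContDiff ℝ ∞ (F ε) := slice_contDiff hF hε
    have hFz : ∀ s < b1, F ε s = 0 := fun s hs =>
      hsF ε s (fun h => absurd h.1 (not_le.2 hs))
    have e2 := taylor_two hFs (l := l) (b1 := (l + b1) / 2) (by linarith)
      (fun s hs => hFz s (by linarith)) a
    have e3 : F ε a = χ a * (a : ℝ) ^ 2 * (κ0 - T ε (resX l Q) a) := by
      simp only [hFdef, phiT]
      rw [hcov ε (hε0 ε hε) a]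
    rw [← e3, ← e2]
    rfl

end Tt

end Pool.Agent.Unicorn.B6
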