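import Mathlib
import Pool.Agent.Unicorn.B6b
import Pool.Agent.Unicorn.B3d

/-!
# Unicorn, module B6c: the abstract analytic system, covariance of `Ξ`, and steps (9)+(10)

`ASys l` collects the properties of `𝒯`, `Ξ` (proved in B0-B3) which are needed for the existence of
the isochronous `q`.  `ASys.exists_delta` performs steps (9) and (10) of the blueprint, given the
solution operator `S` of the implicit function theorem (B5).
-/

set_option autoImplicit false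

open Set Topology Filter MeasureTheory
open scoped ContDiff

namespace Pool.Agent.Unicorn

open B6

/-- the abstract analytic system -/
structure ASys (l : ℝ) where
  hl0 : 0 < l
  hl1 : l < 1
  T : ℝ → C(Icc l 1, ℝ) → C(Icc l 1, ℝ)
  Xi : ℝ → C(Icc l 1, ℝ) → C(Icc l 1, ℝ)
  r0 : ℝ
  hr0 : 0 < r0
  /-- analyticity -/
  hT : ContDiffOn ℝ ω (fun p : ℝ × C(Icc l 1, ℝ) => T p.1 p.2) {p | |p.1| * ‖p.2‖ < r0}
  hXi : ContDiffOn ℝ ω (fun p : ℝ × C(Icc l 1, ℝ) => Xi p.1 p.2) {p | |p.1| * ‖p.2‖ < r0}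
  /-- `a² 𝒯(a) = ∫ √(a-b) Ξ(b) db` -/
  abel : ∀ ε q, |ε| * ‖q‖ < r0 → ∀ a : Icc l 1,
    (a : ℝ) ^ 2 * T ε q a = ∫ b in l..a, √(a - b) * Xi ε q (projIcc l 1 hl1.le b)
  /-- dilation covariance of `𝒯` -/
  cov : ∀ ε q, |ε| * ‖q‖ < r0 → q ⟨l, le_rfl, hl1.le⟩ = 0 → ∀ μ, 0 < μ → μ ≤ 1 →
    ∀ a : Icc l 1, T ε (dilOp hl1.le μ q) a = T ε q (projIcc l 1 hl1.le (μ * a))
  Xi_left : ∀ ε q, |ε| * ‖q‖ < r0 → Xi ε q ⟨l, le_rfl, hl1.le⟩ = 0
  Xi_zero : ∀ q (b : Icc l 1),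
    Xi 0 q b = 4 * q b * ∫ s in l..b, q (projIcc l 1 hl1.le s) * √s
  /-- causality -/
  causal : ∀ ε q q', |ε| * ‖q‖ < r0 → |ε| * ‖q'‖ < r0 → ∀ b : Icc l 1,
    (∀ x ≤ b, q x = q' x) → Xi ε q b = Xi ε q' b

namespace ASys

variable {l : ℝ} (A : ASys l)

lemma T_left {ε : ℝ} {q : C(Icc l 1, ℝ)} (h : |ε| * ‖q‖ < A.r0) :
    A.T ε q ⟨l, le_rfl, A.hl1.le⟩ = 0 := by
  have h1 := A.abel ε q h ⟨l, le_rfl, A.hl1.le⟩
  simp only [intervalIntegral.integral_same] at h1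
  have h2 : l ^ 2 ≠ 0 := (pow_pos A.hl0 2).ne'
  exact (mul_eq_zero.1 h1).resolve_left h2

lemma dil_dom {ε : ℝ} {q : C(Icc l 1, ℝ)} (h : |ε| * ‖q‖ < A.r0) {μ : ℝ} (hμ1 : μ ≤ 1) :
    |ε| * ‖dilOp A.hl1.le μ q‖ < A.r0 :=
  lt_of_le_of_lt (mul_le_mul_of_nonneg_left (norm_dilOp_le A.hl1.le hμ1 q) (abs_nonneg ε)) h

/-- covariance of `Ξ` -/
theorem covXi {ε : ℝ} {q : C(Icc l 1, ℝ)} (h : |ε| * ‖q‖ < A.r0)
    (hq : q ⟨l, le_rfl, A.hl1.le⟩ = 0) {μ : ℝ} (hμ0 : 0 < μ) (hμ1 : μ ≤ 1) :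
    A.Xi ε (dilOp A.hl1.le μ q) = μ⁻¹ • dilOp A.hl1.le μ (A.Xi ε q) := by
  have hl1 := A.hl1.le
  set Y := A.Xi ε q with hY
  have hYl : Y ⟨l, le_rfl, hl1⟩ = 0 := A.Xi_left ε q h
  have key := sqrt_kernel_ext A.hl1
    (F := fun b => A.Xi ε (dilOp hl1 μ q) (projIcc l 1 hl1 b))
    (G := fun b => (μ⁻¹ • dilOp hl1 μ Y) (projIcc l 1 hl1 b))
    (by fun_prop) (by fun_prop) ?_
  · ext b
    have := key b b.2
    simpa [projIcc_val] using this
  intro a ha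
  -- left hand side
  have e1 : ∫ b in l..a, A.Xi ε (dilOp hl1 μ q) (projIcc l 1 hl1 b) * √(a - b)
      = a ^ 2 * A.T ε q (projIcc l 1 hl1 (μ * a)) := by
    have h1 := A.abel ε (dilOp hl1 μ q) (A.dil_dom h hμ1) ⟨a, ha⟩
    rw [A.cov ε q h hq μ hμ0 hμ1 ⟨a, ha⟩] at h1
    simp only at h1
    rw [h1]
    congr 1; ext b; ring
  rw [e1]
  have ha0 : 0 < a := A.hl0.trans_le ha.1
  have hμa1 : μ * a ≤ 1 := by
    have := mul_le_mul hμ1 ha.2 ha0.le zero_le_one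
    linarith
  -- the function vanishing below `l`
  have hz : ∀ y ≤ l, Y (projIcc l 1 hl1 y) * √(μ * a - y) = 0 := by
    intro y hy
    rw [projIcc_of_le_left hl1 hy, hYl, zero_mul]
  have hcont : Continuous (fun y => Y (projIcc l 1 hl1 y) * √(μ * a - y)) := by fun_prop
  have hint : ∀ u v : ℝ, IntervalIntegrable (fun y => Y (projIcc l 1 hl1 y) * √(μ * a - y))
      volume u v := fun u v => hcont.intervalIntegrable u v
  -- value of T
  have e2 : (μ * a) ^ 2 * A.T ε q (projIcc l 1 hl1 (μ * a))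
      = ∫ y in l..(μ * a), Y (projIcc l 1 hl1 y) * √(μ * a - y) := by
    rcases le_total l (μ * a) with h1 | h1
    · rw [projIcc_of_mem hl1 ⟨h1, hμa1⟩]
      have h2 := A.abel ε q h ⟨μ * a, h1, hμa1⟩
      simp only at h2
      rw [h2]
      congr 1; ext b; ring
    · rw [projIcc_of_le_left hl1 h1, A.T_left h, mul_zero]
      rw [intervalIntegral.integral_congr (g := fun _ => 0)]
      · simp
      · intro y hy
        rw [uIcc_of_ge h1] at hy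
        exact hz y hy.2
  -- right hand side
  have e3 : ∫ b in l..a, (μ⁻¹ • dilOp hl1 μ Y) (projIcc l 1 hl1 b) * √(a - b)
      = ∫ b in l..a, (μ⁻¹ * (Y (projIcc l 1 hl1 (μ * b)) * √(μ * a - μ * b))) := by
    apply intervalIntegral.integral_congr
    intro b hb
    rw [uIcc_of_le ha.1] at hb
    beta_reduce
    rw [projIcc_of_mem hl1 ⟨hb.1, hb.2.trans ha.2⟩]
    simp only [ContinuousMap.smul_apply, dilOp_apply, smul_eq_mul]
    rw [← mul_sub, Real.sqrt_mul hμ0.le]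
    ring
  rw [e3, intervalIntegral.integral_const_mul,
    intervalIntegral.integral_comp_mul_left (fun y => Y (projIcc l 1 hl1 y) * √(μ * a - y)) hμ0.ne']
  have e4 : ∫ y in (μ * l)..(μ * a), Y (projIcc l 1 hl1 y) * √(μ * a - y)
      = ∫ y in l..(μ * a), Y (projIcc l 1 hl1 y) * √(μ * a - y) := by
    rw [← intervalIntegral.integral_add_adjacent_intervals (hint (μ * l) l) (hint l (μ * a))]
    rw [intervalIntegral.integral_congr (a := μ * l) (b := l) (g := fun _ => 0)]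
    · simp
    · intro y hy
      have : μ * l ≤ l := by nlinarith [A.hl0]
      rw [uIcc_of_le this] at hy
      exact hz y hy.2
  rw [e4, ← e2, smul_eq_mul]
  field_simp

/-- smooth cutoff: `1` on `[a1,a2]`, `0` outside `[b1,b2]` -/
lemma exists_cutoff {b1 a1 a2 b2 : ℝ} (h1 : b1 < a1) (h3 : a2 < b2) :
    ∃ χ : ℝ → ℝ, ContDiff ℝ ∞ χ ∧ (∀ a ∈ Icc a1 a2, χ a = 1) ∧ (∀ a, a ∉ Icc b1 b2 → χ a = 0) := by
  refine ⟨fun a => Real.smoothTransition ((a - b1) / (a1 - b1)) *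
    Real.smoothTransition ((b2 - a) / (b2 - a2)), ?_, ?_, ?_⟩
  · apply ContDiff.mul
    · exact Real.smoothTransition.contDiff.comp (by fun_prop)
    · exact Real.smoothTransition.contDiff.comp (by fun_prop)
  · intro a ha
    have e1 : 1 ≤ (a - b1) / (a1 - b1) := by
      rw [le_div_iff₀ (by linarith)]; linarith [ha.1]
    have e2 : 1 ≤ (b2 - a) / (b2 - a2) := by
      rw [le_div_iff₀ (by linarith)]; linarith [ha.2]
    simp only
    rw [Real.smoothTransition.one_of_one_le e1, Real.smoothTransition.one_of_one_le e2, one_mul]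
  · intro a ha
    simp only
    rw [mem_Icc, not_and_or, not_le, not_le] at ha
    rcases ha with ha | ha
    · rw [Real.smoothTransition.zero_of_nonpos, zero_mul]
      exact div_nonpos_of_nonpos_of_nonneg (by linarith) (by linarith)
    · rw [Real.smoothTransition.zero_of_nonpos (x := (b2 - a) / (b2 - a2)), mul_zero]
      exact div_nonpos_of_nonpos_of_nonneg (by linarith) (by linarith)

/-- covariance for global functions vanishing near `l`, evaluated at the right end point -/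
lemma cov_one {ε : ℝ} {Q : C(ℝ, ℝ)} (hQ0 : ∀ s ≤ l, Q s = 0) (h : |ε| * ‖resX l Q‖ < A.r0)
    (a : Icc l 1) :
    A.T ε (dilCurve l Q a) ⟨1, A.hl1.le, le_rfl⟩ = A.T ε (resX l Q) a := by
  have ha0 : 0 < (a : ℝ) := A.hl0.trans_le a.2.1
  rw [← dilOp_resX A.hl0.le A.hl1.le hQ0 a.2.2,
    A.cov ε (resX l Q) h (by rw [resX_apply]; exact hQ0 _ le_rfl) a ha0 a.2.2]
  simp only [mul_one]
  rw [projIcc_val]

/-- **Steps (9) and (10)**: existence and smoothness of the correction `δ`, given the solution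
operator of the implicit function theorem. -/
theorem exists_delta {lam1 b1 a1 a2 b2 κ0 : ℝ} {Q0 : C(ℝ, ℝ)} (hQ : ContDiff ℝ ∞ Q0)
    (hQ0 : ∀ s ≤ l, Q0 s = 0) (hlam : l < lam1) (hlb : lam1 ≤ b1) (hb1 : b1 < a1)
    (hb2 : a2 < b2) (hb21 : b2 < 1)
    (hbase : ∀ a : Icc l 1, b1 ≤ a → A.T 0 (resX l Q0) a = κ0)
    {S : ℝ × C(Icc l 1, ℝ) × C(Icc l 1, ℝ) → C(Icc l 1, ℝ)}
    {W : Set (ℝ × C(Icc l 1, ℝ) × C(Icc l 1, ℝ))} (hW : IsOpen W)
    (hWmem : ((0 : ℝ), resX l Q0, (0 : C(Icc l 1, ℝ))) ∈ W) (hS : ContDiffOn ℝ ∞ S W)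
    (hS0 : S ((0 : ℝ), resX l Q0, (0 : C(Icc l 1, ℝ))) = 0) {r : ℝ} (hr : 0 < r)
    (hsol : ∀ ε q ρ, (ε, q, ρ) ∈ W → (∀ x : Icc l 1, (x : ℝ) ≤ lam1 → ρ x = 0) →
      (∀ x : Icc l 1, (x : ℝ) ≤ lam1 → S (ε, q, ρ) x = 0) ∧
      A.Xi ε (q + S (ε, q, ρ)) - A.Xi ε q = ρ)
    (huniq : ∀ ε q ρ δ, (ε, q, ρ) ∈ W → (∀ x : Icc l 1, (x : ℝ) ≤ lam1 → δ x = 0) → ‖δ‖ < r →
      A.Xi ε (q + δ) - A.Xi ε q = ρ → δ = S (ε, q, ρ)) :
    ∃ ε0 > 0, ∀ ε, |ε| < ε0 → ∃ d : C(ℝ, ℝ), (∀ s ≤ lam1, d s = 0) ∧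
      ContDiffOn ℝ ∞ d (Iio 1) ∧ |ε| * ‖resX l (Q0 + d)‖ < A.r0 ∧
      ∀ a : Icc l 1, a1 ≤ a → a ≤ a2 → A.T ε (resX l (Q0 + d)) a = κ0 := by
  have hl0 := A.hl0
  have hl1 := A.hl1.le
  obtain ⟨χ, hχ, hχ1, hχ0⟩ := exists_cutoff (a2 := a2) hb1 hb2
  set N := ‖resX l Q0‖ with hN
  have hN0 : 0 ≤ N := norm_nonneg _
  set ε1 := A.r0 / (N + r + 1) with hε1
  have hε1pos : 0 < ε1 := div_pos A.hr0 (by linarith)
  have hdom : ∀ ε, |ε| < ε1 → ∀ q : C(Icc l 1, ℝ), ‖q‖ ≤ N + r → |ε| * ‖q‖ < A.r0 := by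
    intro ε hε q hq
    rw [hε1, lt_div_iff₀ (by linarith)] at hε
    have h1 : |ε| * ‖q‖ ≤ |ε| * (N + r + 1) :=
      mul_le_mul_of_nonneg_left (by linarith) (abs_nonneg ε)
    linarith
  have hdomQ : ∀ ε ∈ Ioo (-ε1) ε1, |ε| * ‖resX l Q0‖ < A.r0 := by
    intro ε hε
    exact hdom ε (abs_lt.2 hε) _ (by linarith)
  obtain ⟨ρ, hρs, hρ0, hρlim, hρint⟩ := exists_rho hl0 hl1
    (A.hT.of_le le_top) hQ hQ0 (fun ε h a => A.cov_one hQ0 h a) hχ
    (b1 := b1) (b2 := b2) (by linarith) hb21 hχ0 (κ0 := κ0) hbase hε1pos hdomQ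
    (fun a g hla hg => abel_inv hla hg)
  -- the curve of data tends to the base point
  have hdata : Tendsto (fun ε : ℝ => (ε, resX l Q0, resX l (ρ ε))) (𝓝 0)
      (𝓝 ((0 : ℝ), resX l Q0, (0 : C(Icc l 1, ℝ)))) :=
    tendsto_id.prodMk_nhds (tendsto_const_nhds.prodMk_nhds hρlim)
  have hev1 : ∀ᶠ ε in 𝓝 (0 : ℝ), (ε, resX l Q0, resX l (ρ ε)) ∈ W :=
    hdata (hW.mem_nhds hWmem)
  have hScont : ContinuousAt S ((0 : ℝ), resX l Q0, (0 : C(Icc l 1, ℝ))) :=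
    (hS.contDiffAt (hW.mem_nhds hWmem)).continuousAt
  have hev2 : ∀ᶠ ε in 𝓝 (0 : ℝ), ‖S (ε, resX l Q0, resX l (ρ ε))‖ < r := by
    have h1 : Tendsto (fun ε : ℝ => S (ε, resX l Q0, resX l (ρ ε))) (𝓝 0) (𝓝 0) := by
      have := hScont.tendsto.comp hdata
      rw [hS0] at this
      exact this
    have h2 := h1 (Metric.ball_mem_nhds (0 : C(Icc l 1, ℝ)) hr)
    filter_upwards [h2] with ε hε
    simpa using hε
  have hev3 : ∀ᶠ ε in 𝓝 (0 : ℝ), |ε| < ε1 := by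
    have := Ioo_mem_nhds (show -ε1 < 0 by linarith) hε1pos
    filter_upwards [this] with ε hε
    exact abs_lt.2 hε
  obtain ⟨ε0, hε0, hall⟩ := Metric.eventually_nhds_iff.1 (hev1.and (hev2.and hev3))
  refine ⟨ε0, hε0, ?_⟩
  intro ε hε
  obtain ⟨hεW, hεr, hε1'⟩ := hall (y := ε) (by simpa [Real.dist_eq] using hε)
  set q0 := resX l Q0 with hq0
  set ρX := resX l (ρ ε) with hρX
  have hρX0 : ∀ x : Icc l 1, (x : ℝ) ≤ lam1 → ρX x = 0 := fun x hx => by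
    rw [hρX, resX_apply]; exact hρ0 ε _ (hx.trans hlb)
  set δ := S (ε, q0, ρX) with hδ
  obtain ⟨hδ0, hδeq⟩ := hsol ε q0 ρX hεW hρX0
  rw [← hδ] at hδ0 hδeq
  have hδl : δ ⟨l, le_rfl, hl1⟩ = 0 := hδ0 _ hlam.le
  have hq0l : q0 ⟨l, le_rfl, hl1⟩ = 0 := hQ0 _ le_rfl
  have hdq : |ε| * ‖q0‖ < A.r0 := hdom ε hε1' _ (by linarith)
  have hdqδ : |ε| * ‖q0 + δ‖ < A.r0 := hdom ε hε1' _ (by
    have := norm_add_le q0 δ
    linarith)
  -- the extension of `δ`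
  let d : C(ℝ, ℝ) := ⟨fun s => δ (projIcc l 1 hl1 s), by fun_prop⟩
  have hresd : resX l (Q0 + d) = q0 + δ := by
    ext x
    show Q0 x + δ (projIcc l 1 hl1 x) = Q0 x + δ x
    rw [projIcc_val]
  refine ⟨d, ?_, ?_, ?_, ?_⟩
  · intro s hs
    apply hδ0
    rw [coe_projIcc]
    exact max_le hlam.le ((min_le_right _ _).trans hs)
  · -- smoothness
    have hnear : ∃ η > 0, η < 1 ∧ ∀ μ ∈ Ioo (1 - η) 1,
        (ε, dilCurve l Q0 μ, μ⁻¹ • dilCurve l (ρ ε) μ) ∈ W := by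
      have hc : ContinuousAt (fun μ : ℝ => (ε, dilCurve l Q0 μ, μ⁻¹ • dilCurve l (ρ ε) μ)) 1 := by
        have c1 : ContinuousAt (dilCurve l Q0) 1 :=
          ((dilCurve_contDiffOn hQ).contDiffAt (Ioi_mem_nhds one_pos)).continuousAt
        have c2 : ContinuousAt (dilCurve l (ρ ε)) 1 :=
          ((dilCurve_contDiffOn (hρs ε)).contDiffAt (Ioi_mem_nhds one_pos)).continuousAt
        have c3 : ContinuousAt (fun μ : ℝ => μ⁻¹) 1 := continuousAt_inv₀ one_ne_zero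
        exact continuousAt_const.prodMk (c1.prodMk (c3.smul c2))
      have hone : ∀ Q : C(ℝ, ℝ), dilCurve l Q 1 = resX l Q := by
        intro Q
        ext x
        simp
      have hval : (ε, dilCurve l Q0 1, (1 : ℝ)⁻¹ • dilCurve l (ρ ε) 1) ∈ W := by
        rw [hone, hone, inv_one, one_smul]
        exact hεW
      have := hc.preimage_mem_nhds (hW.mem_nhds hval)
      obtain ⟨η, hη, hball⟩ := Metric.mem_nhds_iff.1 this
      refine ⟨min η (1 / 2), lt_min hη (by norm_num),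
        lt_of_le_of_lt (min_le_right _ _) (by norm_num), ?_⟩
      intro μ hμ
      apply hball
      rw [Metric.mem_ball, Real.dist_eq, abs_lt]
      have := min_le_left η (1 / 2)
      constructor <;> linarith [hμ.1, hμ.2]
    obtain ⟨η, hη0, hη1, hηW⟩ := hnear
    have hopen : IsOpen {p : C(Icc l 1, ℝ) × C(Icc l 1, ℝ) | (ε, p.1, p.2) ∈ W} :=
      hW.preimage (by fun_prop)
    have hS' : ContDiffOn ℝ ∞ (fun p : C(Icc l 1, ℝ) × C(Icc l 1, ℝ) => S (ε, p.1, p.2))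
        {p | (ε, p.1, p.2) ∈ W} :=
      hS.comp (f := fun p : C(Icc l 1, ℝ) × C(Icc l 1, ℝ) => (ε, p.1, p.2))
        (contDiff_const.prodMk (contDiff_fst.prodMk contDiff_snd)).contDiffOn (fun p hp => hp)
    refine smooth_of_dilation hl0 hl1 hlam (Φ := fun q δ => A.Xi ε (q + δ) - A.Xi ε q)
      (S := fun p => S (ε, p.1, p.2)) (W := {p | (ε, p.1, p.2) ∈ W}) hS' hopen (r := r)
      (fun q ρ δ h1 h2 h3 h4 => huniq ε q ρ δ h1 h2 h3 h4) hQ (hρs ε) hQ0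
      (fun s hs => hρ0 ε s (by linarith)) hδ0 hεr hδeq ?_ hη0 hη1 hηW
    intro μ hμ0 hμ1
    rw [← dilOp_add, dilOp_sub, smul_sub]
    have h1 := A.covXi (ε := ε) (q := q0 + δ) hdqδ (by
      rw [ContinuousMap.add_apply, hq0l, hδl, add_zero]) hμ0 hμ1
    have h2 := A.covXi (ε := ε) (q := q0) hdq hq0l hμ0 hμ1
    rw [h1, h2]
  · rw [hresd]; exact hdqδ
  · intro a ha1 ha2
    rw [hresd]
    have h1 := A.abel ε (q0 + δ) hdqδ a
    have h2 := A.abel ε q0 hdq a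
    have h3 := hρint ε (abs_lt.1 hε1') a
    have h4 : ∫ b in l..a, √(a - b) * ρ ε b
        = (∫ b in l..a, √(a - b) * A.Xi ε (q0 + δ) (projIcc l 1 hl1 b))
          - ∫ b in l..a, √(a - b) * A.Xi ε q0 (projIcc l 1 hl1 b) := by
      rw [← intervalIntegral.integral_sub]
      · apply intervalIntegral.integral_congr
        intro b hb
        rw [uIcc_of_le a.2.1] at hb
        beta_reduce
        have hb' : b ∈ Icc l 1 := ⟨hb.1, hb.2.trans a.2.2⟩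
        have h5 := congrArg (fun f : C(Icc l 1, ℝ) => f ⟨b, hb'⟩) hδeq
        simp only [ContinuousMap.sub_apply] at h5
        rw [projIcc_of_mem hl1 hb', ← mul_sub, h5, hρX, resX_apply]
      · exact (by fun_prop : Continuous fun b => √(a - b) *
          A.Xi ε (q0 + δ) (projIcc l 1 hl1 b)).intervalIntegrable _ _
      · exact (by fun_prop : Continuous fun b => √(a - b) *
          A.Xi ε q0 (projIcc l 1 hl1 b)).intervalIntegrable _ _
    rw [h4, ← h1, ← h2, hχ1 a ⟨ha1, ha2⟩, one_mul] at h3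
    have ha0 : (a : ℝ) ^ 2 ≠ 0 := (pow_pos (hl0.trans_le a.2.1) 2).ne'
    have h6 : (a : ℝ) ^ 2 * A.T ε (q0 + δ) a = (a : ℝ) ^ 2 * κ0 := by linarith
    exact mul_left_cancel₀ ha0 h6

end ASys

end Pool.Agent.Unicorn
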