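import Mathlib
import Pool.Agent.Unicorn.B6c

/-!
# Unicorn, module B5: the implicit function theorem step

`ASys.exists_S`: the equation `Ξ(ε,q+δ) - Ξ(ε,q) = ρ` has, near `(0,q0,0)` and in the space `X_0`
of functions vanishing on `[l,λ1]`, a unique small solution `δ = S(ε,q,ρ)` and `S` is smooth.
-/

set_option autoImplicit false

open Set Topology Filter MeasureTheory
open scoped ContDiff

namespace Pool.Agent.Unicorn

open B6

namespace B5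

variable {l : ℝ}

/-- the space `X_0` of functions vanishing on `[l, λ1]` -/
def sub0 (l lam1 : ℝ) : Submodule ℝ C(Icc l 1, ℝ) where
  carrier := {f | ∀ x : Icc l 1, (x : ℝ) ≤ lam1 → f x = 0}
  add_mem' := by
    intro f g hf hg x hx
    rw [ContinuousMap.add_apply, hf x hx, hg x hx, add_zero]
  zero_mem' := fun x _ => rfl
  smul_mem' := by
    intro c f hf x hx
    rw [ContinuousMap.smul_apply, hf x hx, smul_zero]

lemma mem_sub0 {lam1 : ℝ} {f : C(Icc l 1, ℝ)} :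
    f ∈ sub0 l lam1 ↔ ∀ x : Icc l 1, (x : ℝ) ≤ lam1 → f x = 0 := Iff.rfl

lemma isClosed_sub0 (l lam1 : ℝ) : IsClosed (sub0 l lam1 : Set C(Icc l 1, ℝ)) := by
  have : (sub0 l lam1 : Set C(Icc l 1, ℝ)) =
      ⋂ x : Icc l 1, ⋂ _ : (x : ℝ) ≤ lam1, {f : C(Icc l 1, ℝ) | f x = 0} := by
    ext f
    simp [sub0]
  rw [this]
  refine isClosed_iInter fun x => isClosed_iInter fun _ => ?_
  exact isClosed_eq (ContinuousMap.evalCLM ℝ x).continuous continuous_const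

instance (lam1 : ℝ) : CompleteSpace (sub0 l lam1) :=
  (isClosed_sub0 l lam1).completeSpace_coe

/-- the projection onto `X_0` -/
noncomputable def proj0 {lam1 : ℝ} (h1 : l ≤ lam1) (h2 : lam1 ≤ 1) :
    C(Icc l 1, ℝ) →L[ℝ] sub0 l lam1 :=
  LinearMap.mkContinuous
    { toFun := fun g => ⟨⟨fun x => g (projIcc l 1 (h1.trans h2) (max x lam1)) - g ⟨lam1, h1, h2⟩,
        by fun_prop⟩, by
          intro x hx
          simp only [ContinuousMap.coe_mk]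
          rw [max_eq_right hx, projIcc_of_mem _ ⟨h1, h2⟩, sub_self]⟩
      map_add' := by
        intro f g
        ext x
        simp only [ContinuousMap.add_apply, Submodule.coe_add, ContinuousMap.coe_mk]
        ring
      map_smul' := by
        intro c f
        ext x
        simp only [ContinuousMap.smul_apply, smul_eq_mul, RingHom.id_apply, Submodule.coe_smul,
          ContinuousMap.coe_mk]
        ring } 2 (by
    intro g
    show ‖(⟨fun x => g (projIcc l 1 (h1.trans h2) (max x lam1)) - g ⟨lam1, h1, h2⟩,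
      by fun_prop⟩ : C(Icc l 1, ℝ))‖ ≤ 2 * ‖g‖
    rw [ContinuousMap.norm_le _ (by positivity)]
    intro x
    simp only [ContinuousMap.coe_mk]
    have a1 := g.norm_coe_le_norm (projIcc l 1 (h1.trans h2) (max x lam1))
    have a2 := g.norm_coe_le_norm ⟨lam1, h1, h2⟩
    calc _ ≤ ‖g (projIcc l 1 (h1.trans h2) (max x lam1))‖ + ‖g ⟨lam1, h1, h2⟩‖ := norm_sub_le _ _
      _ ≤ 2 * ‖g‖ := by linarith)

lemma proj0_apply {lam1 : ℝ} (h1 : l ≤ lam1) (h2 : lam1 ≤ 1) (g : C(Icc l 1, ℝ)) (x : Icc l 1) :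
    (proj0 h1 h2 g : C(Icc l 1, ℝ)) x
      = g (projIcc l 1 (h1.trans h2) (max x lam1)) - g ⟨lam1, h1, h2⟩ := rfl

lemma proj0_of_mem {lam1 : ℝ} (h1 : l ≤ lam1) (h2 : lam1 ≤ 1) {g : C(Icc l 1, ℝ)}
    (hg : g ∈ sub0 l lam1) : (proj0 h1 h2 g : C(Icc l 1, ℝ)) = g := by
  ext x
  rw [proj0_apply]
  have e1 : g ⟨lam1, h1, h2⟩ = 0 := hg _ le_rfl
  rw [e1, sub_zero]
  rcases le_total (x : ℝ) lam1 with h | h
  · rw [max_eq_right h, projIcc_of_mem _ ⟨h1, h2⟩, e1, hg x h]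
  · rw [max_eq_left h, projIcc_val]

/-- `𝔪[f](b) = ∫_l^b f √s ds` -/
noncomputable def mInt (hl1 : l ≤ 1) (f : C(Icc l 1, ℝ)) (b : ℝ) : ℝ :=
  ∫ s in l..b, f (projIcc l 1 hl1 s) * √s

lemma mInt_hasDerivAt (hl1 : l ≤ 1) (f : C(Icc l 1, ℝ)) (b : ℝ) :
    HasDerivAt (mInt hl1 f) (f (projIcc l 1 hl1 b) * √b) b := by
  have hc : Continuous fun s => f (projIcc l 1 hl1 s) * √s := by fun_prop
  exact intervalIntegral.integral_hasDerivAt_right (hc.intervalIntegrable _ _)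
    hc.stronglyMeasurable.stronglyMeasurableAtFilter hc.continuousAt

lemma mInt_continuous (hl1 : l ≤ 1) (f : C(Icc l 1, ℝ)) : Continuous (mInt hl1 f) :=
  continuous_iff_continuousAt.2 fun b => (mInt_hasDerivAt hl1 f b).continuousAt

lemma mInt_left (hl1 : l ≤ 1) (f : C(Icc l 1, ℝ)) : mInt hl1 f l = 0 := by
  unfold mInt; simp

/-- `𝔪` as a bounded operator -/
noncomputable def mOp (hl0 : 0 ≤ l) (hl1 : l ≤ 1) : C(Icc l 1, ℝ) →L[ℝ] C(Icc l 1, ℝ) :=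
  LinearMap.mkContinuous
    { toFun := fun f => ⟨fun b => mInt hl1 f b, (mInt_continuous hl1 f).comp continuous_subtype_val⟩
      map_add' := by
        intro f g
        ext b
        simp only [ContinuousMap.coe_mk, ContinuousMap.add_apply, mInt]
        rw [← intervalIntegral.integral_add]
        · congr 1; ext s; ring
        · exact (by fun_prop : Continuous fun s => f (projIcc l 1 hl1 s) * √s).intervalIntegrable _ _
        · exact (by fun_prop : Continuous fun s => g (projIcc l 1 hl1 s) * √s).intervalIntegrable _ _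
      map_smul' := by
        intro c f
        ext b
        simp only [ContinuousMap.coe_mk, ContinuousMap.smul_apply, mInt, smul_eq_mul,
          RingHom.id_apply]
        rw [← intervalIntegral.integral_const_mul]
        congr 1; ext s; ring } 1 (by
    intro f
    show ‖(⟨fun b => mInt hl1 f b, _⟩ : C(Icc l 1, ℝ))‖ ≤ 1 * ‖f‖
    rw [ContinuousMap.norm_le _ (by positivity)]
    intro b
    simp only [ContinuousMap.coe_mk, mInt]
    have h1 : ‖∫ s in l..b, f (projIcc l 1 hl1 s) * √s‖ ≤ ‖f‖ * |(b : ℝ) - l| := by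
      apply intervalIntegral.norm_integral_le_of_norm_le_const
      intro s hs
      rw [uIoc_of_le b.2.1] at hs
      rw [norm_mul]
      have h2 : ‖√s‖ ≤ 1 := by
        rw [Real.norm_eq_abs, abs_of_nonneg (Real.sqrt_nonneg _)]
        exact Real.sqrt_le_one.2 (hs.2.trans b.2.2)
      calc _ ≤ ‖f‖ * 1 := mul_le_mul (f.norm_coe_le_norm _) h2 (norm_nonneg _) (norm_nonneg _)
        _ = ‖f‖ := mul_one _
    have h3 : |(b : ℝ) - l| ≤ 1 := by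
      rw [abs_of_nonneg (by linarith [b.2.1])]
      linarith [b.2.2]
    calc _ ≤ ‖f‖ * |(b : ℝ) - l| := h1
      _ ≤ 1 * ‖f‖ := by
        rw [one_mul]
        exact mul_le_of_le_one_right (norm_nonneg _) h3)

lemma mOp_apply (hl0 : 0 ≤ l) (hl1 : l ≤ 1) (f : C(Icc l 1, ℝ)) (b : Icc l 1) :
    mOp hl0 hl1 f b = mInt hl1 f b := rfl

/-- the linearized operator `δ ↦ 4 (δ 𝔪0 + q0 𝔪_δ)` on `C([l,1])` -/
noncomputable def linOp (hl0 : 0 ≤ l) (hl1 : l ≤ 1) (q0 : C(Icc l 1, ℝ)) :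
    C(Icc l 1, ℝ) →L[ℝ] C(Icc l 1, ℝ) :=
  (4 : ℝ) • (ContinuousLinearMap.mul ℝ C(Icc l 1, ℝ) (mOp hl0 hl1 q0) +
    (ContinuousLinearMap.mul ℝ C(Icc l 1, ℝ) q0).comp (mOp hl0 hl1))

lemma linOp_apply (hl0 : 0 ≤ l) (hl1 : l ≤ 1) (q0 δ : C(Icc l 1, ℝ)) (b : Icc l 1) :
    linOp hl0 hl1 q0 δ b = 4 * (mInt hl1 q0 b * δ b + q0 b * mInt hl1 δ b) := rfl

lemma mInt_zero_of_mem (hl1 : l ≤ 1) {lam1 : ℝ} {δ : C(Icc l 1, ℝ)} (hδ : δ ∈ sub0 l lam1)
    {b : ℝ} (hb0 : l ≤ b) (hb : b ≤ lam1) : mInt hl1 δ b = 0 := by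
  unfold mInt
  rw [intervalIntegral.integral_congr (g := fun _ => 0)]
  · simp
  · intro s hs
    rw [uIcc_of_le hb0] at hs
    beta_reduce
    rw [hδ _ _, zero_mul]
    rw [coe_projIcc]
    exact max_le (hb0.trans hb) ((min_le_right _ _).trans (hs.2.trans hb))

lemma linOp_mem (hl0 : 0 ≤ l) (hl1 : l ≤ 1) {lam1 : ℝ} (q0 : C(Icc l 1, ℝ)) {δ : C(Icc l 1, ℝ)}
    (hδ : δ ∈ sub0 l lam1) : linOp hl0 hl1 q0 δ ∈ sub0 l lam1 := by
  intro x hx
  rw [linOp_apply, hδ x hx, mInt_zero_of_mem hl1 hδ x.2.1 hx]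
  ring

lemma linOp_inj (hl0 : 0 < l) (hl1 : l ≤ 1) {lam1 : ℝ} {q0 : C(Icc l 1, ℝ)}
    {m : ℝ} (hm : 0 < m) (hm0 : ∀ b : Icc l 1, lam1 ≤ b → m ≤ mInt hl1 q0 b)
    {δ : C(Icc l 1, ℝ)} (hδ : δ ∈ sub0 l lam1) (h : linOp hl0.le hl1 q0 δ = 0) : δ = 0 := by
  have hpt : ∀ b : Icc l 1, mInt hl1 q0 b * δ b + q0 b * mInt hl1 δ b = 0 := by
    intro b
    have := congrArg (fun f : C(Icc l 1, ℝ) => f b) h
    simp only [linOp_apply, ContinuousMap.zero_apply] at this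
    linarith
  have hprod : ∀ b ∈ Icc l 1, mInt hl1 δ b * mInt hl1 q0 b = 0 := by
    intro b hb
    have hd : ∀ s ∈ uIcc l b, HasDerivAt (fun s => mInt hl1 δ s * mInt hl1 q0 s) 0 s := by
      intro s hs
      rw [uIcc_of_le hb.1] at hs
      have hs' : s ∈ Icc l 1 := ⟨hs.1, hs.2.trans hb.2⟩
      have h1 := (mInt_hasDerivAt hl1 δ s).mul (mInt_hasDerivAt hl1 q0 s)
      refine h1.congr_deriv ?_
      have h2 := hpt ⟨s, hs'⟩
      simp only at h2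
      rw [projIcc_of_mem hl1 hs']
      linear_combination (√s) * h2
    have h3 := intervalIntegral.integral_eq_sub_of_hasDerivAt hd
      (continuous_const.intervalIntegrable _ _)
    simp only [intervalIntegral.integral_zero, mInt_left, zero_mul, sub_zero] at h3
    exact h3.symm
  ext x
  rcases le_total (x : ℝ) lam1 with hx | hx
  · exact hδ x hx
  · have h1 : 0 < mInt hl1 q0 x := lt_of_lt_of_le hm (hm0 x hx)
    have h2 : mInt hl1 δ x = 0 := (mul_eq_zero.1 (hprod x x.2)).resolve_right h1.ne'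
    have h3 := hpt x
    rw [h2, mul_zero, add_zero] at h3
    exact (mul_eq_zero.1 h3).resolve_left h1.ne'

lemma linOp_surj (hl0 : 0 < l) (hl1 : l ≤ 1) {lam1 : ℝ} (hlam : l ≤ lam1) {q0 : C(Icc l 1, ℝ)}
    {m : ℝ} (hm : 0 < m) (hm0 : ∀ b : Icc l 1, lam1 ≤ b → m ≤ mInt hl1 q0 b)
    {g : C(Icc l 1, ℝ)} (hg : g ∈ sub0 l lam1) :
    ∃ δ ∈ sub0 l lam1, linOp hl0.le hl1 q0 δ = g := by
  have hpos : ∀ b : ℝ, 0 < max (mInt hl1 q0 b) m := fun b => lt_max_of_lt_right hm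
  have hcq := mInt_continuous hl1 q0
  have hcg := mInt_continuous hl1 g
  let M : ℝ → ℝ := fun b => (mInt hl1 g b / 4) / max (mInt hl1 q0 b) m
  have hMc : Continuous M := by
    apply Continuous.div (by fun_prop) (by fun_prop)
    intro b; exact (hpos b).ne'
  let δ : C(Icc l 1, ℝ) := ⟨fun b => (g b / 4 - q0 b * M b) / max (mInt hl1 q0 b) m, by
    apply Continuous.div (by fun_prop) (by fun_prop)
    intro b; exact (hpos b).ne'⟩
  have hδap : ∀ b : Icc l 1, δ b = (g b / 4 - q0 b * M b) / max (mInt hl1 q0 b) m := fun b => rfl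
  have hM0 : ∀ b, l ≤ b → b ≤ lam1 → M b = 0 := by
    intro b h1 h2
    simp only [M]
    rw [mInt_zero_of_mem hl1 hg h1 h2]
    simp
  have hδ0 : δ ∈ sub0 l lam1 := by
    intro x hx
    rw [hδap, hg x hx, hM0 x x.2.1 hx]
    simp
  have hmax : ∀ b : ℝ, b ∈ Icc l 1 → lam1 ≤ b → max (mInt hl1 q0 b) m = mInt hl1 q0 b := by
    intro b hb h
    exact max_eq_left (hm0 ⟨b, hb⟩ h)
  -- the primitive of `δ √s` is `M`
  have hprim : ∀ b ∈ Icc l 1, mInt hl1 δ b = M b := by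
    intro b hb
    rcases le_total b lam1 with h | h
    · rw [mInt_zero_of_mem hl1 hδ0 hb.1 h, hM0 b hb.1 h]
    · have hlam1 : lam1 ∈ Icc l 1 := ⟨hlam, h.trans hb.2⟩
      have h1 : mInt hl1 δ b = ∫ s in lam1..b, δ (projIcc l 1 hl1 s) * √s := by
        have hc : Continuous fun s => δ (projIcc l 1 hl1 s) * √s := by fun_prop
        have h2 := intervalIntegral.integral_add_adjacent_intervals
          (hc.intervalIntegrable (μ := volume) l lam1) (hc.intervalIntegrable lam1 b)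
        have h3 : ∫ s in l..lam1, δ (projIcc l 1 hl1 s) * √s = 0 :=
          mInt_zero_of_mem hl1 hδ0 hlam le_rfl
        rw [h3, zero_add] at h2
        exact h2.symm
      rw [h1]
      -- fundamental theorem with derivative in the open interval
      have h2 : ∀ s ∈ Ioo lam1 b, HasDerivAt (fun s => mInt hl1 g s / 4 / mInt hl1 q0 s)
          (δ (projIcc l 1 hl1 s) * √s) s := by
        intro s hs
        have hs' : s ∈ Icc l 1 := ⟨hlam.trans hs.1.le, hs.2.le.trans hb.2⟩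
        have hq : 0 < mInt hl1 q0 s := lt_of_lt_of_le hm (hm0 ⟨s, hs'⟩ hs.1.le)
        have h3 := ((mInt_hasDerivAt hl1 g s).div_const 4).div (mInt_hasDerivAt hl1 q0 s) hq.ne'
        refine h3.congr_deriv ?_
        rw [projIcc_of_mem hl1 hs', hδap]
        simp only [M]
        rw [hmax s hs' hs.1.le]
        field_simp
      have h3 : ContinuousOn (fun s => mInt hl1 g s / 4 / mInt hl1 q0 s) (Icc lam1 b) := by
        apply ContinuousOn.div (by fun_prop) (by fun_prop)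
        intro s hs
        exact (lt_of_lt_of_le hm (hm0 ⟨s, hlam.trans hs.1, hs.2.trans hb.2⟩ hs.1)).ne'
      have hc : Continuous fun s => δ (projIcc l 1 hl1 s) * √s := by fun_prop
      have h4 := intervalIntegral.integral_eq_sub_of_hasDerivAt_of_le h h3 h2
        (hc.intervalIntegrable _ _)
      rw [h4, mInt_zero_of_mem hl1 hg hlam le_rfl]
      simp only [M]
      rw [hmax b hb h]
      simp
  refine ⟨δ, hδ0, ?_⟩
  ext b
  rw [linOp_apply, hprim b b.2]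
  rcases le_total (b : ℝ) lam1 with h | h
  · rw [hδ0 b h, hM0 b b.2.1 h, hg b h]; ring
  · have hq : 0 < mInt hl1 q0 b := lt_of_lt_of_le hm (hm0 b h)
    rw [hδap, hmax b b.2 h]
    field_simp
    ring

/-- the linearized operator on `X_0` -/
noncomputable def linOp0 (hl0 : 0 ≤ l) {lam1 : ℝ} (h1 : l ≤ lam1) (h2 : lam1 ≤ 1)
    (q0 : C(Icc l 1, ℝ)) : sub0 l lam1 →L[ℝ] sub0 l lam1 :=
  (proj0 h1 h2).comp ((linOp hl0 (h1.trans h2) q0).comp (sub0 l lam1).subtypeL)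

lemma linOp0_coe (hl0 : 0 ≤ l) {lam1 : ℝ} (h1 : l ≤ lam1) (h2 : lam1 ≤ 1)
    (q0 : C(Icc l 1, ℝ)) (δ : sub0 l lam1) :
    (linOp0 hl0 h1 h2 q0 δ : C(Icc l 1, ℝ)) = linOp hl0 (h1.trans h2) q0 δ := by
  show (proj0 h1 h2 (linOp hl0 (h1.trans h2) q0 δ) : C(Icc l 1, ℝ)) = _
  exact proj0_of_mem h1 h2 (linOp_mem hl0 _ q0 δ.2)

lemma isInvertible_of_bij {E : Type*} [NormedAddCommGroup E] [NormedSpace ℝ E] [CompleteSpace E]
    (f : E →L[ℝ] E) (hi : Function.Injective f) (hs : Function.Surjective f) :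
    f.IsInvertible :=
  ⟨ContinuousLinearEquiv.ofBijective f (LinearMap.ker_eq_bot.2 hi) (LinearMap.range_eq_top.2 hs),
    ContinuousLinearEquiv.coe_ofBijective _ _ _⟩

lemma linOp0_isInvertible (hl0 : 0 < l) {lam1 : ℝ} (h1 : l ≤ lam1) (h2 : lam1 ≤ 1)
    {q0 : C(Icc l 1, ℝ)} {m : ℝ} (hm : 0 < m)
    (hm0 : ∀ b : Icc l 1, lam1 ≤ b → m ≤ mInt (h1.trans h2) q0 b) :
    (linOp0 hl0.le h1 h2 q0).IsInvertible := by
  have hinj : Function.Injective (linOp0 hl0.le h1 h2 q0) := by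
    rw [injective_iff_map_eq_zero]
    intro δ hδ
    have h3 : linOp hl0.le (h1.trans h2) q0 δ = 0 := by
      rw [← linOp0_coe hl0.le h1 h2 q0 δ, hδ]
      rfl
    exact Subtype.ext (linOp_inj hl0 (h1.trans h2) hm hm0 δ.2 h3)
  have hsurj : Function.Surjective (linOp0 hl0.le h1 h2 q0) := by
    intro g
    obtain ⟨δ, hδ, h3⟩ := linOp_surj hl0 (h1.trans h2) h1 hm hm0 g.2
    refine ⟨⟨δ, hδ⟩, ?_⟩
    apply Subtype.ext
    have := linOp0_coe hl0.le h1 h2 q0 ⟨δ, hδ⟩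
    exact this.trans h3
  exact isInvertible_of_bij (E := sub0 l lam1) _ hinj hsurj

end B5

namespace ASys

open B5

variable {l : ℝ} (A : ASys l)

/-- `Ξ(0,·)` is the quadratic map `4 q 𝔪[q]` -/
lemma Xi_zero_eq : A.Xi 0 = fun q => (4 : ℝ) • (q * mOp A.hl0.le A.hl1.le q) := by
  funext q
  ext b
  rw [A.Xi_zero]
  simp only [ContinuousMap.smul_apply, ContinuousMap.mul_apply, smul_eq_mul, mOp_apply, mInt]
  ring

lemma Xi_zero_hasFDerivAt (q0 : C(Icc l 1, ℝ)) :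
    HasFDerivAt (A.Xi 0) (linOp A.hl0.le A.hl1.le q0) q0 := by
  rw [A.Xi_zero_eq]
  have h1 : HasFDerivAt (fun q : C(Icc l 1, ℝ) => q) (ContinuousLinearMap.id ℝ _) q0 :=
    hasFDerivAt_id q0
  have h2 : HasFDerivAt (fun q : C(Icc l 1, ℝ) => mOp A.hl0.le A.hl1.le q)
    (mOp A.hl0.le A.hl1.le) q0 := (mOp A.hl0.le A.hl1.le).hasFDerivAt
  have h3 := (h1.mul h2).const_smul (4 : ℝ)
  refine h3.congr_fderiv ?_
  ext δ b
  rw [linOp_apply]
  simp only [_root_.smul_apply, _root_.add_apply,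
    ContinuousLinearMap.id_apply, ContinuousMap.smul_apply, ContinuousMap.add_apply,
    smul_eq_mul, ContinuousMap.mul_apply, mOp_apply]
  ring

/-- the map to which the implicit function theorem is applied -/
noncomputable def ftF {lam1 : ℝ} (h1 : l ≤ lam1) (h2 : lam1 ≤ 1)
    (p : (ℝ × C(Icc l 1, ℝ) × C(Icc l 1, ℝ)) × sub0 l lam1) : sub0 l lam1 :=
  proj0 h1 h2 (A.Xi p.1.1 (p.1.2.1 + p.2) - A.Xi p.1.1 p.1.2.1 - p.1.2.2)

lemma isOpen_dom : IsOpen {p : ℝ × C(Icc l 1, ℝ) | |p.1| * ‖p.2‖ < A.r0} :=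
  isOpen_lt (by fun_prop) continuous_const

lemma ftF_contDiffAt {lam1 : ℝ} (h1 : l ≤ lam1) (h2 : lam1 ≤ 1) (q0 : C(Icc l 1, ℝ)) :
    ContDiffAt ℝ ω (A.ftF h1 h2) (((0 : ℝ), q0, (0 : C(Icc l 1, ℝ))), (0 : sub0 l lam1)) := by
  have hX : ∀ q : C(Icc l 1, ℝ), ContDiffAt ℝ ω (fun p : ℝ × C(Icc l 1, ℝ) => A.Xi p.1 p.2) (0, q) :=
    fun q => A.hXi.contDiffAt (A.isOpen_dom.mem_nhds (by
      show |(0 : ℝ)| * ‖q‖ < A.r0
      rw [abs_zero, zero_mul]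
      exact A.hr0))
  have hsub : ContDiff ℝ ω (fun p : (ℝ × C(Icc l 1, ℝ) × C(Icc l 1, ℝ)) × sub0 l lam1 =>
      (p.2 : C(Icc l 1, ℝ))) := by
    have := (ContinuousLinearMap.contDiff (n := ω) (sub0 l lam1).subtypeL).comp
      (contDiff_snd (𝕜 := ℝ) (E := ℝ × C(Icc l 1, ℝ) × C(Icc l 1, ℝ)) (F := sub0 l lam1) (n := ω))
    exact this
  have e1 : ContDiff ℝ ω (fun p : (ℝ × C(Icc l 1, ℝ) × C(Icc l 1, ℝ)) × sub0 l lam1 =>
      (p.1.1, p.1.2.1 + (p.2 : C(Icc l 1, ℝ)))) :=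
    (contDiff_fst.comp contDiff_fst).prodMk
      (((contDiff_fst.comp contDiff_snd).comp contDiff_fst).add hsub)
  have e2 : ContDiff ℝ ω (fun p : (ℝ × C(Icc l 1, ℝ) × C(Icc l 1, ℝ)) × sub0 l lam1 =>
      (p.1.1, p.1.2.1)) :=
    (contDiff_fst.comp contDiff_fst).prodMk ((contDiff_fst.comp contDiff_snd).comp contDiff_fst)
  have e3 : ContDiff ℝ ω (fun p : (ℝ × C(Icc l 1, ℝ) × C(Icc l 1, ℝ)) × sub0 l lam1 =>
      p.1.2.2) := (contDiff_snd.comp contDiff_snd).comp contDiff_fst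
  have g1 := ContDiffAt.fun_comp (g := fun p : ℝ × C(Icc l 1, ℝ) => A.Xi p.1 p.2)
    (f := fun p : (ℝ × C(Icc l 1, ℝ) × C(Icc l 1, ℝ)) × sub0 l lam1 =>
      (p.1.1, p.1.2.1 + (p.2 : C(Icc l 1, ℝ))))
    (((0 : ℝ), q0, (0 : C(Icc l 1, ℝ))), (0 : sub0 l lam1)) (hX _) e1.contDiffAt
  have g2 := ContDiffAt.fun_comp (g := fun p : ℝ × C(Icc l 1, ℝ) => A.Xi p.1 p.2)
    (f := fun p : (ℝ × C(Icc l 1, ℝ) × C(Icc l 1, ℝ)) × sub0 l lam1 => (p.1.1, p.1.2.1))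
    (((0 : ℝ), q0, (0 : C(Icc l 1, ℝ))), (0 : sub0 l lam1)) (hX _) e2.contDiffAt
  exact ContDiffAt.continuousLinearMap_comp (F := C(Icc l 1, ℝ)) (G := sub0 l lam1)
    (proj0 h1 h2) ((g1.sub g2).sub e3.contDiffAt)

lemma ftF_fderiv {lam1 : ℝ} (h1 : l ≤ lam1) (h2 : lam1 ≤ 1) (q0 : C(Icc l 1, ℝ)) :
    fderiv ℝ (A.ftF h1 h2) (((0 : ℝ), q0, (0 : C(Icc l 1, ℝ))), (0 : sub0 l lam1)) ∘L
      ContinuousLinearMap.inr ℝ (ℝ × C(Icc l 1, ℝ) × C(Icc l 1, ℝ)) (sub0 l lam1)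
      = linOp0 A.hl0.le h1 h2 q0 := by
  set u : (ℝ × C(Icc l 1, ℝ) × C(Icc l 1, ℝ)) × sub0 l lam1 :=
    (((0 : ℝ), q0, (0 : C(Icc l 1, ℝ))), (0 : sub0 l lam1)) with hu
  have hd : HasFDerivAt (A.ftF h1 h2) (fderiv ℝ (A.ftF h1 h2) u) u :=
    ((A.ftF_contDiffAt h1 h2 q0).differentiableAt (by simp)).hasFDerivAt
  have hinr : HasFDerivAt (fun δ : sub0 l lam1 =>
      ((((0 : ℝ), q0, (0 : C(Icc l 1, ℝ))), δ) : (ℝ × C(Icc l 1, ℝ) × C(Icc l 1, ℝ)) × sub0 l lam1))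
      (ContinuousLinearMap.inr ℝ (ℝ × C(Icc l 1, ℝ) × C(Icc l 1, ℝ)) (sub0 l lam1)) 0 :=
    hasFDerivAt_prodMk_right (𝕜 := ℝ) ((0 : ℝ), q0, (0 : C(Icc l 1, ℝ))) (0 : sub0 l lam1)
  have hcomp := HasFDerivAt.comp (𝕜 := ℝ) (E := sub0 l lam1)
    (F := (ℝ × C(Icc l 1, ℝ) × C(Icc l 1, ℝ)) × sub0 l lam1) (G := sub0 l lam1)
    (0 : sub0 l lam1) (g := A.ftF h1 h2) hd hinr
  have hdir : HasFDerivAt (fun δ : sub0 l lam1 =>
      A.ftF h1 h2 (((0 : ℝ), q0, (0 : C(Icc l 1, ℝ))), δ)) (linOp0 A.hl0.le h1 h2 q0) 0 := by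
    have k1' : HasFDerivAt (fun δ : sub0 l lam1 => (δ : C(Icc l 1, ℝ)))
        (sub0 l lam1).subtypeL 0 :=
      ContinuousLinearMap.hasFDerivAt (𝕜 := ℝ) (E := sub0 l lam1) (F := C(Icc l 1, ℝ))
        (sub0 l lam1).subtypeL
    have k1 : HasFDerivAt (fun δ : sub0 l lam1 => q0 + (δ : C(Icc l 1, ℝ)))
        (sub0 l lam1).subtypeL 0 := by
      have k1'' := HasFDerivAt.const_add (𝕜 := ℝ) (E := sub0 l lam1) (F := C(Icc l 1, ℝ))
        (f := fun δ : sub0 l lam1 => (δ : C(Icc l 1, ℝ))) (f' := (sub0 l lam1).subtypeL)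
        (x := (0 : sub0 l lam1)) q0 k1'
      exact k1''
    have k0 : HasFDerivAt (A.Xi 0) (linOp A.hl0.le A.hl1.le q0)
        (q0 + ((0 : sub0 l lam1) : C(Icc l 1, ℝ))) := by
      have := A.Xi_zero_hasFDerivAt q0
      simpa using this
    have k2 := HasFDerivAt.comp (𝕜 := ℝ) (E := sub0 l lam1) (F := C(Icc l 1, ℝ))
      (G := C(Icc l 1, ℝ)) (0 : sub0 l lam1) (g := A.Xi 0) k0 k1
    have k3 := (k2.sub_const (A.Xi 0 q0)).sub_const (0 : C(Icc l 1, ℝ))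
    exact HasFDerivAt.comp (𝕜 := ℝ) (E := sub0 l lam1) (F := C(Icc l 1, ℝ))
      (G := sub0 l lam1) (0 : sub0 l lam1) (g := proj0 h1 h2) (proj0 h1 h2).hasFDerivAt k3
  exact hcomp.unique hdir

/-- **Step (9), implicit function theorem** -/
theorem exists_S {q0 : C(Icc l 1, ℝ)} {lam1 m : ℝ} (h1 : l ≤ lam1) (h2 : lam1 ≤ 1) (hm : 0 < m)
    (hm0 : ∀ b : Icc l 1, lam1 ≤ b → m ≤ ∫ s in l..b, q0 (projIcc l 1 A.hl1.le s) * √s) :
    ∃ (S : ℝ × C(Icc l 1, ℝ) × C(Icc l 1, ℝ) → C(Icc l 1, ℝ))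
      (W : Set (ℝ × C(Icc l 1, ℝ) × C(Icc l 1, ℝ))) (r : ℝ),
      IsOpen W ∧ ((0 : ℝ), q0, (0 : C(Icc l 1, ℝ))) ∈ W ∧ ContDiffOn ℝ ∞ S W ∧
      S ((0 : ℝ), q0, (0 : C(Icc l 1, ℝ))) = 0 ∧ 0 < r ∧
      (∀ ε q ρ, (ε, q, ρ) ∈ W → (∀ x : Icc l 1, (x : ℝ) ≤ lam1 → ρ x = 0) →
        (∀ x : Icc l 1, (x : ℝ) ≤ lam1 → S (ε, q, ρ) x = 0) ∧
        A.Xi ε (q + S (ε, q, ρ)) - A.Xi ε q = ρ) ∧
      (∀ ε q ρ δ, (ε, q, ρ) ∈ W → (∀ x : Icc l 1, (x : ℝ) ≤ lam1 → δ x = 0) → ‖δ‖ < r →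
        A.Xi ε (q + δ) - A.Xi ε q = ρ → δ = S (ε, q, ρ)) := by
  set u : (ℝ × C(Icc l 1, ℝ) × C(Icc l 1, ℝ)) × sub0 l lam1 :=
    (((0 : ℝ), q0, (0 : C(Icc l 1, ℝ))), (0 : sub0 l lam1)) with hu
  have cdf := A.ftF_contDiffAt h1 h2 q0
  rw [← hu] at cdf
  have pn : (ω : WithTop ℕ∞) ≠ 0 := by simp
  have if₂ : (fderiv ℝ (A.ftF h1 h2) u ∘L
      ContinuousLinearMap.inr ℝ (ℝ × C(Icc l 1, ℝ) × C(Icc l 1, ℝ)) (sub0 l lam1)).IsInvertible := by
    rw [A.ftF_fderiv h1 h2 q0]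
    exact linOp0_isInvertible A.hl0 h1 h2 hm hm0
  have hFu : A.ftF h1 h2 u = 0 := by
    show proj0 h1 h2 (A.Xi 0 (q0 + ((0 : sub0 l lam1) : C(Icc l 1, ℝ))) - A.Xi 0 q0 - 0) = 0
    simp
  set S0 := cdf.implicitFunction pn if₂ with hS0
  have a1 : S0 u.1 = u.2 := cdf.implicitFunction_apply_self pn if₂
  have a2 : ∀ᶠ x in 𝓝 u.1, A.ftF h1 h2 (x, S0 x) = 0 := by
    have := cdf.eventually_apply_implicitFunction pn if₂
    rw [hFu] at this
    exact this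
  have a3 : ∀ᶠ v in 𝓝 u, A.ftF h1 h2 v = 0 ↔ S0 v.1 = v.2 := by
    have := cdf.eventually_apply_eq_iff_implicitFunction pn if₂
    rw [hFu] at this
    exact this
  have a4 : ContDiffAt ℝ ω S0 u.1 := cdf.contDiffAt_implicitFunction pn if₂
  have a5 : ∀ᶠ x in 𝓝 u.1, ContDiffAt ℝ ω S0 x := a4.eventually (by simp)
  have a6 : ∀ᶠ x in 𝓝 u.1, |x.1| * (‖x.2.1‖ + ‖(S0 x : C(Icc l 1, ℝ))‖) < A.r0 := by
    have hc : ContinuousAt (fun x : ℝ × C(Icc l 1, ℝ) × C(Icc l 1, ℝ) =>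
        |x.1| * (‖x.2.1‖ + ‖(S0 x : C(Icc l 1, ℝ))‖)) u.1 := by
      have c1 : ContinuousAt (fun x => ‖(S0 x : C(Icc l 1, ℝ))‖) u.1 :=
        (continuous_norm.comp continuous_subtype_val).continuousAt.comp a4.continuousAt
      have c2 : ContinuousAt (fun x : ℝ × C(Icc l 1, ℝ) × C(Icc l 1, ℝ) => |x.1|) u.1 :=
        (by fun_prop : Continuous fun x : ℝ × C(Icc l 1, ℝ) × C(Icc l 1, ℝ) => |x.1|).continuousAt
      have c3 : ContinuousAt (fun x : ℝ × C(Icc l 1, ℝ) × C(Icc l 1, ℝ) => ‖x.2.1‖) u.1 :=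
        (by fun_prop : Continuous fun x : ℝ × C(Icc l 1, ℝ) × C(Icc l 1, ℝ) =>
          ‖x.2.1‖).continuousAt
      exact c2.mul (c3.add c1)
    have h0 : |u.1.1| * (‖u.1.2.1‖ + ‖(S0 u.1 : C(Icc l 1, ℝ))‖) < A.r0 := by
      have : u.1.1 = 0 := rfl
      rw [this, abs_zero, zero_mul]
      exact A.hr0
    exact hc.eventually_lt continuousAt_const h0
  -- product neighbourhood for uniqueness
  have a7 : ∃ r > 0, ∀ᶠ x in 𝓝 u.1, ∀ δ : sub0 l lam1, ‖δ‖ < r →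
      (A.ftF h1 h2 (x, δ) = 0 ↔ S0 x = δ) := by
    rw [← Prod.mk.eta (p := u), nhds_prod_eq] at a3
    obtain ⟨pa, ha, pb, hb, hab⟩ := Filter.eventually_prod_iff.1 a3
    obtain ⟨r, hr, hball⟩ := Metric.eventually_nhds_iff.1 hb
    refine ⟨r, hr, ?_⟩
    filter_upwards [ha] with x hx δ hδ
    exact hab hx (hball (by rw [dist_eq_norm]; simpa [hu] using hδ))
  obtain ⟨r, hr, a7⟩ := a7
  obtain ⟨W, hWsub, hWo, hWu⟩ := eventually_nhds_iff.1 (a2.and (a5.and (a6.and a7)))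
  have hkey : ∀ ε q ρ, (ε, q, ρ) ∈ W → ∀ δ : sub0 l lam1, |ε| * (‖q‖ + ‖(δ : C(Icc l 1, ℝ))‖) < A.r0 →
      (∀ x : Icc l 1, (x : ℝ) ≤ lam1 → ρ x = 0) → A.ftF h1 h2 ((ε, q, ρ), δ) = 0 →
      A.Xi ε (q + δ) - A.Xi ε q = ρ := by
    intro ε q ρ hW δ hdom hρ hF
    have hq : |ε| * ‖q‖ < A.r0 := lt_of_le_of_lt
      (mul_le_mul_of_nonneg_left (by linarith [norm_nonneg (δ : C(Icc l 1, ℝ))]) (abs_nonneg ε)) hdom
    have hqδ : |ε| * ‖q + (δ : C(Icc l 1, ℝ))‖ < A.r0 := lt_of_le_of_lt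
      (mul_le_mul_of_nonneg_left (norm_add_le _ _) (abs_nonneg ε)) hdom
    have hmem : A.Xi ε (q + δ) - A.Xi ε q - ρ ∈ sub0 l lam1 := by
      intro x hx
      rw [ContinuousMap.sub_apply, ContinuousMap.sub_apply, hρ x hx, sub_zero,
        A.causal ε (q + δ) q hqδ hq x (fun y hy => ?_), sub_self]
      rw [ContinuousMap.add_apply, δ.2 y (le_trans hy hx), add_zero]
    have h3 := proj0_of_mem h1 h2 hmem
    have h4 : (proj0 h1 h2 (A.Xi ε (q + δ) - A.Xi ε q - ρ) : C(Icc l 1, ℝ)) = 0 := by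
      have : proj0 h1 h2 (A.Xi ε (q + δ) - A.Xi ε q - ρ) = 0 := hF
      rw [this]; rfl
    rw [h4] at h3
    exact sub_eq_zero.1 h3.symm
  refine ⟨fun p => (S0 p : C(Icc l 1, ℝ)), W, r, hWo, hWu, ?_, ?_, hr, ?_, ?_⟩
  · intro x hx
    have := (hWsub x hx).2.1
    have h3 : ContDiffAt ℝ ω ((sub0 l lam1).subtypeL ∘ S0) x :=
      ContDiffAt.continuousLinearMap_comp (sub0 l lam1).subtypeL this
    exact (h3.of_le le_top).contDiffWithinAt
  · show (S0 u.1 : C(Icc l 1, ℝ)) = 0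
    rw [a1]
    rfl
  · intro ε q ρ hW hρ
    obtain ⟨b1, b2, b3, b4⟩ := hWsub _ hW
    exact ⟨(S0 (ε, q, ρ)).2, hkey ε q ρ hW (S0 (ε, q, ρ)) b3 hρ b1⟩
  · intro ε q ρ δ hW hδ hδr heq
    obtain ⟨b1, b2, b3, b4⟩ := hWsub _ hW
    have h3 := (b4 ⟨δ, hδ⟩ hδr).1 (by
      show proj0 h1 h2 (A.Xi ε (q + δ) - A.Xi ε q - ρ) = 0
      rw [heq, sub_self, map_zero])
    show δ = (S0 (ε, q, ρ) : C(Icc l 1, ℝ))
    rw [h3]

end ASys

end Pool.Agent.Unicorn
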