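import Mathlib

/-!
# Unicorn project (MP_9f67e3_gt, frozen negation S13672): interface definitions

See `BLUEPRINT.md`.  Three parts:
* Part A (geometry):  `IsoFamily → S13672`.
* Part C (ODE):       `IsoQ → IsoFamily`.
* Part B (analysis):  `IsoQ` exists.
-/

set_option autoImplicit false

open Set MeasureTheory intervalIntegral
open scoped ContDiff

namespace Pool.Agent.Unicorn

/-- An isochronous family of solutions of `y'' + y + f(y') = 0` (smooth in the parameter), with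
`f'' ≠ 0` at a visited slope. -/
structure IsoFamily where
  f : ℝ → ℝ
  L : ℝ
  t1 : ℝ
  t2 : ℝ
  y : ℝ → ℝ → ℝ
  hL : 0 < L
  ht : t1 < t2
  hf : ContDiff ℝ ∞ f
  /-- joint smoothness in `(t, θ)` -/
  hy : ContDiffOn ℝ ∞ (fun p : ℝ × ℝ => y p.1 p.2) (Ioo t1 t2 ×ˢ univ)
  per : ∀ t ∈ Ioo t1 t2, ∀ θ, y t (θ + L) = y t θ
  ode : ∀ t ∈ Ioo t1 t2, ∀ θ, deriv (deriv (y t)) θ + y t θ + f (deriv (y t) θ) = 0
  /-- the curve `(y_t, -y_θ)` turns counterclockwise around the origin -/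
  jac : ∀ t ∈ Ioo t1 t2, ∀ θ,
    0 < deriv (y t) θ * deriv (fun s => deriv (y s) θ) t
        - deriv (fun s => y s θ) t * deriv (deriv (y t)) θ
  /-- `y_θ` has at most two zeros per period -/
  zeros : ∀ t ∈ Ioo t1 t2, ∃ θ₀, ∀ θ ∈ Ico θ₀ (θ₀ + L),
    deriv (y t) θ = 0 → θ = θ₀ ∨ θ = θ₀ + L / 2
  nondeg : ∃ t ∈ Ioo t1 t2, ∃ θ,
    deriv (deriv f) (deriv (y t) θ) ≠ 0 ∧ deriv (deriv (y t)) θ ≠ 0

/-- The analytic core: `q` smooth, not identically zero on the visited range, such that the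
half period of the orbit with amplitude `√a` of `c'' = 2 c q(c²) c' - c` is the same for all
`a ∈ (a1,a2)`.  `Ep`/`Em` are the energies `c² + c'²` as functions of `s = c²` along the
upward/downward branch. -/
structure IsoQ where
  q : ℝ → ℝ
  a1 : ℝ
  a2 : ℝ
  κ : ℝ
  h1 : 0 < a1
  h12 : a1 < a2
  hq : ContDiff ℝ ∞ q
  /-- `q` vanishes near `0` -/
  hq0 : ∃ l > 0, ∀ s ≤ l, q s = 0
  /-- nontrivial on the visited range -/
  hne : ∃ s ∈ Ioo 0 a2, q s ≠ 0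
  energies : ∀ a ∈ Ioo a1 a2, ∃ Ep Em : ℝ → ℝ,
    ContinuousOn Ep (Icc 0 a) ∧ ContinuousOn Em (Icc 0 a) ∧
    (∀ s ∈ Ico 0 a, s < Ep s) ∧ (∀ s ∈ Ico 0 a, s < Em s) ∧
    (∀ s ∈ Icc 0 a, Ep s = a - 2 * ∫ r in s..a, q r * √(Ep r - r)) ∧
    (∀ s ∈ Icc 0 a, Em s = a + 2 * ∫ r in s..a, q r * √(Em r - r)) ∧
    (∫ s in (0:ℝ)..a, q s * √s / Ep s) - (∫ s in (0:ℝ)..a, q s * √s / Em s) = κ

end Pool.Agent.Unicorn
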