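import Mathlib
import Pool.Agent.Unicorn.Defs
import Pool.Agent.Unicorn.BaseDefs
import Pool.Agent.Unicorn.B2U
import Pool.Agent.Unicorn.B5

/-!
# Unicorn, module B11: from the analytic system and the base solution to `IsoQ`

* `ESys l` : the properties of `𝒯`, `Ξ` and of the energies which B0-B3 provide.
* `ESys.toASys` : dilation covariance of `𝒯` (derived from uniqueness of the energies).
* `isoQ_of` : `ESys B.l` and the base solution `B` give `IsoQ`.
-/

set_option autoImplicit false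

open Set Topology Filter MeasureTheory
open scoped ContDiff

namespace Pool.Agent.Unicorn

open B6

/-- the concrete analytic system -/
structure ESys (l : ℝ) where
  hl0 : 0 < l
  hl1 : l < 1
  T : ℝ → C(Icc l 1, ℝ) → C(Icc l 1, ℝ)
  Xi : ℝ → C(Icc l 1, ℝ) → C(Icc l 1, ℝ)
  /-- `E q s a` is the energy `e(s;a,a)` for the function `q` -/
  E : C(Icc l 1, ℝ) → ℝ → ℝ → ℝ
  r0 : ℝ
  hr0 : 0 < r0
  hT : ContDiffOn ℝ ω (fun p : ℝ × C(Icc l 1, ℝ) => T p.1 p.2) {p | |p.1| * ‖p.2‖ < r0}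
  hXi : ContDiffOn ℝ ω (fun p : ℝ × C(Icc l 1, ℝ) => Xi p.1 p.2) {p | |p.1| * ‖p.2‖ < r0}
  abel : ∀ ε q, |ε| * ‖q‖ < r0 → ∀ a : Icc l 1,
    (a : ℝ) ^ 2 * T ε q a = ∫ b in l..a, √(a - b) * Xi ε q (projIcc l 1 hl1.le b)
  Xi_left : ∀ ε q, |ε| * ‖q‖ < r0 → Xi ε q ⟨l, le_rfl, hl1.le⟩ = 0
  Xi_zero : ∀ q (b : Icc l 1),
    Xi 0 q b = 4 * q b * ∫ s in l..b, q (projIcc l 1 hl1.le s) * √s
  causal : ∀ ε q q', |ε| * ‖q‖ < r0 → |ε| * ‖q'‖ < r0 → ∀ b : Icc l 1,
    (∀ x ≤ b, q x = q' x) → Xi ε q b = Xi ε q' b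
  E_cont : ∀ q, ‖q‖ < r0 → ∀ a ∈ Icc l 1, ContinuousOn (fun s => E q s a) (Icc l a)
  E_gt : ∀ q, ‖q‖ < r0 → ∀ a ∈ Icc l 1, ∀ s ∈ Ico l a, s < E q s a
  E_eq : ∀ q, ‖q‖ < r0 → ∀ a ∈ Icc l 1, ∀ s ∈ Icc l a,
    E q s a = a - 2 * ∫ r in s..a, q (projIcc l 1 hl1.le r) * √(E q r a - r)
  T_eq : ∀ (ε : ℝ) (q : C(Icc l 1, ℝ)), ε ≠ 0 → |ε| * ‖q‖ < r0 → ∀ a : Icc l 1,
    ε ^ 2 * T ε q a
      = (∫ s in l..a, (ε • q) (projIcc l 1 hl1.le s) * √s / E (ε • q) s a)
        + ∫ s in l..a, (-(ε • q)) (projIcc l 1 hl1.le s) * √s / E (-(ε • q)) s a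

/-- dilation covariance of the period integral -/
theorem phi_cov {l μ a : ℝ} (hl0 : 0 < l) (hμ0 : 0 < μ) (hμ1 : μ ≤ 1) (ha : l ≤ μ * a)
    {q q' e e' : ℝ → ℝ}
    (hqq' : ∀ s ∈ Icc l a, l ≤ μ * s → q' s = √μ * q (μ * s))
    (hq'0 : ∀ s ∈ Icc l a, μ * s ≤ l → q' s = 0)
    (he : ContinuousOn e (Icc l (μ * a))) (hep : ∀ s ∈ Ico l (μ * a), s < e s)
    (heq : ∀ s ∈ Icc l (μ * a), e s = μ * a - 2 * ∫ r in s..(μ * a), q r * √(e r - r))
    (he' : ContinuousOn e' (Icc l a)) (hep' : ∀ s ∈ Ico l a, s < e' s)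
    (heq' : ∀ s ∈ Icc l a, e' s = a - 2 * ∫ r in s..a, q' r * √(e' r - r))
    (hq'c : ContinuousOn q' (Icc l a)) :
    ∫ s in l..a, q' s * √s / e' s = ∫ s in l..(μ * a), q s * √s / e s := by
  have hla : l / μ ≤ a := by
    rw [div_le_iff₀ hμ0]; linarith
  have hll : l ≤ l / μ := by
    rw [le_div_iff₀ hμ0]
    nlinarith
  -- the scaled energy
  have hmaps : ∀ s ∈ Icc (l / μ) a, μ * s ∈ Icc l (μ * a) := by
    intro s hs
    refine ⟨?_, mul_le_mul_of_nonneg_left hs.2 hμ0.le⟩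
    have := (div_le_iff₀ hμ0).1 hs.1
    linarith
  have key : ∀ s ∈ Icc (l / μ) a, e' s = μ⁻¹ * e (μ * s) := by
    refine B2.unique_energy (c := 1) (s₀ := l / μ) (lam := a) (a := a) (q := q')
      (e1 := e') (e2 := fun s => μ⁻¹ * e (μ * s)) (hq'c.mono (Icc_subset_Icc_left hll))
      (he'.mono (Icc_subset_Icc_left hll)) ?_ le_rfl ?_ ?_ ?_ ?_
    · refine ContinuousOn.mul continuousOn_const (he.comp (by fun_prop) hmaps)
    · intro s hs; exact hep' s ⟨hll.trans hs.1, hs.2⟩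
    · intro s hs
      have h1 : μ * s < e (μ * s) := hep (μ * s)
        ⟨(hmaps s ⟨hs.1, hs.2.le⟩).1, mul_lt_mul_of_pos_left hs.2 hμ0⟩
      rw [lt_inv_mul_iff₀ hμ0]
      exact h1
    · intro s hs
      rw [heq' s ⟨hll.trans hs.1, hs.2⟩, mul_one]
    · intro s hs
      have h1 := heq (μ * s) (hmaps s hs)
      have h2 : ∫ r in (μ * s)..(μ * a), q r * √(e r - r)
          = μ * ∫ r in s..a, q (μ * r) * √(e (μ * r) - μ * r) := by
        have := intervalIntegral.integral_comp_mul_left (a := s) (b := a)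
          (fun r => q r * √(e r - r)) hμ0.ne'
        rw [this, smul_eq_mul, mul_inv_cancel_left₀ hμ0.ne']
      have h3 : ∫ r in s..a, q' r * √(μ⁻¹ * e (μ * r) - r)
          = ∫ r in s..a, q (μ * r) * √(e (μ * r) - μ * r) := by
        apply intervalIntegral.integral_congr
        intro r hr
        rw [uIcc_of_le hs.2] at hr
        beta_reduce
        have hr' : r ∈ Icc (l / μ) a := ⟨hs.1.trans hr.1, hr.2⟩
        rw [hqq' r ⟨hll.trans hr'.1, hr'.2⟩ (hmaps r hr').1]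
        have e1 : e (μ * r) - μ * r = μ * (μ⁻¹ * e (μ * r) - r) := by field_simp
        rw [e1, Real.sqrt_mul hμ0.le]
        ring
      rw [h1, h2, h3]
      field_simp
  -- split the integral
  have hsplit : ∫ s in l..a, q' s * √s / e' s = ∫ s in (l / μ)..a, q' s * √s / e' s := by
    have hpos : ∀ s ∈ Icc l a, e' s ≠ 0 := by
      intro s hs
      rcases eq_or_lt_of_le hs.2 with h | h
      · have := heq' s hs
        rw [h, intervalIntegral.integral_same] at this
        rw [h]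
        have h2 : 0 < a := hl0.trans_le (hs.1.trans hs.2)
        linarith
      · exact (hl0.trans_le (hs.1.trans (hep' s ⟨hs.1, h⟩).le)).ne'
    have hc : ContinuousOn (fun s => q' s * √s / e' s) (Icc l a) :=
      (hq'c.mul (by fun_prop)).div he' hpos
    have hi1 : IntervalIntegrable (fun s => q' s * √s / e' s) volume l (l / μ) :=
      (hc.mono (by rw [uIcc_of_le hll]; exact Icc_subset_Icc_right hla)).intervalIntegrable
    have hi2 : IntervalIntegrable (fun s => q' s * √s / e' s) volume (l / μ) a :=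
      (hc.mono (by rw [uIcc_of_le hla]; exact Icc_subset_Icc_left hll)).intervalIntegrable
    rw [← intervalIntegral.integral_add_adjacent_intervals hi1 hi2]
    rw [intervalIntegral.integral_congr (a := l) (b := l / μ) (g := fun _ => 0)]
    · simp
    · intro s hs
      rw [uIcc_of_le hll] at hs
      beta_reduce
      have : μ * s ≤ l := by
        have := (le_div_iff₀ hμ0).1 hs.2
        linarith
      rw [hq'0 s ⟨hs.1, hs.2.trans hla⟩ this]
      simp
  rw [hsplit]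
  have h4 : ∫ s in (l / μ)..a, q' s * √s / e' s
      = ∫ s in (l / μ)..a, μ * (q (μ * s) * √(μ * s) / e (μ * s)) := by
    apply intervalIntegral.integral_congr
    intro s hs
    rw [uIcc_of_le hla] at hs
    beta_reduce
    rw [key s hs, hqq' s ⟨hll.trans hs.1, hs.2⟩ (hmaps s hs).1, Real.sqrt_mul hμ0.le]
    by_cases h : e (μ * s) = 0
    · rw [h]; simp
    · field_simp
  rw [h4, intervalIntegral.integral_const_mul,
    intervalIntegral.integral_comp_mul_left (fun s => q s * √s / e s) hμ0.ne', smul_eq_mul,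
    mul_inv_cancel_left₀ hμ0.ne']
  have : μ * (l / μ) = l := by field_simp
  rw [this]

namespace ESys

variable {l : ℝ} (A : ESys l)

/-- the period integral -/
noncomputable def phi (q : C(Icc l 1, ℝ)) (a : ℝ) : ℝ :=
  ∫ s in l..a, q (projIcc l 1 A.hl1.le s) * √s / A.E q s a

lemma phi_left (q : C(Icc l 1, ℝ)) : A.phi q l = 0 := by
  unfold phi; simp

lemma phi_dil {q : C(Icc l 1, ℝ)} (hq : ‖q‖ < A.r0) (hql : q ⟨l, le_rfl, A.hl1.le⟩ = 0) {μ : ℝ}
    (hμ0 : 0 < μ) (hμ1 : μ ≤ 1) (a : Icc l 1) :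
    A.phi (dilOp A.hl1.le μ q) a = A.phi q (projIcc l 1 A.hl1.le (μ * a)) := by
  have hl1 := A.hl1.le
  have ha0 : 0 < (a : ℝ) := A.hl0.trans_le a.2.1
  have hμa1 : μ * a ≤ 1 := by
    have := mul_le_mul hμ1 a.2.2 ha0.le zero_le_one
    linarith
  have hqd : ‖dilOp hl1 μ q‖ < A.r0 := (norm_dilOp_le hl1 hμ1 q).trans_lt hq
  have hval : ∀ s ∈ Icc l (a : ℝ), l ≤ μ * s →
      (dilOp hl1 μ q) (projIcc l 1 hl1 s) = √μ * q (projIcc l 1 hl1 (μ * s)) := by
    intro s hs _
    rw [dilOp_apply, projIcc_of_mem hl1 ⟨hs.1, hs.2.trans a.2.2⟩]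
  have hval0 : ∀ s ∈ Icc l (a : ℝ), μ * s ≤ l →
      (dilOp hl1 μ q) (projIcc l 1 hl1 s) = 0 := by
    intro s hs h
    rw [dilOp_apply, projIcc_of_mem hl1 ⟨hs.1, hs.2.trans a.2.2⟩]
    simp only
    rw [projIcc_of_le_left hl1 h, hql, mul_zero]
  rcases le_total l (μ * a) with h | h
  · rw [projIcc_of_mem hl1 ⟨h, hμa1⟩]
    exact phi_cov A.hl0 hμ0 hμ1 h
      (q := fun s => q (projIcc l 1 hl1 s)) (q' := fun s => (dilOp hl1 μ q) (projIcc l 1 hl1 s))
      (e := fun s => A.E q s (μ * a)) (e' := fun s => A.E (dilOp hl1 μ q) s a)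
      hval hval0 (A.E_cont q hq _ ⟨h, hμa1⟩) (A.E_gt q hq _ ⟨h, hμa1⟩)
      (A.E_eq q hq _ ⟨h, hμa1⟩) (A.E_cont _ hqd _ a.2) (A.E_gt _ hqd _ a.2)
      (A.E_eq _ hqd _ a.2) (by fun_prop)
  · rw [projIcc_of_le_left hl1 h]
    show A.phi (dilOp hl1 μ q) a = A.phi q l
    rw [A.phi_left]
    unfold phi
    rw [intervalIntegral.integral_congr (g := fun _ => 0)]
    · simp
    · intro s hs
      rw [uIcc_of_le a.2.1] at hs
      beta_reduce
      rw [hval0 s hs ((mul_le_mul_of_nonneg_left hs.2 hμ0.le).trans h)]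
      simp

/-- dilation covariance of `𝒯` -/
theorem cov {ε : ℝ} {q : C(Icc l 1, ℝ)} (h : |ε| * ‖q‖ < A.r0)
    (hql : q ⟨l, le_rfl, A.hl1.le⟩ = 0) {μ : ℝ} (hμ0 : 0 < μ) (hμ1 : μ ≤ 1) (a : Icc l 1) :
    A.T ε (dilOp A.hl1.le μ q) a = A.T ε q (projIcc l 1 A.hl1.le (μ * a)) := by
  have hl1 := A.hl1.le
  -- first the case `ε ≠ 0`
  have hne : ∀ ε : ℝ, ε ≠ 0 → |ε| * ‖q‖ < A.r0 →
      A.T ε (dilOp hl1 μ q) a = A.T ε q (projIcc l 1 hl1 (μ * a)) := by
    intro ε hε h
    have hd : |ε| * ‖dilOp hl1 μ q‖ < A.r0 :=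
      lt_of_le_of_lt (mul_le_mul_of_nonneg_left (norm_dilOp_le hl1 hμ1 q) (abs_nonneg ε)) h
    have h1 := A.T_eq ε (dilOp hl1 μ q) hε hd a
    have h2 := A.T_eq ε q hε h (projIcc l 1 hl1 (μ * a))
    have hn : ‖ε • q‖ < A.r0 := by rw [norm_smul, Real.norm_eq_abs]; exact h
    have hn' : ‖-(ε • q)‖ < A.r0 := by rw [norm_neg]; exact hn
    have e1 : ε • dilOp hl1 μ q = dilOp hl1 μ (ε • q) := (dilOp_smul hl1 μ ε q).symm
    have e2 : -(ε • dilOp hl1 μ q) = dilOp hl1 μ (-(ε • q)) := by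
      rw [e1]
      ext x
      simp
    have p1 := A.phi_dil hn (by rw [ContinuousMap.smul_apply, hql, smul_zero]) hμ0 hμ1 a
    have p2 := A.phi_dil hn' (by
      rw [ContinuousMap.neg_apply, ContinuousMap.smul_apply, hql, smul_zero, neg_zero]) hμ0 hμ1 a
    rw [← e1] at p1
    rw [← e2] at p2
    have h3 : ε ^ 2 * A.T ε (dilOp hl1 μ q) a
        = ε ^ 2 * A.T ε q (projIcc l 1 hl1 (μ * a)) := by
      rw [h1, h2]
      exact congrArg₂ (· + ·) p1 p2
    exact mul_left_cancel₀ (pow_ne_zero 2 hε) h3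
  by_cases hε : ε = 0
  · subst hε
    -- continuity in `ε`
    have hopen : IsOpen {p : ℝ × C(Icc l 1, ℝ) | |p.1| * ‖p.2‖ < A.r0} :=
      isOpen_lt (by fun_prop) continuous_const
    have hc : ∀ (r : C(Icc l 1, ℝ)) (x : Icc l 1), ContinuousAt (fun ε : ℝ => A.T ε r x) 0 := by
      intro r x
      have h1 : ContinuousAt (fun p : ℝ × C(Icc l 1, ℝ) => A.T p.1 p.2) (0, r) :=
        (A.hT.contDiffAt (hopen.mem_nhds (by
          show |(0 : ℝ)| * ‖r‖ < A.r0
          rw [abs_zero, zero_mul]; exact A.hr0))).continuousAt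
      have h2 : ContinuousAt (fun ε : ℝ => ((ε, r) : ℝ × C(Icc l 1, ℝ))) 0 := by fun_prop
      have h3 : ContinuousAt (fun ε : ℝ => A.T ε r) 0 :=
        ContinuousAt.comp (g := fun p : ℝ × C(Icc l 1, ℝ) => A.T p.1 p.2)
          (f := fun ε : ℝ => ((ε, r) : ℝ × C(Icc l 1, ℝ))) h1 h2
      exact ContinuousAt.comp (g := fun f : C(Icc l 1, ℝ) => f x)
        (ContinuousMap.evalCLM ℝ x).continuous.continuousAt h3
    have hev : (fun ε : ℝ => A.T ε (dilOp hl1 μ q) a) =ᶠ[𝓝[≠] 0]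
        fun ε => A.T ε q (projIcc l 1 hl1 (μ * a)) := by
      have h5 : ∀ᶠ ε in 𝓝 (0 : ℝ), |ε| * ‖q‖ < A.r0 := by
        have : ContinuousAt (fun ε : ℝ => |ε| * ‖q‖) 0 := by fun_prop
        exact this.eventually_lt continuousAt_const (by
          simp only [abs_zero, zero_mul]; exact A.hr0)
      filter_upwards [nhdsWithin_le_nhds h5, self_mem_nhdsWithin] with ε h6 h7
      exact hne ε h7 h6
    have t1 : Tendsto (fun ε : ℝ => A.T ε (dilOp hl1 μ q) a) (𝓝[≠] 0)
        (𝓝 (A.T 0 (dilOp hl1 μ q) a)) := (hc _ _).tendsto.mono_left nhdsWithin_le_nhds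
    have t2 : Tendsto (fun ε : ℝ => A.T ε q (projIcc l 1 hl1 (μ * a))) (𝓝[≠] 0)
        (𝓝 (A.T 0 q (projIcc l 1 hl1 (μ * a)))) := (hc _ _).tendsto.mono_left nhdsWithin_le_nhds
    exact tendsto_nhds_unique (t1.congr' hev) t2
  · exact hne ε hε h

/-- the abstract system -/
def toASys : ASys l where
  hl0 := A.hl0
  hl1 := A.hl1
  T := A.T
  Xi := A.Xi
  r0 := A.r0
  hr0 := A.hr0
  hT := A.hT
  hXi := A.hXi
  abel := A.abel
  cov := fun _ _ h hq _ h0 h1 a => A.cov h hq h0 h1 a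
  Xi_left := A.Xi_left
  Xi_zero := A.Xi_zero
  causal := A.causal

end ESys

/-- **Part B, final assembly** -/
theorem isoQ_of (B : BaseSol) (A : ESys B.l) : Nonempty IsoQ := by
  have hl0 := B.hl
  have hl1 : B.l ≤ 1 := A.hl1.le
  set l := B.l with hl
  let Q0 : C(ℝ, ℝ) := ⟨B.Q, B.hQ.continuous⟩
  have hQ0ap : ∀ s, Q0 s = B.Q s := fun s => rfl
  have hQs : ContDiff ℝ ∞ Q0 := B.hQ
  have hQ0 : ∀ s ≤ l, Q0 s = 0 := B.hQ0
  have hlam1 : B.lam1 ≤ 1 := B.hb.trans B.hb1.le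
  have hb1 := B.hb1
  have hlb : l < B.b1 := B.hlam.trans_le B.hb
  -- restricted integrals
  have hint : ∀ b : Icc l 1, ∫ s in l..b, (resX l Q0) (projIcc l 1 hl1 s) * √s
      = ∫ s in l..b, B.Q s * √s := by
    intro b
    apply intervalIntegral.integral_congr
    intro s hs
    rw [uIcc_of_le b.2.1] at hs
    beta_reduce
    rw [projIcc_of_mem hl1 ⟨hs.1, hs.2.trans b.2.2⟩, resX_apply]
    rfl
  -- the base solution
  have hbase : ∀ a : Icc l 1, B.b1 ≤ a → A.toASys.T 0 (resX l Q0) a = B.κ0 := by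
    intro a ha
    have h0 : |(0 : ℝ)| * ‖resX l Q0‖ < A.r0 := by
      rw [abs_zero, zero_mul]; exact A.hr0
    have h1 := A.abel 0 (resX l Q0) h0 a
    have h2 : ∫ b in l..a, √(a - b) * A.Xi 0 (resX l Q0) (projIcc l 1 hl1 b)
        = ∫ b in l..a, √(a - b) * (4 * B.Q b * ∫ s in l..b, B.Q s * √s) := by
      apply intervalIntegral.integral_congr
      intro b hb
      rw [uIcc_of_le a.2.1] at hb
      beta_reduce
      have hb' : b ∈ Icc l 1 := ⟨hb.1, hb.2.trans a.2.2⟩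
      rw [projIcc_of_mem hl1 hb', A.Xi_zero]
      congr 1
      have h3 := hint ⟨b, hb'⟩
      simp only at h3
      rw [h3]
      rfl
    rw [h2, B.iso a ha a.2.2] at h1
    have ha0 : (a : ℝ) ^ 2 ≠ 0 := (pow_pos (hl0.trans_le a.2.1) 2).ne'
    show A.T 0 (resX l Q0) a = B.κ0
    apply mul_left_cancel₀ ha0
    rw [h1]; ring
  obtain ⟨S, W, r, hW, hWmem, hS, hS0, hr, hsol, huniq⟩ := A.toASys.exists_S (q0 := resX l Q0)
    (lam1 := B.lam1) (m := B.m) B.hlam.le hlam1 B.hm (by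
      intro b hb
      have h3 : ∫ s in l..b, (resX l Q0) (projIcc l 1 hl1 s) * √s
        = ∫ s in l..b, B.Q s * √s := hint b
      have h4 := B.hm0 b hb b.2.2
      rw [← h3] at h4
      exact h4)
  set a1 := B.b1 + (1 - B.b1) / 4 with ha1
  set a2 := B.b1 + (1 - B.b1) / 2 with ha2
  set b2 := B.b1 + 3 * (1 - B.b1) / 4 with hb2
  have k1 : B.b1 < a1 := by rw [ha1]; linarith
  have k2 : a1 < a2 := by rw [ha1, ha2]; linarith
  have k3 : a2 < b2 := by rw [ha2, hb2]; linarith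
  have k4 : b2 < 1 := by rw [hb2]; linarith
  obtain ⟨ε0, hε0, hall⟩ := A.toASys.exists_delta (κ0 := B.κ0) hQs hQ0 B.hlam B.hb k1 k3 k4
    hbase hW hWmem hS hS0 hr hsol huniq
  obtain ⟨d, hd0, hds, hdn, hdT⟩ := hall (ε0 / 2) (by
    rw [abs_of_pos (by linarith)]; linarith)
  set ε := ε0 / 2 with hε
  have hεpos : 0 < ε := by rw [hε]; linarith
  -- cutoff
  let χ : ℝ → ℝ := fun s => Real.smoothTransition ((b2 - s) / (b2 - a2))
  have hχs : ContDiff ℝ ∞ χ := Real.smoothTransition.contDiff.comp (by fun_prop)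
  have hχ1 : ∀ s ≤ a2, χ s = 1 := by
    intro s hs
    apply Real.smoothTransition.one_of_one_le
    rw [le_div_iff₀ (by linarith)]; linarith
  have hχ0 : ∀ s, b2 ≤ s → χ s = 0 := by
    intro s hs
    apply Real.smoothTransition.zero_of_nonpos
    exact div_nonpos_of_nonpos_of_nonneg (by linarith) (by linarith)
  let qf : ℝ → ℝ := fun s => ε * (Q0 s + d s) * χ s
  have hqf : ∀ s ≤ a2, qf s = ε * (Q0 s + d s) := by
    intro s hs
    simp only [qf]
    rw [hχ1 s hs, mul_one]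
  have hqfl : ∀ s ≤ l, qf s = 0 := by
    intro s hs
    rw [hqf s (by linarith), hQ0 s hs, hd0 s (hs.trans B.hlam.le)]
    ring
  have hqfs : ContDiff ℝ ∞ qf := by
    rw [contDiff_iff_contDiffAt]
    intro s
    rcases lt_or_ge s 1 with h | h
    · have h1 : ContDiffAt ℝ ∞ d s := hds.contDiffAt (Iio_mem_nhds h)
      exact (contDiffAt_const.mul (hQs.contDiffAt.add h1)).mul hχs.contDiffAt
    · have hev : qf =ᶠ[𝓝 s] fun _ => 0 := by
        filter_upwards [Ioi_mem_nhds (show b2 < s by linarith)] with t ht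
        simp only [qf]
        rw [hχ0 t (le_of_lt ht), mul_zero]
      exact contDiffAt_const.congr_of_eventuallyEq hev
  set qt : C(Icc l 1, ℝ) := ε • resX l (Q0 + d) with hqt
  have hqtn : ‖qt‖ < A.r0 := by
    rw [hqt, norm_smul, Real.norm_eq_abs]; exact hdn
  have hqtn' : ‖-qt‖ < A.r0 := by rw [norm_neg]; exact hqtn
  have hqtv : ∀ s ∈ Icc l a2, qt (projIcc l 1 hl1 s) = qf s := by
    intro s hs
    rw [projIcc_of_mem hl1 ⟨hs.1, hs.2.trans (by linarith)⟩, hqf s hs.2]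
    rfl
  -- nontriviality
  have hne : ∃ s ∈ Ioo 0 a2, qf s ≠ 0 := by
    by_contra hcon
    push Not at hcon
    have h1 := B.hm0 B.lam1 le_rfl hlam1
    have h2 : ∫ s in l..B.lam1, B.Q s * √s = 0 := by
      rw [intervalIntegral.integral_congr (g := fun _ => 0)]
      · simp
      · intro s hs
        rw [uIcc_of_le B.hlam.le] at hs
        beta_reduce
        have h3 := hcon s ⟨hl0.trans_le hs.1, by linarith [hs.2, B.hb]⟩
        rw [hqf s (by linarith [hs.2, B.hb]), hd0 s hs.2, add_zero, hQ0ap] at h3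
        rw [(mul_eq_zero.1 h3).resolve_left hεpos.ne', zero_mul]
    have h5 : ∫ s in l..B.lam1, B.Q s * √s = ∫ s in B.l..B.lam1, B.Q s * √s := rfl
    rw [← h5, h2] at h1
    linarith [B.hm]
  -- energies on the extended interval
  have henergy : ∀ (q : C(Icc l 1, ℝ)) (g : ℝ → ℝ), ‖q‖ < A.r0 → ContDiff ℝ ∞ g →
      (∀ s ≤ l, g s = 0) → (∀ s ∈ Icc l a2, q (projIcc l 1 hl1 s) = g s) →
      ∀ a ∈ Ioo a1 a2, ContinuousOn (fun s => A.E q (max s l) a) (Icc 0 a) ∧
        (∀ s ∈ Ico 0 a, s < A.E q (max s l) a) ∧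
        (∀ s ∈ Icc 0 a, A.E q (max s l) a = a - 2 * ∫ r in s..a, g r * √(A.E q (max r l) a - r)) ∧
        ∫ s in (0 : ℝ)..a, g s * √s / A.E q (max s l) a = A.phi q a := by
    intro q g hq hg hg0 hgv a ha
    have haI : a ∈ Icc l 1 := ⟨by linarith [ha.1], by linarith [ha.2]⟩
    have hla : l < a := by linarith [ha.1]
    have hmap : ∀ s ∈ Icc 0 a, max s l ∈ Icc l a := fun s hs =>
      ⟨le_max_right _ _, max_le hs.2 hla.le⟩
    have hcont : ContinuousOn (fun s => A.E q (max s l) a) (Icc 0 a) :=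
      (A.E_cont q hq a haI).comp (f := fun s => max s l) (by fun_prop) hmap
    have hgt : ∀ s ∈ Ico 0 a, s < A.E q (max s l) a := by
      intro s hs
      rcases le_total l s with h | h
      · rw [max_eq_left h]; exact A.E_gt q hq a haI s ⟨h, hs.2⟩
      · rw [max_eq_right h]
        exact h.trans_lt (A.E_gt q hq a haI l ⟨le_rfl, hla⟩)
    have hpos : ∀ s ∈ Icc 0 a, A.E q (max s l) a ≠ 0 := by
      intro s hs
      rcases eq_or_lt_of_le hs.2 with h | h
      · subst h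
        rw [max_eq_left hla.le]
        have := A.E_eq q hq s haI s ⟨hla.le, le_rfl⟩
        rw [intervalIntegral.integral_same] at this
        rw [this]
        linarith
      · have h1 := hgt s ⟨hs.1, h⟩
        linarith [hs.1]
    have hIcont : ContinuousOn (fun r => g r * √(A.E q (max r l) a - r)) (Icc 0 a) :=
      hg.continuous.continuousOn.mul ((hcont.sub continuousOn_id).sqrt)
    have hupper : ∀ s ∈ Icc l a, ∫ r in s..a, g r * √(A.E q (max r l) a - r)
        = ∫ r in s..a, q (projIcc l 1 hl1 r) * √(A.E q r a - r) := by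
      intro s hs
      apply intervalIntegral.integral_congr
      intro r hr
      rw [uIcc_of_le hs.2] at hr
      beta_reduce
      rw [hgv r ⟨hs.1.trans hr.1, hr.2.trans ha.2.le⟩, max_eq_left (hs.1.trans hr.1)]
    refine ⟨hcont, hgt, ?_, ?_⟩
    · intro s hs
      rcases le_total l s with h | h
      · rw [max_eq_left h, A.E_eq q hq a haI s ⟨h, hs.2⟩, hupper s ⟨h, hs.2⟩]
      · have hz : ∫ r in s..l, g r * √(A.E q (max r l) a - r) = 0 := by
          rw [intervalIntegral.integral_congr (g := fun _ => 0)]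
          · simp
          · intro r hr
            rw [uIcc_of_le h] at hr
            beta_reduce
            rw [hg0 r hr.2, zero_mul]
        have hi1 : IntervalIntegrable (fun r => g r * √(A.E q (max r l) a - r)) volume s l :=
          (hIcont.mono (by
            rw [uIcc_of_le h]
            exact Icc_subset_Icc hs.1 hla.le)).intervalIntegrable
        have hi2 : IntervalIntegrable (fun r => g r * √(A.E q (max r l) a - r)) volume l a :=
          (hIcont.mono (by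
            rw [uIcc_of_le hla.le]
            exact Icc_subset_Icc hl0.le le_rfl)).intervalIntegrable
        rw [max_eq_right h, ← intervalIntegral.integral_add_adjacent_intervals hi1 hi2, hz, zero_add,
          hupper l ⟨le_rfl, hla.le⟩]
        exact A.E_eq q hq a haI l ⟨le_rfl, hla.le⟩
    · have hc2 : ContinuousOn (fun s => g s * √s / A.E q (max s l) a) (Icc 0 a) :=
        ((hg.continuous.continuousOn).mul (by fun_prop)).div hcont hpos
      have hi1 : IntervalIntegrable (fun s => g s * √s / A.E q (max s l) a) volume 0 l :=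
        (hc2.mono (by
          rw [uIcc_of_le hl0.le]
          exact Icc_subset_Icc le_rfl hla.le)).intervalIntegrable
      have hi2 : IntervalIntegrable (fun s => g s * √s / A.E q (max s l) a) volume l a :=
        (hc2.mono (by
          rw [uIcc_of_le hla.le]
          exact Icc_subset_Icc hl0.le le_rfl)).intervalIntegrable
      have hz : ∫ s in (0 : ℝ)..l, g s * √s / A.E q (max s l) a = 0 := by
        rw [intervalIntegral.integral_congr (g := fun _ => 0)]
        · simp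
        · intro r hr
          rw [uIcc_of_le hl0.le] at hr
          beta_reduce
          rw [hg0 r hr.2]
          simp
      rw [← intervalIntegral.integral_add_adjacent_intervals hi1 hi2, hz, zero_add]
      unfold ESys.phi
      apply intervalIntegral.integral_congr
      intro s hs
      rw [uIcc_of_le hla.le] at hs
      beta_reduce
      rw [hgv s ⟨hs.1, hs.2.trans ha.2.le⟩, max_eq_left hs.1]
  refine ⟨{ q := qf, a1 := a1, a2 := a2, κ := ε ^ 2 * B.κ0, h1 := by linarith, h12 := k2, hq := hqfs,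
            hq0 := ⟨l, hl0, hqfl⟩, hne := hne, energies := ?_ }⟩
  intro a ha
  have haI : a ∈ Icc l 1 := ⟨by linarith [ha.1], by linarith [ha.2]⟩
  obtain ⟨p1, p2, p3, p4⟩ := henergy qt qf hqtn hqfs hqfl hqtv a ha
  obtain ⟨m1, m2, m3, m4⟩ := henergy (-qt) (fun s => -qf s) hqtn' hqfs.neg
    (fun s hs => by rw [hqfl s hs, neg_zero])
    (fun s hs => by rw [ContinuousMap.neg_apply, hqtv s hs]) a ha
  refine ⟨fun s => A.E qt (max s l) a, fun s => A.E (-qt) (max s l) a, p1, m1, p2, m2, p3, ?_, ?_⟩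
  · intro s hs
    beta_reduce
    rw [m3 s hs]
    have : ∫ r in s..a, -qf r * √(A.E (-qt) (max r l) a - r)
        = - ∫ r in s..a, qf r * √(A.E (-qt) (max r l) a - r) := by
      rw [← intervalIntegral.integral_neg]
      congr 1; ext r; ring
    rw [this]; ring
  · have hT := A.T_eq ε (resX l (Q0 + d)) hεpos.ne' hdn ⟨a, haI⟩
    have hiso := hdT ⟨a, haI⟩ ha.1.le ha.2.le
    have hiso' : A.T ε (resX l (Q0 + d)) ⟨a, haI⟩ = B.κ0 := hiso
    rw [hiso'] at hT
    have m4' : ∫ s in (0 : ℝ)..a, qf s * √s / A.E (-qt) (max s l) a = - A.phi (-qt) a := by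
      rw [← m4, ← intervalIntegral.integral_neg]
      congr 1; ext r; ring
    beta_reduce
    rw [p4, m4', sub_neg_eq_add]
    exact hT.symm

end Pool.Agent.Unicorn
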