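import Mathlib

/-!
# Unicorn B3a: Abel transform library

Elementary singular integrals and the triangle form of Fubini's theorem.
-/

set_option autoImplicit false

open Set MeasureTheory intervalIntegral Real

namespace Pool.Agent.Unicorn

/-! ### Fubini on a triangle -/

/-- Fubini on the triangle `l < u < b < a` (here `f b u`, `u` is the inner variable). -/
lemma tri_swap_integrable {l a : ℝ} (hla : l ≤ a) (f : ℝ → ℝ → ℝ)
    (hf : IntegrableOn (fun p : ℝ × ℝ => f p.1 p.2)
      {p : ℝ × ℝ | l < p.2 ∧ p.2 < p.1 ∧ p.1 < a}) :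
    ∫ b in l..a, ∫ u in l..b, f b u = ∫ u in l..a, ∫ b in u..a, f b u := by
  set T : Set (ℝ × ℝ) := {p : ℝ × ℝ | l < p.2 ∧ p.2 < p.1 ∧ p.1 < a} with hT
  have hTm : MeasurableSet T := by
    apply MeasurableSet.inter (measurableSet_lt measurable_const measurable_snd)
    apply MeasurableSet.inter (measurableSet_lt measurable_snd measurable_fst)
    exact measurableSet_lt measurable_fst measurable_const
  have hI : Integrable (T.indicator (fun p : ℝ × ℝ => f p.1 p.2)) := by
    rwa [integrable_indicator_iff hTm]
  have hI' : Integrable (Function.uncurry fun b u => T.indicator (fun p : ℝ × ℝ => f p.1 p.2) (b, u))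
      (volume.prod volume) := hI
  have hsw := integral_integral_swap hI'
  -- left side
  have h1 : ∫ b in l..a, ∫ u in l..b, f b u
      = ∫ b, ∫ u, T.indicator (fun p : ℝ × ℝ => f p.1 p.2) (b, u) := by
    rw [intervalIntegral.integral_of_le hla, integral_Ioc_eq_integral_Ioo,
      ← MeasureTheory.integral_indicator measurableSet_Ioo]
    congr 1
    ext b
    by_cases hb : b ∈ Ioo l a
    · rw [indicator_of_mem hb, intervalIntegral.integral_of_le hb.1.le,
        integral_Ioc_eq_integral_Ioo, ← MeasureTheory.integral_indicator measurableSet_Ioo]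
      congr 1
      ext u
      by_cases hu : u ∈ Ioo l b
      · rw [indicator_of_mem hu, indicator_of_mem (show (b, u) ∈ T from ⟨hu.1, hu.2, hb.2⟩)]
      · rw [indicator_of_notMem hu, indicator_of_notMem]
        intro h
        exact hu ⟨h.1, h.2.1⟩
    · rw [indicator_of_notMem hb]
      symm
      have : (fun u => T.indicator (fun p : ℝ × ℝ => f p.1 p.2) (b, u)) = fun _ => 0 := by
        ext u
        rw [indicator_of_notMem]
        intro h
        exact hb ⟨h.1.trans h.2.1, h.2.2⟩
      rw [this]
      simp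
  have h2 : ∫ u in l..a, ∫ b in u..a, f b u
      = ∫ u, ∫ b, T.indicator (fun p : ℝ × ℝ => f p.1 p.2) (b, u) := by
    rw [intervalIntegral.integral_of_le hla, integral_Ioc_eq_integral_Ioo,
      ← MeasureTheory.integral_indicator measurableSet_Ioo]
    congr 1
    ext u
    by_cases hu : u ∈ Ioo l a
    · rw [indicator_of_mem hu, intervalIntegral.integral_of_le hu.2.le,
        integral_Ioc_eq_integral_Ioo, ← MeasureTheory.integral_indicator measurableSet_Ioo]
      congr 1
      ext b
      by_cases hb : b ∈ Ioo u a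
      · rw [indicator_of_mem hb, indicator_of_mem (show (b, u) ∈ T from ⟨hu.1, hb.1, hb.2⟩)]
      · rw [indicator_of_notMem hb, indicator_of_notMem]
        intro h
        exact hb ⟨h.2.1, h.2.2⟩
    · rw [indicator_of_notMem hu]
      symm
      have : (fun b => T.indicator (fun p : ℝ × ℝ => f p.1 p.2) (b, u)) = fun _ => 0 := by
        ext b
        rw [indicator_of_notMem]
        intro h
        exact hu ⟨h.1, h.2.1.trans h.2.2⟩
      rw [this]
      simp
  rw [h1, h2, hsw]

/-! ### Elementary integrals -/

section Elementary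

variable {u a : ℝ}

/-- the angle function `arcsin √((a-b)/(a-u))` -/
lemma hasDerivAt_arcsin_sqrt (hua : u < a) {b : ℝ} (hb : b ∈ Ioo u a) :
    HasDerivAt (fun b => arcsin (√((a - b) / (a - u)))) (-1 / (2 * (√(a - b) * √(b - u)))) b := by
  obtain ⟨h1, h2⟩ := hb
  have hA : 0 < a - b := by linarith
  have hB : 0 < b - u := by linarith
  have hD : 0 < a - u := by linarith
  have hz : 0 < (a - b) / (a - u) := by positivity
  have hz1 : (a - b) / (a - u) < 1 := by rw [div_lt_one hD]; linarith
  have hs0 : 0 < √((a - b) / (a - u)) := Real.sqrt_pos.2 hz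
  have hs1 : √((a - b) / (a - u)) < 1 := by
    rw [Real.sqrt_lt' one_pos]; simpa using hz1
  have d1 : HasDerivAt (fun b : ℝ => (a - b) / (a - u)) (-1 / (a - u)) b := by
    have := ((hasDerivAt_id b).const_sub a).div_const (a - u)
    simpa using this
  have d2 := d1.sqrt hz.ne'
  have d3 := (Real.hasDerivAt_arcsin (x := √((a - b) / (a - u))) (by linarith) hs1.ne)
  have d4 := d3.comp b d2
  refine d4.congr_deriv ?_
  rw [Real.sq_sqrt hz.le]
  have e1 : 1 - (a - b) / (a - u) = (b - u) / (a - u) := by field_simp; ring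
  rw [e1, Real.sqrt_div hA.le, Real.sqrt_div hB.le]
  have sA : 0 < √(a - b) := Real.sqrt_pos.2 hA
  have sB : 0 < √(b - u) := Real.sqrt_pos.2 hB
  have sD : 0 < √(a - u) := Real.sqrt_pos.2 hD
  have hDD : √(a - u) * √(a - u) = a - u := Real.mul_self_sqrt hD.le
  rw [show (-1 : ℝ) / (a - u) = -1 / (√(a - u) * √(a - u)) by rw [hDD]]
  field_simp

lemma continuous_arcsin_sqrt : Continuous (fun b => arcsin (√((a - b) / (a - u)))) :=
  Real.continuous_arcsin.comp (Real.continuous_sqrt.comp
    ((continuous_const.sub continuous_id).div_const _))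

lemma intervalIntegrable_abel_one (hua : u ≤ a) :
    IntervalIntegrable (fun b => 1 / (√(a - b) * √(b - u))) volume u a := by
  rcases hua.eq_or_lt with rfl | hua
  · simp
  · apply intervalIntegral.intervalIntegrable_deriv_of_nonneg
      (g := fun b => -2 * arcsin (√((a - b) / (a - u))))
    · exact (continuous_const.mul continuous_arcsin_sqrt).continuousOn
    · intro b hb
      rw [min_eq_left hua.le, max_eq_right hua.le] at hb
      refine ((hasDerivAt_arcsin_sqrt hua hb).const_mul (-2)).congr_deriv ?_
      have hA : 0 < √(a - b) := Real.sqrt_pos.2 (by linarith [hb.2])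
      have hB : 0 < √(b - u) := Real.sqrt_pos.2 (by linarith [hb.1])
      field_simp
    · intro b _
      positivity

lemma integral_abel_one (hua : u < a) :
    ∫ b in u..a, 1 / (√(a - b) * √(b - u)) = π := by
  have := intervalIntegral.integral_eq_sub_of_hasDerivAt_of_le hua.le
    (f := fun b => -2 * arcsin (√((a - b) / (a - u))))
    (f' := fun b => 1 / (√(a - b) * √(b - u)))
    (continuous_const.mul continuous_arcsin_sqrt).continuousOn
    (by
      intro b hb
      refine ((hasDerivAt_arcsin_sqrt hua hb).const_mul (-2)).congr_deriv ?_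
      have hA : 0 < √(a - b) := Real.sqrt_pos.2 (by linarith [hb.2])
      have hB : 0 < √(b - u) := Real.sqrt_pos.2 (by linarith [hb.1])
      field_simp)
    (intervalIntegrable_abel_one hua.le)
  rw [this]
  have hD : (a - u) ≠ 0 := by linarith
  simp only [sub_self, zero_div, Real.sqrt_zero, Real.arcsin_zero, div_self hD, Real.sqrt_one,
    Real.arcsin_one]
  ring

lemma hasDerivAt_abel_half (hua : u < a) {b : ℝ} (hb : b ∈ Ioo u a) :
    HasDerivAt (fun b => √(a - b) * √(b - u) - (a - u) * arcsin (√((a - b) / (a - u))))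
      (√(a - b) / √(b - u)) b := by
  have hA : 0 < a - b := by linarith [hb.2]
  have hB : 0 < b - u := by linarith [hb.1]
  have sA : 0 < √(a - b) := Real.sqrt_pos.2 hA
  have sB : 0 < √(b - u) := Real.sqrt_pos.2 hB
  have d1 : HasDerivAt (fun b : ℝ => √(a - b)) ((-1) / (2 * √(a - b))) b := by
    have := ((hasDerivAt_id b).const_sub a).sqrt hA.ne'
    simpa using this
  have d2 : HasDerivAt (fun b : ℝ => √(b - u)) (1 / (2 * √(b - u))) b := by
    have := ((hasDerivAt_id b).sub_const u).sqrt hB.ne'
    simpa using this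
  have d3 := (d1.mul d2).sub ((hasDerivAt_arcsin_sqrt hua hb).const_mul (a - u))
  refine d3.congr_deriv ?_
  have hAA : √(a - b) ^ 2 = a - b := Real.sq_sqrt hA.le
  have hBB : √(b - u) ^ 2 = b - u := Real.sq_sqrt hB.le
  field_simp
  have : a - u = √(a - b) ^ 2 + √(b - u) ^ 2 := by rw [hAA, hBB]; ring
  rw [this]
  ring

lemma continuous_abel_half :
    Continuous (fun b => √(a - b) * √(b - u) - (a - u) * arcsin (√((a - b) / (a - u)))) := by
  refine Continuous.sub ?_ (continuous_const.mul continuous_arcsin_sqrt)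
  fun_prop

lemma intervalIntegrable_abel_half (hua : u ≤ a) :
    IntervalIntegrable (fun b => √(a - b) / √(b - u)) volume u a := by
  rcases hua.eq_or_lt with rfl | hua
  · simp
  · apply intervalIntegral.intervalIntegrable_deriv_of_nonneg
      (g := fun b => √(a - b) * √(b - u) - (a - u) * arcsin (√((a - b) / (a - u))))
    · exact continuous_abel_half.continuousOn
    · intro b hb
      rw [min_eq_left hua.le, max_eq_right hua.le] at hb
      exact hasDerivAt_abel_half hua hb
    · intro b _
      positivity

lemma integral_abel_half (hua : u ≤ a) :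
    ∫ b in u..a, √(a - b) / √(b - u) = π / 2 * (a - u) := by
  rcases hua.eq_or_lt with rfl | hua
  · simp
  have := intervalIntegral.integral_eq_sub_of_hasDerivAt_of_le hua.le
    (f := fun b => √(a - b) * √(b - u) - (a - u) * arcsin (√((a - b) / (a - u))))
    (f' := fun b => √(a - b) / √(b - u))
    continuous_abel_half.continuousOn
    (fun b hb => hasDerivAt_abel_half hua hb)
    (intervalIntegrable_abel_half hua.le)
  rw [this]
  have hD : (a - u) ≠ 0 := by linarith
  simp only [sub_self, zero_div, Real.sqrt_zero, Real.arcsin_zero, div_self hD, Real.sqrt_one,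
    Real.arcsin_one]
  ring

end Elementary

/-! ### The kernel of the half-derivative lemma -/

section KKernel

variable {x y : ℝ}

/-- antiderivative of `√(x-β)/(β² √(β-y))` -/
noncomputable def KPhi (x y β : ℝ) : ℝ :=
  √((x - β) * (β - y)) / (y * β) - ((x - y) / (y * √(x * y))) * arcsin (√(y * (x - β) / (β * (x - y))))

lemma hasDerivAt_KPhi (hy : 0 < y) (hxy : y < x) {β : ℝ} (hβ : β ∈ Ioo y x) :
    HasDerivAt (KPhi x y) (√(x - β) / (β ^ 2 * √(β - y))) β := by
  obtain ⟨h1, h2⟩ := hβ
  have hA : 0 < x - β := by linarith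
  have hB : 0 < β - y := by linarith
  have hD : 0 < x - y := by linarith
  have hb : 0 < β := by linarith
  have hx : 0 < x := by linarith
  have hz : 0 < y * (x - β) / (β * (x - y)) := by positivity
  have hz1' : 1 - y * (x - β) / (β * (x - y)) = x * (β - y) / (β * (x - y)) := by
    field_simp; ring
  have hz1 : y * (x - β) / (β * (x - y)) < 1 := by
    have : 0 < x * (β - y) / (β * (x - y)) := by positivity
    linarith
  have hs0 : 0 < √(y * (x - β) / (β * (x - y))) := Real.sqrt_pos.2 hz
  have hs1 : √(y * (x - β) / (β * (x - y))) < 1 := by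
    rw [Real.sqrt_lt' one_pos]; simpa using hz1
  have d1 : HasDerivAt (fun β : ℝ => (x - β) * (β - y)) ((x - β) - (β - y)) β := by
    have := ((hasDerivAt_id β).const_sub x).mul ((hasDerivAt_id β).sub_const y)
    refine this.congr_deriv ?_
    simp; ring
  have hAB : 0 < (x - β) * (β - y) := by positivity
  have d2 := d1.sqrt hAB.ne'
  have d3 : HasDerivAt (fun β : ℝ => y * β) y β := by
    simpa using (hasDerivAt_id β).const_mul y
  have d4 := d2.div d3 (by positivity : y * β ≠ 0)
  have d5 : HasDerivAt (fun β : ℝ => y * (x - β) / (β * (x - y)))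
      (-(x * y) / (β ^ 2 * (x - y))) β := by
    have e1 : HasDerivAt (fun β : ℝ => y * (x - β)) (-y) β := by
      have := ((hasDerivAt_id β).const_sub x).const_mul y
      simpa using this
    have e2 : HasDerivAt (fun β : ℝ => β * (x - y)) (x - y) β := by
      simpa using (hasDerivAt_id β).mul_const (x - y)
    refine (e1.div e2 (by positivity : β * (x - y) ≠ 0)).congr_deriv ?_
    field_simp
    ring
  have d6 := d5.sqrt hz.ne'
  have d7 := (Real.hasDerivAt_arcsin (x := √(y * (x - β) / (β * (x - y)))) (by linarith) hs1.ne)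
  have d8 := (d7.comp β d6).const_mul ((x - y) / (y * √(x * y)))
  have d9 := d4.sub d8
  unfold KPhi
  refine d9.congr_deriv ?_
  rw [Real.sq_sqrt hz.le, hz1', Real.sqrt_div (by positivity), Real.sqrt_div (by positivity),
    Real.sqrt_mul hx.le, Real.sqrt_mul hy.le, Real.sqrt_mul hb.le, Real.sqrt_mul hx.le,
    Real.sqrt_mul hA.le]
  have sx : 0 < √x := Real.sqrt_pos.2 hx
  have sy : 0 < √y := Real.sqrt_pos.2 hy
  have sA : 0 < √(x - β) := Real.sqrt_pos.2 hA
  have sB : 0 < √(β - y) := Real.sqrt_pos.2 hB
  have sD : 0 < √(x - y) := Real.sqrt_pos.2 hD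
  have sb : 0 < √β := Real.sqrt_pos.2 hb
  have hAA : √(x - β) ^ 2 = x - β := Real.sq_sqrt hA.le
  have hBB : √(β - y) ^ 2 = β - y := Real.sq_sqrt hB.le
  have hDD : √(x - y) ^ 2 = x - y := Real.sq_sqrt hD.le
  have hbb : √β ^ 2 = β := Real.sq_sqrt hb.le
  have hxx : √x ^ 2 = x := Real.sq_sqrt hx.le
  have hyy : √y ^ 2 = y := Real.sq_sqrt hy.le
  field_simp
  rw [hAA, hBB, hbb, hxx, hyy, hDD]
  ring

lemma continuousOn_KPhi (hy : 0 < y) (hxy : y < x) : ContinuousOn (KPhi x y) (Icc y x) := by
  unfold KPhi
  have hx : 0 < x := by linarith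
  have hD : 0 < x - y := by linarith
  refine ContinuousOn.sub ?_ ?_
  · refine ContinuousOn.div (by fun_prop) (by fun_prop) ?_
    intro b hb
    have : 0 < b := lt_of_lt_of_le hy hb.1
    positivity
  · refine continuousOn_const.mul ?_
    refine Real.continuous_arcsin.comp_continuousOn ?_
    refine Real.continuous_sqrt.comp_continuousOn ?_
    refine ContinuousOn.div (by fun_prop) (by fun_prop) ?_
    intro b hb
    have : 0 < b := lt_of_lt_of_le hy hb.1
    positivity

lemma intervalIntegrable_K (hy : 0 < y) (hxy : y ≤ x) :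
    IntervalIntegrable (fun β => √(x - β) / (β ^ 2 * √(β - y))) volume y x := by
  rcases hxy.eq_or_lt with rfl | hxy
  · simp
  apply intervalIntegral.intervalIntegrable_deriv_of_nonneg (g := KPhi x y)
  · rw [uIcc_of_le hxy.le]; exact continuousOn_KPhi hy hxy
  · intro b hb
    rw [min_eq_left hxy.le, max_eq_right hxy.le] at hb
    exact hasDerivAt_KPhi hy hxy hb
  · intro b _
    positivity

lemma integral_K (hy : 0 < y) (hxy : y ≤ x) :
    ∫ β in y..x, √(x - β) / (β ^ 2 * √(β - y)) = π / 2 * ((x - y) / (y * √(x * y))) := by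
  rcases hxy.eq_or_lt with rfl | hxy
  · simp
  rw [intervalIntegral.integral_eq_sub_of_hasDerivAt_of_le hxy.le (continuousOn_KPhi hy hxy)
    (fun b hb => hasDerivAt_KPhi hy hxy hb) (intervalIntegrable_K hy hxy.le)]
  unfold KPhi
  have hD : 0 < x - y := by linarith
  have : y * (x - y) / (y * (x - y)) = 1 := by
    apply div_self; positivity
  rw [this]
  simp
  ring

end KKernel

end Pool.Agent.Unicorn
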