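import Pool.Agent.Unicorn.B3a

/-!
# Unicorn B3b: Fubini for Abel kernels and the half-derivative lemma (HD)
-/

set_option autoImplicit false

open Set MeasureTheory intervalIntegral Real Filter Topology

namespace Pool.Agent.Unicorn

/-- The open triangle `l < u < b < a`, coordinates `(b,u)`. -/
def Tri (l a : ℝ) : Set (ℝ × ℝ) := {p : ℝ × ℝ | l < p.2 ∧ p.2 < p.1 ∧ p.1 < a}

lemma isOpen_Tri (l a : ℝ) : IsOpen (Tri l a) := by
  refine (isOpen_lt continuous_const continuous_snd).inter ?_
  exact (isOpen_lt continuous_snd continuous_fst).inter (isOpen_lt continuous_fst continuous_const)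

lemma measurableSet_Tri (l a : ℝ) : MeasurableSet (Tri l a) := (isOpen_Tri l a).measurableSet

/-- Integrability on the triangle by domination by a convolution-type kernel. -/
lemma integrableOn_Tri {l a : ℝ} {κ g : ℝ → ℝ}
    (hκ : IntegrableOn κ (Ioo 0 (a - l))) (hg : IntegrableOn g (Ioo l a)) {F : ℝ × ℝ → ℝ}
    (hF : AEStronglyMeasurable F (volume.restrict (Tri l a)))
    (hb : ∀ p ∈ Tri l a, |F p| ≤ κ (p.1 - p.2) * g p.2) :
    IntegrableOn F (Tri l a) := by
  have h1 : Integrable ((Ioo 0 (a - l)).indicator κ) := by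
    rwa [integrable_indicator_iff measurableSet_Ioo]
  have h2 : Integrable ((Ioo l a).indicator g) := by
    rwa [integrable_indicator_iff measurableSet_Ioo]
  have h3 := Integrable.convolution_integrand (ContinuousLinearMap.mul ℝ ℝ) h2 h1
  have h4 : IntegrableOn (fun p : ℝ × ℝ => (Ioo l a).indicator g p.2 *
      (Ioo 0 (a - l)).indicator κ (p.1 - p.2)) (Tri l a) := by
    have := h3.integrableOn (s := Tri l a)
    rw [← Measure.volume_eq_prod] at this
    simpa using this
  refine Integrable.mono' h4 hF ?_
  refine (ae_restrict_iff' (measurableSet_Tri l a)).2 (Eventually.of_forall fun p hp => ?_)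
  have hp' := hp
  obtain ⟨p1, p2, p3⟩ := hp'
  rw [indicator_of_mem (show p.2 ∈ Ioo l a from ⟨p1, p2.trans p3⟩),
    indicator_of_mem (show p.1 - p.2 ∈ Ioo 0 (a - l) from ⟨by linarith, by linarith⟩), mul_comm]
  exact hb p hp

lemma integrableOn_inv_sqrt (c : ℝ) : IntegrableOn (fun z : ℝ => 1 / √z) (Ioo 0 c) := by
  rcases le_or_gt c 0 with hc | hc
  · rw [Ioo_eq_empty (by linarith)]; exact integrableOn_empty
  have := intervalIntegral.intervalIntegrable_rpow' (a := 0) (b := c) (r := -(1 / 2)) (by norm_num)
  rw [intervalIntegrable_iff_integrableOn_Ioo_of_le hc.le] at this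
  refine this.congr_fun (fun z hz => ?_) measurableSet_Ioo
  simp only
  rw [Real.sqrt_eq_rpow, Real.rpow_neg hz.1.le, one_div, one_div]

lemma integral_one_div_sqrt {c : ℝ} (hc : 0 ≤ c) : ∫ z in (0 : ℝ)..c, 1 / √z = 2 * √c := by
  rcases hc.eq_or_lt with rfl | hc
  · simp
  have h : ∀ z ∈ Ioo 0 c, HasDerivAt (fun z => 2 * √z) (1 / √z) z := by
    intro z hz
    have := ((Real.hasDerivAt_sqrt hz.1.ne').const_mul 2)
    refine this.congr_deriv ?_
    have : 0 < √z := Real.sqrt_pos.2 hz.1
    field_simp
  rw [intervalIntegral.integral_eq_sub_of_hasDerivAt_of_le hc.le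
    (f := fun z => 2 * √z) (by fun_prop) h]
  · simp
  · rw [intervalIntegrable_iff_integrableOn_Ioo_of_le hc.le]
    exact integrableOn_inv_sqrt c

/-- **Abel–Fubini, bounded factor version.** -/
lemma abel_swap_bdd {l a C : ℝ} (hla : l ≤ a) {G : ℝ → ℝ → ℝ} {g : ℝ → ℝ}
    (hg : IntegrableOn g (Ioo l a))
    (hG : AEStronglyMeasurable (fun p : ℝ × ℝ => G p.1 p.2) (volume.restrict (Tri l a)))
    (hC : ∀ p ∈ Tri l a, |G p.1 p.2| ≤ C) :
    ∫ b in l..a, ∫ u in l..b, G b u * g u / √(b - u)
      = ∫ u in l..a, ∫ b in u..a, G b u * g u / √(b - u) := by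
  apply tri_swap_integrable hla
  refine integrableOn_Tri (κ := fun z => 1 / √z) (g := fun u => C * |g u|)
    (integrableOn_inv_sqrt _) (hg.abs.const_mul C) ?_ ?_
  · have hgm : AEStronglyMeasurable (fun p : ℝ × ℝ => g p.2) (volume.restrict (Tri l a)) := by
      have h0 : AEStronglyMeasurable ((Ioo l a).indicator g) volume := by
        rw [aestronglyMeasurable_indicator_iff measurableSet_Ioo]
        exact hg.aestronglyMeasurable
      have h1 : AEStronglyMeasurable (fun p : ℝ × ℝ => (Ioo l a).indicator g p.2)
          (volume.prod volume) := h0.comp_snd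
      have h2 : AEStronglyMeasurable (fun p : ℝ × ℝ => (Ioo l a).indicator g p.2)
          (volume.restrict (Tri l a)) := h1.mono_measure Measure.restrict_le_self
      refine h2.congr ?_
      refine (ae_restrict_iff' (measurableSet_Tri l a)).2 (Eventually.of_forall fun p hp => ?_)
      exact indicator_of_mem (show p.2 ∈ Ioo l a from ⟨hp.1, hp.2.1.trans hp.2.2⟩) g
    have hk : AEStronglyMeasurable (fun p : ℝ × ℝ => (√(p.1 - p.2))⁻¹)
        (volume.restrict (Tri l a)) := by
      have : Measurable (fun p : ℝ × ℝ => (√(p.1 - p.2))⁻¹) := by fun_prop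
      exact this.aestronglyMeasurable
    have := (hG.mul hgm).mul hk
    exact this
  · intro p hp
    have h1 := hC p hp
    have h2 : 0 ≤ 1 / √(p.1 - p.2) := by positivity
    calc |G p.1 p.2 * g p.2 / √(p.1 - p.2)| = |G p.1 p.2| * |g p.2| * (1 / √(p.1 - p.2)) := by
          rw [abs_div, abs_mul, abs_of_nonneg (Real.sqrt_nonneg _)]; ring
      _ ≤ C * |g p.2| * (1 / √(p.1 - p.2)) := by gcongr
      _ = _ := by ring

/-- **Abel–Fubini identity**: applying the kernel `√(a-b)` to the Abel transform of `g`. -/
lemma abel_sqrt_abel {l a : ℝ} (hla : l ≤ a) {g : ℝ → ℝ} (hg : IntegrableOn g (Ioo l a)) :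
    ∫ b in l..a, √(a - b) * ∫ u in l..b, g u / √(b - u) = π / 2 * ∫ u in l..a, (a - u) * g u := by
  have h := abel_swap_bdd (C := √(a - l)) hla (G := fun b _ => √(a - b)) hg
    (by
      have : Measurable (fun p : ℝ × ℝ => √(a - p.1)) := by fun_prop
      exact this.aestronglyMeasurable)
    (by
      intro p hp
      rw [abs_of_nonneg (Real.sqrt_nonneg _)]
      exact Real.sqrt_le_sqrt (by linarith [hp.1, hp.2.1]))
  have e1 : ∀ b, √(a - b) * ∫ u in l..b, g u / √(b - u)
      = ∫ u in l..b, √(a - b) * g u / √(b - u) := by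
    intro b
    rw [← intervalIntegral.integral_const_mul]
    congr 1
    ext u
    ring
  simp_rw [e1]
  rw [h, ← intervalIntegral.integral_const_mul]
  apply intervalIntegral.integral_congr
  intro u hu
  rw [uIcc_of_le hla] at hu
  have e2 : ∀ b, √(a - b) * g u / √(b - u) = g u * (√(a - b) / √(b - u)) := by intro b; ring
  simp only [e2]
  rw [intervalIntegral.integral_const_mul, integral_abel_half hu.2]
  ring

/-- **Abel–Fubini identity**: the Abel transform applied twice. -/
lemma abel_abel {l a : ℝ} (hla : l ≤ a) {g : ℝ → ℝ} (hg : IntegrableOn g (Ioo l a)) :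
    ∫ b in l..a, (∫ u in l..b, g u / √(b - u)) / √(a - b) = π * ∫ u in l..a, g u := by
  have h : ∫ b in l..a, ∫ u in l..b, g u / √(b - u) / √(a - b)
      = ∫ u in l..a, ∫ b in u..a, g u / √(b - u) / √(a - b) := by
    apply tri_swap_integrable hla
    -- integrability, via the iterated integral of the absolute value
    rw [IntegrableOn]
    have hm : AEStronglyMeasurable (fun p : ℝ × ℝ => g p.2 / √(p.1 - p.2) / √(a - p.1))
        (volume.restrict (Tri l a)) := by
      have h0 : AEStronglyMeasurable ((Ioo l a).indicator g) volume := by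
        rw [aestronglyMeasurable_indicator_iff measurableSet_Ioo]
        exact hg.aestronglyMeasurable
      have h1 : AEStronglyMeasurable (fun p : ℝ × ℝ => (Ioo l a).indicator g p.2)
          (volume.prod volume) := h0.comp_snd
      have h2 : AEStronglyMeasurable (fun p : ℝ × ℝ => (Ioo l a).indicator g p.2)
          (volume.restrict (Tri l a)) := h1.mono_measure Measure.restrict_le_self
      have hk : Measurable (fun p : ℝ × ℝ => (√(p.1 - p.2))⁻¹ * (√(a - p.1))⁻¹) := by fun_prop
      refine (h2.mul hk.aestronglyMeasurable).congr ?_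
      refine (ae_restrict_iff' (measurableSet_Tri l a)).2 (Eventually.of_forall fun p hp => ?_)
      simp only [Pi.mul_apply]
      rw [indicator_of_mem (show p.2 ∈ Ioo l a from ⟨hp.1, hp.2.1.trans hp.2.2⟩) g]
      rw [div_eq_mul_inv, div_eq_mul_inv]; ring
    -- indicator on the whole plane
    have hind : AEStronglyMeasurable ((Tri l a).indicator
        (fun p : ℝ × ℝ => g p.2 / √(p.1 - p.2) / √(a - p.1))) (volume.prod volume) := by
      have := (aestronglyMeasurable_indicator_iff (μ := (volume : Measure (ℝ × ℝ)))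
        (measurableSet_Tri l a)).2 hm
      exact this
    have : Integrable ((Tri l a).indicator
        (fun p : ℝ × ℝ => g p.2 / √(p.1 - p.2) / √(a - p.1))) (volume.prod volume) := by
      rw [integrable_prod_iff' hind]
      constructor
      · refine Eventually.of_forall fun u => ?_
        by_cases hu : u ∈ Ioo l a
        · have h1 := intervalIntegrable_abel_one (u := u) (a := a) hu.2.le
          rw [intervalIntegrable_iff_integrableOn_Ioo_of_le hu.2.le] at h1
          have h2 := (integrable_indicator_iff measurableSet_Ioo).2 (h1.const_mul (g u))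
          refine h2.congr (Eventually.of_forall fun b => ?_)
          by_cases hb : b ∈ Ioo u a
          · simp only
            rw [indicator_of_mem hb, indicator_of_mem (show (b, u) ∈ Tri l a from ⟨hu.1, hb.1, hb.2⟩)]
            simp only
            rw [one_div, mul_inv, div_div, div_eq_mul_inv, mul_inv]
            ring
          · simp only
            rw [indicator_of_notMem hb, indicator_of_notMem]
            intro h
            exact hb ⟨h.2.1, h.2.2⟩
        · have : (fun b => (Tri l a).indicator
              (fun p : ℝ × ℝ => g p.2 / √(p.1 - p.2) / √(a - p.1)) (b, u)) = fun _ => 0 := by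
            ext b
            rw [indicator_of_notMem]
            intro h
            exact hu ⟨h.1, h.2.1.trans h.2.2⟩
          rw [this]
          exact integrable_zero _ _ _
      · have key : (fun u => ∫ b, ‖(Tri l a).indicator
              (fun p : ℝ × ℝ => g p.2 / √(p.1 - p.2) / √(a - p.1)) (b, u)‖)
            = (Ioo l a).indicator (fun u => |g u| * π) := by
          ext u
          by_cases hu : u ∈ Ioo l a
          · rw [indicator_of_mem hu, ← integral_abel_one hu.2,
              intervalIntegral.integral_of_le hu.2.le, integral_Ioc_eq_integral_Ioo,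
              ← MeasureTheory.integral_const_mul, ← MeasureTheory.integral_indicator measurableSet_Ioo]
            congr 1
            ext b
            by_cases hb : b ∈ Ioo u a
            · rw [indicator_of_mem hb, indicator_of_mem (show (b, u) ∈ Tri l a from ⟨hu.1, hb.1, hb.2⟩)]
              simp only [norm_div, Real.norm_eq_abs]
              rw [abs_of_nonneg (Real.sqrt_nonneg _), abs_of_nonneg (Real.sqrt_nonneg _),
                one_div, mul_inv, div_div, div_eq_mul_inv, mul_inv]
              ring
            · rw [indicator_of_notMem hb, indicator_of_notMem]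
              · simp
              · intro h
                exact hb ⟨h.2.1, h.2.2⟩
          · rw [indicator_of_notMem hu]
            have : (fun b => ‖(Tri l a).indicator
                (fun p : ℝ × ℝ => g p.2 / √(p.1 - p.2) / √(a - p.1)) (b, u)‖) = fun _ => 0 := by
              ext b
              rw [indicator_of_notMem]
              · simp
              · intro h
                exact hu ⟨h.1, h.2.1.trans h.2.2⟩
            rw [this]
            simp
        rw [key]
        exact (integrable_indicator_iff measurableSet_Ioo).2 (hg.abs.mul_const π)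
    have h5 := (integrable_indicator_iff (measurableSet_Tri l a)).1 this
    exact h5
  have e1 : ∀ b, (∫ u in l..b, g u / √(b - u)) / √(a - b)
      = ∫ u in l..b, g u / √(b - u) / √(a - b) := by
    intro b
    rw [← intervalIntegral.integral_div]
  simp_rw [e1]
  rw [h, ← intervalIntegral.integral_const_mul]
  rw [intervalIntegral.integral_of_le hla, intervalIntegral.integral_of_le hla,
    integral_Ioc_eq_integral_Ioo, integral_Ioc_eq_integral_Ioo]
  apply setIntegral_congr_fun measurableSet_Ioo
  intro u hu
  simp only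
  have e2 : ∀ b, g u / √(b - u) / √(a - b) = g u * (1 / (√(a - b) * √(b - u))) := by
    intro b
    rw [one_div, mul_inv, div_div, div_eq_mul_inv, mul_inv]
    ring
  simp only [e2]
  rw [intervalIntegral.integral_const_mul, integral_abel_one hu.2]
  ring

/-- Applying the Abel transform to the kernel `√`: the mirror of `abel_sqrt_abel`. -/
lemma abel_abel_sqrt {l a : ℝ} (hla : l ≤ a) {g : ℝ → ℝ} (hg : IntegrableOn g (Ioo l a)) :
    ∫ b in l..a, (∫ u in l..b, √(b - u) * g u) / √(a - b) = π / 2 * ∫ u in l..a, (a - u) * g u := by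
  have h : ∫ b in l..a, ∫ u in l..b, √(b - u) * g u / √(a - b)
      = ∫ u in l..a, ∫ b in u..a, √(b - u) * g u / √(a - b) := by
    apply tri_swap_integrable hla
    have hT : IntegrableOn (fun p : ℝ × ℝ => √(p.1 - p.2) * g p.2 / √(a - p.1)) (Tri l a) := by
      have h1 : Integrable ((Ioo l a).indicator (fun b => 1 / √(a - b))) := by
        rw [integrable_indicator_iff measurableSet_Ioo]
        have h0 := integrableOn_inv_sqrt (a - l)
        rw [← intervalIntegrable_iff_integrableOn_Ioo_of_le (by linarith)] at h0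
        rw [← intervalIntegrable_iff_integrableOn_Ioo_of_le hla]
        have h2 := (h0.comp_sub_left a).symm
        simpa using h2
      have h2 : Integrable ((Ioo l a).indicator g) := by
        rwa [integrable_indicator_iff measurableSet_Ioo]
      have h3 := (h1.mul_prod h2)
      have h4 : IntegrableOn (fun p : ℝ × ℝ => (Ioo l a).indicator (fun b => 1 / √(a - b)) p.1 *
          (Ioo l a).indicator g p.2) (Tri l a) := by
        have := h3.integrableOn (s := Tri l a)
        rw [← Measure.volume_eq_prod] at this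
        exact this
      have h5 : Measurable (fun p : ℝ × ℝ => √(p.1 - p.2)) := by fun_prop
      have h6 := h4.bdd_mul (c := √(a - l)) (f := fun p : ℝ × ℝ => √(p.1 - p.2))
        h5.aestronglyMeasurable
        ((ae_restrict_iff' (measurableSet_Tri l a)).2 (Eventually.of_forall fun p hp => by
          rw [Real.norm_eq_abs, abs_of_nonneg (Real.sqrt_nonneg _)]
          exact Real.sqrt_le_sqrt (by linarith [hp.1, hp.2.2])))
      refine h6.congr ((ae_restrict_iff' (measurableSet_Tri l a)).2
        (Eventually.of_forall fun p hp => ?_))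
      simp only
      rw [indicator_of_mem (show p.2 ∈ Ioo l a from ⟨hp.1, hp.2.1.trans hp.2.2⟩),
        indicator_of_mem (show p.1 ∈ Ioo l a from ⟨hp.1.trans hp.2.1, hp.2.2⟩)]
      ring
    exact hT
  have e1 : ∀ b, (∫ u in l..b, √(b - u) * g u) / √(a - b)
      = ∫ u in l..b, √(b - u) * g u / √(a - b) := by
    intro b
    rw [← intervalIntegral.integral_div]
  simp_rw [e1]
  rw [h, ← intervalIntegral.integral_const_mul]
  apply intervalIntegral.integral_congr
  intro u hu
  rw [uIcc_of_le hla] at hu
  have e2 : ∀ b, √(b - u) * g u / √(a - b) = g u * (√(b - u) / √(a - b)) := by intro b; ring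
  simp only [e2]
  rw [intervalIntegral.integral_const_mul]
  have e3 : ∫ b in u..a, √(b - u) / √(a - b) = π / 2 * (a - u) := by
    have := intervalIntegral.integral_comp_sub_left (a := u) (b := a)
      (fun b => √(a - b) / √(b - u)) (a + u)
    rw [show a + u - a = u by ring, show a + u - u = a by ring, integral_abel_half hu.2] at this
    rw [← this]
    apply intervalIntegral.integral_congr
    intro b _
    simp only
    rw [show a - (a + u - b) = b - u by ring, show a + u - b - u = a - b by ring]
  rw [e3]
  ring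

/-- a continuous function all of whose primitives from `l` vanish is zero -/
lemma eq_zero_of_primitive {l A : ℝ} (hlA : l < A) {ψ : ℝ → ℝ} (hψ : ContinuousOn ψ (Icc l A))
    (h : ∀ a ∈ Ioo l A, ∫ u in l..a, ψ u = 0) : ∀ a ∈ Icc l A, ψ a = 0 := by
  have h1 : ∀ a ∈ Ioo l A, ψ a = 0 := by
    intro a ha
    have hc : ContinuousAt ψ a := hψ.continuousAt (Icc_mem_nhds ha.1 ha.2)
    have hint : IntervalIntegrable ψ volume l a := by
      apply ContinuousOn.intervalIntegrable
      rw [uIcc_of_le ha.1.le]
      exact hψ.mono (Icc_subset_Icc_right ha.2.le)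
    have hd : HasDerivAt (fun a => ∫ u in l..a, ψ u) (ψ a) a := by
      refine intervalIntegral.integral_hasDerivAt_right hint ?_ hc
      exact ContinuousOn.stronglyMeasurableAtFilter isOpen_Ioo (hψ.mono Ioo_subset_Icc_self) a ha
    have hd0 : HasDerivAt (fun a => ∫ u in l..a, ψ u) 0 a := by
      refine (hasDerivAt_const a (0 : ℝ)).congr_of_eventuallyEq ?_
      filter_upwards [Ioo_mem_nhds ha.1 ha.2] with b hb
      exact h b hb
    exact hd.unique hd0
  intro a ha
  have hcl : Icc l A = closure (Ioo l A) := (closure_Ioo hlA.ne).symm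
  have : EqOn ψ (fun _ => 0) (closure (Ioo l A)) := by
    apply Set.EqOn.of_subset_closure (s := Ioo l A) (fun x hx => h1 x hx)
    · rw [← hcl]; exact hψ
    · exact continuousOn_const
    · exact subset_closure
    · exact subset_rfl
  exact this (hcl ▸ ha)

/-- **Injectivity of the Abel transform** on continuous functions. -/
lemma abel_injective {l A : ℝ} (hlA : l < A) {ψ : ℝ → ℝ} (hψ : ContinuousOn ψ (Icc l A))
    (h : ∀ b ∈ Ioo l A, ∫ u in l..b, ψ u / √(b - u) = 0) : ∀ a ∈ Icc l A, ψ a = 0 := by
  apply eq_zero_of_primitive hlA hψ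
  intro a ha
  have hint : IntegrableOn ψ (Ioo l a) :=
    ((hψ.mono (Icc_subset_Icc_right ha.2.le)).integrableOn_Icc).mono_set Ioo_subset_Icc_self
  have h1 := abel_abel ha.1.le hint
  have h2 : ∫ b in l..a, (∫ u in l..b, ψ u / √(b - u)) / √(a - b) = 0 := by
    rw [intervalIntegral.integral_of_le ha.1.le, integral_Ioc_eq_integral_Ioo]
    rw [setIntegral_congr_fun (g := fun _ => (0 : ℝ)) measurableSet_Ioo]
    · simp
    · intro b hb
      simp only
      rw [h b ⟨hb.1, hb.2.trans ha.2⟩, zero_div]
  rw [h2] at h1
  have := Real.pi_pos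
  rcases mul_eq_zero.1 h1.symm with h3 | h3
  · exact absurd h3 this.ne'
  · exact h3

/-- Uniqueness for the kernel `√(a-b)`. -/
lemma sqrt_kernel_injective {l A : ℝ} (hlA : l < A) {ψ : ℝ → ℝ} (hψ : ContinuousOn ψ (Icc l A))
    (h : ∀ a ∈ Ioo l A, ∫ b in l..a, √(a - b) * ψ b = 0) : ∀ a ∈ Icc l A, ψ a = 0 := by
  have hint : ∀ a ∈ Ioo l A, IntervalIntegrable ψ volume l a := by
    intro a ha
    apply ContinuousOn.intervalIntegrable
    rw [uIcc_of_le ha.1.le]
    exact hψ.mono (Icc_subset_Icc_right ha.2.le)
  have hIoo : ∀ a ∈ Ioo l A, IntegrableOn ψ (Ioo l a) := fun a ha =>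
    ((hψ.mono (Icc_subset_Icc_right ha.2.le)).integrableOn_Icc).mono_set Ioo_subset_Icc_self
  -- second primitive vanishes
  have h0 : ∀ a ∈ Ioo l A, ∫ u in l..a, (a - u) * ψ u = 0 := by
    intro a ha
    have h1 := abel_abel_sqrt ha.1.le (hIoo a ha)
    have h2 : ∫ b in l..a, (∫ u in l..b, √(b - u) * ψ u) / √(a - b) = 0 := by
      rw [intervalIntegral.integral_of_le ha.1.le, integral_Ioc_eq_integral_Ioo]
      rw [setIntegral_congr_fun (g := fun _ => (0 : ℝ)) measurableSet_Ioo]
      · simp
      · intro b hb
        simp only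
        rw [h b ⟨hb.1, hb.2.trans ha.2⟩, zero_div]
    rw [h2] at h1
    have := Real.pi_pos
    rcases mul_eq_zero.1 h1.symm with h3 | h3
    · exact absurd h3 (by positivity)
    · exact h3
  apply eq_zero_of_primitive hlA hψ
  intro a ha
  -- derivative of the second primitive is the first primitive
  set P : ℝ → ℝ := fun a => ∫ u in l..a, ψ u with hP
  have hdP : ∀ a ∈ Ioo l A, HasDerivAt P (ψ a) a := by
    intro a ha
    refine intervalIntegral.integral_hasDerivAt_right (hint a ha) ?_
      (hψ.continuousAt (Icc_mem_nhds ha.1 ha.2))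
    exact ContinuousOn.stronglyMeasurableAtFilter isOpen_Ioo (hψ.mono Ioo_subset_Icc_self) a ha
  have hdQ : ∀ a ∈ Ioo l A, HasDerivAt (fun a => ∫ u in l..a, u * ψ u) (a * ψ a) a := by
    intro a ha
    have hc : ContinuousOn (fun u => u * ψ u) (Icc l A) := continuousOn_id.mul hψ
    refine intervalIntegral.integral_hasDerivAt_right ?_ ?_
      (hc.continuousAt (Icc_mem_nhds ha.1 ha.2))
    · apply ContinuousOn.intervalIntegrable
      rw [uIcc_of_le ha.1.le]
      exact hc.mono (Icc_subset_Icc_right ha.2.le)
    · exact ContinuousOn.stronglyMeasurableAtFilter isOpen_Ioo (hc.mono Ioo_subset_Icc_self) a ha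
  have heq : ∀ a ∈ Ioo l A, ∫ u in l..a, (a - u) * ψ u = a * P a - ∫ u in l..a, u * ψ u := by
    intro a ha
    rw [hP]
    simp only
    rw [← intervalIntegral.integral_const_mul, ← intervalIntegral.integral_sub]
    · congr 1; ext u; ring
    · exact (hint a ha).const_mul a
    · apply ContinuousOn.intervalIntegrable
      rw [uIcc_of_le ha.1.le]
      exact (continuousOn_id.mul hψ).mono (Icc_subset_Icc_right ha.2.le)
  have hd1 : HasDerivAt (fun a => a * P a - ∫ u in l..a, u * ψ u) (P a) a := by
    have := ((hasDerivAt_id a).mul (hdP a ha)).sub (hdQ a ha)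
    refine this.congr_deriv ?_
    simp
  have hd0 : HasDerivAt (fun a => a * P a - ∫ u in l..a, u * ψ u) 0 a := by
    refine (hasDerivAt_const a (0 : ℝ)).congr_of_eventuallyEq ?_
    filter_upwards [Ioo_mem_nhds ha.1 ha.2] with b hb
    rw [← heq b hb, h0 b hb]
  exact hd1.unique hd0

/-- Taylor form: `∫ (a-u) h''(u) du = h(a) - h(l) - (a-l) h'(l)`. -/
lemma integral_taylor_two {l a : ℝ} (hla : l ≤ a) {h h' h'' : ℝ → ℝ}
    (hh : ContinuousOn h (Icc l a)) (hh' : ContinuousOn h' (Icc l a))
    (hd : ∀ u ∈ Ioo l a, HasDerivAt h (h' u) u) (hd' : ∀ u ∈ Ioo l a, HasDerivAt h' (h'' u) u)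
    (hint : IntegrableOn h'' (Ioo l a)) :
    ∫ u in l..a, (a - u) * h'' u = h a - h l - (a - l) * h' l := by
  have hi : IntervalIntegrable (fun u => (a - u) * h'' u) volume l a := by
    rw [← intervalIntegrable_iff_integrableOn_Ioo_of_le hla] at hint
    exact hint.continuousOn_mul (by fun_prop)
  rw [intervalIntegral.integral_eq_sub_of_hasDerivAt_of_le hla
    (f := fun u => (a - u) * h' u + h u) ?_ ?_ hi]
  · ring
  · exact ((continuousOn_const.sub continuousOn_id).mul hh').add hh
  · intro u hu
    have := (((hasDerivAt_id u).const_sub a).mul (hd' u hu)).add (hd u hu)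
    refine this.congr_deriv ?_
    simp

/-- **Inversion of the kernel `√(a-b)`**: `ρ(b) = (2/π) ∫_l^b h''(u)/√(b-u) du` solves
`∫_l^a √(a-b) ρ(b) db = h(a)` when `h(l) = h'(l) = 0`. -/
lemma sqrt_kernel_solve {l a : ℝ} (hla : l ≤ a) {h h' h'' : ℝ → ℝ}
    (hh : ContinuousOn h (Icc l a)) (hh' : ContinuousOn h' (Icc l a))
    (hd : ∀ u ∈ Ioo l a, HasDerivAt h (h' u) u) (hd' : ∀ u ∈ Ioo l a, HasDerivAt h' (h'' u) u)
    (hint : IntegrableOn h'' (Ioo l a)) (h0 : h l = 0) (h0' : h' l = 0) :
    ∫ b in l..a, √(a - b) * (2 / π * ∫ u in l..b, h'' u / √(b - u)) = h a := by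
  have h1 := abel_sqrt_abel hla hint
  rw [integral_taylor_two hla hh hh' hd hd' hint, h0, h0'] at h1
  have h2 : ∀ b, √(a - b) * (2 / π * ∫ u in l..b, h'' u / √(b - u))
      = 2 / π * (√(a - b) * ∫ u in l..b, h'' u / √(b - u)) := by intro b; ring
  simp_rw [h2]
  rw [intervalIntegral.integral_const_mul, h1]
  have := Real.pi_pos
  field_simp
  ring

end Pool.Agent.Unicorn
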