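import Pool.Agent.Unicorn.B3b

/-!
# Unicorn B3c: the half-derivative lemma (HD)
-/

set_option autoImplicit false

open Set MeasureTheory intervalIntegral Real Filter Topology

namespace Pool.Agent.Unicorn

/-- The bounded operator of the half-derivative lemma:
`hdK g β = (2/π) ∫_0^1 t (1-t)^{-1/2} g(β t) dt`. -/
noncomputable def hdK (g : ℝ → ℝ) (β : ℝ) : ℝ := 2 / π * ∫ t in (0:ℝ)..1, t / √(1 - t) * g (β * t)

/-- `hdK g β / √β` as an Abel-type integral -/
lemma hdK_div_sqrt (g : ℝ → ℝ) {β : ℝ} (hβ : 0 < β) :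
    hdK g β / √β = 2 / π * ∫ y in (0:ℝ)..β, y * g y / (β ^ 2 * √(β - y)) := by
  have h := intervalIntegral.integral_comp_mul_left (a := 0) (b := 1)
    (fun y => (y / β) / √(1 - y / β) * g y) hβ.ne'
  simp only [mul_zero, mul_one, smul_eq_mul] at h
  have e1 : ∀ t, (β * t / β) / √(1 - β * t / β) * g (β * t) = t / √(1 - t) * g (β * t) := by
    intro t
    rw [mul_div_cancel_left₀ t hβ.ne']
  simp only [e1] at h
  unfold hdK
  rw [h, mul_div_assoc, ← intervalIntegral.integral_const_mul, ← intervalIntegral.integral_div]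
  congr 1
  apply intervalIntegral.integral_congr
  intro y hy
  rw [uIcc_of_le hβ.le] at hy
  simp only
  have e2 : 1 - y / β = (β - y) / β := by field_simp
  have sb : 0 < √β := Real.sqrt_pos.2 hβ
  have hbb : √β * √β = β := Real.mul_self_sqrt hβ.le
  rw [e2, Real.sqrt_div (by linarith [hy.2])]
  rcases eq_or_lt_of_le hy.2 with rfl | hlt
  · simp
  · have sB : 0 < √(β - y) := Real.sqrt_pos.2 (by linarith)
    field_simp

lemma hd_bound {C x β y gy : ℝ} (hC : |gy| ≤ C) (hy : 0 < y) (hyβ : y < β) (hβx : β < x) :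
    |√(x - β) * (y * gy / (β ^ 2 * √(β - y)))| ≤
      (C * √x) * (β - y) ^ (-(3 / 4) : ℝ) * y ^ (-(3 / 4) : ℝ) := by
  have hβ : 0 < β := hy.trans hyβ
  have hx : 0 < x := hβ.trans hβx
  have hB : 0 < β - y := by linarith
  have hC0 : 0 ≤ C := (abs_nonneg _).trans hC
  have sB : 0 < √(β - y) := Real.sqrt_pos.2 hB
  have h1 : |√(x - β) * (y * gy / (β ^ 2 * √(β - y)))| ≤ √x * (C * (1 / (β * √(β - y)))) := by
    rw [abs_mul, abs_of_nonneg (Real.sqrt_nonneg _)]
    apply mul_le_mul (Real.sqrt_le_sqrt (by linarith)) _ (abs_nonneg _) (Real.sqrt_nonneg _)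
    rw [abs_div, abs_mul, abs_of_pos hy, abs_of_pos (by positivity : 0 < β ^ 2 * √(β - y)),
      div_le_iff₀ (by positivity)]
    have : C * (1 / (β * √(β - y))) * (β ^ 2 * √(β - y)) = C * β := by field_simp
    rw [this]
    calc y * |gy| ≤ β * C := mul_le_mul hyβ.le hC (abs_nonneg _) hβ.le
      _ = C * β := mul_comm _ _
  have h2 : 1 / (β * √(β - y)) ≤ (β - y) ^ (-(3 / 4) : ℝ) * y ^ (-(3 / 4) : ℝ) := by
    rw [Real.rpow_neg hB.le, Real.rpow_neg hy.le, ← mul_inv, one_div]
    apply inv_anti₀ (by positivity)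
    have e1 : β = β ^ (1 / 4 : ℝ) * β ^ (3 / 4 : ℝ) := by
      rw [← Real.rpow_add hβ]; norm_num
    have e2 : (β - y) ^ (3 / 4 : ℝ) = (β - y) ^ (1 / 4 : ℝ) * √(β - y) := by
      rw [Real.sqrt_eq_rpow, ← Real.rpow_add hB]; norm_num
    rw [e2]
    calc (β - y) ^ (1 / 4 : ℝ) * √(β - y) * y ^ (3 / 4 : ℝ)
        ≤ β ^ (1 / 4 : ℝ) * √(β - y) * β ^ (3 / 4 : ℝ) := by
          gcongr
          · linarith
      _ = (β ^ (1 / 4 : ℝ) * β ^ (3 / 4 : ℝ)) * √(β - y) := by ring
      _ = β * √(β - y) := by rw [← e1]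
  calc _ ≤ √x * (C * (1 / (β * √(β - y)))) := h1
    _ ≤ √x * (C * ((β - y) ^ (-(3 / 4) : ℝ) * y ^ (-(3 / 4) : ℝ))) := by gcongr
    _ = _ := by ring

lemma integrableOn_rpow_Ioo (c : ℝ) :
    IntegrableOn (fun z : ℝ => z ^ (-(3 / 4) : ℝ)) (Ioo 0 c) := by
  rcases le_or_gt c 0 with hc | hc
  · rw [Ioo_eq_empty (by linarith)]; exact integrableOn_empty
  have := intervalIntegral.intervalIntegrable_rpow' (a := 0) (b := c) (r := (-(3 / 4) : ℝ))
    (by norm_num)
  rwa [intervalIntegrable_iff_integrableOn_Ioo_of_le hc.le] at this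

/-- **Half-derivative lemma (HD)**. `n` continuous on `[0,X]`, twice differentiable on `(0,X)`, with
`|n'| ≤ C/√y` and `g(y) = √y (2 n'(y) + y n''(y))` bounded and continuous.  Then
`∫_0^x √(x-β) (hdK g β / √β) dβ = √x (n x - n 0)`. -/
theorem hd_lemma {X C : ℝ} {n n' n'' g : ℝ → ℝ} (hn : ContinuousOn n (Icc 0 X))
    (hd1 : ∀ y ∈ Ioo 0 X, HasDerivAt n (n' y) y)
    (hd2 : ∀ y ∈ Ioo 0 X, HasDerivAt n' (n'' y) y)
    (hg : ∀ y ∈ Ioo 0 X, 2 * n' y + y * n'' y = g y / √y)
    (hgc : ContinuousOn g (Ioo 0 X)) (hgb : ∀ y ∈ Ioo 0 X, |g y| ≤ C)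
    (hnb : ∀ y ∈ Ioo 0 X, |n' y| ≤ C / √y) {x : ℝ} (hx : x ∈ Icc 0 X) :
    ∫ β in (0:ℝ)..x, √(x - β) * (hdK g β / √β) = √x * (n x - n 0) := by
  obtain ⟨hx0, hxX⟩ := hx
  rcases hx0.eq_or_lt with rfl | hx0
  · simp
  have hsub : Ioo 0 x ⊆ Ioo 0 X := Ioo_subset_Ioo_right hxX
  have hC0 : 0 ≤ C := (abs_nonneg _).trans (hgb (x / 2) (hsub ⟨by linarith, by linarith⟩))
  have hpi := Real.pi_pos
  -- step 1: rewrite
  have e1 : ∫ β in (0:ℝ)..x, √(x - β) * (hdK g β / √β)
      = 2 / π * ∫ β in (0:ℝ)..x, ∫ y in (0:ℝ)..β, √(x - β) * (y * g y / (β ^ 2 * √(β - y))) := by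
    rw [← intervalIntegral.integral_const_mul, intervalIntegral.integral_of_le hx0.le,
      intervalIntegral.integral_of_le hx0.le]
    apply setIntegral_congr_fun measurableSet_Ioc
    intro β hβ
    simp only
    rw [hdK_div_sqrt g hβ.1, intervalIntegral.integral_const_mul]
    ring
  -- step 2: swap
  have e2 : ∫ β in (0:ℝ)..x, ∫ y in (0:ℝ)..β, √(x - β) * (y * g y / (β ^ 2 * √(β - y)))
      = ∫ y in (0:ℝ)..x, ∫ β in y..x, √(x - β) * (y * g y / (β ^ 2 * √(β - y))) := by
    apply tri_swap_integrable hx0.le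
    have hI : IntegrableOn (fun p : ℝ × ℝ => √(x - p.1) * (p.2 * g p.2 / (p.1 ^ 2 * √(p.1 - p.2))))
        (Tri 0 x) := by
      refine integrableOn_Tri (κ := fun z => (C * √x) * z ^ (-(3 / 4) : ℝ))
        (g := fun y => y ^ (-(3 / 4) : ℝ)) ((integrableOn_rpow_Ioo _).const_mul _)
        (integrableOn_rpow_Ioo _) ?_ ?_
      · apply ContinuousOn.aestronglyMeasurable _ (measurableSet_Tri 0 x)
        refine ContinuousOn.mul (by fun_prop) ?_
        refine ContinuousOn.div ?_ (by fun_prop) ?_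
        · refine continuousOn_snd.mul ?_
          exact hgc.comp continuousOn_snd (fun p hp => hsub ⟨hp.1, hp.2.1.trans hp.2.2⟩)
        · rintro p ⟨h1, h2, h3⟩
          have hp1 : 0 < p.1 := h1.trans h2
          have : 0 < √(p.1 - p.2) := Real.sqrt_pos.2 (by linarith)
          positivity
      · rintro p ⟨h1, h2, h3⟩
        exact hd_bound (hgb p.2 (hsub ⟨h1, h2.trans h3⟩)) h1 h2 h3
    exact hI
  -- step 3: inner integral
  have e3 : ∫ y in (0:ℝ)..x, ∫ β in y..x, √(x - β) * (y * g y / (β ^ 2 * √(β - y)))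
      = π / 2 * (1 / √x) * ∫ y in (0:ℝ)..x, (x - y) * (2 * n' y + y * n'' y) := by
    rw [← intervalIntegral.integral_const_mul, intervalIntegral.integral_of_le hx0.le,
      intervalIntegral.integral_of_le hx0.le, integral_Ioc_eq_integral_Ioo,
      integral_Ioc_eq_integral_Ioo]
    apply setIntegral_congr_fun measurableSet_Ioo
    intro y hy
    simp only
    have e4 : ∀ β, √(x - β) * (y * g y / (β ^ 2 * √(β - y)))
        = (y * g y) * (√(x - β) / (β ^ 2 * √(β - y))) := by intro β; ring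
    simp only [e4]
    rw [intervalIntegral.integral_const_mul, integral_K hy.1 hy.2.le, hg y (hsub hy),
      Real.sqrt_mul hx0.le]
    have sx : 0 < √x := Real.sqrt_pos.2 hx0
    have sy : 0 < √y := Real.sqrt_pos.2 hy.1
    have hy' := hy.1
    field_simp
  -- step 4: FTC
  have hmc : ContinuousOn (fun y => (x - y) * (y * n' y)) (Icc 0 x) := by
    intro y hy
    by_cases hy' : y ∈ Ioo 0 x
    · apply ContinuousAt.continuousWithinAt
      have := (hd2 y (hsub hy')).continuousAt
      exact (continuousAt_const.sub continuousAt_id).mul (continuousAt_id.mul this)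
    · -- endpoints: squeeze
      have hy0 : (x - y) * (y * n' y) = 0 := by
        have h0 : y = 0 ∨ y = x := by
          by_contra hcon
          push Not at hcon
          exact hy' ⟨lt_of_le_of_ne hy.1 (Ne.symm hcon.1), lt_of_le_of_ne hy.2 hcon.2⟩
        rcases h0 with h | h
        · rw [h]; ring
        · rw [h]; ring
      have hbd : ∀ z ∈ Icc 0 x, ‖(x - z) * (z * n' z)‖ ≤ (x - z) * (C * √z) := by
        intro z hz
        rcases hz.1.eq_or_lt with h0 | h0
        · rw [← h0]; simp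
        rcases hz.2.eq_or_lt with h1 | h1
        · rw [h1]; simp
        have hb := hnb z (hsub ⟨h0, h1⟩)
        have sz : 0 < √z := Real.sqrt_pos.2 h0
        rw [Real.norm_eq_abs, abs_mul, abs_mul, abs_of_pos (by linarith : 0 < x - z), abs_of_pos h0]
        apply mul_le_mul_of_nonneg_left _ (by linarith)
        calc z * |n' z| ≤ z * (C / √z) := by gcongr
          _ = C * (z / √z) := by ring
          _ = C * √z := by rw [Real.div_sqrt]
      have hlim : Tendsto (fun z => (x - z) * (C * √z)) (𝓝[Icc 0 x] y) (𝓝 0) := by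
        have hc : Continuous (fun z => (x - z) * (C * √z)) := by fun_prop
        have h0 : (x - y) * (C * √y) = 0 := by
          have h0 : y = 0 ∨ y = x := by
            by_contra hcon
            push Not at hcon
            exact hy' ⟨lt_of_le_of_ne hy.1 (Ne.symm hcon.1), lt_of_le_of_ne hy.2 hcon.2⟩
          rcases h0 with h | h
          · rw [h]; simp
          · rw [h]; simp
        have := hc.continuousWithinAt (s := Icc 0 x) (x := y)
        unfold ContinuousWithinAt at this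
        simp only [h0] at this
        exact this
      unfold ContinuousWithinAt
      simp only [hy0]
      exact squeeze_zero_norm' (eventually_nhdsWithin_of_forall hbd) hlim
  have hint : IntervalIntegrable (fun y => (x - y) * (2 * n' y + y * n'' y)) volume 0 x := by
    rw [intervalIntegrable_iff_integrableOn_Ioo_of_le hx0.le]
    have h1 : IntegrableOn (fun y => (x * C) * (1 / √y)) (Ioo 0 x) :=
      (integrableOn_inv_sqrt x).const_mul _
    refine Integrable.mono' h1 ?_ ?_
    · have hc : ContinuousOn (fun y => (x - y) * (g y / √y)) (Ioo 0 x) := by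
        refine ContinuousOn.mul (by fun_prop) ((hgc.mono hsub).div (by fun_prop) ?_)
        intro y hy
        exact (Real.sqrt_pos.2 hy.1).ne'
      refine (hc.aestronglyMeasurable measurableSet_Ioo).congr ?_
      refine (ae_restrict_iff' measurableSet_Ioo).2 (Eventually.of_forall fun y hy => ?_)
      simp only
      rw [hg y (hsub hy)]
    · refine (ae_restrict_iff' measurableSet_Ioo).2 (Eventually.of_forall fun y hy => ?_)
      rw [hg y (hsub hy), Real.norm_eq_abs, abs_mul, abs_div, abs_of_nonneg (Real.sqrt_nonneg y),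
        abs_of_pos (by linarith [hy.2] : 0 < x - y), mul_assoc, one_div, div_eq_mul_inv]
      have := hgb y (hsub hy)
      have sy : 0 < √y := Real.sqrt_pos.2 hy.1
      apply mul_le_mul (by linarith [hy.1]) _ (by positivity) hx0.le
      gcongr
  have e4 : ∫ y in (0:ℝ)..x, (x - y) * (2 * n' y + y * n'' y) = x * (n x - n 0) := by
    rw [intervalIntegral.integral_eq_sub_of_hasDerivAt_of_le hx0.le
      (f := fun y => (x - y) * (y * n' y) + x * n y) ?_ ?_ hint]
    · ring
    · exact hmc.add (continuousOn_const.mul (hn.mono (Icc_subset_Icc_right hxX)))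
    · intro y hy
      have h1 := hd1 y (hsub hy)
      have h2 := hd2 y (hsub hy)
      have := (((hasDerivAt_id y).const_sub x).mul ((hasDerivAt_id y).mul h2)).add
        (h1.const_mul x)
      refine this.congr_deriv ?_
      simp
      ring
  rw [e1, e2, e3, e4]
  have sx : 0 < √x := Real.sqrt_pos.2 hx0
  have hxx : √x * √x = x := Real.mul_self_sqrt hx0.le
  field_simp
  rw [show √x ^ 2 = x by rw [sq]; exact hxx]

/-- HD lemma with the normalised derivatives `n1 = √y n'`, `n2 = y√y n''`. -/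
theorem hd_lemma' {X C : ℝ} {n n1 n2 : ℝ → ℝ} (hn : ContinuousOn n (Icc 0 X))
    (hd1 : ∀ y ∈ Ioo 0 X, HasDerivAt n (n1 y / √y) y)
    (hd2 : ∀ y ∈ Ioo 0 X, HasDerivAt (fun y => n1 y / √y) (n2 y / (y * √y)) y)
    (hn2 : ContinuousOn n2 (Ioo 0 X)) (hb1 : ∀ y ∈ Ioo 0 X, |n1 y| ≤ C)
    (hb2 : ∀ y ∈ Ioo 0 X, |n2 y| ≤ C) {x : ℝ} (hx : x ∈ Icc 0 X) :
    ∫ β in (0:ℝ)..x, √(x - β) * (hdK (fun y => 2 * n1 y + n2 y) β / √β) = √x * (n x - n 0) := by
  have hC : ∀ y ∈ Ioo 0 X, 0 ≤ C := fun y hy => (abs_nonneg _).trans (hb1 y hy)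
  have hn1 : ContinuousOn n1 (Ioo 0 X) := by
    have h1 : ContinuousOn (fun y => n1 y / √y) (Ioo 0 X) := fun y hy =>
      (hd2 y hy).continuousAt.continuousWithinAt
    have h2 : ContinuousOn (fun y => n1 y / √y * √y) (Ioo 0 X) := h1.mul (by fun_prop)
    refine h2.congr (fun y hy => ?_)
    have : 0 < √y := Real.sqrt_pos.2 hy.1
    field_simp
  refine hd_lemma (C := 3 * C) (n' := fun y => n1 y / √y) (n'' := fun y => n2 y / (y * √y))
    (g := fun y => 2 * n1 y + n2 y) hn hd1
    hd2 ?_ ((continuousOn_const.mul hn1).add hn2) ?_ ?_ hx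
  · intro y hy
    have : 0 < √y := Real.sqrt_pos.2 hy.1
    have hy' := hy.1
    field_simp
  · intro y hy
    calc |2 * n1 y + n2 y| ≤ |2 * n1 y| + |n2 y| := abs_add_le _ _
      _ = 2 * |n1 y| + |n2 y| := by rw [abs_mul]; norm_num
      _ ≤ 3 * C := by linarith [hb1 y hy, hb2 y hy]
  · intro y hy
    have : 0 < √y := Real.sqrt_pos.2 hy.1
    rw [abs_div, abs_of_pos this]
    gcongr
    linarith [hb1 y hy, hC y hy]

end Pool.Agent.Unicorn
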