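import Mathlib
import Pool.Agent.Unicorn.B6b
import Pool.Agent.Unicorn.B3d

/-!
# Unicorn, module B4 (step (8)): the base solution, core argument

`Q = qin + G / (4 √v)`, `G = κ g_h - g_χ`, `v = m_1² + ∫ ½ √b G(b) db`.
-/

set_option autoImplicit false

open Set Topology Filter MeasureTheory
open scoped ContDiff

namespace Pool.Agent.Unicorn.B4

open B6

/-- `√ · g` is smooth when `g` is smooth and vanishes on `(-∞,c]`, `c > 0` -/
lemma sqrt_mul_contDiff {g : ℝ → ℝ} (hg : ContDiff ℝ ∞ g) {c : ℝ} (hc : 0 < c)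
    (h0 : ∀ s ≤ c, g s = 0) : ContDiff ℝ ∞ (fun s => √s * g s) := by
  rw [contDiff_iff_contDiffAt]
  intro x
  rcases lt_or_ge x c with hx | hx
  · have : (fun s => √s * g s) =ᶠ[𝓝 x] fun _ => 0 := by
      filter_upwards [Iio_mem_nhds hx] with s hs
      rw [h0 s (le_of_lt hs), mul_zero]
    exact contDiffAt_const.congr_of_eventuallyEq this
  · exact (Real.contDiffAt_sqrt (by linarith : x ≠ 0)).mul hg.contDiffAt

/-- `∫_0^2 √u g(a-u) du` -/
noncomputable def sqrtInt (g : ℝ → ℝ) (a : ℝ) : ℝ := ∫ u in (0 : ℝ)..2, √u * g (a - u)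

lemma sqrtInt_contDiff {g : ℝ → ℝ} (hg : ContDiff ℝ ∞ g) (hc : HasCompactSupport g) :
    ContDiff ℝ ∞ (sqrtInt g) := by
  have h1 : sqrtInt g = fun b => (convolution (indicator (Ioc (0 : ℝ) 2) (fun u => √u)) g
        (ContinuousLinearMap.mul ℝ ℝ) volume) b := by
    funext b
    unfold sqrtInt convolution
    rw [intervalIntegral.integral_of_le (by norm_num), ← integral_indicator measurableSet_Ioc]
    congr 1
    funext u
    by_cases hu : u ∈ Ioc (0 : ℝ) 2
    · simp [indicator_of_mem hu]
    · simp [indicator_of_notMem hu]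
  rw [h1]
  apply HasCompactSupport.contDiff_convolution_right _ hc _ hg
  have h : IntervalIntegrable (fun u : ℝ => √u) volume 0 2 :=
    (by fun_prop : Continuous fun u : ℝ => √u).intervalIntegrable _ _
  have h2 := (intervalIntegrable_iff_integrableOn_Ioc_of_le (by norm_num : (0:ℝ) ≤ 2)).1 h
  exact (h2.integrable_indicator measurableSet_Ioc).locallyIntegrable

lemma sqrtInt_eq {g : ℝ → ℝ} {l a : ℝ} (hl : 0 < l) (hg : ∀ s ≤ l, g s = 0) (hgc : Continuous g)
    (_hla : l ≤ a) (ha : a ≤ 1) : ∫ b in l..a, √(a - b) * g b = sqrtInt g a := by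
  unfold sqrtInt
  have h1 := intervalIntegral.integral_comp_sub_left (a := 0) (b := 2)
    (fun s => √(a - s) * g s) a
  simp only [sub_sub_cancel, sub_zero] at h1
  rw [h1]
  have hcont : Continuous fun s => √(a - s) * g s := by fun_prop
  have hz : ∫ s in (a - 2)..l, √(a - s) * g s = 0 := by
    rw [intervalIntegral.integral_congr (g := fun _ => 0)]
    · simp
    · intro s hs
      rw [uIcc_of_le (by linarith)] at hs
      beta_reduce
      rw [hg _ hs.2, mul_zero]
  rw [← intervalIntegral.integral_add_adjacent_intervals (a := a - 2) (b := l) (c := a)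
    (hcont.intervalIntegrable _ _) (hcont.intervalIntegrable _ _), hz, zero_add]

/-- Abel inversion for `halfInt` -/
lemma sqrt_halfInt {g : ℝ → ℝ} {l a : ℝ} (hl : 0 < l) (hg : ∀ s ≤ l, g s = 0)
    (hgc : Continuous g) (hla : l ≤ a) (ha : a ≤ 1) :
    ∫ b in l..a, √(a - b) * halfInt g b = ∫ s in l..a, (a - s) * g s := by
  rw [← abel_inv hla hgc]
  apply intervalIntegral.integral_congr
  intro b hb
  rw [uIcc_of_le hla] at hb
  beta_reduce
  rw [halfInt_eq_abel hl hg hgc hb.1 (hb.2.trans ha)]

lemma halfInt_nonneg {g : ℝ → ℝ} (hg : ∀ s, 0 ≤ g s) (b : ℝ) : 0 ≤ halfInt g b := by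
  unfold halfInt
  apply mul_nonneg (by positivity)
  apply intervalIntegral.integral_nonneg (by norm_num)
  intro u _
  exact mul_nonneg (inv_nonneg.2 (Real.sqrt_nonneg u)) (hg _)

lemma halfInt_compact {g : ℝ → ℝ} (hc : HasCompactSupport g) : HasCompactSupport (halfInt g) := by
  obtain ⟨R, hR⟩ := hc.isBounded.subset_closedBall 0
  have hg : ∀ s, R < |s| → g s = 0 := by
    intro s hs
    by_contra h
    have := hR (subset_tsupport g h)
    rw [mem_closedBall_zero_iff, Real.norm_eq_abs] at this
    linarith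
  refine HasCompactSupport.intro (isCompact_Icc (a := -|R| - 1) (b := |R| + 3)) ?_
  intro b hb
  unfold halfInt
  rw [intervalIntegral.integral_congr (g := fun _ => 0)]
  · simp
  · intro u hu
    rw [uIcc_of_le (by norm_num)] at hu
    beta_reduce
    rw [hg _, mul_zero]
    rw [mem_Icc, not_and_or, not_le, not_le] at hb
    have h1 := le_abs_self R
    rcases hb with hb | hb
    · rw [lt_abs]
      right
      linarith [hu.1]
    · rw [lt_abs]
      left
      linarith [hu.2]

/-- a primitive of a smooth function is smooth -/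
lemma contDiff_primitive {w : ℝ → ℝ} (hw : ContDiff ℝ ∞ w) (l c : ℝ) :
    ContDiff ℝ ∞ (fun x => c + ∫ b in l..x, w b) ∧
      ∀ x, HasDerivAt (fun x => c + ∫ b in l..x, w b) (w x) x := by
  have hd : ∀ x, HasDerivAt (fun x => c + ∫ b in l..x, w b) (w x) x := by
    intro x
    have := (intervalIntegral.integral_hasDerivAt_right (hw.continuous.intervalIntegrable l x)
      (hw.continuous.stronglyMeasurableAtFilter _ _) hw.continuous.continuousAt).const_add c
    exact this
  refine ⟨?_, hd⟩
  rw [contDiff_infty_iff_deriv]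
  refine ⟨fun x => (hd x).differentiableAt, ?_⟩
  have : deriv (fun x => c + ∫ b in l..x, w b) = w := by
    funext x
    exact (hd x).deriv
  rw [this]
  exact hw

theorem base_core {l lam0 c2 b1 : ℝ} (hl : 0 < l) (hl0 : l < lam0) (h02 : lam0 < c2)
    (h2b : c2 < b1) (hb1 : b1 < 1)
    {qin : ℝ → ℝ} (hq : ContDiff ℝ ∞ qin) (hqnn : ∀ s, 0 ≤ qin s) (hq0 : ∀ s ≤ l, qin s = 0)
    (hq1 : ∀ s, lam0 ≤ s → qin s = 0) (hqpos : ∃ s, 0 < qin s)
    {φ : ℝ → ℝ} (hφ : ContDiff ℝ ∞ φ) (hφc : HasCompactSupport φ) (hφnn : ∀ s, 0 ≤ φ s)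
    (hφ0 : ∀ s ≤ lam0, φ s = 0) (hφ2 : 0 < ∫ s in l..c2, (c2 - s) * φ s)
    (hφ1 : ∀ a ∈ Icc b1 1, ∫ s in l..a, (a - s) * φ s = a ^ 2)
    {χ : ℝ → ℝ} (hχ : ContDiff ℝ ∞ χ) (hχc : HasCompactSupport χ) (hχ0 : ∀ s ≤ c2, χ s = 0)
    (hχ1 : ∀ s ∈ Icc b1 1, χ s = 1) :
    ∃ (κ0 : ℝ) (Q : ℝ → ℝ), 0 < κ0 ∧ ContDiff ℝ ∞ Q ∧ (∀ s ≤ l, Q s = 0) ∧
      (∀ s ≤ lam0, Q s = qin s) ∧ (∀ b, lam0 ≤ b → 0 < ∫ s in l..b, Q s * √s) ∧
      (∀ a ∈ Icc b1 1,
        ∫ b in l..a, √(a - b) * (4 * Q b * ∫ s in l..b, Q s * √s) = κ0 * a ^ 2) := by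
  -- the inner mass
  have hqs : ContDiff ℝ ∞ (fun s => qin s * √s) := by
    have h1 := sqrt_mul_contDiff hq hl hq0
    have h2 : (fun s => qin s * √s) = fun s => √s * qin s := by funext s; ring
    rw [h2]
    exact h1
  set mi : ℝ → ℝ := fun b => ∫ s in l..b, qin s * √s with hmi
  have hmis : ContDiff ℝ ∞ mi := by
    have := (contDiff_primitive hqs l 0).1
    simpa using this
  have hqs0 : ∀ s ≤ l, qin s * √s = 0 := fun s hs => by rw [hq0 s hs, zero_mul]
  have hqs1 : ∀ s, lam0 ≤ s → qin s * √s = 0 := fun s hs => by rw [hq1 s hs, zero_mul]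
  have hmi0 : ∀ b ≤ l, mi b = 0 := by
    intro b hb
    rw [hmi]
    simp only
    rw [intervalIntegral.integral_congr (g := fun _ => 0)]
    · simp
    · intro s hs
      rw [uIcc_of_ge hb] at hs
      exact hqs0 s hs.2
  set m1 := mi lam0 with hm1
  have hmi1 : ∀ b, lam0 ≤ b → mi b = m1 := by
    intro b hb
    rw [hm1, hmi]
    simp only
    rw [← intervalIntegral.integral_add_adjacent_intervals
      (hqs.continuous.intervalIntegrable l lam0) (hqs.continuous.intervalIntegrable lam0 b)]
    rw [intervalIntegral.integral_congr (a := lam0) (b := b) (g := fun _ => 0)]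
    · simp
    · intro s hs
      rw [uIcc_of_le hb] at hs
      exact hqs1 s hs.1
  have hm1pos : 0 < m1 := by
    obtain ⟨s0, hs0⟩ := hqpos
    have hs0l : l < s0 := by
      by_contra h
      rw [hq0 s0 (not_lt.1 h)] at hs0
      exact lt_irrefl _ hs0
    have hs0r : s0 < lam0 := by
      by_contra h
      rw [hq1 s0 (not_lt.1 h)] at hs0
      exact lt_irrefl _ hs0
    rw [hm1, hmi]
    refine intervalIntegral.integral_pos hl0 hqs.continuous.continuousOn ?_ ?_
    · intro s _
      exact mul_nonneg (hqnn s) (Real.sqrt_nonneg s)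
    · exact ⟨s0, ⟨hs0l.le, hs0r.le⟩, mul_pos hs0 (Real.sqrt_pos.2 (by linarith))⟩
  -- the inner data
  set gin : ℝ → ℝ := fun b => 4 * qin b * mi b with hgin
  have hgins : ContDiff ℝ ∞ gin := (contDiff_const.mul hq).mul hmis
  have hgin0 : ∀ s ≤ l, gin s = 0 := fun s hs => by rw [hgin]; simp only; rw [hq0 s hs]; ring
  have hginc : HasCompactSupport gin := by
    refine HasCompactSupport.intro (isCompact_Icc (a := l) (b := lam0)) ?_
    intro s hs
    rw [mem_Icc, not_and_or, not_le, not_le] at hs
    rw [hgin]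
    simp only
    rcases hs with hs | hs
    · rw [hq0 s hs.le]; ring
    · rw [hq1 s hs.le]; ring
  set X : ℝ → ℝ := fun a => χ a * sqrtInt gin a with hX
  have hXs : ContDiff ℝ ∞ X := hχ.mul (sqrtInt_contDiff hgins hginc)
  have hX0 : ∀ s ≤ c2, X s = 0 := fun s hs => by rw [hX]; simp only; rw [hχ0 s hs, zero_mul]
  have hXc : HasCompactSupport X := hχc.mul_right
  have hX1s : ContDiff ℝ ∞ (deriv X) := (contDiff_infty_iff_deriv.1 hXs).2
  have hX2s : ContDiff ℝ ∞ (deriv (deriv X)) := (contDiff_infty_iff_deriv.1 hX1s).2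
  have hX2c : HasCompactSupport (deriv (deriv X)) := hXc.deriv.deriv
  have hX10 : ∀ s < c2, deriv X s = 0 := by
    intro s hs
    have : X =ᶠ[𝓝 s] fun _ => 0 := by
      filter_upwards [Iio_mem_nhds hs] with t ht
      exact hX0 t (le_of_lt ht)
    rw [this.deriv_eq]; simp
  have hX20 : ∀ s ≤ c2, deriv (deriv X) s = 0 := by
    have h1 : ∀ s < c2, deriv (deriv X) s = 0 := by
      intro s hs
      have : deriv X =ᶠ[𝓝 s] fun _ => 0 := by
        filter_upwards [Iio_mem_nhds hs] with t ht
        exact hX10 t ht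
      rw [this.deriv_eq]; simp
    intro s hs
    rcases hs.lt_or_eq with h | h
    · exact h1 s h
    · have hcl : s ∈ closure (Iio c2) := by rw [closure_Iio, h]; exact self_mem_Iic
      have : EqOn (deriv (deriv X)) (fun _ => 0) (closure (Iio c2)) :=
        EqOn.closure (fun t ht => h1 t ht) hX2s.continuous continuous_const
      exact this hcl
  -- the two Abel data
  set gh : ℝ → ℝ := halfInt φ with hgh
  set gx : ℝ → ℝ := halfInt (deriv (deriv X)) with hgx
  have hghs : ContDiff ℝ ∞ gh := halfInt_contDiff hφ hφc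
  have hgxs : ContDiff ℝ ∞ gx := halfInt_contDiff hX2s hX2c
  have hgh0 : ∀ s ≤ lam0, gh s = 0 := fun s hs => halfInt_zero hφ0 hs
  have hgx0 : ∀ s ≤ c2, gx s = 0 := fun s hs => halfInt_zero hX20 hs
  have hghnn : ∀ s, 0 ≤ gh s := halfInt_nonneg hφnn
  have hlam : 0 < lam0 := hl.trans hl0
  have hc2 : 0 < c2 := hlam.trans h02
  have hwh : ContDiff ℝ ∞ (fun s => √s * gh s) := sqrt_mul_contDiff hghs hlam hgh0
  have hwx : ContDiff ℝ ∞ (fun s => √s * gx s) := sqrt_mul_contDiff hgxs hc2 hgx0
  have hwxc : HasCompactSupport (fun s => √s * gx s) := (halfInt_compact hX2c).mul_left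
  set Mx : ℝ := ∫ s, ‖√s * gx s‖ with hMx
  have hwxi : Integrable (fun s => √s * gx s) := hwx.continuous.integrable_of_hasCompactSupport hwxc
  have hMxb : ∀ a b : ℝ, a ≤ b → |∫ s in a..b, √s * gx s| ≤ Mx := by
    intro a b hab
    rw [← Real.norm_eq_abs]
    refine (intervalIntegral.norm_integral_le_integral_norm hab).trans ?_
    rw [intervalIntegral.integral_of_le hab, hMx]
    exact setIntegral_le_integral hwxi.norm (Eventually.of_forall fun s => norm_nonneg _)
  have hMx0 : 0 ≤ Mx := integral_nonneg fun s => norm_nonneg _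
  set U : ℝ := ∫ s in l..c2, √s * gh s with hU
  have hUpos : 0 < U := by
    have h1 : ∫ b in l..c2, √(c2 - b) * gh b = ∫ s in l..c2, (c2 - s) * φ s :=
      sqrt_halfInt hl (fun s hs => hφ0 s (hs.trans hl0.le)) hφ.continuous (by linarith) (by linarith)
    have h2 : ∫ b in l..c2, √(c2 - b) * gh b ≤ ∫ b in l..c2, (√l)⁻¹ * (√b * gh b) := by
      apply intervalIntegral.integral_mono_on (by linarith)
      · exact (by fun_prop : Continuous fun b => √(c2 - b) * gh b).intervalIntegrable _ _
      · exact (by fun_prop : Continuous fun b => (√l)⁻¹ * (√b * gh b)).intervalIntegrable _ _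
      · intro b hb
        rw [← mul_assoc]
        apply mul_le_mul_of_nonneg_right _ (hghnn b)
        have hsl : 0 < √l := Real.sqrt_pos.2 hl
        have e1 : √(c2 - b) ≤ 1 := by
          rw [Real.sqrt_le_one]
          linarith [hb.1]
        have e2 : √l ≤ √b := Real.sqrt_le_sqrt hb.1
        calc √(c2 - b) ≤ 1 := e1
          _ = (√l)⁻¹ * √l := by rw [inv_mul_cancel₀ hsl.ne']
          _ ≤ (√l)⁻¹ * √b := mul_le_mul_of_nonneg_left e2 (inv_nonneg.2 hsl.le)
    rw [h1, intervalIntegral.integral_const_mul] at h2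
    have h3 : 0 < (√l)⁻¹ * U := lt_of_lt_of_le hφ2 h2
    exact (mul_pos_iff_of_pos_left (inv_pos.2 (Real.sqrt_pos.2 hl))).1 h3
  -- the parameter κ
  set κ : ℝ := Mx / U + 1 with hκ
  have hκ0 : 0 < κ := by positivity
  have hκU : Mx < κ * U := by
    have : κ * U = Mx + U := by rw [hκ]; field_simp
    rw [this]; linarith
  set G : ℝ → ℝ := fun s => κ * gh s - gx s with hG
  have hGs : ContDiff ℝ ∞ G := (contDiff_const.mul hghs).sub hgxs
  have hG0 : ∀ s ≤ lam0, G s = 0 := fun s hs => by
    rw [hG]; simp only; rw [hgh0 s hs, hgx0 s (by linarith)]; ring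
  set w : ℝ → ℝ := fun s => (√s * G s) / 2 with hw
  have hws : ContDiff ℝ ∞ w := (sqrt_mul_contDiff hGs hlam hG0).div_const 2
  set v : ℝ → ℝ := fun x => m1 ^ 2 + ∫ b in l..x, w b with hv
  obtain ⟨hvs, hvd⟩ := contDiff_primitive hws l (m1 ^ 2)
  have hvd' : ∀ x, HasDerivAt v (w x) x := hvd
  have hw0 : ∀ s ≤ lam0, w s = 0 := fun s hs => by rw [hw]; simp only; rw [hG0 s hs]; ring
  have hwi : ∀ a b : ℝ, IntervalIntegrable w volume a b := fun a b =>
    hws.continuous.intervalIntegrable a b
  have hv1 : ∀ x ≤ lam0, v x = m1 ^ 2 := by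
    intro x hx
    rw [hv]
    simp only
    rw [intervalIntegral.integral_congr (g := fun _ => 0)]
    · simp
    · intro s hs
      refine hw0 s ?_
      rcases le_total l x with h | h
      · rw [uIcc_of_le h] at hs; exact hs.2.trans hx
      · rw [uIcc_of_ge h] at hs; linarith [hs.2]
  have hvpos : ∀ x, 0 < v x := by
    intro x
    rcases le_total x lam0 with hx | hx
    · rw [hv1 x hx]; positivity
    rcases le_total x c2 with hx2 | hx2
    · have h1 : 0 ≤ ∫ b in l..x, w b := by
        apply intervalIntegral.integral_nonneg (by linarith)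
        intro u hu
        rw [hw]
        simp only
        rw [hG]
        simp only
        rw [hgx0 u (hu.2.trans hx2), sub_zero]
        have := mul_nonneg hκ0.le (hghnn u)
        have := mul_nonneg (Real.sqrt_nonneg u) this
        linarith
      have : 0 < m1 ^ 2 := by positivity
      rw [hv]
      simp only
      linarith
    · have hch : Continuous fun s => √s * gh s := hwh.continuous
      have hcx : Continuous fun s => √s * gx s := hwx.continuous
      have h1 : ∫ b in l..x, w b = (κ * (∫ b in l..x, √b * gh b) - ∫ b in l..x, √b * gx b) / 2 := by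
        rw [← intervalIntegral.integral_const_mul, ← intervalIntegral.integral_sub
          ((hch.intervalIntegrable _ _).const_mul κ) (hcx.intervalIntegrable _ _),
          ← intervalIntegral.integral_div]
        apply intervalIntegral.integral_congr
        intro b _
        rw [hw, hG]
        simp only
        ring
      have h2 : U ≤ ∫ b in l..x, √b * gh b := by
        rw [hU, ← intervalIntegral.integral_add_adjacent_intervals
          (hch.intervalIntegrable l c2) (hch.intervalIntegrable c2 x)]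
        have : 0 ≤ ∫ b in c2..x, √b * gh b := by
          apply intervalIntegral.integral_nonneg hx2
          intro u _
          exact mul_nonneg (Real.sqrt_nonneg u) (hghnn u)
        linarith
      have h3 := (abs_le.1 (hMxb l x (by linarith))).2
      have h4 : κ * U ≤ κ * ∫ b in l..x, √b * gh b := mul_le_mul_of_nonneg_left h2 hκ0.le
      have : 0 < m1 ^ 2 := by positivity
      rw [hv]
      simp only
      rw [h1]
      linarith
  have hsv : ContDiff ℝ ∞ (fun x => √(v x)) := by
    rw [contDiff_iff_contDiffAt]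
    intro x
    exact (Real.contDiffAt_sqrt (hvpos x).ne').comp x hvs.contDiffAt
  have hsvpos : ∀ x, 0 < √(v x) := fun x => Real.sqrt_pos.2 (hvpos x)
  set Q : ℝ → ℝ := fun s => qin s + G s / (4 * √(v s)) with hQ
  have hQs : ContDiff ℝ ∞ Q := by
    refine hq.add (hGs.div (contDiff_const.mul hsv) ?_)
    intro x
    exact (mul_pos four_pos (hsvpos x)).ne'
  have hQ1 : ∀ s ≤ lam0, Q s = qin s := fun s hs => by
    rw [hQ]; simp only; rw [hG0 s hs, zero_div, add_zero]
  have hcs : Continuous fun s => G s / (4 * √(v s)) * √s := by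
    apply Continuous.mul _ (by fun_prop)
    apply Continuous.div hGs.continuous (continuous_const.mul hsv.continuous)
    intro x
    exact (mul_pos four_pos (hsvpos x)).ne'
  -- the mass of `Q`
  have hm0 : ∀ b, ∫ s in l..b, Q s * √s = mi b + (√(v b) - m1) := by
    intro b
    have h1 : ∫ s in l..b, Q s * √s
        = (∫ s in l..b, qin s * √s) + ∫ s in l..b, G s / (4 * √(v s)) * √s := by
      rw [← intervalIntegral.integral_add (hqs.continuous.intervalIntegrable _ _)
        (hcs.intervalIntegrable _ _)]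
      apply intervalIntegral.integral_congr
      intro s _
      rw [hQ]
      simp only
      ring
    rw [h1]
    have h2 : ∫ s in l..b, G s / (4 * √(v s)) * √s = √(v b) - √(v l) := by
      apply intervalIntegral.integral_eq_sub_of_hasDerivAt
      · intro s _
        have := (hvd' s).sqrt (hvpos s).ne'
        refine this.congr_deriv ?_
        have h3 := hsvpos s
        have h4 : w s = √s * G s / 2 := rfl
        rw [h4]
        field_simp
        ring
      · exact hcs.intervalIntegrable _ _
    rw [h2, hv1 l hl0.le, Real.sqrt_sq hm1pos.le]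
  refine ⟨κ, Q, hκ0, hQs, ?_, hQ1, ?_, ?_⟩
  · intro s hs
    rw [hQ1 s (hs.trans hl0.le)]
    exact hq0 s hs
  · intro b hb
    rw [hm0, hmi1 b hb]
    have := hsvpos b
    linarith
  · intro a ha
    have hla : l ≤ a := by linarith [ha.1]
    -- pointwise identity
    have hpt : ∀ b, 4 * Q b * (∫ s in l..b, Q s * √s) = gin b + G b := by
      intro b
      rw [hm0 b]
      have h3 := hsvpos b
      rcases le_total b lam0 with hb | hb
      · rw [hQ1 b hb, hv1 b hb, Real.sqrt_sq hm1pos.le, hG0 b hb, hgin]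
        simp only
        ring
      · rw [hmi1 b hb, hQ, hgin]
        simp only
        rw [hq1 b hb]
        field_simp
        ring
    have h1 : ∫ b in l..a, √(a - b) * (4 * Q b * ∫ s in l..b, Q s * √s)
        = (∫ b in l..a, √(a - b) * gin b) + (κ * (∫ b in l..a, √(a - b) * gh b)
          - ∫ b in l..a, √(a - b) * gx b) := by
      have c1 : Continuous fun b => √(a - b) * gin b := by fun_prop
      have c2 : Continuous fun b => √(a - b) * gh b := by fun_prop
      have c3 : Continuous fun b => √(a - b) * gx b := by fun_prop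
      rw [← intervalIntegral.integral_const_mul, ← intervalIntegral.integral_sub
          ((c2.intervalIntegrable _ _).const_mul κ) (c3.intervalIntegrable _ _),
          ← intervalIntegral.integral_add (c1.intervalIntegrable _ _)
          (((c2.intervalIntegrable _ _).const_mul κ).sub (c3.intervalIntegrable _ _))]
      apply intervalIntegral.integral_congr
      intro b _
      beta_reduce
      rw [hpt b, hG]
      simp only
      ring
    rw [h1, sqrtInt_eq hl hgin0 hgins.continuous hla ha.2,
      sqrt_halfInt hl (fun s hs => hφ0 s (hs.trans hl0.le)) hφ.continuous hla ha.2,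
      sqrt_halfInt hl (fun s hs => hX20 s (by linarith)) hX2s.continuous hla ha.2,
      hφ1 a ha, taylor_two hXs (by linarith : l < c2) hX0 a]
    have : X a = sqrtInt gin a := by
      rw [hX]; simp only; rw [hχ1 a ha, one_mul]
    rw [this]
    ring

end Pool.Agent.Unicorn.B4
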