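import Mathlib
import Pool.Agent.Unicorn.B4a

/-!
# Unicorn, module B4 (step (8)): existence of the base solution
-/

set_option autoImplicit false

open Set Topology Filter MeasureTheory
open scoped ContDiff

namespace Pool.Agent.Unicorn.B4

open B6

/-- smooth step: `0` for `t ≤ 1/2`, `1` for `t ≥ 5/8` -/
noncomputable def stp (t : ℝ) : ℝ := Real.smoothTransition (8 * t - 4)

lemma stp_smooth : ContDiff ℝ ∞ stp := Real.smoothTransition.contDiff.comp (by fun_prop)

lemma stp_zero {t : ℝ} (h : t ≤ 1 / 2) : stp t = 0 :=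
  Real.smoothTransition.zero_of_nonpos (by linarith)

lemma stp_one {t : ℝ} (h : 5 / 8 ≤ t) : stp t = 1 :=
  Real.smoothTransition.one_of_one_le (by linarith)

lemma stp_nonneg (t : ℝ) : 0 ≤ stp t := Real.smoothTransition.nonneg _

lemma stp_le_one (t : ℝ) : stp t ≤ 1 := Real.smoothTransition.le_one _

/-- smooth cutoff: `1` for `t ≤ 1`, `0` for `t ≥ 2` -/
noncomputable def cut (t : ℝ) : ℝ := Real.smoothTransition (2 - t)

lemma cut_smooth : ContDiff ℝ ∞ cut := Real.smoothTransition.contDiff.comp (by fun_prop)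

lemma cut_one {t : ℝ} (h : t ≤ 1) : cut t = 1 :=
  Real.smoothTransition.one_of_one_le (by linarith)

lemma cut_zero {t : ℝ} (h : 2 ≤ t) : cut t = 0 :=
  Real.smoothTransition.zero_of_nonpos (by linarith)

lemma cut_nonneg (t : ℝ) : 0 ≤ cut t := Real.smoothTransition.nonneg _

lemma stp_cut_compact : HasCompactSupport (fun t => stp t * cut t) := by
  refine HasCompactSupport.intro (isCompact_Icc (a := (1/2 : ℝ)) (b := 2)) ?_
  intro t ht
  rw [mem_Icc, not_and_or, not_le, not_le] at ht
  rcases ht with ht | ht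
  · rw [stp_zero ht.le, zero_mul]
  · rw [cut_zero ht.le, mul_zero]

/-- mass defect -/
noncomputable def mM : ℝ := ∫ t in (0:ℝ)..1, 2 * (1 - stp t)

/-- first moment of the defect -/
noncomputable def mu1 : ℝ := ∫ t in (0:ℝ)..1, 2 * t * (1 - stp t)

lemma cont1 : Continuous fun t => 2 * (1 - stp t) := by
  have := stp_smooth.continuous
  fun_prop

lemma cont2 : Continuous fun t => 2 * t * (1 - stp t) := by
  have := stp_smooth.continuous
  fun_prop

lemma split58 {f : ℝ → ℝ} (hf : Continuous f) (h0 : ∀ t, 5 / 8 ≤ t → f t = 0) {a : ℝ}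
    (ha : 5 / 8 ≤ a) : ∫ t in (0:ℝ)..a, f t = ∫ t in (0:ℝ)..(5/8), f t := by
  rw [← intervalIntegral.integral_add_adjacent_intervals (hf.intervalIntegrable 0 (5/8))
    (hf.intervalIntegrable (5/8) a)]
  rw [intervalIntegral.integral_congr (a := 5/8) (b := a) (g := fun _ => 0)]
  · simp
  · intro s hs
    rw [uIcc_of_le ha] at hs
    exact h0 s hs.1

lemma mM_ge : 1 ≤ mM := by
  unfold mM
  have h1 : ∫ t in (0:ℝ)..(1/2), (2 : ℝ) = 1 := by simp
  have h2 : ∫ t in (0:ℝ)..(1/2), 2 * (1 - stp t) = 1 := by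
    refine Eq.trans ?_ h1
    apply intervalIntegral.integral_congr
    intro t ht
    rw [uIcc_of_le (by norm_num)] at ht
    beta_reduce
    rw [stp_zero ht.2]; ring
  rw [← intervalIntegral.integral_add_adjacent_intervals (cont1.intervalIntegrable 0 (1/2))
    (cont1.intervalIntegrable (1/2) 1), h2]
  have : 0 ≤ ∫ t in (1/2:ℝ)..1, 2 * (1 - stp t) := by
    apply intervalIntegral.integral_nonneg (by norm_num)
    intro t _
    have := stp_le_one t
    linarith
  linarith

lemma mM_le : mM ≤ 5 / 4 := by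
  unfold mM
  rw [split58 cont1 (fun t ht => by rw [stp_one ht]; ring) (by norm_num)]
  have h1 : ∫ t in (0:ℝ)..(5/8), (2 : ℝ) = 5 / 4 := by simp; norm_num
  rw [← h1]
  apply intervalIntegral.integral_mono_on (by norm_num) (cont1.intervalIntegrable _ _)
    (continuous_const.intervalIntegrable _ _)
  intro t _
  have := stp_nonneg t
  linarith

lemma mu1_ge : 1 / 4 ≤ mu1 := by
  unfold mu1
  have h1 : ∫ t in (0:ℝ)..(1/2), (2 * t : ℝ) = 1 / 4 := by
    rw [intervalIntegral.integral_const_mul, integral_id]; norm_num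
  have h2 : ∫ t in (0:ℝ)..(1/2), 2 * t * (1 - stp t) = 1 / 4 := by
    refine Eq.trans ?_ h1
    apply intervalIntegral.integral_congr
    intro t ht
    rw [uIcc_of_le (by norm_num)] at ht
    beta_reduce
    rw [stp_zero ht.2]; ring
  rw [← intervalIntegral.integral_add_adjacent_intervals (cont2.intervalIntegrable 0 (1/2))
    (cont2.intervalIntegrable (1/2) 1), h2]
  have : 0 ≤ ∫ t in (1/2:ℝ)..1, 2 * t * (1 - stp t) := by
    apply intervalIntegral.integral_nonneg (by norm_num)
    intro t ht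
    have h3 := stp_le_one t
    have h4 : 0 ≤ 1 - stp t := by linarith
    have h5 : 0 ≤ t := by linarith [ht.1]
    positivity
  linarith

lemma mu1_le : mu1 ≤ 25 / 64 := by
  unfold mu1
  rw [split58 cont2 (fun t ht => by rw [stp_one ht]; ring) (by norm_num)]
  have h1 : ∫ t in (0:ℝ)..(5/8), (2 * t : ℝ) = 25 / 64 := by
    rw [intervalIntegral.integral_const_mul, integral_id]; norm_num
  rw [← h1]
  apply intervalIntegral.integral_mono_on (by norm_num) (cont2.intervalIntegrable _ _)
    ((by fun_prop : Continuous fun t : ℝ => 2 * t).intervalIntegrable _ _)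
  intro t ht
  have h3 := stp_nonneg t
  nlinarith [ht.1]

/-- centre of the bump -/
noncomputable def c0 : ℝ := mu1 / mM

lemma mM_pos : 0 < mM := by have := mM_ge; linarith

lemma c0_ge : 1 / 5 ≤ c0 := by
  unfold c0
  rw [le_div_iff₀ mM_pos]
  have := mM_le; have := mu1_ge; linarith

lemma c0_le : c0 ≤ 25 / 64 := by
  unfold c0
  rw [div_le_iff₀ mM_pos]
  have := mM_ge; have := mu1_le; linarith

lemma mM_mul_c0 : mM * c0 = mu1 := by
  unfold c0
  have := mM_pos.ne'
  field_simp

/-- the bump -/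
noncomputable def bmp : ContDiffBump c0 := ⟨1 / 32, 1 / 16, by norm_num, by norm_num⟩

noncomputable def bB (t : ℝ) : ℝ := bmp.normed volume t

lemma bB_smooth : ContDiff ℝ ∞ bB := bmp.contDiff_normed

lemma bB_nonneg (t : ℝ) : 0 ≤ bB t := bmp.nonneg_normed t

lemma bB_compact : HasCompactSupport bB := bmp.hasCompactSupport_normed

lemma bB_zero {t : ℝ} (h : 1 / 16 ≤ |t - c0|) : bB t = 0 := by
  have h1 : t ∉ Function.support (bmp.normed volume) := by
    rw [bmp.support_normed_eq, Metric.mem_ball, Real.dist_eq]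
    exact not_lt.2 h
  rw [Function.mem_support, not_not] at h1
  exact h1

lemma bB_symm (t : ℝ) : bB (c0 - t) = bB (c0 + t) := bmp.normed_sub t

lemma bB_int : ∫ t, bB t = 1 := bmp.integral_normed

lemma bB_moment {l a : ℝ} (hl : l ≤ 1 / 8) (ha : 1 / 2 ≤ a) :
    ∫ s in l..a, (a - s) * bB s = a - c0 := by
  have h1 := c0_ge
  have h2 := c0_le
  have hc : Continuous bB := bB_smooth.continuous
  rw [intervalIntegral.integral_eq_integral_of_support_subset]
  · have e1 : ∫ s, (a - s) * bB s = ∫ t, (a - (c0 + t)) * bB (c0 + t) :=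
      (integral_add_left_eq_self (fun s => (a - s) * bB s) c0).symm
    have hcs : HasCompactSupport (fun t => bB (c0 + t)) := by
      refine HasCompactSupport.intro (isCompact_Icc (a := (-1 : ℝ)) (b := 1)) ?_
      intro t ht
      apply bB_zero
      rw [mem_Icc, not_and_or, not_le, not_le] at ht
      rw [add_sub_cancel_left]
      rcases ht with ht | ht
      · rw [abs_of_neg (by linarith)]; linarith
      · rw [abs_of_pos (by linarith)]; linarith
    have i1 : Integrable (fun t => bB (c0 + t)) :=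
      (by fun_prop : Continuous fun t => bB (c0 + t)).integrable_of_hasCompactSupport hcs
    have i2 : Integrable (fun t => t * bB (c0 + t)) :=
      (by fun_prop : Continuous fun t => t * bB (c0 + t)).integrable_of_hasCompactSupport
        hcs.mul_left
    have e2 : ∫ t, (a - (c0 + t)) * bB (c0 + t)
        = (a - c0) * (∫ t, bB (c0 + t)) - ∫ t, t * bB (c0 + t) := by
      rw [← integral_const_mul, ← integral_sub (i1.const_mul _) i2]
      congr 1
      funext t
      ring
    have e3 : ∫ t, bB (c0 + t) = 1 := by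
      rw [integral_add_left_eq_self (fun s => bB s) c0]; exact bB_int
    have e4 : ∫ t, t * bB (c0 + t) = 0 := by
      have h3 := integral_neg_eq_self (fun t => t * bB (c0 + t)) volume
      have h4 : (fun t => -t * bB (c0 + -t)) = fun t => -(t * bB (c0 + t)) := by
        funext t
        rw [← sub_eq_add_neg, bB_symm]; ring
      rw [h4, integral_neg] at h3
      linarith
    rw [e1, e2, e3, e4]
    ring
  · intro s hs
    rw [Function.mem_support] at hs
    by_contra hcon
    apply hs
    rw [mem_Ioc, not_and_or, not_lt, not_le] at hcon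
    rw [bB_zero, mul_zero]
    rcases hcon with h | h
    · rw [abs_of_neg (by linarith)]; linarith
    · rw [abs_of_pos (by linarith)]; linarith

/-- `φ = h''` -/
noncomputable def phi (t : ℝ) : ℝ := 2 * (stp t * cut t) + mM * bB t

lemma phi_smooth : ContDiff ℝ ∞ phi :=
  (contDiff_const.mul (stp_smooth.mul cut_smooth)).add (contDiff_const.mul bB_smooth)

lemma phi_compact : HasCompactSupport phi :=
  (stp_cut_compact.mul_left (f := fun _ => (2:ℝ))).add (bB_compact.mul_left (f := fun _ => mM))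

lemma phi_nonneg (t : ℝ) : 0 ≤ phi t := by
  unfold phi
  have h1 := stp_nonneg t
  have h2 := cut_nonneg t
  have h3 := mM_pos
  have h4 := bB_nonneg t
  positivity

lemma phi_zero {t : ℝ} (ht : t ≤ 1 / 8) : phi t = 0 := by
  unfold phi
  rw [stp_zero (by linarith), bB_zero]
  · ring
  · have := c0_ge
    rw [abs_of_neg (by linarith)]; linarith

lemma phi_int {l a : ℝ} (hl0 : 0 ≤ l) (hl : l ≤ 1 / 8) (ha : 1 / 2 ≤ a) (ha1 : a ≤ 1) :
    ∫ s in l..a, (a - s) * phi s = (∫ s in (0:ℝ)..a, (a - s) * (2 * stp s)) + mM * (a - c0) := by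
  have hc1 : Continuous stp := stp_smooth.continuous
  have hc2 : Continuous bB := bB_smooth.continuous
  have e1 : ∫ s in l..a, (a - s) * phi s
      = (∫ s in l..a, (a - s) * (2 * stp s)) + mM * ∫ s in l..a, (a - s) * bB s := by
    rw [← intervalIntegral.integral_const_mul, ← intervalIntegral.integral_add]
    · apply intervalIntegral.integral_congr
      intro s hs
      rw [uIcc_of_le (by linarith)] at hs
      beta_reduce
      unfold phi
      rw [cut_one (hs.2.trans ha1)]
      ring
    · exact (by fun_prop : Continuous fun s => (a - s) * (2 * stp s)).intervalIntegrable _ _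
    · exact (by fun_prop : Continuous fun s => mM * ((a - s) * bB s)).intervalIntegrable _ _
  rw [e1, bB_moment hl ha]
  congr 1
  have hc : Continuous fun s => (a - s) * (2 * stp s) := by fun_prop
  rw [← intervalIntegral.integral_add_adjacent_intervals (a := 0) (b := l) (c := a)
    (hc.intervalIntegrable _ _) (hc.intervalIntegrable _ _)]
  rw [intervalIntegral.integral_congr (a := 0) (b := l) (g := fun _ => 0)]
  · simp
  · intro s hs
    rw [uIcc_of_le hl0] at hs
    beta_reduce
    rw [stp_zero (by linarith [hs.2])]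
    ring

lemma phi_sq {l a : ℝ} (hl0 : 0 ≤ l) (hl : l ≤ 1 / 8) (ha : 5 / 8 ≤ a) (ha1 : a ≤ 1) :
    ∫ s in l..a, (a - s) * phi s = a ^ 2 := by
  rw [phi_int hl0 hl (by linarith) ha1]
  have hc1 : Continuous stp := stp_smooth.continuous
  have e1 : ∫ s in (0:ℝ)..a, (a - s) * (2 * stp s)
      = (∫ s in (0:ℝ)..a, (2 * a - 2 * s)) - (a * (∫ s in (0:ℝ)..a, 2 * (1 - stp s))
        - ∫ s in (0:ℝ)..a, 2 * s * (1 - stp s)) := by
    rw [← intervalIntegral.integral_const_mul, ← intervalIntegral.integral_sub,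
      ← intervalIntegral.integral_sub]
    · apply intervalIntegral.integral_congr
      intro s _
      ring
    · exact (by fun_prop : Continuous fun s : ℝ => (2 * a - 2 * s)).intervalIntegrable _ _
    · exact (by fun_prop : Continuous fun s : ℝ => a * (2 * (1 - stp s))
        - 2 * s * (1 - stp s)).intervalIntegrable _ _
    · exact (by fun_prop : Continuous fun s : ℝ => a * (2 * (1 - stp s))).intervalIntegrable _ _
    · exact (by fun_prop : Continuous fun s : ℝ => 2 * s * (1 - stp s)).intervalIntegrable _ _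
  have e2 : ∫ s in (0:ℝ)..a, 2 * (1 - stp s) = mM := by
    unfold mM
    rw [split58 cont1 (fun t ht => by rw [stp_one ht]; ring) ha,
      split58 cont1 (fun t ht => by rw [stp_one ht]; ring) (by norm_num : (5:ℝ)/8 ≤ 1)]
  have e3 : ∫ s in (0:ℝ)..a, 2 * s * (1 - stp s) = mu1 := by
    unfold mu1
    rw [split58 cont2 (fun t ht => by rw [stp_one ht]; ring) ha,
      split58 cont2 (fun t ht => by rw [stp_one ht]; ring) (by norm_num : (5:ℝ)/8 ≤ 1)]
  have e4 : ∫ s in (0:ℝ)..a, (2 * a - 2 * s) = a ^ 2 := by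
    rw [intervalIntegral.integral_sub (by simp)
      ((by fun_prop : Continuous fun s : ℝ => 2 * s).intervalIntegrable _ _),
      intervalIntegral.integral_const, intervalIntegral.integral_const_mul, integral_id]
    simp only [smul_eq_mul]
    ring
  rw [e1, e2, e3, e4]
  have := mM_mul_c0
  linarith

lemma phi_half_pos : 0 < ∫ s in (1/16:ℝ)..(1/2), (1/2 - s) * phi s := by
  rw [phi_int (by norm_num) (by norm_num) le_rfl (by norm_num)]
  have h1 : ∫ s in (0:ℝ)..(1/2), (1/2 - s) * (2 * stp s) = 0 := by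
    rw [intervalIntegral.integral_congr (g := fun _ => 0)]
    · simp
    · intro s hs
      rw [uIcc_of_le (by norm_num)] at hs
      beta_reduce
      rw [stp_zero hs.2]; ring
  rw [h1, zero_add]
  apply mul_pos mM_pos
  have := c0_le
  linarith

/-- the initial bump -/
noncomputable def qbmp : ContDiffBump (3 / 32 : ℝ) := ⟨1 / 128, 1 / 64, by norm_num, by norm_num⟩

lemma qbmp_zero_left {s : ℝ} (hs : s ≤ 1 / 16) : qbmp s = 0 := by
  apply qbmp.zero_of_le_dist
  rw [Real.dist_eq, abs_of_neg (by linarith)]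
  show (1 / 64 : ℝ) ≤ _
  linarith

lemma qbmp_zero_right {s : ℝ} (hs : 1 / 8 ≤ s) : qbmp s = 0 := by
  apply qbmp.zero_of_le_dist
  rw [Real.dist_eq, abs_of_pos (by linarith)]
  show (1 / 64 : ℝ) ≤ _
  linarith

/-- **Step (8): the base solution** `q0` with `𝒯(0,q0) = κ0` on `[3/4, 1]`. Here `l = 1/16`,
`λ_1 = 1/8`, and `Ξ(0,q0) = 4 q0 𝔪0`. -/
theorem exists_base : ∃ (κ0 : ℝ) (Q : C(ℝ, ℝ)), 0 < κ0 ∧ ContDiff ℝ ∞ Q ∧
    (∀ s ≤ 1 / 16, Q s = 0) ∧ (∃ s ∈ Ioo (1 / 16 : ℝ) (1 / 8), Q s ≠ 0) ∧
    (∀ b, 1 / 8 ≤ b → 0 < ∫ s in (1 / 16 : ℝ)..b, Q s * √s) ∧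
    (∀ a ∈ Icc (3 / 4 : ℝ) 1,
      ∫ b in (1 / 16 : ℝ)..a, √(a - b) * (4 * Q b * ∫ s in (1 / 16 : ℝ)..b, Q s * √s)
        = κ0 * a ^ 2) := by
  obtain ⟨κ0, Q, h1, h2, h3, h4, h5, h6⟩ := base_core (l := 1 / 16) (lam0 := 1 / 8) (c2 := 1 / 2)
    (b1 := 3 / 4) (by norm_num) (by norm_num) (by norm_num) (by norm_num) (by norm_num)
    (qin := qbmp) qbmp.contDiff (fun s => qbmp.nonneg) (fun s hs => qbmp_zero_left hs)
    (fun s hs => qbmp_zero_right hs)
    ⟨3 / 32, by rw [qbmp.one_of_mem_closedBall (by simp [qbmp.rIn_pos.le])]; norm_num⟩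
    phi_smooth phi_compact phi_nonneg (fun s hs => phi_zero hs) phi_half_pos
    (fun a ha => phi_sq (by norm_num) (by norm_num) (by linarith [ha.1]) ha.2)
    (χ := fun t => stp t * cut t) (stp_smooth.mul cut_smooth) stp_cut_compact
    (fun s hs => by rw [stp_zero hs, zero_mul])
    (fun s hs => by rw [stp_one (by linarith [hs.1]), cut_one hs.2, one_mul])
  refine ⟨κ0, ⟨Q, h2.continuous⟩, h1, h2, h3, ⟨3 / 32, by constructor <;> norm_num, ?_⟩, h5, h6⟩
  show Q (3 / 32) ≠ 0
  rw [h4 _ (by norm_num), qbmp.one_of_mem_closedBall (by simp [qbmp.rIn_pos.le])]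
  norm_num

end Pool.Agent.Unicorn.B4
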