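import Pool.Agent.Unicorn.B7_L5
import Pool.Agent.Unicorn.B7_L2

/-!
# Unicorn, Part B: `KEval` for small `q`, and the fields `abel`, `T_eq` of `ESys` unconditionally
-/

set_option autoImplicit false

open Set MeasureTheory intervalIntegral Filter Topology
open scoped ContDiff BoundedContinuousFunction

namespace Pool.Agent.Unicorn

variable {l : ℝ} [h0 : Fact (0 < l)] [h1 : Fact (l < 1)]

/-- the kernels are the kernels of module B2 -/
theorem keval {q : XX l} (hq : ‖q‖ < rr l) : KEval l q where
  W := WW_sol hq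
  k0 := K0_apply (WW_near hq)
  k1 := K1_apply (WW_near hq)
  k2 := K2_apply (WW_near hq)

/-- the field `T_eq` of `ESys` -/
theorem T_eq_field {ε : ℝ} {q : XX l} (hq : ‖ε • q‖ < rr l) (a : Icc l 1) :
    ε ^ 2 * Tt ε q a
      = (∫ s in l..a, (ε • q) (projIcc l 1 h1.out.le s) * √s / Ee (ε • q) s a)
        + ∫ s in l..a, (-(ε • q)) (projIcc l 1 h1.out.le s) * √s / Ee (-(ε • q)) s a :=
  T_field (keval hq) (keval (by rw [norm_neg]; exact hq)) a

end Pool.Agent.Unicorn
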