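import Mathlib

/-!
# Unicorn, Part B: spaces and operators (module B0)

`TT l J = {(s,λ,x) : l ≤ s ≤ λ ≤ 1, x ∈ J}`, `DD l J = {(λ,x) : l ≤ λ ≤ 1, x ∈ J}` with `J = [0,1]`
(closed) or `J = (0,1)` (open); the function spaces are `BoundedContinuousFunction`s on these.
-/

set_option autoImplicit false

open Set MeasureTheory intervalIntegral Filter Topology
open scoped ContDiff BoundedContinuousFunction

namespace Pool.Agent.Unicorn

/-- the triangle domain: points `(s, λ, x)` -/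
def TT (l : ℝ) (J : Set ℝ) : Type :=
  {p : ℝ × ℝ × ℝ // l ≤ p.1 ∧ p.1 ≤ p.2.1 ∧ p.2.1 ≤ 1 ∧ p.2.2 ∈ J}

/-- the domain of points `(λ, x)` -/
def DD (l : ℝ) (J : Set ℝ) : Type := {p : ℝ × ℝ // l ≤ p.1 ∧ p.1 ≤ 1 ∧ p.2 ∈ J}

noncomputable instance (l : ℝ) (J : Set ℝ) : MetricSpace (TT l J) :=
  inferInstanceAs (MetricSpace {p : ℝ × ℝ × ℝ // l ≤ p.1 ∧ p.1 ≤ p.2.1 ∧ p.2.1 ≤ 1 ∧ p.2.2 ∈ J})
noncomputable instance (l : ℝ) (J : Set ℝ) : MetricSpace (DD l J) :=
  inferInstanceAs (MetricSpace {p : ℝ × ℝ // l ≤ p.1 ∧ p.1 ≤ 1 ∧ p.2 ∈ J})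

lemma isClosed_tri (l : ℝ) :
    IsClosed {p : ℝ × ℝ × ℝ | l ≤ p.1 ∧ p.1 ≤ p.2.1 ∧ p.2.1 ≤ 1} :=
  (isClosed_le continuous_const continuous_fst).inter
    ((isClosed_le continuous_fst (by fun_prop)).inter
      (isClosed_le (continuous_fst.comp continuous_snd) continuous_const))

lemma isClosed_strip (l : ℝ) : IsClosed {p : ℝ × ℝ | l ≤ p.1 ∧ p.1 ≤ 1} :=
  (isClosed_le continuous_const continuous_fst).inter
    (isClosed_le continuous_fst continuous_const)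

instance (l : ℝ) : CompactSpace (TT l (Icc 0 1)) := by
  have h : IsCompact {p : ℝ × ℝ × ℝ | l ≤ p.1 ∧ p.1 ≤ p.2.1 ∧ p.2.1 ≤ 1 ∧
      p.2.2 ∈ Icc (0:ℝ) 1} := by
    refine IsCompact.of_isClosed_subset (isCompact_Icc (a := ((l, l, 0) : ℝ × ℝ × ℝ))
      (b := ((1, 1, 1) : ℝ × ℝ × ℝ))) ?_ ?_
    · have h2 : IsClosed {p : ℝ × ℝ × ℝ | p.2.2 ∈ Icc (0:ℝ) 1} :=
        isClosed_Icc.preimage (by fun_prop)
      convert (isClosed_tri l).inter h2 using 1
      ext p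
      simp only [mem_ofPred_eq, mem_inter_iff, and_assoc]
    · rintro ⟨s, lam, x⟩ ⟨h1, h2, h3, h4⟩
      simp only at h1 h2 h3 h4
      exact ⟨⟨h1, h1.trans h2, h4.1⟩, ⟨h2.trans h3, h3, h4.2⟩⟩
  exact isCompact_iff_compactSpace.1 h

instance (l : ℝ) : CompactSpace (DD l (Icc 0 1)) := by
  have h : IsCompact {p : ℝ × ℝ | l ≤ p.1 ∧ p.1 ≤ 1 ∧ p.2 ∈ Icc (0:ℝ) 1} := by
    refine IsCompact.of_isClosed_subset (isCompact_Icc (a := ((l, 0) : ℝ × ℝ))
      (b := ((1, 1) : ℝ × ℝ))) ?_ ?_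
    · have h2 : IsClosed {p : ℝ × ℝ | p.2 ∈ Icc (0:ℝ) 1} :=
        isClosed_Icc.preimage (by fun_prop)
      convert (isClosed_strip l).inter h2 using 1
      ext p
      simp only [mem_ofPred_eq, mem_inter_iff, and_assoc]
    · rintro ⟨lam, x⟩ ⟨h1, h2, h3⟩
      simp only at h1 h2 h3
      exact ⟨⟨h1, h3.1⟩, ⟨h2, h3.2⟩⟩
  exact isCompact_iff_compactSpace.1 h

instance (l : ℝ) : LocallyCompactSpace (TT l (Ioo 0 1)) := by
  have h : IsLocallyClosed {p : ℝ × ℝ × ℝ | l ≤ p.1 ∧ p.1 ≤ p.2.1 ∧ p.2.1 ≤ 1 ∧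
      p.2.2 ∈ Ioo (0:ℝ) 1} := by
    have h2 : IsOpen {p : ℝ × ℝ × ℝ | p.2.2 ∈ Ioo (0:ℝ) 1} := isOpen_Ioo.preimage (by fun_prop)
    convert (isClosed_tri l).isLocallyClosed.inter h2.isLocallyClosed using 1
    ext p
    simp only [mem_ofPred_eq, mem_inter_iff, and_assoc]
  exact h.locallyCompactSpace

instance (l : ℝ) : LocallyCompactSpace (DD l (Ioo 0 1)) := by
  have h : IsLocallyClosed {p : ℝ × ℝ | l ≤ p.1 ∧ p.1 ≤ 1 ∧ p.2 ∈ Ioo (0:ℝ) 1} := by
    have h2 : IsOpen {p : ℝ × ℝ | p.2 ∈ Ioo (0:ℝ) 1} := isOpen_Ioo.preimage (by fun_prop)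
    convert (isClosed_strip l).isLocallyClosed.inter h2.isLocallyClosed using 1
    ext p
    simp only [mem_ofPred_eq, mem_inter_iff, and_assoc]
  exact h.locallyCompactSpace

/-- `X = C([l,1])` -/
abbrev XX (l : ℝ) := C(Icc l 1, ℝ)
/-- functions on the closed triangle domain -/
abbrev AC (l : ℝ) := TT l (Icc 0 1) →ᵇ ℝ
/-- functions on the open triangle domain -/
abbrev AO (l : ℝ) := TT l (Ioo 0 1) →ᵇ ℝ
/-- functions of `(λ,x)`, `x ∈ [0,1]` -/
abbrev DC (l : ℝ) := DD l (Icc 0 1) →ᵇ ℝ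
/-- functions of `(λ,x)`, `x ∈ (0,1)` -/
abbrev DO (l : ℝ) := DD l (Ioo 0 1) →ᵇ ℝ

variable {l : ℝ} {J : Set ℝ}

namespace TT

/-- the coordinate `s` of a point of `TT` -/
def s (p : TT l J) : ℝ := p.1.1
/-- the coordinate `λ` of a point of `TT` -/
def lam (p : TT l J) : ℝ := p.1.2.1
/-- the coordinate `x` of a point of `TT` -/
def x (p : TT l J) : ℝ := p.1.2.2
/-- `a - s = x + λ - s` -/
def rho (p : TT l J) : ℝ := p.x + p.lam - p.s

lemma l_le_s (p : TT l J) : l ≤ p.s := p.2.1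
lemma s_le_lam (p : TT l J) : p.s ≤ p.lam := p.2.2.1
lemma lam_le (p : TT l J) : p.lam ≤ 1 := p.2.2.2.1
lemma x_mem (p : TT l J) : p.x ∈ J := p.2.2.2.2
lemma l_le_lam (p : TT l J) : l ≤ p.lam := p.l_le_s.trans p.s_le_lam

lemma continuous_val : Continuous (fun p : TT l J => (p.1 : ℝ × ℝ × ℝ)) := continuous_subtype_val

@[fun_prop] lemma continuous_s : Continuous (s : TT l J → ℝ) := continuous_fst.comp continuous_val
@[fun_prop] lemma continuous_lam : Continuous (lam : TT l J → ℝ) :=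
  (continuous_fst.comp continuous_snd).comp continuous_val
@[fun_prop] lemma continuous_x : Continuous (x : TT l J → ℝ) :=
  (continuous_snd.comp continuous_snd).comp continuous_val
@[fun_prop] lemma continuous_rho : Continuous (rho : TT l J → ℝ) := by unfold rho; fun_prop

/-- make a point -/
def mk (s lam x : ℝ) (h1 : l ≤ s) (h2 : s ≤ lam) (h3 : lam ≤ 1) (h4 : x ∈ J) : TT l J :=
  ⟨(s, lam, x), h1, h2, h3, h4⟩

@[ext] lemma ext {p q : TT l J} (h1 : p.s = q.s) (h2 : p.lam = q.lam) (h3 : p.x = q.x) : p = q :=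
  Subtype.ext (Prod.ext h1 (Prod.ext h2 h3))

/-- move the first coordinate -/
def at' (p : TT l J) (r : ℝ) : TT l J :=
  ⟨(max l (min r p.lam), p.lam, p.x), le_max_left _ _,
    max_le (p.l_le_s.trans p.s_le_lam) (min_le_right _ _), p.lam_le, p.x_mem⟩

lemma at'_s (p : TT l J) {r : ℝ} (h1 : l ≤ r) (h2 : r ≤ p.lam) : (p.at' r).s = r := by
  simp [at', s, h1, h2]
@[simp] lemma at'_lam (p : TT l J) (r : ℝ) : (p.at' r).lam = p.lam := rfl
@[simp] lemma at'_x (p : TT l J) (r : ℝ) : (p.at' r).x = p.x := rfl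

lemma continuous_at' : Continuous (fun z : TT l J × ℝ => z.1.at' z.2) := by
  refine Continuous.subtype_mk (f := fun z : TT l J × ℝ =>
    ((max l (min z.2 z.1.lam), z.1.lam, z.1.x) : ℝ × ℝ × ℝ)) ?_ _
  fun_prop

end TT

namespace DD

/-- the coordinate `λ` -/
def lam (d : DD l J) : ℝ := d.1.1
/-- the coordinate `x` -/
def x (d : DD l J) : ℝ := d.1.2

lemma l_le (d : DD l J) : l ≤ d.lam := d.2.1
lemma lam_le (d : DD l J) : d.lam ≤ 1 := d.2.2.1
lemma x_mem (d : DD l J) : d.x ∈ J := d.2.2.2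

lemma continuous_val : Continuous (fun p : DD l J => (p.1 : ℝ × ℝ)) := continuous_subtype_val
@[fun_prop] lemma continuous_lam : Continuous (lam : DD l J → ℝ) :=
  continuous_fst.comp continuous_val
@[fun_prop] lemma continuous_x : Continuous (x : DD l J → ℝ) := continuous_snd.comp continuous_val

/-- make a point -/
def mk (lam x : ℝ) (h1 : l ≤ lam) (h2 : lam ≤ 1) (h3 : x ∈ J) : DD l J := ⟨(lam, x), h1, h2, h3⟩

@[ext] lemma ext {p q : DD l J} (h1 : p.lam = q.lam) (h2 : p.x = q.x) : p = q :=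
  Subtype.ext (Prod.ext h1 h2)

/-- the point `(r, λ, x)` -/
def at' (d : DD l J) (r : ℝ) : TT l J :=
  ⟨(max l (min r d.lam), d.lam, d.x), le_max_left _ _,
    max_le d.l_le (min_le_right _ _), d.lam_le, d.x_mem⟩

lemma at'_s (d : DD l J) {r : ℝ} (h1 : l ≤ r) (h2 : r ≤ d.lam) : (d.at' r).s = r := by
  simp [at', TT.s, h1, h2]
@[simp] lemma at'_lam (d : DD l J) (r : ℝ) : (d.at' r).lam = d.lam := rfl
@[simp] lemma at'_x (d : DD l J) (r : ℝ) : (d.at' r).x = d.x := rfl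

lemma continuous_at' : Continuous (fun z : DD l J × ℝ => z.1.at' z.2) := by
  refine Continuous.subtype_mk (f := fun z : DD l J × ℝ =>
    ((max l (min z.2 z.1.lam), z.1.lam, z.1.x) : ℝ × ℝ × ℝ)) ?_ _
  fun_prop

end DD

/-- total continuous extension of `q ∈ C([l,1])` -/
noncomputable def qe [h : Fact (l < 1)] (q : XX l) : ℝ → ℝ := IccExtend h.out.le q

lemma qe_apply [h : Fact (l < 1)] (q : XX l) (r : Icc l 1) : qe q r = q r := by
  simp [qe]

lemma qe_of_mem [h : Fact (l < 1)] (q : XX l) {r : ℝ} (hr : r ∈ Icc l 1) : qe q r = q ⟨r, hr⟩ :=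
  IccExtend_of_mem _ _ hr

lemma continuous_qe [h : Fact (l < 1)] (q : XX l) : Continuous (qe q) :=
  q.continuous.Icc_extend'

instance [h : Fact (l < 1)] : Nonempty (TT l (Icc 0 1)) :=
  ⟨TT.mk l l 0 le_rfl le_rfl h.out.le ⟨le_rfl, zero_le_one⟩⟩
instance [h : Fact (l < 1)] : Nonempty (TT l (Ioo 0 1)) :=
  ⟨TT.mk l l (1/2) le_rfl le_rfl h.out.le ⟨by norm_num, by norm_num⟩⟩
instance [h : Fact (l < 1)] : Nonempty (DD l (Icc 0 1)) :=
  ⟨DD.mk l 0 le_rfl h.out.le ⟨le_rfl, zero_le_one⟩⟩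
instance [h : Fact (l < 1)] : Nonempty (DD l (Ioo 0 1)) :=
  ⟨DD.mk l (1/2) le_rfl h.out.le ⟨by norm_num, by norm_num⟩⟩

/-! ### pull-backs -/

/-- the inclusion of the open into the closed triangle domain -/
def TT.incl (p : TT l (Ioo 0 1)) : TT l (Icc 0 1) := ⟨p.1, p.2.1, p.2.2.1, p.2.2.2.1,
  Ioo_subset_Icc_self p.2.2.2.2⟩

lemma TT.continuous_incl : Continuous (TT.incl : TT l (Ioo 0 1) → TT l (Icc 0 1)) :=
  Continuous.subtype_mk TT.continuous_val _

/-- the inclusion of the open into the closed domain -/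
def DD.incl (p : DD l (Ioo 0 1)) : DD l (Icc 0 1) := ⟨p.1, p.2.1, p.2.2.1,
  Ioo_subset_Icc_self p.2.2.2⟩

lemma DD.continuous_incl : Continuous (DD.incl : DD l (Ioo 0 1) → DD l (Icc 0 1)) :=
  Continuous.subtype_mk DD.continuous_val _

/-- restriction `AC → AO` -/
noncomputable def res : AC l →L[ℝ] AO l :=
  LinearMap.mkContinuous
    { toFun := fun g => g.compContinuous ⟨TT.incl, TT.continuous_incl⟩
      map_add' := fun _ _ => rfl
      map_smul' := fun _ _ => rfl } 1 (fun g => by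
        rw [one_mul, BoundedContinuousFunction.norm_le (norm_nonneg _)]
        intro p
        exact g.norm_coe_le_norm _)

@[simp] lemma res_apply (g : AC l) (p : TT l (Ioo 0 1)) : res g p = g p.incl := rfl
lemma res_mul (g h : AC l) : res (g * h) = res g * res h := rfl
lemma res_one : res (1 : AC l) = 1 := rfl

/-- `q(s)` as a function on `TT l J` -/
noncomputable def qT (J : Set ℝ) : XX l →L[ℝ] (TT l J →ᵇ ℝ) :=
  LinearMap.mkContinuous
    { toFun := fun q => (BoundedContinuousFunction.mkOfCompact q).compContinuous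
        ⟨fun p : TT l J => (⟨p.s, p.l_le_s, p.s_le_lam.trans p.lam_le⟩ : Icc l 1), by
          exact Continuous.subtype_mk TT.continuous_s _⟩
      map_add' := fun _ _ => rfl
      map_smul' := fun _ _ => rfl } 1 (fun q => by
        rw [one_mul, BoundedContinuousFunction.norm_le (norm_nonneg _)]
        intro p
        exact q.norm_coe_le_norm _)

lemma qT_apply (q : XX l) (p : TT l J) :
    qT J q p = q ⟨p.s, p.l_le_s, p.s_le_lam.trans p.lam_le⟩ := rfl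

lemma qT_apply' [Fact (l < 1)] (q : XX l) (p : TT l J) : qT J q p = qe q p.s := by
  rw [qT_apply, qe_of_mem _ ⟨p.l_le_s, p.s_le_lam.trans p.lam_le⟩]

end Pool.Agent.Unicorn
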