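import Pool.Agent.Unicorn.Defs

/-!
# Unicorn, module C2 (first half): one branch of the orbit

A `Branch q a σ` is the energy `E(s)` (`s = c²`) along one monotone branch of the orbit of
`c'' = 2 c q(c²) c' - c` with amplitude `√a`.
-/

set_option autoImplicit false

open Set MeasureTheory intervalIntegral Real
open scoped ContDiff Topology

namespace Pool.Agent.Unicorn

/-- The energy as a function of `s = c²` along one branch of the orbit. -/
structure Branch (q : ℝ → ℝ) (a σ : ℝ) where
  E : ℝ → ℝ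
  hd : ∀ s ∈ Icc 0 a, HasDerivAt E (2 * σ * (q s * √(E s - s))) s
  ha : E a = a
  hpos : ∀ s ∈ Ico 0 a, s < E s
  hc : Continuous E

/-- From the integral equation to a `Branch`. -/
theorem exists_branch {q : ℝ → ℝ} (hq : Continuous q) {a σ : ℝ} (ha : 0 < a) {E : ℝ → ℝ}
    (hc : ContinuousOn E (Icc 0 a)) (hpos : ∀ s ∈ Ico 0 a, s < E s)
    (hE : ∀ s ∈ Icc 0 a, E s = a - 2 * σ * ∫ r in s..a, q r * √(E r - r)) :
    ∃ B : Branch q a σ, ∀ s ∈ Icc 0 a, B.E s = E s := by
  set F : ℝ → ℝ := fun r => q r * √(E (projIcc 0 a ha.le r) - r) with hF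
  have hEc : Continuous (fun r : ℝ => E (projIcc 0 a ha.le r)) := by
    have := hc.domRestrict.comp (continuous_projIcc (h := ha.le))
    exact this
  have hFc : Continuous F := by
    refine hq.mul ?_
    exact (hEc.sub continuous_id).sqrt
  have hFE : ∀ r ∈ Icc 0 a, F r = q r * √(E r - r) := by
    intro r hr
    simp only [hF]
    rw [projIcc_of_mem ha.le hr]
  set G : ℝ → ℝ := fun s => a - 2 * σ * ∫ r in s..a, F r with hG
  have hGd : ∀ s, HasDerivAt G (2 * σ * F s) s := by
    intro s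
    have h1 : HasDerivAt (fun s => ∫ r in s..a, F r) (-F s) s :=
      intervalIntegral.integral_hasDerivAt_left (hFc.intervalIntegrable _ _)
        (hFc.stronglyMeasurableAtFilter _ _) hFc.continuousAt
    have h2 := (h1.const_mul (2 * σ)).const_sub a
    refine h2.congr_deriv ?_
    ring
  have hGE : ∀ s ∈ Icc 0 a, G s = E s := by
    intro s hs
    rw [hE s hs]
    simp only [hG]
    congr 2
    refine intervalIntegral.integral_congr ?_
    intro r hr
    rw [uIcc_of_le hs.2] at hr
    exact hFE r ⟨hs.1.trans hr.1, hr.2⟩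
  refine ⟨⟨G, ?_, ?_, ?_, ?_⟩, hGE⟩
  · intro s hs
    have := hGd s
    rw [hFE s hs, ← hGE s hs] at this
    exact this
  · simp [hG]
  · intro s hs
    rw [hGE s ⟨hs.1, hs.2.le⟩]
    exact hpos s hs
  · exact continuous_iff_continuousAt.2 fun s => (hGd s).continuousAt

namespace Branch

variable {q : ℝ → ℝ} {a σ : ℝ} (B : Branch q a σ)

/-- `ω(s) = √((E(s)-s)/(a-s))`. -/
noncomputable def om (s : ℝ) : ℝ := if s = a then 1 else √((B.E s - s) / (a - s))

theorem om_pos {s : ℝ} (hs : s ∈ Icc 0 a) : 0 < B.om s := by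
  unfold om
  split_ifs with h
  · exact one_pos
  · have h1 : s < a := lt_of_le_of_ne hs.2 h
    exact Real.sqrt_pos.2 (div_pos (sub_pos.2 (B.hpos s ⟨hs.1, h1⟩)) (sub_pos.2 h1))

theorem om_sq {s : ℝ} (hs : s ∈ Icc 0 a) : (a - s) * B.om s ^ 2 = B.E s - s := by
  unfold om
  split_ifs with h
  · rw [h, B.ha]; ring
  · have h1 : s < a := lt_of_le_of_ne hs.2 h
    have h2 := sub_pos.2 (B.hpos s ⟨hs.1, h1⟩)
    have h3 := sub_pos.2 h1
    rw [Real.sq_sqrt (div_pos h2 h3).le]
    field_simp

theorem om_continuousOn (ha : 0 < a) : ContinuousOn B.om (Icc 0 a) := by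
  intro s hs
  by_cases h : s = a
  · -- the limit at the turning point
    subst h
    have hEs : HasDerivAt (fun x => B.E x - x) (-1) s := by
      have h1 := (B.hd s hs).sub (hasDerivAt_id s)
      refine h1.congr_deriv ?_
      rw [B.ha]; simp
    have hslope := (hasDerivAt_iff_tendsto_slope.1 hEs)
    have h2 : Filter.Tendsto (fun x => (B.E x - x) / (s - x)) (𝓝[≠] s) (𝓝 1) := by
      have := hslope.neg
      simp only [neg_neg] at this
      refine this.congr' ?_
      filter_upwards [self_mem_nhdsWithin] with x hx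
      have hx' : x - s ≠ 0 := sub_ne_zero.2 hx
      have hx'' : s - x ≠ 0 := by rw [← neg_sub]; exact neg_ne_zero.2 hx'
      simp only [slope, B.ha, vsub_eq_sub, sub_self, sub_zero, smul_eq_mul]
      field_simp
      ring
    have h3 : Filter.Tendsto (fun x => √((B.E x - x) / (s - x))) (𝓝[≠] s) (𝓝 1) := by
      have := (Real.continuous_sqrt.tendsto 1).comp h2
      simpa [Function.comp_def] using this
    have h4 : Filter.Tendsto B.om (𝓝[≠] s) (𝓝 1) := by
      refine h3.congr' ?_
      filter_upwards [self_mem_nhdsWithin] with x hx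
      have hx' : x ≠ s := hx
      simp [om, hx']
    have h5 : ContinuousAt B.om s := by
      rw [continuousAt_iff_punctured_nhds]
      simpa [om] using h4
    exact h5.continuousWithinAt
  · have h1 : s < a := lt_of_le_of_ne hs.2 h
    have h3 : (a - s) ≠ 0 := (sub_pos.2 h1).ne'
    have hcont : ContinuousAt (fun x => √((B.E x - x) / (a - x))) s := by
      have hE := B.hc.continuousAt (x := s)
      exact ((hE.sub continuousAt_id).div (continuousAt_const.sub continuousAt_id) h3).sqrt
    refine (hcont.congr ?_).continuousWithinAt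
    filter_upwards [isOpen_ne.mem_nhds h] with x hx
    have hx' : x ≠ a := hx
    simp [om, hx']

/-- `s` along the regularised angle. -/
theorem scos_mem (ha : 0 < a) (τ : ℝ) : a * cos τ ^ 2 ∈ Icc 0 a := by
  have h1 := Real.sin_sq_add_cos_sq τ
  constructor
  · positivity
  · nlinarith [sq_nonneg (sin τ)]

theorem om_comp_continuous (ha : 0 < a) : Continuous (fun τ => B.om (a * cos τ ^ 2)) := by
  have h1 : Continuous (fun τ : ℝ => a * cos τ ^ 2) := by fun_prop
  exact (B.om_continuousOn ha).comp_continuous h1 (fun τ => scos_mem ha τ)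

/-- `E(s) - s` along the regularised angle. -/
theorem sub_eq (ha : 0 < a) (τ : ℝ) :
    B.E (a * cos τ ^ 2) - a * cos τ ^ 2 = a * sin τ ^ 2 * B.om (a * cos τ ^ 2) ^ 2 := by
  rw [← B.om_sq (scos_mem ha τ)]
  have h1 := Real.sin_sq_add_cos_sq τ
  have : a - a * cos τ ^ 2 = a * sin τ ^ 2 := by
    have : cos τ ^ 2 = 1 - sin τ ^ 2 := by linarith
    rw [this]; ring
  rw [this]

/-- The signed square root `√(E-s)` along the regularised angle. -/
theorem sqrt_eq (ha : 0 < a) (τ : ℝ) :
    √(B.E (a * cos τ ^ 2) - a * cos τ ^ 2) = √a * |sin τ| * B.om (a * cos τ ^ 2) := by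
  rw [B.sub_eq ha]
  have h0 := (B.om_pos (scos_mem ha τ)).le
  rw [Real.sqrt_eq_iff_mul_self_eq (by positivity) (by positivity)]
  have h1 : √a * √a = a := Real.mul_self_sqrt ha.le
  have h2 : |sin τ| * |sin τ| = sin τ ^ 2 := by rw [abs_mul_abs_self]; ring
  symm
  calc √a * |sin τ| * B.om (a * cos τ ^ 2) * (√a * |sin τ| * B.om (a * cos τ ^ 2))
      = (√a * √a) * (|sin τ| * |sin τ|) * B.om (a * cos τ ^ 2) ^ 2 := by ring
    _ = _ := by rw [h1, h2]

theorem hasDerivAt_D (ha : 0 < a) (τ : ℝ) :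
    HasDerivAt (fun τ => B.E (a * cos τ ^ 2) - a * cos τ ^ 2)
      ((2 * σ * (q (a * cos τ ^ 2) * √(B.E (a * cos τ ^ 2) - a * cos τ ^ 2)) - 1)
        * (-(2 * a * cos τ * sin τ))) τ := by
  have hs : HasDerivAt (fun τ : ℝ => a * cos τ ^ 2) (-(2 * a * cos τ * sin τ)) τ := by
    have h1 := ((Real.hasDerivAt_cos τ).pow 2).const_mul a
    refine h1.congr_deriv ?_
    simp; ring
  have h2 := (B.hd _ (scos_mem ha τ)).comp τ hs
  have h3 := h2.sub hs
  refine h3.congr_deriv ?_
  ring

/-- Derivative of `√(E-s)` along the regularised angle. -/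
theorem hasDerivAt_sqrtD (ha : 0 < a) {τ : ℝ} (hτ : sin τ ≠ 0) :
    HasDerivAt (fun τ => √(B.E (a * cos τ ^ 2) - a * cos τ ^ 2))
      ((2 * σ * (q (a * cos τ ^ 2) * √(B.E (a * cos τ ^ 2) - a * cos τ ^ 2)) - 1)
        * (-(2 * a * cos τ * sin τ)) / (2 * √(B.E (a * cos τ ^ 2) - a * cos τ ^ 2))) τ := by
  refine (B.hasDerivAt_D ha τ).sqrt ?_
  rw [B.sub_eq ha]
  have h0 := (B.om_pos (scos_mem ha τ))
  have : 0 < sin τ ^ 2 := by positivity
  positivity

/-- The quarter-period of one branch. -/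
theorem quarter (ha : 0 < a) (hq : Continuous q) :
    ∫ τ in (0:ℝ)..(π / 2), 1 / B.om (a * cos τ ^ 2)
      = π / 2 + σ * ∫ s in (0:ℝ)..a, q s * √s / B.E s := by
  have hπ : (0:ℝ) < π / 2 := by positivity
  have hEpos : ∀ s ∈ Icc 0 a, 0 < B.E s := by
    intro s hs
    by_cases h : s = a
    · rw [h, B.ha]; exact ha
    · exact lt_of_le_of_lt hs.1 (B.hpos s ⟨hs.1, lt_of_le_of_ne hs.2 h⟩)
  set S : ℝ → ℝ := fun τ => a * cos τ ^ 2 with hS
  have hSm : ∀ τ, S τ ∈ Icc 0 a := fun τ => scos_mem ha τ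
  have hSd : ∀ τ, HasDerivAt S (-(2 * a * cos τ * sin τ)) τ := by
    intro τ
    have h1 := ((Real.hasDerivAt_cos τ).pow 2).const_mul a
    refine h1.congr_deriv ?_
    simp; ring
  have hSc : Continuous S := continuous_iff_continuousAt.2 fun τ => (hSd τ).continuousAt
  -- the function `arccos (c/√E)`
  set u : ℝ → ℝ := fun τ => √a * cos τ / √(B.E (S τ)) with hu
  set β : ℝ → ℝ := fun τ => arccos (u τ) with hβ
  have hEc : Continuous (fun τ => B.E (S τ)) := B.hc.comp hSc
  have hsE : ∀ τ, 0 < √(B.E (S τ)) := fun τ => Real.sqrt_pos.2 (hEpos _ (hSm τ))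
  have huc : Continuous u := by
    refine Continuous.div (by fun_prop) hEc.sqrt (fun τ => (hsE τ).ne')
  have hβc : Continuous β := Real.continuous_arccos.comp huc
  set g : ℝ → ℝ := fun τ => 1 / B.om (S τ) + σ * ((q (S τ) * √(S τ) / B.E (S τ))
    * (-(2 * a * cos τ * sin τ))) with hg
  have homc : Continuous (fun τ => 1 / B.om (S τ)) := by
    refine Continuous.div continuous_const (B.om_comp_continuous ha) (fun τ => (B.om_pos (hSm τ)).ne')
  have hqc : Continuous (fun τ => (q (S τ) * √(S τ) / B.E (S τ)) * (-(2 * a * cos τ * sin τ))) := by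
    refine Continuous.mul ?_ (by fun_prop)
    exact Continuous.div ((hq.comp hSc).mul hSc.sqrt) hEc (fun τ => (hEpos _ (hSm τ)).ne')
  have hgc : Continuous g := homc.add (continuous_const.mul hqc)
  have hder : ∀ τ ∈ Ioo 0 (π / 2), HasDerivAt β (g τ) τ := by
    intro τ hτ
    have hsin : 0 < sin τ := Real.sin_pos_of_pos_of_lt_pi hτ.1 (by linarith [hτ.2, Real.pi_pos])
    have hcos : 0 < cos τ := Real.cos_pos_of_mem_Ioo ⟨by linarith [hτ.1], hτ.2⟩
    set P : ℝ := √(B.E (S τ) - S τ) with hP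
    have hPeq : P = √a * sin τ * B.om (S τ) := by
      rw [hP]
      have := B.sqrt_eq ha τ
      rw [abs_of_pos hsin] at this
      exact this
    have hom := B.om_pos (hSm τ)
    have hsa : 0 < √a := Real.sqrt_pos.2 ha
    have hPpos : 0 < P := by rw [hPeq]; positivity
    have hEp := hEpos _ (hSm τ)
    have hP2 : P ^ 2 = B.E (S τ) - S τ := by
      rw [hP, Real.sq_sqrt]
      rw [B.sub_eq ha]
      positivity
    have hR2 : √(B.E (S τ)) ^ 2 = B.E (S τ) := Real.sq_sqrt hEp.le
    have hRpos := hsE τ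
    have hE' : HasDerivAt (fun τ => B.E (S τ))
        ((2 * σ * (q (S τ) * P)) * (-(2 * a * cos τ * sin τ))) τ := by
      have := (B.hd _ (hSm τ)).comp τ (hSd τ)
      exact this
    have hR' : HasDerivAt (fun τ => √(B.E (S τ)))
        ((2 * σ * (q (S τ) * P)) * (-(2 * a * cos τ * sin τ)) / (2 * √(B.E (S τ)))) τ :=
      hE'.sqrt hEp.ne'
    have hu' : HasDerivAt u
        ((-(√a * sin τ) * √(B.E (S τ)) - √a * cos τ *
          ((2 * σ * (q (S τ) * P)) * (-(2 * a * cos τ * sin τ)) / (2 * √(B.E (S τ)))))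
          / √(B.E (S τ)) ^ 2) τ := by
      have h1 : HasDerivAt (fun τ => √a * cos τ) (-(√a * sin τ)) τ := by
        have := (Real.hasDerivAt_cos τ).const_mul (√a)
        refine this.congr_deriv ?_
        ring
      exact h1.div hR' hRpos.ne'
    have hu1 : u τ < 1 := by
      simp only [hu]
      rw [div_lt_one hRpos]
      have : (√a * cos τ) ^ 2 < √(B.E (S τ)) ^ 2 := by
        rw [hR2, mul_pow, Real.sq_sqrt ha.le]
        have : S τ = a * cos τ ^ 2 := rfl
        nlinarith [sq_pos_of_pos hPpos]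
      exact lt_of_pow_lt_pow_left₀ 2 hRpos.le this
    have hu2 : -1 < u τ := by
      have : 0 < u τ := by simp only [hu]; positivity
      linarith
    have hβ' := (Real.hasDerivAt_arccos hu2.ne' hu1.ne).comp τ hu'
    refine hβ'.congr_deriv ?_
    have h1u : √(1 - u τ ^ 2) = P / √(B.E (S τ)) := by
      rw [Real.sqrt_eq_iff_mul_self_eq]
      · have hSτ : √a * √a = a := Real.mul_self_sqrt ha.le
        have : u τ ^ 2 = S τ / B.E (S τ) := by
          simp only [hu]
          rw [div_pow, hR2, mul_pow, Real.sq_sqrt ha.le]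
        rw [this]
        have h3 : P / √(B.E (S τ)) * (P / √(B.E (S τ))) = P ^ 2 / √(B.E (S τ)) ^ 2 := by ring
        rw [h3, hP2, hR2]
        field_simp
      · nlinarith
      · positivity
    rw [h1u]
    have hsqS : √(S τ) = √a * cos τ := by
      simp only [hS]
      rw [Real.sqrt_mul ha.le, Real.sqrt_sq hcos.le]
    simp only [hg]
    rw [hsqS]
    set R : ℝ := √(B.E (S τ)) with hRdef
    rw [← hR2]
    have hPne := hPpos.ne'
    have hRne := hRpos.ne'
    have homne := hom.ne'
    set Q := q (S τ)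
    -- the identity
    have key : -(1 / (P / R)) * ((-(√a * sin τ) * R - √a * cos τ *
        (2 * σ * (Q * P) * -(2 * a * cos τ * sin τ) / (2 * R))) / R ^ 2)
        = √a * sin τ / P + σ * (Q * (√a * cos τ) / R ^ 2 * -(2 * a * cos τ * sin τ)) := by
      field_simp
      ring
    rw [key, hPeq]
    have hsinne := hsin.ne'
    have hsane := hsa.ne'
    congr 1
    field_simp
  have hint : ∫ τ in (0:ℝ)..(π / 2), g τ = β (π / 2) - β 0 :=
    intervalIntegral.integral_eq_sub_of_hasDerivAt_of_le hπ.le hβc.continuousOn hder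
      (hgc.intervalIntegrable _ _)
  have hβ1 : β (π / 2) = π / 2 := by
    simp [hβ, hu]
  have hβ0 : β 0 = 0 := by
    simp only [hβ, hu, hS]
    simp only [Real.cos_zero, one_pow, mul_one]
    rw [B.ha, div_self (Real.sqrt_pos.2 ha).ne', Real.arccos_one]
  have hsub : ∫ τ in (0:ℝ)..(π / 2), (q (S τ) * √(S τ) / B.E (S τ)) * (-(2 * a * cos τ * sin τ))
      = ∫ s in (S 0)..(S (π / 2)), q s * √s / B.E s := by
    have hF : ContinuousOn (fun s => q s * √s / B.E s) (S '' (uIcc 0 (π / 2))) := by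
      refine ContinuousOn.div ((hq.mul Real.continuous_sqrt).continuousOn) B.hc.continuousOn ?_
      rintro s ⟨τ, -, rfl⟩
      exact (hEpos _ (hSm τ)).ne'
    have := intervalIntegral.integral_comp_mul_deriv'' (f := S) (f' := fun τ => -(2 * a * cos τ * sin τ))
      (g := fun s => q s * √s / B.E s) (a := 0) (b := π / 2) hSc.continuousOn
      (fun τ _ => (hSd τ).hasDerivWithinAt) (by fun_prop) hF
    exact this
  have hS0 : S 0 = a := by simp [hS]
  have hS1 : S (π / 2) = 0 := by simp [hS]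
  rw [hS0, hS1, intervalIntegral.integral_symm 0 a] at hsub
  have hsplit : ∫ τ in (0:ℝ)..(π / 2), g τ = (∫ τ in (0:ℝ)..(π / 2), 1 / B.om (S τ))
      + σ * ∫ τ in (0:ℝ)..(π / 2), (q (S τ) * √(S τ) / B.E (S τ)) * (-(2 * a * cos τ * sin τ)) := by
    have hc2 : Continuous (fun τ => σ * ((q (S τ) * √(S τ) / B.E (S τ))
      * (-(2 * a * cos τ * sin τ)))) := continuous_const.mul hqc
    simp only [hg]
    rw [intervalIntegral.integral_add (homc.intervalIntegrable _ _)
      (hc2.intervalIntegrable _ _), intervalIntegral.integral_const_mul]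
  rw [hsplit, hsub, hβ1, hβ0] at hint
  linarith

end Branch

end Pool.Agent.Unicorn
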