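import Pool.Agent.Unicorn.C2a

/-!
# Unicorn, module C2 (second half): the periodic orbit

From the two branches (`v < 0`: `Branch q a (-1)`, `v > 0`: `Branch q a 1`) we build the closed
orbit with amplitude `√a`, via the regularised angle `τ` (`c = √a cos τ`, `dτ/dθ = W(τ)`).
-/

set_option autoImplicit false

open Set MeasureTheory intervalIntegral Real
open scoped ContDiff Topology

namespace Pool.Agent.Unicorn

namespace Orbit

variable {q : ℝ → ℝ} {a : ℝ} (Bp : Branch q a 1) (Bm : Branch q a (-1))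

/-- `dτ/dθ` as a function of the regularised angle. -/
noncomputable def W (τ : ℝ) : ℝ :=
  if 0 ≤ sin τ then Bm.om (a * cos τ ^ 2) else Bp.om (a * cos τ ^ 2)

theorem W_pos (ha : 0 < a) (τ : ℝ) : 0 < W Bp Bm τ := by
  unfold W
  split_ifs
  · exact Bm.om_pos (Branch.scos_mem ha τ)
  · exact Bp.om_pos (Branch.scos_mem ha τ)

theorem W_continuous (ha : 0 < a) : Continuous (W Bp Bm) := by
  unfold W
  refine Continuous.if_le (Bm.om_comp_continuous ha) (Bp.om_comp_continuous ha)
    continuous_const Real.continuous_sin ?_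
  intro τ hτ
  have h1 : cos τ ^ 2 = 1 := by
    have := Real.sin_sq_add_cos_sq τ
    rw [← hτ] at this
    linarith
  rw [h1]
  simp [Branch.om]

theorem W_periodic : Function.Periodic (W Bp Bm) (2 * π) := by
  intro τ
  simp [W]

theorem W_reflect (τ : ℝ) : W Bp Bm (π - τ) = W Bp Bm τ := by
  simp [W]

theorem exists_bound (ha : 0 < a) : ∃ M > 0, ∀ τ, W Bp Bm τ ≤ M := by
  obtain ⟨M1, hM1⟩ := isCompact_Icc.exists_bound_of_continuousOn (Bm.om_continuousOn ha)
  obtain ⟨M2, hM2⟩ := isCompact_Icc.exists_bound_of_continuousOn (Bp.om_continuousOn ha)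
  refine ⟨max (max M1 M2) 1, by positivity, fun τ => ?_⟩
  unfold W
  split_ifs
  · exact (le_abs_self _).trans ((hM1 _ (Branch.scos_mem ha τ)).trans
      ((le_max_left _ _).trans (le_max_left _ _)))
  · exact (le_abs_self _).trans ((hM2 _ (Branch.scos_mem ha τ)).trans
      ((le_max_right _ _).trans (le_max_left _ _)))

/-- The time as a function of the regularised angle. -/
noncomputable def Th (τ : ℝ) : ℝ := ∫ x in (0:ℝ)..τ, 1 / W Bp Bm x

theorem invW_continuous (ha : 0 < a) : Continuous (fun τ => 1 / W Bp Bm τ) :=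
  Continuous.div continuous_const (W_continuous Bp Bm ha) (fun τ => (W_pos Bp Bm ha τ).ne')

theorem hasDerivAt_Th (ha : 0 < a) (τ : ℝ) :
    HasDerivAt (Th Bp Bm) (1 / W Bp Bm τ) τ :=
  intervalIntegral.integral_hasDerivAt_right ((invW_continuous Bp Bm ha).intervalIntegrable _ _)
    ((invW_continuous Bp Bm ha).stronglyMeasurableAtFilter _ _)
    (invW_continuous Bp Bm ha).continuousAt

theorem Th_sub (ha : 0 < a) (x y : ℝ) :
    Th Bp Bm y - Th Bp Bm x = ∫ t in x..y, 1 / W Bp Bm t := by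
  unfold Th
  rw [intervalIntegral.integral_interval_sub_left
    ((invW_continuous Bp Bm ha).intervalIntegrable _ _)
    ((invW_continuous Bp Bm ha).intervalIntegrable _ _)]

theorem Th_strictMono (ha : 0 < a) : StrictMono (Th Bp Bm) :=
  strictMono_of_hasDerivAt_pos (fun τ => hasDerivAt_Th Bp Bm ha τ)
    (fun τ => div_pos one_pos (W_pos Bp Bm ha τ))

theorem Th_continuous (ha : 0 < a) : Continuous (Th Bp Bm) :=
  continuous_iff_continuousAt.2 fun τ => (hasDerivAt_Th Bp Bm ha τ).continuousAt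

theorem Th_zero : Th Bp Bm 0 = 0 := by simp [Th]

theorem Th_surjective (ha : 0 < a) : Function.Surjective (Th Bp Bm) := by
  obtain ⟨M, hM0, hM⟩ := exists_bound Bp Bm ha
  have hle : ∀ t, 1 / M ≤ 1 / W Bp Bm t := fun t =>
    one_div_le_one_div_of_le (W_pos Bp Bm ha t) (hM t)
  refine (Th_continuous Bp Bm ha).surjective ?_ ?_
  · refine Filter.tendsto_atTop_mono' _ ?_
      (Filter.tendsto_id.const_mul_atTop (r := 1 / M) (by positivity))
    filter_upwards [Filter.eventually_ge_atTop 0] with x hx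
    have h1 : ∫ t in (0:ℝ)..x, (1 / M) ≤ ∫ t in (0:ℝ)..x, 1 / W Bp Bm t :=
      intervalIntegral.integral_mono_on hx (continuous_const.intervalIntegrable _ _)
        ((invW_continuous Bp Bm ha).intervalIntegrable _ _) (fun t _ => hle t)
    simp only [intervalIntegral.integral_const, smul_eq_mul, sub_zero] at h1
    simp only [id, Th]
    linarith
  · refine Filter.tendsto_atBot_mono' _ ?_
      (Filter.tendsto_id.const_mul_atBot (r := 1 / M) (by positivity))
    filter_upwards [Filter.eventually_le_atBot 0] with x hx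
    have h1 : ∫ t in x..(0:ℝ), (1 / M) ≤ ∫ t in x..(0:ℝ), 1 / W Bp Bm t :=
      intervalIntegral.integral_mono_on hx (continuous_const.intervalIntegrable _ _)
        ((invW_continuous Bp Bm ha).intervalIntegrable _ _) (fun t _ => hle t)
    simp only [intervalIntegral.integral_const, smul_eq_mul, zero_sub] at h1
    simp only [id, Th]
    rw [intervalIntegral.integral_symm]
    linarith

/-- The order isomorphism `τ ↦ θ`. -/
noncomputable def iso (ha : 0 < a) : ℝ ≃o ℝ :=
  StrictMono.orderIsoOfSurjective (Th Bp Bm) (Th_strictMono Bp Bm ha) (Th_surjective Bp Bm ha)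

/-- The regularised angle as a function of time. -/
noncomputable def T (ha : 0 < a) (x : ℝ) : ℝ := (iso Bp Bm ha).symm x

theorem Th_T (ha : 0 < a) (x : ℝ) : Th Bp Bm (T Bp Bm ha x) = x :=
  (iso Bp Bm ha).apply_symm_apply x

theorem T_Th (ha : 0 < a) (x : ℝ) : T Bp Bm ha (Th Bp Bm x) = x :=
  (iso Bp Bm ha).symm_apply_apply x

theorem T_strictMono (ha : 0 < a) : StrictMono (T Bp Bm ha) := (iso Bp Bm ha).symm.strictMono

theorem T_zero (ha : 0 < a) : T Bp Bm ha 0 = 0 := by
  have := T_Th Bp Bm ha 0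
  rwa [Th_zero] at this

theorem hasDerivAt_T (ha : 0 < a) (x : ℝ) :
    HasDerivAt (T Bp Bm ha) (W Bp Bm (T Bp Bm ha x)) x := by
  have hc : ContinuousAt (T Bp Bm ha) x := (iso Bp Bm ha).symm.continuous.continuousAt
  have h1 := hasDerivAt_Th Bp Bm ha (T Bp Bm ha x)
  have h2 := h1.of_local_left_inverse hc
    (div_pos one_pos (W_pos Bp Bm ha (T Bp Bm ha x))).ne'
    (Filter.Eventually.of_forall fun y => Th_T Bp Bm ha y)
  refine h2.congr_deriv ?_
  simp

/-- The velocity as a function of the regularised angle. -/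
noncomputable def V (τ : ℝ) : ℝ := -(√a * sin τ * W Bp Bm τ)

theorem V_continuous (ha : 0 < a) : Continuous (V Bp Bm) := by
  unfold V
  exact ((continuous_const.mul Real.continuous_sin).mul (W_continuous Bp Bm ha)).neg

/-- The `τ`-derivative of the velocity. -/
noncomputable def V' (τ : ℝ) : ℝ :=
  (2 * q (a * cos τ ^ 2) * V Bp Bm τ - 1) * (√a * cos τ) / W Bp Bm τ

theorem V'_continuous (ha : 0 < a) (hq : Continuous q) : Continuous (V' Bp Bm) := by
  unfold V'
  refine Continuous.div ?_ (W_continuous Bp Bm ha) (fun τ => (W_pos Bp Bm ha τ).ne')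
  refine Continuous.mul ?_ (by fun_prop)
  refine Continuous.sub ?_ continuous_const
  exact (continuous_const.mul (hq.comp (by fun_prop))).mul (V_continuous Bp Bm ha)

theorem hasDerivAt_V_of_ne (ha : 0 < a) {τ : ℝ} (hτ : sin τ ≠ 0) :
    HasDerivAt (V Bp Bm) (V' Bp Bm τ) τ := by
  have hsa : 0 < √a := Real.sqrt_pos.2 ha
  have hsa2 : √a * √a = a := Real.mul_self_sqrt ha.le
  rcases lt_or_gt_of_ne hτ with h | h
  · -- `sin τ < 0`
    have hev : ∀ᶠ x in 𝓝 τ, sin x < 0 := Real.continuous_sin.continuousAt.eventually_lt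
      continuousAt_const h
    have hVeq : ∀ x, sin x < 0 → V Bp Bm x = √(Bp.E (a * cos x ^ 2) - a * cos x ^ 2) := by
      intro x hx
      rw [Bp.sqrt_eq ha x, abs_of_neg hx, V, W, if_neg (not_le.2 hx)]
      ring
    have h1 := Bp.hasDerivAt_sqrtD ha hτ
    have h2 : HasDerivAt (V Bp Bm) _ τ := h1.congr_of_eventuallyEq (hev.mono hVeq)
    refine h2.congr_deriv ?_
    rw [← hVeq τ h]
    have hom := Bp.om_pos (Branch.scos_mem ha τ)
    unfold V'
    have hW : W Bp Bm τ = Bp.om (a * cos τ ^ 2) := by rw [W, if_neg (not_le.2 h)]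
    have hVW : V Bp Bm τ = -(√a * sin τ * Bp.om (a * cos τ ^ 2)) := by rw [V, hW]
    have hVne : V Bp Bm τ ≠ 0 := by
      rw [hVW]
      exact neg_ne_zero.2 (mul_ne_zero (mul_ne_zero hsa.ne' hτ) hom.ne')
    rw [hW, div_eq_div_iff (mul_ne_zero two_ne_zero hVne) hom.ne']
    have e1 : 2 * V Bp Bm τ = -(2 * √a * sin τ * Bp.om (a * cos τ ^ 2)) := by rw [hVW]; ring
    rw [e1]
    have e2 : (2 * a * cos τ * sin τ) = 2 * (√a * √a) * cos τ * sin τ := by rw [hsa2]
    rw [e2]
    ring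
  · -- `sin τ > 0`
    have hev : ∀ᶠ x in 𝓝 τ, 0 < sin x := continuousAt_const.eventually_lt
      Real.continuous_sin.continuousAt h
    have hVeq : ∀ x, 0 < sin x → V Bp Bm x = -√(Bm.E (a * cos x ^ 2) - a * cos x ^ 2) := by
      intro x hx
      rw [Bm.sqrt_eq ha x, abs_of_pos hx, V, W, if_pos hx.le]
    have h1 := (Bm.hasDerivAt_sqrtD ha hτ).neg
    have h2 : HasDerivAt (V Bp Bm) _ τ := h1.congr_of_eventuallyEq (hev.mono hVeq)
    refine h2.congr_deriv ?_
    have hP : √(Bm.E (a * cos τ ^ 2) - a * cos τ ^ 2) = -V Bp Bm τ := by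
      rw [hVeq τ h]; ring
    rw [hP]
    have hom := Bm.om_pos (Branch.scos_mem ha τ)
    unfold V'
    have hW : W Bp Bm τ = Bm.om (a * cos τ ^ 2) := by rw [W, if_pos h.le]
    have hVW : V Bp Bm τ = -(√a * sin τ * Bm.om (a * cos τ ^ 2)) := by rw [V, hW]
    have hVne : V Bp Bm τ ≠ 0 := by
      rw [hVW]
      exact neg_ne_zero.2 (mul_ne_zero (mul_ne_zero hsa.ne' hτ) hom.ne')
    rw [← neg_div, hW, div_eq_div_iff (mul_ne_zero two_ne_zero (neg_ne_zero.2 hVne)) hom.ne']
    have e1 : 2 * -V Bp Bm τ = (2 * √a * sin τ * Bm.om (a * cos τ ^ 2)) := by rw [hVW]; ring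
    rw [e1]
    have e2 : (2 * a * cos τ * sin τ) = 2 * (√a * √a) * cos τ * sin τ := by rw [hsa2]
    rw [e2]
    ring

theorem hasDerivAt_V (ha : 0 < a) (hq : Continuous q) (τ : ℝ) :
    HasDerivAt (V Bp Bm) (V' Bp Bm τ) τ := by
  have hcount : {x : ℝ | sin x = 0}.Countable := by
    refine (Set.countable_range (fun n : ℤ => (n : ℝ) * π)).mono ?_
    intro x hx
    obtain ⟨n, hn⟩ := Real.sin_eq_zero_iff.1 hx
    exact ⟨n, hn⟩
  have hV'c := V'_continuous Bp Bm ha hq
  have hint : ∀ x, ∫ y in (0:ℝ)..x, V' Bp Bm y = V Bp Bm x - V Bp Bm 0 := by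
    intro x
    refine MeasureTheory.integral_eq_of_hasDerivAt_off_countable (V Bp Bm) (V' Bp Bm) hcount
      (V_continuous Bp Bm ha).continuousOn ?_ (hV'c.intervalIntegrable _ _)
    intro y hy
    exact hasDerivAt_V_of_ne Bp Bm ha hy.2
  have h1 : HasDerivAt (fun x => ∫ y in (0:ℝ)..x, V' Bp Bm y) (V' Bp Bm τ) τ :=
    intervalIntegral.integral_hasDerivAt_right (hV'c.intervalIntegrable _ _)
      (hV'c.stronglyMeasurableAtFilter _ _) hV'c.continuousAt
  have h2 : HasDerivAt (fun x => V Bp Bm x - V Bp Bm 0) (V' Bp Bm τ) τ := by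
    refine h1.congr_of_eventuallyEq (Filter.Eventually.of_forall fun x => ?_)
    exact (hint x).symm
  have h3 := h2.add_const (V Bp Bm 0)
  simpa using h3

/-- Half a period. -/
theorem half_period (ha : 0 < a) (hq : Continuous q) :
    ∫ τ in (-(π / 2))..(π / 2), 1 / W Bp Bm τ
      = π + ((∫ s in (0:ℝ)..a, q s * √s / Bp.E s) - (∫ s in (0:ℝ)..a, q s * √s / Bm.E s)) := by
  have hπ := Real.pi_pos
  have hc := invW_continuous Bp Bm ha
  have h1 : ∫ τ in (0:ℝ)..(π / 2), 1 / W Bp Bm τ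
      = ∫ τ in (0:ℝ)..(π / 2), 1 / Bm.om (a * cos τ ^ 2) := by
    refine intervalIntegral.integral_congr ?_
    intro τ hτ
    rw [uIcc_of_le (by positivity)] at hτ
    have : 0 ≤ sin τ := Real.sin_nonneg_of_nonneg_of_le_pi hτ.1 (by linarith [hτ.2])
    simp only [W, if_pos this]
  have h2 : ∫ τ in (-(π / 2))..(0:ℝ), 1 / W Bp Bm τ
      = ∫ τ in (0:ℝ)..(π / 2), 1 / Bp.om (a * cos τ ^ 2) := by
    have e1 := intervalIntegral.integral_comp_neg (a := (0:ℝ)) (b := π / 2)
      (fun τ => 1 / W Bp Bm τ)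
    rw [neg_zero] at e1
    rw [← e1]
    refine intervalIntegral.integral_congr ?_
    intro τ hτ
    rw [uIcc_of_le (by positivity)] at hτ
    simp only [W, Real.sin_neg, Real.cos_neg]
    by_cases h0 : sin τ = 0
    · have h1 : cos τ ^ 2 = 1 := by
        have := Real.sin_sq_add_cos_sq τ
        rw [h0] at this
        linarith
      rw [h1]
      simp [Branch.om]
    · have h3 : 0 ≤ sin τ := Real.sin_nonneg_of_nonneg_of_le_pi hτ.1 (by linarith [hτ.2])
      have h4 : ¬ (0 ≤ -sin τ) := by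
        have : 0 < sin τ := lt_of_le_of_ne h3 (Ne.symm h0)
        linarith
      rw [if_neg h4]
  rw [← intervalIntegral.integral_add_adjacent_intervals (b := 0)
    (hc.intervalIntegrable _ _) (hc.intervalIntegrable _ _), h1, h2,
    Bp.quarter ha hq, Bm.quarter ha hq]
  ring

theorem full_period (ha : 0 < a) (τ : ℝ) :
    ∫ t in τ..(τ + 2 * π), 1 / W Bp Bm t
      = 2 * ∫ t in (-(π / 2))..(π / 2), 1 / W Bp Bm t := by
  have hc := invW_continuous Bp Bm ha
  have hper : Function.Periodic (fun t => 1 / W Bp Bm t) (2 * π) := by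
    intro t
    simp only [W_periodic Bp Bm t]
  rw [hper.intervalIntegral_add_eq τ (-(π / 2))]
  rw [← intervalIntegral.integral_add_adjacent_intervals (b := π / 2)
    (hc.intervalIntegrable _ _) (hc.intervalIntegrable _ _)]
  have h1 : ∫ t in (π / 2)..(-(π / 2) + 2 * π), 1 / W Bp Bm t
      = ∫ t in (-(π / 2))..(π / 2), 1 / W Bp Bm t := by
    have e1 := intervalIntegral.integral_comp_sub_left (a := -(π / 2)) (b := π / 2)
      (fun τ => 1 / W Bp Bm τ) π
    have e2 : π - π / 2 = π / 2 := by ring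
    have e3 : π - -(π / 2) = -(π / 2) + 2 * π := by ring
    rw [e2, e3] at e1
    rw [← e1]
    refine intervalIntegral.integral_congr ?_
    intro τ _
    simp only [W_reflect]
  rw [h1]
  ring

end Orbit

open Orbit in
/-- The periodic orbit with amplitude `√a`. -/
theorem orbit_exists {q : ℝ → ℝ} (hq : Continuous q) {a : ℝ} (ha : 0 < a)
    (Bp : Branch q a 1) (Bm : Branch q a (-1)) {κ : ℝ}
    (hκ : (∫ s in (0:ℝ)..a, q s * √s / Bp.E s) - (∫ s in (0:ℝ)..a, q s * √s / Bm.E s) = κ) :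
    ∃ c v : ℝ → ℝ, c 0 = √a ∧ v 0 = 0 ∧ (∀ x, HasDerivAt c (v x) x) ∧
      (∀ x, HasDerivAt v (2 * c x * q (c x ^ 2) * v x - c x) x) ∧
      (∀ x, c (x + 2 * (π + κ)) = c x) ∧ 0 < π + κ ∧
      (∃ θ₀, ∀ θ ∈ Ico θ₀ (θ₀ + 2 * (π + κ)), c θ = 0 →
        θ = θ₀ ∨ θ = θ₀ + 2 * (π + κ) / 2) ∧
      (∀ ξ ∈ Ioo 0 (√a), ∃ θ, c θ = ξ ∧ v θ ≠ 0) := by
  have hπ := Real.pi_pos
  have hsa : 0 < √a := Real.sqrt_pos.2 ha
  have hH : ∫ τ in (-(π / 2))..(π / 2), 1 / W Bp Bm τ = π + κ := by
    rw [half_period Bp Bm ha hq, hκ]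
  have hHpos : 0 < π + κ := by
    rw [← hH, ← Th_sub Bp Bm ha]
    exact sub_pos.2 (Th_strictMono Bp Bm ha (by linarith))
  have hfull : ∀ τ, Th Bp Bm (τ + 2 * π) = Th Bp Bm τ + 2 * (π + κ) := by
    intro τ
    have := full_period Bp Bm ha τ
    rw [hH, ← Th_sub Bp Bm ha] at this
    linarith
  have hTper : ∀ x, T Bp Bm ha (x + 2 * (π + κ)) = T Bp Bm ha x + 2 * π := by
    intro x
    have := hfull (T Bp Bm ha x)
    rw [Th_T] at this
    rw [← this, T_Th]
  refine ⟨fun x => √a * cos (T Bp Bm ha x), fun x => V Bp Bm (T Bp Bm ha x), ?_, ?_, ?_, ?_, ?_,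
    hHpos, ?_, ?_⟩
  · simp [T_zero]
  · simp [T_zero, V]
  · intro x
    have h1 := ((Real.hasDerivAt_cos _).comp x (hasDerivAt_T Bp Bm ha x)).const_mul (√a)
    refine h1.congr_deriv ?_
    simp only [V]
    ring
  · intro x
    have h1 := (hasDerivAt_V Bp Bm ha hq _).comp x (hasDerivAt_T Bp Bm ha x)
    refine h1.congr_deriv ?_
    have hW := (W_pos Bp Bm ha (T Bp Bm ha x)).ne'
    have e1 : (√a * cos (T Bp Bm ha x)) ^ 2 = a * cos (T Bp Bm ha x) ^ 2 := by
      rw [mul_pow, Real.sq_sqrt ha.le]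
    simp only [V', e1]
    rw [div_mul_cancel₀ _ hW]
    ring
  · intro x
    simp only [hTper, Real.cos_add_two_pi]
  · refine ⟨Th Bp Bm (-(π / 2)), ?_⟩
    intro θ hθ h0
    have hcos : cos (T Bp Bm ha θ) = 0 := by
      rcases mul_eq_zero.1 h0 with h | h
      · exact absurd h hsa.ne'
      · exact h
    have hlo : -(π / 2) ≤ T Bp Bm ha θ := by
      have := (T_strictMono Bp Bm ha).monotone hθ.1
      rwa [T_Th] at this
    have hhi : T Bp Bm ha θ < -(π / 2) + 2 * π := by
      have h1 : Th Bp Bm (-(π / 2)) + 2 * (π + κ) = Th Bp Bm (-(π / 2) + 2 * π) := (hfull _).symm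
      have := T_strictMono Bp Bm ha (lt_of_lt_of_eq hθ.2 h1)
      rwa [T_Th] at this
    obtain ⟨k, hk⟩ := Real.cos_eq_zero_iff.1 hcos
    have hk1 : (-1 : ℝ) ≤ k := by
      by_contra hcon
      rw [not_le] at hcon
      have : (k : ℝ) ≤ -2 := by
        have : k < -1 := by exact_mod_cast hcon
        exact_mod_cast (by omega : k ≤ -2)
      nlinarith
    have hk2 : (k : ℝ) < 1 := by
      by_contra hcon
      rw [not_lt] at hcon
      nlinarith
    have hk1' : -1 ≤ k := by exact_mod_cast hk1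
    have hk2' : k < 1 := by exact_mod_cast hk2
    have hcases : k = -1 ∨ k = 0 := by omega
    rcases hcases with rfl | rfl
    · left
      have : T Bp Bm ha θ = -(π / 2) := by rw [hk]; push_cast; ring
      rw [← this, Th_T]
    · right
      have h1 : T Bp Bm ha θ = π / 2 := by rw [hk]; push_cast; ring
      have h2 : Th Bp Bm (π / 2) - Th Bp Bm (-(π / 2)) = π + κ := by
        rw [Th_sub Bp Bm ha, hH]
      have h3 : θ = Th Bp Bm (π / 2) := by rw [← h1, Th_T]
      rw [h3]
      linarith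
  · intro ξ hξ
    have h1 : 0 < ξ / √a := div_pos hξ.1 hsa
    have h2 : ξ / √a < 1 := (div_lt_one hsa).2 hξ.2
    refine ⟨Th Bp Bm (arccos (ξ / √a)), ?_, ?_⟩
    · simp only [T_Th]
      rw [Real.cos_arccos (by linarith) h2.le]
      field_simp
    · simp only [T_Th, V]
      have hsin : 0 < sin (arccos (ξ / √a)) := by
        rw [Real.sin_arccos]
        apply Real.sqrt_pos.2
        nlinarith
      have hW := W_pos Bp Bm ha (arccos (ξ / √a))
      have : 0 < √a * sin (arccos (ξ / √a)) * W Bp Bm (arccos (ξ / √a)) := by positivity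
      linarith

end Pool.Agent.Unicorn
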